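import Pool.Agent.MP_9ab903_nt.NAB.A10

/-!
# [NG] general analytic core: Eisenstein–Kronecker cocycle for `GL_n(ℤ[ω])` with a character

Blueprint: `/team-store/NG_BLUEPRINT.md`. `x, w ∈ ℂⁿ`, hermitian matrices `P₁, …, P_n`,
`SS w x P = πⁿ ∫_{a>0} ∑_{v ∈ x + ℤ[ω]ⁿ} e(Re (w·v)) conj (det (P_1 v, …, P_n v)) exp (-π (∑ a_i P_i)(v)) da`.
-/

set_option autoImplicit false

open scoped ComplexConjugate Matrix
open MeasureTheory Set Filter Topology

namespace NG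

open CM27 NAB

/-- Complex matrices. -/
abbrev Mc (n : ℕ) : Type := Matrix (Fin n) (Fin n) ℂ

/-- Matrices over `ℤ[ω]`. -/
abbrev Me (n : ℕ) : Type := Matrix (Fin n) (Fin n) Eis

variable {n : ℕ}

/-- The embedding of `ℤ[ω]ⁿ`. -/
noncomputable def em (m : Fin n → Eis) : Fin n → ℂ := fun i => emb (m i)

/-- The lattice `ℤ[ω]ⁿ`. -/
def Lz (n : ℕ) : Set (Fin n → ℂ) := Set.range em

/-- The embedding of matrices. -/
noncomputable def cm (M : Me n) : Mc n := M.map emb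

/-- `∑ |v_i|²` -/
noncomputable def nrm (v : Fin n → ℂ) : ℝ := ∑ i, ‖v i‖ ^ 2

/-- The additive character `v ↦ exp (2 π i Re (w · v))`. -/
noncomputable def ch (w v : Fin n → ℂ) : ℂ :=
  Complex.exp (2 * Real.pi * Complex.I * (((w ⬝ᵥ v).re : ℝ) : ℂ))

/-- The value of the hermitian form `P`. -/
noncomputable def hq (P : Mc n) (v : Fin n → ℂ) : ℝ := (star v ⬝ᵥ (P *ᵥ v)).re

/-- Positive definite hermitian forms. -/
def PD (P : Mc n) : Prop := P.IsHermitian ∧ ∀ v, v ≠ 0 → 0 < hq P v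

/-- The hermitian form `|l · v|²`. -/
noncomputable def sq (l : Fin n → ℂ) : Mc n := Matrix.vecMulVec (star l) l

/-- The antiholomorphic polynomial `conj (det (P_1 v, …, P_n v))`. -/
noncomputable def nu (P : Fin n → Mc n) (v : Fin n → ℂ) : ℂ :=
  conj (Matrix.det (Matrix.of fun i j => (P j *ᵥ v) i))

/-- Antiholomorphic monomials. -/
noncomputable def mo (k : Fin n → ℕ) (v : Fin n → ℂ) : ℂ := ∏ i, conj (v i) ^ k i

/-- Theta functions. -/
noncomputable def th (w x : Fin n → ℂ) (p : (Fin n → ℂ) → ℂ) (P : Mc n) : ℂ :=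
  ∑' m : Fin n → Eis, ch w (x + em m) * p (x + em m)
    * ((Real.exp (-(Real.pi * hq P (x + em m))) : ℝ) : ℂ)

/-- The open orthant. -/
def qd (n : ℕ) : Set (Fin n → ℝ) := {a | ∀ i, 0 < a i}

/-- The Eisenstein–Kronecker cocycle. -/
noncomputable def SS (w x : Fin n → ℂ) (P : Fin n → Mc n) : ℂ :=
  (Real.pi : ℂ) ^ n * ∫ a in qd n, th w x (nu P) (∑ i, (a i : ℂ) • P i)

/-- The dual lattice of `ℤ[ω]`: `Re (θ a) ∈ ℤ` for all `a`. -/
def Dl : Set ℂ := {θ | ∀ a : Eis, ∃ k : ℤ, (θ * emb a).re = k}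

/-- One-dimensional theta functions with a character. -/
noncomputable def T1 (k : ℕ) (s : ℝ) (z θ : ℂ) : ℂ :=
  ∑' a : Eis, Complex.exp (2 * Real.pi * Complex.I * (((θ * (z + emb a)).re : ℝ) : ℂ))
    * conj (z + emb a) ^ k * ((Real.exp (-(Real.pi * s * ‖z + emb a‖ ^ 2)) : ℝ) : ℂ)

/-- The regularised sum of `e(Re θ(z+a)) / (z + a)`. -/
noncomputable def Xi (z θ : ℂ) : ℂ := (Real.pi : ℂ) * ∫ u in Ioi (0 : ℝ), T1 1 u z θ

/-- A basis of linear forms (the rows of `A`) adapted to `w` and `x`. -/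
structure Good (w x : Fin n → ℂ) (A : Me n) : Prop where
  det : A.det ≠ 0
  gx : ∀ (i : Fin n) (m : Fin n → Eis), (cm A *ᵥ (x + em m)) i ≠ 0
  gw : ∀ j, (w ᵥ* cm A.adjugate) j ∉ Dl

/-- The limit value at the cusps. -/
noncomputable def Psi (w x : Fin n → ℂ) (A : Me n) : ℂ := SS w x fun i => sq (cm A i)

/-- The theta function on the diagonal forms `∑ b_j |L_j v|²`. -/
noncomputable def ThD (w x : Fin n → ℂ) (L : Mc n) (b : Fin n → ℝ) : ℂ :=
  th w x (fun v => ∏ j, conj (L j ⬝ᵥ v)) (∑ j, (b j : ℂ) • sq (L j))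

/-! ### Tori -/

section
variable {r : ℕ}

/-- `∏ E_i ^ t_i` -/
noncomputable def Ex (E : Fin r → Fin (r + 1) → ℝ) (t : Fin r → ℝ) : Fin (r + 1) → ℝ :=
  fun j => ∏ i, E i j ^ t i

/-- The determinant with rows `1, log E_1, …, log E_r`. -/
noncomputable def JE (E : Fin r → Fin (r + 1) → ℝ) : ℝ :=
  Matrix.det (Matrix.of (Fin.cons (fun _ => (1 : ℝ)) (fun i j => Real.log (E i j)) :
    Fin (r + 1) → Fin (r + 1) → ℝ))

/-- The torus integral. -/
noncomputable def TI (w x : Fin (r + 1) → ℂ) (L : Mc (r + 1)) (E : Fin r → Fin (r + 1) → ℝ)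
    (s : ℂ) : ℂ :=
  ∫ t in Icc (0 : Fin r → ℝ) 1, ∫ σ in Ioi (0 : ℝ),
    (σ : ℂ) ^ ((r + 1 : ℂ) * s + r) * ThD w x L (σ • Ex E t)

/-- The sets `{π 0, …, π (k-1)}`. -/
def JJ (π : Equiv.Perm (Fin r)) (k : Fin (r + 1)) : Finset (Fin r) :=
  (Finset.univ.filter fun j : Fin r => (j : ℕ) < (k : ℕ)).image π

/-- The sum over the flags of the faces of the cube `[0,1]^r`. -/
noncomputable def FF {X : Type} (act : Finset (Fin r) → X → X) (f : (Fin (r + 1) → X) → ℂ)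
    (P : Finset (Fin r) → X) : ℂ :=
  ∑ π : Equiv.Perm (Fin r), ∑ g : Finset (Fin r), ((Equiv.Perm.sign π : ℤ) : ℂ) * (-1) ^ g.card
    * f fun k => act (g \ JJ π k) (P (JJ π k))

end

end NG
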