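import Pool.Agent.MP_9ab903_nt.NG.G5a

/-! ## [NG-G10] diagonal forms and the torus integral

`SS_diag`: `nu_lin`, `nu_sq`, exchange of the sums. `ThD_bound`: `∑ σ p_j |L_j v|²` is comparable to `σ nrm v` for `p` in a compact set
(`PD_sqs_bounds`), `TB`, `prod_poly`. `ThD_inv`: `∑ b_j ‖ε_j‖² sq (L_j) = Mᴴ (∑ b_j sq (L_j)) M` (`sq_conj`, `sq_smul`), reindex as in
`SS_equiv`, `∏ ε_j = det M = 1` (`L M = diag(ε) L`). `TI_entire`: `hasDerivAt_integral_of_dominated_loc_of_deriv_le` (or `ThD_bound` and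
differentiation under the integral sign), `[0,1]^r` compact, `Ex E t` in a compact subset of `qd`. -/

set_option autoImplicit false

open scoped ComplexConjugate Matrix
open MeasureTheory Set Filter Topology

namespace NG

open CM27 NAB

variable {n : ℕ}

private theorem g10_qd_eq (n : ℕ) : qd n = Set.univ.pi fun _ : Fin n => Ioi (0 : ℝ) := by
  ext a
  simp [qd]

private theorem g10_qd_meas (n : ℕ) : MeasurableSet (qd n) := by
  rw [g10_qd_eq]
  exact MeasurableSet.univ_pi fun _ => measurableSet_Ioi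

private theorem g10_th_mul (w x : Fin n → ℂ) (c : ℂ) (p : (Fin n → ℂ) → ℂ) (P : Mc n) :
    th w x (fun v => c * p v) P = c * th w x p P := by
  unfold th
  rw [← tsum_mul_left]
  refine tsum_congr fun m => ?_
  ring

theorem SS_diag (w x : Fin n → ℂ) (L : Mc n) (P : Matrix (Fin n) (Fin n) ℝ) :
    SS w x (fun i => ∑ j, (P i j : ℂ) • sq (L j)) = (Real.pi : ℂ) ^ n * L.det * ((P.det : ℝ) : ℂ)
      * ∫ a in qd n, ThD w x L (∑ i, a i • P i) := by
  unfold SS
  have h1 : nu (fun i => ∑ j, (P i j : ℂ) • sq (L j)) =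
      fun v => (((P.det : ℝ) : ℂ) * L.det) * ∏ j, conj (L j ⬝ᵥ v) := by
    funext v
    rw [nu_lin P (fun j => sq (L j)) v, nu_sq (fun j => L j) v, mul_assoc]
    rfl
  have h2 : ∀ a : Fin n → ℝ, th w x (nu (fun i => ∑ j, (P i j : ℂ) • sq (L j)))
      (∑ i, (a i : ℂ) • ∑ j, (P i j : ℂ) • sq (L j)) =
      (((P.det : ℝ) : ℂ) * L.det) * ThD w x L (∑ i, a i • P i) := by
    intro a
    rw [h1, g10_th_mul]
    unfold ThD
    congr 2
    simp only [Finset.smul_sum, smul_smul]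
    rw [Finset.sum_comm]
    refine Finset.sum_congr rfl fun j _ => ?_
    rw [← Finset.sum_smul]
    congr 1
    rw [Finset.sum_apply]
    push_cast
    refine Finset.sum_congr rfl fun i _ => ?_
    simp [Pi.smul_apply]
  simp only [h2]
  rw [integral_const_mul]
  ring

private theorem g10_PD (L : Mc n) (hL : L.det ≠ 0) {b : Fin n → ℝ} (hb : b ∈ qd n) :
    PD (∑ j, (b j : ℂ) • sq (L j)) := PD_sqs L hL b hb

theorem ThD_cont (w x : Fin n → ℂ) (L : Mc n) (hL : L.det ≠ 0) :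
    ContinuousOn (ThD w x L) (qd n) := by
  obtain ⟨c, hc⟩ := prod_poly L
  have hlin : Continuous fun b : Fin n → ℝ => ∑ j, (b j : ℂ) • sq (L j) := by
    refine continuous_finsetSum _ fun i _ => ?_
    exact (Complex.continuous_ofReal.comp (continuous_apply i)).smul continuous_const
  have h1 : ContinuousOn (fun b : Fin n → ℝ =>
      ∑ k ∈ deg n, c k * th w x (mo k) (∑ j, (b j : ℂ) • sq (L j))) (qd n) := by
    refine continuousOn_finsetSum _ fun k _ => continuousOn_const.mul ?_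
    exact (th_cont k w x).comp hlin.continuousOn fun b hb => g10_PD L hL hb
  refine h1.congr fun b hb => ?_
  exact th_nu w x c _ hc (g10_PD L hL hb)

private theorem g10_min (s : Finset (Fin n → ℕ)) (κ : (Fin n → ℕ) → ℝ)
    (h : ∀ k ∈ s, 0 < κ k) : ∃ κ₀ : ℝ, 0 < κ₀ ∧ ∀ k ∈ s, κ₀ ≤ κ k := by
  rcases s.eq_empty_or_nonempty with h0 | h0
  · refine ⟨1, one_pos, fun k hk => ?_⟩
    rw [h0] at hk
    exact absurd hk (Finset.notMem_empty k)
  · obtain ⟨k₀, hk₀, hmin⟩ := Finset.exists_min_image s κ h0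
    exact ⟨κ k₀, h k₀ hk₀, hmin⟩

theorem ThD_bound (hn : 1 ≤ n) (w x : Fin n → ℂ) (hx : x ∉ Lz n) (L : Mc n) (hL : L.det ≠ 0)
    (K : Set (Fin n → ℝ)) (hK : K ⊆ qd n) (hKc : IsCompact K) : ∃ C κ : ℝ, 0 < C ∧ 0 < κ ∧
    ∀ p ∈ K, ∀ σ : ℝ, 0 < σ → ‖ThD w x L (σ • p)‖ ≤ C * Real.exp (-(κ * (σ + 1 / σ))) := by
  obtain ⟨co, hco⟩ := prod_poly L
  obtain ⟨c₂, hc₂, H₂⟩ := PD_sqs_bounds L hL
  have hm : ∀ j, ∃ m : ℝ, 0 < m ∧ ∀ p ∈ K, m ≤ p j := fun j =>
    hKc.exists_forall_le' (continuous_apply j).continuousOn (fun p hp => hK hp j)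
  choose m hm0 hm using hm
  have hM : ∀ j, ∃ M : ℝ, ∀ p ∈ K, ‖p j‖ ≤ M := fun j =>
    hKc.exists_bound_of_continuousOn (continuous_apply j).continuousOn
  choose M hM using hM
  set c : ℝ := 1 + ∑ j, (c₂ / m j + c₂ * |M j|) with hc
  have hnn : ∀ j ∈ (Finset.univ : Finset (Fin n)), 0 ≤ c₂ / m j + c₂ * |M j| := by
    intro j _
    have := hm0 j
    positivity
  have hc1 : 1 ≤ c := by
    have := Finset.sum_nonneg hnn
    linarith
  have hcj : ∀ j, c₂ / m j + c₂ * |M j| ≤ c := by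
    intro j
    have := Finset.single_le_sum hnn (Finset.mem_univ j)
    linarith
  have hcm : ∀ j, c₂ / c ≤ m j := by
    intro j
    have h1 := hcj j
    have h2 : 0 ≤ c₂ * |M j| := by positivity
    have h3 : c₂ / m j ≤ c := by linarith
    rw [div_le_iff₀ (hm0 j)] at h3
    rw [div_le_iff₀ (by linarith)]
    linarith
  have hcM : ∀ j, c₂ * |M j| ≤ c := by
    intro j
    have h1 := hcj j
    have h2 : 0 ≤ c₂ / m j := by
      have := hm0 j
      positivity
    linarith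
  have hk0 : ∀ k ∈ deg n, k ≠ 0 := by
    rintro k hk rfl
    rw [deg, Finset.mem_filter] at hk
    have := hk.2
    simp at this
    omega
  choose! C κ hC hκ HT using fun k (hk : k ≠ 0) => TB w x hx c hc1 k hk
  obtain ⟨κ₀, hκ₀, hmin⟩ := g10_min (deg n) κ (fun k hk => hκ k (hk0 k hk))
  refine ⟨1 + ∑ k ∈ deg n, ‖co k‖ * C k, κ₀, ?_, hκ₀, fun p hp σ hσ => ?_⟩
  · have : 0 ≤ ∑ k ∈ deg n, ‖co k‖ * C k :=
      Finset.sum_nonneg fun k hk => mul_nonneg (norm_nonneg _) (hC k (hk0 k hk)).le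
    linarith
  · have hqd : (σ • p) ∈ qd n := fun j => mul_pos hσ (hK hp j)
    have hPD := g10_PD L hL hqd
    have hval : ∀ v, hq (∑ j, (((σ • p) j : ℝ) : ℂ) • sq (L j)) v =
        ∑ j, σ * p j * ‖L j ⬝ᵥ v‖ ^ 2 := by
      intro v
      rw [NG.hq_sum]
      refine Finset.sum_congr rfl fun j _ => ?_
      rw [hq_sq]
      rfl
    have hlow : ∀ v, σ / c * nrm v ≤ NG.hq (∑ j, (((σ • p) j : ℝ) : ℂ) • sq (L j)) v := by
      intro v
      rw [hval]
      have h1 := (H₂ v).1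
      rw [div_le_iff₀ (by linarith)] at h1
      calc σ / c * nrm v ≤ σ / c * ((∑ i, ‖L i ⬝ᵥ v‖ ^ 2) * c₂) :=
            mul_le_mul_of_nonneg_left h1 (by positivity)
        _ = ∑ j, σ * (c₂ / c) * ‖L j ⬝ᵥ v‖ ^ 2 := by
            rw [Finset.sum_mul, Finset.mul_sum]
            exact Finset.sum_congr rfl fun j _ => by ring
        _ ≤ _ := by
            refine Finset.sum_le_sum fun j _ => ?_
            refine mul_le_mul_of_nonneg_right ?_ (by positivity)
            exact mul_le_mul_of_nonneg_left ((hcm j).trans (hm j p hp)) hσ.le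
    have hup : ∀ v, NG.hq (∑ j, (((σ • p) j : ℝ) : ℂ) • sq (L j)) v ≤ c * σ * nrm v := by
      intro v
      rw [hval]
      have h1 := (H₂ v).2
      have hcc : 0 < c₂ := by linarith
      calc ∑ j, σ * p j * ‖L j ⬝ᵥ v‖ ^ 2 ≤ ∑ j, σ * (c / c₂) * ‖L j ⬝ᵥ v‖ ^ 2 := by
            refine Finset.sum_le_sum fun j _ => ?_
            refine mul_le_mul_of_nonneg_right ?_ (by positivity)
            refine mul_le_mul_of_nonneg_left ?_ hσ.le
            have h2 := hM j p hp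
            have h3 := hcM j
            have h4 : p j ≤ |M j| := (le_abs_self _).trans (h2.trans (le_abs_self _))
            rw [le_div_iff₀ hcc]
            nlinarith
        _ = (σ * (c / c₂)) * ∑ i, ‖L i ⬝ᵥ v‖ ^ 2 := by
            rw [Finset.mul_sum]
        _ ≤ (σ * (c / c₂)) * (c₂ * nrm v) := mul_le_mul_of_nonneg_left h1 (by positivity)
        _ = _ := by field_simp
    have hT : ThD w x L (σ • p) =
        ∑ k ∈ deg n, co k * th w x (mo k) (∑ j, (((σ • p) j : ℝ) : ℂ) • sq (L j)) :=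
      th_nu w x co _ hco hPD
    rw [hT]
    refine (norm_sum_le _ _).trans ?_
    have hy : 0 < σ + 1 / σ := by positivity
    calc ∑ k ∈ deg n, ‖co k * th w x (mo k) (∑ j, (((σ • p) j : ℝ) : ℂ) • sq (L j))‖
        ≤ ∑ k ∈ deg n, ‖co k‖ * C k * Real.exp (-(κ₀ * (σ + 1 / σ))) := by
          refine Finset.sum_le_sum fun k hk => ?_
          rw [norm_mul, mul_assoc]
          refine mul_le_mul_of_nonneg_left ?_ (norm_nonneg _)
          refine (HT k (hk0 k hk) σ _ hσ hPD.1 hlow hup).trans ?_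
          refine mul_le_mul_of_nonneg_left (Real.exp_le_exp.2 ?_) (hC k (hk0 k hk)).le
          have := mul_le_mul_of_nonneg_right (hmin k hk) hy.le
          linarith
      _ = (∑ k ∈ deg n, ‖co k‖ * C k) * Real.exp (-(κ₀ * (σ + 1 / σ))) := by
          rw [Finset.sum_mul]
      _ ≤ _ := by
          refine mul_le_mul_of_nonneg_right (by linarith) (Real.exp_pos _).le

theorem prod_eps (L : Mc n) (hL : L.det ≠ 0) (M : Me n) (hM : M.det = 1) (ε : Fin n → ℂ)
    (hLM : ∀ j, L j ᵥ* cm M = ε j • L j) : ∏ j, ε j = 1 := by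
  have h1 : L * cm M = Matrix.diagonal ε * L := by
    ext i j
    rw [Matrix.diagonal_mul]
    have := congrFun (hLM i) j
    exact this
  have h2 := congrArg Matrix.det h1
  rw [Matrix.det_mul, Matrix.det_mul, Matrix.det_diagonal, cm_det, hM, map_one, mul_one] at h2
  have h3 : (∏ j, ε j) * L.det = 1 * L.det := by rw [one_mul]; exact h2.symm
  exact mul_right_cancel₀ hL h3

theorem ThD_inv (w x : Fin n → ℂ) (L : Mc n) (hL : L.det ≠ 0) (M : Me n) (hM : M.det = 1)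
    (hMx : ∃ m : Fin n → Eis, cm M *ᵥ x = x + em m)
    (hMw : ∀ m : Fin n → Eis, ch w (cm M *ᵥ (x + em m)) = ch w (x + em m)) (ε : Fin n → ℂ)
    (hLM : ∀ j, L j ᵥ* cm M = ε j • L j) (b : Fin n → ℝ) :
    ThD w x L (fun j => ‖ε j‖ ^ 2 * b j) = ThD w x L b := by
  obtain ⟨m₀, hm₀⟩ := hMx
  have hunit : IsUnit M.det := by rw [hM]; exact isUnit_one
  have hl : ∀ m : Fin n → Eis, M⁻¹ *ᵥ (M *ᵥ m) = m := by
    intro m
    rw [Matrix.mulVec_mulVec, Matrix.nonsing_inv_mul _ hunit, Matrix.one_mulVec]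
  have hr : ∀ m : Fin n → Eis, M *ᵥ (M⁻¹ *ᵥ m) = m := by
    intro m
    rw [Matrix.mulVec_mulVec, Matrix.mul_nonsing_inv _ hunit, Matrix.one_mulVec]
  let e : (Fin n → Eis) ≃ (Fin n → Eis) :=
    { toFun := fun m => m₀ + M *ᵥ m
      invFun := fun m => M⁻¹ *ᵥ (m - m₀)
      left_inv := fun m => by
        simp only [add_sub_cancel_left]
        exact hl m
      right_inv := fun m => by
        simp only
        rw [hr, add_sub_cancel] }
  have he : ∀ m, cm M *ᵥ (x + em m) = x + em (e m) := by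
    intro m
    change _ = x + em (m₀ + M *ᵥ m)
    rw [Matrix.mulVec_add, hm₀, cm_mulVec, em_add, add_assoc]
  have hform : (∑ j, (((‖ε j‖ ^ 2 * b j : ℝ)) : ℂ) • sq (L j)) =
      (cm M)ᴴ * (∑ j, (b j : ℂ) • sq (L j)) * cm M := by
    rw [Finset.mul_sum, Finset.sum_mul]
    refine Finset.sum_congr rfl fun j _ => ?_
    rw [Matrix.mul_smul, Matrix.smul_mul, sq_conj, hLM, sq_smul, smul_smul]
    push_cast
    congr 1
    ring
  have hprod : ∀ v, ∏ j, conj (L j ⬝ᵥ (cm M *ᵥ v)) = ∏ j, conj (L j ⬝ᵥ v) := by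
    intro v
    have h1 : ∀ j, conj (L j ⬝ᵥ (cm M *ᵥ v)) = conj (ε j) * conj (L j ⬝ᵥ v) := by
      intro j
      rw [Matrix.dotProduct_mulVec, hLM, smul_dotProduct, smul_eq_mul, map_mul]
    simp only [h1]
    rw [Finset.prod_mul_distrib, ← map_prod, prod_eps L hL M hM ε hLM, map_one, one_mul]
  unfold ThD th
  rw [← e.tsum_eq (fun m : Fin n → Eis => ch w (x + em m) * (∏ j, conj (L j ⬝ᵥ (x + em m)))
    * ((Real.exp (-(Real.pi * hq (∑ j, (b j : ℂ) • sq (L j)) (x + em m))) : ℝ) : ℂ))]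
  refine tsum_congr fun m => ?_
  rw [hform, hq_conj, ← hMw m, he m, ← he m, hprod, he m]

private theorem g10_absorb (κ : ℝ) (hκ : 0 < κ) (N : ℕ) : ∃ K : ℝ, 0 < K ∧ ∀ y : ℝ, 0 < y →
    (y + y⁻¹) ^ N * Real.exp (-(κ * (y + 1 / y))) ≤ K * Real.exp (-(κ / 2) * y) := by
  refine ⟨(N.factorial : ℝ) * (2 / κ) ^ N, by positivity, fun y hy => ?_⟩
  have hu : 0 < y + y⁻¹ := by positivity
  have h1 := Real.pow_div_factorial_le_exp (κ / 2 * (y + y⁻¹)) (by positivity) N
  rw [div_le_iff₀ (by positivity), mul_pow] at h1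
  have h2 : (y + y⁻¹) ^ N ≤ (N.factorial : ℝ) * (2 / κ) ^ N * Real.exp (κ / 2 * (y + y⁻¹)) := by
    have h3 : (y + y⁻¹) ^ N = (2 / κ) ^ N * ((κ / 2) ^ N * (y + y⁻¹) ^ N) := by
      rw [← mul_assoc, ← mul_pow]
      have : 2 / κ * (κ / 2) = 1 := by field_simp
      rw [this, one_pow, one_mul]
    rw [h3]
    calc (2 / κ) ^ N * ((κ / 2) ^ N * (y + y⁻¹) ^ N) ≤
          (2 / κ) ^ N * (Real.exp (κ / 2 * (y + y⁻¹)) * (N.factorial : ℝ)) :=
          mul_le_mul_of_nonneg_left h1 (by positivity)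
      _ = _ := by ring
  calc (y + y⁻¹) ^ N * Real.exp (-(κ * (y + 1 / y)))
      ≤ ((N.factorial : ℝ) * (2 / κ) ^ N * Real.exp (κ / 2 * (y + y⁻¹))) *
          Real.exp (-(κ * (y + 1 / y))) :=
        mul_le_mul_of_nonneg_right h2 (Real.exp_pos _).le
    _ = (N.factorial : ℝ) * (2 / κ) ^ N * Real.exp (-(κ / 2) * (y + y⁻¹)) := by
        rw [mul_assoc, ← Real.exp_add, one_div]
        congr 2
        ring
    _ ≤ _ := by
        refine mul_le_mul_of_nonneg_left (Real.exp_le_exp.2 ?_) (by positivity)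
        have : 0 < y⁻¹ := inv_pos.2 hy
        nlinarith

private theorem g10_pow (y : ℝ) (hy : 0 < y) (s : ℂ) (N : ℕ) (hs : |s.re| ≤ N) :
    ‖((y : ℝ) : ℂ) ^ s‖ ≤ (y + y⁻¹) ^ N := by
  rw [Complex.norm_cpow_eq_rpow_re_of_pos hy]
  have hyi : 0 < y⁻¹ := inv_pos.2 hy
  have hs' := abs_le.1 hs
  rcases le_total 1 y with h | h
  · calc y ^ s.re ≤ y ^ (N : ℝ) := Real.rpow_le_rpow_of_exponent_le h hs'.2
      _ = y ^ N := Real.rpow_natCast _ _
      _ ≤ _ := pow_le_pow_left₀ hy.le (by linarith) N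
  · have h2 : 1 ≤ y⁻¹ := (one_le_inv₀ hy).2 h
    calc y ^ s.re = (y⁻¹) ^ (-s.re) := by
          rw [Real.inv_rpow hy.le, Real.rpow_neg hy.le, inv_inv]
      _ ≤ (y⁻¹) ^ (N : ℝ) := Real.rpow_le_rpow_of_exponent_le h2 (by linarith)
      _ = (y⁻¹) ^ N := Real.rpow_natCast _ _
      _ ≤ _ := pow_le_pow_left₀ hyi.le (by linarith) N

private theorem g10_log (y : ℝ) (hy : 0 < y) : ‖Complex.log (y : ℂ)‖ ≤ y + y⁻¹ := by
  have hyi : 0 < y⁻¹ := inv_pos.2 hy
  rw [← Complex.ofReal_log hy.le, Complex.norm_real, Real.norm_eq_abs, abs_le]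
  have h1 := Real.log_le_sub_one_of_pos hy
  have h2 := Real.log_le_sub_one_of_pos hyi
  rw [Real.log_inv] at h2
  constructor <;> linarith

private theorem g10_Ex_cont {r : ℕ} (E : Fin r → Fin (r + 1) → ℝ) (hE : ∀ i j, 0 < E i j) :
    Continuous (Ex E) := by
  unfold Ex
  refine continuous_pi fun j => continuous_finsetProd _ fun i _ => ?_
  exact (Real.continuous_const_rpow (hE i j).ne').comp (continuous_apply i)

private theorem g10_Ex_mem {r : ℕ} (E : Fin r → Fin (r + 1) → ℝ) (hE : ∀ i j, 0 < E i j)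
    (t : Fin r → ℝ) : Ex E t ∈ qd (r + 1) :=
  fun j => Finset.prod_pos fun i _ => Real.rpow_pos_of_pos (hE i j) _

theorem TI_entire {r : ℕ} (w x : Fin (r + 1) → ℂ) (hx : x ∉ Lz (r + 1)) (L : Mc (r + 1))
    (hL : L.det ≠ 0) (E : Fin r → Fin (r + 1) → ℝ) (hE : ∀ i j, 0 < E i j) :
    Differentiable ℂ (TI w x L E) := by
  -- the product measure
  set S : Set ((Fin r → ℝ) × ℝ) := Icc (0 : Fin r → ℝ) 1 ×ˢ Ioi (0 : ℝ) with hS
  have hSm : MeasurableSet S := measurableSet_Icc.prod measurableSet_Ioi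
  have hprod : ((volume : Measure (Fin r → ℝ)).restrict (Icc 0 1)).prod
      ((volume : Measure ℝ).restrict (Ioi 0)) =
      ((volume : Measure (Fin r → ℝ)).prod (volume : Measure ℝ)).restrict S :=
    Measure.prod_restrict _ _
  set μ : Measure ((Fin r → ℝ) × ℝ) :=
    ((volume : Measure (Fin r → ℝ)).prod (volume : Measure ℝ)).restrict S with hμ
  obtain ⟨C, κ, hC, hκ, hB⟩ := ThD_bound (n := r + 1) (by omega) w x hx L hL
    (Ex E '' Icc 0 1) (by rintro _ ⟨t, _, rfl⟩; exact g10_Ex_mem E hE t)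
    (isCompact_Icc.image (g10_Ex_cont E hE))
  let g : (Fin r → ℝ) × ℝ → ℂ := fun z => ThD w x L (z.2 • Ex E z.1)
  let φ : ℂ → ℂ := fun s => (r + 1 : ℂ) * s + r
  let F : ℂ → (Fin r → ℝ) × ℝ → ℂ := fun s z => (z.2 : ℂ) ^ φ s * g z
  let F' : ℂ → (Fin r → ℝ) × ℝ → ℂ := fun s z =>
    (z.2 : ℂ) ^ φ s * Complex.log (z.2 : ℂ) * (r + 1 : ℂ) * g z
  have hg : ContinuousOn g S := by
    refine (ThD_cont w x L hL).comp (Continuous.continuousOn ?_) ?_
    · exact continuous_snd.smul ((g10_Ex_cont E hE).comp continuous_fst)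
    · intro z hz j
      exact mul_pos hz.2 (g10_Ex_mem E hE z.1 j)
  have hpow : ∀ s : ℂ, ContinuousOn (fun z : (Fin r → ℝ) × ℝ => (z.2 : ℂ) ^ s) S := by
    intro s
    have h1 : ContinuousOn (fun z : (Fin r → ℝ) × ℝ => (z.2 : ℂ)) S :=
      (Complex.continuous_ofReal.comp continuous_snd).continuousOn
    exact h1.cpow continuousOn_const fun z hz => Complex.ofReal_mem_slitPlane.2 hz.2
  have hlog : ContinuousOn (fun z : (Fin r → ℝ) × ℝ => Complex.log (z.2 : ℂ)) S := by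
    have h1 : ContinuousOn (fun z : (Fin r → ℝ) × ℝ => (z.2 : ℂ)) S :=
      (Complex.continuous_ofReal.comp continuous_snd).continuousOn
    exact h1.clog fun z hz => Complex.ofReal_mem_slitPlane.2 hz.2
  have hgB : ∀ z ∈ S, ‖g z‖ ≤ C * Real.exp (-(κ * (z.2 + 1 / z.2))) := fun z hz =>
    hB _ ⟨z.1, hz.1, rfl⟩ z.2 hz.2
  have hmaj : ∀ K : ℝ, Integrable (fun z : (Fin r → ℝ) × ℝ =>
      K * Real.exp (-(κ / 2) * z.2)) μ := by
    intro K
    have h1 : IntegrableOn (fun u : ℝ => Real.exp (-(κ / 2) * u)) (Ioi 0) :=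
      integrableOn_exp_mul_Ioi (by linarith) 0
    have h2 : IntegrableOn (fun _ : Fin r → ℝ => K) (Icc (0 : Fin r → ℝ) 1) :=
      continuousOn_const.integrableOn_compact isCompact_Icc
    have h3 := Integrable.mul_prod h2 h1
    rw [hprod] at h3
    exact h3
  have hFm : ∀ s, AEStronglyMeasurable (F s) μ := fun s =>
    ((hpow (φ s)).mul hg).aestronglyMeasurable hSm
  have hFint : ∀ s, Integrable (F s) μ := by
    intro s
    obtain ⟨K, hK, habs⟩ := g10_absorb κ hκ ⌈|(φ s).re|⌉₊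
    refine Integrable.mono' (hmaj (K * C)) (hFm s) ?_
    rw [hμ, ae_restrict_iff' hSm]
    refine Filter.Eventually.of_forall fun z hz => ?_
    have hy : (0 : ℝ) < z.2 := hz.2
    have h1 := g10_pow z.2 hy (φ s) ⌈|(φ s).re|⌉₊ (Nat.le_ceil _)
    have h2 := hgB z hz
    have h3 := habs z.2 hy
    have hY0 : 0 ≤ z.2 + z.2⁻¹ := by positivity
    calc ‖F s z‖ = ‖(z.2 : ℂ) ^ φ s‖ * ‖g z‖ := norm_mul _ _
      _ ≤ (z.2 + z.2⁻¹) ^ ⌈|(φ s).re|⌉₊ * (C * Real.exp (-(κ * (z.2 + 1 / z.2)))) :=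
          mul_le_mul h1 h2 (norm_nonneg _) (pow_nonneg hY0 _)
      _ = C * ((z.2 + z.2⁻¹) ^ ⌈|(φ s).re|⌉₊ * Real.exp (-(κ * (z.2 + 1 / z.2)))) := by ring
      _ ≤ C * (K * Real.exp (-(κ / 2) * z.2)) := mul_le_mul_of_nonneg_left h3 hC.le
      _ = _ := by ring
  have hTI : TI w x L E = fun s => ∫ z, F s z ∂μ := by
    funext s
    unfold TI
    have h1 := integral_prod (μ := (volume : Measure (Fin r → ℝ)).restrict (Icc 0 1))
      (ν := (volume : Measure ℝ).restrict (Ioi 0)) (F s) (by rw [hprod]; exact hFint s)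
    rw [hprod] at h1
    rw [h1]
  rw [hTI]
  intro s₀
  set N : ℕ := ⌈|(φ s₀).re| + (r + 1)⌉₊ with hN
  obtain ⟨K, hK, habs⟩ := g10_absorb κ hκ (N + 1)
  have key := hasDerivAt_integral_of_dominated_loc_of_deriv_le (μ := μ)
    (F := F) (F' := F') (x₀ := s₀) (s := Metric.ball s₀ 1)
    (bound := fun z => (((r : ℝ) + 1) * (K * C)) * Real.exp (-(κ / 2) * z.2))
    (Metric.ball_mem_nhds s₀ one_pos)
    (Filter.Eventually.of_forall hFm)
    (hFint s₀)
    (((((hpow (φ s₀)).mul hlog).mul continuousOn_const).mul hg).aestronglyMeasurable hSm) ?_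
    (hmaj _) ?_
  · exact key.2.differentiableAt
  · rw [hμ, ae_restrict_iff' hSm]
    refine Filter.Eventually.of_forall fun z hz s hs => ?_
    have hy : (0 : ℝ) < z.2 := hz.2
    have hsr : |(φ s).re| ≤ N := by
      have h1 : |s.re - s₀.re| < 1 := by
        have h2 : ‖s - s₀‖ < 1 := by rwa [Metric.mem_ball, dist_eq_norm] at hs
        have h3 := Complex.abs_re_le_norm (s - s₀)
        rw [Complex.sub_re] at h3
        linarith
      have h2 : ∀ s : ℂ, (φ s).re = (r + 1) * s.re + r := by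
        intro s
        simp [φ]
      have h3 : (φ s).re = (r + 1) * (s.re - s₀.re) + (φ s₀).re := by
        rw [h2, h2]; ring
      have h4 : |(φ s).re| ≤ (r + 1) * |s.re - s₀.re| + |(φ s₀).re| := by
        rw [h3]
        refine (abs_add_le _ _).trans ?_
        rw [abs_mul, abs_of_pos (by positivity : (0 : ℝ) < (r : ℝ) + 1)]
      have h5 : |(φ s₀).re| + ((r : ℝ) + 1) ≤ (N : ℝ) := Nat.le_ceil _
      have h6 : ((r : ℝ) + 1) * |s.re - s₀.re| ≤ (r + 1) * 1 :=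
        mul_le_mul_of_nonneg_left h1.le (by positivity)
      linarith
    have h1 := g10_pow z.2 hy (φ s) N hsr
    have h1' := g10_log z.2 hy
    have h2 := hgB z hz
    have h3 := habs z.2 hy
    have hY0 : 0 ≤ z.2 + z.2⁻¹ := by positivity
    have hr : ‖(r + 1 : ℂ)‖ = (r : ℝ) + 1 := by
      have : (r + 1 : ℂ) = ((r + 1 : ℕ) : ℂ) := by push_cast; rfl
      rw [this, Complex.norm_natCast]
      push_cast
      rfl
    calc ‖F' s z‖ = ‖(z.2 : ℂ) ^ φ s‖ * ‖Complex.log (z.2 : ℂ)‖ * ‖(r + 1 : ℂ)‖ * ‖g z‖ := by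
          simp only [F', norm_mul]
      _ ≤ ((z.2 + z.2⁻¹) ^ N * (z.2 + z.2⁻¹)) * ((r : ℝ) + 1) *
            (C * Real.exp (-(κ * (z.2 + 1 / z.2)))) := by
          rw [hr]
          refine mul_le_mul (mul_le_mul_of_nonneg_right (mul_le_mul h1 h1' (norm_nonneg _)
            (pow_nonneg hY0 _)) (by positivity)) h2 (norm_nonneg _) (by positivity)
      _ = ((r : ℝ) + 1) * C * ((z.2 + z.2⁻¹) ^ (N + 1) *
            Real.exp (-(κ * (z.2 + 1 / z.2)))) := by
          rw [pow_succ]; ring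
      _ ≤ ((r : ℝ) + 1) * C * (K * Real.exp (-(κ / 2) * z.2)) :=
          mul_le_mul_of_nonneg_left h3 (by positivity)
      _ = _ := by ring
  · rw [hμ, ae_restrict_iff' hSm]
    refine Filter.Eventually.of_forall fun z hz s _ => ?_
    have hy : (0 : ℝ) < z.2 := hz.2
    have hyc : (z.2 : ℂ) ≠ 0 := by exact_mod_cast hy.ne'
    have h0 : HasDerivAt φ (r + 1 : ℂ) s := by
      have h7 := (hasDerivAt_id s).const_mul (r + 1 : ℂ)
      have h8 : HasDerivAt (fun s : ℂ => (r + 1 : ℂ) * s + r) (r + 1 : ℂ) s := by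
        simpa using h7
      exact h8
    exact (h0.const_cpow (c := (z.2 : ℂ)) (Or.inl hyc)).mul_const (g z)

end NG
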