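import Pool.Agent.MP_9ab903_nt.NG.G1b

/-! ## [NG-G11] core data; generic choice of the cusps

`exists_ell`. (1) `ℓ_J = e_{|J|} mod 2` gives `Af = 1 mod 2` (`JJ π k` has `k` elements, `MP = 1 mod 2`), so `det = 1 mod 2`: odd norm.
(2) `x`: there are a prime `q` of `ℤ[ω]`, `q ∣ N`, and `k ∈ ℤ[ω]` with `y = k x ∉ L`, `q y ∈ L`; `Y = q y ≠ 0 mod q`. If `ℓ · Y ≠ 0 mod q` then
`ℓ · y ∉ O`, so `ℓ · (x + m) ≠ 0` for all `m`; and `(ℓ M) · y = ℓ · (M y) = ℓ · y mod O`. (3) `w`: `(w ᵥ* adj A)_j ∈ Dl` iff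
`c ∣ (W ᵥ* adj A)_j = det (A.updateRow j W)` (Cramer). Over the field `κ = O/c` (`q_c = norm c` elements) the rows of `Af` are
`ℓ_{J_k} MP(..)`, `MP` invertible, the `J_k` distinct, `W ≠ 0` (and `W MP = W mod c`, not needed): for every flag and every `j` the condition
`det ≠ 0` is a nonzero polynomial condition of degree `r` on the `(ℓ_J)`; there are `≤ (r+1) 2^r r!` conditions:
Schwartz–Zippel (`MvPolynomial.schwartz_zippel...`) or successive choice of the `ℓ_J` outside of finitely many proper subspaces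
(`hcbig`). (4) CRT for `2, q, c` (pairwise coprime) in each coordinate. -/

set_option autoImplicit false

open scoped ComplexConjugate Matrix
open MeasureTheory Set Filter Topology

namespace NG

open CM27 NAB

variable {n : ℕ}

variable {r : ℕ}

/-- Products of the commuting matrices. -/
noncomputable def MP (M : Fin r → Me (r + 1)) (g : Finset (Fin r)) : Me (r + 1) :=
  ((List.finRange r).map fun i => if i ∈ g then M i else 1).prod

/-- The linear forms at the vertices of a flag. -/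
noncomputable def Af (M : Fin r → Me (r + 1)) (l : Finset (Fin r) → Fin (r + 1) → Eis)
    (π : Equiv.Perm (Fin r)) (g : Finset (Fin r)) : Me (r + 1) :=
  Matrix.of fun k => l (JJ π k) ᵥ* MP M (g \ JJ π k)

/-- Core data. -/
structure CD (r : ℕ) where
  x : Fin (r + 1) → ℂ
  w : Fin (r + 1) → ℂ
  M : Fin r → Me (r + 1)
  L : Mc (r + 1)
  ε : Fin r → Fin (r + 1) → ℂ
  N : ℕ
  c : Eis
  W : Fin (r + 1) → Eis
  hN : Odd N
  hx : (fun i => (N : ℂ) * x i) ∈ Lz (r + 1)
  hx0 : x ∉ Lz (r + 1)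
  hc : Prime c
  hcN : ¬ c ∣ 2 * (N : Eis)
  hcbig : ((2 * (r + 1)) ^ (4 * (r + 1)) : ℕ) < c.norm.natAbs
  hW : ∃ i, ¬ c ∣ W i
  hw : ∀ i, w i = 2 * emb (W i) / (emb c * (Complex.I * (√3 : ℝ)))
  hdet : ∀ i, (M i).det = 1
  hcomm : ∀ i j, M i * M j = M j * M i
  hM2 : ∀ i a b, (2 : Eis) ∣ (M i - 1) a b
  hMx : ∀ i, ∃ m : Fin (r + 1) → Eis, cm (M i) *ᵥ x = x + em m
  hMw : ∀ i, ∀ m : Fin (r + 1) → Eis, ch w (cm (M i) *ᵥ (x + em m)) = ch w (x + em m)
  hL : L.det ≠ 0
  hLM : ∀ i j, L j ᵥ* cm (M i) = ε i j • L j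
  hJ : JE (fun i j => ‖ε i j‖ ^ 2) ≠ 0


theorem g11_list (M : Fin r → Me (r + 1)) (hcomm : ∀ i j, M i * M j = M j * M i)
    (g : Finset (Fin r)) (i : Fin r) : ∀ L : List (Fin r),
      Commute (M i) (L.map fun k => if k ∈ g then M k else 1).prod := by
  intro L
  refine Commute.list_prod_right _ _ ?_
  intro x hx
  obtain ⟨k, -, rfl⟩ := List.mem_map.1 hx
  split_ifs
  · exact hcomm i k
  · exact Commute.one_right _

theorem g11_notmem (M : Fin r → Me (r + 1)) (g : Finset (Fin r)) (i : Fin r) (L : List (Fin r))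
    (hL : i ∉ L) : (L.map fun k => if k ∈ insert i g then M k else 1) =
      (L.map fun k => if k ∈ g then M k else 1) := by
  refine List.map_congr_left fun k hk => ?_
  have hki : k ≠ i := fun h => hL (h ▸ hk)
  simp [Finset.mem_insert, hki]

theorem g11_insert (M : Fin r → Me (r + 1)) (hcomm : ∀ i j, M i * M j = M j * M i)
    (g : Finset (Fin r)) (i : Fin r) (hi : i ∉ g) : ∀ L : List (Fin r), L.Nodup → i ∈ L →
      (L.map fun k => if k ∈ insert i g then M k else 1).prod =
        (L.map fun k => if k ∈ g then M k else 1).prod * M i := by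
  intro L
  induction L with
  | nil =>
    intro _ h
    simp at h
  | cons k L ih =>
    intro hnd hmem
    rw [List.nodup_cons] at hnd
    simp only [List.map_cons, List.prod_cons]
    rcases eq_or_ne k i with rfl | hki
    · rw [if_pos (Finset.mem_insert_self _ _), if_neg hi, one_mul, g11_notmem M g k L hnd.1]
      exact g11_list M hcomm g k L
    · have hiL : i ∈ L := by
        rcases List.mem_cons.1 hmem with h | h
        · exact absurd h.symm hki
        · exact h
      rw [ih hnd.2 hiL, ← mul_assoc]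
      congr 2
      simp [Finset.mem_insert, hki]

theorem MP_empty (M : Fin r → Me (r + 1)) : MP M ∅ = 1 := by
  unfold MP
  simp

theorem MP_insert (M : Fin r → Me (r + 1)) (hcomm : ∀ i j, M i * M j = M j * M i)
    (g : Finset (Fin r)) (i : Fin r) (hi : i ∉ g) : MP M (insert i g) = MP M g * M i :=
  g11_insert M hcomm g i hi _ (List.nodup_finRange r) (List.mem_finRange i)

theorem g11_card (π : Equiv.Perm (Fin r)) (k : Fin (r + 1)) : (JJ π k).card = (k : ℕ) := by
  unfold JJ
  rw [Finset.card_image_of_injective _ π.injective, Fin.card_filter_val_lt]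
  have := k.2
  omega

/-- the index of the vertex -/
noncomputable def g11_idx (J : Finset (Fin r)) : Fin (r + 1) :=
  ⟨J.card, Nat.lt_succ_of_le (by simpa using Finset.card_le_univ J)⟩

theorem g11_idx_JJ (π : Equiv.Perm (Fin r)) (k : Fin (r + 1)) : g11_idx (JJ π k) = k :=
  Fin.ext (g11_card π k)

theorem g11_MP_det (D : CD r) (g : Finset (Fin r)) : (MP D.M g).det = 1 := by
  induction g using Finset.induction_on with
  | empty => rw [MP_empty, Matrix.det_one]
  | insert i g hi ih => rw [MP_insert D.M D.hcomm g i hi, Matrix.det_mul, ih, D.hdet, mul_one]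

theorem g11_MP_x (D : CD r) (g : Finset (Fin r)) : ∀ m : Fin (r + 1) → Eis,
    ∃ m' : Fin (r + 1) → Eis, cm (MP D.M g) *ᵥ (D.x + em m) = D.x + em m' := by
  induction g using Finset.induction_on with
  | empty =>
    intro m
    refine ⟨m, ?_⟩
    have h1 : cm (1 : Me (r + 1)) = 1 := by
      unfold cm
      rw [Matrix.map_one emb (map_zero emb) (map_one emb)]
    rw [MP_empty, h1, Matrix.one_mulVec]
  | insert i g hi ih =>
    intro m
    obtain ⟨m0, hm0⟩ := D.hMx i
    obtain ⟨m', hm'⟩ := ih (m0 + D.M i *ᵥ m)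
    refine ⟨m', ?_⟩
    rw [MP_insert D.M D.hcomm g i hi, cm_mul, ← Matrix.mulVec_mulVec, Matrix.mulVec_add, hm0,
      cm_mulVec, add_assoc, ← em_add, hm']

section quot

variable (c : Eis)

/-- reduction of matrices -/
noncomputable def g11_red : Me (r + 1) →+* Matrix (Fin (r + 1)) (Fin (r + 1)) (Eis ⧸ Ideal.span {c}) :=
  (Ideal.Quotient.mk (Ideal.span {c})).mapMatrix

theorem g11_mk_zero {a : Eis} : Ideal.Quotient.mk (Ideal.span {c}) a = 0 ↔ c ∣ a := by
  rw [Ideal.Quotient.eq_zero_iff_mem, Ideal.mem_span_singleton]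

theorem g11_mk_eq {a b : Eis} :
    Ideal.Quotient.mk (Ideal.span {c}) a = Ideal.Quotient.mk (Ideal.span {c}) b ↔ c ∣ a - b := by
  rw [Ideal.Quotient.mk_eq_mk_iff_sub_mem, Ideal.mem_span_singleton]

end quot

theorem g11_MP_two (D : CD r) (g : Finset (Fin r)) : g11_red 2 (MP D.M g) = 1 := by
  induction g using Finset.induction_on with
  | empty => rw [MP_empty, map_one]
  | insert i g hi ih =>
    rw [MP_insert D.M D.hcomm g i hi, map_mul, ih, one_mul]
    have h1 : g11_red 2 (D.M i - 1) = 0 := by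
      ext a b
      exact (g11_mk_zero 2).2 (D.hM2 i a b)
    rw [map_sub, map_one, sub_eq_zero] at h1
    exact h1

/-- odd norm -/
theorem g11_odd {a : Eis} (h : (2 : Eis) ∣ a - 1) : Odd a.norm := by
  obtain ⟨b, hb⟩ := h
  have h1 := congrArg QuadraticAlgebra.re hb
  have h2 := congrArg QuadraticAlgebra.im hb
  have e1 : (2 : Eis).re = 2 := rfl
  have e2 : (2 : Eis).im = 0 := rfl
  simp only [QuadraticAlgebra.re_sub, QuadraticAlgebra.im_sub, QuadraticAlgebra.re_one,
    QuadraticAlgebra.im_one, QuadraticAlgebra.re_mul, QuadraticAlgebra.im_mul, e1, e2] at h1 h2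
  rw [norm_eq]
  have h3 : a.re = 2 * b.re + 1 := by linarith
  have h4 : a.im = 2 * b.im := by linarith
  rw [h3, h4]
  refine ⟨2 * b.re ^ 2 + 2 * b.re - b.im * (2 * b.re + 1) + 2 * b.im ^ 2, ?_⟩
  ring

theorem g11_det_two (D : CD r) (l : Finset (Fin r) → Fin (r + 1) → Eis)
    (hl : ∀ J i, (2 : Eis) ∣ l J i - (if i = g11_idx J then 1 else 0))
    (π : Equiv.Perm (Fin r)) (g : Finset (Fin r)) : Odd (Af D.M l π g).det.norm := by
  apply g11_odd
  rw [← g11_mk_eq, map_one, RingHom.map_det]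
  have h1 : (Ideal.Quotient.mk (Ideal.span {(2 : Eis)})).mapMatrix (Af D.M l π g) = 1 := by
    ext k j
    rw [RingHom.mapMatrix_apply, Matrix.map_apply]
    change Ideal.Quotient.mk (Ideal.span {(2 : Eis)}) ((l (JJ π k) ᵥ* MP D.M (g \ JJ π k)) j) = _
    have h2 := g11_MP_two D (g \ JJ π k)
    have h3 : ∀ a b, Ideal.Quotient.mk (Ideal.span {(2 : Eis)}) (MP D.M (g \ JJ π k) a b) =
        (1 : Matrix (Fin (r + 1)) (Fin (r + 1)) (Eis ⧸ Ideal.span {(2 : Eis)})) a b := by
      intro a b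
      exact congrFun (congrFun h2 a) b
    have h4 : ∀ a, Ideal.Quotient.mk (Ideal.span {(2 : Eis)}) (l (JJ π k) a) =
        if a = k then 1 else 0 := by
      intro a
      have h5 := hl (JJ π k) a
      rw [g11_idx_JJ, ← g11_mk_eq] at h5
      rw [h5]
      split_ifs <;> simp
    simp only [Matrix.vecMul, dotProduct, map_sum, map_mul, h3, h4]
    simp
  rw [h1, Matrix.det_one]

/-- the dual lattice -/
theorem g11_Dl {c V : Eis} (hc : c ≠ 0)
    (h : 2 * emb V / (emb c * (Complex.I * (√3 : ℝ))) ∈ Dl) : c ∣ V := by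
  have hc' : emb c ≠ 0 := fun h0 => hc (emb_injective (h0.trans (map_zero emb).symm))
  have h3 : √3 * √3 = 3 := Real.mul_self_sqrt (by norm_num)
  have h30 : (0 : ℝ) < √3 := by positivity
  set θ : ℂ := 2 * emb V / (emb c * (Complex.I * (√3 : ℝ))) with hθ
  obtain ⟨k1, hk1⟩ := h 1
  obtain ⟨k2, hk2⟩ := h ⟨0, 1⟩
  have hI : (Complex.I * (√3 : ℝ)) ≠ 0 :=
    mul_ne_zero Complex.I_ne_zero (by exact_mod_cast h30.ne')
  have ht : emb V / emb c = θ * (Complex.I * (√3 : ℝ)) / 2 := by
    rw [hθ]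
    field_simp
  rw [map_one, mul_one] at hk1
  have hw : emb (⟨0, 1⟩ : Eis) = CM27.w := by
    rw [emb_apply]
    simp
  rw [hw, Complex.mul_re, w_re, w_im] at hk2
  have hV : emb (⟨k1 + k2, k1⟩ : Eis) = emb V / emb c := by
    rw [ht]
    apply Complex.ext
    · rw [emb_re]
      simp only [Complex.div_ofNat_re, Complex.mul_re, Complex.I_re, Complex.I_im,
        Complex.ofReal_re, Complex.ofReal_im, Complex.mul_im, zero_mul, one_mul, mul_zero]
      push_cast
      linarith
    · rw [emb_im]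
      simp only [Complex.div_ofNat_im, Complex.mul_re, Complex.I_re, Complex.I_im,
        Complex.ofReal_re, Complex.ofReal_im, Complex.mul_im, zero_mul, one_mul, mul_zero]
      rw [hk1]
      ring
  refine ⟨⟨k1 + k2, k1⟩, ?_⟩
  apply emb_injective
  rw [map_mul, hV]
  field_simp


/-- the part at `x` -/
theorem g11_xq (D : CD r) : ∃ (q : Eis) (Y : Fin (r + 1) → Eis), IsCoprime q 2 ∧
    IsCoprime q D.c ∧ (∃ i, ¬ q ∣ Y i) ∧ ∀ l : Fin (r + 1) → Eis, ¬ q ∣ l ⬝ᵥ Y →
      ∀ m : Fin (r + 1) → Eis, em l ⬝ᵥ (D.x + em m) ≠ 0 := by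
  have := eis_isDomain
  have := eis_pid
  let I : Ideal Eis :=
    { carrier := {a | ∃ m : Fin (r + 1) → Eis, emb a • D.x = em m}
      zero_mem' := ⟨0, by
        funext i
        simp [em]⟩
      add_mem' := by
        rintro a b ⟨m, hm⟩ ⟨m', hm'⟩
        refine ⟨m + m', ?_⟩
        rw [map_add, add_smul, hm, hm', em_add]
      smul_mem' := by
        rintro a b ⟨m, hm⟩
        refine ⟨fun i => a * m i, ?_⟩
        rw [smul_eq_mul, map_mul, mul_smul, hm]
        funext i
        simp [em] }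
  have hI : ∀ a, a ∈ I ↔ ∃ m : Fin (r + 1) → Eis, emb a • D.x = em m := fun a => Iff.rfl
  obtain ⟨f, hf⟩ := (IsPrincipalIdealRing.principal I).principal
  have hf' : ∀ a, a ∈ I ↔ f ∣ a := by
    intro a
    rw [hf]
    exact Ideal.mem_span_singleton
  have hN0 : D.N ≠ 0 := by
    rintro h
    have := D.hN
    rw [h] at this
    exact absurd this (by decide)
  have hNI : f ∣ (D.N : Eis) := by
    rw [← hf', hI]
    obtain ⟨m, hm⟩ := D.hx
    refine ⟨m, ?_⟩
    rw [hm]
    funext i
    simp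
  have hf0 : f ≠ 0 := by
    rintro rfl
    have h1 := zero_dvd_iff.1 hNI
    have h2 := congrArg QuadraticAlgebra.re h1
    simp at h2
    exact hN0 h2
  have hfu : ¬ IsUnit f := by
    intro hu
    have h1 : (1 : Eis) ∈ I := (hf' 1).2 hu.dvd
    obtain ⟨m, hm⟩ := (hI 1).1 h1
    rw [map_one, one_smul] at hm
    exact D.hx0 ⟨m, hm.symm⟩
  obtain ⟨q, hq, k, hk⟩ := WfDvdMonoid.exists_irreducible_factor hfu hf0
  have hq0 : q ≠ 0 := hq.ne_zero
  have hkI : k ∉ I := by
    intro h
    obtain ⟨b, hb⟩ := (hf' k).1 h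
    have hk0 : k ≠ 0 := by
      rintro rfl
      rw [mul_zero] at hk
      exact hf0 hk
    apply hq.not_isUnit
    have h1 : q * b = 1 := by
      apply mul_right_cancel₀ hk0
      rw [one_mul]
      conv_rhs => rw [hb, hk]
      ring
    exact IsUnit.of_mul_eq_one b h1
  have hqk : q * k ∈ I := (hf' _).2 (by rw [hk])
  obtain ⟨Y, hY⟩ := (hI _).1 hqk
  have hqN : q ∣ (D.N : Eis) := (Dvd.intro k hk.symm).trans hNI
  have hN2 : IsCoprime (D.N : Eis) 2 := by
    obtain ⟨t, ht⟩ := D.hN
    refine ⟨1, -(t : Eis), ?_⟩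
    rw [ht]
    push_cast
    ring
  have hcq : ¬ D.c ∣ q := fun h => D.hcN ((h.trans hqN).trans (Dvd.intro_left 2 rfl))
  refine ⟨q, Y, hN2.of_isCoprime_of_dvd_left hqN,
    ((Prime.coprime_iff_not_dvd D.hc).2 hcq).symm, ?_, ?_⟩
  · by_contra hcon
    push Not at hcon
    choose Z hZ using hcon
    apply hkI
    rw [hI]
    refine ⟨Z, ?_⟩
    have hqe : emb q ≠ 0 := fun h0 => hq0 (emb_injective (h0.trans (map_zero emb).symm))
    have h1 : emb q • (emb k • D.x) = emb q • em Z := by
      rw [← mul_smul, ← map_mul, hY]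
      funext i
      simp only [em, Pi.smul_apply, smul_eq_mul]
      rw [hZ i, map_mul]
    exact smul_right_injective _ hqe h1
  · intro l hl m h0
    apply hl
    rw [dotProduct_add] at h0
    have h1 : em l ⬝ᵥ em m = emb (l ⬝ᵥ m) := by
      simp only [dotProduct, em, map_sum, map_mul]
    have h2 : em l ⬝ᵥ em Y = emb (l ⬝ᵥ Y) := by
      simp only [dotProduct, em, map_sum, map_mul]
    have h3 : emb (l ⬝ᵥ Y) = emb (-(q * k * (l ⬝ᵥ m))) := by
      have e : emb (-(q * k * (l ⬝ᵥ m))) = -(emb (q * k) * (em l ⬝ᵥ em m)) := by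
        rw [map_neg, map_mul, h1]
      rw [← h2, ← hY, dotProduct_smul, smul_eq_mul, e]
      linear_combination emb (q * k) * h0
    have h4 := emb_injective h3
    rw [h4]
    exact (dvd_neg.2 ((Dvd.intro k rfl).mul_right _))

/-- Chinese remainder theorem -/
theorem g11_crt {q c : Eis} (h2q : IsCoprime q 2) (hqc : IsCoprime q c) (h2c : IsCoprime c 2)
    (a b d : Eis) : ∃ l : Eis, 2 ∣ l - a ∧ q ∣ l - b ∧ c ∣ l - d := by
  obtain ⟨u1, v1, h1⟩ := (h2q.symm.mul_right h2c.symm : IsCoprime 2 (q * c))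
  obtain ⟨u2, v2, h2⟩ := (h2q.mul_right hqc : IsCoprime q (2 * c))
  obtain ⟨u3, v3, h3⟩ := (h2c.mul_right hqc.symm : IsCoprime c (2 * q))
  refine ⟨v1 * (q * c) * a + v2 * (2 * c) * b + v3 * (2 * q) * d, ?_, ?_, ?_⟩
  · refine ⟨-(u1 * a) + v2 * c * b + v3 * q * d, ?_⟩
    linear_combination a * h1
  · refine ⟨v1 * c * a - u2 * b + v3 * 2 * d, ?_⟩
    linear_combination b * h2
  · refine ⟨v1 * q * a + v2 * 2 * b - u3 * d, ?_⟩
    linear_combination d * h3

section generic

variable {κ : Type} [CommRing κ]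

/-- the polynomial matrix -/
noncomputable def g11_PM (N : Fin (r + 1) → Matrix (Fin (r + 1)) (Fin (r + 1)) κ)
    (J : Fin (r + 1) → Finset (Fin r)) (j : Fin (r + 1)) (W : Fin (r + 1) → κ) :
    Matrix (Fin (r + 1)) (Fin (r + 1)) (MvPolynomial (Finset (Fin r) × Fin (r + 1)) κ) :=
  (Matrix.of fun k l => ∑ i, MvPolynomial.X (J k, i) * MvPolynomial.C (N k i l)).updateRow j
    (fun l => MvPolynomial.C (W l))

theorem g11_eval (N : Fin (r + 1) → Matrix (Fin (r + 1)) (Fin (r + 1)) κ)
    (J : Fin (r + 1) → Finset (Fin r)) (j : Fin (r + 1)) (W : Fin (r + 1) → κ)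
    (x : Finset (Fin r) × Fin (r + 1) → κ) :
    MvPolynomial.eval x (g11_PM N J j W).det =
      ((Matrix.of fun k l => ((fun i => x (J k, i)) ᵥ* N k) l).updateRow j W).det := by
  rw [RingHom.map_det]
  congr 1
  ext k l
  rw [RingHom.mapMatrix_apply, Matrix.map_apply, g11_PM]
  by_cases hk : k = j
  · subst hk
    simp
  · rw [Matrix.updateRow_ne hk, Matrix.updateRow_ne hk]
    simp [Matrix.vecMul, dotProduct]

theorem g11_deg [Nontrivial κ] (N : Fin (r + 1) → Matrix (Fin (r + 1)) (Fin (r + 1)) κ)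
    (J : Fin (r + 1) → Finset (Fin r)) (j : Fin (r + 1)) (W : Fin (r + 1) → κ) :
    (g11_PM N J j W).det.totalDegree ≤ r + 1 := by
  have hent : ∀ k l, (g11_PM N J j W k l).totalDegree ≤ 1 := by
    intro k l
    rw [g11_PM]
    by_cases hk : k = j
    · subst hk
      rw [Matrix.updateRow_self, MvPolynomial.totalDegree_C]
      exact Nat.zero_le _
    · rw [Matrix.updateRow_ne hk, Matrix.of_apply]
      refine MvPolynomial.totalDegree_finsetSum_le fun i _ => ?_
      refine (MvPolynomial.totalDegree_mul _ _).trans ?_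
      rw [MvPolynomial.totalDegree_C, MvPolynomial.totalDegree_X]
  rw [Matrix.det_apply]
  refine MvPolynomial.totalDegree_finsetSum_le fun s _ => ?_
  have h1 : (∏ i, g11_PM N J j W (s i) i).totalDegree ≤ r + 1 := by
    refine (MvPolynomial.totalDegree_finset_prod _ _).trans ?_
    refine (Finset.sum_le_sum fun i _ => hent (s i) i).trans ?_
    simp
  rcases Int.units_eq_one_or (Equiv.Perm.sign s) with h | h
  · rw [h, one_smul]
    exact h1
  · rw [h]
    have : (-1 : ℤˣ) • ∏ i, g11_PM N J j W (s i) i = -(∏ i, g11_PM N J j W (s i) i) := by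
      rw [Units.smul_def]
      simp
    rw [this, MvPolynomial.totalDegree_neg]
    exact h1

end generic

theorem g11_det_one_updateRow {κ : Type} [CommRing κ] {n : ℕ} (i : Fin n) (b : Fin n → κ) :
    ((1 : Matrix (Fin n) (Fin n) κ).updateRow i b).det = b i := by
  rw [← Matrix.cramer_transpose_apply, Matrix.transpose_one, Matrix.cramer_one]
  rfl

theorem g11_perm {κ : Type} [CommRing κ] {n : ℕ} (s : Equiv.Perm (Fin n)) (j : Fin n)
    (b : Fin n → κ) :
    ((Matrix.of fun k l => if l = s k then (1 : κ) else 0).updateRow j b).det =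
      ((Equiv.Perm.sign s : ℤ) : κ) * b (s j) := by
  have h : (Matrix.of fun k l => if l = s k then (1 : κ) else 0).updateRow j b =
      ((1 : Matrix (Fin n) (Fin n) κ).updateRow (s j) b).submatrix s id := by
    ext k l
    rw [Matrix.submatrix_apply, id]
    by_cases hk : k = j
    · subst hk
      simp
    · have hsk : s k ≠ s j := fun h => hk (s.injective h)
      rw [Matrix.updateRow_ne hk, Matrix.updateRow_ne hsk, Matrix.of_apply, Matrix.one_apply]
      simp [eq_comm]
  rw [h, Matrix.det_permute, g11_det_one_updateRow]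

theorem g11_numeric (r : ℕ) :
    Nat.factorial r * (2 ^ r * ((r + 1) * (r + 1))) ≤ (2 * (r + 1)) ^ (2 * (r + 1)) := by
  have h1 : Nat.factorial r ≤ (r + 1) ^ r :=
    (Nat.factorial_le_pow r).trans (Nat.pow_le_pow_left (Nat.le_succ r) r)
  calc Nat.factorial r * (2 ^ r * ((r + 1) * (r + 1)))
      ≤ (r + 1) ^ r * (2 ^ r * ((r + 1) * (r + 1))) := Nat.mul_le_mul_right _ h1
    _ = 2 ^ r * (r + 1) ^ (r + 2) := by ring
    _ ≤ 2 ^ (r + 2) * (r + 1) ^ (r + 2) :=
        Nat.mul_le_mul_right _ (Nat.pow_le_pow_right (by norm_num) (by omega))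
    _ = (2 * (r + 1)) ^ (r + 2) := by rw [mul_pow]
    _ ≤ (2 * (r + 1)) ^ (2 * (r + 1)) := Nat.pow_le_pow_right (by omega) (by omega)

/-- the generic choice modulo `c` -/
theorem g11_generic (D : CD r) : ∃ lc : Finset (Fin r) → Fin (r + 1) → Eis,
    ∀ l : Finset (Fin r) → Fin (r + 1) → Eis, (∀ J i, D.c ∣ l J i - lc J i) →
      ∀ (π : Equiv.Perm (Fin r)) (g : Finset (Fin r)) (j : Fin (r + 1)),
        ¬ D.c ∣ ((Af D.M l π g).updateRow j D.W).det := by
  classical
  have := eis_isDomain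
  have hpr : (Ideal.span {D.c}).IsPrime := (Ideal.span_singleton_prime D.hc.ne_zero).2 D.hc
  have hdom : IsDomain (Eis ⧸ Ideal.span {D.c}) := Ideal.Quotient.isDomain _
  set mk := Ideal.Quotient.mk (Ideal.span {D.c}) with hmk
  let N : Equiv.Perm (Fin r) → Finset (Fin r) → Fin (r + 1) →
      Matrix (Fin (r + 1)) (Fin (r + 1)) (Eis ⧸ Ideal.span {D.c}) :=
    fun π g k => mk.mapMatrix (MP D.M (g \ JJ π k))
  let pd : Equiv.Perm (Fin r) → Finset (Fin r) → Fin (r + 1) →
      MvPolynomial (Finset (Fin r) × Fin (r + 1)) (Eis ⧸ Ideal.span {D.c}) :=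
    fun π g j => (g11_PM (N π g) (JJ π) j (fun l => mk (D.W l))).det
  -- each factor is nonzero
  have hpd : ∀ π g j, pd π g j ≠ 0 := by
    intro π g j h0
    obtain ⟨i0, hi0⟩ := D.hW
    let s : Equiv.Perm (Fin (r + 1)) := Equiv.swap j i0
    let x0 : Finset (Fin r) × Fin (r + 1) → Eis ⧸ Ideal.span {D.c} := fun p =>
      mk (((Pi.single (s (g11_idx p.1)) 1 : Fin (r + 1) → Eis) ᵥ*
        (MP D.M (g \ p.1)).adjugate) p.2)
    have h1 := g11_eval (N π g) (JJ π) j (fun l => mk (D.W l)) x0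
    change MvPolynomial.eval x0 (pd π g j) = _ at h1
    rw [h0, map_zero] at h1
    have h2 : (Matrix.of fun k l => ((fun i => x0 (JJ π k, i)) ᵥ* N π g k) l) =
        (Matrix.of fun k l => if l = s k then (1 : Eis ⧸ Ideal.span {D.c}) else 0) := by
      ext k l
      rw [Matrix.of_apply, Matrix.of_apply]
      have h3 : ((fun i => x0 (JJ π k, i)) ᵥ* N π g k) l =
          mk ((((Pi.single (s k) 1 : Fin (r + 1) → Eis) ᵥ*
            (MP D.M (g \ JJ π k)).adjugate) ᵥ* MP D.M (g \ JJ π k)) l) := by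
        simp only [Matrix.vecMul, dotProduct, map_sum, map_mul, x0, N, g11_idx_JJ,
          RingHom.mapMatrix_apply, Matrix.map_apply]
      rw [h3, Matrix.vecMul_vecMul, Matrix.adjugate_mul, g11_MP_det, one_smul, Matrix.vecMul_one,
        Pi.single_apply]
      split_ifs <;> simp
    rw [h2, g11_perm] at h1
    have h4 : s j = i0 := Equiv.swap_apply_left j i0
    rw [h4] at h1
    have h5 : mk (D.W i0) ≠ 0 := fun h => hi0 ((g11_mk_zero D.c).1 h)
    rcases mul_eq_zero.1 h1.symm with h6 | h6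
    · rcases Int.units_eq_one_or (Equiv.Perm.sign s) with h | h
      · rw [h] at h6
        simp at h6
      · rw [h] at h6
        simp at h6
    · exact h5 h6
  set P : MvPolynomial (Finset (Fin r) × Fin (r + 1)) (Eis ⧸ Ideal.span {D.c}) :=
    ∏ π : Equiv.Perm (Fin r), ∏ g : Finset (Fin r), ∏ j : Fin (r + 1), pd π g j with hP
  have hP0 : P ≠ 0 := by
    rw [hP]
    exact Finset.prod_ne_zero_iff.2 fun π _ => Finset.prod_ne_zero_iff.2 fun g _ =>
      Finset.prod_ne_zero_iff.2 fun j _ => hpd π g j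
  have hPdeg : P.totalDegree ≤ (2 * (r + 1)) ^ (2 * (r + 1)) := by
    refine le_trans ?_ (g11_numeric r)
    rw [hP]
    refine (MvPolynomial.totalDegree_finset_prod _ _).trans ?_
    have h1 : ∀ π : Equiv.Perm (Fin r), (∏ g : Finset (Fin r), ∏ j : Fin (r + 1),
        pd π g j).totalDegree ≤ 2 ^ r * ((r + 1) * (r + 1)) := by
      intro π
      refine (MvPolynomial.totalDegree_finset_prod _ _).trans ?_
      have h2 : ∀ g : Finset (Fin r), (∏ j : Fin (r + 1), pd π g j).totalDegree ≤
          (r + 1) * (r + 1) := by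
        intro g
        refine (MvPolynomial.totalDegree_finset_prod _ _).trans ?_
        refine (Finset.sum_le_sum fun j _ => g11_deg _ _ _ _).trans ?_
        simp
      refine (Finset.sum_le_sum fun g _ => h2 g).trans ?_
      simp
    refine (Finset.sum_le_sum fun π _ => h1 π).trans ?_
    simp [Fintype.card_perm]
  -- the set of values
  let S : Finset (Eis ⧸ Ideal.span {D.c}) :=
    (Finset.range ((2 * (r + 1)) ^ (2 * (r + 1)) + 1)).image fun k : ℕ => mk (k : Eis)
  have hS : S.card = (2 * (r + 1)) ^ (2 * (r + 1)) + 1 := by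
    rw [Finset.card_image_of_injOn, Finset.card_range]
    have key : ∀ a b : ℕ, a < b → b < (2 * (r + 1)) ^ (2 * (r + 1)) + 1 →
        mk (a : Eis) = mk (b : Eis) → False := by
      intro a b hab hb h
      have h1 : D.c ∣ (((b - a : ℕ)) : Eis) := by
        rw [Nat.cast_sub hab.le]
        exact (g11_mk_eq D.c).1 h.symm
      obtain ⟨t, ht⟩ := h1
      have h2 : (((b - a : ℕ)) : Eis).norm = D.c.norm * t.norm := by
        rw [ht, map_mul]
      have h3 : (((b - a : ℕ)) : Eis).norm = ((b - a : ℕ) : ℤ) ^ 2 := by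
        rw [norm_eq]
        simp
      rw [h3] at h2
      have h4 : (b - a) ^ 2 = D.c.norm.natAbs * t.norm.natAbs := by
        have h5 := congrArg Int.natAbs h2
        rw [Int.natAbs_mul, Int.natAbs_pow, Int.natAbs_natCast] at h5
        exact h5
      have h5 : t.norm.natAbs ≠ 0 := by
        intro h0
        rw [h0, mul_zero] at h4
        have : b - a = 0 := by
          rcases Nat.eq_zero_or_pos (b - a) with h | h
          · exact h
          · have : 0 < (b - a) ^ 2 := by positivity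
            omega
        omega
      have h6 : D.c.norm.natAbs ≤ (b - a) ^ 2 := by
        rw [h4]
        exact Nat.le_mul_of_pos_right _ (Nat.pos_of_ne_zero h5)
      have h7 := D.hcbig
      have h8 : (b - a) ^ 2 ≤ ((2 * (r + 1)) ^ (2 * (r + 1))) ^ 2 :=
        Nat.pow_le_pow_left (by omega) 2
      rw [← pow_mul, show 2 * (r + 1) * 2 = 4 * (r + 1) by ring] at h8
      omega
    intro a ha b hb h
    rw [Finset.coe_range, Set.mem_Iio] at ha hb
    rcases lt_trichotomy a b with hab | hab | hab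
    · exact (key a b hab hb h).elim
    · exact hab
    · exact (key b a hab ha h.symm).elim
  have hex : ∃ x : Finset (Fin r) × Fin (r + 1) → Eis ⧸ Ideal.span {D.c},
      MvPolynomial.eval x P ≠ 0 := by
    by_contra hcon
    push Not at hcon
    refine hP0 (MvPolynomial.eq_zero_of_eval_zero_at_prod_finset P (fun _ => S) (fun i => ?_)
      (fun x _ => hcon x))
    rw [hS]
    exact Nat.lt_succ_of_le ((MvPolynomial.degreeOf_le_totalDegree P i).trans hPdeg)
  obtain ⟨x, hx⟩ := hex
  have hx' : ∀ π g j, MvPolynomial.eval x (pd π g j) ≠ 0 := by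
    intro π g j h0
    apply hx
    rw [hP, map_prod]
    refine Finset.prod_eq_zero (Finset.mem_univ π) ?_
    rw [map_prod]
    refine Finset.prod_eq_zero (Finset.mem_univ g) ?_
    rw [map_prod]
    exact Finset.prod_eq_zero (Finset.mem_univ j) h0
  choose lc hlc using fun p : Finset (Fin r) × Fin (r + 1) =>
    Ideal.Quotient.mk_surjective (x p)
  refine ⟨fun J i => lc (J, i), fun l hl π g j hdvd => ?_⟩
  apply hx' π g j
  have h1 := g11_eval (N π g) (JJ π) j (fun l => mk (D.W l)) x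
  change MvPolynomial.eval x (pd π g j) = _ at h1
  rw [h1]
  have h2 : mk ((Af D.M l π g).updateRow j D.W).det = 0 := (g11_mk_zero D.c).2 hdvd
  rw [RingHom.map_det] at h2
  rw [← h2]
  congr 1
  ext k a
  rw [RingHom.mapMatrix_apply, Matrix.map_apply]
  by_cases hk : k = j
  · subst hk
    simp
  · rw [Matrix.updateRow_ne hk, Matrix.updateRow_ne hk, Matrix.of_apply]
    change _ = mk ((l (JJ π k) ᵥ* MP D.M (g \ JJ π k)) a)
    have h3 : ∀ i, mk (l (JJ π k) i) = x (JJ π k, i) := by
      intro i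
      rw [← hlc (JJ π k, i)]
      exact (g11_mk_eq D.c).2 (hl (JJ π k) i)
    simp only [Matrix.vecMul, dotProduct, map_sum, map_mul, h3, N, RingHom.mapMatrix_apply,
      Matrix.map_apply]

theorem exists_ell (D : CD r) : ∃ l : Finset (Fin r) → Fin (r + 1) → Eis,
    ∀ (π : Equiv.Perm (Fin r)) (g : Finset (Fin r)),
      Good D.w D.x (Af D.M l π g) ∧ Odd (Af D.M l π g).det.norm := by
  classical
  have := eis_isDomain
  have := eis_pid
  obtain ⟨q, Y, hq2, hqc, ⟨i0, hi0⟩, hY⟩ := g11_xq D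
  obtain ⟨lc, hlc⟩ := g11_generic D
  have hc2 : IsCoprime D.c 2 := by
    rw [Prime.coprime_iff_not_dvd D.hc]
    exact fun h => D.hcN (h.mul_right _)
  choose l hl2 hlq hlc' using fun (J : Finset (Fin r)) (i : Fin (r + 1)) =>
    g11_crt hq2 hqc hc2 (if i = g11_idx J then 1 else 0) (if i = i0 then 1 else 0) (lc J i)
  refine ⟨l, fun π g => ?_⟩
  have hodd := g11_det_two D l hl2 π g
  refine ⟨⟨?_, ?_, ?_⟩, hodd⟩
  · intro h0
    rw [h0] at hodd
    have : (0 : Eis).norm = 0 := by
      rw [norm_eq]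
      simp
    rw [this] at hodd
    exact absurd hodd (by decide)
  · intro k m
    obtain ⟨m', hm'⟩ := g11_MP_x D (g \ JJ π k) m
    have h1 : (cm (Af D.M l π g) *ᵥ (D.x + em m)) k =
        em (l (JJ π k)) ⬝ᵥ (D.x + em m') := by
      rw [← hm']
      rw [Matrix.dotProduct_mulVec]
      change (fun j => emb ((l (JJ π k) ᵥ* MP D.M (g \ JJ π k)) j)) ⬝ᵥ (D.x + em m) = _
      congr 1
      funext j
      simp only [Matrix.vecMul, dotProduct, map_sum, map_mul, em, cm, Matrix.map_apply]
    rw [h1]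
    refine hY _ ?_ m'
    intro hdvd
    apply hi0
    have h2 : q ∣ l (JJ π k) ⬝ᵥ Y - Y i0 := by
      have h3 : l (JJ π k) ⬝ᵥ Y - Y i0 =
          ∑ i, (l (JJ π k) i - if i = i0 then 1 else 0) * Y i := by
        simp only [dotProduct, sub_mul, Finset.sum_sub_distrib, ite_mul, one_mul, zero_mul,
          Finset.sum_ite_eq', Finset.mem_univ, if_true]
      rw [h3]
      exact Finset.dvd_sum fun i _ => (hlq (JJ π k) i).mul_right _
    have h4 : Y i0 = l (JJ π k) ⬝ᵥ Y - (l (JJ π k) ⬝ᵥ Y - Y i0) := by ring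
    rw [h4]
    exact dvd_sub hdvd h2
  · intro j hD
    apply hlc l hlc' π g j
    apply g11_Dl D.hc.ne_zero
    have h1 : (D.w ᵥ* cm (Af D.M l π g).adjugate) j =
        2 * emb ((Af D.M l π g).updateRow j D.W).det / (emb D.c * (Complex.I * (√3 : ℝ))) := by
      have h2 : ((Af D.M l π g).updateRow j D.W).det =
          ∑ i, D.W i * (Af D.M l π g).adjugate i j := by
        rw [← Matrix.cramer_transpose_apply, Matrix.cramer_eq_adjugate_mulVec,
          ← Matrix.adjugate_transpose]
        simp only [Matrix.mulVec, dotProduct, Matrix.transpose_apply]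
        exact Finset.sum_congr rfl fun i _ => mul_comm _ _
      rw [h2]
      simp only [Matrix.vecMul, dotProduct, map_sum, map_mul, cm, Matrix.map_apply, D.hw,
        Finset.mul_sum, Finset.sum_div]
      refine Finset.sum_congr rfl fun i _ => ?_
      ring
    rw [← h1]
    exact hD

end NG
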