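import Pool.Agent.MP_9ab903_nt.NG.G9a
import Pool.Agent.MP_9ab903_nt.NG.G10
import Pool.Agent.MP_9ab903_nt.NG.G11

/-! ## [NG-G13] the core identity for `n = 1` (scaling) -/

set_option autoImplicit false

open scoped ComplexConjugate Matrix
open MeasureTheory Set Filter Topology

namespace NG

open CM27 NAB

theorem g13_core (D : CD 0) (A : Me 1) (hA : A.det ≠ 0) :
    (Real.pi : ℂ) ^ (0 + 1) * D.L.det * (JE (fun i j => ‖D.ε i j‖ ^ 2) : ℂ)
        * TI D.w D.x D.L (fun i j => ‖D.ε i j‖ ^ 2) 0 = Psi D.w D.x A := by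
  have hl0 : D.L 0 0 ≠ 0 := by
    have h := D.hL
    rwa [Matrix.det_fin_one] at h
  have ha0 : emb (A 0 0) ≠ 0 := by
    have h1 := (cm_det A)
    rw [Matrix.det_fin_one] at h1
    intro h
    apply hA
    apply emb_injective
    rw [← h1, _root_.map_zero]
    exact h
  set p : ℝ := ‖emb (A 0 0)‖ ^ 2 / ‖D.L 0 0‖ ^ 2 with hp
  have hp0 : 0 < p := by
    have h1 : 0 < ‖emb (A 0 0)‖ := norm_pos_iff.2 ha0
    have h2 : 0 < ‖D.L 0 0‖ := norm_pos_iff.2 hl0
    positivity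
  -- the diagonal form
  have hsq : (fun i : Fin 1 => sq (cm A i))
      = fun i => ∑ j, ((((Matrix.of fun _ _ => p : Matrix (Fin 1) (Fin 1) ℝ)) i j : ℝ) : ℂ) • sq (D.L j) := by
    funext i
    rw [Fin.sum_univ_one]
    ext a b
    have ea : a = 0 := Subsingleton.elim _ _
    have eb : b = 0 := Subsingleton.elim _ _
    have ei : i = 0 := Subsingleton.elim _ _
    subst ea eb ei
    have e1 : ∀ l : Fin 1 → ℂ, sq l 0 0 = ((‖l 0‖ ^ 2 : ℝ) : ℂ) := by
      intro l
      rw [sq, Matrix.vecMulVec_apply]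
      rw [Pi.star_apply, RCLike.star_def, Complex.conj_mul']
      push_cast
      rfl
    rw [Matrix.smul_apply, e1, e1, smul_eq_mul, ← Complex.ofReal_mul]
    congr 1
    have e2 : cm A 0 0 = emb (A 0 0) := rfl
    rw [e2, Matrix.of_apply, hp]
    have h2 : ‖D.L 0 0‖ ^ 2 ≠ 0 := pow_ne_zero _ (norm_ne_zero_iff.2 hl0)
    field_simp
  have hbd := ThD_bound le_rfl D.w D.x D.hx0 D.L D.hL {(fun _ => 1 : Fin 1 → ℝ)}
    (by
      intro a ha
      rw [mem_singleton_iff.1 ha]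
      intro i
      exact one_pos) isCompact_singleton
  obtain ⟨C, κ, hC, hκ, hb⟩ := hbd
  set g : ℝ → ℂ := fun σ => ThD D.w D.x D.L (σ • (fun _ => 1 : Fin 1 → ℝ)) with hg
  have hgb : ∀ σ : ℝ, 0 < σ → ‖g σ‖ ≤ C * Real.exp (-(κ * σ)) := by
    intro σ hσ
    refine (hb _ rfl σ hσ).trans ?_
    apply mul_le_mul_of_nonneg_left _ hC.le
    apply Real.exp_le_exp.2
    have h1 : 0 < 1 / σ := by positivity
    have h2 : κ * σ ≤ κ * (σ + 1 / σ) := mul_le_mul_of_nonneg_left (by linarith) hκ.le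
    linarith
  have hgc : ContinuousOn g (Ioi 0) := by
    refine (ThD_cont D.w D.x D.L D.hL).comp (by fun_prop) ?_
    intro σ hσ i
    simpa using hσ
  have hcomb : ∀ a : Fin 1 → ℝ, (∑ i, a i • (Matrix.of fun _ _ => p : Matrix (Fin 1) (Fin 1) ℝ) i)
      = (p * ∑ i, a i) • (fun _ => 1 : Fin 1 → ℝ) := by
    intro a
    funext j
    simp only [Fin.sum_univ_one, Pi.smul_apply, smul_eq_mul, Matrix.of_apply, mul_one]
    ring
  have hint : ∫ a in qd 1, ThD D.w D.x D.L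
      (∑ i, a i • (Matrix.of fun _ _ => p : Matrix (Fin 1) (Fin 1) ℝ) i)
      = (p : ℂ)⁻¹ * ∫ σ in Ioi (0 : ℝ), g σ := by
    have h1 := simplex_int (r := 0) (fun σ => g (p * σ))
      (hgc.comp (by fun_prop) (fun σ hσ => mul_pos hp0 hσ)) C (κ * p) (by positivity) (by
        intro σ hσ
        refine (hgb (p * σ) (mul_pos hp0 hσ)).trans (le_of_eq ?_)
        congr 2
        ring)
    have h2 : ∫ a in qd 1, ThD D.w D.x D.L
        (∑ i, a i • (Matrix.of fun _ _ => p : Matrix (Fin 1) (Fin 1) ℝ) i)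
        = ∫ a in qd (0 + 1), g (p * ∑ i, a i) := by
      congr 1
      funext a
      rw [hcomb]
    rw [h2, h1]
    have h3 := integral_comp_mul_left_Ioi g 0 hp0
    simp only [mul_zero] at h3
    simp only [Nat.factorial_zero, Nat.cast_one, div_one, pow_zero, one_mul]
    rw [h3]
    simp
  have hTI : TI D.w D.x D.L (fun i j => ‖D.ε i j‖ ^ 2) 0 = ∫ σ in Ioi (0 : ℝ), g σ := by
    have hin : ∀ t : Fin 0 → ℝ, (∫ σ in Ioi (0 : ℝ), (σ : ℂ) ^ (((0 : ℕ) + 1 : ℂ) * 0 + (0 : ℕ))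
        * ThD D.w D.x D.L (σ • Ex (fun i j => ‖D.ε i j‖ ^ 2) t)) = ∫ σ in Ioi (0 : ℝ), g σ := by
      intro t
      apply setIntegral_congr_fun measurableSet_Ioi
      intro σ hσ
      have e1 : Ex (fun i j => ‖D.ε i j‖ ^ 2) t = (fun _ => 1 : Fin 1 → ℝ) := by
        funext j
        simp [Ex]
      simp only [e1]
      simp [hg]
    rw [TI]
    simp only [hin]
    rw [setIntegral_const]
    have hv : (volume : Measure (Fin 0 → ℝ)).real (Icc 0 1) = 1 := by
      rw [Measure.real, Real.volume_Icc_pi]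
      simp
    rw [hv, one_smul]
  have hJE : JE (fun i j => ‖D.ε i j‖ ^ 2) = 1 := by
    rw [JE, Matrix.det_fin_one]
    rfl
  rw [Psi, hsq, SS_diag, hint, hTI, hJE, Matrix.det_fin_one (Matrix.of _)]
  have hpC : (p : ℂ) ≠ 0 := by exact_mod_cast hp0.ne'
  rw [Matrix.of_apply]
  field_simp
  push_cast
  ring

end NG
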