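import Pool.Agent.MP_9ab903_nt.NG.G4c

/-! ## [NG-G5a] integrability, alternation, equivariance of `SS`

`SS_int`: continuity (`th_nu_cont`), bound `C exp(-κ ∑ a_i)` (`TB`, `PD_bounds_sum`, `nu_poly`; every `k ∈ deg n` is nonzero for `n ≥ 1`).
`SS_perm`: substitution `a ↦ a ∘ σ`, `nu_perm`. `SS_equiv`: reindex `m ↦ M m + (shift)` (`M` invertible over `Eis`), `hq_conj`,
`nu_conj`. -/

set_option autoImplicit false

open scoped ComplexConjugate Matrix
open MeasureTheory Set Filter Topology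

namespace NG

open CM27 NAB

variable {n : ℕ}

theorem g5a_qd_eq (n : ℕ) : qd n = Set.univ.pi fun _ : Fin n => Ioi (0 : ℝ) := by
  ext a
  simp [qd]

theorem g5a_qd_meas (n : ℕ) : MeasurableSet (qd n) := by
  rw [g5a_qd_eq]
  exact MeasurableSet.univ_pi fun _ => measurableSet_Ioi

theorem g5a_exp_int (n : ℕ) (κ : ℝ) (hκ : 0 < κ) :
    IntegrableOn (fun a : Fin n → ℝ => Real.exp (-(κ * ∑ i, a i))) (qd n) := by
  have h1 : Integrable (fun a : Fin n → ℝ => ∏ i, Real.exp (-κ * a i))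
      (Measure.pi fun _ : Fin n => (volume : Measure ℝ).restrict (Ioi 0)) :=
    Integrable.fintype_prod (f := fun _ (t : ℝ) => Real.exp (-κ * t))
      fun _ => integrableOn_exp_mul_Ioi (by linarith) 0
  rw [IntegrableOn, g5a_qd_eq, volume_pi, Measure.restrict_pi_pi]
  refine h1.congr (Eventually.of_forall fun a => ?_)
  simp only
  rw [← Real.exp_sum, ← Finset.mul_sum, neg_mul]

theorem g5a_lin_cont {m : ℕ} (P : Fin m → Mc n) :
    Continuous fun a : Fin m → ℝ => ∑ i, (a i : ℂ) • P i := by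
  refine continuous_finset_sum _ fun i _ => ?_
  exact (Complex.continuous_ofReal.comp (continuous_apply i)).smul continuous_const

theorem SS_int (hn : 1 ≤ n) (w x : Fin n → ℂ) (hx : x ∉ Lz n) (P : Fin n → Mc n)
    (hP : ∀ i, PD (P i)) :
    IntegrableOn (fun a : Fin n → ℝ => th w x (nu P) (∑ i, (a i : ℂ) • P i)) (qd n) := by
  haveI : Nonempty (Fin n) := ⟨⟨0, hn⟩⟩
  obtain ⟨c, -, hc⟩ := nu_poly n
  obtain ⟨b, hb1, hb⟩ := PD_bounds_sum P hP
  have hPD : ∀ a ∈ qd n, PD (∑ i, (a i : ℂ) • P i) := fun a ha => PD_comb P hP a ha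
  have h1 : ∀ k ∈ deg n, IntegrableOn (fun a : Fin n → ℝ =>
      c k P * th w x (mo k) (∑ i, (a i : ℂ) • P i)) (qd n) := by
    intro k hk
    have hk0 : k ≠ 0 := by
      rintro rfl
      rw [deg, Finset.mem_filter] at hk
      have := hk.2
      simp at this
      omega
    obtain ⟨C, κ, hC, hκ, hT⟩ := TB w x hx b hb1 k hk0
    have hcont : ContinuousOn (fun a : Fin n → ℝ => th w x (mo k) (∑ i, (a i : ℂ) • P i))
        (qd n) :=
      (th_cont k w x).comp (g5a_lin_cont P).continuousOn hPD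
    have h2 : IntegrableOn (fun a : Fin n → ℝ => th w x (mo k) (∑ i, (a i : ℂ) • P i))
        (qd n) := by
      refine Integrable.mono' ((g5a_exp_int n κ hκ).const_mul C)
        (hcont.aestronglyMeasurable (g5a_qd_meas n)) ?_
      refine (ae_restrict_iff' (g5a_qd_meas n)).2 (Eventually.of_forall fun a ha => ?_)
      have hs : 0 < ∑ i, a i := Finset.sum_pos (fun i _ => ha i) Finset.univ_nonempty
      have ha' : ∀ i, 0 ≤ a i := fun i => (ha i).le
      refine (hT (∑ i, a i) _ hs (hPD a ha).1 (fun v => (hb a ha' v).1)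
        (fun v => (hb a ha' v).2)).trans ?_
      apply mul_le_mul_of_nonneg_left _ hC.le
      apply Real.exp_le_exp.2
      have : 0 < 1 / ∑ i, a i := by positivity
      nlinarith
    exact h2.const_mul _
  have h3 : IntegrableOn (fun a : Fin n → ℝ =>
      ∑ k ∈ deg n, c k P * th w x (mo k) (∑ i, (a i : ℂ) • P i)) (qd n) :=
    integrable_finset_sum _ h1
  refine h3.congr_fun (fun a ha => ?_) (g5a_qd_meas n)
  exact (th_nu w x (fun k => c k P) (nu P) (hc P) (hPD a ha)).symm

theorem g5a_th_mul (w x : Fin n → ℂ) (c : ℂ) (p : (Fin n → ℂ) → ℂ) (P : Mc n) :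
    th w x (fun v => c * p v) P = c * th w x p P := by
  unfold th
  rw [← tsum_mul_left]
  refine tsum_congr fun m => ?_
  ring

theorem SS_perm (w x : Fin n → ℂ) (P : Fin n → Mc n) (σ : Equiv.Perm (Fin n)) :
    SS w x (fun i => P (σ i)) = ((Equiv.Perm.sign σ : ℤ) : ℂ) * SS w x P := by
  unfold SS
  have h1 : nu (fun i => P (σ i)) = fun v => ((Equiv.Perm.sign σ : ℤ) : ℂ) * nu P v := by
    funext v
    exact nu_perm σ P v
  have hT := MeasureTheory.volume_measurePreserving_piCongrLeft (fun _ : Fin n => ℝ) σ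
  set T := MeasurableEquiv.piCongrLeft (fun _ : Fin n => ℝ) σ with hTdef
  have hTa : ∀ (a : Fin n → ℝ) (i : Fin n), T a (σ i) = a i := fun a i =>
    Equiv.piCongrLeft_apply_apply (fun _ : Fin n => ℝ) σ a i
  have hpre : T ⁻¹' (qd n) = qd n := by
    ext a
    simp only [Set.mem_preimage, qd, Set.mem_setOf_eq]
    constructor
    · intro h i
      rw [← hTa a i]
      exact h (σ i)
    · intro h i
      have := h (σ.symm i)
      rw [← hTa a (σ.symm i), σ.apply_symm_apply] at this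
      exact this
  have h2 : ∀ a : Fin n → ℝ, ∑ i, (a i : ℂ) • P (σ i) = ∑ i, (T a i : ℂ) • P i := by
    intro a
    rw [← Equiv.sum_comp σ (fun i => (T a i : ℂ) • P i)]
    refine Finset.sum_congr rfl fun i _ => ?_
    rw [hTa]
  rw [h1]
  simp only [g5a_th_mul, h2]
  rw [integral_const_mul]
  have h3 := hT.setIntegral_preimage_emb T.measurableEmbedding
    (fun b : Fin n → ℝ => th w x (nu P) (∑ i, (b i : ℂ) • P i)) (qd n)
  rw [hpre] at h3
  rw [h3]
  ring

theorem SS_eq_zero (w x : Fin n → ℂ) (P : Fin n → Mc n) (i j : Fin n) (hij : i ≠ j)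
    (h : P i = P j) : SS w x P = 0 := by
  unfold SS
  have h1 : ∀ Q : Mc n, th w x (nu P) Q = 0 := by
    intro Q
    unfold th
    simp only [nu_eq_zero P i j hij h, mul_zero, zero_mul, tsum_zero]
  simp only [h1, integral_zero, mul_zero]

theorem SS_equiv (w x : Fin n → ℂ) (M : Me n) (hM : M.det = 1)
    (hMx : ∃ m : Fin n → Eis, cm M *ᵥ x = x + em m)
    (hMw : ∀ m : Fin n → Eis, ch w (cm M *ᵥ (x + em m)) = ch w (x + em m)) (P : Fin n → Mc n) :
    SS w x (fun i => (cm M)ᴴ * P i * cm M) = SS w x P := by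
  obtain ⟨m₀, hm₀⟩ := hMx
  have hdet : (cm M).det = 1 := by rw [cm_det, hM, map_one]
  have hunit : IsUnit M.det := by rw [hM]; exact isUnit_one
  -- the bijection
  have hl : ∀ m : Fin n → Eis, M⁻¹ *ᵥ (M *ᵥ m) = m := by
    intro m
    rw [Matrix.mulVec_mulVec, Matrix.nonsing_inv_mul _ hunit, Matrix.one_mulVec]
  have hr : ∀ m : Fin n → Eis, M *ᵥ (M⁻¹ *ᵥ m) = m := by
    intro m
    rw [Matrix.mulVec_mulVec, Matrix.mul_nonsing_inv _ hunit, Matrix.one_mulVec]
  let e : (Fin n → Eis) ≃ (Fin n → Eis) :=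
    { toFun := fun m => m₀ + M *ᵥ m
      invFun := fun m => M⁻¹ *ᵥ (m - m₀)
      left_inv := fun m => by
        simp only [add_sub_cancel_left]
        exact hl m
      right_inv := fun m => by
        simp only
        rw [hr, add_sub_cancel] }
  have he : ∀ m, cm M *ᵥ (x + em m) = x + em (e m) := by
    intro m
    change _ = x + em (m₀ + M *ᵥ m)
    rw [Matrix.mulVec_add, hm₀, cm_mulVec, em_add, add_assoc]
  unfold SS
  congr 1
  refine integral_congr_ae (Eventually.of_forall fun a => ?_)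
  simp only
  have hsum : ∑ i, (a i : ℂ) • ((cm M)ᴴ * P i * cm M) = (cm M)ᴴ * (∑ i, (a i : ℂ) • P i) * cm M := by
    rw [Finset.mul_sum, Finset.sum_mul]
    refine Finset.sum_congr rfl fun i _ => ?_
    rw [Matrix.mul_smul, Matrix.smul_mul]
  unfold th
  rw [← e.tsum_eq (fun m : Fin n → Eis => ch w (x + em m) * nu P (x + em m)
    * ((Real.exp (-(Real.pi * hq (∑ i, (a i : ℂ) • P i) (x + em m))) : ℝ) : ℂ))]
  refine tsum_congr fun m => ?_
  rw [hsum, hq_conj, nu_conj, hdet, one_mul, ← hMw m, he m]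

end NG
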