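import Pool.Agent.MP_9ab903_nt.NG.G4b
import Pool.Agent.MP_9ab903_nt.NG.G5a

/-! ## [NG-G6] the limit at the cusps

`P_i^τ = τ |ℓ_i|² + h_i`, `ℓ_i` the rows of `A`. Substitute `a_i ↦ a_i/τ` (`nu` is homogeneous of degree 1 in each `P_i`: total factor
`τ^{-n} τ^n`): `SS w x P^τ = πⁿ ∫_{qd} th w x (nu (fun i => sq ℓ_i + h_i/τ)) (∑ a_i (sq ℓ_i + h_i/τ)) da`. Pointwise convergence:
`th_nu_cont` (`∑ a_i sq ℓ_i` is PD). Domination for `τ ≥ 1`: the form is comparable (constant `c` depending on `h`, `A` only) to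
`∑ b_i |ℓ_i|²`, `b_i = a_i + s/τ`, `s = ∑ a_i` (`h_i` comparable to `∑_j |ℓ_j|²`, `PD_bounds`, `PD_sqs_bounds`), so by `UE` (with `i` such that
`a_i ≥ s/n`) and `nu_poly` (coefficients bounded for `τ ≥ 1`) it is `≤ C exp(-κ s/n)`. -/

set_option autoImplicit false

open scoped ComplexConjugate Matrix
open MeasureTheory Set Filter Topology

namespace NG

open CM27 NAB

variable {n : ℕ}

/-- the family of the forms, `u = 1/τ` -/
private noncomputable def g6_G (A : Me n) (h : Fin n → Mc n) (u : ℝ) : Fin n → Mc n :=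
  fun i => sq (cm A i) + (u : ℂ) • h i

private theorem g6_qd_eq (n : ℕ) : qd n = Set.univ.pi (fun _ : Fin n => Ioi (0 : ℝ)) := by
  ext a
  simp [qd]

private theorem g6_qd_meas (n : ℕ) : MeasurableSet (qd n) := by
  rw [g6_qd_eq]
  exact MeasurableSet.univ_pi (fun _ => measurableSet_Ioi)

open scoped Pointwise in
private theorem g6_smul_qd (n : ℕ) {r : ℝ} (hr : 0 < r) : r • qd n = qd n := by
  ext a
  rw [Set.mem_smul_set_iff_inv_smul_mem₀ hr.ne']
  simp only [qd, Set.mem_ofPred_eq, Pi.smul_apply, smul_eq_mul]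
  refine forall_congr' (fun i => ?_)
  have : 0 < r⁻¹ := inv_pos.2 hr
  constructor
  · intro h
    by_contra hc
    push Not at hc
    nlinarith
  · intro h
    positivity

private theorem g6_th_mul (w x : Fin n → ℂ) (c : ℂ) (p : (Fin n → ℂ) → ℂ) (P : Mc n) :
    th w x (fun v => c * p v) P = c * th w x p P := by
  unfold th
  rw [← tsum_mul_left]
  refine tsum_congr (fun m => ?_)
  ring

private theorem g6_nu (A : Me n) (h : Fin n → Mc n) {τ : ℝ} (hτ : 0 < τ) (v : Fin n → ℂ) :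
    nu (fun i => (τ : ℂ) • sq (cm A i) + h i) v = ((τ ^ n : ℝ) : ℂ) * nu (g6_G A h τ⁻¹) v := by
  have h1 := nu_lin (Matrix.diagonal (fun _ : Fin n => τ)) (g6_G A h τ⁻¹) v
  rw [Matrix.det_diagonal] at h1
  simp only [Finset.prod_const, Finset.card_univ, Fintype.card_fin] at h1
  rw [← h1]
  congr 1
  ext1 j
  rw [Finset.sum_eq_single j]
  · rw [Matrix.diagonal_apply_eq, g6_G, smul_add, smul_smul]
    have : (τ : ℂ) ≠ 0 := by exact_mod_cast hτ.ne'
    rw [Complex.ofReal_inv, mul_inv_cancel₀ this, one_smul]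
  · intro i _ hij
    rw [Matrix.diagonal_apply_ne _ hij.symm]
    simp
  · intro hj
    exact absurd (Finset.mem_univ j) hj

private theorem g6_sub (w x : Fin n → ℂ) (A : Me n) (h : Fin n → Mc n) {τ : ℝ} (hτ : 0 < τ) :
    SS w x (fun i => (τ : ℂ) • sq (cm A i) + h i) = (Real.pi : ℂ) ^ n *
      ∫ b in qd n, th w x (nu (g6_G A h τ⁻¹)) (∑ i, (b i : ℂ) • g6_G A h τ⁻¹ i) := by
  unfold SS
  congr 1
  have hτi : 0 < τ⁻¹ := inv_pos.2 hτ
  have h1 := Measure.setIntegral_comp_smul_of_pos (μ := (volume : Measure (Fin n → ℝ)))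
    (fun a : Fin n → ℝ => th w x (nu (fun i => (τ : ℂ) • sq (cm A i) + h i))
      (∑ i, (a i : ℂ) • ((τ : ℂ) • sq (cm A i) + h i))) (qd n) hτi
  rw [g6_smul_qd n hτi, Module.finrank_fin_fun] at h1
  have h2 : ∀ b : Fin n → ℝ, th w x (nu (fun i => (τ : ℂ) • sq (cm A i) + h i))
      (∑ i, (((τ⁻¹ • b) i : ℝ) : ℂ) • ((τ : ℂ) • sq (cm A i) + h i)) =
      ((τ ^ n : ℝ) : ℂ) * th w x (nu (g6_G A h τ⁻¹)) (∑ i, (b i : ℂ) • g6_G A h τ⁻¹ i) := by
    intro b
    have h3 : (∑ i, (((τ⁻¹ • b) i : ℝ) : ℂ) • ((τ : ℂ) • sq (cm A i) + h i)) =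
        ∑ i, (b i : ℂ) • g6_G A h τ⁻¹ i := by
      refine Finset.sum_congr rfl (fun i _ => ?_)
      have hτ' : (τ : ℂ) ≠ 0 := by exact_mod_cast hτ.ne'
      rw [g6_G, Pi.smul_apply, smul_eq_mul, smul_add, smul_add, smul_smul, smul_smul]
      push_cast
      congr 2
      · field_simp
      · ring
    have h4 : nu (fun i => (τ : ℂ) • sq (cm A i) + h i) =
        fun v => ((τ ^ n : ℝ) : ℂ) * nu (g6_G A h τ⁻¹) v := funext (g6_nu A h hτ)
    rw [h3, h4, g6_th_mul]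
  simp only [h2] at h1
  rw [integral_const_mul] at h1
  have h5 : (τ : ℂ) ≠ 0 := by exact_mod_cast hτ.ne'
  rw [inv_pow, inv_inv, Complex.real_smul] at h1
  have h6 : ((τ ^ n : ℝ) : ℂ) ≠ 0 := by
    push_cast
    exact pow_ne_zero _ h5
  exact (mul_left_cancel₀ h6 h1).symm

private theorem g6_exp_int (n : ℕ) (κ : ℝ) (hκ : 0 < κ) :
    IntegrableOn (fun b : Fin n → ℝ => Real.exp (-(κ * ∑ i, b i))) (qd n) := by
  have h1 : IntegrableOn (fun y : ℝ => Real.exp (-κ * y)) (Ioi 0) :=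
    exp_neg_integrableOn_Ioi 0 hκ
  have h2 := Integrable.fintype_prod (ι := Fin n) (f := fun _ y => Real.exp (-κ * y))
    (μ := fun _ => (volume : Measure ℝ).restrict (Ioi 0)) (fun _ => h1)
  rw [← Measure.restrict_pi_pi] at h2
  unfold IntegrableOn
  rw [g6_qd_eq]
  refine h2.congr (Filter.Eventually.of_forall (fun b => ?_))
  simp only
  rw [← Real.exp_sum, ← Finset.mul_sum, neg_mul]

/-- comparison with the diagonal forms -/
private theorem g6_compare (hn : 2 ≤ n) (A : Me n) (hA : A.det ≠ 0) (h : Fin n → Mc n)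
    (hh : ∀ i, PD (h i)) : ∃ c : ℝ, 1 ≤ c ∧ ∀ (b : Fin n → ℝ) (u : ℝ), (∀ i, 0 < b i) → 0 ≤ u →
      (∀ v, (∑ i, (b i + u * ∑ j, b j) * ‖(cm A *ᵥ v) i‖ ^ 2) / c ≤
        hq (∑ i, (b i : ℂ) • g6_G A h u i) v) ∧
      (∀ v, hq (∑ i, (b i : ℂ) • g6_G A h u i) v ≤
        c * ∑ i, (b i + u * ∑ j, b j) * ‖(cm A *ᵥ v) i‖ ^ 2) := by
  have hdet : (cm A).det ≠ 0 := by
    rw [cm_det]
    intro h0
    exact hA (emb_injective (by rw [h0, map_zero]))
  obtain ⟨c₁, hc₁, H₁⟩ := PD_bounds_sum h hh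
  obtain ⟨c₂, hc₂, H₂⟩ := PD_sqs_bounds (cm A) hdet
  have hc : 1 ≤ c₁ * c₂ := by nlinarith
  refine ⟨c₁ * c₂, hc, fun b u hb hu => ?_⟩
  have hsum : ∀ v, hq (∑ i, (b i : ℂ) • g6_G A h u i) v =
      ∑ i, b i * ‖(cm A *ᵥ v) i‖ ^ 2 + hq (∑ i, ((u * b i : ℝ) : ℂ) • h i) v := by
    intro v
    rw [hq_sum, hq_sum, ← Finset.sum_add_distrib]
    refine Finset.sum_congr rfl (fun i _ => ?_)
    rw [g6_G, hq_add, hq_smul, hq_sq]
    have : cm A i ⬝ᵥ v = (cm A *ᵥ v) i := rfl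
    rw [this]
    ring
  have hs : 0 ≤ ∑ j, b j := Finset.sum_nonneg (fun i _ => (hb i).le)
  have key : ∀ v, (∑ i, (b i + u * ∑ j, b j) * ‖(cm A *ᵥ v) i‖ ^ 2) =
      ∑ i, b i * ‖(cm A *ᵥ v) i‖ ^ 2 + (u * ∑ j, b j) * ∑ i, ‖(cm A *ᵥ v) i‖ ^ 2 := by
    intro v
    rw [Finset.mul_sum (s := Finset.univ) (f := fun i => ‖(cm A *ᵥ v) i‖ ^ 2),
      ← Finset.sum_add_distrib]
    exact Finset.sum_congr rfl (fun i _ => by ring)
  have hub : ∀ i, 0 ≤ u * b i := fun i => mul_nonneg hu (hb i).le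
  have hus : ∑ i, u * b i = u * ∑ i, b i := by rw [Finset.mul_sum]
  have hN : ∀ v, 0 ≤ ∑ i, b i * ‖(cm A *ᵥ v) i‖ ^ 2 := fun v =>
    Finset.sum_nonneg (fun i _ => mul_nonneg (hb i).le (by positivity))
  constructor
  · intro v
    rw [hsum, key]
    have h1 := (H₁ (fun i => u * b i) hub v).1
    have h2 : (∑ i, ‖(cm A *ᵥ v) i‖ ^ 2) ≤ c₂ * nrm v := (H₂ v).2
    rw [hus] at h1
    have h3 : (u * ∑ j, b j) * (∑ i, ‖(cm A *ᵥ v) i‖ ^ 2) ≤
        (u * ∑ j, b j) * (c₂ * nrm v) := mul_le_mul_of_nonneg_left h2 (mul_nonneg hu hs)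
    have h4 : (u * ∑ j, b j) * (c₂ * nrm v) / (c₁ * c₂) = (u * ∑ i, b i) / c₁ * nrm v := by
      field_simp
    have h5 : (∑ i, b i * ‖(cm A *ᵥ v) i‖ ^ 2) / (c₁ * c₂) ≤ ∑ i, b i * ‖(cm A *ᵥ v) i‖ ^ 2 :=
      div_le_self (hN v) hc
    rw [add_div]
    have h6 : (u * ∑ j, b j) * (∑ i, ‖(cm A *ᵥ v) i‖ ^ 2) / (c₁ * c₂) ≤
        (u * ∑ j, b j) * (c₂ * nrm v) / (c₁ * c₂) :=
      div_le_div_of_nonneg_right h3 (by positivity)
    linarith
  · intro v
    rw [hsum, key]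
    have h1 := (H₁ (fun i => u * b i) hub v).2
    have h2 : nrm v / c₂ ≤ (∑ i, ‖(cm A *ᵥ v) i‖ ^ 2) := (H₂ v).1
    rw [hus] at h1
    have h3 : nrm v ≤ c₂ * ∑ i, ‖(cm A *ᵥ v) i‖ ^ 2 := by
      rw [div_le_iff₀ (by linarith)] at h2
      linarith
    have h4 : c₁ * (u * ∑ i, b i) * nrm v ≤
        c₁ * (u * ∑ i, b i) * (c₂ * ∑ i, ‖(cm A *ᵥ v) i‖ ^ 2) :=
      mul_le_mul_of_nonneg_left h3 (mul_nonneg (by linarith) (mul_nonneg hu hs))
    have h5 := hN v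
    have h6 : (∑ i, b i * ‖(cm A *ᵥ v) i‖ ^ 2) ≤ (c₁ * c₂) *
        ∑ i, b i * ‖(cm A *ᵥ v) i‖ ^ 2 := le_mul_of_one_le_left h5 hc
    calc ∑ i, b i * ‖(cm A *ᵥ v) i‖ ^ 2 + hq (∑ i, ((u * b i : ℝ) : ℂ) • h i) v
        ≤ (c₁ * c₂) * ∑ i, b i * ‖(cm A *ᵥ v) i‖ ^ 2 +
          c₁ * (u * ∑ i, b i) * (c₂ * ∑ i, ‖(cm A *ᵥ v) i‖ ^ 2) :=
          add_le_add h6 (h1.trans h4)
      _ = _ := by ring

private theorem g6_PD (hn : 2 ≤ n) (A : Me n) (hA : A.det ≠ 0) (h : Fin n → Mc n)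
    (hh : ∀ i, PD (h i)) (b : Fin n → ℝ) (u : ℝ) (hb : ∀ i, 0 < b i) (hu : 0 ≤ u) :
    PD (∑ i, (b i : ℂ) • g6_G A h u i) := by
  have hdet : (cm A).det ≠ 0 := by
    rw [cm_det]
    intro h0
    exact hA (emb_injective (by rw [h0, map_zero]))
  have : Nonempty (Fin n) := ⟨⟨0, by omega⟩⟩
  rcases hu.eq_or_lt with h0 | h0
  · have h1 : ∑ i, (b i : ℂ) • g6_G A h u i = ∑ i, (b i : ℂ) • sq (cm A i) := by
      refine Finset.sum_congr rfl (fun i _ => ?_)
      rw [g6_G, ← h0, Complex.ofReal_zero, zero_smul, add_zero]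
    rw [h1]
    exact PD_sqs (cm A) hdet b hb
  · have h1 : ∑ i, (b i : ℂ) • g6_G A h u i =
        ∑ i, ((u * b i : ℝ) : ℂ) • (((u⁻¹ : ℝ) : ℂ) • sq (cm A i) + h i) := by
      refine Finset.sum_congr rfl (fun i _ => ?_)
      have hu' : (u : ℂ) ≠ 0 := by exact_mod_cast h0.ne'
      rw [g6_G, smul_add, smul_add, smul_smul, smul_smul]
      push_cast
      congr 2
      · field_simp
      · ring
    rw [h1]
    exact PD_comb _ (fun i => PD_add_sq (hh i) _ (inv_nonneg.2 hu)) _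
      (fun i => mul_pos h0 (hb i))

private theorem g6_G_cont (A : Me n) (h : Fin n → Mc n) : Continuous (g6_G A h) := by
  unfold g6_G
  refine continuous_pi (fun i => continuous_const.add ?_)
  exact (Complex.continuous_ofReal).smul continuous_const

private theorem g6_bound (hn : 2 ≤ n) (w x : Fin n → ℂ) (A : Me n) (hA : Good w x A)
    (h : Fin n → Mc n) (hh : ∀ i, PD (h i)) : ∃ g : (Fin n → ℝ) → ℝ, IntegrableOn g (qd n) ∧
      ∀ b ∈ qd n, ∀ u : ℝ, 0 ≤ u → u ≤ 1 →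
        ‖th w x (nu (g6_G A h u)) (∑ i, (b i : ℂ) • g6_G A h u i)‖ ≤ g b := by
  obtain ⟨c, hc, H⟩ := g6_compare hn A hA.det h hh
  obtain ⟨co, hco, Hco⟩ := nu_poly n
  choose C κ hC hκ HU using fun k => UE hn w x A hA c hc k
  have hD : ∀ k, ∃ D : ℝ, ∀ u ∈ Icc (0 : ℝ) 1, ‖co k (g6_G A h u)‖ ≤ D := by
    intro k
    exact isCompact_Icc.exists_bound_of_continuousOn
      ((hco k).comp (g6_G_cont A h)).continuousOn
  choose D hD using hD
  refine ⟨fun b => ∑ k ∈ deg n, D k * (C k * Real.exp (-(κ k / n * ∑ i, b i))), ?_, ?_⟩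
  · refine integrable_finsetSum _ (fun k _ => ?_)
    refine Integrable.const_mul (Integrable.const_mul ?_ _) _
    exact g6_exp_int n (κ k / n) (div_pos (hκ k) (by
      have : 0 < n := by omega
      exact_mod_cast this))
  · intro b hb u hu0 hu1
    have hb' : ∀ i, 0 < b i := hb
    have hP := g6_PD hn A hA.det h hh b u hb' hu0
    rw [th_nu w x (fun k => co k (g6_G A h u)) _ (fun v => Hco _ v) hP]
    refine (norm_sum_le _ _).trans (Finset.sum_le_sum (fun k _ => ?_))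
    rw [norm_mul]
    have hs : 0 ≤ ∑ i, b i := Finset.sum_nonneg (fun i _ => (hb' i).le)
    refine mul_le_mul (hD k u ⟨hu0, hu1⟩) ?_ (norm_nonneg _)
      ((norm_nonneg _).trans (hD k u ⟨hu0, hu1⟩))
    -- choose a large coordinate
    have hn0 : (0 : ℝ) < n := by
      have : 0 < n := by omega
      exact_mod_cast this
    obtain ⟨i, hi⟩ : ∃ i, (∑ j, b j) / n ≤ b i := by
      by_contra hcon
      push Not at hcon
      have : Nonempty (Fin n) := ⟨⟨0, by omega⟩⟩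
      have h1 := Finset.sum_lt_sum_of_nonempty (s := Finset.univ) Finset.univ_nonempty
        (fun i _ => hcon i)
      rw [Finset.sum_const, Finset.card_univ, Fintype.card_fin, nsmul_eq_mul] at h1
      have h2 : (n : ℝ) * ((∑ j, b j) / n) = ∑ j, b j := by field_simp
      rw [h2] at h1
      exact lt_irrefl _ h1
    have h1 := HU k (fun i => b i + u * ∑ j, b j) (∑ i, (b i : ℂ) • g6_G A h u i)
      (fun i => by have := mul_nonneg hu0 hs; have := hb' i; linarith) hP.1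
      (H b u hb' hu0).1 (H b u hb' hu0).2 i i
    refine h1.trans (mul_le_mul_of_nonneg_left (Real.exp_le_exp.2 ?_) (hC k).le)
    have h2 := mul_nonneg hu0 hs
    have h3 : 0 < b i + u * ∑ j, b j := by have := hb' i; linarith
    have h4 : 0 < 1 / (b i + u * ∑ j, b j) := by positivity
    have h5 : κ k * ((∑ j, b j) / n) ≤ κ k * (b i + u * ∑ j, b j + 1 / (b i + u * ∑ j, b j)) :=
      mul_le_mul_of_nonneg_left (by linarith) (hκ k).le
    have h6 : κ k / n * ∑ i, b i = κ k * ((∑ j, b j) / n) := by ring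
    rw [h6]
    linarith

theorem SS_lim (hn : 2 ≤ n) (w x : Fin n → ℂ) (A : Me n) (hA : Good w x A) (h : Fin n → Mc n)
    (hh : ∀ i, PD (h i)) :
    Tendsto (fun τ : ℝ => SS w x fun i => (τ : ℂ) • sq (cm A i) + h i) atTop (𝓝 (Psi w x A)) := by
  obtain ⟨g, hg, Hg⟩ := g6_bound hn w x A hA h hh
  have h0 : g6_G A h 0 = fun i => sq (cm A i) := by
    ext1 i
    rw [g6_G, Complex.ofReal_zero, zero_smul, add_zero]
  have hPsi : Psi w x A = (Real.pi : ℂ) ^ n *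
      ∫ b in qd n, th w x (nu (g6_G A h 0)) (∑ i, (b i : ℂ) • g6_G A h 0 i) := by
    rw [h0]
    rfl
  rw [hPsi]
  have hev : (fun τ : ℝ => (Real.pi : ℂ) ^ n *
      ∫ b in qd n, th w x (nu (g6_G A h τ⁻¹)) (∑ i, (b i : ℂ) • g6_G A h τ⁻¹ i)) =ᶠ[atTop]
      (fun τ : ℝ => SS w x fun i => (τ : ℂ) • sq (cm A i) + h i) := by
    filter_upwards [eventually_gt_atTop 0] with τ hτ
    rw [g6_sub w x A h hτ]
  refine Tendsto.congr' hev (Tendsto.const_mul _ ?_)
  refine tendsto_integral_filter_of_dominated_convergence g ?_ ?_ hg ?_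
  · filter_upwards [eventually_gt_atTop 0] with τ hτ
    refine ContinuousOn.aestronglyMeasurable ?_ (g6_qd_meas n)
    refine ((th_nu_cont w x).comp (f := fun b : Fin n → ℝ =>
      (g6_G A h τ⁻¹, ∑ i, (b i : ℂ) • g6_G A h τ⁻¹ i)) ?_ ?_)
    · refine Continuous.continuousOn (continuous_const.prodMk ?_)
      refine continuous_finsetSum _ (fun i _ => ?_)
      exact (Complex.continuous_ofReal.comp (continuous_apply i)).smul continuous_const
    · intro b hb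
      exact ⟨mem_univ _, g6_PD hn A hA.det h hh b _ hb (inv_nonneg.2 (le_of_lt hτ))⟩
  · filter_upwards [eventually_ge_atTop 1] with τ hτ
    rw [ae_restrict_iff' (g6_qd_meas n)]
    refine Filter.Eventually.of_forall (fun b hb => Hg b hb _ ?_ ?_)
    · exact inv_nonneg.2 (by linarith)
    · exact inv_le_one_of_one_le₀ hτ
  · rw [ae_restrict_iff' (g6_qd_meas n)]
    refine Filter.Eventually.of_forall (fun b hb => ?_)
    have hmem : (g6_G A h 0, ∑ i, (b i : ℂ) • g6_G A h 0 i) ∈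
        (univ : Set (Fin n → Mc n)) ×ˢ {P : Mc n | PD P} :=
      ⟨mem_univ _, g6_PD hn A hA.det h hh b _ hb le_rfl⟩
    have hc : Tendsto (fun q : (Fin n → Mc n) × Mc n => th w x (nu q.1) q.2)
        (𝓝[(univ : Set (Fin n → Mc n)) ×ˢ {P : Mc n | PD P}]
          (g6_G A h 0, ∑ i, (b i : ℂ) • g6_G A h 0 i))
        (𝓝 (th w x (nu (g6_G A h 0)) (∑ i, (b i : ℂ) • g6_G A h 0 i))) :=
      (th_nu_cont w x) _ hmem
    have hcont : Continuous (fun u : ℝ => (g6_G A h u, ∑ i, (b i : ℂ) • g6_G A h u i)) := by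
      refine (g6_G_cont A h).prodMk ?_
      refine continuous_finsetSum _ (fun i _ => ?_)
      exact ((continuous_apply i).comp (g6_G_cont A h)).const_smul (b i : ℂ)
    have hd : Tendsto (fun τ : ℝ => (g6_G A h τ⁻¹, ∑ i, (b i : ℂ) • g6_G A h τ⁻¹ i)) atTop
        (𝓝[(univ : Set (Fin n → Mc n)) ×ˢ {P : Mc n | PD P}]
          (g6_G A h 0, ∑ i, (b i : ℂ) • g6_G A h 0 i)) := by
      refine tendsto_nhdsWithin_iff.2 ⟨?_, ?_⟩
      · exact (hcont.tendsto 0).comp tendsto_inv_atTop_zero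
      · filter_upwards [eventually_gt_atTop 0] with τ hτ
        exact ⟨mem_univ _, g6_PD hn A hA.det h hh b _ hb (inv_nonneg.2 (le_of_lt hτ))⟩
    have he := hc.comp hd
    simp only [Function.comp_def] at he
    exact he

end NG
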