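import Pool.Agent.MP_9ab903_nt.NG.G2b
import Pool.Agent.MP_9ab903_nt.NG.G5a

/-! ## [NG-G7] the cusp values

`B = A.adjugate`, `d = A.det`, `coset B`: `v = x + em m`, `m = m₀ + B t`, `(cm A *ᵥ v)_i = emb d (z_i + emb t_i)`,
`z_i = (cm A *ᵥ (x + em m₀))_i / emb d`, `ch w v = ∏_i e(Re θ_i (z_i + emb t_i))`, `θ = w ᵥ* cm B` (because `B A = d`). So
`th w x (nu ..) (∑ a_i sq) = emb d · ∑_{m₀} ∏_i conj (emb d) T1 1 (a_i |d|²) z_i θ_i` and
`Psi w x A = emb d · (emb d)^(-n) ∑_{m₀ ∈ R} ∏_i Xi z_i θ_i`; `z_i ∉ range emb` by `Good.gx`. -/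

set_option autoImplicit false

open scoped ComplexConjugate Matrix
open MeasureTheory Set Filter Topology

namespace NG

open CM27 NAB

variable {n : ℕ}

/-! ### products of series -/

theorem g7_prod {R : Type*} [NormedCommRing R] [CompleteSpace R] {ι : Type*} (r : ℕ) :
    ∀ (f : Fin r → ι → R), (∀ i, Summable fun a => ‖f i a‖) →
      (Summable fun t : Fin r → ι => ‖∏ i, f i (t i)‖) ∧
      ∑' t : Fin r → ι, ∏ i, f i (t i) = ∏ i, ∑' a, f i a := by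
  induction r with
  | zero =>
    intro f _
    refine ⟨Summable.of_finite, ?_⟩
    rw [tsum_eq_single (fun i => i.elim0) (fun b hb => absurd (Subsingleton.elim _ _) hb)]
    simp
  | succ r ih =>
    intro f hf
    obtain ⟨h1, h2⟩ := ih (fun i => f i.succ) (fun i => hf i.succ)
    have hp : ∀ q : ι × (Fin r → ι), ∏ i, f i ((Fin.consEquiv fun _ => ι) q i) =
        f 0 q.1 * ∏ i, f i.succ (q.2 i) := by
      intro q
      rw [Fin.prod_univ_succ]
      rfl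
    constructor
    · rw [← (Fin.consEquiv fun _ => ι).summable_iff]
      refine (Summable.mul_norm (hf 0) h1).congr fun q => ?_
      simp only [Function.comp]
      rw [hp q]
    · rw [← (Fin.consEquiv fun _ => ι).tsum_eq, tsum_congr hp, Fin.prod_univ_succ, ← h2]
      exact (tsum_mul_tsum_of_summable_norm (hf 0) h1).symm

/-! ### the coordinates on a coset -/

/-- The coordinate of the class. -/
noncomputable def g7_z (x : Fin n → ℂ) (A : Me n) (m₀ : Fin n → Eis) (i : Fin n) : ℂ :=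
  (cm A *ᵥ (x + em m₀)) i / emb A.det

/-- The character. -/
noncomputable def g7_th (w : Fin n → ℂ) (A : Me n) (i : Fin n) : ℂ := (w ᵥ* cm A.adjugate) i

theorem g7_emb_ne {a : Eis} (ha : a ≠ 0) : emb a ≠ 0 := fun h =>
  ha (emb_injective (by rw [h, map_zero]))

theorem g7_vec (x : Fin n → ℂ) (A : Me n) (hd : A.det ≠ 0) (m₀ t : Fin n → Eis) (i : Fin n) :
    (cm A *ᵥ (x + em (m₀ + A.adjugate *ᵥ t))) i = emb A.det * (g7_z x A m₀ i + emb (t i)) := by
  have hd' := g7_emb_ne hd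
  have h1 : A *ᵥ (A.adjugate *ᵥ t) = A.det • t := by
    rw [Matrix.mulVec_mulVec, Matrix.mul_adjugate, Matrix.smul_mulVec, Matrix.one_mulVec]
  rw [em_add, ← add_assoc, Matrix.mulVec_add, cm_mulVec, h1, Pi.add_apply, mul_add, g7_z,
    mul_div_cancel₀ _ hd']
  congr 1
  show emb ((A.det • t) i) = _
  rw [Pi.smul_apply, smul_eq_mul, map_mul]

theorem g7_dot (w x : Fin n → ℂ) (A : Me n) (hd : A.det ≠ 0) (m₀ t : Fin n → Eis) :
    w ⬝ᵥ (x + em (m₀ + A.adjugate *ᵥ t)) =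
      ∑ i, g7_th w A i * (g7_z x A m₀ i + emb (t i)) := by
  have hd' := g7_emb_ne hd
  refine mul_left_cancel₀ hd' ?_
  set v := x + em (m₀ + A.adjugate *ᵥ t) with hv
  have h1 : (w ᵥ* cm A.adjugate) ⬝ᵥ (cm A *ᵥ v) = emb A.det * (w ⬝ᵥ v) := by
    rw [← Matrix.dotProduct_mulVec, Matrix.mulVec_mulVec, ← cm_mul, Matrix.adjugate_mul]
    have h2 : cm (A.det • (1 : Me n)) = emb A.det • (1 : Mc n) := by
      ext i j
      show emb ((A.det • (1 : Me n)) i j) = _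
      rw [Matrix.smul_apply, Matrix.smul_apply, smul_eq_mul, smul_eq_mul, map_mul]
      congr 1
      by_cases hij : i = j
      · subst hij
        simp
      · simp [hij]
    rw [h2, Matrix.smul_mulVec, Matrix.one_mulVec, dotProduct_smul, smul_eq_mul]
  rw [← h1, Finset.mul_sum]
  refine Finset.sum_congr rfl fun i _ => ?_
  rw [hv, g7_vec x A hd m₀ t i, g7_th]
  ring

theorem g7_term (w x : Fin n → ℂ) (A : Me n) (hd : A.det ≠ 0) (m₀ t : Fin n → Eis)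
    (a : Fin n → ℝ) :
    ch w (x + em (m₀ + A.adjugate *ᵥ t)) * nu (fun i => sq (cm A i))
      (x + em (m₀ + A.adjugate *ᵥ t)) * ((Real.exp (-(Real.pi * hq (∑ i, (a i : ℂ) • sq (cm A i))
        (x + em (m₀ + A.adjugate *ᵥ t)))) : ℝ) : ℂ) =
    emb A.det * conj (emb A.det) ^ n * ∏ i, (Complex.exp (2 * Real.pi * Complex.I *
      (((g7_th w A i * (g7_z x A m₀ i + emb (t i))).re : ℝ) : ℂ))
      * conj (g7_z x A m₀ i + emb (t i)) ^ 1 *
      ((Real.exp (-(Real.pi * (a i * ‖emb A.det‖ ^ 2) * ‖g7_z x A m₀ i + emb (t i)‖ ^ 2)) : ℝ) : ℂ)) := by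
  have h1 : ch w (x + em (m₀ + A.adjugate *ᵥ t)) = ∏ i, Complex.exp (2 * Real.pi * Complex.I *
      (((g7_th w A i * (g7_z x A m₀ i + emb (t i))).re : ℝ) : ℂ)) := by
    unfold ch
    rw [g7_dot w x A hd, Complex.re_sum, Complex.ofReal_sum, Finset.mul_sum, Complex.exp_sum]
  have hdet : (Matrix.of fun i => cm A i).det = emb A.det := cm_det A
  have h2 : nu (fun i => sq (cm A i)) (x + em (m₀ + A.adjugate *ᵥ t)) =
      emb A.det * (conj (emb A.det) ^ n * ∏ i, conj (g7_z x A m₀ i + emb (t i)) ^ 1) := by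
    rw [nu_sq, hdet]
    congr 1
    have h3 : ∀ i, conj (cm A i ⬝ᵥ (x + em (m₀ + A.adjugate *ᵥ t))) =
        conj (emb A.det) * conj (g7_z x A m₀ i + emb (t i)) ^ 1 := by
      intro i
      have h4 : cm A i ⬝ᵥ (x + em (m₀ + A.adjugate *ᵥ t)) =
          emb A.det * (g7_z x A m₀ i + emb (t i)) := g7_vec x A hd m₀ t i
      rw [h4, map_mul, pow_one]
    rw [Finset.prod_congr rfl fun i _ => h3 i, Finset.prod_mul_distrib, Finset.prod_const,
      Finset.card_univ, Fintype.card_fin]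
  have h5 : Real.exp (-(Real.pi * hq (∑ i, (a i : ℂ) • sq (cm A i))
        (x + em (m₀ + A.adjugate *ᵥ t)))) =
      ∏ i, Real.exp (-(Real.pi * (a i * ‖emb A.det‖ ^ 2) *
        ‖g7_z x A m₀ i + emb (t i)‖ ^ 2)) := by
    rw [← Real.exp_sum, hq_sum, Finset.mul_sum, ← Finset.sum_neg_distrib]
    congr 1
    refine Finset.sum_congr rfl fun i _ => ?_
    have h4 : cm A i ⬝ᵥ (x + em (m₀ + A.adjugate *ᵥ t)) =
        emb A.det * (g7_z x A m₀ i + emb (t i)) := g7_vec x A hd m₀ t i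
    rw [hq_sq, h4, norm_mul]
    ring
  rw [h1, h2, h5, Complex.ofReal_prod, Finset.prod_mul_distrib, Finset.prod_mul_distrib]
  ring

/-! ### theta functions on the cosets -/

theorem g7_theta (w x : Fin n → ℂ) (A : Me n) (hd : A.det ≠ 0)
    (R : Finset (Fin n → Eis)) (hR : ∀ m : Fin n → Eis, ∃! p : (Fin n → Eis) × (Fin n → Eis),
      p.1 ∈ R ∧ m = p.1 + A.adjugate *ᵥ p.2) (a : Fin n → ℝ) (ha : ∀ i, 0 < a i) :
    th w x (nu fun i => sq (cm A i)) (∑ i, (a i : ℂ) • sq (cm A i)) =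
      emb A.det * conj (emb A.det) ^ n * ∑ m₀ ∈ R, ∏ i,
        T1 1 (a i * ‖emb A.det‖ ^ 2) (g7_z x A m₀ i) (g7_th w A i) := by
  have hd' := g7_emb_ne hd
  have hPD : PD (∑ i, (a i : ℂ) • sq (cm A i)) :=
    PD_sqs (cm A) (by rw [cm_det]; exact hd') a ha
  have hD : 0 < ‖emb A.det‖ ^ 2 := pow_pos (norm_pos_iff.2 hd') 2
  let φ : R × (Fin n → Eis) → (Fin n → Eis) := fun p => p.1.1 + A.adjugate *ᵥ p.2
  have hφ : Function.Bijective φ := by
    constructor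
    · rintro ⟨⟨r, hr⟩, t⟩ ⟨⟨r', hr'⟩, t'⟩ h
      have h1 : (r, t) = (r', t') := (hR (r + A.adjugate *ᵥ t)).unique ⟨hr, rfl⟩ ⟨hr', h⟩
      rw [Prod.mk.injEq] at h1
      obtain ⟨h2, h3⟩ := h1
      subst h2
      subst h3
      rfl
    · intro m
      obtain ⟨⟨r, t⟩, ⟨h1, h2⟩, -⟩ := hR m
      exact ⟨(⟨r, h1⟩, t), h2.symm⟩
  let e : R × (Fin n → Eis) ≃ (Fin n → Eis) := Equiv.ofBijective φ hφ
  have hsum := (e.summable_iff).2 (nu_summable hPD (fun i => sq (cm A i)) w x)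
  unfold th
  rw [← e.tsum_eq]
  refine (Summable.tsum_prod hsum).trans ?_
  rw [tsum_fintype, Finset.mul_sum, ← Finset.sum_coe_sort R]
  refine Finset.sum_congr rfl fun r _ => ?_
  have h1 : ∀ t : Fin n → Eis, ((fun m : Fin n → Eis => ch w (x + em m) *
      nu (fun i => sq (cm A i)) (x + em m)
      * ((Real.exp (-(Real.pi * hq (∑ i, (a i : ℂ) • sq (cm A i)) (x + em m))) : ℝ) : ℂ)) ∘ e) (r, t) =
      emb A.det * conj (emb A.det) ^ n * ∏ i, (Complex.exp (2 * Real.pi * Complex.I *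
      (((g7_th w A i * (g7_z x A r.1 i + emb (t i))).re : ℝ) : ℂ))
      * conj (g7_z x A r.1 i + emb (t i)) ^ 1 *
      ((Real.exp (-(Real.pi * (a i * ‖emb A.det‖ ^ 2) * ‖g7_z x A r.1 i + emb (t i)‖ ^ 2)) : ℝ) : ℂ)) :=
    fun t => g7_term w x A hd r.1 t a
  rw [tsum_congr h1, tsum_mul_left]
  congr 1
  exact (g7_prod n (fun i (b : Eis) => Complex.exp (2 * Real.pi * Complex.I *
      (((g7_th w A i * (g7_z x A r.1 i + emb b)).re : ℝ) : ℂ))
      * conj (g7_z x A r.1 i + emb b) ^ 1 *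
      ((Real.exp (-(Real.pi * (a i * ‖emb A.det‖ ^ 2) * ‖g7_z x A r.1 i + emb b‖ ^ 2)) : ℝ) : ℂ))
    (fun i => (T1_summable 1 (mul_pos (ha i) hD) _ _).norm)).2

theorem g7_not_mem (w x : Fin n → ℂ) (A : Me n) (hA : Good w x A) (m₀ : Fin n → Eis)
    (i : Fin n) : g7_z x A m₀ i ∉ Set.range emb := by
  rintro ⟨b, hb⟩
  have h := hA.gx i (m₀ + A.adjugate *ᵥ (Pi.single i (-b) : Fin n → Eis))
  rw [g7_vec x A hA.det, ← hb, Pi.single_eq_same, map_neg, add_neg_cancel, mul_zero] at h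
  exact h rfl

theorem g7_qd (n : ℕ) : qd n = Set.pi Set.univ fun _ : Fin n => Ioi (0 : ℝ) := by
  ext a
  simp [qd]

theorem g7_restrict (n : ℕ) : (volume : Measure (Fin n → ℝ)).restrict (qd n) =
    Measure.pi fun _ : Fin n => (volume : Measure ℝ).restrict (Ioi 0) := by
  rw [g7_qd, volume_pi, Measure.restrict_pi_pi]

theorem g7_one (z θ : ℂ) {D : ℝ} (hD : 0 < D) : ∫ u in Ioi (0 : ℝ), T1 1 (u * D) z θ =
    (D : ℂ)⁻¹ * ((Real.pi : ℂ)⁻¹ * Xi z θ) := by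
  rw [integral_comp_mul_right_Ioi (fun u : ℝ => T1 1 u z θ) 0 hD, zero_mul, Xi,
    inv_mul_cancel_left₀ (Complex.ofReal_ne_zero.2 Real.pi_ne_zero), Complex.real_smul,
    Complex.ofReal_inv]

theorem Psi_eq (hn : 1 ≤ n) (w x : Fin n → ℂ) (A : Me n) (hA : Good w x A)
    (R : Finset (Fin n → Eis)) (hR : ∀ m : Fin n → Eis, ∃! p : (Fin n → Eis) × (Fin n → Eis),
      p.1 ∈ R ∧ m = p.1 + A.adjugate *ᵥ p.2) :
    Psi w x A = emb A.det * (emb A.det)⁻¹ ^ n * ∑ m₀ ∈ R, ∏ i,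
      Xi ((cm A *ᵥ (x + em m₀)) i / emb A.det) ((w ᵥ* cm A.adjugate) i) := by
  have hd' := g7_emb_ne hA.det
  have hD : 0 < ‖emb A.det‖ ^ 2 := pow_pos (norm_pos_iff.2 hd') 2
  have hqm : MeasurableSet (qd n) := by
    rw [g7_qd]
    exact MeasurableSet.univ_pi fun _ => measurableSet_Ioi
  unfold Psi SS
  rw [setIntegral_congr_fun hqm fun a ha => g7_theta w x A hA.det R hR a ha, integral_const_mul]
  rw [g7_restrict, integral_finsetSum]
  · have h1 : ∀ m₀ : Fin n → Eis, ∫ a : Fin n → ℝ, ∏ i, T1 1 (a i * ‖emb A.det‖ ^ 2)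
        (g7_z x A m₀ i) (g7_th w A i) ∂(Measure.pi fun _ : Fin n =>
          (volume : Measure ℝ).restrict (Ioi 0)) =
        (((‖emb A.det‖ ^ 2 : ℝ) : ℂ)⁻¹ * (Real.pi : ℂ)⁻¹) ^ n *
          ∏ i, Xi (g7_z x A m₀ i) (g7_th w A i) := by
      intro m₀
      rw [integral_fintype_prod_eq_prod (fun i (u : ℝ) => T1 1 (u * ‖emb A.det‖ ^ 2)
        (g7_z x A m₀ i) (g7_th w A i))]
      rw [Finset.prod_congr rfl fun i _ => g7_one (g7_z x A m₀ i) (g7_th w A i) hD]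
      simp only [← mul_assoc]
      rw [Finset.prod_mul_distrib, Finset.prod_const, Finset.card_univ, Fintype.card_fin]
    rw [Finset.sum_congr rfl fun m₀ _ => h1 m₀, ← Finset.mul_sum]
    have h2 : (((‖emb A.det‖ ^ 2 : ℝ) : ℂ)⁻¹ * (Real.pi : ℂ)⁻¹) ^ n =
        ((emb A.det)⁻¹) ^ n * ((conj (emb A.det))⁻¹) ^ n * ((Real.pi : ℂ)⁻¹) ^ n := by
      rw [← mul_pow, ← mul_pow]
      congr 1
      have h3 : ((‖emb A.det‖ ^ 2 : ℝ) : ℂ) = emb A.det * conj (emb A.det) := by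
        rw [Complex.mul_conj, Complex.normSq_eq_norm_sq]
      rw [h3, mul_inv]
    have hπ : (Real.pi : ℂ) ≠ 0 := Complex.ofReal_ne_zero.2 Real.pi_ne_zero
    have hc : conj (emb A.det) ≠ 0 := (map_ne_zero _).2 hd'
    have h4 : (Real.pi : ℂ) ^ n * ((Real.pi : ℂ)⁻¹) ^ n = 1 := by
      rw [← mul_pow, mul_inv_cancel₀ hπ, one_pow]
    have h5 : conj (emb A.det) ^ n * ((conj (emb A.det))⁻¹) ^ n = 1 := by
      rw [← mul_pow, mul_inv_cancel₀ hc, one_pow]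
    rw [h2]
    show _ = emb A.det * (emb A.det)⁻¹ ^ n * ∑ m₀ ∈ R, ∏ i, Xi (g7_z x A m₀ i) (g7_th w A i)
    set S := ∑ m₀ ∈ R, ∏ i, Xi (g7_z x A m₀ i) (g7_th w A i)
    linear_combination (emb A.det * (emb A.det)⁻¹ ^ n * S) *
      (conj (emb A.det) ^ n * ((conj (emb A.det))⁻¹) ^ n * h4 + h5)
  · intro m₀ _
    refine Integrable.fintype_prod (f := fun i (u : ℝ) => T1 1 (u * ‖emb A.det‖ ^ 2)
        (g7_z x A m₀ i) (g7_th w A i)) fun i => ?_
    have h1 := T1_int (g7_th w A i) (g7_z x A m₀ i) (g7_not_mem w x A hA m₀ i)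
    exact (integrableOn_Ioi_comp_mul_right_iff (fun u : ℝ => T1 1 u (g7_z x A m₀ i)
      (g7_th w A i)) 0 hD).2 (by rwa [zero_mul])

theorem g7_Psi (hn : 1 ≤ n) (w x : Fin n → ℂ) (A : Me n) (hA : Good w x A)
    (R : Finset (Fin n → Eis)) (hR : ∀ m : Fin n → Eis, ∃! p : (Fin n → Eis) × (Fin n → Eis),
      p.1 ∈ R ∧ m = p.1 + A.adjugate *ᵥ p.2) :
    Psi w x A / OmC ^ n = emb A.det * (emb A.det)⁻¹ ^ n * ∑ m₀ ∈ R, ∏ i,
      (Xi (g7_z x A m₀ i) (g7_th w A i) / OmC) := by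
  rw [Psi_eq hn w x A hA R hR, mul_div_assoc, Finset.sum_div]
  congr 1
  refine Finset.sum_congr rfl fun m₀ _ => ?_
  rw [Finset.prod_div_distrib, Finset.prod_const, Finset.card_univ, Fintype.card_fin]
  rfl

/-! ### the dual lattice -/

theorem g7_Dl_add {a b : ℂ} (ha : a ∈ Dl) (hb : b ∈ Dl) : a + b ∈ Dl := by
  intro c
  obtain ⟨k, hk⟩ := ha c
  obtain ⟨l, hl⟩ := hb c
  refine ⟨k + l, ?_⟩
  rw [add_mul, Complex.add_re, hk, hl]
  push_cast
  rfl

theorem g7_Dl_mul (u : Eis) {a : ℂ} (ha : a ∈ Dl) : emb u * a ∈ Dl := by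
  intro c
  obtain ⟨k, hk⟩ := ha (u * c)
  refine ⟨k, ?_⟩
  rw [← hk, map_mul]
  congr 1
  ring

theorem g7_Dl_sum {ι : Type*} (s : Finset ι) (f : ι → ℂ) (h : ∀ i ∈ s, f i ∈ Dl) :
    ∑ i ∈ s, f i ∈ Dl := by
  classical
  induction s using Finset.induction_on with
  | empty =>
    intro c
    exact ⟨0, by simp⟩
  | insert a s ha ih =>
    rw [Finset.sum_insert ha]
    exact g7_Dl_add (h a (Finset.mem_insert_self _ _))
      (ih fun i hi => h i (Finset.mem_insert_of_mem hi))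

theorem g7_norm_mul (d : Eis) : d * star d = ((d.norm : ℤ) : Eis) := by
  apply emb_injective
  rw [map_mul, emb_star, map_intCast, Complex.mul_conj, Complex.normSq_eq_norm_sq, norm_emb_sq,
    Complex.ofReal_intCast]

theorem g7_norm_nonneg (d : Eis) : 0 ≤ d.norm := by
  have h := norm_emb_sq d
  have h2 : (0 : ℝ) ≤ (d.norm : ℝ) := by
    rw [← h]
    positivity
  exact_mod_cast h2

theorem g7_natAbs (d : Eis) : ((d.norm.natAbs : ℕ) : Eis) = d * star d := by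
  rw [g7_norm_mul, ← Int.cast_natCast, Int.natAbs_of_nonneg (g7_norm_nonneg d)]

theorem g7_z_mem (x : Fin n → ℂ) (A : Me n) (hd : A.det ≠ 0) (m₀ : Fin n → Eis) (N : ℕ)
    (hx : (fun i => (N : ℂ) * x i) ∈ Lz n) (i : Fin n) :
    ((N * A.det.norm.natAbs : ℕ) : ℂ) * g7_z x A m₀ i ∈ Set.range emb := by
  have hd' := g7_emb_ne hd
  obtain ⟨k, hk⟩ := hx
  have h1 : (N : ℂ) * (cm A *ᵥ (x + em m₀)) i = emb ((A *ᵥ (k + (N : Eis) • m₀)) i) := by
    have h2 : (N : ℂ) • (x + em m₀) = em (k + (N : Eis) • m₀) := by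
      rw [em_add, hk, smul_add]
      congr 1
      ext j
      show (N : ℂ) * emb (m₀ j) = emb (((N : Eis) • m₀) j)
      rw [Pi.smul_apply, smul_eq_mul, map_mul, map_natCast]
    have h3 : cm A *ᵥ em (k + (N : Eis) • m₀) = em (A *ᵥ (k + (N : Eis) • m₀)) :=
      cm_mulVec _ _
    have h4 := congrFun h3 i
    rw [← h2, Matrix.mulVec_smul, Pi.smul_apply, smul_eq_mul] at h4
    exact h4
  refine ⟨star A.det * (A *ᵥ (k + (N : Eis) • m₀)) i, ?_⟩
  have h5 : ((A.det.norm.natAbs : ℕ) : ℂ) = emb A.det * emb (star A.det) := by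
    rw [← map_mul, ← g7_natAbs, map_natCast]
  rw [map_mul, ← h1, g7_z, Nat.cast_mul, h5]
  field_simp

theorem g7_th_mem (w : Fin n → ℂ) (A : Me n) (N : ℕ) (hw : ∀ i, (N : ℂ) * w i ∈ Dl)
    (i : Fin n) : (N : ℂ) * g7_th w A i ∈ Dl := by
  have h1 : (N : ℂ) * g7_th w A i = ∑ j, emb (A.adjugate j i) * ((N : ℂ) * w j) := by
    have h2 : g7_th w A i = ∑ j, w j * emb (A.adjugate j i) := rfl
    rw [h2, Finset.mul_sum]
    exact Finset.sum_congr rfl fun j _ => by ring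
  rw [h1]
  exact g7_Dl_sum _ _ fun j _ => g7_Dl_mul _ (hw j)

theorem g7_th_mem' (w : Fin n → ℂ) (A : Me n) (N d : ℕ) (hw : ∀ i, (N : ℂ) * w i ∈ Dl)
    (i : Fin n) : ((N * d : ℕ) : ℂ) * g7_th w A i ∈ Dl := by
  have h := g7_Dl_mul (d : Eis) (g7_th_mem w A N hw i)
  rw [map_natCast, ← mul_assoc, mul_comm (d : ℂ), ← Nat.cast_mul] at h
  exact h

theorem g7_th_not_mem (w x : Fin n → ℂ) (A : Me n) (hA : Good w x A) (i : Fin n) :
    g7_th w A i ∉ Dl := hA.gw i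

theorem g7_coset_ex (A : Me n) (hd : A.det ≠ 0) : ∃ R : Finset (Fin n → Eis),
    ∀ m : Fin n → Eis, ∃! p : (Fin n → Eis) × (Fin n → Eis),
      p.1 ∈ R ∧ m = p.1 + A.adjugate *ᵥ p.2 :=
  coset A.adjugate (by
    rw [Matrix.det_adjugate]
    exact fun h => pow_ne_zero (Fintype.card (Fin n) - 1) (g7_emb_ne hd)
      (by rw [← map_pow, h, map_zero]))

/-! ### valuations -/

theorem g7_val_odd (V : ValuationSubring ℂ) (hV : V.valuation 2 < 1) (k : ℤ) (hk : Odd k) :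
    V.valuation (k : ℂ) = 1 := by
  obtain ⟨j, rfl⟩ := hk
  have hj : V.valuation (j : ℂ) ≤ 1 := by
    have := val_emb V (j : Eis)
    rwa [map_intCast] at this
  have h1 : V.valuation ((2 : ℂ) * (j : ℂ)) < 1 := by
    rw [map_mul]
    exact lt_of_le_of_lt (mul_le_of_le_one_right' hj) hV
  push_cast
  rw [add_comm]
  exact Valuation.map_one_add_of_lt _ h1

theorem g7_val_unit (V : ValuationSubring ℂ) (hV : V.valuation 2 < 1) (d : Eis)
    (hd : Odd d.norm) : V.valuation (emb d) = 1 := by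
  have h1 : V.valuation (emb d) * V.valuation (emb (star d)) = 1 := by
    rw [← map_mul, ← map_mul, g7_norm_mul, map_intCast]
    exact g7_val_odd V hV _ hd
  refine le_antisymm (val_emb V d) ?_
  rw [← h1]
  exact mul_le_of_le_one_right' (val_emb V _)

/-! ### multiplication by a unit -/

theorem g7_z_smul (x : Fin n → ℂ) (A : Me n) (m₀ : Fin n → Eis) (u : Eis) (i : Fin n) :
    g7_z (fun i => emb u * x i) A (u • m₀) i = emb u * g7_z x A m₀ i := by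
  have h1 : (fun i => emb u * x i) + em (u • m₀) = emb u • (x + em m₀) := by
    ext j
    show emb u * x j + emb ((u • m₀) j) = emb u * (x j + emb (m₀ j))
    rw [Pi.smul_apply, smul_eq_mul, map_mul]
    ring
  rw [g7_z, h1, Matrix.mulVec_smul, Pi.smul_apply, smul_eq_mul, g7_z, mul_div_assoc]

theorem g7_th_smul (w : Fin n → ℂ) (A : Me n) (c : ℂ) (i : Fin n) :
    g7_th (fun i => c * w i) A i = c * g7_th w A i := by
  have h1 : (fun i => c * w i) = c • w := rfl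
  rw [g7_th, h1, Matrix.smul_vecMul, Pi.smul_apply, smul_eq_mul, g7_th]

theorem g7_good (w x : Fin n → ℂ) (A : Me n) (hA : Good w x A) (N : ℕ)
    (hx : (fun i => (N : ℂ) * x i) ∈ Lz n) (hw : ∀ i, (N : ℂ) * w i ∈ Dl) (u a c : Eis)
    (hu : a * u + c * (N : Eis) = 1) (v a' c' : Eis) (hv : a' * v + c' * (N : Eis) = 1) :
    Good (fun i => emb v * w i) (fun i => emb u * x i) A := by
  have he : emb a * emb u + emb c * (N : ℂ) = 1 := by
    have := congrArg emb hu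
    rwa [map_add, map_mul, map_mul, map_natCast, map_one] at this
  have he' : emb a' * emb v + emb c' * (N : ℂ) = 1 := by
    have := congrArg emb hv
    rwa [map_add, map_mul, map_mul, map_natCast, map_one] at this
  refine ⟨hA.det, fun i m h => ?_, fun j h => ?_⟩
  · obtain ⟨k, hk⟩ := hx
    refine hA.gx i (a • m - c • k) ?_
    have h1 : x + em (a • m - c • k) = emb a • ((fun i => emb u * x i) + em m) := by
      ext j
      have h2 : emb (k j) = (N : ℂ) * x j := congrFun hk j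
      show x j + emb ((a • m - c • k) j) = emb a * (emb u * x j + emb (m j))
      rw [Pi.sub_apply, Pi.smul_apply, Pi.smul_apply, smul_eq_mul, smul_eq_mul, map_sub, map_mul,
        map_mul, h2]
      linear_combination (-x j) * he
    rw [h1, Matrix.mulVec_smul, Pi.smul_apply, h, smul_zero]
  · have h1 : emb v * g7_th w A j ∈ Dl := by
      rw [← g7_th_smul]
      exact h
    refine hA.gw j ?_
    show g7_th w A j ∈ Dl
    have h2 := g7_Dl_add (g7_Dl_mul a' h1) (g7_Dl_mul c' (g7_th_mem w A N hw j))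
    have h3 : emb a' * (emb v * g7_th w A j) + emb c' * ((N : ℂ) * g7_th w A j) =
        g7_th w A j := by
      linear_combination (g7_th w A j) * he'
    rwa [h3] at h2

theorem g7_BA (A : Me n) (v : Fin n → Eis) : A.adjugate *ᵥ (A *ᵥ v) = A.det • v := by
  rw [Matrix.mulVec_mulVec, Matrix.adjugate_mul, Matrix.smul_mulVec, Matrix.one_mulVec]

theorem g7_coset_u (A : Me n) (R : Finset (Fin n → Eis))
    (hR : ∀ m : Fin n → Eis, ∃! p : (Fin n → Eis) × (Fin n → Eis),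
      p.1 ∈ R ∧ m = p.1 + A.adjugate *ᵥ p.2) (u a b : Eis) (h : a * u + b * A.det = 1) :
    (∀ r₁ ∈ R, ∀ r₂ ∈ R, ∀ t₁ t₂ : Fin n → Eis,
      u • r₁ + A.adjugate *ᵥ t₁ = u • r₂ + A.adjugate *ᵥ t₂ → r₁ = r₂ ∧ t₁ = t₂) ∧
    (∀ m : Fin n → Eis, ∃ r ∈ R, ∃ t : Fin n → Eis, m = u • r + A.adjugate *ᵥ t) := by
  constructor
  · intro r₁ h1 r₂ h2 t₁ t₂ h3
    have h4 : r₁ = r₂ + A.adjugate *ᵥ (a • (t₂ - t₁) + A *ᵥ (b • (r₁ - r₂))) := by
      rw [Matrix.mulVec_add, g7_BA, Matrix.mulVec_smul, Matrix.mulVec_sub]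
      have h5 : A.adjugate *ᵥ t₂ - A.adjugate *ᵥ t₁ = u • r₁ - u • r₂ := by
        rw [sub_eq_sub_iff_add_eq_add, add_comm, ← h3, add_comm]
      rw [h5]
      ext1 i
      simp only [Pi.add_apply, Pi.smul_apply, Pi.sub_apply, smul_eq_mul]
      linear_combination (r₂ i - r₁ i) * h
    have h6 : r₁ = r₂ := by
      have := (hR r₁).unique (y₁ := (r₁, 0)) (y₂ := (r₂, _)) ⟨h1, by rw [Matrix.mulVec_zero, add_zero]⟩
        ⟨h2, h4⟩
      exact congrArg Prod.fst this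
    subst h6
    refine ⟨rfl, ?_⟩
    have h7 := add_left_cancel h3
    have := (hR (r₁ + A.adjugate *ᵥ t₁)).unique (y₁ := (r₁, t₁)) (y₂ := (r₁, t₂)) ⟨h1, rfl⟩
      ⟨h1, by rw [h7]⟩
    exact congrArg Prod.snd this
  · intro m
    obtain ⟨⟨r, t⟩, ⟨h1, h2⟩, -⟩ := hR (a • m)
    refine ⟨r, h1, u • t + A *ᵥ (b • m), ?_⟩
    rw [Matrix.mulVec_add, g7_BA, Matrix.mulVec_smul, ← add_assoc, ← smul_add]
    have h3 : r + A.adjugate *ᵥ t = a • m := h2.symm
    rw [h3]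
    ext1 i
    simp only [Pi.add_apply, Pi.smul_apply, smul_eq_mul]
    linear_combination (-m i) * h

theorem Psi_val (hn : 1 ≤ n) (w x : Fin n → ℂ) (A : Me n) (hA : Good w x A)
    (hodd : Odd A.det.norm) (N : ℕ) (hN : Odd N) (hx : (fun i => (N : ℂ) * x i) ∈ Lz n)
    (hw : ∀ i, (N : ℂ) * w i ∈ Dl) (V : ValuationSubring ℂ) (hV : V.valuation 2 < 1) :
    V.valuation (Psi w x A / OmC ^ n) ≤ 1 := by
  obtain ⟨R, hR⟩ := g7_coset_ex A hA.det
  rw [g7_Psi hn w x A hA R hR]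
  have hu := g7_val_unit V hV A.det hodd
  have hN' : Odd (N * A.det.norm.natAbs) := hN.mul (Int.natAbs_odd.2 hodd)
  rw [map_mul, map_mul, map_pow, map_inv₀, hu, inv_one, one_pow, one_mul, one_mul]
  refine Valuation.map_sum_le _ fun m₀ _ => ?_
  rw [map_prod]
  refine Finset.prod_le_one' fun i _ => ?_
  exact Xi_val V hV _ hN' _ _ (g7_z_mem x A hA.det m₀ N hx i) (g7_not_mem w x A hA m₀ i)
    (g7_th_mem' w A N _ hw i)

theorem Psi_gal (hn : 1 ≤ n) (w x : Fin n → ℂ) (A : Me n) (hA : Good w x A) (N : ℕ)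
    (hN : Odd N) (hx : (fun i => (N : ℂ) * x i) ∈ Lz n) (hw : ∀ i, (N : ℂ) * w i ∈ Dl)
    (N₂ : ℕ) (hN₂ : Odd N₂) (hd : (N * A.det.norm.natAbs) ^ 2 ∣ N₂) (σ : ℂ ≃+* ℂ)
    (hσ : σ CM27.w = CM27.w) (u : Eis) (hu : IsCoprime u (N₂ : Eis))
    (hσu : ∀ c : Eis, ptMap (σ : ℂ →+* ℂ) (pt (emb c / N₂)) = pt (emb (c * u) / N₂))
    (k : ℕ) (hσζ : ∀ ζ : ℂ, ζ ^ N₂ = 1 → σ ζ = ζ ^ k) (v : Eis) (hv : IsCoprime v (N₂ : Eis))
    (huv : (N₂ : Eis) ∣ v * u - k) :
    σ (Psi w x A / OmC ^ n)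
      = Psi (fun i => emb v * w i) (fun i => emb u * x i) A / OmC ^ n := by
  classical
  obtain ⟨R, hR⟩ := g7_coset_ex A hA.det
  have hdvd : N * A.det.norm.natAbs ∣ N₂ := (Dvd.intro_left _ (pow_succ _ 1).symm).trans hd
  have hN2 : (N : Eis) ∣ (N₂ : Eis) := Nat.cast_dvd_cast ((Nat.dvd_mul_right _ _).trans hdvd)
  have hd2 : A.det ∣ (N₂ : Eis) := by
    refine dvd_trans ⟨star A.det, g7_natAbs A.det⟩ (Nat.cast_dvd_cast
      ((Nat.dvd_mul_left A.det.norm.natAbs N).trans hdvd))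
  obtain ⟨a, c, hac⟩ := IsCoprime.of_isCoprime_of_dvd_right hu hN2
  obtain ⟨av, cv, hacv⟩ := IsCoprime.of_isCoprime_of_dvd_right hv hN2
  obtain ⟨a', c', hac'⟩ := IsCoprime.of_isCoprime_of_dvd_right hu hd2
  obtain ⟨hinj, hsurj⟩ := g7_coset_u A R hR u a' c' hac'
  have hR' : ∀ m : Fin n → Eis, ∃! p : (Fin n → Eis) × (Fin n → Eis),
      p.1 ∈ R.image (fun m => u • m) ∧ m = p.1 + A.adjugate *ᵥ p.2 := by
    intro m
    obtain ⟨r, hr, t, ht⟩ := hsurj m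
    refine ⟨(u • r, t), ⟨Finset.mem_image_of_mem _ hr, ht⟩, ?_⟩
    rintro ⟨q, t'⟩ ⟨h1, h2⟩
    obtain ⟨r', hr', rfl⟩ := Finset.mem_image.1 h1
    obtain ⟨h3, h4⟩ := hinj r' hr' r hr t' t (h2.symm.trans ht)
    rw [h3, h4]
  rw [g7_Psi hn w x A hA R hR, g7_Psi hn _ _ A (g7_good w x A hA N hx hw u a c hac v av cv hacv) _ hR']
  rw [Finset.sum_image (by
    intro r hr r' hr' h
    exact (hinj r hr r' hr' 0 0 (by rw [show u • r = u • r' from h])).1)]
  rw [map_mul, map_mul, map_pow, map_inv₀, a11b_sig σ hσ, map_sum]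
  congr 1
  refine Finset.sum_congr rfl fun m₀ _ => ?_
  rw [map_prod]
  refine Finset.prod_congr rfl fun i _ => ?_
  rw [g7_z_smul, g7_th_smul]
  exact Xi_gal σ hσ N₂ hN₂ u hu hσu k hσζ v huv (N * A.det.norm.natAbs) hd _ _
    (g7_z_mem x A hA.det m₀ N hx i) (g7_not_mem w x A hA m₀ i) (g7_th_mem' w A N _ hw i)

end NG
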