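import Pool.Agent.MP_9ab903_nt.NG.G9a

/-! ## [NG-G9b] the torus sum in general: averaging

`Θ` invariant under the `E_i` only, `JE E ≠ 0`. Average: `Θ' b = ∫_{t ∈ [0,1]^r} Θ (Ex E t * b) dt`, `f' P = ∫_{t ∈ [0,1]^r} f (Ex E t * P_k)`.
`Θ'`, `f'` satisfy the hypotheses of `TD_inv`: every `g` with product 1 is `Ex E τ` (`JE E ≠ 0`), and the integral over `[0,1]^r + τ` of a
function with period `1` in each variable is the integral over `[0,1]^r`; `det (g P) = det P` for `∏ g = 1`; Fubini. The torus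
sum of `f` at the base point `Ex E t` does not depend on `t` (`BB_base`, `G = ` group of positive vectors generated by the `E_i`, or the
group `Multiplicative (Fin r → ℤ)`), so it equals the torus sum of `f'`. And `Θ'(σ 1) = ∫_t Θ(σ Ex E t)`. -/

set_option autoImplicit false

open scoped ComplexConjugate Matrix
open MeasureTheory Set Filter Topology

namespace NG

open CM27 NAB

variable {n : ℕ}

variable {r : ℕ}

/-! ### periodic functions -/

open scoped Pointwise in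
theorem g9b_period (F : (Fin r → ℝ) → ℂ) (hF : ∀ (i : Fin r) (t : Fin r → ℝ),
    F (Pi.single i 1 + t) = F t) (τ : Fin r → ℝ) :
    ∫ t in Icc (0 : Fin r → ℝ) 1, F (t + τ) = ∫ t in Icc (0 : Fin r → ℝ) 1, F t := by
  set b := Pi.basisFun ℝ (Fin r) with hb
  set D := ZSpan.fundamentalDomain b with hD
  have hfd := ZSpan.isAddFundamentalDomain' b (volume : Measure (Fin r → ℝ))
  have hfd2 := hfd.vadd_of_comm τ
  have hG : ∀ (g : (Submodule.span ℤ (Set.range b)).toAddSubgroup) (t : Fin r → ℝ),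
      F (g +ᵥ t) = F t := by
    rintro ⟨g, hg⟩
    have hg' : g ∈ Submodule.span ℤ (Set.range b) := hg
    change ∀ t, F (g + t) = F t
    induction hg' using Submodule.span_induction with
    | mem x hx =>
      obtain ⟨i, rfl⟩ := hx
      intro t
      rw [hb, Pi.basisFun_apply]
      exact hF i t
    | zero => intro t; rw [zero_add]
    | add x y hx hy ihx ihy =>
      intro t
      rw [add_assoc, ihx hx, ihy hy]
    | smul a x hx ihx =>
      have h1 : ∀ (k : ℕ) (t : Fin r → ℝ), F (k • x + t) = F t := by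
        intro k
        induction k with
        | zero => intro t; rw [zero_smul, zero_add]
        | succ k ih => intro t; rw [succ_nsmul, add_assoc, ih, ihx hx]
      intro t
      obtain ⟨k, hk⟩ := Int.eq_nat_or_neg a
      rcases hk with hk | hk
      · rw [hk, natCast_zsmul, h1]
      · rw [hk, neg_smul, natCast_zsmul]
        have h2 := h1 k (-(k • x) + t)
        rw [← h2]
        congr 1
        abel
  haveI : Countable (Submodule.span ℤ (Set.range b)).toAddSubgroup :=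
    inferInstanceAs (Countable (Submodule.span ℤ (Set.range b)))
  have h1 := hfd.setIntegral_eq hfd2 hG
  have hDI : D =ᵐ[volume] Icc (0 : Fin r → ℝ) 1 := by
    rw [hD, hb, ZSpan.fundamentalDomain_pi_basisFun, volume_pi]
    exact Measure.univ_pi_Ico_ae_eq_Icc
  have h2 : ∫ t in τ +ᵥ D, F t = ∫ t in D, F (t + τ) := by
    have h3 := (measurePreserving_add_right (volume : Measure (Fin r → ℝ)) τ).setIntegral_image_emb
      (MeasurableEquiv.addRight τ).measurableEmbedding F D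
    have h4 : (fun t => t + τ) '' D = τ +ᵥ D := by
      ext t
      simp only [Set.mem_image, Set.mem_vadd_set, vadd_eq_add]
      constructor
      · rintro ⟨y, hy, rfl⟩
        exact ⟨y, hy, add_comm _ _⟩
      · rintro ⟨y, hy, rfl⟩
        exact ⟨y, hy, add_comm _ _⟩
    rw [← h4]
    exact h3
  rw [← setIntegral_congr_set hDI, ← setIntegral_congr_set hDI, ← h2]
  exact h1.symm

/-! ### the torus -/

theorem g9b_Ex (E : Fin r → Fin (r + 1) → ℝ) (hE : ∀ i j, 0 < E i j) (t : Fin r → ℝ)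
    (j : Fin (r + 1)) : Ex E t j = Real.exp (∑ i, t i * Real.log (E i j)) := by
  rw [Ex, Real.exp_sum]
  refine Finset.prod_congr rfl fun i _ => ?_
  rw [Real.rpow_def_of_pos (hE i j), mul_comm]

theorem g9b_Ex_pos (E : Fin r → Fin (r + 1) → ℝ) (hE : ∀ i j, 0 < E i j) (t : Fin r → ℝ)
    (j : Fin (r + 1)) : 0 < Ex E t j := by
  rw [g9b_Ex E hE]
  exact Real.exp_pos _

theorem g9b_Ex_add (E : Fin r → Fin (r + 1) → ℝ) (hE : ∀ i j, 0 < E i j) (t τ : Fin r → ℝ) :
    Ex E (t + τ) = Ex E t * Ex E τ := by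
  funext j
  rw [Pi.mul_apply, g9b_Ex E hE, g9b_Ex E hE, g9b_Ex E hE, ← Real.exp_add,
    ← Finset.sum_add_distrib]
  congr 1
  refine Finset.sum_congr rfl fun i _ => ?_
  rw [Pi.add_apply]
  ring

theorem g9b_Ex_single (E : Fin r → Fin (r + 1) → ℝ) (hE : ∀ i j, 0 < E i j) (i : Fin r) :
    Ex E (Pi.single i 1) = E i := by
  funext j
  rw [g9b_Ex E hE, Finset.sum_eq_single i]
  · rw [Pi.single_eq_same, one_mul, Real.exp_log (hE i j)]
  · intro k _ hk
    rw [Pi.single_eq_of_ne hk, zero_mul]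
  · intro h
    exact absurd (Finset.mem_univ i) h

theorem g9b_log_sum (E : Fin r → Fin (r + 1) → ℝ) (hE : ∀ i j, 0 < E i j)
    (hp : ∀ i, ∏ j, E i j = 1) (i : Fin r) : ∑ j, Real.log (E i j) = 0 := by
  rw [← Real.log_prod (fun j _ => (hE i j).ne'), hp i, Real.log_one]

theorem g9b_Ex_prod (E : Fin r → Fin (r + 1) → ℝ) (hE : ∀ i j, 0 < E i j)
    (hp : ∀ i, ∏ j, E i j = 1) (t : Fin r → ℝ) : ∏ j, Ex E t j = 1 := by
  simp only [g9b_Ex E hE]
  rw [← Real.exp_sum, Finset.sum_comm]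
  have : ∀ i, ∑ j, t i * Real.log (E i j) = 0 := by
    intro i
    rw [← Finset.mul_sum, g9b_log_sum E hE hp, mul_zero]
  simp [this]

theorem g9b_Ex_cont (E : Fin r → Fin (r + 1) → ℝ) (hE : ∀ i j, 0 < E i j) :
    Continuous (Ex E) := by
  refine continuous_pi fun j => ?_
  simp only [g9b_Ex E hE]
  fun_prop

/-- every positive vector of product 1 is on the torus -/
theorem g9b_surj (E : Fin r → Fin (r + 1) → ℝ) (hE : ∀ i j, 0 < E i j)
    (hp : ∀ i, ∏ j, E i j = 1) (hJ : JE E ≠ 0) (g : Fin (r + 1) → ℝ) (hg : ∀ j, 0 < g j)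
    (hg1 : ∏ j, g j = 1) : ∃ τ : Fin r → ℝ, g = Ex E τ := by
  set A : Matrix (Fin (r + 1)) (Fin (r + 1)) ℝ := Matrix.of (Fin.cons (α := fun _ => Fin (r + 1) → ℝ)
    (fun _ => (1 : ℝ)) (fun i j => Real.log (E i j))) with hA
  have hdet : IsUnit A.det := isUnit_iff_ne_zero.2 hJ
  set c : Fin (r + 1) → ℝ := (fun j => Real.log (g j)) ᵥ* A⁻¹ with hc
  have h1 : c ᵥ* A = fun j => Real.log (g j) := by
    rw [hc, Matrix.vecMul_vecMul, Matrix.nonsing_inv_mul _ hdet, Matrix.vecMul_one]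
  have h2 : ∀ j, c 0 + ∑ i : Fin r, c i.succ * Real.log (E i j) = Real.log (g j) := by
    intro j
    have h3 := congrFun h1 j
    rw [Matrix.vecMul, dotProduct, Fin.sum_univ_succ] at h3
    simpa [hA] using h3
  have h4 : c 0 = 0 := by
    have h5 : ∑ j, (c 0 + ∑ i : Fin r, c i.succ * Real.log (E i j)) = ∑ j, Real.log (g j) :=
      Finset.sum_congr rfl fun j _ => h2 j
    rw [Finset.sum_add_distrib, Finset.sum_comm] at h5
    have h6 : ∀ i : Fin r, ∑ j, c i.succ * Real.log (E i j) = 0 := by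
      intro i
      rw [← Finset.mul_sum, g9b_log_sum E hE hp, mul_zero]
    rw [← Real.log_prod (fun j _ => (hg j).ne'), hg1, Real.log_one] at h5
    simp only [h6, Finset.sum_const_zero, add_zero, Finset.sum_const, Finset.card_univ,
      Fintype.card_fin, nsmul_eq_mul] at h5
    rcases mul_eq_zero.1 h5 with h7 | h7
    · have : (0 : ℝ) < ((r + 1 : ℕ) : ℝ) := by positivity
      exact absurd h7 this.ne'
    · exact h7
  refine ⟨fun i => c i.succ, ?_⟩
  funext j
  rw [g9b_Ex E hE, ← Real.exp_log (hg j), ← h2 j, h4, zero_add]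

theorem g9b_mem (E : Fin r → Fin (r + 1) → ℝ) (hE : ∀ i j, 0 < E i j) (t : Fin r → ℝ)
    {b : Fin (r + 1) → ℝ} (hb : b ∈ qd (r + 1)) : Ex E t * b ∈ qd (r + 1) :=
  fun j => mul_pos (g9b_Ex_pos E hE t j) (hb j)

theorem g9b_vol : (volume (Icc (0 : Fin r → ℝ) 1)) = 1 := by
  rw [Real.volume_Icc_pi]
  simp

/-- the compact set `{Ex E t * p}` -/
theorem g9b_dec (E : Fin r → Fin (r + 1) → ℝ) (hE : ∀ i j, 0 < E i j)
    (Θ : (Fin (r + 1) → ℝ) → ℂ)
    (hdec : ∀ K ⊆ qd (r + 1), IsCompact K → ∃ C κ : ℝ, 0 < κ ∧ ∀ p ∈ K, ∀ σ : ℝ, 0 < σ →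
      ‖Θ (σ • p)‖ ≤ C * Real.exp (-(κ * σ)))
    (K : Set (Fin (r + 1) → ℝ)) (hK : K ⊆ qd (r + 1)) (hKc : IsCompact K) :
    ∃ C κ : ℝ, 0 < κ ∧ ∀ t ∈ Icc (0 : Fin r → ℝ) 1, ∀ p ∈ K, ∀ σ : ℝ, 0 < σ →
      ‖Θ (σ • (Ex E t * p))‖ ≤ C * Real.exp (-(κ * σ)) := by
  have hc : Continuous fun q : (Fin r → ℝ) × (Fin (r + 1) → ℝ) => Ex E q.1 * q.2 :=
    ((g9b_Ex_cont E hE).comp continuous_fst).mul continuous_snd
  have hcomp : IsCompact ((fun q : (Fin r → ℝ) × (Fin (r + 1) → ℝ) => Ex E q.1 * q.2) ''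
      (Icc (0 : Fin r → ℝ) 1 ×ˢ K)) := (isCompact_Icc.prod hKc).image hc
  obtain ⟨C, κ, hκ, h⟩ := hdec _ (by
    rintro _ ⟨q, hq, rfl⟩
    exact g9b_mem E hE q.1 (hK hq.2)) hcomp
  exact ⟨C, κ, hκ, fun t ht p hp σ hσ => h _ ⟨(t, p), ⟨ht, hp⟩, rfl⟩ σ hσ⟩

/-- the box containing finitely many points of the orthant -/
theorem g9b_bounds {m : ℕ} (P : Fin (m + 1) → Fin (m + 1) → ℝ) (hP : ∀ i, P i ∈ qd (m + 1)) :
    ∃ c C : ℝ, 0 < c ∧ ∀ i j, c ≤ P i j ∧ P i j ≤ C := by
  have hfin : (Set.range fun q : Fin (m + 1) × Fin (m + 1) => P q.1 q.2).Finite :=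
    Set.finite_range _
  have hne : (Set.range fun q : Fin (m + 1) × Fin (m + 1) => P q.1 q.2).Nonempty :=
    Set.range_nonempty _
  obtain ⟨C, hC⟩ := hfin.bddAbove
  obtain ⟨c, hc, hc'⟩ := hfin.isCompact.exists_isLeast hne
  obtain ⟨q, hq⟩ := hc
  refine ⟨c, C, ?_, fun i j => ⟨hc' ⟨(i, j), rfl⟩, hC ⟨(i, j), rfl⟩⟩⟩
  rw [← hq]
  exact hP q.1 q.2

/-- Fubini -/
theorem g9b_fub (E : Fin r → Fin (r + 1) → ℝ) (hE : ∀ i j, 0 < E i j)
    (Θ : (Fin (r + 1) → ℝ) → ℂ) (hΘ : ContinuousOn Θ (qd (r + 1)))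
    (hdec : ∀ K ⊆ qd (r + 1), IsCompact K → ∃ C κ : ℝ, 0 < κ ∧ ∀ p ∈ K, ∀ σ : ℝ, 0 < σ →
      ‖Θ (σ • p)‖ ≤ C * Real.exp (-(κ * σ)))
    (P : Fin (r + 1) → Fin (r + 1) → ℝ) (hP : ∀ i, P i ∈ qd (r + 1)) :
    Integrable (Function.uncurry fun (t : Fin r → ℝ) (a : Fin (r + 1) → ℝ) =>
      Θ (Ex E t * ∑ i, a i • P i))
      (((volume : Measure (Fin r → ℝ)).restrict (Icc 0 1)).prod
        ((volume : Measure (Fin (r + 1) → ℝ)).restrict (qd (r + 1)))) := by
  obtain ⟨c, C, hc, hcC⟩ := g9b_bounds P hP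
  have hK : Icc (fun _ : Fin (r + 1) => c) (fun _ => C) ⊆ qd (r + 1) := by
    intro p hp j
    exact hc.trans_le (hp.1 j)
  obtain ⟨D, κ, hκ, hD⟩ := g9b_dec E hE Θ hdec _ hK isCompact_Icc
  have hone : Integrable (fun _ : Fin r → ℝ => D)
      ((volume : Measure (Fin r → ℝ)).restrict (Icc 0 1)) :=
    integrableOn_const (by rw [g9b_vol]; exact ENNReal.one_ne_top) (by simp)
  have hG := hone.mul_prod (g9a_exp_int (r + 1) κ hκ)
  refine hG.mono' ?_ ?_
  · rw [Measure.prod_restrict]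
    refine ContinuousOn.aestronglyMeasurable ?_ (measurableSet_Icc.prod (g9a_qd_meas _))
    have hcont : Continuous fun q : (Fin r → ℝ) × (Fin (r + 1) → ℝ) =>
        Ex E q.1 * ∑ i, q.2 i • P i :=
      ((g9b_Ex_cont E hE).comp continuous_fst).mul ((g9a_lin_cont P).comp continuous_snd)
    exact hΘ.comp hcont.continuousOn fun q hq => g9b_mem E hE q.1 (g9a_comb_mem hq.2 hP)
  · rw [Measure.prod_restrict]
    refine (ae_restrict_iff' (measurableSet_Icc.prod (g9a_qd_meas _))).2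
      (Eventually.of_forall fun q hq => ?_)
    obtain ⟨t, a⟩ := q
    obtain ⟨ht, ha⟩ := hq
    change t ∈ Icc (0 : Fin r → ℝ) 1 at ht
    change a ∈ qd (r + 1) at ha
    obtain ⟨p, hp, he⟩ := g9a_box c C hc P hcC a ha
    simp only [Function.uncurry]
    rw [he, mul_smul_comm]
    exact hD t ht p hp _ (Finset.sum_pos (fun i _ => ha i) Finset.univ_nonempty)

/-- continuity of the average -/
theorem g9b_avg_cont (E : Fin r → Fin (r + 1) → ℝ) (hE : ∀ i j, 0 < E i j)
    (Θ : (Fin (r + 1) → ℝ) → ℂ) (hΘ : ContinuousOn Θ (qd (r + 1))) :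
    ContinuousOn (fun b => ∫ t in Icc (0 : Fin r → ℝ) 1, Θ (Ex E t * b)) (qd (r + 1)) := by
  have h1 : Continuous (Function.uncurry fun (x : Fin (r + 1) → ℝ) (t : Fin r → ℝ) =>
      Θ (Ex E t * fun j => Real.exp (x j))) := by
    have h2 : Continuous fun q : (Fin (r + 1) → ℝ) × (Fin r → ℝ) =>
        Ex E q.2 * fun j => Real.exp (q.1 j) := by
      refine ((g9b_Ex_cont E hE).comp continuous_snd).mul ?_
      refine continuous_pi fun j => ?_
      exact Real.continuous_exp.comp ((continuous_apply j).comp continuous_fst)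
    rw [← continuousOn_univ] at h2 ⊢
    exact hΘ.comp h2 fun q _ => g9b_mem E hE q.2 fun j => Real.exp_pos _
  have h3 := continuous_parametric_integral_of_continuous (μ := (volume : Measure (Fin r → ℝ)))
    h1 (isCompact_Icc (a := (0 : Fin r → ℝ)) (b := 1))
  have h4 : ContinuousOn (fun b : Fin (r + 1) → ℝ => fun j => Real.log (b j)) (qd (r + 1)) := by
    refine continuousOn_pi.2 fun j => ?_
    exact (continuous_apply j).continuousOn.log fun b hb => (hb j).ne'
  refine (h3.comp_continuousOn h4).congr fun b hb => ?_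
  congr 1
  funext t
  congr 2
  funext j
  rw [Real.exp_log (hb j)]

theorem TD (E : Fin r → Fin (r + 1) → ℝ) (hE : ∀ i j, 0 < E i j) (hp : ∀ i, ∏ j, E i j = 1)
    (hJ : JE E ≠ 0) (Θ : (Fin (r + 1) → ℝ) → ℂ) (hΘ : ContinuousOn Θ (qd (r + 1)))
    (hinv : ∀ i, ∀ b ∈ qd (r + 1), Θ (E i * b) = Θ b)
    (hdec : ∀ K ⊆ qd (r + 1), IsCompact K → ∃ C κ : ℝ, 0 < κ ∧ ∀ p ∈ K, ∀ σ : ℝ, 0 < σ →
      ‖Θ (σ • p)‖ ≤ C * Real.exp (-(κ * σ)))
    (f : (Fin (r + 1) → Fin (r + 1) → ℝ) → ℂ)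
    (hf : ∀ P : Fin (r + 1) → Fin (r + 1) → ℝ, (∀ i, P i ∈ qd (r + 1)) →
      f P = ((Matrix.of P).det : ℂ) * ∫ a in qd (r + 1), Θ (∑ i, a i • P i))
    (hcoc : ∀ P : Fin (r + 2) → Fin (r + 1) → ℝ, (∀ i, P i ∈ qd (r + 1)) →
      ∑ j : Fin (r + 2), (-1 : ℂ) ^ (j : ℕ) * f (fun i => P (j.succAbove i)) = 0) :
    ∑ π : Equiv.Perm (Fin r), ((Equiv.Perm.sign π : ℤ) : ℂ)
        * f (fun k => ∏ i ∈ Finset.univ \ JJ π k, E i)
      = (-1) ^ r * (JE E : ℂ) * ∫ t in Icc (0 : Fin r → ℝ) 1, ∫ σ in Ioi (0 : ℝ),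
          (σ : ℂ) ^ r * Θ (σ • Ex E t) := by
  classical
  set I : Set (Fin r → ℝ) := Icc 0 1 with hI
  haveI hfin : IsFiniteMeasure ((volume : Measure (Fin r → ℝ)).restrict I) := ⟨by
    rw [Measure.restrict_apply_univ, hI, g9b_vol]; exact ENNReal.one_lt_top⟩
  set Θ' : (Fin (r + 1) → ℝ) → ℂ := fun b => ∫ t in I, Θ (Ex E t * b) with hΘ'
  set f' : (Fin (r + 1) → Fin (r + 1) → ℝ) → ℂ := fun P => ∫ t in I, f (fun k => Ex E t * P k)
    with hf'
  -- `f` at the translated points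
  have hmem : ∀ (m : ℕ) (P : Fin m → Fin (r + 1) → ℝ), (∀ i, P i ∈ qd (r + 1)) →
      ∀ t i, Ex E t * P i ∈ qd (r + 1) := fun m P hP t i => g9b_mem E hE t (hP i)
  have hft : ∀ (t : Fin r → ℝ) (P : Fin (r + 1) → Fin (r + 1) → ℝ), (∀ i, P i ∈ qd (r + 1)) →
      f (fun k => Ex E t * P k) = ((Matrix.of P).det : ℂ) *
        ∫ a in qd (r + 1), Θ (Ex E t * ∑ i, a i • P i) := by
    intro t P hP
    rw [hf _ (fun i => hmem _ P hP t i)]
    have h1 : (Matrix.of fun k => Ex E t * P k).det = (Matrix.of P).det := by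
      have h2 := Matrix.det_mul_row (Ex E t) (Matrix.of P)
      rw [g9b_Ex_prod E hE hp t, one_mul] at h2
      exact h2
    rw [h1]
    congr 1
    refine setIntegral_congr_fun (g9a_qd_meas _) fun a _ => ?_
    have h3 : ∑ i, a i • (Ex E t * P i) = Ex E t * ∑ i, a i • P i := by
      rw [Finset.mul_sum]
      refine Finset.sum_congr rfl fun i _ => ?_
      rw [mul_smul_comm]
    change Θ (∑ i, a i • (Ex E t * P i)) = Θ (Ex E t * ∑ i, a i • P i)
    rw [h3]
  have hint : ∀ P : Fin (r + 1) → Fin (r + 1) → ℝ, (∀ i, P i ∈ qd (r + 1)) →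
      Integrable (fun t => f (fun k => Ex E t * P k))
        ((volume : Measure (Fin r → ℝ)).restrict I) := by
    intro P hP
    have h1 := (g9b_fub E hE Θ hΘ hdec P hP).integral_prod_left
    refine (h1.const_mul ((Matrix.of P).det : ℂ)).congr (Eventually.of_forall fun t => ?_)
    simp only [Function.uncurry]
    rw [hft t P hP]
  have hf'' : ∀ P : Fin (r + 1) → Fin (r + 1) → ℝ, (∀ i, P i ∈ qd (r + 1)) →
      f' P = ((Matrix.of P).det : ℂ) * ∫ a in qd (r + 1), Θ' (∑ i, a i • P i) := by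
    intro P hP
    rw [hf', hΘ']
    simp only [hft _ P hP]
    rw [integral_const_mul]
    congr 1
    exact integral_integral_swap (g9b_fub E hE Θ hΘ hdec P hP)
  have hcoc' : ∀ P : Fin (r + 2) → Fin (r + 1) → ℝ, (∀ i, P i ∈ qd (r + 1)) →
      ∑ j : Fin (r + 2), (-1 : ℂ) ^ (j : ℕ) * f' (fun i => P (j.succAbove i)) = 0 := by
    intro P hP
    rw [hf']
    simp only
    have h1 : ∀ j : Fin (r + 2), (-1 : ℂ) ^ (j : ℕ) *
        ∫ t in I, f (fun k => Ex E t * P (j.succAbove k)) =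
        ∫ t in I, (-1 : ℂ) ^ (j : ℕ) * f (fun k => Ex E t * P (j.succAbove k)) := fun j =>
      (integral_const_mul _ _).symm
    rw [Finset.sum_congr rfl fun j _ => h1 j, ← integral_finset_sum]
    · have h2 : ∀ t : Fin r → ℝ, ∑ j : Fin (r + 2), (-1 : ℂ) ^ (j : ℕ) *
          f (fun k => Ex E t * P (j.succAbove k)) = 0 := fun t =>
        hcoc (fun i => Ex E t * P i) (fun i => hmem _ P hP t i)
      simp only [h2, integral_zero]
    · intro j _
      exact (hint _ fun i => hP _).const_mul _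
  have hper : ∀ b ∈ qd (r + 1), ∀ (i : Fin r) (t : Fin r → ℝ),
      Θ (Ex E (Pi.single i 1 + t) * b) = Θ (Ex E t * b) := by
    intro b hb i t
    rw [g9b_Ex_add E hE, g9b_Ex_single E hE, mul_assoc]
    exact hinv i _ (g9b_mem E hE t hb)
  have hinv' : ∀ g : Fin (r + 1) → ℝ, (∀ j, 0 < g j) → ∏ j, g j = 1 → ∀ b ∈ qd (r + 1),
      Θ' (g * b) = Θ' b := by
    intro g hg hg1 b hb
    obtain ⟨τ, rfl⟩ := g9b_surj E hE hp hJ g hg hg1
    rw [hΘ']
    simp only
    have h1 := g9b_period (fun t => Θ (Ex E t * b)) (hper b hb) τ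
    rw [← h1]
    congr 1
    funext t
    rw [g9b_Ex_add E hE, mul_assoc]
  have hdec' : ∀ K ⊆ qd (r + 1), IsCompact K → ∃ C κ : ℝ, 0 < κ ∧ ∀ p ∈ K, ∀ σ : ℝ, 0 < σ →
      ‖Θ' (σ • p)‖ ≤ C * Real.exp (-(κ * σ)) := by
    intro K hK hKc
    obtain ⟨C, κ, hκ, h⟩ := g9b_dec E hE Θ hdec K hK hKc
    refine ⟨C, κ, hκ, fun p hp' σ hσ => ?_⟩
    rw [hΘ']
    simp only
    have h1 : ‖∫ t in I, Θ (Ex E t * (σ • p))‖ ≤
        C * Real.exp (-(κ * σ)) * (volume : Measure (Fin r → ℝ)).real I := by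
      refine norm_setIntegral_le_of_norm_le_const ?_ ?_
      · rw [hI, g9b_vol]; exact ENNReal.one_lt_top
      · intro t ht
        rw [mul_smul_comm]
        exact h t ht p hp' σ hσ
    have h2 : (volume : Measure (Fin r → ℝ)).real I = 1 := by
      rw [Measure.real, hI, g9b_vol, ENNReal.toReal_one]
    rwa [h2, mul_one] at h1
  have key := TD_inv E hE hp Θ' (g9b_avg_cont E hE Θ hΘ) hinv' hdec' f' hf'' hcoc'
  -- the left hand side
  set f'' : (Fin (r + 1) → Fin (r + 1) → ℝ) → ℂ := fun v => f (fun k j => Real.exp (v k j))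
    with hf3
  have hexp : ∀ (m : ℕ) (v : Fin m → Fin (r + 1) → ℝ) (i : Fin m),
      (fun j => Real.exp (v i j)) ∈ qd (r + 1) := fun m v i j => Real.exp_pos _
  set e : Fin r → Multiplicative (Fin (r + 1) → ℝ) := fun i =>
    Multiplicative.ofAdd fun j => Real.log (E i j) with he
  have hact : ∀ (g : Multiplicative (Fin (r + 1) → ℝ)) (v : Fin (r + 1) → ℝ),
      g • v = Multiplicative.toAdd g + v := fun g v => rfl
  have hinv2 : ∀ (i : Fin r) (v : Fin (r + 1) → Fin (r + 1) → ℝ),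
      f'' (fun k => e i • v k) = f'' v := by
    intro i v
    have h1 := g9a_inv Θ f hf (E i) (hE i) (hp i) (hinv i) (fun k j => Real.exp (v k j))
      (hexp _ v)
    rw [hf3]
    simp only
    rw [← h1]
    congr 1
    funext k j
    rw [hact, he, toAdd_ofAdd, Pi.add_apply, Pi.mul_apply, Real.exp_add, Real.exp_log (hE i j)]
  have halt2 : ∀ (v : Fin (r + 1) → Fin (r + 1) → ℝ) (i j : Fin (r + 1)), i ≠ j → v i = v j →
      f'' v = 0 := by
    intro v i j hij h
    refine g9a_alt Θ f hf _ (hexp _ v) i j hij ?_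
    simp only [h]
  have hcoc2 : ∀ v : Fin (r + 2) → Fin (r + 1) → ℝ, ∑ j : Fin (r + 2), (-1 : ℂ) ^ (j : ℕ) *
      f'' (fun i => v (j.succAbove i)) = 0 := fun v =>
    hcoc (fun k j => Real.exp (v k j)) (hexp _ v)
  have hT : ∀ t : Fin r → ℝ, ∑ π : Equiv.Perm (Fin r), ((Equiv.Perm.sign π : ℤ) : ℂ)
        * f (fun k => Ex E t * ∏ i ∈ Finset.univ \ JJ π k, E i) =
      ∑ π : Equiv.Perm (Fin r), ((Equiv.Perm.sign π : ℤ) : ℂ)
        * f (fun k => ∏ i ∈ Finset.univ \ JJ π k, E i) := by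
    have h1 : ∀ p : Fin (r + 1) → ℝ, BB f'' e p =
        ∑ π : Equiv.Perm (Fin r), ((Equiv.Perm.sign π : ℤ) : ℂ)
        * f (fun k => (fun j => Real.exp (p j)) * ∏ i ∈ Finset.univ \ JJ π k, E i) := by
      intro p
      unfold BB
      refine Finset.sum_congr rfl fun π _ => ?_
      congr 1
      rw [hf3]
      simp only
      congr 1
      funext k j
      rw [hact, toAdd_prod, he, Pi.add_apply, Pi.mul_apply, Finset.sum_apply, Finset.prod_apply,
        Real.exp_add, Real.exp_sum, mul_comm]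
      congr 1
      refine Finset.prod_congr rfl fun i _ => ?_
      rw [toAdd_ofAdd, Real.exp_log (hE i j)]
    intro t
    have h2 := BB_base f'' e hinv2 halt2 hcoc2 (fun j => Real.log (Ex E t j)) 0
    rw [h1, h1] at h2
    have h3 : (fun j => Real.exp (Real.log (Ex E t j))) = Ex E t := by
      funext j
      rw [Real.exp_log (g9b_Ex_pos E hE t j)]
    have h4 : (fun j : Fin (r + 1) => Real.exp ((0 : Fin (r + 1) → ℝ) j)) = 1 := by
      funext j
      simp
    rw [h3] at h2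
    rw [h2]
    simp only [h4, one_mul]
  have hprodmem : ∀ (π : Equiv.Perm (Fin r)) (k : Fin (r + 1)),
      (∏ i ∈ Finset.univ \ JJ π k, E i) ∈ qd (r + 1) := by
    intro π k j
    rw [Finset.prod_apply]
    exact Finset.prod_pos fun i _ => hE i j
  have hLHS : ∑ π : Equiv.Perm (Fin r), ((Equiv.Perm.sign π : ℤ) : ℂ)
        * f' (fun k => ∏ i ∈ Finset.univ \ JJ π k, E i) =
      ∑ π : Equiv.Perm (Fin r), ((Equiv.Perm.sign π : ℤ) : ℂ)
        * f (fun k => ∏ i ∈ Finset.univ \ JJ π k, E i) := by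
    rw [hf']
    simp only
    have h1 : ∀ π : Equiv.Perm (Fin r), ((Equiv.Perm.sign π : ℤ) : ℂ) *
        ∫ t in I, f (fun k => Ex E t * ∏ i ∈ Finset.univ \ JJ π k, E i) =
        ∫ t in I, ((Equiv.Perm.sign π : ℤ) : ℂ) *
          f (fun k => Ex E t * ∏ i ∈ Finset.univ \ JJ π k, E i) := fun π =>
      (integral_const_mul _ _).symm
    rw [Finset.sum_congr rfl fun π _ => h1 π, ← integral_finset_sum]
    · simp only [hT]
      rw [setIntegral_const]
      have h2 : (volume : Measure (Fin r → ℝ)).real I = 1 := by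
        rw [Measure.real, hI, g9b_vol, ENNReal.toReal_one]
      rw [h2, one_smul]
    · intro π _
      exact (hint _ (hprodmem π)).const_mul _
  rw [← hLHS, key]
  congr 1
  -- the right hand side
  have hone : ({(1 : Fin (r + 1) → ℝ)} : Set (Fin (r + 1) → ℝ)) ⊆ qd (r + 1) := by
    intro p hp' j
    rw [Set.mem_singleton_iff] at hp'
    rw [hp', Pi.one_apply]
    norm_num
  obtain ⟨C, κ, hκ, hb⟩ := g9b_dec E hE Θ hdec _ hone isCompact_singleton
  have hfub : Integrable (Function.uncurry fun (σ : ℝ) (t : Fin r → ℝ) =>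
      (σ : ℂ) ^ r * Θ (σ • Ex E t))
      (((volume : Measure ℝ).restrict (Ioi 0)).prod
        ((volume : Measure (Fin r → ℝ)).restrict I)) := by
    have hg1 : Integrable (fun σ : ℝ => C * (σ ^ (r : ℝ) * Real.exp (-κ * σ ^ (1 : ℝ))))
        ((volume : Measure ℝ).restrict (Ioi 0)) :=
      (integrableOn_rpow_mul_exp_neg_mul_rpow (by
        have : (0 : ℝ) ≤ r := Nat.cast_nonneg r
        linarith) one_pos hκ).const_mul C
    have hg2 : Integrable (fun _ : Fin r → ℝ => (1 : ℝ))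
        ((volume : Measure (Fin r → ℝ)).restrict I) := integrable_const _
    refine (hg1.mul_prod hg2).mono' ?_ ?_
    · rw [Measure.prod_restrict]
      refine ContinuousOn.aestronglyMeasurable ?_ (measurableSet_Ioi.prod measurableSet_Icc)
      have hc1 : Continuous fun q : ℝ × (Fin r → ℝ) => ((q.1 : ℝ) : ℂ) ^ r := by fun_prop
      have hc2 : Continuous fun q : ℝ × (Fin r → ℝ) => q.1 • Ex E q.2 :=
        continuous_fst.smul ((g9b_Ex_cont E hE).comp continuous_snd)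
      refine hc1.continuousOn.mul (hΘ.comp hc2.continuousOn fun q hq j => ?_)
      rw [Pi.smul_apply, smul_eq_mul]
      exact mul_pos hq.1 (g9b_Ex_pos E hE q.2 j)
    · rw [Measure.prod_restrict]
      refine (ae_restrict_iff' (measurableSet_Ioi.prod measurableSet_Icc)).2
        (Eventually.of_forall fun q hq => ?_)
      obtain ⟨σ, t⟩ := q
      have hσ : (0 : ℝ) < σ := hq.1
      have ht : t ∈ I := hq.2
      simp only [Function.uncurry]
      have h1 := hb t ht 1 (Set.mem_singleton _) σ hσ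
      rw [mul_one] at h1
      rw [norm_mul, norm_pow, Complex.norm_real, Real.norm_eq_abs, abs_of_pos hσ, mul_one,
        Real.rpow_one, Real.rpow_natCast]
      calc σ ^ r * ‖Θ (σ • Ex E t)‖ ≤ σ ^ r * (C * Real.exp (-(κ * σ))) :=
            mul_le_mul_of_nonneg_left h1 (by positivity)
        _ = _ := by
          rw [neg_mul]
          ring
  have hswap := integral_integral_swap hfub
  rw [← hswap]
  refine setIntegral_congr_fun measurableSet_Ioi fun σ _ => ?_
  rw [hΘ']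
  simp only
  rw [← integral_const_mul]
  congr 1
  funext t
  congr 2
  rw [mul_smul_comm, mul_one]

end NG
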