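import Pool.Agent.MP_9ab903_nt.NG.G5b
import Pool.Agent.MP_9ab903_nt.NG.G6
import Pool.Agent.MP_9ab903_nt.NG.G7
import Pool.Agent.MP_9ab903_nt.NG.G9b
import Pool.Agent.MP_9ab903_nt.NG.G10
import Pool.Agent.MP_9ab903_nt.NG.G11
import Pool.Agent.MP_9ab903_nt.NG.G13

/-! ## [NG-G12] the core theorem

`X` = the PD matrices, `φ_i P = (cm M_i)ᴴ P cm M_i`, `act g P = (cm (MP M g))ᴴ P cm (MP M g)`, `f P = SS w x P` (cocycle `SS_cocycle`,
invariant `SS_equiv`, alternating `SS_eq_zero`). `FF` at the constant family `h = ∑_j sq (L_j)`: `FF_const`; `act g h = ∑_j (∏_{i ∈ g} E_i j) sq (L_j)`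
(`E i j = ‖ε i j‖²`), `SS_diag`, `TD` (for `Θ = ThD`, `f = SS(diag)/(πⁿ det L)`; cocycle from `SS_cocycle`): the value is `πⁿ det L · JE · TI 0`
(the signs `(-1)^r` cancel). `FF` at `P_J = τ sq (ℓ_J) + h`: `act g (τ sq ℓ + h) = τ sq (ℓ MP) + act g h`, `SS_lim` as `τ → ∞` (`FF_eq`: the value
does not depend on `τ`). `core_gal`: `Psi_gal` and `core_eq` for `(v w, u x)` (again core data, `W ↦ v W`; `Good` is preserved, `norm c ∣ N₂`;
`hMw`: `Re (v w · (M - 1) m) ∈ ℤ` from `hMw` for `w` at `v m`; `Re (v w · (M - 1) u x) = Re (k w · (M-1) x + ..) ∈ ℤ`). -/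

set_option autoImplicit false
set_option linter.unusedSectionVars false

open scoped ComplexConjugate Matrix
open MeasureTheory Set Filter Topology

namespace NG

open CM27 NAB

variable {n : ℕ}

variable {r : ℕ}

/-! ### the positive definite forms as a type with an action -/

/-- positive definite forms -/
abbrev g12X (r : ℕ) : Type := {P : Mc (r + 1) // PD P}

theorem g12_cm_one : cm (1 : Me (r + 1)) = 1 := by
  unfold cm
  exact Matrix.map_one emb (map_zero _) (map_one _)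

theorem g12_MP_det (D : CD r) (g : Finset (Fin r)) : (MP D.M g).det = 1 := by
  induction g using Finset.induction_on with
  | empty => rw [MP_empty, Matrix.det_one]
  | insert i g hi ih => rw [MP_insert D.M D.hcomm g i hi, Matrix.det_mul, ih, D.hdet, one_mul]

theorem g12_cm_det_ne {M : Me (r + 1)} (hM : M.det = 1) : (cm M).det ≠ 0 := by
  rw [cm_det, hM, map_one]; exact one_ne_zero

/-- one generator -/
noncomputable def g12phi (D : CD r) (i : Fin r) (P : g12X r) : g12X r :=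
  ⟨(cm (D.M i))ᴴ * P.1 * cm (D.M i), PD_conj P.2 (g12_cm_det_ne (D.hdet i))⟩

/-- the action of a set of generators -/
noncomputable def g12act (D : CD r) (g : Finset (Fin r)) (P : g12X r) : g12X r :=
  ⟨(cm (MP D.M g))ᴴ * P.1 * cm (MP D.M g), PD_conj P.2 (g12_cm_det_ne (g12_MP_det D g))⟩

theorem g12act_empty (D : CD r) (P : g12X r) : g12act D ∅ P = P := by
  apply Subtype.ext
  show (cm (MP D.M ∅))ᴴ * P.1 * cm (MP D.M ∅) = P.1
  rw [MP_empty, g12_cm_one, Matrix.conjTranspose_one, Matrix.one_mul, Matrix.mul_one]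

theorem g12act_insert (D : CD r) (i : Fin r) (g : Finset (Fin r)) (P : g12X r) (hi : i ∉ g) :
    g12act D (insert i g) P = g12phi D i (g12act D g P) := by
  apply Subtype.ext
  show (cm (MP D.M (insert i g)))ᴴ * P.1 * cm (MP D.M (insert i g))
    = (cm (D.M i))ᴴ * ((cm (MP D.M g))ᴴ * P.1 * cm (MP D.M g)) * cm (D.M i)
  rw [MP_insert D.M D.hcomm g i hi, cm_mul, Matrix.conjTranspose_mul]
  simp only [Matrix.mul_assoc]

/-- the cocycle on positive definite forms -/
noncomputable def g12f (D : CD r) (P : Fin (r + 1) → g12X r) : ℂ := SS D.w D.x fun k => (P k).1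

theorem g12f_inv (D : CD r) (i : Fin r) (v : Fin (r + 1) → g12X r) :
    g12f D (fun k => g12phi D i (v k)) = g12f D v :=
  SS_equiv D.w D.x (D.M i) (D.hdet i) (D.hMx i) (D.hMw i) (fun k => (v k).1)

theorem g12f_alt (D : CD r) (v : Fin (r + 1) → g12X r) (i j : Fin (r + 1)) (hij : i ≠ j)
    (h : v i = v j) : g12f D v = 0 :=
  SS_eq_zero D.w D.x (fun k => (v k).1) i j hij (congrArg Subtype.val h)

theorem g12f_coc (D : CD r) (v : Fin (r + 2) → g12X r) :
    ∑ j : Fin (r + 2), (-1 : ℂ) ^ (j : ℕ) * g12f D (fun i => v (j.succAbove i)) = 0 :=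
  SS_cocycle (by omega) D.w D.x D.hx0 (fun k => (v k).1) (fun k => (v k).2)

/-! ### diagonal forms -/

/-- the form `∑ b_j |L_j v|²` -/
noncomputable def g12diag (L : Mc (r + 1)) (b : Fin (r + 1) → ℝ) : Mc (r + 1) :=
  ∑ j, (b j : ℂ) • sq (L j)

theorem g12diag_PD (L : Mc (r + 1)) (hL : L.det ≠ 0) (b : Fin (r + 1) → ℝ) (hb : ∀ j, 0 < b j) :
    PD (g12diag L b) := PD_sqs L hL b hb

theorem g12_diag_conj (D : CD r) (i : Fin r) (b : Fin (r + 1) → ℝ) :
    (cm (D.M i))ᴴ * g12diag D.L b * cm (D.M i)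
      = g12diag D.L ((fun j => ‖D.ε i j‖ ^ 2) * b) := by
  unfold g12diag
  rw [Matrix.mul_sum, Matrix.sum_mul]
  refine Finset.sum_congr rfl fun j _ => ?_
  rw [Matrix.mul_smul, Matrix.smul_mul, sq_conj, D.hLM, sq_smul, smul_smul, Pi.mul_apply]
  congr 1
  push_cast
  ring

theorem g12_act_diag (D : CD r) (g : Finset (Fin r)) :
    (cm (MP D.M g))ᴴ * g12diag D.L 1 * cm (MP D.M g)
      = g12diag D.L (∏ i ∈ g, fun j => ‖D.ε i j‖ ^ 2) := by
  induction g using Finset.induction_on with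
  | empty =>
    rw [MP_empty, g12_cm_one, Matrix.conjTranspose_one, Matrix.one_mul, Matrix.mul_one,
      Finset.prod_empty]
  | insert i g hi ih =>
    rw [Finset.prod_insert hi, ← g12_diag_conj, ← ih, MP_insert D.M D.hcomm g i hi, cm_mul,
      Matrix.conjTranspose_mul]
    simp only [Matrix.mul_assoc]

theorem g12_eps_ne (D : CD r) (i : Fin r) (j : Fin (r + 1)) : D.ε i j ≠ 0 := by
  intro h
  have h1 := prod_eps D.L D.hL (D.M i) (D.hdet i) (D.ε i) (D.hLM i)
  rw [Finset.prod_eq_zero (Finset.mem_univ j) h] at h1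
  exact zero_ne_one h1

theorem g12_E_pos (D : CD r) (i : Fin r) (j : Fin (r + 1)) : 0 < ‖D.ε i j‖ ^ 2 := by
  have := norm_pos_iff.2 (g12_eps_ne D i j)
  positivity

theorem g12_E_prod (D : CD r) (i : Fin r) : ∏ j, ‖D.ε i j‖ ^ 2 = 1 := by
  rw [Finset.prod_pow, ← norm_prod,
    prod_eps D.L D.hL (D.M i) (D.hdet i) (D.ε i) (D.hLM i), norm_one, one_pow]

/-- the density integral -/
noncomputable def g12F (D : CD r) (P : Fin (r + 1) → Fin (r + 1) → ℝ) : ℂ :=
  ((Matrix.of P).det : ℂ) * ∫ a in qd (r + 1), ThD D.w D.x D.L (∑ i, a i • P i)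

theorem g12_SS_diag (D : CD r) (P : Fin (r + 1) → Fin (r + 1) → ℝ) :
    SS D.w D.x (fun i => g12diag D.L (P i)) = (Real.pi : ℂ) ^ (r + 1) * D.L.det * g12F D P := by
  have h := SS_diag D.w D.x D.L (Matrix.of P)
  unfold g12diag g12F
  simp only [Matrix.of_apply] at h
  rw [h]
  have h2 : ∀ a : Fin (r + 1) → ℝ, (∑ i, a i • (Matrix.of P) i) = ∑ i, a i • P i := fun a => rfl
  simp only [h2]
  ring

theorem g12_torus (D : CD r) :
    ∑ π : Equiv.Perm (Fin r), ((Equiv.Perm.sign π : ℤ) : ℂ)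
        * g12F D (fun k => ∏ i ∈ Finset.univ \ JJ π k, fun j => ‖D.ε i j‖ ^ 2)
      = (-1) ^ r * (JE (fun i j => ‖D.ε i j‖ ^ 2) : ℂ)
        * TI D.w D.x D.L (fun i j => ‖D.ε i j‖ ^ 2) 0 := by
  have h := TD (fun i j => ‖D.ε i j‖ ^ 2) (g12_E_pos D) (g12_E_prod D) D.hJ
    (ThD D.w D.x D.L) (ThD_cont D.w D.x D.L D.hL)
    (fun i b _ => ThD_inv D.w D.x D.L D.hL (D.M i) (D.hdet i) (D.hMx i) (D.hMw i) (D.ε i)
      (D.hLM i) b)
    (fun K hK hKc => by
      obtain ⟨C, κ, hC, hκ, h⟩ := ThD_bound (by omega) D.w D.x D.hx0 D.L D.hL K hK hKc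
      refine ⟨C, κ, hκ, fun p hp σ hσ => (h p hp σ hσ).trans ?_⟩
      apply mul_le_mul_of_nonneg_left _ hC.le
      apply Real.exp_le_exp.2
      have : 0 < 1 / σ := by positivity
      nlinarith)
    (g12F D) (fun P _ => rfl)
    (fun P hP => by
      have h1 := SS_cocycle (by omega) D.w D.x D.hx0 (fun k => g12diag D.L (P k))
        (fun k => g12diag_PD D.L D.hL (P k) (hP k))
      have h2 : (Real.pi : ℂ) ^ (r + 1) * D.L.det ≠ 0 := by
        apply mul_ne_zero _ D.hL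
        apply pow_ne_zero
        exact_mod_cast Real.pi_ne_zero
      have h3 : ∀ j : Fin (r + 2), (-1 : ℂ) ^ (j : ℕ)
          * SS D.w D.x (fun i => g12diag D.L (P (j.succAbove i)))
          = (Real.pi : ℂ) ^ (r + 1) * D.L.det * ((-1 : ℂ) ^ (j : ℕ)
            * g12F D (fun i => P (j.succAbove i))) := by
        intro j
        rw [g12_SS_diag D (fun i => P (j.succAbove i))]
        ring
      rw [Finset.sum_congr rfl fun j _ => h3 j, ← Finset.mul_sum] at h1
      exact (mul_eq_zero.1 h1).resolve_left h2)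
  rw [h]
  congr 1
  unfold TI
  refine setIntegral_congr_fun measurableSet_Icc fun t _ => ?_
  refine setIntegral_congr_fun measurableSet_Ioi fun σ _ => ?_
  simp only [mul_zero, zero_add, Complex.cpow_natCast]

theorem g12_const (D : CD r) (h : g12X r) (hh : h.1 = g12diag D.L 1) :
    FF (g12act D) (g12f D) (fun _ => h)
      = (Real.pi : ℂ) ^ (r + 1) * D.L.det * (JE (fun i j => ‖D.ε i j‖ ^ 2) : ℂ)
        * TI D.w D.x D.L (fun i j => ‖D.ε i j‖ ^ 2) 0 := by
  rw [FF_const (g12f D) (g12phi D) (g12act D) (g12act_empty D) (fun i g x hi =>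
    g12act_insert D i g x hi) (g12f_alt D) h]
  have h1 : ∀ π : Equiv.Perm (Fin r), ((Equiv.Perm.sign π : ℤ) : ℂ)
      * g12f D (fun k => g12act D (Finset.univ \ JJ π k) h)
      = (Real.pi : ℂ) ^ (r + 1) * D.L.det * (((Equiv.Perm.sign π : ℤ) : ℂ)
        * g12F D (fun k => ∏ i ∈ Finset.univ \ JJ π k, fun j => ‖D.ε i j‖ ^ 2)) := by
    intro π
    have h2 : g12f D (fun k => g12act D (Finset.univ \ JJ π k) h)
        = SS D.w D.x (fun k => g12diag D.L (∏ i ∈ Finset.univ \ JJ π k,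
          fun j => ‖D.ε i j‖ ^ 2)) := by
      unfold g12f
      congr 1
      funext k
      show (cm (MP D.M (Finset.univ \ JJ π k)))ᴴ * h.1 * cm (MP D.M (Finset.univ \ JJ π k)) = _
      rw [hh]
      exact g12_act_diag D _
    rw [h2, g12_SS_diag]
    ring
  rw [Finset.sum_congr rfl fun π _ => h1 π, ← Finset.mul_sum, g12_torus]
  have h3 : ((-1 : ℂ) ^ r) * (-1) ^ r = 1 := by
    rw [← mul_pow]; norm_num
  linear_combination ((Real.pi : ℂ) ^ (r + 1) * D.L.det * (JE (fun i j => ‖D.ε i j‖ ^ 2) : ℂ)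
        * TI D.w D.x D.L (fun i j => ‖D.ε i j‖ ^ 2) 0) * h3

theorem g12_em_vecMul (l : Fin (r + 1) → Eis) (M : Me (r + 1)) :
    em (l ᵥ* M) = em l ᵥ* cm M := by
  funext j
  simp only [em, cm, Matrix.vecMul, dotProduct, map_sum, map_mul, Matrix.map_apply]

theorem g12_core_eq (hr : 1 ≤ r) (D : CD r) (l : Finset (Fin r) → Fin (r + 1) → Eis)
    (hl : ∀ (π : Equiv.Perm (Fin r)) (g : Finset (Fin r)), Good D.w D.x (Af D.M l π g)) :
    (Real.pi : ℂ) ^ (r + 1) * D.L.det * (JE (fun i j => ‖D.ε i j‖ ^ 2) : ℂ)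
        * TI D.w D.x D.L (fun i j => ‖D.ε i j‖ ^ 2) 0
      = ∑ π : Equiv.Perm (Fin r), ∑ g : Finset (Fin r), ((Equiv.Perm.sign π : ℤ) : ℂ)
          * (-1) ^ g.card * Psi D.w D.x (Af D.M l π g) := by
  classical
  set h : g12X r := ⟨g12diag D.L 1, g12diag_PD D.L D.hL 1 (fun _ => one_pos)⟩ with hh
  -- the family at height τ
  let Pt : ℝ → Finset (Fin r) → g12X r := fun τ J =>
    if hτ : 0 ≤ τ then ⟨(τ : ℂ) • sq (em (l J)) + h.1, PD_add_sq h.2 (em (l J)) hτ⟩ else h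
  have h1 : ∀ τ : ℝ, FF (g12act D) (g12f D) (Pt τ)
      = (Real.pi : ℂ) ^ (r + 1) * D.L.det * (JE (fun i j => ‖D.ε i j‖ ^ 2) : ℂ)
        * TI D.w D.x D.L (fun i j => ‖D.ε i j‖ ^ 2) 0 := by
    intro τ
    rw [← g12_const D h rfl]
    exact FF_eq (g12f D) (g12phi D) (g12act D) (g12act_empty D) (fun i g x hi =>
      g12act_insert D i g x hi) (g12f_inv D) (g12f_coc D) _ _
  have h2 : Tendsto (fun τ : ℝ => FF (g12act D) (g12f D) (Pt τ)) atTop
      (𝓝 (∑ π : Equiv.Perm (Fin r), ∑ g : Finset (Fin r), ((Equiv.Perm.sign π : ℤ) : ℂ)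
          * (-1) ^ g.card * Psi D.w D.x (Af D.M l π g))) := by
    unfold FF
    refine tendsto_finsetSum _ fun π _ => tendsto_finsetSum _ fun g _ => ?_
    refine Tendsto.const_mul _ ?_
    have h3 := SS_lim (by omega) D.w D.x (Af D.M l π g) (hl π g)
      (fun k => (g12act D (g \ JJ π k) h).1) (fun k => (g12act D (g \ JJ π k) h).2)
    refine h3.congr' ?_
    filter_upwards [eventually_ge_atTop (0 : ℝ)] with τ hτ
    unfold g12f
    congr 1
    funext k
    show _ = (cm (MP D.M (g \ JJ π k)))ᴴ * (Pt τ (JJ π k)).1 * cm (MP D.M (g \ JJ π k))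
    have h4 : (Pt τ (JJ π k)).1 = (τ : ℂ) • sq (em (l (JJ π k))) + h.1 := by
      simp only [Pt, hτ, dif_pos]
    rw [h4, Matrix.mul_add, Matrix.add_mul, Matrix.mul_smul, Matrix.smul_mul, sq_conj,
      ← g12_em_vecMul]
    rfl
  have h3 : Tendsto (fun τ : ℝ => FF (g12act D) (g12f D) (Pt τ)) atTop
      (𝓝 ((Real.pi : ℂ) ^ (r + 1) * D.L.det * (JE (fun i j => ‖D.ε i j‖ ^ 2) : ℂ)
        * TI D.w D.x D.L (fun i j => ‖D.ε i j‖ ^ 2) 0)) :=
    tendsto_const_nhds.congr fun τ => (h1 τ).symm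
  exact tendsto_nhds_unique h3 h2


/-! ### arithmetic of the core data -/

theorem g12_val_one (V : ValuationSubring ℂ) (z : ℂ) (hz : z = 1 ∨ z = -1) : V.valuation z ≤ 1 := by
  rcases hz with rfl | rfl
  · rw [map_one]
  · rw [Valuation.map_neg, map_one]

theorem g12_Dl_mul {θ : ℂ} (h : θ ∈ Dl) (a : Eis) : emb a * θ ∈ Dl := by
  intro b
  obtain ⟨k, hk⟩ := h (a * b)
  refine ⟨k, ?_⟩
  rw [← hk, map_mul]
  ring_nf

theorem g12_Dl_add {θ η : ℂ} (h : θ ∈ Dl) (h' : η ∈ Dl) : θ + η ∈ Dl := by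
  intro b
  obtain ⟨k, hk⟩ := h b
  obtain ⟨k', hk'⟩ := h' b
  refine ⟨k + k', ?_⟩
  rw [add_mul, Complex.add_re, hk, hk']
  push_cast
  ring

theorem g12_Dl_nat {θ : ℂ} (N : ℕ) (h : (N : ℂ) * θ ∈ Dl) (m : ℕ) (hm : N ∣ m) :
    (m : ℂ) * θ ∈ Dl := by
  obtain ⟨k, rfl⟩ := hm
  have h1 := g12_Dl_mul h (k : Eis)
  rw [map_natCast] at h1
  convert h1 using 1
  push_cast
  ring

theorem g12_Lz_mul {y : Fin n → ℂ} (h : y ∈ Lz n) (a : Eis) : (fun i => emb a * y i) ∈ Lz n := by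
  obtain ⟨m, rfl⟩ := h
  refine ⟨fun i => a * m i, ?_⟩
  funext i
  simp only [em, map_mul]

theorem g12_Lz_add {y z : Fin n → ℂ} (h : y ∈ Lz n) (h' : z ∈ Lz n) :
    (fun i => y i + z i) ∈ Lz n := by
  obtain ⟨m, rfl⟩ := h
  obtain ⟨m', rfl⟩ := h'
  refine ⟨fun i => m i + m' i, ?_⟩
  funext i
  simp only [em, map_add]

theorem g12_Lz_nat {x : Fin n → ℂ} (N : ℕ) (h : (fun i => (N : ℂ) * x i) ∈ Lz n) (m : ℕ)
    (hm : N ∣ m) : (fun i => (m : ℂ) * x i) ∈ Lz n := by
  obtain ⟨k, rfl⟩ := hm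
  have h1 := g12_Lz_mul h (k : Eis)
  convert h1 using 1
  funext i
  rw [map_natCast]
  push_cast
  ring

theorem g12_nat_mul_norm (c : Eis) : ((c.norm.natAbs : ℕ) : Eis) = c * star c := by
  have h1 : ((c.norm.natAbs : ℕ) : ℤ) = c.norm := Int.natAbs_of_nonneg (norm_nonneg' c)
  have h2 : ((c.norm.natAbs : ℕ) : Eis) = ((c.norm : ℤ) : Eis) := by
    rw [← Int.cast_natCast, h1]
  rw [h2]
  apply emb_injective
  rw [map_mul, emb_star, map_intCast, Complex.mul_conj, normSq_emb]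
  push_cast
  rfl

theorem g12_dvd_norm (c : Eis) : c ∣ ((c.norm.natAbs : ℕ) : Eis) := by
  rw [g12_nat_mul_norm]
  exact Dvd.intro _ rfl

/-- `norm c` is odd -/
theorem g12_norm_odd (D : CD r) : Odd D.c.norm.natAbs := by
  by_contra hodd
  rw [Nat.not_odd_iff_even] at hodd
  have h1 : Even (D.c.norm) := by
    rcases hodd with ⟨k, hk⟩
    rw [← Int.natAbs_even]
    exact ⟨k, hk⟩
  -- both coordinates are even
  rw [norm_eq] at h1
  have h2 : Even D.c.re ∧ Even D.c.im := by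
    rcases Int.even_or_odd D.c.re with ha | ha <;> rcases Int.even_or_odd D.c.im with hb | hb
    · exact ⟨ha, hb⟩
    · exfalso
      have : Odd (D.c.re ^ 2 - D.c.re * D.c.im + D.c.im ^ 2) := by
        have h3 : Even (D.c.re ^ 2) := ha.pow_of_ne_zero two_ne_zero
        have h4 : Even (D.c.re * D.c.im) := ha.mul_right _
        have h5 : Odd (D.c.im ^ 2) := hb.pow
        exact (h3.sub h4).add_odd h5
      exact (Int.not_even_iff_odd.2 this) h1
    · exfalso
      have : Odd (D.c.re ^ 2 - D.c.re * D.c.im + D.c.im ^ 2) := by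
        have h3 : Odd (D.c.re ^ 2) := ha.pow
        have h4 : Even (D.c.re * D.c.im) := hb.mul_left _
        have h5 : Even (D.c.im ^ 2) := hb.pow_of_ne_zero two_ne_zero
        exact (h3.sub_even h4).add_even h5
      exact (Int.not_even_iff_odd.2 this) h1
    · exfalso
      have : Odd (D.c.re ^ 2 - D.c.re * D.c.im + D.c.im ^ 2) := by
        have h3 : Odd (D.c.re ^ 2) := ha.pow
        have h4 : Odd (D.c.re * D.c.im) := ha.mul hb
        have h5 : Odd (D.c.im ^ 2) := hb.pow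
        exact (h3.sub_odd h4).add_odd h5
      exact (Int.not_even_iff_odd.2 this) h1
  obtain ⟨⟨a, ha⟩, ⟨b, hb⟩⟩ := h2
  -- `c = 2 d`, `c` prime
  have h3 : D.c = 2 * (⟨a, b⟩ : Eis) := by
    have h31 : (2 : Eis).re = 2 := rfl
    have h32 : (2 : Eis).im = 0 := rfl
    ext
    · simp only [QuadraticAlgebra.re_mul, h31, h32]; rw [ha]; ring
    · simp only [QuadraticAlgebra.im_mul, h31, h32]; rw [hb]; ring
  have h4 : D.c ∣ 2 ∨ D.c ∣ (⟨a, b⟩ : Eis) := D.hc.dvd_or_dvd (h3 ▸ dvd_refl _)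
  rcases h4 with h4 | h4
  · exact D.hcN (h4.mul_right _)
  · obtain ⟨d, hd⟩ := h4
    have h5 : D.c * (1 - 2 * d) = 0 := by
      rw [mul_sub, mul_one]
      have : D.c * (2 * d) = 2 * (D.c * d) := by ring
      rw [this, ← hd, ← h3, sub_self]
    have h6 : (1 : Eis) - 2 * d = 0 := by
      have h61 := congrArg emb h5
      rw [map_mul, map_zero] at h61
      rcases mul_eq_zero.1 h61 with h | h
      · exact absurd (emb_injective (h.trans (map_zero emb).symm)) D.hc.ne_zero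
      · exact emb_injective (h.trans (map_zero emb).symm)
    have h7 := congrArg QuadraticAlgebra.re h6
    have h31 : (2 : Eis).re = 2 := rfl
    have h32 : (2 : Eis).im = 0 := rfl
    simp only [QuadraticAlgebra.re_sub, QuadraticAlgebra.re_mul, h31, h32,
      QuadraticAlgebra.re_one, QuadraticAlgebra.re_zero] at h7
    omega

/-- The common level. -/
noncomputable def g12N (D : CD r) : ℕ := D.N * D.c.norm.natAbs

theorem g12N_odd (D : CD r) : Odd (g12N D) := D.hN.mul (g12_norm_odd D)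

theorem g12N_x (D : CD r) : (fun i => ((g12N D : ℕ) : ℂ) * D.x i) ∈ Lz (r + 1) :=
  g12_Lz_nat D.N D.hx _ (Dvd.intro _ rfl)

theorem g12N_w (D : CD r) (i : Fin (r + 1)) : ((g12N D : ℕ) : ℂ) * D.w i ∈ Dl := by
  have h1 : ((D.c.norm.natAbs : ℕ) : ℂ) * D.w i ∈ Dl := by
    rw [Dl_iff]
    refine ⟨star D.c * D.W i, ?_⟩
    have h2 := congrArg emb (g12_nat_mul_norm D.c)
    rw [map_natCast, map_mul] at h2
    have h3 : emb D.c ≠ 0 := by
      intro h
      exact D.hc.ne_zero (emb_injective (h.trans (map_zero emb).symm))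
    have h4 : (Complex.I * ((√3 : ℝ) : ℂ)) ≠ 0 := by
      apply mul_ne_zero Complex.I_ne_zero
      have : (0 : ℝ) < √3 := by positivity
      exact_mod_cast this.ne'
    rw [D.hw, h2, map_mul]
    field_simp
  have h2 := g12_Dl_nat _ h1 (g12N D) (Dvd.intro_left _ rfl)
  exact h2

theorem core_eq (D : CD r) (l : Finset (Fin r) → Fin (r + 1) → Eis)
    (hl : ∀ (π : Equiv.Perm (Fin r)) (g : Finset (Fin r)), Good D.w D.x (Af D.M l π g)) :
    (Real.pi : ℂ) ^ (r + 1) * D.L.det * (JE (fun i j => ‖D.ε i j‖ ^ 2) : ℂ)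
        * TI D.w D.x D.L (fun i j => ‖D.ε i j‖ ^ 2) 0
      = ∑ π : Equiv.Perm (Fin r), ∑ g : Finset (Fin r), ((Equiv.Perm.sign π : ℤ) : ℂ)
          * (-1) ^ g.card * Psi D.w D.x (Af D.M l π g) := by
  rcases r with _ | r
  · rw [g13_core D (Af D.M l 1 ∅) (hl 1 ∅).det]
    have h1 : (Finset.univ : Finset (Finset (Fin 0))) = {∅} := by decide
    rw [Fintype.sum_unique, h1, Finset.sum_singleton]
    have h2 : (default : Equiv.Perm (Fin 0)) = 1 := Subsingleton.elim _ _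
    rw [h2]
    simp
  · exact g12_core_eq (Nat.le_add_left 1 r) D l hl

theorem core_val (D : CD r) (V : ValuationSubring ℂ) (hV : V.valuation 2 < 1) :
    V.valuation ((Real.pi : ℂ) ^ (r + 1) * D.L.det * (JE (fun i j => ‖D.ε i j‖ ^ 2) : ℂ)
        * TI D.w D.x D.L (fun i j => ‖D.ε i j‖ ^ 2) 0 / OmC ^ (r + 1)) ≤ 1 := by
  obtain ⟨l, hl⟩ := exists_ell D
  rw [core_eq D l (fun π g => (hl π g).1), Finset.sum_div]
  refine V.valuation.map_sum_le fun π _ => ?_
  rw [Finset.sum_div]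
  refine V.valuation.map_sum_le fun g _ => ?_
  rw [mul_div_assoc, map_mul, map_mul]
  have h1 : V.valuation (((Equiv.Perm.sign π : ℤ) : ℂ)) ≤ 1 := by
    apply g12_val_one
    rcases Int.units_eq_one_or (Equiv.Perm.sign π) with h | h <;> rw [h] <;> norm_num
  have h2 : V.valuation ((-1 : ℂ) ^ g.card) ≤ 1 := by
    apply g12_val_one
    exact neg_one_pow_eq_or ℂ _
  have h3 := Psi_val (by omega) D.w D.x (Af D.M l π g) (hl π g).1 (hl π g).2 (g12N D)
    (g12N_odd D) (g12N_x D) (g12N_w D) V hV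
  exact mul_le_one' (mul_le_one' h1 h2) h3

/-! ### the twisted data -/

theorem g12_ch_eq {w : Fin n → ℂ} {a b : Fin n → ℂ} :
    ch w a = ch w b ↔ ∃ k : ℤ, (w ⬝ᵥ (a - b)).re = k := by
  unfold ch
  rw [Complex.exp_eq_exp_iff_exists_int]
  constructor
  · rintro ⟨k, hk⟩
    refine ⟨k, ?_⟩
    have h1 : (2 * Real.pi * Complex.I : ℂ) ≠ 0 := by
      have := Real.pi_ne_zero
      simp [Complex.I_ne_zero, this]
    have h2 : (2 * Real.pi * Complex.I : ℂ) * (((w ⬝ᵥ a).re : ℝ) : ℂ)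
        = (2 * Real.pi * Complex.I : ℂ) * ((((w ⬝ᵥ b).re : ℝ) : ℂ) + k) := by
      rw [hk]; ring
    have h3 := mul_left_cancel₀ h1 h2
    have h4 : (w ⬝ᵥ a).re = (w ⬝ᵥ b).re + k := by exact_mod_cast h3
    rw [dotProduct_sub, Complex.sub_re, h4]; ring
  · rintro ⟨k, hk⟩
    refine ⟨k, ?_⟩
    rw [dotProduct_sub, Complex.sub_re] at hk
    have h4 : (w ⬝ᵥ a).re = (w ⬝ᵥ b).re + k := by linarith
    rw [h4]; push_cast; ring


section twist

variable (D : CD r) (N' : ℕ) (hN' : g12N D ∣ N') (u v : Eis) (k : ℕ)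
  (hu : IsCoprime u (N' : Eis)) (hv : IsCoprime v (N' : Eis)) (huv : (N' : Eis) ∣ v * u - k)

include hN' hu in
theorem g12_ux {a b : Eis} (hab : a * u + b * (N' : Eis) = 1) :
    ∃ m : Fin (r + 1) → Eis, (fun i => emb a * (emb u * D.x i)) = D.x + em m := by
  obtain ⟨m, hm⟩ := g12_Lz_nat _ (g12N_x D) N' hN'
  refine ⟨fun i => -(b * m i), ?_⟩
  funext i
  have h1 := congrFun hm i
  have h2 := congrArg emb hab
  simp only [map_add, map_mul, map_one, map_natCast] at h2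
  simp only [em] at h1
  simp only [Pi.add_apply, em, map_neg, map_mul]
  rw [h1]
  linear_combination (D.x i) * h2

include hN' hu in
theorem g12_ux0 : (fun i => emb u * D.x i) ∉ Lz (r + 1) := by
  obtain ⟨a, b, hab⟩ := hu
  intro h
  obtain ⟨m, hm⟩ := g12_ux D N' hN' u ⟨a, b, hab⟩ hab
  have h1 := g12_Lz_mul h a
  have h1' : (D.x + em m) ∈ Lz (r + 1) := hm ▸ h1
  have h2 := g12_Lz_add h1' (g12_Lz_mul (n := r + 1) ⟨m, rfl⟩ (-1))
  apply D.hx0
  convert h2 using 1
  funext i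
  simp only [Pi.add_apply, map_neg, map_one]
  ring

include hN' hv in
theorem g12_cv : ¬ D.c ∣ v := by
  intro h
  obtain ⟨a, b, hab⟩ := hv
  have h1 : D.c ∣ (N' : Eis) := by
    have h2 : D.c ∣ ((g12N D : ℕ) : Eis) := by
      unfold g12N
      rw [Nat.cast_mul]
      exact (g12_dvd_norm D.c).mul_left _
    exact h2.trans (by exact_mod_cast (Nat.cast_dvd_cast (α := Eis) hN'))
  have h3 : D.c ∣ 1 := by
    rw [← hab]
    exact dvd_add (h.mul_left _) (h1.mul_left _)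
  exact D.hc.not_isUnit (isUnit_of_dvd_one h3)

/-- `Re (w · (M - 1) m) ∈ ℤ` for integral `m` -/
theorem g12_wM (i : Fin r) (m : Fin (r + 1) → Eis) :
    ∃ k : ℤ, (D.w ⬝ᵥ (cm (D.M i) *ᵥ em m - em m)).re = k := by
  obtain ⟨k1, hk1⟩ := g12_ch_eq.1 (D.hMw i m)
  obtain ⟨k0, hk0⟩ := g12_ch_eq.1 (D.hMw i 0)
  refine ⟨k1 - k0, ?_⟩
  have h0 : em (0 : Fin (r + 1) → Eis) = 0 := by
    funext j; simp [em]
  rw [h0, add_zero] at hk0
  have h : cm (D.M i) *ᵥ em m - em m
      = (cm (D.M i) *ᵥ (D.x + em m) - (D.x + em m)) - (cm (D.M i) *ᵥ D.x - D.x) := by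
    rw [Matrix.mulVec_add]; abel
  rw [h, dotProduct_sub, Complex.sub_re, hk1, hk0]
  push_cast
  ring

theorem g12_wx (i : Fin r) : ∃ k : ℤ, (D.w ⬝ᵥ (cm (D.M i) *ᵥ D.x - D.x)).re = k := by
  obtain ⟨k0, hk0⟩ := g12_ch_eq.1 (D.hMw i 0)
  have h0 : em (0 : Fin (r + 1) → Eis) = 0 := by
    funext j; simp [em]
  rw [h0, add_zero] at hk0
  exact ⟨k0, hk0⟩

include hN' hu huv in
theorem g12_hMw (i : Fin r) (m : Fin (r + 1) → Eis) :
    ch (fun i => emb v * D.w i) (cm (D.M i) *ᵥ ((fun i => emb u * D.x i) + em m))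
      = ch (fun i => emb v * D.w i) ((fun i => emb u * D.x i) + em m) := by
  rw [g12_ch_eq]
  obtain ⟨b, hb⟩ := huv
  obtain ⟨m', hm'⟩ := g12_Lz_nat _ (g12N_x D) N' hN'
  obtain ⟨k1, hk1⟩ := g12_wx D i
  obtain ⟨k2, hk2⟩ := g12_wM D i (fun i => b * m' i + v * m i)
  refine ⟨k * k1 + k2, ?_⟩
  have h1 : (fun i => emb v * D.w i) = emb v • D.w := by
    funext j; simp only [Pi.smul_apply, smul_eq_mul]
  have h2 : emb v • ((fun i => emb u * D.x i) + em m)
      = (k : ℂ) • D.x + em (fun i => b * m' i + v * m i) := by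
    funext j
    have h3 := congrFun hm' j
    simp only [em] at h3
    have h4 := congrArg emb hb
    simp only [map_sub, map_mul, map_natCast] at h4
    simp only [Pi.smul_apply, Pi.add_apply, smul_eq_mul, em, map_add, map_mul]
    rw [h3]
    linear_combination (D.x j) * h4
  have h5 : (emb v • D.w) ⬝ᵥ (cm (D.M i) *ᵥ ((fun i => emb u * D.x i) + em m)
        - ((fun i => emb u * D.x i) + em m))
      = D.w ⬝ᵥ ((k : ℂ) • (cm (D.M i) *ᵥ D.x - D.x)
        + (cm (D.M i) *ᵥ em (fun i => b * m' i + v * m i) - em (fun i => b * m' i + v * m i))) := by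
    rw [smul_dotProduct, ← dotProduct_smul, smul_sub, ← Matrix.mulVec_smul, h2,
      Matrix.mulVec_add, Matrix.mulVec_smul, smul_sub]
    congr 1
    abel
  rw [h1, h5, dotProduct_add, dotProduct_smul, Complex.add_re, hk2, smul_eq_mul,
    ← Complex.ofReal_natCast, Complex.re_ofReal_mul, hk1]
  push_cast
  ring

/-- The twisted core data. -/
noncomputable def g12D : CD r where
  x := fun i => emb u * D.x i
  w := fun i => emb v * D.w i
  M := D.M
  L := D.L
  ε := D.ε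
  N := D.N
  c := D.c
  W := fun i => v * D.W i
  hN := D.hN
  hx := by
    have h := g12_Lz_mul D.hx u
    convert h using 1
    funext i
    ring
  hx0 := g12_ux0 D N' hN' u hu
  hc := D.hc
  hcN := D.hcN
  hcbig := D.hcbig
  hW := by
    obtain ⟨i, hi⟩ := D.hW
    refine ⟨i, fun h => ?_⟩
    rcases D.hc.dvd_or_dvd h with h | h
    · exact g12_cv D N' hN' v hv h
    · exact hi h
  hw := fun i => by
    rw [D.hw, map_mul]; ring
  hdet := D.hdet
  hcomm := D.hcomm
  hM2 := D.hM2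
  hMx := fun i => by
    obtain ⟨m, hm⟩ := D.hMx i
    refine ⟨fun j => u * m j, ?_⟩
    have h1 : (fun i => emb u * D.x i) = emb u • D.x := by
      funext j; simp only [Pi.smul_apply, smul_eq_mul]
    rw [h1, Matrix.mulVec_smul, hm]
    funext j
    simp only [Pi.smul_apply, Pi.add_apply, smul_eq_mul, em, map_mul]
    ring
  hMw := g12_hMw D N' hN' u v k hu huv
  hL := D.hL
  hLM := D.hLM
  hJ := D.hJ

include hN' hu hv in
theorem g12_Good (A : Me (r + 1)) (hA : Good D.w D.x A) :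
    Good (fun i => emb v * D.w i) (fun i => emb u * D.x i) A where
  det := hA.det
  gx := fun i m h => by
    obtain ⟨a, b, hab⟩ := hu
    obtain ⟨m', hm'⟩ := g12_ux D N' hN' u ⟨a, b, hab⟩ hab
    apply hA.gx i (fun j => m' j + a * m j)
    have h1 : D.x + em (fun j => m' j + a * m j)
        = emb a • ((fun i => emb u * D.x i) + em m) := by
      funext j
      have h2 := congrFun hm' j
      simp only [Pi.add_apply, em] at h2
      simp only [Pi.smul_apply, Pi.add_apply, smul_eq_mul, em, map_add, map_mul]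
      linear_combination - h2
    rw [h1, Matrix.mulVec_smul, Pi.smul_apply, h, smul_zero]
  gw := fun j h => by
    obtain ⟨a, b, hab⟩ := hv
    apply hA.gw j
    have h1 : (fun i => emb v * D.w i) = emb v • D.w := by
      funext j; simp only [Pi.smul_apply, smul_eq_mul]
    rw [h1, Matrix.smul_vecMul, Pi.smul_apply, smul_eq_mul] at h
    have h2 := g12_Dl_mul h a
    have h3 : (N' : ℂ) * (D.w ᵥ* cm A.adjugate) j ∈ Dl := by
      have h4 : (N' : ℂ) * (D.w ᵥ* cm A.adjugate) j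
          = ∑ i, emb (A.adjugate i j) * ((N' : ℂ) * D.w i) := by
        simp only [Matrix.vecMul, dotProduct, cm, Matrix.map_apply]
        rw [Finset.mul_sum]
        refine Finset.sum_congr rfl fun i _ => ?_
        ring
      rw [h4]
      have h5 : ∀ s : Finset (Fin (r + 1)),
          ∑ i ∈ s, emb (A.adjugate i j) * ((N' : ℂ) * D.w i) ∈ Dl := by
        intro s
        induction s using Finset.induction_on with
        | empty =>
          intro a
          exact ⟨0, by simp⟩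
        | insert i s hi ih =>
          rw [Finset.sum_insert hi]
          exact g12_Dl_add (g12_Dl_mul (g12_Dl_nat _ (g12N_w D i) N' hN') _) ih
      exact h5 _
    have h4 := g12_Dl_mul h3 b
    have h5 := g12_Dl_add h2 h4
    convert h5 using 1
    have h6 := congrArg emb hab
    simp only [map_add, map_mul, map_one, map_natCast] at h6
    linear_combination -((D.w ᵥ* cm A.adjugate) j) * h6

end twist

theorem core_gal (D : CD r) : ∃ N₂ : ℕ, Odd N₂ ∧ ∀ N' : ℕ, N₂ ∣ N' → Odd N' →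
    ∀ σ : ℂ ≃+* ℂ, σ CM27.w = CM27.w → ∀ u : Eis, IsCoprime u (N' : Eis) →
    (∀ c : Eis, ptMap (σ : ℂ →+* ℂ) (pt (emb c / N')) = pt (emb (c * u) / N')) →
    ∀ k : ℕ, (∀ ζ : ℂ, ζ ^ N' = 1 → σ ζ = ζ ^ k) → ∀ v : Eis, IsCoprime v (N' : Eis) →
    (N' : Eis) ∣ v * u - k →
    σ ((Real.pi : ℂ) ^ (r + 1) * D.L.det * (JE (fun i j => ‖D.ε i j‖ ^ 2) : ℂ)
        * TI D.w D.x D.L (fun i j => ‖D.ε i j‖ ^ 2) 0 / OmC ^ (r + 1))
      = (Real.pi : ℂ) ^ (r + 1) * D.L.det * (JE (fun i j => ‖D.ε i j‖ ^ 2) : ℂ)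
        * TI (fun i => emb v * D.w i) (fun i => emb u * D.x i) D.L
          (fun i j => ‖D.ε i j‖ ^ 2) 0 / OmC ^ (r + 1) := by
  classical
  obtain ⟨l, hl⟩ := exists_ell D
  refine ⟨∏ π : Equiv.Perm (Fin r), ∏ g : Finset (Fin r),
    (g12N D * (Af D.M l π g).det.norm.natAbs) ^ 2, ?_, ?_⟩
  · refine Finset.prod_induction _ Odd (fun a b => Odd.mul) odd_one fun π _ => ?_
    refine Finset.prod_induction _ Odd (fun a b => Odd.mul) odd_one fun g _ => ?_
    exact ((g12N_odd D).mul (Int.natAbs_odd.2 (hl π g).2)).pow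
  · intro N' hd hodd σ hσ u hu hσu k hσζ v hv huv
    have hdvd : ∀ (π : Equiv.Perm (Fin r)) (g : Finset (Fin r)),
        (g12N D * (Af D.M l π g).det.norm.natAbs) ^ 2 ∣ N' := by
      intro π g
      refine dvd_trans ?_ hd
      exact (Finset.dvd_prod_of_mem (fun g : Finset (Fin r) =>
        (g12N D * (Af D.M l π g).det.norm.natAbs) ^ 2) (Finset.mem_univ g)).trans
        (Finset.dvd_prod_of_mem (fun π : Equiv.Perm (Fin r) => ∏ g : Finset (Fin r),
          (g12N D * (Af D.M l π g).det.norm.natAbs) ^ 2) (Finset.mem_univ π))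
    have hN' : g12N D ∣ N' :=
      ((Dvd.intro _ rfl : g12N D ∣ g12N D * (Af D.M l 1 ∅).det.norm.natAbs).trans
        (dvd_pow_self _ two_ne_zero)).trans (hdvd 1 ∅)
    have h1 := core_eq (g12D D N' hN' u v k hu hv huv) l
      (fun π g => g12_Good D N' hN' u v hu hv _ (hl π g).1)
    have h2 : (Real.pi : ℂ) ^ (r + 1) * D.L.det * (JE (fun i j => ‖D.ε i j‖ ^ 2) : ℂ)
        * TI (fun i => emb v * D.w i) (fun i => emb u * D.x i) D.L
          (fun i j => ‖D.ε i j‖ ^ 2) 0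
        = ∑ π : Equiv.Perm (Fin r), ∑ g : Finset (Fin r), ((Equiv.Perm.sign π : ℤ) : ℂ)
          * (-1) ^ g.card * Psi (fun i => emb v * D.w i) (fun i => emb u * D.x i)
            (Af D.M l π g) := h1
    rw [h2, core_eq D l (fun π g => (hl π g).1), Finset.sum_div, Finset.sum_div, map_sum]
    refine Finset.sum_congr rfl fun π _ => ?_
    rw [Finset.sum_div, Finset.sum_div, map_sum]
    refine Finset.sum_congr rfl fun g _ => ?_
    rw [mul_div_assoc, mul_div_assoc, map_mul, map_mul, map_pow, map_neg, map_one, map_intCast]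
    congr 1
    exact Psi_gal (by omega) D.w D.x (Af D.M l π g) (hl π g).1 (g12N D) (g12N_odd D) (g12N_x D)
      (g12N_w D) N' hodd (hdvd π g) σ hσ u hu hσu k hσζ v hv huv

end NG
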