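import Pool.Agent.MP_9ab903_nt.NG.Defs

/-! ## [NG-G1a] algebra of hermitian forms and of `nu`

`nu_cocycle`: the `(n+1) × (n+1)` matrix whose first row is `hq (P_j) v = ∑_i conj (v_i) (P_j v)_i` and whose other rows are
`(P_j v)_i` is singular (first row = combination of the others); expand along the first row (`Matrix.det_succ_row_zero`), conjugate.
`nu_sq`: `sq (l_j) *ᵥ v = (l_j ⬝ᵥ v) • star (l_j)`. `nu_conj`: multiplicativity of `det`. `nu_lin`: the matrix is a product. -/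

set_option autoImplicit false

open scoped ComplexConjugate Matrix
open MeasureTheory Set Filter Topology

namespace NG

open CM27 NAB

variable {n : ℕ}

theorem hq_eq {P : Mc n} (hP : P.IsHermitian) (v : Fin n → ℂ) :
    ((hq P v : ℝ) : ℂ) = star v ⬝ᵥ (P *ᵥ v) := by
  rw [hq, ← Complex.conj_eq_iff_re]
  have h : star (star v ⬝ᵥ (P *ᵥ v)) = star v ⬝ᵥ (P *ᵥ v) := by
    rw [← Matrix.star_dotProduct, Matrix.star_mulVec, hP.eq, ← Matrix.dotProduct_mulVec]
  exact h

theorem hq_add (P Q : Mc n) (v : Fin n → ℂ) : hq (P + Q) v = hq P v + hq Q v := by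
  rw [hq, hq, hq, Matrix.add_mulVec, dotProduct_add, Complex.add_re]

theorem hq_smul (a : ℝ) (P : Mc n) (v : Fin n → ℂ) : hq ((a : ℂ) • P) v = a * hq P v := by
  rw [hq, hq, Matrix.smul_mulVec, dotProduct_smul, smul_eq_mul, Complex.re_ofReal_mul]

theorem hq_sum {ι : Type} (s : Finset ι) (a : ι → ℝ) (P : ι → Mc n) (v : Fin n → ℂ) :
    hq (∑ i ∈ s, (a i : ℂ) • P i) v = ∑ i ∈ s, a i * hq (P i) v := by
  classical
  induction s using Finset.induction_on with
  | empty => simp [hq]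
  | insert i s hi ih => rw [Finset.sum_insert hi, Finset.sum_insert hi, hq_add, hq_smul, ih]

theorem sq_isHermitian (l : Fin n → ℂ) : (sq l).IsHermitian := by
  ext i j
  simp [sq, Matrix.vecMulVec, mul_comm]

theorem g1a_sq_mulVec (l v : Fin n → ℂ) : sq l *ᵥ v = (l ⬝ᵥ v) • star l := by
  ext i
  simp only [sq, Matrix.mulVec, dotProduct, Matrix.vecMulVec_apply, Pi.smul_apply, smul_eq_mul,
    Finset.sum_mul]
  exact Finset.sum_congr rfl fun j _ => by ring

theorem g1a_star_dot (l v : Fin n → ℂ) : star v ⬝ᵥ star l = conj (l ⬝ᵥ v) := by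
  rw [Matrix.star_dotProduct_star]
  rfl

theorem hq_sq (l v : Fin n → ℂ) : hq (sq l) v = ‖l ⬝ᵥ v‖ ^ 2 := by
  rw [hq, g1a_sq_mulVec, dotProduct_smul, g1a_star_dot, smul_eq_mul, Complex.mul_conj,
    Complex.ofReal_re, Complex.normSq_eq_norm_sq]

theorem hq_conj (M P : Mc n) (v : Fin n → ℂ) : hq (Mᴴ * P * M) v = hq P (M *ᵥ v) := by
  rw [hq, hq, ← Matrix.mulVec_mulVec, ← Matrix.mulVec_mulVec, Matrix.dotProduct_mulVec,
    Matrix.star_mulVec]

/-- `Mᴴ sq(l) M = sq (l M)` -/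
theorem sq_conj (M : Mc n) (l : Fin n → ℂ) : Mᴴ * sq l * M = sq (l ᵥ* M) := by
  rw [sq, sq, Matrix.mul_vecMulVec, Matrix.vecMulVec_mul, Matrix.star_vecMul]

theorem sq_smul (c : ℂ) (l : Fin n → ℂ) : sq (c • l) = ((‖c‖ ^ 2 : ℝ) : ℂ) • sq l := by
  ext i j
  simp only [sq, Matrix.vecMulVec_apply, Pi.star_apply, Pi.smul_apply, smul_eq_mul, Matrix.smul_apply,
    star_mul']
  have h : ((‖c‖ ^ 2 : ℝ) : ℂ) = star c * c := by
    rw [← Complex.normSq_eq_norm_sq, ← Complex.mul_conj, mul_comm]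
    rfl
  rw [h]
  ring

theorem nu_cocycle (P : Fin (n + 1) → Mc n) (hP : ∀ j, (P j).IsHermitian) (v : Fin n → ℂ) :
    ∑ j : Fin (n + 1), (-1 : ℂ) ^ (j : ℕ) * (hq (P j) v : ℂ) * nu (fun i => P (j.succAbove i)) v
      = 0 := by
  have h1 : Matrix.det (Matrix.of (Fin.cons (fun j => star v ⬝ᵥ (P j *ᵥ v))
      (fun i j => (P j *ᵥ v) i) : Fin (n + 1) → Fin (n + 1) → ℂ)) = 0 := by
    rw [← Matrix.det_transpose]
    apply Matrix.exists_mulVec_eq_zero_iff.1
    refine ⟨Fin.cons 1 (fun i => -(star v i)), ?_, ?_⟩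
    · intro h
      have := congrFun h 0
      simp at this
    · ext j
      simp only [Matrix.mulVec, dotProduct, Fin.sum_univ_succ, Matrix.transpose_apply, Matrix.of_apply,
        Fin.cons_zero, Fin.cons_succ, Pi.zero_apply, mul_one, mul_neg, Finset.sum_neg_distrib]
      rw [add_neg_eq_zero]
      refine Finset.sum_congr rfl fun i _ => ?_
      ring
  rw [Matrix.det_succ_row_zero] at h1
  have h2 := congrArg conj h1
  rw [map_sum, map_zero] at h2
  rw [← h2]
  refine Finset.sum_congr rfl fun j _ => ?_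
  rw [map_mul, map_mul, map_pow, map_neg, map_one]
  simp only [Matrix.of_apply, Fin.cons_zero]
  rw [← hq_eq (hP j), Complex.conj_ofReal, nu]
  congr 2

theorem nu_sq (l : Fin n → Fin n → ℂ) (v : Fin n → ℂ) :
    nu (fun j => sq (l j)) v = (Matrix.of l).det * ∏ j, conj (l j ⬝ᵥ v) := by
  rw [nu]
  have h1 : (Matrix.of fun i j => (sq (l j) *ᵥ v) i) =
      Matrix.of fun i j => (l j ⬝ᵥ v) * ((Matrix.of l)ᴴ i j) := by
    ext i j
    simp [g1a_sq_mulVec]
  rw [h1, Matrix.det_mul_row, Matrix.det_conjTranspose, map_mul, map_prod]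
  simp [mul_comm]

theorem nu_conj (M : Mc n) (P : Fin n → Mc n) (v : Fin n → ℂ) :
    nu (fun j => Mᴴ * P j * M) v = M.det * nu P (M *ᵥ v) := by
  rw [nu, nu]
  have h1 : (Matrix.of fun i j => ((Mᴴ * P j * M) *ᵥ v) i) =
      Mᴴ * Matrix.of fun i j => (P j *ᵥ (M *ᵥ v)) i := by
    ext i j
    rw [Matrix.of_apply, ← Matrix.mulVec_mulVec, ← Matrix.mulVec_mulVec, Matrix.mul_apply]
    rfl
  rw [h1, Matrix.det_mul, Matrix.det_conjTranspose, map_mul]
  simp

theorem nu_lin (c : Matrix (Fin n) (Fin n) ℝ) (Q : Fin n → Mc n) (v : Fin n → ℂ) :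
    nu (fun j => ∑ i, (c j i : ℂ) • Q i) v = (c.det : ℂ) * nu Q v := by
  rw [nu, nu]
  have h1 : (Matrix.of fun i j => ((∑ k, (c j k : ℂ) • Q k) *ᵥ v) i) =
      (Matrix.of fun i j => (Q j *ᵥ v) i) * (c.map (fun x : ℝ => (x : ℂ)))ᵀ := by
    ext i j
    rw [Matrix.of_apply, Matrix.sum_mulVec, Finset.sum_apply, Matrix.mul_apply]
    refine Finset.sum_congr rfl fun k _ => ?_
    rw [Matrix.smul_mulVec, Pi.smul_apply, smul_eq_mul, mul_comm]
    rfl
  have h2 : (c.map (fun x : ℝ => (x : ℂ))).det = (c.det : ℂ) := by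
    have := RingHom.map_det Complex.ofRealHom c
    exact this.symm
  rw [h1, Matrix.det_mul, Matrix.det_transpose, h2, map_mul, Complex.conj_ofReal, mul_comm]

theorem nu_perm (σ : Equiv.Perm (Fin n)) (P : Fin n → Mc n) (v : Fin n → ℂ) :
    nu (fun j => P (σ j)) v = ((Equiv.Perm.sign σ : ℤ) : ℂ) * nu P v := by
  rw [nu, nu]
  have h1 : (Matrix.of fun i j => (P (σ j) *ᵥ v) i) =
      (Matrix.of fun i j => (P j *ᵥ v) i).submatrix id σ := by
    ext i j
    rfl
  rw [h1, Matrix.det_permute', map_mul]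
  congr 1
  rw [Complex.conj_eq_iff_re]
  simp

theorem nu_eq_zero (P : Fin n → Mc n) (i j : Fin n) (hij : i ≠ j) (h : P i = P j)
    (v : Fin n → ℂ) : nu P v = 0 := by
  rw [nu, Matrix.det_zero_of_column_eq hij, map_zero]
  intro k
  rw [Matrix.of_apply, Matrix.of_apply, h]

end NG
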