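import Pool.Agent.MP_9ab903_nt.NG.G1a

/-! ## [NG-G1b] positive definite forms, lattice

`PD_bounds`: compactness of the unit sphere (continuity of `hq P`, homogeneity), `n = 0` trivial.
`PD_sqs`: `∑ a_i |l_i v|² = 0` implies `L v = 0`. -/

set_option autoImplicit false

open scoped ComplexConjugate Matrix
open MeasureTheory Set Filter Topology

namespace NG

open CM27 NAB

variable {n : ℕ}

theorem nrm_nonneg (v : Fin n → ℂ) : 0 ≤ nrm v :=
  Finset.sum_nonneg fun i _ => by positivity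

theorem nrm_pos {v : Fin n → ℂ} (hv : v ≠ 0) : 0 < nrm v := by
  obtain ⟨i, hi⟩ := Function.ne_iff.1 hv
  refine Finset.sum_pos' (fun i _ => by positivity) ⟨i, Finset.mem_univ i, ?_⟩
  have : 0 < ‖v i‖ := norm_pos_iff.2 hi
  positivity

theorem g1b_nrm_cont : Continuous (nrm : (Fin n → ℂ) → ℝ) := by
  unfold nrm
  fun_prop

theorem g1b_nrm_smul (c : ℂ) (v : Fin n → ℂ) : nrm (c • v) = ‖c‖ ^ 2 * nrm v := by
  simp only [nrm, Pi.smul_apply, smul_eq_mul, norm_mul, mul_pow, Finset.mul_sum]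

theorem g1b_hq_cont (P : Mc n) : Continuous (hq P) :=
  Complex.continuous_re.comp (Continuous.dotProduct continuous_star
    (Continuous.matrix_mulVec continuous_const continuous_id))

theorem g1b_hq_smul_vec (P : Mc n) (c : ℂ) (v : Fin n → ℂ) :
    hq P (c • v) = ‖c‖ ^ 2 * hq P v := by
  have h1 : star (c • v) ⬝ᵥ (P *ᵥ (c • v)) = ((‖c‖ ^ 2 : ℝ) : ℂ) * (star v ⬝ᵥ (P *ᵥ v)) := by
    rw [star_smul, Matrix.mulVec_smul, smul_dotProduct, dotProduct_smul, smul_eq_mul, smul_eq_mul,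
      ← mul_assoc]
    congr 1
    rw [Complex.ofReal_pow, ← Complex.conj_mul']
    rfl
  rw [hq, h1, Complex.re_ofReal_mul, hq]

theorem PD_bounds {P : Mc n} (hP : PD P) :
    ∃ c : ℝ, 1 ≤ c ∧ ∀ v, nrm v / c ≤ hq P v ∧ hq P v ≤ c * nrm v := by
  set S : Set (Fin n → ℂ) := {v | nrm v = 1} with hS
  have hScl : IsClosed S := isClosed_eq g1b_nrm_cont continuous_const
  have hSb : Bornology.IsBounded S := by
    refine (Metric.isBounded_closedBall (x := (0 : Fin n → ℂ)) (r := 1)).subset fun v hv => ?_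
    rw [mem_closedBall_zero_iff]
    refine (pi_norm_le_iff_of_nonneg zero_le_one).2 fun i => ?_
    have h1 : ‖v i‖ ^ 2 ≤ nrm v :=
      Finset.single_le_sum (f := fun i => ‖v i‖ ^ 2) (fun i _ => by positivity) (Finset.mem_univ i)
    have h2 : nrm v = 1 := hv
    nlinarith [norm_nonneg (v i)]
  have hSc : IsCompact S := Metric.isCompact_of_isClosed_isBounded hScl hSb
  have key : ∀ v, v ≠ 0 → ∃ v' ∈ S, hq P v = nrm v * hq P v' := by
    intro v hv
    have h0 := nrm_pos hv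
    refine ⟨((1 / √(nrm v) : ℝ) : ℂ) • v, ?_, ?_⟩
    · show nrm _ = 1
      rw [g1b_nrm_smul, Complex.norm_real, Real.norm_of_nonneg (by positivity), div_pow, one_pow,
        Real.sq_sqrt h0.le]
      field_simp
    · rw [g1b_hq_smul_vec, Complex.norm_real, Real.norm_of_nonneg (by positivity), div_pow, one_pow,
        Real.sq_sqrt h0.le]
      field_simp
  have hbd : ∃ c : ℝ, 1 ≤ c ∧ ∀ v ∈ S, 1 / c ≤ hq P v ∧ hq P v ≤ c := by
    rcases S.eq_empty_or_nonempty with he | hne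
    · exact ⟨1, le_rfl, fun v hv => by rw [he] at hv; exact absurd hv (Set.notMem_empty _)⟩
    · obtain ⟨a, ha, hmin⟩ := hSc.exists_isMinOn hne (g1b_hq_cont P).continuousOn
      obtain ⟨b, hb, hmax⟩ := hSc.exists_isMaxOn hne (g1b_hq_cont P).continuousOn
      have ha0 : a ≠ 0 := by
        rintro rfl
        have : nrm (0 : Fin n → ℂ) = 1 := ha
        simp [nrm] at this
      have hpa := hP.2 a ha0
      have h1 : 1 / hq P a ≤ max 1 (max (1 / hq P a) (hq P b)) :=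
        (le_max_left _ _).trans (le_max_right _ _)
      have h2 : hq P b ≤ max 1 (max (1 / hq P a) (hq P b)) :=
        (le_max_right _ _).trans (le_max_right _ _)
      refine ⟨max 1 (max (1 / hq P a) (hq P b)), le_max_left _ _, fun v hv => ⟨?_, ?_⟩⟩
      · have h3 : hq P a ≤ hq P v := hmin hv
        refine le_trans ?_ h3
        rw [one_div_le (lt_of_lt_of_le one_pos (le_max_left _ _)) hpa]
        exact h1
      · have h3 : hq P v ≤ hq P b := hmax hv
        exact h3.trans h2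
  obtain ⟨c, hc, hb⟩ := hbd
  have hc0 : 0 < c := lt_of_lt_of_le one_pos hc
  refine ⟨c, hc, fun v => ?_⟩
  by_cases hv : v = 0
  · subst hv
    have e1 : nrm (0 : Fin n → ℂ) = 0 := by simp [nrm]
    have e2 : hq P (0 : Fin n → ℂ) = 0 := by simp [hq]
    rw [e1, e2]
    simp
  · obtain ⟨v', hv', e⟩ := key v hv
    have h0 := nrm_nonneg v
    obtain ⟨h1, h2⟩ := hb v' hv'
    rw [e]
    refine ⟨?_, ?_⟩
    · calc nrm v / c = nrm v * (1 / c) := by ring
        _ ≤ _ := mul_le_mul_of_nonneg_left h1 h0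
    · rw [mul_comm c]
      exact mul_le_mul_of_nonneg_left h2 h0

/-- Uniform bounds for the combinations. -/
theorem PD_bounds_sum {ι : Type} [Fintype ι] (P : ι → Mc n) (hP : ∀ i, PD (P i)) :
    ∃ c : ℝ, 1 ≤ c ∧ ∀ a : ι → ℝ, (∀ i, 0 ≤ a i) → ∀ v,
      (∑ i, a i) / c * nrm v ≤ hq (∑ i, (a i : ℂ) • P i) v ∧
      hq (∑ i, (a i : ℂ) • P i) v ≤ c * (∑ i, a i) * nrm v := by
  choose c hc hb using fun i => PD_bounds (hP i)
  have h0 : 0 ≤ ∑ i, c i := Finset.sum_nonneg fun i _ => le_trans zero_le_one (hc i)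
  have hle : ∀ i, c i ≤ 1 + ∑ i, c i := by
    intro i
    have := Finset.single_le_sum (f := c) (fun i _ => le_trans zero_le_one (hc i))
      (Finset.mem_univ i)
    linarith
  refine ⟨1 + ∑ i, c i, by linarith, fun a ha v => ?_⟩
  set C := 1 + ∑ i, c i with hC
  have hC0 : 0 < C := by linarith
  have hn := nrm_nonneg v
  rw [hq_sum]
  refine ⟨?_, ?_⟩
  · rw [div_mul_eq_mul_div, Finset.sum_mul, Finset.sum_div]
    refine Finset.sum_le_sum fun i _ => ?_
    rw [mul_div_assoc]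
    refine mul_le_mul_of_nonneg_left (le_trans ?_ (hb i v).1) (ha i)
    exact div_le_div_of_nonneg_left hn (lt_of_lt_of_le one_pos (hc i)) (hle i)
  · rw [Finset.mul_sum, Finset.sum_mul]
    refine Finset.sum_le_sum fun i _ => ?_
    calc a i * hq (P i) v ≤ a i * (c i * nrm v) := mul_le_mul_of_nonneg_left (hb i v).2 (ha i)
      _ ≤ a i * (C * nrm v) :=
        mul_le_mul_of_nonneg_left (mul_le_mul_of_nonneg_right (hle i) hn) (ha i)
      _ = C * a i * nrm v := by ring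

theorem g1b_herm_smul {P : Mc n} (hP : P.IsHermitian) (a : ℝ) :
    ((a : ℂ) • P).IsHermitian := by
  unfold Matrix.IsHermitian at *
  rw [Matrix.conjTranspose_smul, hP]
  congr 1
  exact Complex.conj_ofReal a

theorem g1b_herm_sum {ι : Type} [Fintype ι] (P : ι → Mc n) (hP : ∀ i, (P i).IsHermitian)
    (a : ι → ℝ) : (∑ i, (a i : ℂ) • P i).IsHermitian := by
  unfold Matrix.IsHermitian
  rw [Matrix.conjTranspose_sum]
  exact Finset.sum_congr rfl fun i _ => g1b_herm_smul (hP i) (a i)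

theorem PD_comb {ι : Type} [Fintype ι] [Nonempty ι] (P : ι → Mc n) (hP : ∀ i, PD (P i))
    (a : ι → ℝ) (ha : ∀ i, 0 < a i) : PD (∑ i, (a i : ℂ) • P i) := by
  refine ⟨g1b_herm_sum P (fun i => (hP i).1) a, fun v hv => ?_⟩
  rw [hq_sum]
  exact Finset.sum_pos (fun i _ => mul_pos (ha i) ((hP i).2 v hv)) Finset.univ_nonempty

theorem PD_add_sq {P : Mc n} (hP : PD P) (l : Fin n → ℂ) {τ : ℝ} (hτ : 0 ≤ τ) :
    PD ((τ : ℂ) • sq l + P) := by
  refine ⟨(g1b_herm_smul (sq_isHermitian l) τ).add hP.1, fun v hv => ?_⟩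
  rw [hq_add, hq_smul, hq_sq]
  have := hP.2 v hv
  positivity

theorem PD_conj {P : Mc n} (hP : PD P) {M : Mc n} (hM : M.det ≠ 0) : PD (Mᴴ * P * M) := by
  refine ⟨Matrix.isHermitian_conjTranspose_mul_mul M hP.1, fun v hv => ?_⟩
  rw [hq_conj]
  refine hP.2 _ fun h => hv ?_
  exact Matrix.eq_zero_of_mulVec_eq_zero hM h

theorem PD_sqs (L : Mc n) (hL : L.det ≠ 0) (a : Fin n → ℝ) (ha : ∀ i, 0 < a i) :
    PD (∑ i, (a i : ℂ) • sq (L i)) := by
  refine ⟨g1b_herm_sum _ (fun i => sq_isHermitian _) a, fun v hv => ?_⟩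
  rw [hq_sum]
  have h1 : ∀ i, 0 ≤ a i * hq (sq (L i)) v := fun i => by
    rw [hq_sq]
    have := (ha i).le
    positivity
  have h2 : L *ᵥ v ≠ 0 := fun h => hv (Matrix.eq_zero_of_mulVec_eq_zero hL h)
  obtain ⟨i, hi⟩ := Function.ne_iff.1 h2
  refine Finset.sum_pos' (fun i _ => h1 i) ⟨i, Finset.mem_univ i, ?_⟩
  rw [hq_sq]
  have h3 : L i ⬝ᵥ v ≠ 0 := hi
  have h4 : 0 < ‖L i ⬝ᵥ v‖ := norm_pos_iff.2 h3
  have := ha i
  positivity

theorem PD_sqs_bounds (L : Mc n) (hL : L.det ≠ 0) : ∃ c : ℝ, 1 ≤ c ∧ ∀ v,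
    nrm v / c ≤ ∑ i, ‖L i ⬝ᵥ v‖ ^ 2 ∧ ∑ i, ‖L i ⬝ᵥ v‖ ^ 2 ≤ c * nrm v := by
  obtain ⟨c, hc, hb⟩ := PD_bounds (PD_sqs L hL (fun _ => 1) (fun _ => one_pos))
  refine ⟨c, hc, fun v => ?_⟩
  have e : hq (∑ i, (((fun _ => (1 : ℝ)) i : ℝ) : ℂ) • sq (L i)) v = ∑ i, ‖L i ⬝ᵥ v‖ ^ 2 := by
    rw [hq_sum Finset.univ (fun _ => (1 : ℝ)) (fun i => sq (L i)) v]
    exact Finset.sum_congr rfl fun i _ => by rw [hq_sq, one_mul]
  have h := hb v
  rw [e] at h
  exact h

theorem em_add (m k : Fin n → Eis) : em (m + k) = em m + em k := by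
  funext i
  simp [em]

theorem cm_mulVec (M : Me n) (m : Fin n → Eis) : cm M *ᵥ em m = em (M *ᵥ m) := by
  funext i
  exact (RingHom.map_mulVec emb M m i).symm

theorem cm_mul (M N : Me n) : cm (M * N) = cm M * cm N :=
  Matrix.map_mul

theorem cm_det (M : Me n) : (cm M).det = emb M.det :=
  (RingHom.map_det emb M).symm

theorem ch_add (w u v : Fin n → ℂ) : ch w (u + v) = ch w u * ch w v := by
  rw [ch, ch, ch, ← Complex.exp_add, dotProduct_add, Complex.add_re]
  congr 1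
  push_cast
  ring

theorem norm_ch (w v : Fin n → ℂ) : ‖ch w v‖ = 1 := by
  rw [ch, show (2 * Real.pi * Complex.I * (((w ⬝ᵥ v).re : ℝ) : ℂ) : ℂ) =
    ((2 * Real.pi * (w ⬝ᵥ v).re : ℝ) : ℂ) * Complex.I by push_cast; ring]
  exact Complex.norm_exp_ofReal_mul_I _

/-- The reduction modulo `N`. -/
def g1b_red (N : ℕ) (m : Fin n → Eis) : Fin n → ZMod N × ZMod N :=
  fun i => (((m i).re : ZMod N), ((m i).im : ZMod N))

theorem g1b_red_dvd (N : ℕ) {m k : Fin n → Eis} (h : g1b_red N m = g1b_red N k) :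
    ∃ u : Fin n → Eis, m - k = (N : Eis) • u := by
  have h1 : ∀ i, ∃ u : Eis, m i - k i = (N : Eis) * u := by
    intro i
    have h2 := congrFun h i
    simp only [g1b_red, Prod.mk.injEq] at h2
    obtain ⟨h3, h4⟩ := h2
    have h5 : (N : ℤ) ∣ (m i).re - (k i).re := by
      rw [← ZMod.intCast_zmod_eq_zero_iff_dvd]
      push_cast
      rw [h3, sub_self]
    have h6 : (N : ℤ) ∣ (m i).im - (k i).im := by
      rw [← ZMod.intCast_zmod_eq_zero_iff_dvd]
      push_cast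
      rw [h4, sub_self]
    obtain ⟨a, ha⟩ := h5
    obtain ⟨b, hb⟩ := h6
    refine ⟨⟨a, b⟩, ?_⟩
    ext
    · simp [ha]
    · simp [hb]
  choose u hu using h1
  exact ⟨u, funext fun i => hu i⟩

/-- Coset decomposition. -/
theorem coset (B : Me n) (hB : B.det ≠ 0) : ∃ R : Finset (Fin n → Eis),
    ∀ m : Fin n → Eis, ∃! p : (Fin n → Eis) × (Fin n → Eis), p.1 ∈ R ∧ m = p.1 + B *ᵥ p.2 := by
  classical
  have : IsDomain Eis := emb_injective.isDomain emb
  set H : AddSubgroup (Fin n → Eis) := (Matrix.mulVecLin B).toAddMonoidHom.range with hH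
  have hHm : ∀ u, B *ᵥ u ∈ H := fun u => ⟨u, rfl⟩
  -- the exponent
  have hN : ∃ N : ℕ, N ≠ 0 ∧ B.det ∣ (N : Eis) := by
    refine ⟨B.det.norm.natAbs, ?_, ?_⟩
    · intro h
      have h1 : B.det.norm = 0 := Int.natAbs_eq_zero.1 h
      have h2 := norm_emb_sq B.det
      rw [h1] at h2
      have h3 : emb B.det = 0 := by
        have : ‖emb B.det‖ ^ 2 = 0 := by rw [h2]; simp
        exact norm_eq_zero.1 (pow_eq_zero_iff two_ne_zero |>.1 this)
      exact hB (emb_injective (by rw [h3, map_zero]))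
    · have h1 : ((B.det.norm.natAbs : ℕ) : Eis) = ((B.det.norm : ℤ) : Eis) := by
        rw [← Int.cast_natCast, Int.natAbs_of_nonneg (norm_nonneg' _)]
      rw [h1]
      refine ⟨star B.det, ?_⟩
      apply emb_injective
      rw [map_mul, emb_star, Complex.mul_conj, normSq_emb]
      simp
  obtain ⟨N, hN0, d, hd⟩ := hN
  have : NeZero N := ⟨hN0⟩
  have hNH : ∀ u : Fin n → Eis, (N : Eis) • u ∈ H := by
    intro u
    have h1 : (N : Eis) • u = B *ᵥ (d • (B.adjugate *ᵥ u)) := by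
      rw [Matrix.mulVec_smul, Matrix.mulVec_mulVec, Matrix.mul_adjugate, Matrix.smul_mulVec,
        Matrix.one_mulVec, smul_smul, hd, mul_comm]
    rw [h1]
    exact hHm _
  -- representatives
  set rep : (Fin n → Eis) → (Fin n → Eis) := fun m => (QuotientAddGroup.mk (s := H) m).out with hrep
  have hrep1 : ∀ m, QuotientAddGroup.mk (s := H) (rep m) = QuotientAddGroup.mk (s := H) m :=
    fun m => Quotient.out_eq _
  have hrepc : ∀ m k, QuotientAddGroup.mk (s := H) m = QuotientAddGroup.mk (s := H) k →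
      rep m = rep k := by
    intro m k h
    simp only [hrep, h]
  have hfin : (Set.range rep).Finite := by
    have : Nonempty (Fin n → Eis) := ⟨0⟩
    refine (Set.finite_range fun t : Fin n → ZMod N × ZMod N =>
      rep (Function.invFun (g1b_red N) t)).subset ?_
    rintro _ ⟨m, rfl⟩
    refine ⟨g1b_red N m, ?_⟩
    apply hrepc
    have h1 : g1b_red N (Function.invFun (g1b_red N) (g1b_red N m)) = g1b_red N m :=
      Function.invFun_eq ⟨m, rfl⟩
    obtain ⟨u, hu⟩ := g1b_red_dvd N h1.symm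
    rw [QuotientAddGroup.eq, neg_add_eq_sub, hu]
    exact hNH u
  have hinj : Function.Injective fun u : Fin n → Eis => B *ᵥ u := by
    intro u v h
    have h1 : B *ᵥ (u - v) = 0 := by
      rw [Matrix.mulVec_sub, sub_eq_zero]
      exact h
    exact sub_eq_zero.1 (Matrix.eq_zero_of_mulVec_eq_zero hB h1)
  refine ⟨hfin.toFinset, fun m => ?_⟩
  have h1 : m - rep m ∈ H := by
    have h2 := hrep1 m
    rw [QuotientAddGroup.eq, neg_add_eq_sub] at h2
    exact h2
  obtain ⟨u, hu⟩ := h1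
  have hu' : B *ᵥ u = m - rep m := hu
  refine ⟨(rep m, u), ⟨hfin.mem_toFinset.2 ⟨m, rfl⟩, ?_⟩, ?_⟩
  · show m = rep m + B *ᵥ u
    rw [hu']; abel
  · rintro ⟨p, q⟩ ⟨hp, hq⟩
    simp only at hp hq
    obtain ⟨k, hk⟩ := hfin.mem_toFinset.1 hp
    have h3 : QuotientAddGroup.mk (s := H) m = QuotientAddGroup.mk (s := H) p := by
      rw [hq, QuotientAddGroup.mk_add, (QuotientAddGroup.eq_zero_iff (B *ᵥ q)).2 (hHm q), add_zero]
    have h4 : p = rep m := by
      rw [← hk]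
      apply hrepc
      rw [← hrep1 k, hk, h3]
    have h5 : B *ᵥ q = B *ᵥ u := by
      rw [hu', ← h4]
      nth_rw 1 [hq]
      abel
    rw [h4, hinj h5]

end NG
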