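import Pool.Agent.MP_9ab903_nt.NG.Defs

/-! ## [NG-G2a] one-dimensional theta functions with a character

`T1_small`, `θ ∉ Dl`: Poisson summation as in `NAB/A2b.lean` (`a2b_*`; there with independent variables `z, z'`): the linear exponential
`e(Re θ a) = exp(π i (θ a + conj θ conj a))` is absorbed by shifting `z ↦ z - i conj θ / s`, `z' ↦ z' - i θ / s` (independent variables!);
result: `T1 k s z θ = 1/(A0 s) (-i/s)^k ∑_u conj(u - θ*)^k exp(-π |u - θ*|²/s) e(..)` up to unimodular factors, `u` in the dual lattice,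
`θ* = - conj θ` or so, and `u ≠ θ*` for all `u` iff `θ ∉ Dl`. Only the bounds are needed. For `s ≥ 1` use `Ak_bound`.
`Tk_small_all`: as `Tk_small` for all `k ≥ 1` (`Tk_poisson` holds for all `k`, see `a2b_main`/`a2b_iter`; the term `u = 0` vanishes). -/

set_option autoImplicit false

open scoped ComplexConjugate Matrix
open MeasureTheory Set Filter Topology

namespace NG

open CM27 NAB

variable {n : ℕ}

theorem g2a_norm_char (r : ℝ) : ‖Complex.exp (2 * Real.pi * Complex.I * (r : ℂ))‖ = 1 := by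
  rw [show (2 * Real.pi * Complex.I * (r : ℂ) : ℂ) = ((2 * Real.pi * r : ℝ) : ℂ) * Complex.I by
    push_cast; ring]
  exact Complex.norm_exp_ofReal_mul_I _

theorem g2a_norm_term (k : ℕ) (s : ℝ) (z θ : ℂ) (a : Eis) :
    ‖Complex.exp (2 * Real.pi * Complex.I * (((θ * (z + emb a)).re : ℝ) : ℂ))
      * conj (z + emb a) ^ k * ((Real.exp (-(Real.pi * s * ‖z + emb a‖ ^ 2)) : ℝ) : ℂ)‖
      = ‖z + emb a‖ ^ k * Real.exp (-(Real.pi * s * ‖z + emb a‖ ^ 2)) := by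
  rw [norm_mul, norm_mul, norm_pow, Complex.norm_conj, Complex.norm_real, Real.norm_eq_abs,
    Real.abs_exp, g2a_norm_char, one_mul]

theorem T1_summable (k : ℕ) {s : ℝ} (hs : 0 < s) (z θ : ℂ) :
    Summable fun a : Eis => Complex.exp (2 * Real.pi * Complex.I * (((θ * (z + emb a)).re : ℝ) : ℂ))
      * conj (z + emb a) ^ k * ((Real.exp (-(Real.pi * s * ‖z + emb a‖ ^ 2)) : ℝ) : ℂ) := by
  refine Summable.of_norm ?_
  exact (Ak_summable k hs z).congr fun a => (g2a_norm_term k s z θ a).symm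

theorem norm_T1_le (k : ℕ) {s : ℝ} (hs : 0 < s) (z θ : ℂ) : ‖T1 k s z θ‖ ≤ Ak k s z := by
  unfold T1 Ak
  refine le_trans (norm_tsum_le_tsum_norm ?_) ?_
  · exact (Ak_summable k hs z).congr fun a => (g2a_norm_term k s z θ a).symm
  · exact le_of_eq (tsum_congr fun a => g2a_norm_term k s z θ a)

theorem T1_cont (k : ℕ) (z θ : ℂ) : ContinuousOn (fun s : ℝ => T1 k s z θ) (Ioi 0) := by
  intro s0 hs0
  have hs0' : 0 < s0 := hs0
  obtain ⟨u, hu, hb⟩ := A2d_bound k (half_pos hs0') (R := ‖z‖) (norm_nonneg z)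
  have hmem : s0 ∈ Ioi (s0 / 2) := by
    show s0 / 2 < s0
    linarith
  have hc : ContinuousOn (fun s : ℝ => T1 k s z θ) (Ioi (s0 / 2)) := by
    refine continuousOn_tsum (u := u) (fun a => ?_) hu ?_
    · apply Continuous.continuousOn
      have h3 : Continuous fun s : ℝ => Real.exp (-(Real.pi * s * ‖z + emb a‖ ^ 2)) := by
        fun_prop
      exact continuous_const.mul (Complex.continuous_ofReal.comp h3)
    · intro a s hs
      have h1 := hb a s z (le_of_lt hs) le_rfl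
      rw [a2a_norm_term] at h1
      rw [g2a_norm_term]
      exact h1
  exact (hc.continuousAt (isOpen_Ioi.mem_nhds hmem)).continuousWithinAt

theorem T1_per (k : ℕ) (s : ℝ) (z θ : ℂ) (a : Eis) : T1 k s (z + emb a) θ = T1 k s z θ := by
  unfold T1
  rw [← (Equiv.addLeft a).tsum_eq
    (fun b : Eis => Complex.exp (2 * Real.pi * Complex.I * (((θ * (z + emb b)).re : ℝ) : ℂ))
      * conj (z + emb b) ^ k * ((Real.exp (-(Real.pi * s * ‖z + emb b‖ ^ 2)) : ℝ) : ℂ))]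
  refine tsum_congr fun b => ?_
  simp only [Equiv.coe_addLeft, map_add, add_assoc]

/-! ### Poisson summation -/

/-- The shift of the dual lattice. -/
noncomputable def g2a_z0 (θ : ℂ) : ℂ := -(Complex.I * ((√3 : ℝ) : ℂ) / 2 * conj θ)

theorem g2a_s3 : (((√3 : ℝ) : ℂ)) ≠ 0 :=
  Complex.ofReal_ne_zero.2 (Real.sqrt_pos.2 (by norm_num)).ne'

theorem g2a_du_sub (θ : ℂ) (b : Eis) :
    du b - conj θ = 2 / (Complex.I * ((√3 : ℝ) : ℂ)) * (g2a_z0 θ + emb b) := by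
  have h3 := g2a_s3
  have hI := Complex.I_ne_zero
  rw [du, g2a_z0]
  field_simp
  ring

theorem g2a_norm_du_sub (θ : ℂ) (b : Eis) :
    ‖du b - conj θ‖ = 2 / √3 * ‖g2a_z0 θ + emb b‖ := by
  rw [g2a_du_sub, norm_mul, norm_div, norm_mul, Complex.norm_I, one_mul, Complex.norm_real,
    Real.norm_of_nonneg (Real.sqrt_nonneg 3), Complex.norm_ofNat]

theorem g2a_famA {s : ℝ} (hs : 0 < s) (z θ : ℂ) (R : ℝ) :
    Summable fun a : Eis => ‖Complex.exp (2 * Real.pi * Complex.I * (((θ * (z + emb a)).re : ℝ) : ℂ))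
      * ((Real.exp (-(Real.pi * s * ‖z + emb a‖ ^ 2)) : ℝ) : ℂ)‖ *
      Real.exp (R * ‖conj (z + emb a)‖) := by
  refine (a2b_famA hs z R).congr fun a => ?_
  rw [norm_mul, g2a_norm_char, one_mul]

theorem g2a_famB {s : ℝ} (hs : 0 < s) (z θ : ℂ) (R : ℝ) :
    Summable fun b : Eis => ‖((Real.exp (-(Real.pi * ‖du b - conj θ‖ ^ 2 / s)) : ℝ) : ℂ)
      * Complex.exp (2 * Real.pi * Complex.I * ((z * conj (du b)).re : ℂ))‖ *
      Real.exp (R * ‖-Complex.I / s * conj (du b - conj θ)‖) := by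
  have h3s : √3 ^ 2 = 3 := Real.sq_sqrt (by norm_num)
  have h30 : (0 : ℝ) < √3 := Real.sqrt_pos.2 (by norm_num)
  set t : ℝ := 4 / (3 * s) with ht
  have ht0 : 0 < t := by positivity
  have h1 := (Ak_summable 0 (s := t / 2) (by positivity) (g2a_z0 θ)).mul_left
    (Real.exp ((R * (2 / √3) / s) ^ 2 / (2 * (Real.pi * t))))
  refine Summable.of_nonneg_of_le (fun a => by positivity) (fun b => ?_) h1
  have h3 : ‖-Complex.I / s * conj (du b - conj θ)‖ = ‖du b - conj θ‖ / s := by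
    rw [norm_mul, norm_div, norm_neg, Complex.norm_I, Complex.norm_real,
      Real.norm_of_nonneg hs.le, Complex.norm_conj]
    ring
  rw [norm_mul, g2a_norm_char, h3, mul_one, Complex.norm_real,
    Real.norm_of_nonneg (Real.exp_pos _).le, pow_zero, one_mul, ← Real.exp_add, ← Real.exp_add]
  refine Real.exp_le_exp.2 ?_
  have h4 := a2b_gaussbd ht0 (R * (2 / √3) / s) ‖g2a_z0 θ + emb b‖
  rw [g2a_norm_du_sub]
  have h5 : -(Real.pi * (2 / √3 * ‖g2a_z0 θ + emb b‖) ^ 2 / s) =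
      -(Real.pi * t * ‖g2a_z0 θ + emb b‖ ^ 2) := by
    rw [mul_pow, div_pow, h3s, ht]
    field_simp
    ring
  have h6 : R * (2 / √3 * ‖g2a_z0 θ + emb b‖ / s) =
      R * (2 / √3) / s * ‖g2a_z0 θ + emb b‖ := by ring
  rw [h5, h6]
  exact h4

theorem g2a_main {s : ℝ} (hs : 0 < s) (z θ ζ : ℂ) :
    ∑' a : Eis, (Complex.exp (2 * Real.pi * Complex.I * (((θ * (z + emb a)).re : ℝ) : ℂ))
      * ((Real.exp (-(Real.pi * s * ‖z + emb a‖ ^ 2)) : ℝ) : ℂ)) *
        Complex.exp (ζ * conj (z + emb a)) =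
      1 / ((A0 : ℂ) * s) * ∑' b : Eis,
        (((Real.exp (-(Real.pi * ‖du b - conj θ‖ ^ 2 / s)) : ℝ) : ℂ)
        * Complex.exp (2 * Real.pi * Complex.I * ((z * conj (du b)).re : ℂ))) *
        Complex.exp (ζ * (-Complex.I / s * conj (du b - conj θ))) := by
  have hs0 : (s : ℂ) ≠ 0 := Complex.ofReal_ne_zero.2 hs.ne'
  have hp0 : (Real.pi : ℂ) ≠ 0 := Complex.ofReal_ne_zero.2 Real.pi_ne_zero
  -- the constant factor
  set K : ℂ := Complex.exp (-(Real.pi * (θ * conj θ) / s) + Complex.I * θ * ζ / s) with hK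
  have hF := a2b_sum _ _ (g2a_famA hs z θ) ζ
  have hG := a2b_sum _ _ (g2a_famB hs z θ) ζ
  set z1 : ℂ := z - Complex.I * conj θ / s - ζ / (Real.pi * s) with hz1
  set z' : ℂ := conj z - Complex.I * θ / s with hz'
  have hI2 := Complex.I_sq
  have hFe : ∀ a : Eis, (Complex.exp (2 * Real.pi * Complex.I * (((θ * (z + emb a)).re : ℝ) : ℂ))
      * ((Real.exp (-(Real.pi * s * ‖z + emb a‖ ^ 2)) : ℝ) : ℂ)) *
      Complex.exp (ζ * conj (z + emb a)) = K * Complex.exp (-(Real.pi * s *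
        ((z1 + (a.re + a.im * w)) * (z' + (a.re + a.im * conj w))))) := by
    intro a
    rw [hK, Complex.ofReal_exp, ← Complex.exp_add, ← Complex.exp_add, ← Complex.exp_add]
    congr 1
    have h1 : ((((θ * (z + emb a)).re : ℝ)) : ℂ) =
        (θ * (z + emb a) + conj θ * conj (z + emb a)) / 2 := by
      rw [Complex.re_eq_add_conj]
      simp
    rw [h1, hz1, hz']
    push_cast
    rw [← Complex.mul_conj', emb_apply]
    simp only [map_add, map_mul, map_intCast]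
    field_simp
    ring_nf
    rw [hI2]
    ring
  have hGe : ∀ b : Eis, ((Real.exp (-(Real.pi * ‖du b - conj θ‖ ^ 2 / s)) : ℝ) : ℂ)
        * Complex.exp (2 * Real.pi * Complex.I * ((z * conj (du b)).re : ℂ)) *
        Complex.exp (ζ * (-Complex.I / s * conj (du b - conj θ))) =
      K * Complex.exp (-(Real.pi * ((‖du b‖ : ℂ) ^ 2) / s)
        + Real.pi * Complex.I * (z1 * conj (du b) + z' * du b)) := by
    intro b
    rw [hK, Complex.ofReal_exp, ← Complex.exp_add, ← Complex.exp_add, ← Complex.exp_add]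
    congr 1
    have h1 : ((z * conj (du b)).re : ℂ) = (z * conj (du b) + conj z * du b) / 2 := by
      rw [Complex.re_eq_add_conj]
      simp
    rw [h1, hz1, hz']
    push_cast
    rw [← Complex.mul_conj', ← Complex.mul_conj']
    simp only [map_sub, Complex.conj_conj]
    field_simp
    ring_nf
    rw [hI2]
    ring
  have hK0 : K ≠ 0 := Complex.exp_ne_zero _
  have hF' : Summable fun a : Eis => Complex.exp (-(Real.pi * s *
        ((z1 + (a.re + a.im * w)) * (z' + (a.re + a.im * conj w))))) := by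
    refine (hF.mul_left K⁻¹).congr fun a => ?_
    rw [hFe a, ← mul_assoc, inv_mul_cancel₀ hK0, one_mul]
  have hG' : Summable fun b : Eis => Complex.exp (-(Real.pi * ((‖du b‖ : ℂ) ^ 2) / s)
        + Real.pi * Complex.I * (z1 * conj (du b) + z' * du b)) := by
    refine (hG.mul_left K⁻¹).congr fun a => ?_
    rw [hGe a, ← mul_assoc, inv_mul_cancel₀ hK0, one_mul]
  rw [tsum_congr hFe, tsum_congr hGe, tsum_mul_left, tsum_mul_left, ← mul_assoc, mul_comm _ K,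
    mul_assoc, ← a2b_const hs]
  congr 1
  refine a2b_core _ _ hF' hG' (a2b_g s z1 z') (a2b_g_summable hs _ _) _ _ (fun n => ?_)
    (fun j => ?_)
  · exact a2b_stepA hs z1 z' n
  · exact a2b_stepB hs z1 z' j

theorem T1_poisson (k : ℕ) {s : ℝ} (hs : 0 < s) (z θ : ℂ) :
    T1 k s z θ = 1 / ((A0 : ℂ) * s) * (-Complex.I / s) ^ k * ∑' b : Eis, conj (du b - conj θ) ^ k
      * ((Real.exp (-(Real.pi * ‖du b - conj θ‖ ^ 2 / s)) : ℝ) : ℂ)
      * Complex.exp (2 * Real.pi * Complex.I * ((z * conj (du b)).re : ℂ)) := by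
  have h1 := a2b_iter _ _ _ k _ _ (g2a_famA hs z θ) (g2a_famB hs z θ) (g2a_main hs z θ) 0
  simp only [zero_mul, Complex.exp_zero, mul_one] at h1
  have h2 : T1 k s z θ = ∑' a : Eis,
      Complex.exp (2 * Real.pi * Complex.I * (((θ * (z + emb a)).re : ℝ) : ℂ))
      * ((Real.exp (-(Real.pi * s * ‖z + emb a‖ ^ 2)) : ℝ) : ℂ) * conj (z + emb a) ^ k := by
    unfold T1
    exact tsum_congr fun a => mul_right_comm _ _ _
  rw [h2, h1, mul_assoc (1 / ((A0 : ℂ) * s)), ← tsum_mul_left (a := (-Complex.I / (s : ℂ)) ^ k)]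
  congr 1
  refine tsum_congr (fun b => ?_)
  rw [mul_pow]
  ring

theorem g2a_bound (k : ℕ) {s : ℝ} (hs : 0 < s) (z θ : ℂ) :
    ‖T1 k s z θ‖ ≤ (2 / √3) ^ k / A0 * (1 / s) ^ (k + 1) * Ak k (4 / (3 * s)) (g2a_z0 θ) := by
  have h3s : √3 ^ 2 = 3 := Real.sq_sqrt (by norm_num)
  have hA := A0_pos'
  have ht0 : 0 < 4 / (3 * s) := by positivity
  have hterm : ∀ b : Eis, ‖conj (du b - conj θ) ^ k
      * ((Real.exp (-(Real.pi * ‖du b - conj θ‖ ^ 2 / s)) : ℝ) : ℂ)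
      * Complex.exp (2 * Real.pi * Complex.I * ((z * conj (du b)).re : ℂ))‖ =
      (2 / √3) ^ k * (‖g2a_z0 θ + emb b‖ ^ k *
        Real.exp (-(Real.pi * (4 / (3 * s)) * ‖g2a_z0 θ + emb b‖ ^ 2))) := by
    intro b
    rw [norm_mul, norm_mul, norm_pow, Complex.norm_conj, g2a_norm_char, mul_one,
      Complex.norm_real, Real.norm_of_nonneg (Real.exp_pos _).le, g2a_norm_du_sub, mul_pow,
      mul_assoc]
    congr 3
    rw [mul_pow, div_pow, h3s]
    field_simp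
    ring
  rw [T1_poisson k hs z θ, norm_mul, norm_mul, norm_pow, norm_div, norm_div, norm_mul, norm_neg,
    Complex.norm_I, norm_one, Complex.norm_real, Complex.norm_real, Real.norm_of_nonneg hA.le,
    Real.norm_of_nonneg hs.le]
  have hsum := (Ak_summable k ht0 (g2a_z0 θ)).mul_left ((2 / √3) ^ k)
  have h1 : ‖∑' b : Eis, conj (du b - conj θ) ^ k
      * ((Real.exp (-(Real.pi * ‖du b - conj θ‖ ^ 2 / s)) : ℝ) : ℂ)
      * Complex.exp (2 * Real.pi * Complex.I * ((z * conj (du b)).re : ℂ))‖ ≤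
      (2 / √3) ^ k * Ak k (4 / (3 * s)) (g2a_z0 θ) := by
    refine (norm_tsum_le_tsum_norm ?_).trans (le_of_eq ?_)
    · exact hsum.congr fun b => (hterm b).symm
    · rw [tsum_congr hterm, tsum_mul_left]
      rfl
  calc 1 / (A0 * s) * (1 / s) ^ k * ‖∑' b : Eis, conj (du b - conj θ) ^ k
      * ((Real.exp (-(Real.pi * ‖du b - conj θ‖ ^ 2 / s)) : ℝ) : ℂ)
      * Complex.exp (2 * Real.pi * Complex.I * ((z * conj (du b)).re : ℂ))‖
      ≤ 1 / (A0 * s) * (1 / s) ^ k * ((2 / √3) ^ k * Ak k (4 / (3 * s)) (g2a_z0 θ)) :=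
        mul_le_mul_of_nonneg_left h1 (by positivity)
    _ = _ := by
        rw [pow_succ]
        field_simp

theorem g2a_gap (k : ℕ) (z : ℂ) (h : k ≠ 0 ∨ z ∉ Set.range emb) :
    ∃ δ : ℝ, 0 < δ ∧ ∀ a : Eis, (k ≠ 0 ∧ z + emb a = 0) ∨ δ ≤ ‖z + emb a‖ := by
  by_cases hz : z ∈ Set.range emb
  · have hk : k ≠ 0 := h.resolve_right fun h' => h' hz
    obtain ⟨b, rfl⟩ := hz
    refine ⟨1, one_pos, fun a => ?_⟩
    by_cases h0 : b + a = 0
    · left
      exact ⟨hk, by rw [← map_add, h0, map_zero]⟩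
    · right
      rw [← map_add]
      have h1 := A2c_one_le h0
      nlinarith [norm_nonneg (emb (b + a))]
  · obtain ⟨δ, hδ, hg⟩ := a2a_gap z hz
    exact ⟨δ, hδ, fun a => Or.inr (hg a)⟩

theorem g2a_Ak_off (k : ℕ) (z : ℂ) (h : k ≠ 0 ∨ z ∉ Set.range emb) : ∃ C κ : ℝ, 0 < C ∧ 0 < κ ∧
    ∀ s : ℝ, 0 < s → Ak k s z ≤ C * (1 + 1 / s) ^ (k + 1) * Real.exp (-(κ * s)) := by
  obtain ⟨δ, hδ, hgap⟩ := g2a_gap k z h
  obtain ⟨C, hC, hb⟩ := Ak_bound k
  refine ⟨C * 2 ^ (k + 1), Real.pi / 2 * δ ^ 2, by positivity, by positivity, fun s hs => ?_⟩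
  have hs2 : 0 < s / 2 := by positivity
  have h1 : Ak k s z ≤ Real.exp (-(Real.pi / 2 * δ ^ 2 * s)) * Ak k (s / 2) z := by
    unfold Ak
    rw [← tsum_mul_left]
    refine Summable.tsum_le_tsum (fun a => ?_) (Ak_summable k hs z)
      ((Ak_summable k hs2 z).mul_left _)
    rcases hgap a with ⟨hk, h0⟩ | hga
    · rw [h0, norm_zero, zero_pow hk, zero_mul, zero_mul, mul_zero]
    have h2 : Real.exp (-(Real.pi * s * ‖z + emb a‖ ^ 2)) ≤ Real.exp (-(Real.pi / 2 * δ ^ 2 * s))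
        * Real.exp (-(Real.pi * (s / 2) * ‖z + emb a‖ ^ 2)) := by
      rw [← Real.exp_add]
      apply Real.exp_le_exp.2
      have h3 : δ ^ 2 ≤ ‖z + emb a‖ ^ 2 := pow_le_pow_left₀ hδ.le hga 2
      have h4 := mul_le_mul_of_nonneg_left h3 (mul_pos Real.pi_pos hs).le
      nlinarith
    calc ‖z + emb a‖ ^ k * Real.exp (-(Real.pi * s * ‖z + emb a‖ ^ 2))
        ≤ ‖z + emb a‖ ^ k * (Real.exp (-(Real.pi / 2 * δ ^ 2 * s))
          * Real.exp (-(Real.pi * (s / 2) * ‖z + emb a‖ ^ 2))) :=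
          mul_le_mul_of_nonneg_left h2 (by positivity)
      _ = _ := by ring
  have h5 := hb (s / 2) hs2 z
  have h6 : 1 + 1 / (s / 2) ≤ 2 * (1 + 1 / s) := by
    have : 1 / (s / 2) = 2 * (1 / s) := by field_simp
    rw [this]; linarith
  have h7 : (1 + 1 / (s / 2)) ^ (k + 1) ≤ 2 ^ (k + 1) * (1 + 1 / s) ^ (k + 1) := by
    rw [← mul_pow]
    exact pow_le_pow_left₀ (by positivity) h6 _
  calc Ak k s z ≤ Real.exp (-(Real.pi / 2 * δ ^ 2 * s)) * Ak k (s / 2) z := h1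
    _ ≤ Real.exp (-(Real.pi / 2 * δ ^ 2 * s)) * (C * (2 ^ (k + 1) * (1 + 1 / s) ^ (k + 1))) :=
        mul_le_mul_of_nonneg_left (le_trans h5 (mul_le_mul_of_nonneg_left h7 hC.le))
          (Real.exp_pos _).le
    _ = _ := by ring

theorem g2a_small (k : ℕ) (θ : ℂ) (h : k ≠ 0 ∨ g2a_z0 θ ∉ Set.range emb) :
    ∃ C κ : ℝ, 0 < C ∧ 0 < κ ∧
    ∀ s : ℝ, 0 < s → ∀ z : ℂ, ‖T1 k s z θ‖ ≤ C * Real.exp (-(κ / s)) := by
  obtain ⟨C, κ, hC, hκ, hb⟩ := g2a_Ak_off k (g2a_z0 θ) h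
  obtain ⟨M, hM, hM'⟩ := A2c_poly (k + 1) (c := 2 * κ / 3) (by positivity)
  have hA := A0_pos'
  refine ⟨(2 / √3) ^ k / A0 * (C * M), 2 * κ / 3, by positivity, by positivity,
    fun s hs z => ?_⟩
  have h1 := g2a_bound k hs z θ
  have h2 := hb (4 / (3 * s)) (by positivity)
  have h3 := hM' (1 / s) (by positivity)
  have e1 : 1 + 1 / (4 / (3 * s)) = 1 + 3 / 4 * s := by field_simp
  have h4 : (1 / s) ^ (k + 1) * (1 + 1 / (4 / (3 * s))) ^ (k + 1) ≤ (1 + 1 / s) ^ (k + 1) := by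
    rw [← mul_pow, e1]
    apply pow_le_pow_left₀ (by positivity)
    have : 1 / s * (1 + 3 / 4 * s) = 1 / s + 3 / 4 := by field_simp
    rw [this]
    linarith
  have e2 : Real.exp (-(κ * (4 / (3 * s)))) =
      Real.exp (-(2 * κ / 3 * (1 / s))) * Real.exp (-(2 * κ / 3 / s)) := by
    rw [← Real.exp_add]
    congr 1
    field_simp
    ring
  have h5 : 0 ≤ (2 / √3) ^ k / A0 := by positivity
  calc ‖T1 k s z θ‖ ≤ _ := h1
    _ ≤ (2 / √3) ^ k / A0 * (1 / s) ^ (k + 1) *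
        (C * (1 + 1 / (4 / (3 * s))) ^ (k + 1) * Real.exp (-(κ * (4 / (3 * s))))) :=
        mul_le_mul_of_nonneg_left h2 (by positivity)
    _ = (2 / √3) ^ k / A0 * (C * (((1 / s) ^ (k + 1) * (1 + 1 / (4 / (3 * s))) ^ (k + 1)) *
        Real.exp (-(2 * κ / 3 * (1 / s))))) * Real.exp (-(2 * κ / 3 / s)) := by
        rw [e2]; ring
    _ ≤ (2 / √3) ^ k / A0 * (C * M) * Real.exp (-(2 * κ / 3 / s)) := by
        apply mul_le_mul_of_nonneg_right _ (Real.exp_pos _).le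
        apply mul_le_mul_of_nonneg_left _ h5
        apply mul_le_mul_of_nonneg_left _ hC.le
        exact (mul_le_mul_of_nonneg_right h4 (Real.exp_pos _).le).trans h3

theorem g2a_T1_zero (k : ℕ) (s : ℝ) (z : ℂ) : T1 k s z 0 = Tk k s z := by
  unfold T1 Tk
  refine tsum_congr fun a => ?_
  simp

theorem Tk_small_all (k : ℕ) (hk : k ≠ 0) : ∃ C κ : ℝ, 0 < C ∧ 0 < κ ∧
    ∀ s : ℝ, 0 < s → ∀ z : ℂ, ‖Tk k s z‖ ≤ C * Real.exp (-(κ / s)) := by
  obtain ⟨C, κ, hC, hκ, h⟩ := g2a_small k 0 (Or.inl hk)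
  exact ⟨C, κ, hC, hκ, fun s hs z => by rw [← g2a_T1_zero]; exact h s hs z⟩

theorem g2a_conj_du_mul (b a : Eis) : (conj (du b) * emb a).re = -((star b * a).im : ℝ) := by
  have h3 := g2a_s3
  have h30 : (√3 : ℝ) ≠ 0 := (Real.sqrt_pos.2 (by norm_num)).ne'
  have h1 : conj (du b) * emb a = ((2 / √3 : ℝ) : ℂ) * (Complex.I * emb (star b * a)) := by
    rw [du, map_div₀, map_mul, map_mul, map_ofNat, Complex.conj_I, Complex.conj_ofReal, map_mul,
      emb_star]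
    have hI := Complex.I_ne_zero
    push_cast
    rw [div_mul_eq_mul_div, div_eq_iff (mul_ne_zero (neg_ne_zero.2 hI) h3)]
    field_simp
    rw [Complex.I_sq]
    ring
  rw [h1, Complex.re_ofReal_mul, Complex.I_mul_re, emb_im]
  field_simp

theorem g2a_z0_mem {θ : ℂ} (h : g2a_z0 θ ∈ Set.range emb) : θ ∈ Dl := by
  obtain ⟨b, hb⟩ := h
  have h3 := g2a_s3
  have hI := Complex.I_ne_zero
  have h1 : du (-b) - conj θ = 0 := by
    rw [g2a_du_sub, ← hb, map_neg]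
    ring
  have h2 : θ = conj (du (-b)) := by
    rw [sub_eq_zero.1 h1, Complex.conj_conj]
  intro a
  rw [h2, g2a_conj_du_mul]
  exact ⟨-(star (-b) * a).im, by push_cast; rfl⟩

theorem T1_small (k : ℕ) (θ : ℂ) (hθ : θ ∉ Dl) : ∃ C κ : ℝ, 0 < C ∧ 0 < κ ∧
    ∀ s : ℝ, 0 < s → ∀ z : ℂ, ‖T1 k s z θ‖ ≤ C * Real.exp (-(κ / s)) :=
  g2a_small k θ (Or.inr fun h => hθ (g2a_z0_mem h))

/-- A character in the dual lattice is trivial on `ℤ[ω]`. -/
theorem T1_Dl (k : ℕ) (s : ℝ) (z θ : ℂ) (hθ : θ ∈ Dl) : T1 k s z θ =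
    Complex.exp (2 * Real.pi * Complex.I * (((θ * z).re : ℝ) : ℂ)) * Tk k s z := by
  unfold T1 Tk
  rw [← tsum_mul_left]
  refine tsum_congr fun a => ?_
  obtain ⟨m, hm⟩ := hθ a
  have h1 : Complex.exp (2 * Real.pi * Complex.I * (((θ * (z + emb a)).re : ℝ) : ℂ)) =
      Complex.exp (2 * Real.pi * Complex.I * (((θ * z).re : ℝ) : ℂ)) := by
    rw [mul_add, Complex.add_re, hm]
    rw [show (2 * Real.pi * Complex.I * ((((θ * z).re + (m : ℝ) : ℝ)) : ℂ) : ℂ) =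
      2 * Real.pi * Complex.I * (((θ * z).re : ℝ) : ℂ) + m * (2 * Real.pi * Complex.I) by
      push_cast; ring]
    rw [Complex.exp_add, Complex.exp_int_mul_two_pi_mul_I, mul_one]
  rw [h1, mul_assoc]

theorem T1_small_pos (k : ℕ) (hk : k ≠ 0) (θ : ℂ) : ∃ C κ : ℝ, 0 < C ∧ 0 < κ ∧
    ∀ s : ℝ, 0 < s → ∀ z : ℂ, ‖T1 k s z θ‖ ≤ C * Real.exp (-(κ / s)) :=
  g2a_small k θ (Or.inl hk)

/-- Both ends, `z` not a lattice point. -/
theorem T1_off (k : ℕ) (θ z : ℂ) (h : k ≠ 0 ∨ θ ∉ Dl) (hz : z ∉ Set.range emb) :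
    ∃ C κ : ℝ, 0 < C ∧ 0 < κ ∧ ∀ s : ℝ, 0 < s →
      ‖T1 k s z θ‖ ≤ C * Real.exp (-(κ * (s + 1 / s))) := by
  obtain ⟨C1, κ1, hC1, hκ1, h1⟩ := g2a_small k θ (h.imp_right fun h' h2 => h' (g2a_z0_mem h2))
  obtain ⟨C2, κ2, hC2, hκ2, h2⟩ := Ak_bound_off k z hz
  refine ⟨max C1 (C2 * 2 ^ (k + 1)) * Real.exp (min κ1 κ2), min κ1 κ2,
    mul_pos (lt_of_lt_of_le hC1 (le_max_left _ _)) (Real.exp_pos _), lt_min hκ1 hκ2,
    fun s hs => ?_⟩
  have hm1 := min_le_left κ1 κ2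
  have hm2 := min_le_right κ1 κ2
  have hm0 : 0 < min κ1 κ2 := lt_min hκ1 hκ2
  set κ := min κ1 κ2 with hκ
  have hM1 := le_max_left C1 (C2 * 2 ^ (k + 1))
  have hM2 := le_max_right C1 (C2 * 2 ^ (k + 1))
  set M := max C1 (C2 * 2 ^ (k + 1)) with hM
  have hM0 : 0 < M := lt_of_lt_of_le hC1 hM1
  rw [mul_assoc, ← Real.exp_add]
  have hs1 : 0 < 1 / s := by positivity
  rcases le_total s 1 with h | h
  · refine (h1 s hs z).trans ?_
    apply mul_le_mul hM1 _ (Real.exp_pos _).le hM0.le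
    apply Real.exp_le_exp.2
    have : κ / s ≤ κ1 / s := by gcongr
    have h3 : κ * s ≤ κ := by nlinarith
    have h4 : κ * (s + 1 / s) = κ * s + κ / s := by ring
    rw [h4]
    linarith
  · refine ((norm_T1_le k hs z θ).trans (h2 s hs)).trans ?_
    have h5 : 1 / s ≤ 1 := by rw [div_le_one hs]; exact h
    have h6 : (1 + 1 / s) ^ (k + 1) ≤ 2 ^ (k + 1) := by
      apply pow_le_pow_left₀ (by positivity)
      linarith
    have h7 : C2 * (1 + 1 / s) ^ (k + 1) ≤ M :=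
      (mul_le_mul_of_nonneg_left h6 hC2.le).trans hM2
    apply mul_le_mul h7 _ (Real.exp_pos _).le hM0.le
    apply Real.exp_le_exp.2
    have h8 : κ * s ≤ κ2 * s := by gcongr
    have h9 : κ * (1 / s) ≤ κ := by nlinarith
    have h4 : κ * (s + 1 / s) = κ * s + κ * (1 / s) := by ring
    rw [h4]
    linarith

theorem T1_int (θ z : ℂ) (hz : z ∉ Set.range emb) :
    IntegrableOn (fun u : ℝ => T1 1 u z θ) (Ioi 0) := by
  obtain ⟨C, κ, hC, hκ, h⟩ := T1_off 1 θ z (Or.inl one_ne_zero) hz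
  have hcont := T1_cont 1 z θ
  have hint : IntegrableOn (fun u : ℝ => C * Real.exp (-κ * u)) (Ioi 0) :=
    (exp_neg_integrableOn_Ioi 0 hκ).const_mul C
  refine Integrable.mono' hint (hcont.aestronglyMeasurable measurableSet_Ioi) ?_
  refine (ae_restrict_iff' measurableSet_Ioi).2 (Filter.Eventually.of_forall fun u hu => ?_)
  have hu0 : 0 < u := hu
  refine (h u hu0).trans ?_
  apply mul_le_mul_of_nonneg_left _ hC.le
  apply Real.exp_le_exp.2
  have : 0 < κ * (1 / u) := by positivity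
  nlinarith

end NG
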