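import Pool.Agent.MP_9ab903_nt.NG.G2a
import Pool.Agent.MP_9ab903_nt.NAB.A11b

/-! ## [NG-G2b] the numbers `Xi z θ` at torsion points

`Xi_dist`: split `a = a₀ + M b`: `T1 1 u z θ = ∑_{a₀} e(Re θ(z+a₀)) M Tk 1 (M² u) ((z+a₀)/M)` (`θ M b` has `Re ∈ ℤ`), substitute
`u ↦ M² u`. `Xi_val`: `E1_val`, the exponentials are roots of unity (`(θ (z+a₀)).re` is rational: `M θ = 2c/(i√3)`, `N z ∈ O`), valuation 1,
`M` odd. `Xi_gal`: apply `σ`, `E1_gal`, `σ(ζ) = ζ^norm(u)`: `norm(u) θ y = (conj u θ)(u y)`, and `a₀ ↦ u a₀` permutes the classes mod `M`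
(the summand only depends on `a₀` mod `M`: `E1_per` and periodicity of the exponential). -/

set_option autoImplicit false

open scoped ComplexConjugate Matrix
open MeasureTheory Set Filter Topology

namespace NG

open CM27 NAB

variable {n : ℕ}

theorem Xi_per (z θ : ℂ) (a : Eis) : Xi (z + emb a) θ = Xi z θ := by
  simp only [Xi, T1_per]

theorem g2b_conj_du (b : Eis) : conj (du b) = du (-star b) := by
  have h3 := g2a_s3
  have hI := Complex.I_ne_zero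
  rw [du, du, map_div₀, map_mul, map_mul, map_ofNat, Complex.conj_I, Complex.conj_ofReal, map_neg,
    emb_star]
  field_simp

theorem g2b_du_mem (b : Eis) : du b ∈ Dl := by
  have h1 : du b = conj (du (-star b)) := by
    rw [g2b_conj_du, star_neg, star_star, neg_neg]
  intro a
  rw [h1, g2a_conj_du_mul]
  exact ⟨-(star (-star b) * a).im, by push_cast; rfl⟩

theorem Dl_iff (θ : ℂ) : θ ∈ Dl ↔ ∃ b : Eis, θ = 2 * emb b / (Complex.I * (√3 : ℝ)) := by
  constructor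
  · intro h
    obtain ⟨k1, h1⟩ := h 1
    obtain ⟨k2, h2⟩ := h ⟨0, 1⟩
    rw [map_one, mul_one] at h1
    have hs : √3 * √3 = 3 := Real.mul_self_sqrt (by norm_num)
    have hs0 : (√3 : ℝ) ≠ 0 := (Real.sqrt_pos.2 (by norm_num)).ne'
    rw [Complex.mul_re, emb_re, emb_im, h1] at h2
    simp only [Int.cast_zero, Int.cast_one] at h2
    have h3 : θ.im * √3 = -(2 * k2 + k1) := by linear_combination -2 * h2
    refine ⟨⟨k1 + k2, k1⟩, ?_⟩
    rw [eq_div_iff (mul_ne_zero Complex.I_ne_zero g2a_s3)]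
    apply Complex.ext
    · simp only [Complex.mul_re, Complex.mul_im, Complex.I_re, Complex.I_im, Complex.ofReal_re,
        Complex.ofReal_im, emb_re, emb_im, Complex.re_ofNat, Complex.im_ofNat]
      push_cast
      linear_combination -h3
    · simp only [Complex.mul_re, Complex.mul_im, Complex.I_re, Complex.I_im, Complex.ofReal_re,
        Complex.ofReal_im, emb_re, emb_im, Complex.re_ofNat, Complex.im_ofNat]
      rw [h1]
      ring
  · rintro ⟨b, rfl⟩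
    exact g2b_du_mem b

/-! ### splitting -/

/-- Residues and quotients. -/
def g2b_equiv (M : ℕ) [NeZero M] : (Fin M × Fin M) × Eis ≃ Eis where
  toFun p := ⟨(p.1.1 : ℕ) + M * p.2.re, (p.1.2 : ℕ) + M * p.2.im⟩
  invFun a := (((Int.divModEquiv M a.re).2, (Int.divModEquiv M a.im).2),
    ⟨(Int.divModEquiv M a.re).1, (Int.divModEquiv M a.im).1⟩)
  left_inv p := by
    obtain ⟨⟨i, j⟩, ⟨x, y⟩⟩ := p
    have h1 : (((i : ℕ) : ℤ) + M * x) = (Int.divModEquiv M).symm (x, i) := by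
      simp [Int.divModEquiv]; ring
    have h2 : (((j : ℕ) : ℤ) + M * y) = (Int.divModEquiv M).symm (y, j) := by
      simp [Int.divModEquiv]; ring
    simp only [h1, h2, Equiv.apply_symm_apply]
  right_inv a := by
    obtain ⟨x, y⟩ := a
    have h1 := (Int.divModEquiv M).symm_apply_apply x
    have h2 := (Int.divModEquiv M).symm_apply_apply y
    ext
    · simp only
      conv_rhs => rw [← h1]
      simp [Int.divModEquiv]; ring
    · simp only
      conv_rhs => rw [← h2]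
      simp [Int.divModEquiv]; ring

theorem g2b_split (M : ℕ) (hM : 0 < M) (f : Eis → ℂ) (hf : Summable f) :
    ∑' a, f a = ∑ i ∈ Finset.range M, ∑ j ∈ Finset.range M,
      ∑' b : Eis, f (⟨i, j⟩ + (M : Eis) * b) := by
  have : NeZero M := ⟨hM.ne'⟩
  have h1 : Summable fun p => f (g2b_equiv M p) := (g2b_equiv M).summable_iff.2 hf
  have h2 : ∀ (c : Fin M × Fin M) (b : Eis), g2b_equiv M (c, b) =
      (⟨((c.1 : ℕ) : ℤ), ((c.2 : ℕ) : ℤ)⟩ : Eis) + (M : Eis) * b := by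
    intro c b
    ext
    · simp [g2b_equiv]
    · simp [g2b_equiv]
  rw [← (g2b_equiv M).tsum_eq f, h1.tsum_prod, tsum_fintype, Fintype.sum_prod_type]
  simp only [h2]
  rw [← Fin.sum_univ_eq_sum_range (fun i => ∑ j ∈ Finset.range M,
      ∑' b : Eis, f (⟨(i : ℤ), (j : ℤ)⟩ + (M : Eis) * b)) M]
  refine Finset.sum_congr rfl fun i _ => ?_
  rw [← Fin.sum_univ_eq_sum_range (fun j => ∑' b : Eis,
    f (⟨((i : ℕ) : ℤ), (j : ℤ)⟩ + (M : Eis) * b)) M]

theorem g2b_exp_add {θ : ℂ} {M : ℕ} (hθ : (M : ℂ) * θ ∈ Dl) (y : ℂ) (b : Eis) :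
    Complex.exp (2 * Real.pi * Complex.I * (((θ * (y + M * emb b)).re : ℝ) : ℂ)) =
    Complex.exp (2 * Real.pi * Complex.I * (((θ * y).re : ℝ) : ℂ)) := by
  obtain ⟨m, hm⟩ := hθ b
  have h1 : (θ * (y + M * emb b)).re = (θ * y).re + m := by
    rw [← hm, ← Complex.add_re]
    congr 1
    ring
  rw [h1, show (2 * Real.pi * Complex.I * ((((θ * y).re + (m : ℝ) : ℝ)) : ℂ) : ℂ) =
      2 * Real.pi * Complex.I * (((θ * y).re : ℝ) : ℂ) + m * (2 * Real.pi * Complex.I) by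
      push_cast; ring, Complex.exp_add, Complex.exp_int_mul_two_pi_mul_I, mul_one]

theorem g2b_T1_dist (M : ℕ) (hM : 0 < M) (θ z : ℂ) (hθ : (M : ℂ) * θ ∈ Dl) {u : ℝ} (hu : 0 < u) :
    T1 1 u z θ = ∑ i ∈ Finset.range M, ∑ j ∈ Finset.range M,
      Complex.exp (2 * Real.pi * Complex.I * (((θ * (z + emb ⟨i, j⟩)).re : ℝ) : ℂ))
        * M * Tk 1 ((M : ℝ) ^ 2 * u) ((z + emb ⟨i, j⟩) / M) := by
  have hM0 : (M : ℂ) ≠ 0 := by exact_mod_cast hM.ne'
  unfold T1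
  rw [g2b_split M hM _ (T1_summable 1 hu z θ)]
  refine Finset.sum_congr rfl fun i _ => Finset.sum_congr rfl fun j _ => ?_
  rw [Tk, ← tsum_mul_left]
  refine tsum_congr fun b => ?_
  have h1 : z + emb (⟨(i : ℤ), (j : ℤ)⟩ + (M : Eis) * b) =
      z + emb ⟨(i : ℤ), (j : ℤ)⟩ + M * emb b := by
    rw [map_add, map_mul, map_natCast]; ring
  have h2 : z + emb ⟨(i : ℤ), (j : ℤ)⟩ + M * emb b =
      M * ((z + emb ⟨(i : ℤ), (j : ℤ)⟩) / M + emb b) := by
    field_simp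
  rw [h1, g2b_exp_add hθ, h2, norm_mul, map_mul, pow_one, pow_one, Complex.norm_natCast,
    Complex.conj_natCast]
  have h3 : -(Real.pi * u * (M * ‖(z + emb ⟨(i : ℤ), (j : ℤ)⟩) / M + emb b‖) ^ 2) =
      -(Real.pi * ((M : ℝ) ^ 2 * u) * ‖(z + emb ⟨(i : ℤ), (j : ℤ)⟩) / M + emb b‖ ^ 2) := by
    ring
  rw [h3]
  ring

theorem Xi_dist (M : ℕ) (hM : 0 < M) (θ z : ℂ) (hθ : (M : ℂ) * θ ∈ Dl)
    (hz : z ∉ Set.range emb) (hz1 : ∀ a : Eis, (z + emb a) / M ∉ Set.range emb) :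
    Xi z θ = 1 / (M : ℂ) * ∑ i ∈ Finset.range M, ∑ j ∈ Finset.range M,
      Complex.exp (2 * Real.pi * Complex.I * (((θ * (z + emb ⟨i, j⟩)).re : ℝ) : ℂ))
        * E1 ((z + emb ⟨i, j⟩) / M) := by
  have hM0 : (M : ℂ) ≠ 0 := by exact_mod_cast hM.ne'
  have hMr : 0 < (M : ℝ) ^ 2 := by positivity
  have hint : ∀ i j : ℕ, IntegrableOn (fun u : ℝ =>
      Complex.exp (2 * Real.pi * Complex.I * (((θ * (z + emb ⟨i, j⟩)).re : ℝ) : ℂ))
        * M * Tk 1 ((M : ℝ) ^ 2 * u) ((z + emb ⟨i, j⟩) / M)) (Ioi 0) := by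
    intro i j
    refine Integrable.const_mul ?_ _
    have h1 := Tk_int 1 (Or.inl rfl) _ (hz1 ⟨i, j⟩)
    have h2 := (integrableOn_Ioi_comp_mul_left_iff
      (fun u : ℝ => Tk 1 u ((z + emb ⟨i, j⟩) / M)) 0 hMr).2 (by rw [mul_zero]; exact h1)
    exact h2
  have hval : ∀ i j : ℕ, ∫ u in Ioi (0 : ℝ),
      Complex.exp (2 * Real.pi * Complex.I * (((θ * (z + emb ⟨i, j⟩)).re : ℝ) : ℂ))
        * M * Tk 1 ((M : ℝ) ^ 2 * u) ((z + emb ⟨i, j⟩) / M) =
      Complex.exp (2 * Real.pi * Complex.I * (((θ * (z + emb ⟨i, j⟩)).re : ℝ) : ℂ))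
        * (1 / (M : ℂ)) * ∫ u in Ioi (0 : ℝ), Tk 1 u ((z + emb ⟨i, j⟩) / M) := by
    intro i j
    rw [integral_const_mul, integral_comp_mul_left_Ioi
      (fun u : ℝ => Tk 1 u ((z + emb ⟨i, j⟩) / M)) 0 hMr, mul_zero, Complex.real_smul]
    push_cast
    field_simp
  rw [Xi, setIntegral_congr_fun measurableSet_Ioi (fun u hu => g2b_T1_dist M hM θ z hθ hu),
    integral_finsetSum _ fun i _ => integrable_finsetSum _ fun j _ => hint i j]
  rw [Finset.mul_sum, Finset.mul_sum]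
  refine Finset.sum_congr rfl fun i _ => ?_
  rw [integral_finsetSum _ fun j _ => hint i j, Finset.mul_sum, Finset.mul_sum]
  refine Finset.sum_congr rfl fun j _ => ?_
  rw [hval, E1]
  ring

/-! ### torsion points -/

theorem g2b_off (N : ℕ) (hN : 0 < N) (z : ℂ) (hz0 : z ∉ Set.range emb) (a : Eis) :
    (z + emb a) / N ∉ Set.range emb := by
  have hN0 : (N : ℂ) ≠ 0 := by exact_mod_cast hN.ne'
  rintro ⟨c, hc⟩
  apply hz0
  refine ⟨N * c - a, ?_⟩
  rw [map_sub, map_mul, map_natCast, hc]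
  field_simp
  ring

/-- `Re (θ (z + a)) ∈ ℤ / N²` -/
theorem g2b_rat (N : ℕ) (θ z : ℂ) (hz : (N : ℂ) * z ∈ Set.range emb) (hθ : (N : ℂ) * θ ∈ Dl)
    (a : Eis) : ∃ m : ℤ, (N : ℝ) ^ 2 * (θ * (z + emb a)).re = m := by
  obtain ⟨c, hc⟩ := hz
  obtain ⟨m, hm⟩ := hθ (c + N * a)
  refine ⟨m, ?_⟩
  rw [← hm, map_add, map_mul, map_natCast, hc, ← Complex.re_ofReal_mul]
  congr 1
  push_cast
  ring

theorem g2b_root (N : ℕ) (θ z : ℂ) (hz : (N : ℂ) * z ∈ Set.range emb) (hθ : (N : ℂ) * θ ∈ Dl)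
    (a : Eis) : Complex.exp (2 * Real.pi * Complex.I * (((θ * (z + emb a)).re : ℝ) : ℂ)) ^ (N ^ 2)
      = 1 := by
  obtain ⟨m, hm⟩ := g2b_rat N θ z hz hθ a
  rw [← Complex.exp_nat_mul]
  have h1 : ((N ^ 2 : ℕ) : ℂ) * (2 * Real.pi * Complex.I * (((θ * (z + emb a)).re : ℝ) : ℂ)) =
      m * (2 * Real.pi * Complex.I) := by
    have h2 : ((N : ℂ)) ^ 2 * (((θ * (z + emb a)).re : ℝ) : ℂ) = m := by exact_mod_cast hm
    push_cast
    linear_combination (2 * Real.pi * Complex.I) * h2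
  rw [h1, Complex.exp_int_mul_two_pi_mul_I]

theorem g2b_val_root (A : ValuationSubring ℂ) (ζ : ℂ) (N : ℕ) (hN : N ≠ 0) (h : ζ ^ N = 1) :
    A.valuation ζ ≤ 1 := by
  have h1 : A.valuation ζ ^ N = 1 := by rw [← map_pow, h, map_one]
  by_contra hlt
  push Not at hlt
  exact (one_lt_pow₀ hlt hN).ne' h1

theorem Xi_val (A : ValuationSubring ℂ) (hA : A.valuation 2 < 1) (N : ℕ) (hN : Odd N) (z θ : ℂ)
    (hz : (N : ℂ) * z ∈ Set.range emb) (hz0 : z ∉ Set.range emb) (hθ : (N : ℂ) * θ ∈ Dl) :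
    A.valuation (Xi z θ / OmC) ≤ 1 := by
  have hN0 : (N : ℂ) ≠ 0 := by exact_mod_cast hN.pos.ne'
  have hoff := g2b_off N hN.pos z hz0
  rw [Xi_dist N hN.pos θ z hθ hz0 hoff, mul_div_assoc, Finset.sum_div, map_mul]
  have h1 : A.valuation (1 / (N : ℂ)) = 1 := by
    have h2 := val_odd A hA N (by exact_mod_cast hN)
    rw [Int.cast_natCast] at h2
    rw [map_div₀, map_one, h2, div_one]
  rw [h1, one_mul]
  apply Valuation.map_sum_le
  intro i _
  rw [Finset.sum_div]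
  apply Valuation.map_sum_le
  intro j _
  rw [mul_div_assoc, map_mul]
  refine mul_le_one' ?_ ?_
  · exact g2b_val_root A _ (N ^ 2) (pow_ne_zero _ hN.pos.ne') (g2b_root N θ z hz hθ _)
  · refine E1_val A hA (N ^ 2) (hN.pow) _ ?_ (hoff _)
    obtain ⟨c, hc⟩ := hz
    refine ⟨c + N * ⟨(i : ℤ), (j : ℤ)⟩, ?_⟩
    rw [map_add, map_mul, map_natCast, hc]
    push_cast
    field_simp

/-! ### Galois action -/

/-- Representatives. -/
def g2b_lift (M : ℕ) (x : ZMod M × ZMod M) : Eis := ⟨(x.1.val : ℤ), (x.2.val : ℤ)⟩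

/-- Reduction. -/
def g2b_rd (M : ℕ) (a : Eis) : ZMod M × ZMod M := ((a.re : ZMod M), (a.im : ZMod M))

theorem g2b_rd_lift (M : ℕ) [NeZero M] (x : ZMod M × ZMod M) : g2b_rd M (g2b_lift M x) = x := by
  obtain ⟨x, y⟩ := x
  simp [g2b_rd, g2b_lift]

theorem g2b_rd_eq (M : ℕ) {a b : Eis} (h : g2b_rd M a = g2b_rd M b) :
    ∃ c : Eis, a = b + M * c := by
  simp only [g2b_rd, Prod.mk.injEq] at h
  obtain ⟨h3, h4⟩ := h
  have h5 : (M : ℤ) ∣ a.re - b.re := by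
    rw [← ZMod.intCast_zmod_eq_zero_iff_dvd]
    push_cast
    rw [h3, sub_self]
  have h6 : (M : ℤ) ∣ a.im - b.im := by
    rw [← ZMod.intCast_zmod_eq_zero_iff_dvd]
    push_cast
    rw [h4, sub_self]
  obtain ⟨p, hp⟩ := h5
  obtain ⟨q, hq⟩ := h6
  refine ⟨⟨p, q⟩, ?_⟩
  ext
  · simp only [QuadraticAlgebra.re_add, QuadraticAlgebra.re_mul, QuadraticAlgebra.re_natCast,
      QuadraticAlgebra.im_natCast]
    linarith
  · simp only [QuadraticAlgebra.im_add, QuadraticAlgebra.im_mul, QuadraticAlgebra.re_natCast,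
      QuadraticAlgebra.im_natCast]
    linarith

theorem g2b_rd_add (M : ℕ) (a c : Eis) : g2b_rd M (a + M * c) = g2b_rd M a := by
  simp [g2b_rd]

theorem g2b_sum_lift (M : ℕ) [NeZero M] (F : Eis → ℂ) :
    ∑ i ∈ Finset.range M, ∑ j ∈ Finset.range M, F ⟨(i : ℤ), (j : ℤ)⟩ =
      ∑ x : ZMod M × ZMod M, F (g2b_lift M x) := by
  obtain ⟨m, rfl⟩ : ∃ m, M = m + 1 := ⟨M - 1, by have := NeZero.pos M; omega⟩
  rw [Fintype.sum_prod_type]
  rw [← Fin.sum_univ_eq_sum_range (fun i => ∑ j ∈ Finset.range (m + 1),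
      F ⟨(i : ℤ), (j : ℤ)⟩) (m + 1)]
  refine Finset.sum_congr rfl fun i _ => ?_
  rw [← Fin.sum_univ_eq_sum_range (fun j => F ⟨((i : ℕ) : ℤ), (j : ℤ)⟩) (m + 1)]
  rfl

theorem g2b_perm (M : ℕ) (hM : 0 < M) (u : Eis) (hu : IsCoprime u (M : Eis)) (F : Eis → ℂ)
    (hF : ∀ a c : Eis, F (a + M * c) = F a) :
    ∑ i ∈ Finset.range M, ∑ j ∈ Finset.range M, F (u * ⟨(i : ℤ), (j : ℤ)⟩) =
      ∑ i ∈ Finset.range M, ∑ j ∈ Finset.range M, F ⟨(i : ℤ), (j : ℤ)⟩ := by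
  have : NeZero M := ⟨hM.ne'⟩
  rw [g2b_sum_lift M (fun a => F (u * a)), g2b_sum_lift M F]
  have hinj : Function.Injective fun x : ZMod M × ZMod M => g2b_rd M (u * g2b_lift M x) := by
    intro x y h
    obtain ⟨c, hc⟩ := g2b_rd_eq M h
    obtain ⟨p, q, hpq⟩ := hu
    have h1 : g2b_lift M x = g2b_lift M y +
        M * (p * c + q * (g2b_lift M x - g2b_lift M y)) := by
      linear_combination p * hc - (g2b_lift M x - g2b_lift M y) * hpq
    have h2 := g2b_rd_add M (g2b_lift M y) (p * c + q * (g2b_lift M x - g2b_lift M y))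
    rw [← h1, g2b_rd_lift, g2b_rd_lift] at h2
    exact h2
  have hbij := Finite.injective_iff_bijective.1 hinj
  rw [← (Equiv.ofBijective _ hbij).sum_comp (fun x => F (g2b_lift M x))]
  refine Finset.sum_congr rfl fun x _ => ?_
  simp only [Equiv.ofBijective_apply]
  have h3 : g2b_rd M (u * g2b_lift M x) =
      g2b_rd M (g2b_lift M (g2b_rd M (u * g2b_lift M x))) := (g2b_rd_lift M _).symm
  obtain ⟨c, hc⟩ := g2b_rd_eq M h3
  conv_lhs => rw [hc]
  exact hF _ _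

theorem g2b_Dl_mul {θ : ℂ} (h : θ ∈ Dl) (b : Eis) : emb b * θ ∈ Dl := by
  intro a
  obtain ⟨m, hm⟩ := h (b * a)
  refine ⟨m, ?_⟩
  rw [← hm, map_mul]
  congr 1
  ring

theorem Xi_gal (σ : ℂ ≃+* ℂ) (hσ : σ w = w) (N : ℕ) (hN : Odd N) (u : Eis)
    (hu : IsCoprime u (N : Eis))
    (hσu : ∀ c : Eis, ptMap (σ : ℂ →+* ℂ) (pt (emb c / N)) = pt (emb (c * u) / N))
    (k : ℕ) (hσζ : ∀ ζ : ℂ, ζ ^ N = 1 → σ ζ = ζ ^ k) (v : Eis) (huv : (N : Eis) ∣ v * u - k)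
    (N₁ : ℕ) (hN₁ : N₁ ^ 2 ∣ N) (z θ : ℂ)
    (hz : (N₁ : ℂ) * z ∈ Set.range emb) (hz0 : z ∉ Set.range emb) (hθ : (N₁ : ℂ) * θ ∈ Dl) :
    σ (Xi z θ / OmC) = Xi (emb u * z) (emb v * θ) / OmC := by
  have hN1 : 0 < N₁ := by
    rcases Nat.eq_zero_or_pos N₁ with h | h
    · subst h
      rw [zero_pow two_ne_zero, zero_dvd_iff] at hN₁
      rw [hN₁] at hN
      exact absurd hN (by decide)
    · exact h
  have hN10 : (N₁ : ℂ) ≠ 0 := by exact_mod_cast hN1.ne'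
  obtain ⟨t, ht⟩ := hN₁
  have hdvd : ((N₁ : ℕ) : Eis) ∣ (N : Eis) := ⟨(N₁ * t : ℕ), by rw [ht]; push_cast; ring⟩
  have hu1 : IsCoprime u (N₁ : Eis) := hu.of_isCoprime_of_dvd_right hdvd
  obtain ⟨hz', hz0'⟩ := a10_u N₁ u hu1 z hz hz0
  have hθ' : (N₁ : ℂ) * (emb v * θ) ∈ Dl := by
    have h1 := g2b_Dl_mul hθ v
    convert h1 using 1
    ring
  have hoff := g2b_off N₁ hN1 z hz0
  have hoff' := g2b_off N₁ hN1 _ hz0'
  rw [Xi_dist N₁ hN1 θ z hθ hz0 hoff,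
    Xi_dist N₁ hN1 (emb v * θ) (emb u * z) hθ' hz0' hoff']
  rw [mul_div_assoc, mul_div_assoc, map_mul, map_div₀, map_one, map_natCast]
  congr 1
  -- the function on classes
  set F : Eis → ℂ := fun a => Complex.exp (2 * Real.pi * Complex.I *
    (((emb v * θ * (emb u * z + emb a)).re : ℝ) : ℂ)) * E1 ((emb u * z + emb a) / N₁)
    with hFdef
  have hF : ∀ a c : Eis, F (a + N₁ * c) = F a := by
    intro a c
    have h1 : emb u * z + emb (a + N₁ * c) = emb u * z + emb a + N₁ * emb c := by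
      rw [map_add, map_mul, map_natCast]; ring
    have h2 : (emb u * z + emb a + N₁ * emb c) / N₁ = (emb u * z + emb a) / N₁ + emb c := by
      field_simp
    simp only [hFdef]
    rw [h1, g2b_exp_add hθ', h2, E1_per]
  rw [← g2b_perm N₁ hN1 u hu1 F hF, Finset.sum_div, map_sum, Finset.sum_div]
  refine Finset.sum_congr rfl fun i _ => ?_
  rw [Finset.sum_div, map_sum, Finset.sum_div]
  refine Finset.sum_congr rfl fun j _ => ?_
  set a : Eis := ⟨(i : ℤ), (j : ℤ)⟩ with ha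
  simp only [hFdef]
  have e1 : emb u * z + emb (u * a) = emb u * (z + emb a) := by rw [map_mul]; ring
  have hroot := g2b_root N₁ θ z hz hθ a
  have hrootN : Complex.exp (2 * Real.pi * Complex.I * (((θ * (z + emb a)).re : ℝ) : ℂ)) ^ N = 1 := by
    rw [ht, pow_mul, hroot, one_pow]
  have hE := E1_gal σ hσ N hN u hu hσu ((z + emb a) / N₁) (by
    obtain ⟨c, hc⟩ := hz
    refine ⟨t * (c + N₁ * a), ?_⟩
    rw [map_mul, map_add, map_mul, map_natCast, map_natCast, hc, ht]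
    push_cast
    field_simp) (hoff a)
  rw [e1, mul_div_assoc, map_mul, hσζ _ hrootN, hE, mul_div_assoc]
  have e2 : emb u * ((z + emb a) / N₁) = emb u * (z + emb a) / N₁ := by ring
  rw [e2]
  congr 1
  rw [← Complex.exp_nat_mul]
  obtain ⟨c', hc'⟩ := huv
  have huv' : emb v * emb u = (k : ℂ) + (N : ℂ) * emb c' := by
    have h := congrArg emb hc'
    rw [map_sub, map_mul, map_mul, map_natCast, map_natCast] at h
    linear_combination h
  obtain ⟨c, hc⟩ := hz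
  obtain ⟨l, hl⟩ := hθ ((t : Eis) * c' * (c + N₁ * a))
  have h1 : emb v * θ * (emb u * (z + emb a)) = ((k : ℝ) : ℂ) * (θ * (z + emb a))
      + (N₁ : ℂ) * θ * emb ((t : Eis) * c' * (c + N₁ * a)) := by
    rw [map_mul, map_mul, map_add, map_mul, map_natCast, map_natCast, hc, ht] at *
    push_cast at huv' ⊢
    linear_combination (θ * (z + emb a)) * huv'
  rw [h1, Complex.add_re, Complex.re_ofReal_mul, hl]
  push_cast
  have h3 : (2 : ℂ) * Real.pi * Complex.I * ((k : ℂ) * (((θ * (z + emb a)).re : ℝ) : ℂ) + (l : ℂ))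
      = (k : ℂ) * (2 * Real.pi * Complex.I * (((θ * (z + emb a)).re : ℝ) : ℂ))
        + (l : ℂ) * (2 * Real.pi * Complex.I) := by ring
  rw [h3, Complex.exp_add, Complex.exp_int_mul_two_pi_mul_I, mul_one]

end NG
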