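import Pool.Agent.MP_9ab903_nt.NG.G1b

/-! ## [NG-G3] summability and continuity of the theta functions

Everything is dominated by products of one-dimensional sums (`Ak_summable`, `PD_bounds`; `Summable.prod`/`summable over Fin n → Eis`:
induction on `n` with `Fin.consEquiv`/`Fin.insertNthEquiv`, or comparison with `∑_m exp(-c ∑ |m_i|²)`). -/

set_option autoImplicit false

open scoped ComplexConjugate Matrix
open MeasureTheory Set Filter Topology

namespace NG

open CM27 NAB

variable {n : ℕ}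

theorem g3_prod_summable : ∀ (n : ℕ) (f : Fin n → Eis → ℝ), (∀ i a, 0 ≤ f i a) →
    (∀ i, Summable (f i)) → Summable fun m : Fin n → Eis => ∏ i, f i (m i) := by
  intro n
  induction n with
  | zero =>
    intro f _ _
    exact Summable.of_finite
  | succ n ih =>
    intro f h0 h1
    rw [← (Fin.consEquiv fun _ => Eis).summable_iff]
    have h2 := (h1 0).mul_of_nonneg (ih (fun i => f i.succ) (fun i a => h0 _ _) (fun i => h1 _))
      (fun a => h0 _ _) (fun m => Finset.prod_nonneg fun i _ => h0 _ _)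
    refine h2.congr fun p => ?_
    simp only [Function.comp_apply, Fin.consEquiv_apply, Fin.prod_univ_succ, Fin.cons_zero,
      Fin.cons_succ]

theorem g3_one_add_sum (v : Fin n → ℂ) : 1 + nrm v ≤ ∏ i, (1 + ‖v i‖ ^ 2) := by
  have h : ∀ s : Finset (Fin n), 1 + ∑ i ∈ s, ‖v i‖ ^ 2 ≤ ∏ i ∈ s, (1 + ‖v i‖ ^ 2) := by
    classical
    intro s
    induction s using Finset.induction_on with
    | empty => simp
    | insert a s ha ih =>
      rw [Finset.sum_insert ha, Finset.prod_insert ha]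
      have h1 : 0 ≤ ∑ i ∈ s, ‖v i‖ ^ 2 := Finset.sum_nonneg fun i _ => by positivity
      have h2 : 0 ≤ ‖v a‖ ^ 2 := by positivity
      calc 1 + (‖v a‖ ^ 2 + ∑ i ∈ s, ‖v i‖ ^ 2)
          ≤ (1 + ‖v a‖ ^ 2) * (1 + ∑ i ∈ s, ‖v i‖ ^ 2) := by nlinarith
        _ ≤ _ := mul_le_mul_of_nonneg_left ih (by positivity)
  exact h Finset.univ

theorem g3_nrm_summable (k : ℕ) {s : ℝ} (hs : 0 < s) (x : Fin n → ℂ) :
    Summable fun m : Fin n → Eis => (1 + nrm (x + em m)) ^ k
      * Real.exp (-(Real.pi * s * nrm (x + em m))) := by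
  have h1 := g3_prod_summable n
    (fun i a => (1 + ‖x i + emb a‖ ^ 2) ^ k * Real.exp (-(Real.pi * s * ‖x i + emb a‖ ^ 2)))
    (fun i a => by positivity) (fun i => a3a_one k hs (x i))
  refine Summable.of_nonneg_of_le (fun m => ?_) (fun m => ?_) h1
  · have := nrm_nonneg (x + em m)
    positivity
  · rw [Finset.prod_mul_distrib, Finset.prod_pow, ← Real.exp_sum]
    refine mul_le_mul ?_ (le_of_eq ?_) (Real.exp_pos _).le
      (pow_nonneg (Finset.prod_nonneg fun i _ => by positivity) _)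
    · exact pow_le_pow_left₀ (by have := nrm_nonneg (x + em m); positivity)
        (g3_one_add_sum (x + em m)) k
    · congr 1
      rw [Finset.sum_neg_distrib, ← Finset.mul_sum]
      rfl

theorem th_summable {P : Mc n} (hP : PD P) (k : ℕ) (x : Fin n → ℂ) :
    Summable fun m : Fin n → Eis => (1 + nrm (x + em m)) ^ k
      * Real.exp (-(Real.pi * hq P (x + em m))) := by
  obtain ⟨c, hc, hb⟩ := PD_bounds hP
  have hc0 : 0 < c := by linarith
  refine Summable.of_nonneg_of_le (fun m => ?_) (fun m => ?_)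
    (g3_nrm_summable k (show (0 : ℝ) < 1 / c by positivity) x)
  · have := nrm_nonneg (x + em m)
    positivity
  · have h0 := nrm_nonneg (x + em m)
    apply mul_le_mul_of_nonneg_left _ (by positivity)
    apply Real.exp_le_exp.2
    have h1 := (hb (x + em m)).1
    have h2 : Real.pi * (1 / c) * nrm (x + em m) = Real.pi * (nrm (x + em m) / c) := by ring
    rw [h2]
    have := mul_le_mul_of_nonneg_left h1 Real.pi_pos.le
    linarith

theorem g3_norm_mo (k : Fin n → ℕ) (v : Fin n → ℂ) : ‖mo k v‖ ≤ (1 + nrm v) ^ (∑ i, k i) := by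
  rw [mo, norm_prod, ← Finset.prod_pow_eq_pow_sum]
  refine Finset.prod_le_prod (fun i _ => norm_nonneg _) fun i _ => ?_
  rw [norm_pow, Complex.norm_conj]
  refine pow_le_pow_left₀ (norm_nonneg _) ?_ _
  have h1 : ‖v i‖ ^ 2 ≤ nrm v :=
    Finset.single_le_sum (f := fun i => ‖v i‖ ^ 2) (fun i _ => by positivity) (Finset.mem_univ i)
  nlinarith [sq_nonneg (‖v i‖ - 1), norm_nonneg (v i)]

theorem g3_norm_term (k : Fin n → ℕ) (w v : Fin n → ℂ) (P : Mc n) :
    ‖ch w v * mo k v * ((Real.exp (-(Real.pi * hq P v)) : ℝ) : ℂ)‖ ≤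
      (1 + nrm v) ^ (∑ i, k i) * Real.exp (-(Real.pi * hq P v)) := by
  rw [norm_mul, norm_mul, norm_ch, one_mul, Complex.norm_real, Real.norm_eq_abs, Real.abs_exp]
  exact mul_le_mul_of_nonneg_right (g3_norm_mo k v) (Real.exp_pos _).le

theorem mo_summable {P : Mc n} (hP : PD P) (k : Fin n → ℕ) (w x : Fin n → ℂ) :
    Summable fun m : Fin n → Eis => ch w (x + em m) * mo k (x + em m)
      * ((Real.exp (-(Real.pi * hq P (x + em m))) : ℝ) : ℂ) :=
  Summable.of_norm_bounded (th_summable hP (∑ i, k i) x) fun m => g3_norm_term k w (x + em m) P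

/-- The monomials of degree `n`. -/
def deg (n : ℕ) : Finset (Fin n → ℕ) :=
  (Fintype.piFinset fun _ => Finset.range (n + 1)).filter fun k => ∑ i, k i = n

/-- the exponents of a product of coordinates -/
def g3_cnt (f : Fin n → Fin n) : Fin n → ℕ := fun l => (Finset.univ.filter fun i => f i = l).card

theorem g3_cnt_mem (f : Fin n → Fin n) : g3_cnt f ∈ deg n := by
  unfold deg
  rw [Finset.mem_filter, Fintype.mem_piFinset]
  refine ⟨fun l => ?_, ?_⟩
  · rw [Finset.mem_range, Nat.lt_succ_iff]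
    unfold g3_cnt
    exact (Finset.card_filter_le _ _).trans (by simp)
  · have h1 := Finset.card_eq_sum_card_fiberwise (s := Finset.univ) (t := Finset.univ) (f := f)
      (fun _ _ => Finset.mem_coe.2 (Finset.mem_univ _))
    rw [Finset.card_univ, Fintype.card_fin] at h1
    exact h1.symm

theorem g3_mo_cnt (f : Fin n → Fin n) (v : Fin n → ℂ) :
    ∏ i, conj (v (f i)) = mo (g3_cnt f) v := by
  unfold mo g3_cnt
  rw [← Finset.prod_fiberwise' Finset.univ f (fun l => conj (v l))]
  refine Finset.prod_congr rfl fun l _ => ?_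
  rw [Finset.prod_const]

/-- the expansion of a product of linear forms -/
theorem g3_expand (a : Fin n → Fin n → ℂ) (v : Fin n → ℂ) :
    ∏ j, conj (∑ l, a j l * v l) =
      ∑ f : Fin n → Fin n, (∏ j, conj (a j (f j))) * mo (g3_cnt f) v := by
  have h1 : ∀ j, conj (∑ l, a j l * v l) = ∑ l, conj (a j l) * conj (v l) := by
    intro j
    rw [map_sum]
    simp only [map_mul]
  simp only [h1]
  rw [Finset.prod_univ_sum, Fintype.piFinset_univ]
  refine Finset.sum_congr rfl fun f _ => ?_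
  rw [Finset.prod_mul_distrib, g3_mo_cnt]

theorem g3_regroup (b : (Fin n → Fin n) → ℂ) (v : Fin n → ℂ) :
    ∑ f : Fin n → Fin n, b f * mo (g3_cnt f) v =
      ∑ k ∈ deg n, (∑ f ∈ Finset.univ.filter (fun f => g3_cnt f = k), b f) * mo k v := by
  rw [← Finset.sum_fiberwise_of_maps_to (s := Finset.univ) (t := deg n) (g := g3_cnt)
    (fun f _ => g3_cnt_mem f)]
  refine Finset.sum_congr rfl fun k _ => ?_
  rw [Finset.sum_mul]
  refine Finset.sum_congr rfl fun f hf => ?_
  rw [(Finset.mem_filter.1 hf).2]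

/-- The coefficients of `nu Q`. -/
theorem nu_poly (n : ℕ) : ∃ c : (Fin n → ℕ) → (Fin n → Mc n) → ℂ, (∀ k, Continuous (c k)) ∧
    ∀ (Q : Fin n → Mc n) (v : Fin n → ℂ), nu Q v = ∑ k ∈ deg n, c k Q * mo k v := by
  refine ⟨fun k Q => ∑ f ∈ Finset.univ.filter (fun f : Fin n → Fin n => g3_cnt f = k),
    ∑ σ : Equiv.Perm (Fin n), ((Equiv.Perm.sign σ : ℤ) : ℂ) * ∏ j, conj (Q j (σ j) (f j)),
    ?_, ?_⟩
  · intro k
    refine continuous_finsetSum _ fun f _ => continuous_finsetSum _ fun σ _ => ?_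
    refine continuous_const.mul (continuous_finsetProd _ fun j _ => ?_)
    refine Complex.continuous_conj.comp ?_
    exact (continuous_apply j).matrix_elem (σ j) (f j)
  · intro Q v
    rw [← g3_regroup, nu, Matrix.det_apply, map_sum]
    have h1 : ∀ σ : Equiv.Perm (Fin n), conj (Equiv.Perm.sign σ •
        ∏ i, (Matrix.of fun i j => (Q j *ᵥ v) i) (σ i) i) =
        ∑ f : Fin n → Fin n, ((Equiv.Perm.sign σ : ℤ) : ℂ) *
          ((∏ j, conj (Q j (σ j) (f j))) * mo (g3_cnt f) v) := by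
      intro σ
      rw [Units.smul_def, zsmul_eq_mul, map_mul, map_prod, ← Finset.mul_sum,
        ← g3_expand (fun j l => Q j (σ j) l) v]
      congr 1
      · simp
    simp only [h1]
    rw [Finset.sum_comm]
    refine Finset.sum_congr rfl fun f _ => ?_
    rw [Finset.sum_mul]
    refine Finset.sum_congr rfl fun σ _ => ?_
    ring

/-- The polynomial `∏ conj (L_j v)`. -/
theorem prod_poly (L : Mc n) : ∃ c : (Fin n → ℕ) → ℂ,
    ∀ v : Fin n → ℂ, ∏ j, conj (L j ⬝ᵥ v) = ∑ k ∈ deg n, c k * mo k v := by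
  refine ⟨fun k => ∑ f ∈ Finset.univ.filter (fun f : Fin n → Fin n => g3_cnt f = k),
    ∏ j, conj (L j (f j)), fun v => ?_⟩
  rw [← g3_regroup, ← g3_expand (fun j l => L j l) v]
  rfl

theorem g3_nu_terms {P : Mc n} (hP : PD P) (c : (Fin n → ℕ) → ℂ) (p : (Fin n → ℂ) → ℂ)
    (hp : ∀ v, p v = ∑ k ∈ deg n, c k * mo k v) (w x : Fin n → ℂ) :
    (Summable fun m : Fin n → Eis => ch w (x + em m) * p (x + em m)
      * ((Real.exp (-(Real.pi * hq P (x + em m))) : ℝ) : ℂ)) ∧
    th w x p P = ∑ k ∈ deg n, c k * th w x (mo k) P := by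
  have h1 : ∀ m : Fin n → Eis, ch w (x + em m) * p (x + em m)
      * ((Real.exp (-(Real.pi * hq P (x + em m))) : ℝ) : ℂ) =
      ∑ k ∈ deg n, c k * (ch w (x + em m) * mo k (x + em m)
      * ((Real.exp (-(Real.pi * hq P (x + em m))) : ℝ) : ℂ)) := by
    intro m
    rw [hp, Finset.mul_sum, Finset.sum_mul]
    refine Finset.sum_congr rfl fun k _ => ?_
    ring
  constructor
  · simp only [h1]
    exact summable_sum fun k _ => (mo_summable hP k w x).mul_left _
  · unfold th
    simp only [h1]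
    rw [Summable.tsum_finsetSum fun k _ => (mo_summable hP k w x).mul_left _]
    refine Finset.sum_congr rfl fun k _ => ?_
    rw [tsum_mul_left]

theorem nu_summable {P : Mc n} (hP : PD P) (Q : Fin n → Mc n) (w x : Fin n → ℂ) :
    Summable fun m : Fin n → Eis => ch w (x + em m) * nu Q (x + em m)
      * ((Real.exp (-(Real.pi * hq P (x + em m))) : ℝ) : ℂ) := by
  obtain ⟨c, -, hc⟩ := nu_poly n
  exact (g3_nu_terms hP (fun k => c k Q) (nu Q) (hc Q) w x).1

theorem g3_diff (P P₀ : Mc n) (δ : ℝ) (hδ : 0 ≤ δ) (hd : ∀ i j, ‖P i j - P₀ i j‖ ≤ δ)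
    (v : Fin n → ℂ) : hq P₀ v - n * δ * nrm v ≤ hq P v := by
  have e : hq P v = hq P₀ v + hq (P - P₀) v := by
    rw [← hq_add]
    congr 1
    abel
  have h1 : hq (P - P₀) v = (∑ i, ∑ j, conj (v i) * ((P - P₀) i j * v j)).re := by
    unfold hq
    simp only [dotProduct, Matrix.mulVec, Finset.mul_sum, Pi.star_apply, RCLike.star_def]
  have h2 : ‖∑ i, ∑ j, conj (v i) * ((P - P₀) i j * v j)‖ ≤ n * δ * nrm v := by
    calc ‖∑ i, ∑ j, conj (v i) * ((P - P₀) i j * v j)‖
        ≤ ∑ i : Fin n, ∑ j : Fin n, δ * ((‖v i‖ ^ 2 + ‖v j‖ ^ 2) / 2) := by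
          refine (norm_sum_le _ _).trans (Finset.sum_le_sum fun i _ => ?_)
          refine (norm_sum_le _ _).trans (Finset.sum_le_sum fun j _ => ?_)
          rw [norm_mul, norm_mul, Complex.norm_conj]
          have h3 : ‖(P - P₀) i j‖ ≤ δ := hd i j
          have h4 : ‖v i‖ * ‖v j‖ ≤ (‖v i‖ ^ 2 + ‖v j‖ ^ 2) / 2 := by
            nlinarith [sq_nonneg (‖v i‖ - ‖v j‖)]
          calc ‖v i‖ * (‖(P - P₀) i j‖ * ‖v j‖) = ‖(P - P₀) i j‖ * (‖v i‖ * ‖v j‖) := by ring
            _ ≤ δ * ((‖v i‖ ^ 2 + ‖v j‖ ^ 2) / 2) :=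
              mul_le_mul h3 h4 (by positivity) hδ
      _ = n * δ * nrm v := by
          have e1 : ∀ i j : Fin n, δ * ((‖v i‖ ^ 2 + ‖v j‖ ^ 2) / 2) =
              δ / 2 * ‖v i‖ ^ 2 + δ / 2 * ‖v j‖ ^ 2 := fun i j => by ring
          simp only [e1, Finset.sum_add_distrib, Finset.sum_const, Finset.card_univ,
            Fintype.card_fin, nsmul_eq_mul, ← Finset.mul_sum]
          unfold nrm
          ring
  have h5 := (abs_le.1 ((Complex.abs_re_le_norm _).trans h2)).1
  rw [e, h1]
  linarith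

theorem g3_hq_cont (v : Fin n → ℂ) : Continuous fun P : Mc n => hq P v := by
  unfold hq
  refine Complex.continuous_re.comp ?_
  exact continuous_const.dotProduct (continuous_id.matrix_mulVec continuous_const)

theorem th_cont (k : Fin n → ℕ) (w x : Fin n → ℂ) :
    ContinuousOn (fun P : Mc n => th w x (mo k) P) {P | PD P} := by
  intro P₀ hP₀
  obtain ⟨c, hc, hb⟩ := PD_bounds hP₀
  have hc0 : 0 < c := by linarith
  have hsum := g3_nrm_summable (∑ i, k i) (show (0 : ℝ) < 1 / (2 * c) by positivity) x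
  unfold ContinuousWithinAt th
  refine tendsto_tsum_of_dominated_convergence hsum ?_ ?_
  · intro m
    refine Tendsto.mono_left ?_ nhdsWithin_le_nhds
    refine Continuous.tendsto ?_ P₀
    refine continuous_const.mul ?_
    refine Complex.continuous_ofReal.comp ?_
    exact Real.continuous_exp.comp ((continuous_const.mul (g3_hq_cont _)).neg)
  · refine Filter.Eventually.filter_mono nhdsWithin_le_nhds ?_
    have hδ : (0 : ℝ) < 1 / (2 * c * (n + 1)) := by positivity
    have hev : ∀ᶠ P : Mc n in 𝓝 P₀, ∀ i j, ‖P i j - P₀ i j‖ < 1 / (2 * c * (n + 1)) := by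
      refine Filter.eventually_all.2 fun i => Filter.eventually_all.2 fun j => ?_
      have h1 : Continuous fun P : Mc n => ‖P i j - P₀ i j‖ :=
        ((continuous_id.matrix_elem i j).sub continuous_const).norm
      have h2 : ‖P₀ i j - P₀ i j‖ < 1 / (2 * c * (n + 1)) := by
        rw [sub_self, norm_zero]
        exact hδ
      exact h1.continuousAt.eventually (gt_mem_nhds h2)
    filter_upwards [hev] with P hP m
    refine (g3_norm_term k w (x + em m) P).trans ?_
    refine mul_le_mul_of_nonneg_left ?_ (by have := nrm_nonneg (x + em m); positivity)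
    apply Real.exp_le_exp.2
    apply neg_le_neg
    rw [mul_assoc]
    apply mul_le_mul_of_nonneg_left _ Real.pi_pos.le
    have h1 := g3_diff P P₀ _ hδ.le (fun i j => (hP i j).le) (x + em m)
    have h2 := (hb (x + em m)).1
    have h3 := nrm_nonneg (x + em m)
    have h4 : (n : ℝ) * (1 / (2 * c * (n + 1))) ≤ 1 / (2 * c) := by
      rw [mul_one_div, div_le_div_iff₀ (by positivity) (by positivity)]
      nlinarith
    have h5 := mul_le_mul_of_nonneg_right h4 h3
    have h6 : nrm (x + em m) / c = 1 / (2 * c) * nrm (x + em m) + 1 / (2 * c) * nrm (x + em m) := by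
      field_simp
      ring
    linarith

theorem th_nu (w x : Fin n → ℂ) (c : (Fin n → ℕ) → ℂ) (p : (Fin n → ℂ) → ℂ)
    (hp : ∀ v, p v = ∑ k ∈ deg n, c k * mo k v) {P : Mc n} (hP : PD P) :
    th w x p P = ∑ k ∈ deg n, c k * th w x (mo k) P :=
  (g3_nu_terms hP c p hp w x).2

theorem th_nu_cont (w x : Fin n → ℂ) :
    ContinuousOn (fun q : (Fin n → Mc n) × Mc n => th w x (nu q.1) q.2) (univ ×ˢ {P | PD P}) := by
  obtain ⟨c, hcont, hc⟩ := nu_poly n
  have h1 : ContinuousOn (fun q : (Fin n → Mc n) × Mc n =>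
      ∑ k ∈ deg n, c k q.1 * th w x (mo k) q.2) (univ ×ˢ {P | PD P}) := by
    refine continuousOn_finsetSum _ fun k _ => ?_
    refine ((hcont k).comp continuous_fst).continuousOn.mul ?_
    exact (th_cont k w x).comp continuousOn_snd fun q hq => hq.2
  exact h1.congr fun q hq => th_nu w x (fun k => c k q.1) (nu q.1) (hc q.1) hq.2

end NG
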