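import Pool.Agent.MP_9ab903_nt.NG.G2a
import Pool.Agent.MP_9ab903_nt.NG.G3

/-! ## [NG-G4a] the uniform estimate in standard coordinates (`n ≥ 2`)

`P(v)` comparable to `∑ b_i |v_i|²`. Let `j` minimise `b`. Sum first over `v_j ∈ x_j + O`: with `H = P(e_j, e_j)` (`b_j/c ≤ H ≤ c b_j`),
`P(v) = H |v_j + β(v')|² + P'(v')` (Schur complement, `v'` the other coordinates), `P'(v') ≥ (1/c) ∑_{i≠j} b_i |v_i|²` (the minimum over `v_j`),
`H |β(v')|² ≤ P(0, v') ≤ c ∑_{i≠j} b_i|v_i|² ≤ c² P'(v')`. Expand `conj v_j ^ k = (conj(v_j+β) - conj β)^k`; the inner sums are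
`T1 i H (x_j + β) (w_j)` up to `e(- Re w_j β)`, bounded by `C e^{-κ/b_j}` (`T1_small`, `w_j ∉ Dl`). The outer sum of
`|β|^a |v'|^b e^{-π P'(v')}` is `≤ C (1 + 1/b_j)^M ∏_{i≠j} ∑ e^{-κ b_i |x_i + a|²}` and each factor is `≤ C (1 + 1/b_i) e^{-κ' b_i}`
(`Ak_bound_off`, `x_i ∉ O`). As `b_j` is minimal the powers of `1/b_i` are absorbed by `e^{-κ/b_j}`; `e^{-κ' b_i}`, `i ≠ j`, gives the
maximum (`n ≥ 2`). -/

set_option autoImplicit false

open scoped ComplexConjugate Matrix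
open MeasureTheory Set Filter Topology

namespace NG

open CM27 NAB

variable {n : ℕ}

/-! ### finitely many constants -/

theorem g4a_common {ι : Type*} (s : Finset ι) (C κ : ι → ℝ) (h : ∀ i ∈ s, 0 < C i ∧ 0 < κ i) :
    ∃ C' κ' : ℝ, 0 < C' ∧ 0 < κ' ∧ ∀ i ∈ s, C i ≤ C' ∧ κ' ≤ κ i := by
  classical
  induction s using Finset.induction_on with
  | empty => exact ⟨1, 1, one_pos, one_pos, fun i hi => absurd hi (Finset.notMem_empty i)⟩
  | insert a s ha ih =>
    obtain ⟨C', κ', h1, h2, h3⟩ := ih fun i hi => h i (Finset.mem_insert_of_mem hi)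
    have h4 := h a (Finset.mem_insert_self _ _)
    refine ⟨max C' (C a), min κ' (κ a), lt_max_of_lt_left h1, lt_min h2 h4.2, fun i hi => ?_⟩
    rcases Finset.mem_insert.1 hi with rfl | hi
    · exact ⟨le_max_right _ _, min_le_right _ _⟩
    · exact ⟨(h3 i hi).1.trans (le_max_left _ _), (min_le_left _ _).trans (h3 i hi).2⟩

/-- `(1 + y)^N e^{-α y}` is bounded -/
theorem g4a_poly (N : ℕ) {α : ℝ} (hα : 0 < α) : ∃ M : ℝ, 0 < M ∧ ∀ y : ℝ, 0 ≤ y →
    (1 + y) ^ N * Real.exp (-(α * y)) ≤ M := by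
  refine ⟨Real.exp α * (N.factorial / α ^ N), by positivity, fun y hy => ?_⟩
  have h1 := Real.pow_div_factorial_le_exp (x := α * (1 + y)) (by positivity) N
  rw [mul_pow, div_le_iff₀ (by positivity)] at h1
  have h2 : (1 + y) ^ N ≤ Real.exp (α * (1 + y)) * (N.factorial / α ^ N) := by
    rw [← mul_div_assoc, le_div_iff₀ (by positivity)]
    linarith
  calc (1 + y) ^ N * Real.exp (-(α * y))
      ≤ Real.exp (α * (1 + y)) * (N.factorial / α ^ N) * Real.exp (-(α * y)) := by gcongr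
    _ = Real.exp α * (N.factorial / α ^ N) := by
        rw [mul_right_comm, ← Real.exp_add]
        congr 2
        ring

/-! ### products of series -/

theorem g4a_prod {R : Type*} [NormedCommRing R] [CompleteSpace R] {ι : Type*} (r : ℕ) :
    ∀ (f : Fin r → ι → R), (∀ i, Summable fun a => ‖f i a‖) →
      (Summable fun t : Fin r → ι => ‖∏ i, f i (t i)‖) ∧
      ∑' t : Fin r → ι, ∏ i, f i (t i) = ∏ i, ∑' a, f i a := by
  induction r with
  | zero =>
    intro f _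
    refine ⟨Summable.of_finite, ?_⟩
    rw [tsum_eq_single (fun i => i.elim0) (fun b hb => absurd (Subsingleton.elim _ _) hb)]
    simp
  | succ r ih =>
    intro f hf
    obtain ⟨h1, h2⟩ := ih (fun i => f i.succ) (fun i => hf i.succ)
    have hp : ∀ q : ι × (Fin r → ι), ∏ i, f i ((Fin.consEquiv fun _ => ι) q i) =
        f 0 q.1 * ∏ i, f i.succ (q.2 i) := by
      intro q
      rw [Fin.prod_univ_succ]
      rfl
    constructor
    · rw [← (Fin.consEquiv fun _ => ι).summable_iff]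
      refine (Summable.mul_norm (hf 0) h1).congr fun q => ?_
      simp only [Function.comp]
      rw [hp q]
    · rw [← (Fin.consEquiv fun _ => ι).tsum_eq, tsum_congr hp, Fin.prod_univ_succ, ← h2]
      exact (tsum_mul_tsum_of_summable_norm (hf 0) h1).symm

/-! ### completing the square -/

theorem g4a_hq_add {P : Mc n} (hP : P.IsHermitian) (a b : Fin n → ℂ) :
    hq P (a + b) = hq P a + hq P b + 2 * (star a ⬝ᵥ (P *ᵥ b)).re := by
  have h1 : star a ⬝ᵥ (P *ᵥ b) = star (star b ⬝ᵥ (P *ᵥ a)) := by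
    rw [Matrix.dotProduct_mulVec]
    conv_lhs => rw [← hP.eq]
    rw [← Matrix.star_mulVec, Matrix.star_dotProduct]
  have h2 : (star b ⬝ᵥ (P *ᵥ a)).re = (star a ⬝ᵥ (P *ᵥ b)).re := by
    rw [h1]
    rfl
  unfold hq
  rw [star_add, Matrix.mulVec_add, add_dotProduct, dotProduct_add, dotProduct_add]
  simp only [Complex.add_re]
  rw [h2]
  ring

theorem g4a_hq_smul (P : Mc n) (z : ℂ) (v : Fin n → ℂ) : hq P (z • v) = ‖z‖ ^ 2 * hq P v := by
  unfold hq
  rw [Matrix.mulVec_smul, star_smul, smul_dotProduct, dotProduct_smul, smul_smul, smul_eq_mul]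
  have : star z * z = ((‖z‖ ^ 2 : ℝ) : ℂ) := by
    have h := Complex.mul_conj z
    rw [Complex.normSq_eq_norm_sq] at h
    rw [mul_comm]
    exact h
  rw [this, Complex.re_ofReal_mul]

theorem g4a_single_star (j : Fin n) (z : ℂ) (u : Fin n → ℂ) :
    star (Pi.single j z : Fin n → ℂ) ⬝ᵥ u = conj z * u j := by
  have : star (Pi.single j z : Fin n → ℂ) = Pi.single j (conj z) := by
    ext i
    by_cases h : i = j
    · subst h
      simp
    · simp [h]
  rw [this, single_dotProduct]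

theorem g4a_square {P : Mc n} (hP : P.IsHermitian) (j : Fin n) {H : ℝ}
    (hH : hq P (Pi.single j 1) = H) (hH0 : 0 < H) (z : ℂ) (w : Fin n → ℂ) :
    hq P (Pi.single j z + w) = H * ‖z + (P *ᵥ w) j / H‖ ^ 2 +
      (hq P w - ‖(P *ᵥ w) j‖ ^ 2 / H) := by
  have h1 : (Pi.single j z : Fin n → ℂ) = z • Pi.single j 1 := by
    ext i
    by_cases h : i = j
    · subst h
      simp
    · simp [h]
  rw [g4a_hq_add hP, g4a_single_star, h1, g4a_hq_smul, hH]
  set L : ℂ := (P *ᵥ w) j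
  have h2 : ‖z + L / H‖ ^ 2 = ‖z‖ ^ 2 + 2 * (conj z * L).re / H + ‖L‖ ^ 2 / H ^ 2 := by
    rw [← Complex.normSq_eq_norm_sq, ← Complex.normSq_eq_norm_sq, ← Complex.normSq_eq_norm_sq,
      Complex.normSq_add, Complex.normSq_div, Complex.normSq_ofReal, map_div₀,
      Complex.conj_ofReal]
    have h3 : z * (conj L / (H : ℂ)) = ((1 / H : ℝ) : ℂ) * conj (conj z * L) := by
      rw [map_mul, Complex.conj_conj]
      push_cast
      ring
    rw [h3, Complex.re_ofReal_mul, Complex.conj_re]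
    ring
  rw [h2]
  field_simp
  ring

/-! ### decomposition of the coordinates -/

theorem g4a_split {r : ℕ} (j : Fin (r + 1)) (x : Fin (r + 1) → ℂ) (a : Eis) (t : Fin r → Eis) :
    x + em (j.insertNth a t) = Pi.single j (x j + emb a) +
      j.insertNth (0 : ℂ) (fun i => x (j.succAbove i) + emb (t i)) := by
  ext i
  refine Fin.succAboveCases j ?_ (fun l => ?_) i
  · simp [em]
  · simp [em, Fin.succAbove_ne]

theorem g4a_bnd {r : ℕ} (j : Fin (r + 1)) {c : ℝ} (hc : 1 ≤ c) {b : Fin (r + 1) → ℝ} {P : Mc (r + 1)}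
    (hb : ∀ i, 0 < b i) (hP : P.IsHermitian)
    (h1 : ∀ v, (∑ i, b i * ‖v i‖ ^ 2) / c ≤ hq P v)
    (h2 : ∀ v, hq P v ≤ c * ∑ i, b i * ‖v i‖ ^ 2) {H : ℝ} (hH : hq P (Pi.single j 1) = H)
    (u : Fin r → ℂ) :
    b j / c ≤ H ∧ H ≤ c * b j ∧
    (∑ i, b (j.succAbove i) * ‖u i‖ ^ 2) / c ≤ hq P (j.insertNth (0 : ℂ) u) -
      ‖(P *ᵥ (j.insertNth (0 : ℂ) u)) j‖ ^ 2 / H ∧
    ‖(P *ᵥ (j.insertNth (0 : ℂ) u)) j / H‖ ^ 2 ≤
      c ^ 2 / b j * ∑ i, b (j.succAbove i) * ‖u i‖ ^ 2 := by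
  have hc0 : 0 < c := by linarith
  have e0 : ∑ i, b i * ‖(Pi.single j 1 : Fin (r + 1) → ℂ) i‖ ^ 2 = b j := by
    rw [Finset.sum_eq_single j]
    · simp
    · intro i _ hi
      simp [hi]
    · intro h
      exact absurd (Finset.mem_univ _) h
  have a1 : b j / c ≤ H := by
    have := h1 (Pi.single j 1)
    rwa [e0, hH] at this
  have a2 : H ≤ c * b j := by
    have := h2 (Pi.single j 1)
    rwa [e0, hH] at this
  have hbj := hb j
  have hH0 : 0 < H := lt_of_lt_of_le (by positivity) a1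
  have hS : ∀ z : ℂ, ∑ i, b i * ‖(Pi.single j z + j.insertNth (0 : ℂ) u : Fin (r + 1) → ℂ) i‖ ^ 2 =
      b j * ‖z‖ ^ 2 + ∑ i, b (j.succAbove i) * ‖u i‖ ^ 2 := by
    intro z
    rw [Fin.sum_univ_succAbove _ j]
    congr 1
    · simp
    · refine Finset.sum_congr rfl fun i _ => ?_
      simp [Fin.succAbove_ne]
  set W : Fin (r + 1) → ℂ := j.insertNth (0 : ℂ) u with hW
  set S : ℝ := ∑ i, b (j.succAbove i) * ‖u i‖ ^ 2 with hSdef
  set L : ℂ := (P *ᵥ W) j with hL
  have a3 : S / c ≤ hq P W - ‖L‖ ^ 2 / H := by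
    have k1 := h1 (Pi.single j (-(L / H)) + W)
    rw [g4a_square hP j hH hH0, ← hL, neg_add_cancel, _root_.norm_zero, hS] at k1
    have k2 : 0 ≤ b j * ‖-(L / (H : ℂ))‖ ^ 2 := by positivity
    have k3 : S / c ≤ (b j * ‖-(L / (H : ℂ))‖ ^ 2 + S) / c := by
      gcongr
      linarith
    linarith
  have hS0 : 0 ≤ S := Finset.sum_nonneg fun i _ => mul_nonneg (hb _).le (sq_nonneg _)
  have a4 : ‖L‖ ^ 2 / H ≤ c * S := by
    have k1 := h2 (Pi.single j 0 + W)
    rw [hS, Pi.single_zero, zero_add, _root_.norm_zero] at k1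
    have k2 : 0 ≤ S / c := by positivity
    have k3 : b j * (0 : ℝ) ^ 2 + S = S := by ring
    rw [k3] at k1
    linarith
  refine ⟨a1, a2, a3, ?_⟩
  rw [norm_div, div_pow, Complex.norm_real, Real.norm_of_nonneg hH0.le]
  have k1 : ‖L‖ ^ 2 / H ^ 2 = (‖L‖ ^ 2 / H) / H := by
    rw [div_div, pow_two H]
  rw [k1]
  calc ‖L‖ ^ 2 / H / H ≤ (c * S) / H := by gcongr
    _ ≤ (c * S) / (b j / c) := by gcongr
    _ = c ^ 2 / b j * S := by field_simp

/-! ### the inner sum -/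

theorem g4a_inner (K : ℕ) (θ : ℂ) (hθ : θ ∉ Dl) : ∃ C κ : ℝ, 0 < C ∧ 0 < κ ∧
    ∀ (H : ℝ), 0 < H → ∀ z β : ℂ,
      ‖∑' a : Eis, Complex.exp (2 * Real.pi * Complex.I * (((θ * (z + emb a)).re : ℝ) : ℂ))
        * conj (z + emb a) ^ K * ((Real.exp (-(Real.pi * (H * ‖z + emb a + β‖ ^ 2))) : ℝ) : ℂ)‖ ≤
      C * (1 + ‖β‖) ^ K * Real.exp (-(κ / H)) := by
  choose C κ hC hκ hb using fun i : ℕ => T1_small i θ hθ
  obtain ⟨C', κ', hC', hκ', hcom⟩ := g4a_common (Finset.range (K + 1)) C κ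
    fun i _ => ⟨hC i, hκ i⟩
  refine ⟨C', κ', hC', hκ', fun H hH z β => ?_⟩
  set E0 : ℂ := Complex.exp (2 * Real.pi * Complex.I * ((-(θ * β).re : ℝ) : ℂ)) with hE0
  have hterm : ∀ a : Eis, Complex.exp (2 * Real.pi * Complex.I * (((θ * (z + emb a)).re : ℝ) : ℂ))
        * conj (z + emb a) ^ K * ((Real.exp (-(Real.pi * (H * ‖z + emb a + β‖ ^ 2))) : ℝ) : ℂ) =
      ∑ i ∈ Finset.range (K + 1), (E0 * ((-conj β) ^ (K - i) * (K.choose i : ℂ))) *
        (Complex.exp (2 * Real.pi * Complex.I * (((θ * (z + β + emb a)).re : ℝ) : ℂ))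
        * conj (z + β + emb a) ^ i *
        ((Real.exp (-(Real.pi * H * ‖z + β + emb a‖ ^ 2)) : ℝ) : ℂ)) := by
    intro a
    have e1 : z + emb a + β = z + β + emb a := by ring
    have e2 : conj (z + emb a) = conj (z + β + emb a) + (-conj β) := by
      rw [map_add, map_add, map_add]
      ring
    have e3 : Complex.exp (2 * Real.pi * Complex.I * (((θ * (z + emb a)).re : ℝ) : ℂ)) =
        E0 * Complex.exp (2 * Real.pi * Complex.I * (((θ * (z + β + emb a)).re : ℝ) : ℂ)) := by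
      rw [hE0, ← Complex.exp_add, ← mul_add, ← Complex.ofReal_add]
      congr 3
      have : θ * (z + β + emb a) = θ * (z + emb a) + θ * β := by ring
      rw [this, Complex.add_re]
      ring
    rw [e1, e3, e2, add_pow, Finset.mul_sum, Finset.sum_mul, mul_assoc Real.pi H]
    refine Finset.sum_congr rfl fun i _ => ?_
    ring
  have hsum : ∀ i, Summable fun a : Eis =>
      Complex.exp (2 * Real.pi * Complex.I * (((θ * (z + β + emb a)).re : ℝ) : ℂ))
        * conj (z + β + emb a) ^ i *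
        ((Real.exp (-(Real.pi * H * ‖z + β + emb a‖ ^ 2)) : ℝ) : ℂ) := fun i =>
    T1_summable i hH (z + β) θ
  have hT : ∀ i, ∑' a : Eis,
      Complex.exp (2 * Real.pi * Complex.I * (((θ * (z + β + emb a)).re : ℝ) : ℂ))
        * conj (z + β + emb a) ^ i *
        ((Real.exp (-(Real.pi * H * ‖z + β + emb a‖ ^ 2)) : ℝ) : ℂ) = T1 i H (z + β) θ :=
    fun i => rfl
  rw [tsum_congr hterm, Summable.tsum_finsetSum fun i _ => (hsum i).mul_left _]
  simp only [tsum_mul_left, hT]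
  have hE : ‖E0‖ = 1 := by
    rw [hE0, Complex.norm_exp]
    have : (2 * Real.pi * Complex.I * ((-(θ * β).re : ℝ) : ℂ)).re = 0 := by
      have h : 2 * Real.pi * Complex.I * ((-(θ * β).re : ℝ) : ℂ) =
          ((2 * Real.pi * -(θ * β).re : ℝ) : ℂ) * Complex.I := by
        push_cast
        ring
      rw [h, Complex.re_ofReal_mul, Complex.I_re, mul_zero]
    rw [this, Real.exp_zero]
  refine (norm_sum_le _ _).trans ?_
  have hle : ∀ i ∈ Finset.range (K + 1),
      ‖(E0 * ((-conj β) ^ (K - i) * (K.choose i : ℂ))) * T1 i H (z + β) θ‖ ≤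
      (1 ^ i * ‖β‖ ^ (K - i) * (K.choose i : ℝ)) * (C' * Real.exp (-(κ' / H))) := by
    intro i hi
    obtain ⟨h1, h2⟩ := hcom i hi
    rw [norm_mul, norm_mul, norm_mul, hE, norm_pow, norm_neg, Complex.norm_conj,
      Complex.norm_natCast, one_pow, one_mul, one_mul]
    refine mul_le_mul_of_nonneg_left ?_ (by positivity)
    refine (hb i H hH (z + β)).trans ?_
    have h3 : κ' / H ≤ κ i / H := by gcongr
    exact mul_le_mul h1 (Real.exp_le_exp.2 (neg_le_neg h3)) (Real.exp_nonneg _) hC'.le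
  refine (Finset.sum_le_sum hle).trans (le_of_eq ?_)
  rw [← Finset.sum_mul, ← add_pow]
  ring

/-! ### the estimate for minimal `b j` -/

theorem g4a_ch {r : ℕ} (j : Fin (r + 1)) (w : Fin (r + 1) → ℂ) (z : ℂ) (u : Fin r → ℂ) :
    ch w (Pi.single j z + j.insertNth (0 : ℂ) u) =
      Complex.exp (2 * Real.pi * Complex.I * (((w j * z).re : ℝ) : ℂ)) *
        ch (fun i => w (j.succAbove i)) u := by
  have h : w ⬝ᵥ (Pi.single j z + j.insertNth (0 : ℂ) u) =
      w j * z + (fun i => w (j.succAbove i)) ⬝ᵥ u := by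
    unfold dotProduct
    rw [Fin.sum_univ_succAbove _ j]
    congr 1
    · simp
    · refine Finset.sum_congr rfl fun i _ => ?_
      simp [Fin.succAbove_ne]
  unfold ch
  rw [h, ← Complex.exp_add, ← mul_add, ← Complex.ofReal_add, Complex.add_re]

theorem g4a_mo {r : ℕ} (j : Fin (r + 1)) (k : Fin (r + 1) → ℕ) (z : ℂ) (u : Fin r → ℂ) :
    mo k (Pi.single j z + j.insertNth (0 : ℂ) u) =
      conj z ^ k j * mo (fun i => k (j.succAbove i)) u := by
  unfold mo
  rw [Fin.prod_univ_succAbove _ j]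
  congr 1
  · simp
  · refine Finset.prod_congr rfl fun i _ => ?_
    simp [Fin.succAbove_ne]

theorem g4a_norm_mo {r : ℕ} (k : Fin r → ℕ) (u : Fin r → ℂ) :
    ‖mo k u‖ = ∏ i, ‖u i‖ ^ k i := by
  unfold mo
  rw [norm_prod]
  refine Finset.prod_congr rfl fun i _ => ?_
  rw [norm_pow, Complex.norm_conj]

theorem g4a_main {r : ℕ} (j : Fin (r + 1)) (w x : Fin (r + 1) → ℂ) (hw : w j ∉ Dl)
    (hx : ∀ i, x i ∉ Set.range emb) (c : ℝ) (hc : 1 ≤ c) (k : Fin (r + 1) → ℕ) :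
    ∃ C κ : ℝ, 0 < C ∧ 0 < κ ∧
    ∀ (b : Fin (r + 1) → ℝ) (P : Mc (r + 1)), (∀ i, 0 < b i) → P.IsHermitian →
      (∀ v, (∑ i, b i * ‖v i‖ ^ 2) / c ≤ hq P v) → (∀ v, hq P v ≤ c * ∑ i, b i * ‖v i‖ ^ 2) →
      (∀ i, b j ≤ b i) →
      ‖th w x (mo k) P‖ ≤ C * Real.exp (-(κ * (1 / b j + ∑ i, b (j.succAbove i)))) := by
  have hc0 : 0 < c := by linarith
  have hπ := Real.pi_pos
  obtain ⟨C1, κ1, hC1, hκ1, hin⟩ := g4a_inner (k j) (w j) hw
  obtain ⟨M1, hM1, hpol1⟩ := g4a_poly (k j) (α := Real.pi / (2 * c)) (by positivity)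
  choose Ci κi hCi hκi hAk using fun i : Fin r =>
    Ak_bound_off (k (j.succAbove i)) (x (j.succAbove i)) (hx _)
  obtain ⟨C2, κ2, hC2, hκ2, hcom⟩ := g4a_common (Finset.univ : Finset (Fin r)) Ci κi
    fun i _ => ⟨hCi i, hκi i⟩
  set N : ℕ := ∑ i : Fin r, (k (j.succAbove i) + 1) with hN
  obtain ⟨M2, hM2, hpol2⟩ := g4a_poly (k j + N) (α := κ1 / (4 * c ^ 3)) (by positivity)
  refine ⟨C1 * 2 ^ k j * M1 * C2 ^ r * M2, min (κ1 / (2 * c)) (κ2 / (2 * c)), by positivity,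
    lt_min (by positivity) (by positivity), fun b P hb hP h1 h2 hmin => ?_⟩
  have hbj := hb j
  obtain ⟨H, hH⟩ : ∃ H : ℝ, hq P (Pi.single j 1) = H := ⟨_, rfl⟩
  have hbnd := g4a_bnd j hc hb hP h1 h2 hH
  have a1 := (hbnd 0).1
  have a2 := (hbnd 0).2.1
  have hH0 : 0 < H := lt_of_lt_of_le (by positivity) a1
  have hPD : PD P := by
    refine ⟨hP, fun v hv => lt_of_lt_of_le ?_ (h1 v)⟩
    obtain ⟨i, hi⟩ := Function.ne_iff.1 hv
    have h3 : 0 < b i * ‖v i‖ ^ 2 := mul_pos (hb i) (pow_pos (norm_pos_iff.2 hi) 2)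
    have h4 : b i * ‖v i‖ ^ 2 ≤ ∑ i, b i * ‖v i‖ ^ 2 :=
      Finset.single_le_sum (f := fun i => b i * ‖v i‖ ^ 2)
        (fun i _ => mul_nonneg (hb i).le (sq_nonneg _)) (Finset.mem_univ i)
    exact div_pos (lt_of_lt_of_le h3 h4) hc0
  -- the terms
  let u : (Fin r → Eis) → Fin r → ℂ := fun t i => x (j.succAbove i) + emb (t i)
  let β : (Fin r → Eis) → ℂ := fun t => (P *ᵥ (j.insertNth (0 : ℂ) (u t))) j / H
  let D : (Fin r → Eis) → ℝ := fun t => hq P (j.insertNth (0 : ℂ) (u t)) -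
      ‖(P *ᵥ (j.insertNth (0 : ℂ) (u t))) j‖ ^ 2 / H
  let G : (Fin r → Eis) → ℂ := fun t => ch (fun i => w (j.succAbove i)) (u t) *
    mo (fun i => k (j.succAbove i)) (u t) * ((Real.exp (-(Real.pi * D t)) : ℝ) : ℂ)
  let I : (Fin r → Eis) → Eis → ℂ := fun t a =>
    Complex.exp (2 * Real.pi * Complex.I * (((w j * (x j + emb a)).re : ℝ) : ℂ))
        * conj (x j + emb a) ^ k j *
        ((Real.exp (-(Real.pi * (H * ‖x j + emb a + β t‖ ^ 2))) : ℝ) : ℂ)
  let e : (Fin r → Eis) × Eis ≃ (Fin (r + 1) → Eis) :=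
    (Equiv.prodComm _ _).trans (Fin.insertNthEquiv (fun _ => Eis) j)
  have hF : ∀ q : (Fin r → Eis) × Eis, ch w (x + em (e q)) * mo k (x + em (e q))
      * ((Real.exp (-(Real.pi * hq P (x + em (e q)))) : ℝ) : ℂ) = G q.1 * I q.1 q.2 := by
    rintro ⟨t, a⟩
    have e1 : e (t, a) = j.insertNth a t := rfl
    rw [e1, g4a_split, g4a_ch, g4a_mo, g4a_square hP j hH hH0]
    simp only [G, I, D, β, u]
    rw [mul_add Real.pi, neg_add, Real.exp_add]
    push_cast
    ring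
  have hsum := (e.summable_iff).2 (mo_summable hPD k w x)
  have hth : th w x (mo k) P = ∑' t, G t * ∑' a, I t a := by
    unfold th
    rw [← e.tsum_eq]
    refine (Summable.tsum_prod hsum).trans (tsum_congr fun t => ?_)
    rw [← tsum_mul_left]
    exact tsum_congr fun a => hF (t, a)
  -- the bound for the outer terms
  set B : ℝ := C1 * Real.exp (-(κ1 / (c * b j))) * (2 ^ k j * (1 + c ^ 2 / b j) ^ k j) * M1 with hB
  have hB0 : 0 < B := by positivity
  have hbound : ∀ t, ‖G t * ∑' a, I t a‖ ≤ B * ∏ i, (‖x (j.succAbove i) + emb (t i)‖ ^ k (j.succAbove i)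
      * Real.exp (-(Real.pi * (b (j.succAbove i) / (2 * c)) * ‖x (j.succAbove i) + emb (t i)‖ ^ 2))) := by
    intro t
    obtain ⟨-, -, a3, a4⟩ := hbnd (u t)
    set S : ℝ := ∑ i, b (j.succAbove i) * ‖u t i‖ ^ 2 with hS
    have hS0 : 0 ≤ S := Finset.sum_nonneg fun i _ => mul_nonneg (hb _).le (sq_nonneg _)
    have i1 : ‖∑' a, I t a‖ ≤ C1 * (1 + ‖β t‖) ^ k j * Real.exp (-(κ1 / H)) :=
      hin H hH0 (x j) (β t)
    have i2 : Real.exp (-(κ1 / H)) ≤ Real.exp (-(κ1 / (c * b j))) := by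
      apply Real.exp_le_exp.2
      apply neg_le_neg
      gcongr
    have i3 : (1 + ‖β t‖) ^ k j ≤ (2 ^ k j * (1 + c ^ 2 / b j) ^ k j) * (1 + S) ^ k j := by
      rw [← mul_pow, ← mul_pow]
      refine pow_le_pow_left₀ (by positivity) ?_ _
      have j1 : ‖β t‖ ^ 2 ≤ c ^ 2 / b j * S := a4
      have j2 : 1 + ‖β t‖ ≤ 2 * (1 + ‖β t‖ ^ 2) := by nlinarith [sq_nonneg (‖β t‖ - 1), norm_nonneg (β t)]
      have j3 : 0 ≤ c ^ 2 / b j := by positivity
      calc 1 + ‖β t‖ ≤ 2 * (1 + ‖β t‖ ^ 2) := j2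
        _ ≤ 2 * (1 + c ^ 2 / b j * S) := by linarith
        _ ≤ 2 * (1 + c ^ 2 / b j) * (1 + S) := by nlinarith
    have g1 : ‖G t‖ = (∏ i, ‖u t i‖ ^ k (j.succAbove i)) * Real.exp (-(Real.pi * D t)) := by
      simp only [G]
      rw [norm_mul, norm_mul, norm_ch, one_mul, g4a_norm_mo, Complex.norm_real,
        Real.norm_of_nonneg (Real.exp_nonneg _)]
    have g2 : Real.exp (-(Real.pi * D t)) ≤
        Real.exp (-(Real.pi / (2 * c) * S)) * Real.exp (-(Real.pi / (2 * c) * S)) := by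
      rw [← Real.exp_add]
      apply Real.exp_le_exp.2
      have : Real.pi * (S / c) ≤ Real.pi * D t := mul_le_mul_of_nonneg_left a3 hπ.le
      have e3 : Real.pi / (2 * c) * S + Real.pi / (2 * c) * S = Real.pi * (S / c) := by
        field_simp
        ring
      linarith
    have g3 : Real.exp (-(Real.pi / (2 * c) * S)) =
        ∏ i, Real.exp (-(Real.pi * (b (j.succAbove i) / (2 * c)) * ‖u t i‖ ^ 2)) := by
      rw [← Real.exp_sum, hS, Finset.mul_sum, ← Finset.sum_neg_distrib]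
      congr 1
      refine Finset.sum_congr rfl fun i _ => ?_
      ring
    have g4 := hpol1 S hS0
    have hPr : 0 ≤ ∏ i, ‖u t i‖ ^ k (j.succAbove i) := Finset.prod_nonneg fun i _ => by positivity
    rw [norm_mul, g1, Finset.prod_mul_distrib, ← g3]
    set X : ℝ := Real.exp (-(Real.pi / (2 * c) * S)) with hX
    have hX0 : 0 < X := Real.exp_pos _
    calc (∏ i, ‖u t i‖ ^ k (j.succAbove i)) * Real.exp (-(Real.pi * D t)) * ‖∑' a, I t a‖
        ≤ (∏ i, ‖u t i‖ ^ k (j.succAbove i)) * (X * X) *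
          (C1 * ((2 ^ k j * (1 + c ^ 2 / b j) ^ k j) * (1 + S) ^ k j) *
            Real.exp (-(κ1 / (c * b j)))) := by
          refine mul_le_mul (mul_le_mul_of_nonneg_left g2 hPr) (i1.trans ?_) (norm_nonneg _)
            (by positivity)
          exact mul_le_mul (mul_le_mul_of_nonneg_left i3 hC1.le) i2 (Real.exp_nonneg _)
            (by positivity)
      _ = (C1 * Real.exp (-(κ1 / (c * b j))) * (2 ^ k j * (1 + c ^ 2 / b j) ^ k j)) *
          ((1 + S) ^ k j * X) * ((∏ i, ‖u t i‖ ^ k (j.succAbove i)) * X) := by ring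
      _ ≤ (C1 * Real.exp (-(κ1 / (c * b j))) * (2 ^ k j * (1 + c ^ 2 / b j) ^ k j)) *
          M1 * ((∏ i, ‖u t i‖ ^ k (j.succAbove i)) * X) := by
          refine mul_le_mul_of_nonneg_right ?_ (by positivity)
          exact mul_le_mul_of_nonneg_left g4 (by positivity)
      _ = _ := by rw [hB]
  -- the sum of the bounds
  have hs2 : ∀ i : Fin r, 0 < b (j.succAbove i) / (2 * c) := fun i => div_pos (hb _) (by positivity)
  obtain ⟨p1, p2⟩ := g4a_prod (R := ℝ) r (fun i (a : Eis) => ‖x (j.succAbove i) + emb a‖ ^ k (j.succAbove i)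
      * Real.exp (-(Real.pi * (b (j.succAbove i) / (2 * c)) * ‖x (j.succAbove i) + emb a‖ ^ 2)))
    (fun i => (Ak_summable _ (hs2 i) _).norm)
  have hHS : HasSum (fun t : Fin r → Eis => B * ∏ i, (‖x (j.succAbove i) + emb (t i)‖ ^ k (j.succAbove i)
      * Real.exp (-(Real.pi * (b (j.succAbove i) / (2 * c)) * ‖x (j.succAbove i) + emb (t i)‖ ^ 2))))
      (B * ∏ i, Ak (k (j.succAbove i)) (b (j.succAbove i) / (2 * c)) (x (j.succAbove i))) := by
    have := (p1.of_norm.hasSum).mul_left B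
    rw [p2] at this
    exact this
  have hfin : ‖th w x (mo k) P‖ ≤
      B * ∏ i, Ak (k (j.succAbove i)) (b (j.succAbove i) / (2 * c)) (x (j.succAbove i)) := by
    rw [hth]
    exact tsum_of_norm_bounded hHS hbound
  refine hfin.trans ?_
  have hAk2 : ∏ i, Ak (k (j.succAbove i)) (b (j.succAbove i) / (2 * c)) (x (j.succAbove i)) ≤
      C2 ^ r * (1 + 2 * c / b j) ^ N * Real.exp (-(κ2 / (2 * c) * ∑ i, b (j.succAbove i))) := by
    have q1 : ∀ i : Fin r, Ak (k (j.succAbove i)) (b (j.succAbove i) / (2 * c)) (x (j.succAbove i)) ≤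
        C2 * (1 + 2 * c / b j) ^ (k (j.succAbove i) + 1) *
          Real.exp (-(κ2 / (2 * c) * b (j.succAbove i))) := by
      intro i
      refine (hAk i _ (hs2 i)).trans ?_
      have hbi := hb (j.succAbove i)
      obtain ⟨m1, m2⟩ := hcom i (Finset.mem_univ _)
      have m3 : 1 / (b (j.succAbove i) / (2 * c)) ≤ 2 * c / b j := by
        rw [one_div_div]
        exact div_le_div_of_nonneg_left (by positivity) hbj (hmin _)
      have m4 : κ2 / (2 * c) * b (j.succAbove i) ≤ κi i * (b (j.succAbove i) / (2 * c)) := by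
        have : κ2 / (2 * c) * b (j.succAbove i) = κ2 * (b (j.succAbove i) / (2 * c)) := by ring
        rw [this]
        exact mul_le_mul_of_nonneg_right m2 (by positivity)
      have m5 : 0 ≤ 1 / (b (j.succAbove i) / (2 * c)) := by positivity
      refine mul_le_mul (mul_le_mul m1 (pow_le_pow_left₀ (by linarith) (by linarith) _)
        (by positivity) hC2.le) (Real.exp_le_exp.2 (neg_le_neg m4)) (Real.exp_nonneg _)
        (by positivity)
    refine (Finset.prod_le_prod (fun i _ => Ak_nonneg _ _ _) fun i _ => q1 i).trans (le_of_eq ?_)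
    rw [Finset.prod_mul_distrib, Finset.prod_mul_distrib, Finset.prod_const, Finset.card_univ,
      Fintype.card_fin, Finset.prod_pow_eq_pow_sum, ← Real.exp_sum, Finset.mul_sum,
      ← Finset.sum_neg_distrib]
  have hy0 : 0 ≤ 2 * c ^ 2 / b j := by positivity
  have hpow : (1 + c ^ 2 / b j) ^ k j * (1 + 2 * c / b j) ^ N ≤ (1 + 2 * c ^ 2 / b j) ^ (k j + N) := by
    rw [pow_add]
    have n1 : c ^ 2 / b j ≤ 2 * c ^ 2 / b j := by
      gcongr
      nlinarith
    have n2 : 2 * c / b j ≤ 2 * c ^ 2 / b j := by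
      gcongr
      nlinarith
    refine mul_le_mul (pow_le_pow_left₀ (by positivity) (by linarith) _)
      (pow_le_pow_left₀ (by positivity) (by linarith) _) (by positivity) (by positivity)
  have hexp : Real.exp (-(κ1 / (c * b j))) =
      Real.exp (-(κ1 / (4 * c ^ 3) * (2 * c ^ 2 / b j))) * Real.exp (-(κ1 / (2 * c) * (1 / b j))) := by
    rw [← Real.exp_add]
    congr 1
    field_simp
    ring
  have hp2 := hpol2 _ hy0
  have hSb : 0 ≤ ∑ i, b (j.succAbove i) := Finset.sum_nonneg fun i _ => (hb _).le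
  calc B * ∏ i, Ak (k (j.succAbove i)) (b (j.succAbove i) / (2 * c)) (x (j.succAbove i))
      ≤ B * (C2 ^ r * (1 + 2 * c / b j) ^ N *
        Real.exp (-(κ2 / (2 * c) * ∑ i, b (j.succAbove i)))) :=
        mul_le_mul_of_nonneg_left hAk2 hB0.le
    _ = (C1 * 2 ^ k j * M1 * C2 ^ r) * (((1 + c ^ 2 / b j) ^ k j * (1 + 2 * c / b j) ^ N) *
        Real.exp (-(κ1 / (4 * c ^ 3) * (2 * c ^ 2 / b j)))) *
        (Real.exp (-(κ1 / (2 * c) * (1 / b j))) *
          Real.exp (-(κ2 / (2 * c) * ∑ i, b (j.succAbove i)))) := by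
        rw [hB, hexp]
        ring
    _ ≤ (C1 * 2 ^ k j * M1 * C2 ^ r) * M2 *
        (Real.exp (-(κ1 / (2 * c) * (1 / b j))) *
          Real.exp (-(κ2 / (2 * c) * ∑ i, b (j.succAbove i)))) := by
        refine mul_le_mul_of_nonneg_right ?_ (by positivity)
        refine mul_le_mul_of_nonneg_left ?_ (by positivity)
        exact (mul_le_mul_of_nonneg_right hpow (Real.exp_nonneg _)).trans hp2
    _ ≤ _ := by
        refine mul_le_mul_of_nonneg_left ?_ (by positivity)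
        rw [← Real.exp_add]
        apply Real.exp_le_exp.2
        have o1 : min (κ1 / (2 * c)) (κ2 / (2 * c)) * (1 / b j) ≤ κ1 / (2 * c) * (1 / b j) :=
          mul_le_mul_of_nonneg_right (min_le_left _ _) (by positivity)
        have o2 : min (κ1 / (2 * c)) (κ2 / (2 * c)) * ∑ i, b (j.succAbove i) ≤
            κ2 / (2 * c) * ∑ i, b (j.succAbove i) :=
          mul_le_mul_of_nonneg_right (min_le_right _ _) hSb
        rw [mul_add]
        linarith


theorem UE0 (hn : 2 ≤ n) (w x : Fin n → ℂ) (hw : ∀ i, w i ∉ Dl) (hx : ∀ i, x i ∉ Set.range emb)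
    (c : ℝ) (hc : 1 ≤ c) (k : Fin n → ℕ) : ∃ C κ : ℝ, 0 < C ∧ 0 < κ ∧
    ∀ (b : Fin n → ℝ) (P : Mc n), (∀ i, 0 < b i) → P.IsHermitian →
      (∀ v, (∑ i, b i * ‖v i‖ ^ 2) / c ≤ hq P v) → (∀ v, hq P v ≤ c * ∑ i, b i * ‖v i‖ ^ 2) →
      ∀ i j, ‖th w x (mo k) P‖ ≤ C * Real.exp (-(κ * (b i + 1 / b j))) := by
  obtain ⟨r, rfl⟩ : ∃ r, n = r + 1 := ⟨n - 1, by omega⟩
  have hr : 0 < r := by omega
  choose C κ hC hκ hmain using fun j => g4a_main j w x (hw j) hx c hc k
  obtain ⟨C', κ', hC', hκ', hcom⟩ := g4a_common (Finset.univ : Finset (Fin (r + 1))) C κ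
    fun i _ => ⟨hC i, hκ i⟩
  refine ⟨C', κ', hC', hκ', fun b P hb hP h1 h2 i j => ?_⟩
  obtain ⟨m, hm⟩ := Finite.exists_min b
  refine (hmain m b P hb hP h1 h2 hm).trans ?_
  obtain ⟨q1, q2⟩ := hcom m (Finset.mem_univ _)
  refine mul_le_mul q1 (Real.exp_le_exp.2 (neg_le_neg ?_)) (Real.exp_nonneg _) hC'.le
  have e1 : 1 / b j ≤ 1 / b m := one_div_le_one_div_of_le (hb m) (hm j)
  have e2 : ∀ l : Fin r, b (m.succAbove l) ≤ ∑ i, b (m.succAbove i) := fun l =>
    Finset.single_le_sum (f := fun i => b (m.succAbove i)) (fun i _ => (hb _).le)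
      (Finset.mem_univ l)
  have e3 : b i ≤ ∑ i, b (m.succAbove i) := by
    rcases eq_or_ne i m with rfl | h
    · exact (hm _).trans (e2 ⟨0, hr⟩)
    · obtain ⟨l, rfl⟩ := Fin.exists_succAbove_eq h
      exact e2 l
  have e4 : 0 ≤ b i + 1 / b j := add_nonneg (hb i).le (one_div_nonneg.2 (hb j).le)
  calc κ' * (b i + 1 / b j) ≤ κ m * (b i + 1 / b j) := mul_le_mul_of_nonneg_right q2 e4
    _ ≤ κ m * (1 / b m + ∑ i, b (m.succAbove i)) :=
        mul_le_mul_of_nonneg_left (by linarith) (hκ m).le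

end NG
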