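import Pool.Agent.MP_9ab903_nt.NG.G4a

/-! ## [NG-G4b] the uniform estimate for a good basis of linear forms

`B = A.adjugate`, `m = m₀ + B t` (`coset`): `v = x + em m = cm B *ᵥ (y + em t)` with `y = (cm B)⁻¹ (x + em m₀)`; `(cm A *ᵥ v)_i = d (y + em t)_i`,
`d = emb A.det`; `ch w v = ch (w ᵥ* cm B) (y + em t)`; `y_i ∉ range emb` by `Good.gx`, `(w ᵥ* cm B)_i ∉ Dl` by `Good.gw`. Monomials in
`v` are polynomials in `y + em t`. Apply `UE0` to `(cm B)ᴴ * P * cm B` and the finitely many cosets. -/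

set_option autoImplicit false

open scoped ComplexConjugate Matrix
open MeasureTheory Set Filter Topology

namespace NG

open CM27 NAB

variable {n : ℕ}

theorem g4b_min {ι : Type} (s : Finset ι) (f : ι → ℝ) (hf : ∀ i, 0 < f i) :
    ∃ κ : ℝ, 0 < κ ∧ ∀ i ∈ s, κ ≤ f i := by
  have h0 : 0 ≤ ∑ i ∈ s, (f i)⁻¹ := Finset.sum_nonneg fun i _ => (inv_pos.2 (hf i)).le
  refine ⟨(∑ i ∈ s, (f i)⁻¹ + 1)⁻¹, by positivity, fun i hi => ?_⟩
  rw [inv_le_comm₀ (by positivity) (hf i)]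
  have h1 : (f i)⁻¹ ≤ ∑ i ∈ s, (f i)⁻¹ :=
    Finset.single_le_sum (f := fun i => (f i)⁻¹) (fun i _ => (inv_pos.2 (hf i)).le) hi
  linarith

/-- monomials after a linear change of variables -/
theorem g4b_mo_lin (M : Mc n) (k : Fin n → ℕ) : ∃ (D : Finset (Fin n → ℕ)) (c : (Fin n → ℕ) → ℂ),
    ∀ u : Fin n → ℂ, mo k (M *ᵥ u) = ∑ k' ∈ D, c k' * mo k' u := by
  classical
  let q : MvPolynomial (Fin n) ℂ :=
    ∏ i, (∑ l, MvPolynomial.C (conj (M i l)) * MvPolynomial.X l) ^ k i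
  refine ⟨q.support.image (fun s : Fin n →₀ ℕ => (s : Fin n → ℕ)),
    fun s => q.coeff (Finsupp.equivFunOnFinite.symm s), fun u => ?_⟩
  have h1 : mo k (M *ᵥ u) = MvPolynomial.eval (fun l => conj (u l)) q := by
    simp only [q, mo, map_prod, map_pow, map_sum, map_mul, MvPolynomial.eval_C,
      MvPolynomial.eval_X, Matrix.mulVec, dotProduct]
  rw [h1, MvPolynomial.eval_eq', Finset.sum_image (fun (a : Fin n →₀ ℕ) _ b _ h =>
    DFunLike.coe_injective h)]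
  refine Finset.sum_congr rfl fun s _ => ?_
  have h2 : Finsupp.equivFunOnFinite.symm (s : Fin n → ℕ) = s :=
    Finsupp.equivFunOnFinite.symm_apply_apply s
  show _ = MvPolynomial.coeff (Finsupp.equivFunOnFinite.symm (s : Fin n → ℕ)) q * mo s u
  rw [h2]
  rfl

theorem g4b_th_lin {P : Mc n} (hP : PD P) (w x : Fin n → ℂ) (p : (Fin n → ℂ) → ℂ)
    (D : Finset (Fin n → ℕ)) (c : (Fin n → ℕ) → ℂ) (hp : ∀ u, p u = ∑ k ∈ D, c k * mo k u) :
    th w x p P = ∑ k ∈ D, c k * th w x (mo k) P := by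
  have h1 : ∀ m : Fin n → Eis, ch w (x + em m) * p (x + em m)
      * ((Real.exp (-(Real.pi * hq P (x + em m))) : ℝ) : ℂ) =
      ∑ k ∈ D, c k * (ch w (x + em m) * mo k (x + em m)
      * ((Real.exp (-(Real.pi * hq P (x + em m))) : ℝ) : ℂ)) := by
    intro m
    rw [hp, Finset.mul_sum, Finset.sum_mul]
    refine Finset.sum_congr rfl fun k _ => ?_
    ring
  unfold th
  simp only [h1]
  rw [Summable.tsum_finsetSum fun k _ => (mo_summable hP k w x).mul_left _]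
  refine Finset.sum_congr rfl fun k _ => ?_
  rw [tsum_mul_left]

theorem g4b_ch (w u : Fin n → ℂ) (M : Mc n) : ch w (M *ᵥ u) = ch (w ᵥ* M) u := by
  unfold ch
  rw [Matrix.dotProduct_mulVec]

/-- the theta function is the sum over the cosets -/
theorem g4b_coset {P : Mc n} (hP : PD P) (w x : Fin n → ℂ) (k : Fin n → ℕ) (B : Me n)
    (hB : (cm B).det ≠ 0) (R : Finset (Fin n → Eis))
    (hR : ∀ m : Fin n → Eis, ∃! p : (Fin n → Eis) × (Fin n → Eis), p.1 ∈ R ∧ m = p.1 + B *ᵥ p.2) :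
    th w x (mo k) P = ∑ m0 ∈ R, th (w ᵥ* cm B) ((cm B)⁻¹ *ᵥ (x + em m0))
      (fun u => mo k (cm B *ᵥ u)) ((cm B)ᴴ * P * cm B) := by
  classical
  let e : R × (Fin n → Eis) → (Fin n → Eis) := fun p => (p.1 : Fin n → Eis) + B *ᵥ p.2
  have he : Function.Bijective e := by
    constructor
    · rintro ⟨a, t⟩ ⟨b, s⟩ hab
      obtain ⟨p, -, hp⟩ := hR (e (a, t))
      have h1 := hp ((a : Fin n → Eis), t) ⟨a.2, rfl⟩
      have h2 := hp ((b : Fin n → Eis), s) ⟨b.2, hab⟩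
      have h3 := h1.trans h2.symm
      rw [Prod.mk.injEq] at h3
      exact Prod.ext (Subtype.ext h3.1) h3.2
    · intro m
      obtain ⟨p, ⟨hp1, hp2⟩, -⟩ := hR m
      exact ⟨(⟨p.1, hp1⟩, p.2), hp2.symm⟩
  have hsum := mo_summable hP k w x
  have hB' : IsUnit (cm B).det := isUnit_iff_ne_zero.2 hB
  have hterm : ∀ (m0 t : Fin n → Eis), x + em (m0 + B *ᵥ t) =
      cm B *ᵥ ((cm B)⁻¹ *ᵥ (x + em m0) + em t) := by
    intro m0 t
    rw [em_add, ← cm_mulVec, Matrix.mulVec_add, Matrix.mulVec_mulVec,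
      Matrix.mul_nonsing_inv _ hB', Matrix.one_mulVec, add_assoc]
  unfold th
  rw [← (Equiv.ofBijective e he).tsum_eq]
  have hs2 := (Equiv.ofBijective e he).summable_iff.2 hsum
  refine (Summable.tsum_prod hs2).trans ?_
  rw [tsum_fintype]
  refine (Finset.sum_coe_sort R (fun m0 => ∑' t : Fin n → Eis,
    (ch w (x + em (m0 + B *ᵥ t)) * mo k (x + em (m0 + B *ᵥ t)) *
      ((Real.exp (-(Real.pi * hq P (x + em (m0 + B *ᵥ t)))) : ℝ) : ℂ)))).trans ?_
  refine Finset.sum_congr rfl fun m0 _ => ?_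
  refine tsum_congr fun t => ?_
  rw [hterm, g4b_ch, hq_conj]

theorem UE (hn : 2 ≤ n) (w x : Fin n → ℂ) (A : Me n) (hA : Good w x A)
    (c : ℝ) (hc : 1 ≤ c) (k : Fin n → ℕ) : ∃ C κ : ℝ, 0 < C ∧ 0 < κ ∧
    ∀ (b : Fin n → ℝ) (P : Mc n), (∀ i, 0 < b i) → P.IsHermitian →
      (∀ v, (∑ i, b i * ‖(cm A *ᵥ v) i‖ ^ 2) / c ≤ hq P v) →
      (∀ v, hq P v ≤ c * ∑ i, b i * ‖(cm A *ᵥ v) i‖ ^ 2) →
      ∀ i j, ‖th w x (mo k) P‖ ≤ C * Real.exp (-(κ * (b i + 1 / b j))) := by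
  classical
  set B : Me n := A.adjugate with hBdef
  have hinj : Function.Injective (emb : Eis → ℂ) := emb_injective
  have hd0 : emb A.det ≠ 0 := by
    intro h
    apply hA.det
    apply hinj
    rw [h, map_zero]
  have hAB : cm A * cm B = emb A.det • (1 : Mc n) := by
    rw [← cm_mul, hBdef, Matrix.mul_adjugate]
    ext i j
    simp only [cm, Matrix.map_apply, Matrix.smul_apply, smul_eq_mul, Matrix.one_apply]
    split_ifs
    · rw [mul_one, mul_one]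
    · rw [mul_zero, mul_zero, map_zero]
  have hBdet : B.det ≠ 0 := by
    intro h
    have h1 : emb B.det = 0 := by rw [h, map_zero]
    rw [hBdef, Matrix.det_adjugate, map_pow] at h1
    exact pow_ne_zero _ hd0 h1
  have hcB : (cm B).det ≠ 0 := by
    rw [cm_det]
    intro h
    exact hBdet (hinj (by rw [h, map_zero]))
  have hcA : (cm A).det ≠ 0 := by
    rw [cm_det]
    exact hd0
  obtain ⟨R, hR⟩ := coset B hBdet
  obtain ⟨D, q, hq⟩ := g4b_mo_lin (cm B) k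
  have hB' : IsUnit (cm B).det := isUnit_iff_ne_zero.2 hcB
  let y : (Fin n → Eis) → Fin n → ℂ := fun m0 => (cm B)⁻¹ *ᵥ (x + em m0)
  have hABy : ∀ (u : Fin n → ℂ) (i : Fin n), (cm A *ᵥ (cm B *ᵥ u)) i = emb A.det * u i := by
    intro u i
    rw [Matrix.mulVec_mulVec, hAB, Matrix.smul_mulVec, Matrix.one_mulVec]
    rfl
  have hy : ∀ m0 i, y m0 i ∉ Set.range emb := by
    rintro m0 i ⟨a, ha⟩
    have h1 : cm B *ᵥ y m0 = x + em m0 := by
      show cm B *ᵥ ((cm B)⁻¹ *ᵥ (x + em m0)) = _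
      rw [Matrix.mulVec_mulVec, Matrix.mul_nonsing_inv _ hB', Matrix.one_mulVec]
    have h2 := hABy (y m0) i
    rw [h1, ← ha] at h2
    apply hA.gx i (m0 + B *ᵥ (-(Pi.single i a)))
    have h3 : x + em (m0 + B *ᵥ (-(Pi.single i a))) = (x + em m0) + cm B *ᵥ em (-(Pi.single i a)) := by
      rw [em_add, ← cm_mulVec, add_assoc]
    rw [h3, Matrix.mulVec_add, Pi.add_apply, h2, hABy]
    have h4 : em (-(Pi.single i a : Fin n → Eis)) i = - emb a := by
      show emb ((-(Pi.single i a : Fin n → Eis)) i) = _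
      rw [Pi.neg_apply, Pi.single_eq_same, map_neg]
    rw [h4]
    ring
  have hue : ∀ (m0 : Fin n → Eis) (k' : Fin n → ℕ), ∃ C κ : ℝ, 0 < C ∧ 0 < κ ∧
    ∀ (b : Fin n → ℝ) (P : Mc n), (∀ i, 0 < b i) → P.IsHermitian →
      (∀ v, (∑ i, b i * ‖v i‖ ^ 2) / c ≤ NG.hq P v) → (∀ v, NG.hq P v ≤ c * ∑ i, b i * ‖v i‖ ^ 2) →
      ∀ i j, ‖th (w ᵥ* cm B) (y m0) (mo k') P‖ ≤ C * Real.exp (-(κ * (b i + 1 / b j))) :=
    fun m0 k' => UE0 hn (w ᵥ* cm B) (y m0) hA.gw (hy m0) c hc k'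
  choose C κ hC hκ hUE using hue
  obtain ⟨κ₀, hκ₀, hκle⟩ := g4b_min (R ×ˢ D) (fun p => κ p.1 p.2) (fun p => hκ p.1 p.2)
  set δ : ℝ := ‖emb A.det‖ ^ 2 with hδ
  have hδ0 : 0 < δ := by
    have := norm_pos_iff.2 hd0
    positivity
  have hC0 : 0 ≤ ∑ m0 ∈ R, ∑ k' ∈ D, ‖q k'‖ * C m0 k' :=
    Finset.sum_nonneg fun m0 _ => Finset.sum_nonneg fun k' _ =>
      mul_nonneg (norm_nonneg _) (hC m0 k').le
  refine ⟨(∑ m0 ∈ R, ∑ k' ∈ D, ‖q k'‖ * C m0 k') + 1, κ₀ * min δ (1 / δ), by positivity,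
    by positivity, ?_⟩
  intro b P hb hP h1 h2 i j
  have hPD : PD P := by
    refine ⟨hP, fun v hv => ?_⟩
    have hv' : cm A *ᵥ v ≠ 0 := by
      intro h
      apply hv
      have h3 : (cm A)⁻¹ *ᵥ (cm A *ᵥ v) = v := by
        rw [Matrix.mulVec_mulVec, Matrix.nonsing_inv_mul _ (isUnit_iff_ne_zero.2 hcA),
          Matrix.one_mulVec]
      rw [← h3, h, Matrix.mulVec_zero]
    obtain ⟨l, hl⟩ := Function.ne_iff.1 hv'
    have h3 : 0 < ∑ i, b i * ‖(cm A *ᵥ v) i‖ ^ 2 := by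
      refine Finset.sum_pos' (fun i _ => by have := hb i; positivity) ⟨l, Finset.mem_univ l, ?_⟩
      have := hb l
      have h4 : 0 < ‖(cm A *ᵥ v) l‖ := norm_pos_iff.2 hl
      positivity
    exact (div_pos h3 (by linarith)).trans_le (h1 v)
  have hPD' : PD ((cm B)ᴴ * P * cm B) := PD_conj hPD hcB
  have hform : ∀ u, ∑ i, b i * ‖(cm A *ᵥ (cm B *ᵥ u)) i‖ ^ 2 = ∑ i, (δ * b i) * ‖u i‖ ^ 2 := by
    intro u
    refine Finset.sum_congr rfl fun l _ => ?_
    rw [hABy, norm_mul, mul_pow, hδ]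
    ring
  have hb' : ∀ l, 0 < δ * b l := fun l => mul_pos hδ0 (hb l)
  have hmin : min δ (1 / δ) * (b i + 1 / b j) ≤ δ * b i + 1 / (δ * b j) := by
    have e1 : min δ (1 / δ) * b i ≤ δ * b i :=
      mul_le_mul_of_nonneg_right (min_le_left _ _) (hb i).le
    have e2 : min δ (1 / δ) * (1 / b j) ≤ 1 / δ * (1 / b j) :=
      mul_le_mul_of_nonneg_right (min_le_right _ _) (by have := hb j; positivity)
    have e3 : 1 / δ * (1 / b j) = 1 / (δ * b j) := by
      rw [one_div_mul_one_div]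
    rw [mul_add]
    linarith
  rw [g4b_coset hPD w x k B hcB R hR]
  have hb0 : 0 ≤ δ * b i + 1 / (δ * b j) := by
    have := hb' i
    have := hb' j
    positivity
  calc ‖∑ m0 ∈ R, th (w ᵥ* cm B) ((cm B)⁻¹ *ᵥ (x + em m0))
        (fun u => mo k (cm B *ᵥ u)) ((cm B)ᴴ * P * cm B)‖
      ≤ ∑ m0 ∈ R, ∑ k' ∈ D, ‖q k'‖ * C m0 k' *
          Real.exp (-(κ₀ * min δ (1 / δ) * (b i + 1 / b j))) := by
        refine (norm_sum_le _ _).trans (Finset.sum_le_sum fun m0 hm0 => ?_)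
        rw [g4b_th_lin hPD' _ _ _ D q hq]
        refine (norm_sum_le _ _).trans (Finset.sum_le_sum fun k' hk' => ?_)
        rw [norm_mul, mul_assoc ‖q k'‖]
        refine mul_le_mul_of_nonneg_left ?_ (norm_nonneg _)
        refine (hUE m0 k' (fun l => δ * b l) ((cm B)ᴴ * P * cm B) hb' hPD'.1 ?_ ?_ i j).trans ?_
        · intro u
          rw [← hform u, hq_conj]
          exact h1 _
        · intro u
          rw [← hform u, hq_conj]
          exact h2 _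
        · refine mul_le_mul_of_nonneg_left (Real.exp_le_exp.2 (neg_le_neg ?_)) (hC m0 k').le
          have h5 := hκle (m0, k') (Finset.mk_mem_product hm0 hk')
          calc κ₀ * min δ (1 / δ) * (b i + 1 / b j)
              = κ₀ * (min δ (1 / δ) * (b i + 1 / b j)) := by ring
            _ ≤ κ₀ * (δ * b i + 1 / (δ * b j)) := mul_le_mul_of_nonneg_left hmin hκ₀.le
            _ ≤ κ m0 k' * (δ * b i + 1 / (δ * b j)) := mul_le_mul_of_nonneg_right h5 hb0
    _ = (∑ m0 ∈ R, ∑ k' ∈ D, ‖q k'‖ * C m0 k') *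
          Real.exp (-(κ₀ * min δ (1 / δ) * (b i + 1 / b j))) := by
        simp only [Finset.sum_mul]
    _ ≤ _ := by
        refine mul_le_mul_of_nonneg_right ?_ (Real.exp_pos _).le
        linarith

end NG
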