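import Pool.Agent.MP_9ab903_nt.NG.G2a
import Pool.Agent.MP_9ab903_nt.NG.G3

/-! ## [NG-G4c] theta functions: both ends, forms comparable to `s |v|²`

`TB_small`: induction on `n` (for all `k ≠ 0`, `w`, `x`, `c`). One may change `w_i ∈ Dl` to `0` (unimodular constant). Split off the last
coordinate: `P(v) = H |v_n + β(v')|² + P'(v')`, `H, P'` comparable to `s`, `|β(v')| ≤ c² |v'|`; inner sums `T1 i H (x_n + β) w_n`, `i ≤ k_n`:
tiny for `i ≥ 1` (`T1_small_pos`) and for `i = 0` if `w_n ∉ Dl` (`T1_small`); for `i = 0`, `w_n = 0`: `Tk 0 H _ = 1/(A0 H) + tiny`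
(`T0_small`) and the main term is `1/(A0 H) ∑_{v'} ∏_{i<n} conj v_i^{k_i} (-conj β(v'))^{k_n} e^{-π P'(v')}`: antiholomorphic, homogeneous of the
same positive degree in `v'`, bounded coefficients: induction. `n = 0`: no `k ≠ 0`. `TB_large`: absolute values, `nrm ≥ μ > 0` on
`x + Lz`. -/

set_option autoImplicit false

open scoped ComplexConjugate Matrix
open MeasureTheory Set Filter Topology

namespace NG

open CM27 NAB

variable {n : ℕ}

/-- the one-dimensional character -/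
noncomputable def g4c_e (θ z : ℂ) : ℂ :=
  Complex.exp (2 * Real.pi * Complex.I * (((θ * z).re : ℝ) : ℂ))

theorem g4c_e_add (θ z z' : ℂ) : g4c_e θ (z + z') = g4c_e θ z * g4c_e θ z' := by
  unfold g4c_e
  rw [← Complex.exp_add]
  congr 1
  rw [mul_add, Complex.add_re]
  push_cast
  ring

theorem g4c_e_norm (θ z : ℂ) : ‖g4c_e θ z‖ = 1 := by
  unfold g4c_e
  have h : 2 * Real.pi * Complex.I * (((θ * z).re : ℝ) : ℂ)
      = ((2 * Real.pi * (θ * z).re : ℝ) : ℂ) * Complex.I := by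
    push_cast
    ring
  rw [h, Complex.norm_exp_ofReal_mul_I]

theorem g4c_ch_cons (w : Fin (n + 1) → ℂ) (t : ℂ) (u : Fin n → ℂ) :
    ch w (Fin.cons t u : Fin (n + 1) → ℂ) = g4c_e (w 0) t * ch (Fin.tail w) u := by
  unfold ch g4c_e
  rw [← Complex.exp_add]
  congr 1
  have h : w ⬝ᵥ (Fin.cons t u : Fin (n + 1) → ℂ) = w 0 * t + Fin.tail w ⬝ᵥ u := by
    unfold dotProduct
    rw [Fin.sum_univ_succ]
    simp only [Fin.cons_zero, Fin.cons_succ, Fin.tail]
  rw [h, Complex.add_re]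
  push_cast
  ring

theorem g4c_mo_cons (k : Fin (n + 1) → ℕ) (t : ℂ) (u : Fin n → ℂ) :
    mo k (Fin.cons t u : Fin (n + 1) → ℂ) = conj t ^ k 0 * mo (Fin.tail k) u := by
  unfold mo
  rw [Fin.prod_univ_succ]
  simp only [Fin.cons_zero, Fin.cons_succ, Fin.tail]

theorem g4c_nrm_cons (t : ℂ) (u : Fin n → ℂ) :
    nrm (Fin.cons t u : Fin (n + 1) → ℂ) = ‖t‖ ^ 2 + nrm u := by
  unfold nrm
  rw [Fin.sum_univ_succ]
  simp only [Fin.cons_zero, Fin.cons_succ]

theorem g4c_x_cons (x : Fin (n + 1) → ℂ) (a : Eis) (m : Fin n → Eis) :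
    x + em (Fin.cons a m : Fin (n + 1) → Eis) =
      (Fin.cons (x 0 + emb a) (Fin.tail x + em m) : Fin (n + 1) → ℂ) := by
  funext i
  refine Fin.cases ?_ (fun j => ?_) i
  · simp [em]
  · simp [em, Fin.tail]

/-- completing the square -/
theorem g4c_form (P : Mc (n + 1)) (hP : P.IsHermitian) (h0 : 0 < (P 0 0).re) :
    ∃ (β : Fin n → ℂ) (P' : Mc n), P'.IsHermitian ∧ ∀ (t : ℂ) (u : Fin n → ℂ),
      hq P (Fin.cons t u : Fin (n + 1) → ℂ) = (P 0 0).re * ‖t + β ⬝ᵥ u‖ ^ 2 + hq P' u := by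
  set H : ℝ := (P 0 0).re with hH
  have hH0 : (H : ℂ) ≠ 0 := by exact_mod_cast h0.ne'
  have hP00 : P 0 0 = (H : ℂ) := by
    have h1 := hP.apply 0 0
    rw [RCLike.star_def] at h1
    exact (Complex.conj_eq_iff_re.1 h1).symm
  let r : Fin n → ℂ := fun j => P 0 j.succ
  let Q : Mc n := P.submatrix Fin.succ Fin.succ
  refine ⟨fun j => r j / H, Q - ((1 / H : ℝ) : ℂ) • sq r, ?_, ?_⟩
  · refine (hP.submatrix Fin.succ).sub ?_
    have h1 := sq_isHermitian r
    unfold Matrix.IsHermitian at h1 ⊢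
    rw [Matrix.conjTranspose_smul, h1, RCLike.star_def, Complex.conj_ofReal]
  · intro t u
    have hr : ∑ j : Fin n, P 0 j.succ * u j = r ⬝ᵥ u := rfl
    have hb : (fun j => r j / (H : ℂ)) ⬝ᵥ u = (r ⬝ᵥ u) / H := by
      unfold dotProduct
      rw [Finset.sum_div]
      refine Finset.sum_congr rfl fun j _ => ?_
      ring
    have h1 : hq P (Fin.cons t u : Fin (n + 1) → ℂ) =
        (conj t * (P 0 0 * t + r ⬝ᵥ u) + (conj (r ⬝ᵥ u) * t + star u ⬝ᵥ (Q *ᵥ u))).re := by
      unfold hq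
      congr 1
      simp only [dotProduct, Matrix.mulVec, Fin.sum_univ_succ, Pi.star_apply, Fin.cons_zero,
        Fin.cons_succ, RCLike.star_def]
      congr 1
      simp only [mul_add, Finset.sum_add_distrib]
      congr 1
      rw [map_sum, Finset.sum_mul]
      refine Finset.sum_congr rfl fun j _ => ?_
      have h2 : P j.succ 0 = conj (P 0 j.succ) := by
        have := hP.apply j.succ 0
        rw [RCLike.star_def] at this
        exact this.symm
      rw [h2, map_mul]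
      ring
    have h2 : hq (Q - ((1 / H : ℝ) : ℂ) • sq r) u = (star u ⬝ᵥ (Q *ᵥ u)).re
        - 1 / H * ‖r ⬝ᵥ u‖ ^ 2 := by
      have e1 : Q - ((1 / H : ℝ) : ℂ) • sq r = Q + ((-(1 / H) : ℝ) : ℂ) • sq r := by
        push_cast
        rw [neg_smul, sub_eq_add_neg]
      rw [e1, hq_add, hq_smul, hq_sq]
      unfold hq
      ring
    rw [h1, h2, hb, hP00]
    have h3 : ‖t + r ⬝ᵥ u / (H : ℂ)‖ ^ 2 = ‖t‖ ^ 2 + 2 * (conj t * (r ⬝ᵥ u)).re / H
        + ‖r ⬝ᵥ u‖ ^ 2 / H ^ 2 := by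
      have e2 : t + r ⬝ᵥ u / (H : ℂ) = t + ((1 / H : ℝ) : ℂ) * (r ⬝ᵥ u) := by
        push_cast
        ring
      rw [e2, ← Complex.normSq_eq_norm_sq, ← Complex.normSq_eq_norm_sq, ← Complex.normSq_eq_norm_sq,
        Complex.normSq_apply, Complex.normSq_apply, Complex.normSq_apply]
      simp only [Complex.add_re, Complex.add_im, Complex.mul_re, Complex.mul_im,
        Complex.ofReal_re, Complex.ofReal_im, Complex.conj_re, Complex.conj_im]
      field_simp
      ring
    rw [h3]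
    have h4 : (conj t * ((H : ℂ) * t)).re = H * ‖t‖ ^ 2 := by
      rw [← Complex.normSq_eq_norm_sq, Complex.normSq_apply]
      simp only [Complex.mul_re, Complex.mul_im, Complex.ofReal_re, Complex.ofReal_im,
        Complex.conj_re, Complex.conj_im]
      ring
    have h5 : (conj (r ⬝ᵥ u) * t).re = (conj t * (r ⬝ᵥ u)).re := by
      simp only [Complex.mul_re, Complex.conj_re, Complex.conj_im]
      ring
    rw [mul_add (conj t), Complex.add_re, Complex.add_re, Complex.add_re, h4, h5]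
    field_simp
    ring

theorem g4c_prod_tsum : ∀ (n : ℕ) (f : Fin n → Eis → ℝ), (∀ i a, 0 ≤ f i a) →
    (∀ i, Summable (f i)) → ∑' m : Fin n → Eis, ∏ i, f i (m i) = ∏ i, ∑' a, f i a := by
  intro n
  induction n with
  | zero =>
    intro f _ _
    rw [tsum_fintype]
    simp
  | succ n ih =>
    intro f h0 h1
    rw [← (Fin.consEquiv fun _ => Eis).tsum_eq, Fin.prod_univ_succ,
      ← ih (fun i => f i.succ) (fun i a => h0 _ _) (fun i => h1 _)]
    have h2 := g3_prod_summable n (fun i => f i.succ) (fun i a => h0 _ _) (fun i => h1 _)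
    have h3 := (h1 0).mul_of_nonneg h2 (fun a => h0 _ _)
      (fun m => Finset.prod_nonneg fun i _ => h0 _ _)
    rw [(h1 0).tsum_mul_tsum h2 h3]
    refine tsum_congr fun p => ?_
    simp only [Fin.consEquiv_apply, Fin.prod_univ_succ, Fin.cons_zero, Fin.cons_succ]

theorem g4c_one (K : ℕ) (z : ℂ) : ∃ C : ℝ, 0 < C ∧ ∀ s : ℝ, 0 < s →
    ∑' a : Eis, (1 + ‖z + emb a‖ ^ 2) ^ K * Real.exp (-(Real.pi * s * ‖z + emb a‖ ^ 2)) ≤
      C * (1 + 1 / s) ^ (2 * K + 1) := by
  choose D hD hA using fun k : ℕ => Ak_bound k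
  refine ⟨∑ j ∈ Finset.range (K + 1), (K.choose j : ℝ) * D (2 * j), ?_, ?_⟩
  · refine Finset.sum_pos (fun j hj => ?_) ⟨0, by simp⟩
    have : 0 < K.choose j := Nat.choose_pos (by simpa [Nat.lt_succ_iff] using hj)
    have h1 : (0 : ℝ) < K.choose j := by exact_mod_cast this
    exact mul_pos h1 (hD _)
  · intro s hs
    have h1 : ∀ a : Eis, (1 + ‖z + emb a‖ ^ 2) ^ K * Real.exp (-(Real.pi * s * ‖z + emb a‖ ^ 2)) =
        ∑ j ∈ Finset.range (K + 1), (K.choose j : ℝ) *
          (‖z + emb a‖ ^ (2 * j) * Real.exp (-(Real.pi * s * ‖z + emb a‖ ^ 2))) := by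
      intro a
      rw [add_comm (1 : ℝ), add_pow, Finset.sum_mul]
      apply Finset.sum_congr rfl
      intro j _
      rw [one_pow, pow_mul]
      ring
    rw [tsum_congr h1, Summable.tsum_finsetSum fun j _ => (Ak_summable (2 * j) hs z).mul_left _,
      Finset.sum_mul]
    refine Finset.sum_le_sum fun j hj => ?_
    rw [tsum_mul_left, mul_assoc]
    refine mul_le_mul_of_nonneg_left ?_ (by positivity)
    refine (hA (2 * j) s hs z).trans (mul_le_mul_of_nonneg_left ?_ (hD _).le)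
    refine pow_le_pow_right₀ ?_ ?_
    · have : 0 < 1 / s := by positivity
      linarith
    · have : j ≤ K := by simpa [Nat.lt_succ_iff] using hj
      omega

/-- polynomial bound of the full sum -/
theorem g4c_sum (K : ℕ) (x : Fin n → ℂ) : ∃ (C : ℝ) (M : ℕ), 0 < C ∧ ∀ s : ℝ, 0 < s →
    ∑' m : Fin n → Eis, (1 + nrm (x + em m)) ^ K * Real.exp (-(Real.pi * s * nrm (x + em m))) ≤
      C * (1 + 1 / s) ^ M := by
  choose C hC hb using fun i : Fin n => g4c_one K (x i)
  refine ⟨∏ i, C i, (2 * K + 1) * n, Finset.prod_pos fun i _ => hC i, fun s hs => ?_⟩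
  have h1 := g3_prod_summable n
    (fun i a => (1 + ‖x i + emb a‖ ^ 2) ^ K * Real.exp (-(Real.pi * s * ‖x i + emb a‖ ^ 2)))
    (fun i a => by positivity) (fun i => a3a_one K hs (x i))
  have h2 : ∀ m : Fin n → Eis, (1 + nrm (x + em m)) ^ K *
      Real.exp (-(Real.pi * s * nrm (x + em m))) ≤
      ∏ i, ((1 + ‖x i + emb (m i)‖ ^ 2) ^ K * Real.exp (-(Real.pi * s * ‖x i + emb (m i)‖ ^ 2))) := by
    intro m
    rw [Finset.prod_mul_distrib, Finset.prod_pow, ← Real.exp_sum]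
    refine mul_le_mul ?_ (le_of_eq ?_) (Real.exp_pos _).le
      (pow_nonneg (Finset.prod_nonneg fun i _ => by positivity) _)
    · exact pow_le_pow_left₀ (by have := nrm_nonneg (x + em m); positivity)
        (g3_one_add_sum (x + em m)) K
    · congr 1
      rw [Finset.sum_neg_distrib, ← Finset.mul_sum]
      rfl
  refine ((g3_nrm_summable K hs x).tsum_le_tsum h2 h1).trans ?_
  rw [g4c_prod_tsum n (fun i a => (1 + ‖x i + emb a‖ ^ 2) ^ K *
    Real.exp (-(Real.pi * s * ‖x i + emb a‖ ^ 2))) (fun i a => by positivity)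
    (fun i => a3a_one K hs (x i))]
  calc ∏ i, ∑' a : Eis, (1 + ‖x i + emb a‖ ^ 2) ^ K *
        Real.exp (-(Real.pi * s * ‖x i + emb a‖ ^ 2))
      ≤ ∏ i, (C i * (1 + 1 / s) ^ (2 * K + 1)) :=
        Finset.prod_le_prod (fun i _ => tsum_nonneg fun a => by positivity) fun i _ => hb i s hs
    _ = (∏ i, C i) * (1 + 1 / s) ^ ((2 * K + 1) * n) := by
        rw [Finset.prod_mul_distrib, Finset.prod_const, Finset.card_univ, Fintype.card_fin, pow_mul]

theorem g4c_min {ι : Type} (s : Finset ι) (f : ι → ℝ) (hf : ∀ i, 0 < f i) :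
    ∃ κ : ℝ, 0 < κ ∧ ∀ i ∈ s, κ ≤ f i := by
  have h0 : 0 ≤ ∑ i ∈ s, (f i)⁻¹ := Finset.sum_nonneg fun i _ => (inv_pos.2 (hf i)).le
  refine ⟨(∑ i ∈ s, (f i)⁻¹ + 1)⁻¹, by positivity, fun i hi => ?_⟩
  rw [inv_le_comm₀ (by positivity) (hf i)]
  have h1 : (f i)⁻¹ ≤ ∑ i ∈ s, (f i)⁻¹ :=
    Finset.single_le_sum (f := fun i => (f i)⁻¹) (fun i _ => (inv_pos.2 (hf i)).le) hi
  linarith

open Classical in
/-- the factor of the main term -/
noncomputable def g4c_m (θ z : ℂ) : ℂ := if θ ∈ Dl then g4c_e θ z else 0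

theorem g4c_m_norm (θ z : ℂ) : ‖g4c_m θ z‖ ≤ 1 := by
  unfold g4c_m
  split_ifs
  · rw [g4c_e_norm]
  · rw [norm_zero]
    exact zero_le_one

theorem g4c_T1 (θ : ℂ) (i : ℕ) : ∃ C κ : ℝ, 0 < C ∧ 0 < κ ∧ ∀ (H : ℝ), 0 < H → ∀ z b : ℂ,
    ‖g4c_e θ (-b) * T1 i H (z + b) θ - (if i = 0 then g4c_m θ z * (1 / ((A0 : ℂ) * H)) else 0)‖ ≤
      C * (1 + 1 / H) * Real.exp (-(κ / H)) := by
  by_cases hi : i = 0
  · subst hi
    by_cases hθ : θ ∈ Dl
    · obtain ⟨C, κ, hC, hκ, hT⟩ := T0_small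
      refine ⟨C, κ, hC, hκ, fun H hH z b => ?_⟩
      have hH0 : (H : ℂ) ≠ 0 := by exact_mod_cast hH.ne'
      have hA0 : (A0 : ℂ) ≠ 0 := by exact_mod_cast A0_pos'.ne'
      have h1 : g4c_e θ (-b) * T1 0 H (z + b) θ = g4c_e θ z * Tk 0 H (z + b) := by
        have h2 := T1_Dl 0 H (z + b) θ hθ
        change T1 0 H (z + b) θ = g4c_e θ (z + b) * Tk 0 H (z + b) at h2
        rw [h2, ← mul_assoc, ← g4c_e_add]
        congr 2
        ring
      have h3 : g4c_e θ z * Tk 0 H (z + b) - g4c_m θ z * (1 / ((A0 : ℂ) * H)) =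
          g4c_e θ z * (((1 / H : ℝ) : ℂ) * ((H : ℂ) * Tk 0 H (z + b) - 1 / (A0 : ℂ))) := by
        rw [g4c_m, if_pos hθ]
        push_cast
        field_simp
      rw [if_pos rfl, h1, h3, norm_mul, g4c_e_norm, one_mul, norm_mul, Complex.norm_real,
        Real.norm_eq_abs, abs_of_pos (by positivity)]
      calc 1 / H * ‖(H : ℂ) * Tk 0 H (z + b) - 1 / (A0 : ℂ)‖
          ≤ 1 / H * (C * (1 + H) * Real.exp (-(κ / H))) :=
            mul_le_mul_of_nonneg_left (hT H hH (z + b)) (by positivity)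
        _ = C * (1 + 1 / H) * Real.exp (-(κ / H)) := by
            field_simp
            ring
    · obtain ⟨C, κ, hC, hκ, hT⟩ := T1_small 0 θ hθ
      refine ⟨C, κ, hC, hκ, fun H hH z b => ?_⟩
      rw [if_pos rfl, g4c_m, if_neg hθ, zero_mul, sub_zero, norm_mul, g4c_e_norm, one_mul]
      refine (hT H hH (z + b)).trans ?_
      refine mul_le_mul_of_nonneg_right ?_ (Real.exp_pos _).le
      have : 0 < 1 / H := by positivity
      nlinarith
  · obtain ⟨C, κ, hC, hκ, hT⟩ := T1_small_pos i hi θ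
    refine ⟨C, κ, hC, hκ, fun H hH z b => ?_⟩
    rw [if_neg hi, sub_zero, norm_mul, g4c_e_norm, one_mul]
    refine (hT H hH (z + b)).trans ?_
    refine mul_le_mul_of_nonneg_right ?_ (Real.exp_pos _).le
    have : 0 < 1 / H := by positivity
    nlinarith

/-- the inner sum -/
noncomputable def g4c_in (K : ℕ) (H : ℝ) (θ z b : ℂ) : ℂ :=
  ∑' a : Eis, g4c_e θ (z + emb a) * conj (z + emb a) ^ K *
    ((Real.exp (-(Real.pi * (H * ‖z + emb a + b‖ ^ 2))) : ℝ) : ℂ)

theorem g4c_in_eq (K : ℕ) {H : ℝ} (hH : 0 < H) (θ z b : ℂ) : g4c_in K H θ z b =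
    ∑ i ∈ Finset.range (K + 1), (g4c_e θ (-b) * T1 i H (z + b) θ) *
      ((-conj b) ^ (K - i) * (K.choose i)) := by
  have h1 : ∀ a : Eis, g4c_e θ (z + emb a) * conj (z + emb a) ^ K *
      ((Real.exp (-(Real.pi * (H * ‖z + emb a + b‖ ^ 2))) : ℝ) : ℂ) =
      ∑ i ∈ Finset.range (K + 1), (g4c_e θ (-b) * ((-conj b) ^ (K - i) * (K.choose i))) *
        (g4c_e θ (z + b + emb a) * conj (z + b + emb a) ^ i *
        ((Real.exp (-(Real.pi * H * ‖z + b + emb a‖ ^ 2)) : ℝ) : ℂ)) := by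
    intro a
    have e1 : z + emb a = -b + (z + b + emb a) := by ring
    have e2 : z + emb a + b = z + b + emb a := by ring
    have e3 : conj (z + emb a) ^ K = ∑ i ∈ Finset.range (K + 1),
        conj (z + b + emb a) ^ i * (-conj b) ^ (K - i) * (K.choose i) := by
      rw [← add_pow]
      congr 1
      rw [e1, map_add, map_neg]
      ring
    rw [e3, e2, ← mul_assoc Real.pi H]
    conv_lhs => rw [e1, g4c_e_add]
    rw [Finset.mul_sum, Finset.sum_mul]
    refine Finset.sum_congr rfl fun i _ => ?_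
    ring
  have hsm : ∀ i : ℕ, Summable fun a : Eis => g4c_e θ (z + b + emb a) * conj (z + b + emb a) ^ i *
      ((Real.exp (-(Real.pi * H * ‖z + b + emb a‖ ^ 2)) : ℝ) : ℂ) :=
    fun i => T1_summable i hH (z + b) θ
  unfold g4c_in
  rw [tsum_congr h1, Summable.tsum_finsetSum fun i _ => (hsm i).mul_left _]
  refine Finset.sum_congr rfl fun i _ => ?_
  rw [tsum_mul_left]
  have h2 : T1 i H (z + b) θ = ∑' a : Eis, g4c_e θ (z + b + emb a) * conj (z + b + emb a) ^ i *
      ((Real.exp (-(Real.pi * H * ‖z + b + emb a‖ ^ 2)) : ℝ) : ℂ) := rfl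
  rw [h2]
  ring

theorem g4c_in_bound (K : ℕ) (θ : ℂ) : ∃ C κ : ℝ, 0 < C ∧ 0 < κ ∧ ∀ (H : ℝ), 0 < H → ∀ z b : ℂ,
    ‖g4c_in K H θ z b - g4c_m θ z * (1 / ((A0 : ℂ) * H)) * (-conj b) ^ K‖ ≤
      C * (1 + 1 / H) * Real.exp (-(κ / H)) * (1 + ‖b‖) ^ K := by
  choose C κ hC hκ hT using fun i : ℕ => g4c_T1 θ i
  obtain ⟨κ₀, hκ₀, hle⟩ := g4c_min (Finset.range (K + 1)) κ hκ
  have hCs : ∀ i ∈ Finset.range (K + 1), C i ≤ ∑ i ∈ Finset.range (K + 1), C i := fun i hi =>
    Finset.single_le_sum (f := C) (fun i _ => (hC i).le) hi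
  refine ⟨∑ i ∈ Finset.range (K + 1), C i, κ₀, ?_, hκ₀, fun H hH z b => ?_⟩
  · exact Finset.sum_pos (fun i _ => hC i) ⟨0, by simp⟩
  have e1 : g4c_in K H θ z b - g4c_m θ z * (1 / ((A0 : ℂ) * H)) * (-conj b) ^ K =
      ∑ i ∈ Finset.range (K + 1), (g4c_e θ (-b) * T1 i H (z + b) θ -
        (if i = 0 then g4c_m θ z * (1 / ((A0 : ℂ) * H)) else 0)) *
      ((-conj b) ^ (K - i) * (K.choose i)) := by
    rw [g4c_in_eq K hH]
    simp only [sub_mul, Finset.sum_sub_distrib]
    congr 1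
    rw [Finset.sum_eq_single 0]
    · simp
    · intro i _ hi
      rw [if_neg hi, zero_mul]
    · intro h
      simp at h
  rw [e1]
  refine (norm_sum_le _ _).trans ?_
  have e2 : ∀ i ∈ Finset.range (K + 1), ‖(g4c_e θ (-b) * T1 i H (z + b) θ -
        (if i = 0 then g4c_m θ z * (1 / ((A0 : ℂ) * H)) else 0)) *
      ((-conj b) ^ (K - i) * (K.choose i))‖ ≤
      (∑ i ∈ Finset.range (K + 1), C i) * (1 + 1 / H) * Real.exp (-(κ₀ / H)) *
        (1 ^ i * ‖b‖ ^ (K - i) * (K.choose i)) := by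
    intro i hi
    rw [norm_mul, norm_mul, norm_pow, norm_neg, Complex.norm_conj, Complex.norm_natCast, one_pow,
      one_mul]
    apply mul_le_mul_of_nonneg_right _ (by positivity)
    refine (hT i H hH z b).trans ?_
    have h1 : 0 < 1 + 1 / H := by positivity
    refine mul_le_mul (mul_le_mul_of_nonneg_right (hCs i hi) h1.le) ?_ (Real.exp_pos _).le
      (mul_nonneg (Finset.sum_nonneg fun i _ => (hC i).le) h1.le)
    apply Real.exp_le_exp.2
    apply neg_le_neg
    exact div_le_div_of_nonneg_right (hle i hi) hH.le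
  refine (Finset.sum_le_sum e2).trans ?_
  rw [← Finset.mul_sum, ← add_pow]

/-- linearity -/
theorem g4c_lin {P : Mc n} (hP : PD P) (w x : Fin n → ℂ) (p : (Fin n → ℂ) → ℂ) {ι : Type}
    (D : Finset ι) (c : ι → ℂ) (κ : ι → Fin n → ℕ) (hp : ∀ u, p u = ∑ i ∈ D, c i * mo (κ i) u) :
    (Summable fun m : Fin n → Eis => ch w (x + em m) * p (x + em m)
      * ((Real.exp (-(Real.pi * hq P (x + em m))) : ℝ) : ℂ)) ∧
    th w x p P = ∑ i ∈ D, c i * th w x (mo (κ i)) P := by
  have h1 : ∀ m : Fin n → Eis, ch w (x + em m) * p (x + em m)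
      * ((Real.exp (-(Real.pi * hq P (x + em m))) : ℝ) : ℂ) =
      ∑ i ∈ D, c i * (ch w (x + em m) * mo (κ i) (x + em m)
      * ((Real.exp (-(Real.pi * hq P (x + em m))) : ℝ) : ℂ)) := by
    intro m
    rw [hp, Finset.mul_sum, Finset.sum_mul]
    refine Finset.sum_congr rfl fun k _ => ?_
    ring
  constructor
  · simp only [h1]
    exact summable_sum fun k _ => (mo_summable hP (κ k) w x).mul_left _
  · unfold th
    simp only [h1]
    rw [Summable.tsum_finsetSum fun k _ => (mo_summable hP (κ k) w x).mul_left _]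
    refine Finset.sum_congr rfl fun k _ => ?_
    rw [tsum_mul_left]

/-- the exponents of a word -/
def g4c_cnt {K : ℕ} (f : Fin K → Fin n) : Fin n → ℕ :=
  fun l => (Finset.univ.filter fun i => f i = l).card

theorem g4c_expand (K : ℕ) (β : Fin n → ℂ) (k : Fin n → ℕ) (u : Fin n → ℂ) :
    mo k u * (-conj (β ⬝ᵥ u)) ^ K =
      ∑ f : Fin K → Fin n, (∏ j, (-conj (β (f j)))) * mo (k + g4c_cnt f) u := by
  have h1 : -conj (β ⬝ᵥ u) = ∑ l, (-conj (β l)) * conj (u l) := by
    unfold dotProduct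
    rw [map_sum, ← Finset.sum_neg_distrib]
    refine Finset.sum_congr rfl fun l _ => ?_
    rw [map_mul]
    ring
  have h2 : (∑ l, (-conj (β l)) * conj (u l)) ^ K =
      ∑ f : Fin K → Fin n, ∏ j, ((-conj (β (f j))) * conj (u (f j))) := by
    have h3 := Finset.prod_univ_sum (ι := Fin K) (R := ℂ) (fun _ => (Finset.univ : Finset (Fin n)))
      (fun _ l => (-conj (β l)) * conj (u l))
    rw [Fintype.piFinset_univ, Finset.prod_const, Finset.card_univ, Fintype.card_fin] at h3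
    exact h3
  rw [h1, h2, Finset.mul_sum]
  refine Finset.sum_congr rfl fun f _ => ?_
  rw [Finset.prod_mul_distrib]
  have h4 : ∏ j, conj (u (f j)) = mo (g4c_cnt f) u := by
    unfold mo g4c_cnt
    rw [← Finset.prod_fiberwise' Finset.univ f (fun l => conj (u l))]
    refine Finset.prod_congr rfl fun l _ => ?_
    rw [Finset.prod_const]
  have h5 : mo (k + g4c_cnt f) u = mo k u * mo (g4c_cnt f) u := by
    unfold mo
    rw [← Finset.prod_mul_distrib]
    refine Finset.prod_congr rfl fun l _ => ?_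
    rw [Pi.add_apply, pow_add]
  rw [h4, h5]
  ring

theorem g4c_cnt_ne (k : Fin (n + 1) → ℕ) (hk : k ≠ 0) (f : Fin (k 0) → Fin n) :
    Fin.tail k + g4c_cnt f ≠ 0 := by
  intro h
  apply hk
  funext i
  have h1 : ∀ l : Fin n, k l.succ = 0 := by
    intro l
    have := congrFun h l
    simp only [Pi.add_apply, Fin.tail, Pi.zero_apply] at this
    omega
  refine Fin.cases ?_ (fun j => h1 j) i
  by_contra h0
  have h2 : 0 < k 0 := Nat.pos_of_ne_zero h0
  have h3 := congrFun h (f ⟨0, h2⟩)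
  simp only [Pi.add_apply, Pi.zero_apply, g4c_cnt] at h3
  have h4 : 0 < (Finset.univ.filter fun i => f i = f ⟨0, h2⟩).card :=
    Finset.card_pos.2 ⟨⟨0, h2⟩, by simp⟩
  omega

theorem g4c_norm_mo (k : Fin n → ℕ) (v : Fin n → ℂ) : ‖mo k v‖ ≤ (1 + nrm v) ^ (∑ i, k i) :=
  g3_norm_mo k v

/-- the theta function as an iterated sum -/
theorem g4c_iter {P : Mc (n + 1)} (hP : PD P) {H : ℝ} {β : Fin n → ℂ} {P' : Mc n}
    (hf : ∀ (t : ℂ) (u : Fin n → ℂ),
      hq P (Fin.cons t u : Fin (n + 1) → ℂ) = H * ‖t + β ⬝ᵥ u‖ ^ 2 + hq P' u)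
    (w x : Fin (n + 1) → ℂ) (k : Fin (n + 1) → ℕ) :
    (Summable fun m : Fin n → Eis => (ch (Fin.tail w) (Fin.tail x + em m)
      * mo (Fin.tail k) (Fin.tail x + em m)
      * ((Real.exp (-(Real.pi * hq P' (Fin.tail x + em m))) : ℝ) : ℂ))
      * g4c_in (k 0) H (w 0) (x 0) (β ⬝ᵥ (Fin.tail x + em m))) ∧
    th w x (mo k) P = ∑' m : Fin n → Eis, (ch (Fin.tail w) (Fin.tail x + em m)
      * mo (Fin.tail k) (Fin.tail x + em m)
      * ((Real.exp (-(Real.pi * hq P' (Fin.tail x + em m))) : ℝ) : ℂ))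
      * g4c_in (k 0) H (w 0) (x 0) (β ⬝ᵥ (Fin.tail x + em m)) := by
  have hF := mo_summable hP k w x
  let e : (Fin n → Eis) × Eis ≃ (Fin (n + 1) → Eis) :=
    (Equiv.prodComm _ _).trans (Fin.consEquiv fun _ => Eis)
  have hF' := e.summable_iff.2 hF
  have hterm : ∀ (m : Fin n → Eis) (a : Eis),
      ((fun m : Fin (n + 1) → Eis => ch w (x + em m) * mo k (x + em m)
      * ((Real.exp (-(Real.pi * hq P (x + em m))) : ℝ) : ℂ)) ∘ e) (m, a) =
      (ch (Fin.tail w) (Fin.tail x + em m) * mo (Fin.tail k) (Fin.tail x + em m)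
      * ((Real.exp (-(Real.pi * hq P' (Fin.tail x + em m))) : ℝ) : ℂ)) *
      (g4c_e (w 0) (x 0 + emb a) * conj (x 0 + emb a) ^ k 0 *
    ((Real.exp (-(Real.pi * (H * ‖x 0 + emb a + β ⬝ᵥ (Fin.tail x + em m)‖ ^ 2))) : ℝ) : ℂ)) := by
    intro m a
    have h1 : e (m, a) = (Fin.cons a m : Fin (n + 1) → Eis) := rfl
    simp only [Function.comp_apply]
    rw [h1, g4c_x_cons, g4c_ch_cons, g4c_mo_cons, hf, mul_add, neg_add, Real.exp_add]
    push_cast
    ring
  have hfib : ∀ m : Fin n → Eis, ∑' a : Eis,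
      ((fun m : Fin (n + 1) → Eis => ch w (x + em m) * mo k (x + em m)
      * ((Real.exp (-(Real.pi * hq P (x + em m))) : ℝ) : ℂ)) ∘ e) (m, a) =
      (ch (Fin.tail w) (Fin.tail x + em m)
      * mo (Fin.tail k) (Fin.tail x + em m)
      * ((Real.exp (-(Real.pi * hq P' (Fin.tail x + em m))) : ℝ) : ℂ))
      * g4c_in (k 0) H (w 0) (x 0) (β ⬝ᵥ (Fin.tail x + em m)) := by
    intro m
    rw [tsum_congr (hterm m), tsum_mul_left]
    rfl
  constructor
  · exact hF'.prod.congr fun m => hfib m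
  · have h1 : th w x (mo k) P = ∑' p : (Fin n → Eis) × Eis,
        ((fun m : Fin (n + 1) → Eis => ch w (x + em m) * mo k (x + em m)
        * ((Real.exp (-(Real.pi * hq P (x + em m))) : ℝ) : ℂ)) ∘ e) p := (e.tsum_eq _).symm
    rw [h1, Summable.tsum_prod hF']
    exact tsum_congr hfib

theorem g4c_absorb (M : ℕ) (κ : ℝ) (hκ : 0 < κ) : ∃ D : ℝ, 0 < D ∧ ∀ s : ℝ, 0 < s →
    (1 + 1 / s) ^ M * Real.exp (-(κ / s)) ≤ D * Real.exp (-(κ / 2 / s)) := by
  obtain ⟨D, hD, hb⟩ := A2c_poly M (half_pos hκ)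
  refine ⟨D, hD, fun s hs => ?_⟩
  have h1 := hb (1 / s) (by positivity)
  have h2 : Real.exp (-(κ / s)) = Real.exp (-(κ / 2 * (1 / s))) * Real.exp (-(κ / 2 / s)) := by
    rw [← Real.exp_add]
    congr 1
    ring
  rw [h2, ← mul_assoc]
  exact mul_le_mul_of_nonneg_right h1 (Real.exp_pos _).le

theorem g4c_PD {P : Mc n} (hP : P.IsHermitian) {a : ℝ} (ha : 0 < a)
    (h : ∀ v, a * nrm v ≤ hq P v) : PD P :=
  ⟨hP, fun v hv => (mul_pos ha (nrm_pos hv)).trans_le (h v)⟩

theorem g4c_main : ∀ (n : ℕ) (w x : Fin n → ℂ) (c : ℝ) (_ : 1 ≤ c) (k : Fin n → ℕ) (_ : k ≠ 0),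
    ∃ C κ : ℝ, 0 < C ∧ 0 < κ ∧ ∀ (s : ℝ) (P : Mc n), 0 < s → P.IsHermitian →
      (∀ v, s / c * nrm v ≤ hq P v) → (∀ v, hq P v ≤ c * s * nrm v) →
      ‖th w x (mo k) P‖ ≤ C * Real.exp (-(κ / s)) := by
  intro n
  induction n with
  | zero =>
    intro w x c _ k hk
    exact absurd (Subsingleton.elim _ _) hk
  | succ n ih =>
    intro w x c hc k hk
    have hc0 : 0 < c := by linarith
    obtain ⟨C1, κ1, hC1, hκ1, hin⟩ := g4c_in_bound (k 0) (w 0)
    obtain ⟨C2, M, hC2, hsum⟩ := g4c_sum (n := n) ((∑ i, Fin.tail k i) + k 0) (Fin.tail x)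
    choose C3 κ3 hC3 hκ3 hIH using fun f : Fin (k 0) → Fin n =>
      ih (Fin.tail w) (Fin.tail x) c hc (Fin.tail k + g4c_cnt f) (g4c_cnt_ne k hk f)
    obtain ⟨κ4, hκ4, hκ4le⟩ := g4c_min (Finset.univ : Finset (Fin (k 0) → Fin n)) κ3 hκ3
    have hA0 : 0 < A0 := A0_pos'
    set κ : ℝ := min (κ1 / c) κ4 with hκdef
    have hκ : 0 < κ := lt_min (by positivity) hκ4
    obtain ⟨D, hD, habs⟩ := g4c_absorb (M + 1) κ hκ
    have hC3s : 0 ≤ ∑ f : Fin (k 0) → Fin n, C3 f := Finset.sum_nonneg fun f _ => (hC3 f).le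
    set E : ℝ := c / A0 * (c ^ k 0 * ∑ f : Fin (k 0) → Fin n, C3 f)
      + C1 * c * ((1 + c) ^ k 0 * (C2 * c ^ M)) with hE
    have hE0 : 0 < E := by positivity
    refine ⟨E * D, κ / 2, by positivity, by positivity, ?_⟩
    intro s P hs hP h1 h2
    have hPD : PD P := g4c_PD hP (show 0 < s / c by positivity) h1
    have e10 : nrm (Fin.cons 1 0 : Fin (n + 1) → ℂ) = 1 := by
      rw [g4c_nrm_cons, norm_one, one_pow, nrm]
      simp
    have hq0 : ∀ Q : Mc n, hq Q 0 = 0 := by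
      intro Q
      unfold hq
      simp
    have hP00 : hq P (Fin.cons 1 0 : Fin (n + 1) → ℂ) = (P 0 0).re := by
      unfold hq
      congr 1
      simp only [dotProduct, Matrix.mulVec, Fin.sum_univ_succ, Pi.star_apply, Fin.cons_zero,
        Fin.cons_succ, Pi.zero_apply, mul_zero, star_zero, zero_mul, Finset.sum_const_zero,
        add_zero, star_one, one_mul, mul_one]
    set H : ℝ := (P 0 0).re with hHdef
    have hH1 : s / c ≤ H := by
      have := h1 (Fin.cons 1 0)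
      rw [e10, hP00, mul_one] at this
      exact this
    have hH2 : H ≤ c * s := by
      have := h2 (Fin.cons 1 0)
      rw [e10, hP00, mul_one] at this
      exact this
    have hH : 0 < H := (show 0 < s / c by positivity).trans_le hH1
    obtain ⟨β, P', hP', hform⟩ := g4c_form P hP hH
    rw [← hHdef] at hform
    have hlow : ∀ u, s / c * nrm u ≤ hq P' u := by
      intro u
      have h3 := h1 (Fin.cons (-(β ⬝ᵥ u)) u)
      rw [hform, neg_add_cancel, norm_zero, g4c_nrm_cons] at h3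
      have h4 : 0 ≤ s / c * ‖-(β ⬝ᵥ u)‖ ^ 2 := by positivity
      nlinarith
    have hcom : ∀ u, H * ‖β ⬝ᵥ u‖ ^ 2 + hq P' u ≤ c * s * nrm u := by
      intro u
      have h3 := h2 (Fin.cons 0 u)
      rw [hform, zero_add, g4c_nrm_cons, norm_zero] at h3
      simpa using h3
    have hup : ∀ u, hq P' u ≤ c * s * nrm u := by
      intro u
      have h3 := hcom u
      have h4 : 0 ≤ H * ‖β ⬝ᵥ u‖ ^ 2 := by positivity
      linarith
    have hβ : ∀ u, ‖β ⬝ᵥ u‖ ^ 2 ≤ c ^ 2 * nrm u := by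
      intro u
      have h3 := hcom u
      have h4 := hlow u
      have h5 : 0 ≤ s / c * nrm u := mul_nonneg (by positivity) (nrm_nonneg u)
      have h6 : s / c * ‖β ⬝ᵥ u‖ ^ 2 ≤ H * ‖β ⬝ᵥ u‖ ^ 2 :=
        mul_le_mul_of_nonneg_right hH1 (by positivity)
      have h7 : s / c * ‖β ⬝ᵥ u‖ ^ 2 ≤ s / c * (c ^ 2 * nrm u) := by
        have h8 : s / c * (c ^ 2 * nrm u) = c * s * nrm u := by
          field_simp
        rw [h8]
        linarith
      exact le_of_mul_le_mul_left h7 (by positivity)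
    have hβe : ∀ j, ‖β j‖ ≤ c := by
      intro j
      have h3 := hβ (Pi.single j 1)
      have h4 : nrm (Pi.single j 1 : Fin n → ℂ) = 1 := by
        unfold nrm
        rw [Finset.sum_eq_single j]
        · simp
        · intro i _ hi
          rw [Pi.single_eq_of_ne hi]
          simp
        · intro h
          exact absurd (Finset.mem_univ j) h
      rw [dotProduct_single, mul_one, h4, mul_one] at h3
      exact le_of_sq_le_sq h3 hc0.le
    have hPD' : PD P' := g4c_PD hP' (show 0 < s / c by positivity) hlow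
    obtain ⟨hS1, hS2⟩ := g4c_iter hPD hform w x k
    obtain ⟨hS3, hS4⟩ := g4c_lin hPD' (Fin.tail w) (Fin.tail x)
      (fun u => mo (Fin.tail k) u * (-conj (β ⬝ᵥ u)) ^ k 0) Finset.univ
      (fun f : Fin (k 0) → Fin n => ∏ j, (-conj (β (f j)))) (fun f => Fin.tail k + g4c_cnt f)
      (g4c_expand (k 0) β (Fin.tail k))
    set μ : ℂ := g4c_m (w 0) (x 0) * (1 / ((A0 : ℂ) * H)) with hμ
    have hμn : ‖μ‖ ≤ c / A0 * (1 / s) := by
      rw [hμ, norm_mul, norm_div, norm_one, norm_mul, Complex.norm_real, Complex.norm_real,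
        Real.norm_eq_abs, Real.norm_eq_abs, abs_of_pos hA0, abs_of_pos hH]
      calc ‖g4c_m (w 0) (x 0)‖ * (1 / (A0 * H)) ≤ 1 * (1 / (A0 * H)) :=
            mul_le_mul_of_nonneg_right (g4c_m_norm _ _) (by positivity)
        _ ≤ 1 / (A0 * (s / c)) := by
            rw [one_mul]
            exact one_div_le_one_div_of_le (by positivity)
              (mul_le_mul_of_nonneg_left hH1 hA0.le)
        _ = c / A0 * (1 / s) := by
            field_simp
    -- the main term
    have hmain : ‖μ * th (Fin.tail w) (Fin.tail x)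
        (fun u => mo (Fin.tail k) u * (-conj (β ⬝ᵥ u)) ^ k 0) P'‖ ≤
        c / A0 * (c ^ k 0 * ∑ f : Fin (k 0) → Fin n, C3 f) * ((1 + 1 / s) ^ (M + 1) *
          Real.exp (-(κ / s))) := by
      rw [norm_mul, hS4]
      have h3 : ‖∑ f : Fin (k 0) → Fin n, (∏ j, (-conj (β (f j)))) *
          th (Fin.tail w) (Fin.tail x) (mo (Fin.tail k + g4c_cnt f)) P'‖ ≤
          (c ^ k 0 * ∑ f : Fin (k 0) → Fin n, C3 f) * Real.exp (-(κ / s)) := by
        refine (norm_sum_le _ _).trans ?_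
        rw [mul_assoc, Finset.sum_mul, Finset.mul_sum]
        refine Finset.sum_le_sum fun f _ => ?_
        rw [norm_mul, norm_prod]
        have h4 : ∏ j, ‖-conj (β (f j))‖ ≤ c ^ k 0 := by
          calc ∏ j, ‖-conj (β (f j))‖ ≤ ∏ _j : Fin (k 0), c :=
                Finset.prod_le_prod (fun _ _ => norm_nonneg _) fun j _ => by
                  rw [norm_neg, Complex.norm_conj]
                  exact hβe _
            _ = c ^ k 0 := by
                rw [Finset.prod_const, Finset.card_univ, Fintype.card_fin]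
        refine mul_le_mul h4 ?_ (norm_nonneg _) (by positivity)
        refine (hIH f s P' hs hP' hlow hup).trans ?_
        refine mul_le_mul_of_nonneg_left (Real.exp_le_exp.2 (neg_le_neg ?_)) (hC3 f).le
        exact div_le_div_of_nonneg_right ((min_le_right _ _).trans
          (hκ4le f (Finset.mem_univ f))) hs.le
      have h5 : (1 : ℝ) / s ≤ (1 + 1 / s) ^ (M + 1) := by
        have h6 : 0 < 1 / s := by positivity
        calc (1 : ℝ) / s ≤ (1 + 1 / s) ^ 1 := by linarith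
          _ ≤ (1 + 1 / s) ^ (M + 1) := pow_le_pow_right₀ (by linarith) (by omega)
      calc ‖μ‖ * ‖∑ f : Fin (k 0) → Fin n, (∏ j, (-conj (β (f j)))) *
          th (Fin.tail w) (Fin.tail x) (mo (Fin.tail k + g4c_cnt f)) P'‖
          ≤ (c / A0 * (1 / s)) * ((c ^ k 0 * ∑ f : Fin (k 0) → Fin n, C3 f) *
            Real.exp (-(κ / s))) :=
            mul_le_mul hμn h3 (norm_nonneg _) (by positivity)
        _ ≤ (c / A0 * (1 + 1 / s) ^ (M + 1)) * ((c ^ k 0 * ∑ f : Fin (k 0) → Fin n, C3 f) *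
            Real.exp (-(κ / s))) := by
            refine mul_le_mul_of_nonneg_right ?_ (by positivity)
            exact mul_le_mul_of_nonneg_left h5 (by positivity)
        _ = _ := by ring
    -- the error term
    have hdiff : th w x (mo k) P - μ * th (Fin.tail w) (Fin.tail x)
        (fun u => mo (Fin.tail k) u * (-conj (β ⬝ᵥ u)) ^ k 0) P' =
        ∑' m : Fin n → Eis, (ch (Fin.tail w) (Fin.tail x + em m)
          * mo (Fin.tail k) (Fin.tail x + em m)
          * ((Real.exp (-(Real.pi * hq P' (Fin.tail x + em m))) : ℝ) : ℂ))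
          * (g4c_in (k 0) H (w 0) (x 0) (β ⬝ᵥ (Fin.tail x + em m))
            - μ * (-conj (β ⬝ᵥ (Fin.tail x + em m))) ^ k 0) := by
      have h3 : μ * th (Fin.tail w) (Fin.tail x)
          (fun u => mo (Fin.tail k) u * (-conj (β ⬝ᵥ u)) ^ k 0) P' =
          ∑' m : Fin n → Eis, μ * (ch (Fin.tail w) (Fin.tail x + em m)
          * (mo (Fin.tail k) (Fin.tail x + em m) * (-conj (β ⬝ᵥ (Fin.tail x + em m))) ^ k 0)
          * ((Real.exp (-(Real.pi * hq P' (Fin.tail x + em m))) : ℝ) : ℂ)) := tsum_mul_left.symm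
      rw [h3, hS2, ← hS1.tsum_sub (hS3.mul_left μ)]
      refine tsum_congr fun m => ?_
      ring
    have hterm : ∀ m : Fin n → Eis, ‖(ch (Fin.tail w) (Fin.tail x + em m)
          * mo (Fin.tail k) (Fin.tail x + em m)
          * ((Real.exp (-(Real.pi * hq P' (Fin.tail x + em m))) : ℝ) : ℂ))
          * (g4c_in (k 0) H (w 0) (x 0) (β ⬝ᵥ (Fin.tail x + em m))
            - μ * (-conj (β ⬝ᵥ (Fin.tail x + em m))) ^ k 0)‖ ≤
        (C1 * (1 + 1 / H) * Real.exp (-(κ1 / H)) * (1 + c) ^ k 0) *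
          ((1 + nrm (Fin.tail x + em m)) ^ ((∑ i, Fin.tail k i) + k 0) *
            Real.exp (-(Real.pi * (s / c) * nrm (Fin.tail x + em m)))) := by
      intro m
      set v := Fin.tail x + em m with hv
      have hn0 := nrm_nonneg v
      rw [norm_mul]
      have a1 := g3_norm_term (Fin.tail k) (Fin.tail w) v P'
      have a2 := hin H hH (x 0) (β ⬝ᵥ v)
      have a3 : 1 + ‖β ⬝ᵥ v‖ ≤ (1 + c) * (1 + nrm v) := by
        have h3 := hβ v
        have h4 : ‖β ⬝ᵥ v‖ ≤ c * (1 + nrm v) := by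
          apply le_of_sq_le_sq _ (by positivity)
          refine h3.trans ?_
          rw [mul_pow]
          refine mul_le_mul_of_nonneg_left ?_ (by positivity)
          nlinarith
        nlinarith
      have a4 : (1 + ‖β ⬝ᵥ v‖) ^ k 0 ≤ (1 + c) ^ k 0 * (1 + nrm v) ^ k 0 := by
        rw [← mul_pow]
        exact pow_le_pow_left₀ (by positivity) a3 _
      have a5 : Real.exp (-(Real.pi * hq P' v)) ≤ Real.exp (-(Real.pi * (s / c) * nrm v)) := by
        apply Real.exp_le_exp.2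
        apply neg_le_neg
        rw [mul_assoc]
        exact mul_le_mul_of_nonneg_left (hlow v) Real.pi_pos.le
      have hB : 0 ≤ C1 * (1 + 1 / H) * Real.exp (-(κ1 / H)) := by positivity
      calc _ ≤ ((1 + nrm v) ^ (∑ i, Fin.tail k i) * Real.exp (-(Real.pi * hq P' v))) *
            (C1 * (1 + 1 / H) * Real.exp (-(κ1 / H)) * (1 + ‖β ⬝ᵥ v‖) ^ k 0) :=
            mul_le_mul a1 a2 (norm_nonneg _) (by positivity)
        _ ≤ ((1 + nrm v) ^ (∑ i, Fin.tail k i) * Real.exp (-(Real.pi * (s / c) * nrm v))) *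
            (C1 * (1 + 1 / H) * Real.exp (-(κ1 / H)) * ((1 + c) ^ k 0 * (1 + nrm v) ^ k 0)) := by
            refine mul_le_mul (mul_le_mul_of_nonneg_left a5 (by positivity))
              (mul_le_mul_of_nonneg_left a4 hB) (by positivity) (by positivity)
        _ = _ := by
            rw [pow_add]
            ring
    have hsm := (g3_nrm_summable (n := n) ((∑ i, Fin.tail k i) + k 0)
      (show 0 < s / c by positivity) (Fin.tail x)).mul_left
        (C1 * (1 + 1 / H) * Real.exp (-(κ1 / H)) * (1 + c) ^ k 0)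
    have herr : ‖th w x (mo k) P - μ * th (Fin.tail w) (Fin.tail x)
        (fun u => mo (Fin.tail k) u * (-conj (β ⬝ᵥ u)) ^ k 0) P'‖ ≤
        C1 * c * ((1 + c) ^ k 0 * (C2 * c ^ M)) * ((1 + 1 / s) ^ (M + 1) *
          Real.exp (-(κ / s))) := by
      rw [hdiff]
      refine (tsum_of_norm_bounded hsm.hasSum hterm).trans ?_
      rw [tsum_mul_left]
      have b1 := hsum (s / c) (by positivity)
      have b2 : 1 + 1 / (s / c) ≤ c * (1 + 1 / s) := by
        have : 1 / (s / c) = c * (1 / s) := by field_simp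
        rw [this]
        nlinarith
      have b3 : 1 + 1 / H ≤ c * (1 + 1 / s) := by
        refine le_trans ?_ b2
        have := one_div_le_one_div_of_le (show 0 < s / c by positivity) hH1
        linarith
      have b4 : Real.exp (-(κ1 / H)) ≤ Real.exp (-(κ / s)) := by
        apply Real.exp_le_exp.2
        apply neg_le_neg
        calc κ / s ≤ κ1 / c / s := div_le_div_of_nonneg_right (min_le_left _ _) hs.le
          _ = κ1 / (c * s) := by rw [div_div]
          _ ≤ κ1 / H := div_le_div_of_nonneg_left hκ1.le hH hH2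
      have b5 : (1 + 1 / (s / c)) ^ M ≤ c ^ M * (1 + 1 / s) ^ M := by
        rw [← mul_pow]
        exact pow_le_pow_left₀ (by positivity) b2 _
      calc C1 * (1 + 1 / H) * Real.exp (-(κ1 / H)) * (1 + c) ^ k 0 *
            ∑' m : Fin n → Eis, (1 + nrm (Fin.tail x + em m)) ^ ((∑ i, Fin.tail k i) + k 0) *
            Real.exp (-(Real.pi * (s / c) * nrm (Fin.tail x + em m)))
          ≤ C1 * (c * (1 + 1 / s)) * Real.exp (-(κ / s)) * (1 + c) ^ k 0 *
            (C2 * (c ^ M * (1 + 1 / s) ^ M)) := by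
            refine mul_le_mul ?_ (b1.trans (mul_le_mul_of_nonneg_left b5 hC2.le))
              (tsum_nonneg fun m => by have := nrm_nonneg (Fin.tail x + em m); positivity)
              (by positivity)
            refine mul_le_mul_of_nonneg_right ?_ (by positivity)
            exact mul_le_mul (mul_le_mul_of_nonneg_left b3 hC1.le) b4 (Real.exp_pos _).le
              (by positivity)
        _ = _ := by
            rw [pow_succ]
            ring
    have hfin : ‖th w x (mo k) P‖ ≤ E * ((1 + 1 / s) ^ (M + 1) * Real.exp (-(κ / s))) := by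
      have h3 : th w x (mo k) P = (th w x (mo k) P - μ * th (Fin.tail w) (Fin.tail x)
        (fun u => mo (Fin.tail k) u * (-conj (β ⬝ᵥ u)) ^ k 0) P') + μ * th (Fin.tail w) (Fin.tail x)
        (fun u => mo (Fin.tail k) u * (-conj (β ⬝ᵥ u)) ^ k 0) P' := by ring
      rw [h3]
      refine (norm_add_le _ _).trans ?_
      rw [hE, add_mul]
      linarith
    refine hfin.trans ?_
    rw [mul_assoc]
    exact mul_le_mul_of_nonneg_left (habs s hs) hE0.le

theorem TB_small (w x : Fin n → ℂ) (c : ℝ) (hc : 1 ≤ c) (k : Fin n → ℕ) (hk : k ≠ 0) :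
    ∃ C κ : ℝ, 0 < C ∧ 0 < κ ∧ ∀ (s : ℝ) (P : Mc n), 0 < s → s ≤ 1 → P.IsHermitian →
      (∀ v, s / c * nrm v ≤ hq P v) → (∀ v, hq P v ≤ c * s * nrm v) →
      ‖th w x (mo k) P‖ ≤ C * Real.exp (-(κ / s)) := by
  obtain ⟨C, κ, hC, hκ, h⟩ := g4c_main n w x c hc k hk
  exact ⟨C, κ, hC, hκ, fun s P hs _ hP h1 h2 => h s P hs hP h1 h2⟩

theorem g4c_gap (x : Fin n → ℂ) (hx : x ∉ Lz n) : ∃ μ : ℝ, 0 < μ ∧ ∀ m : Fin n → Eis,
    μ ≤ nrm (x + em m) := by
  have h1 : ∃ i, x i ∉ Set.range emb := by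
    by_contra hcon
    push Not at hcon
    choose a ha using hcon
    exact hx ⟨a, funext fun i => ha i⟩
  obtain ⟨i, hi⟩ := h1
  obtain ⟨δ, hδ, hb⟩ := a2a_gap (x i) hi
  refine ⟨δ ^ 2, by positivity, fun m => ?_⟩
  have h2 : ‖x i + emb (m i)‖ ^ 2 ≤ nrm (x + em m) :=
    Finset.single_le_sum (f := fun i => ‖(x + em m) i‖ ^ 2) (fun i _ => by positivity)
      (Finset.mem_univ i)
  exact (pow_le_pow_left₀ hδ.le (hb (m i)) 2).trans h2

theorem TB_large (w x : Fin n → ℂ) (hx : x ∉ Lz n) (c : ℝ) (hc : 1 ≤ c) (k : Fin n → ℕ) :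
    ∃ C κ : ℝ, 0 < C ∧ 0 < κ ∧ ∀ (s : ℝ) (P : Mc n), 1 ≤ s → P.IsHermitian →
      (∀ v, s / c * nrm v ≤ hq P v) →
      ‖th w x (mo k) P‖ ≤ C * Real.exp (-(κ * s)) := by
  have hc0 : 0 < c := by linarith
  obtain ⟨μ, hμ, hgap⟩ := g4c_gap x hx
  have hsm := g3_nrm_summable (∑ i, k i) (show (0 : ℝ) < 1 / (2 * c) by positivity) x
  refine ⟨(∑' m : Fin n → Eis, (1 + nrm (x + em m)) ^ (∑ i, k i) *
    Real.exp (-(Real.pi * (1 / (2 * c)) * nrm (x + em m)))) + 1, Real.pi * μ / (2 * c), ?_,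
    by have := Real.pi_pos; positivity, ?_⟩
  · have : 0 ≤ ∑' m : Fin n → Eis, (1 + nrm (x + em m)) ^ (∑ i, k i) *
      Real.exp (-(Real.pi * (1 / (2 * c)) * nrm (x + em m))) :=
      tsum_nonneg fun m => by have := nrm_nonneg (x + em m); positivity
    linarith
  intro s P hs hP h1
  have hpi := Real.pi_pos
  have hb : ∀ m : Fin n → Eis, ‖ch w (x + em m) * mo k (x + em m)
      * ((Real.exp (-(Real.pi * hq P (x + em m))) : ℝ) : ℂ)‖ ≤
      Real.exp (-(Real.pi * μ / (2 * c) * s)) * ((1 + nrm (x + em m)) ^ (∑ i, k i) *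
    Real.exp (-(Real.pi * (1 / (2 * c)) * nrm (x + em m)))) := by
    intro m
    refine (g3_norm_term k w (x + em m) P).trans ?_
    have hn0 := nrm_nonneg (x + em m)
    have h2 : Real.exp (-(Real.pi * hq P (x + em m))) ≤
        Real.exp (-(Real.pi * μ / (2 * c) * s)) *
          Real.exp (-(Real.pi * (1 / (2 * c)) * nrm (x + em m))) := by
      rw [← Real.exp_add]
      apply Real.exp_le_exp.2
      have h3 := h1 (x + em m)
      have h4 := hgap m
      have h5 : s / c * nrm (x + em m) = s / (2 * c) * nrm (x + em m)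
          + s / (2 * c) * nrm (x + em m) := by
        field_simp
        ring
      have h6 : s / (2 * c) * μ ≤ s / (2 * c) * nrm (x + em m) :=
        mul_le_mul_of_nonneg_left h4 (by positivity)
      have h7 : 1 / (2 * c) * nrm (x + em m) ≤ s / (2 * c) * nrm (x + em m) :=
        mul_le_mul_of_nonneg_right (div_le_div_of_nonneg_right hs (by positivity)) hn0
      have h8 : s / (2 * c) * μ + 1 / (2 * c) * nrm (x + em m) ≤ hq P (x + em m) := by linarith
      have h9 := mul_le_mul_of_nonneg_left h8 hpi.le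
      have h10 : Real.pi * μ / (2 * c) * s + Real.pi * (1 / (2 * c)) * nrm (x + em m) =
          Real.pi * (s / (2 * c) * μ + 1 / (2 * c) * nrm (x + em m)) := by ring
      linarith
    calc (1 + nrm (x + em m)) ^ (∑ i, k i) * Real.exp (-(Real.pi * hq P (x + em m)))
        ≤ (1 + nrm (x + em m)) ^ (∑ i, k i) * (Real.exp (-(Real.pi * μ / (2 * c) * s)) *
          Real.exp (-(Real.pi * (1 / (2 * c)) * nrm (x + em m)))) :=
          mul_le_mul_of_nonneg_left h2 (by positivity)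
      _ = _ := by ring
  refine (tsum_of_norm_bounded (hsm.mul_left _).hasSum hb).trans ?_
  rw [tsum_mul_left, mul_comm]
  refine mul_le_mul_of_nonneg_right ?_ (Real.exp_pos _).le
  linarith

theorem TB (w x : Fin n → ℂ) (hx : x ∉ Lz n) (c : ℝ) (hc : 1 ≤ c) (k : Fin n → ℕ) (hk : k ≠ 0) :
    ∃ C κ : ℝ, 0 < C ∧ 0 < κ ∧ ∀ (s : ℝ) (P : Mc n), 0 < s → P.IsHermitian →
      (∀ v, s / c * nrm v ≤ hq P v) → (∀ v, hq P v ≤ c * s * nrm v) →
      ‖th w x (mo k) P‖ ≤ C * Real.exp (-(κ * (s + 1 / s))) := by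
  obtain ⟨C1, κ1, hC1, hκ1, h1⟩ := TB_small w x c hc k hk
  obtain ⟨C2, κ2, hC2, hκ2, h2⟩ := TB_large w x hx c hc k
  set κ : ℝ := min κ1 κ2 with hκ
  have hκ0 : 0 < κ := lt_min hκ1 hκ2
  refine ⟨(C1 + C2) * Real.exp κ, κ, by positivity, hκ0, fun s P hs hP h3 h4 => ?_⟩
  have key : ∀ t : ℝ, t ≤ 1 → Real.exp (-(κ * (s + 1 / s)) + κ * t) ≤
      Real.exp κ * Real.exp (-(κ * (s + 1 / s))) := by
    intro t ht
    rw [← Real.exp_add]
    apply Real.exp_le_exp.2
    nlinarith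
  rcases le_or_gt s 1 with hs1 | hs1
  · refine (h1 s P hs hs1 hP h3 h4).trans ?_
    have e1 : Real.exp (-(κ1 / s)) ≤ Real.exp (-(κ * (s + 1 / s)) + κ * s) := by
      apply Real.exp_le_exp.2
      have e2 : κ / s ≤ κ1 / s := div_le_div_of_nonneg_right (min_le_left _ _) hs.le
      have e3 : κ * (s + 1 / s) = κ * s + κ / s := by ring
      linarith
    calc C1 * Real.exp (-(κ1 / s)) ≤ (C1 + C2) * Real.exp (-(κ1 / s)) :=
          mul_le_mul_of_nonneg_right (by linarith) (Real.exp_pos _).le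
      _ ≤ (C1 + C2) * (Real.exp κ * Real.exp (-(κ * (s + 1 / s)))) :=
          mul_le_mul_of_nonneg_left (e1.trans (key s hs1)) (by positivity)
      _ = _ := by ring
  · refine (h2 s P hs1.le hP h3).trans ?_
    have hs' : 1 / s ≤ 1 := by
      rw [div_le_one hs]
      exact hs1.le
    have e1 : Real.exp (-(κ2 * s)) ≤ Real.exp (-(κ * (s + 1 / s)) + κ * (1 / s)) := by
      apply Real.exp_le_exp.2
      have e2 : κ * s ≤ κ2 * s := mul_le_mul_of_nonneg_right (min_le_right _ _) hs.le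
      have e3 : κ * (s + 1 / s) = κ * s + κ * (1 / s) := by ring
      linarith
    calc C2 * Real.exp (-(κ2 * s)) ≤ (C1 + C2) * Real.exp (-(κ2 * s)) :=
          mul_le_mul_of_nonneg_right (by linarith) (Real.exp_pos _).le
      _ ≤ (C1 + C2) * (Real.exp κ * Real.exp (-(κ * (s + 1 / s)))) :=
          mul_le_mul_of_nonneg_left (e1.trans (key _ hs')) (by positivity)
      _ = _ := by ring

end NG
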