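import Pool.Agent.MP_9ab903_nt.NG.G5a

/-! ## [NG-G5b] the cocycle property

As `NAB/A4.lean`: `R` a PD form, `η > 0`, `G η P = ∑_m ch w v · nu P v / ∏ hq (P_i) v · exp(-π η hq R v)` (`v = x + em m ≠ 0`), absolutely
convergent. (a) `G η P = πⁿ ∫_{qd} th w x (nu P) (∑ a_i P_i + η R)` (Fubini; `∫_{qd} e^{-π ∑ a_i A_i} = π^{-n} ∏ A_i^{-1}`), (b) the alternating
sum of `G η` vanishes termwise by `nu_cocycle` divided by `∏_{all} hq (P_i) v`, (c) `η → 0+` by dominated convergence (`TB` with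
`s = ∑ a_i + η`). -/

set_option autoImplicit false

open scoped ComplexConjugate Matrix
open MeasureTheory Set Filter Topology

namespace NG

open CM27 NAB

variable {n : ℕ}

theorem g5b_ne {x : Fin n → ℂ} (hx : x ∉ Lz n) (m : Fin n → Eis) : x + em m ≠ 0 := by
  intro h
  apply hx
  refine ⟨-m, ?_⟩
  have h1 : x = - em m := eq_neg_of_add_eq_zero_left h
  rw [h1]
  funext i
  simp [em]

theorem g5b_PDpos {P : Mc n} (hP : PD P) {x : Fin n → ℂ} (hx : x ∉ Lz n) (m : Fin n → Eis) :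
    0 < hq P (x + em m) := hP.2 _ (g5b_ne hx m)

/-- the values of a positive definite form are eventually at least `1` -/
theorem g5b_ev {P : Mc n} (hP : PD P) (x : Fin n → ℂ) :
    ∀ᶠ m : Fin n → Eis in cofinite, 1 ≤ hq P (x + em m) := by
  have h1 := (th_summable hP 0 x).tendsto_cofinite_zero
  have h2 : ∀ᶠ m : Fin n → Eis in cofinite, (1 + nrm (x + em m)) ^ 0
      * Real.exp (-(Real.pi * hq P (x + em m))) < Real.exp (-(Real.pi * 1)) :=
    h1.eventually (gt_mem_nhds (Real.exp_pos _))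
  filter_upwards [h2] with m hm
  rw [pow_zero, one_mul, Real.exp_lt_exp, neg_lt_neg_iff] at hm
  exact (lt_of_mul_lt_mul_left hm Real.pi_pos.le).le

/-- the numerator -/
noncomputable def g5b_a (w x : Fin n → ℂ) (P : Fin n → Mc n) (R : Mc n) (η : ℝ)
    (m : Fin n → Eis) : ℂ :=
  ch w (x + em m) * nu P (x + em m)
    * ((Real.exp (-(Real.pi * hq ((η : ℂ) • R) (x + em m))) : ℝ) : ℂ)

/-- the coefficient after the integration -/
noncomputable def g5b_c (w x : Fin n → ℂ) (P : Fin n → Mc n) (R : Mc n) (η : ℝ)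
    (m : Fin n → Eis) : ℂ :=
  g5b_a w x P R η m / ((∏ i, hq (P i) (x + em m) : ℝ) : ℂ)

theorem g5b_PD_smul {R : Mc n} (hR : PD R) {η : ℝ} (hη : 0 < η) : PD ((η : ℂ) • R) := by
  have h := PD_comb (fun _ : Unit => R) (fun _ => hR) (fun _ => η) (fun _ => hη)
  simpa using h

theorem g5b_c_summable (w : Fin n → ℂ) {x : Fin n → ℂ} {P : Fin n → Mc n} {R : Mc n}
    (hP : ∀ i, PD (P i)) (hR : PD R) {η : ℝ} (hη : 0 < η) :
    Summable (g5b_c w x P R η) := by
  refine Summable.of_norm_bounded_eventually (nu_summable (g5b_PD_smul hR hη) P w x).norm ?_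
  have h : ∀ᶠ m : Fin n → Eis in cofinite, ∀ i, 1 ≤ hq (P i) (x + em m) :=
    eventually_all.2 fun i => g5b_ev (hP i) x
  filter_upwards [h] with m h1
  unfold g5b_c
  rw [norm_div, Complex.norm_real, Real.norm_eq_abs]
  have h3 : (1 : ℝ) ≤ ∏ i, hq (P i) (x + em m) := by
    have h4 := Finset.prod_le_prod (s := (Finset.univ : Finset (Fin n))) (f := fun _ => (1 : ℝ))
      (g := fun i => hq (P i) (x + em m)) (fun _ _ => zero_le_one) (fun i _ => h1 i)
    simpa using h4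
  rw [abs_of_nonneg (by linarith)]
  exact div_le_self (norm_nonneg _) h3

/-- the termwise cocycle identity -/
theorem g5b_c_cocycle (w : Fin n → ℂ) {x : Fin n → ℂ} (hx : x ∉ Lz n) {P : Fin (n + 1) → Mc n}
    (hP : ∀ i, PD (P i)) (R : Mc n) (η : ℝ) (m : Fin n → Eis) :
    ∑ j : Fin (n + 1), (-1 : ℂ) ^ (j : ℕ) * g5b_c w x (fun i => P (j.succAbove i)) R η m = 0 := by
  have hne : ∀ i, ((hq (P i) (x + em m) : ℝ) : ℂ) ≠ 0 := fun i => by
    exact_mod_cast (g5b_PDpos (hP i) hx m).ne'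
  have h := nu_cocycle P (fun j => (hP j).1) (x + em m)
  have h2 : ∀ j : Fin (n + 1), (-1 : ℂ) ^ (j : ℕ) * g5b_c w x (fun i => P (j.succAbove i)) R η m =
      (ch w (x + em m) * ((Real.exp (-(Real.pi * hq ((η : ℂ) • R) (x + em m))) : ℝ) : ℂ)
        / ((∏ i, hq (P i) (x + em m) : ℝ) : ℂ)) *
      ((-1 : ℂ) ^ (j : ℕ) * (hq (P j) (x + em m) : ℂ) * nu (fun i => P (j.succAbove i)) (x + em m)) := by
    intro j
    unfold g5b_c g5b_a
    rw [Fin.prod_univ_succAbove (fun i => hq (P i) (x + em m)) j]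
    have h3 : ((∏ i : Fin n, hq (P (j.succAbove i)) (x + em m) : ℝ) : ℂ) ≠ 0 := by
      push_cast
      exact Finset.prod_ne_zero_iff.2 fun i _ => hne _
    have h4 := hne j
    rw [Complex.ofReal_mul]
    field_simp
  rw [Finset.sum_congr rfl fun j _ => h2 j, ← Finset.mul_sum, h, mul_zero]

/-- the integrand of one term -/
noncomputable def g5b_F (w x : Fin n → ℂ) (P : Fin n → Mc n) (R : Mc n) (η : ℝ)
    (m : Fin n → Eis) (a : Fin n → ℝ) : ℂ :=
  ch w (x + em m) * nu P (x + em m) *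
    ((Real.exp (-(Real.pi * hq (∑ i, (a i : ℂ) • P i + (η : ℂ) • R) (x + em m))) : ℝ) : ℂ)

theorem g5b_F_eq (w x : Fin n → ℂ) (P : Fin n → Mc n) (R : Mc n) (η : ℝ)
    (m : Fin n → Eis) (a : Fin n → ℝ) :
    g5b_F w x P R η m a = g5b_a w x P R η m *
      ((∏ i, Real.exp (-(Real.pi * hq (P i) (x + em m)) * a i) : ℝ) : ℂ) := by
  unfold g5b_F g5b_a
  rw [← Real.exp_sum, mul_assoc (ch w (x + em m) * nu P (x + em m)), ← Complex.ofReal_mul,
    ← Real.exp_add, hq_add, hq_sum]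
  congr 3
  rw [mul_add, Finset.mul_sum, neg_add, add_comm, ← Finset.sum_neg_distrib]
  congr 1
  refine Finset.sum_congr rfl fun i _ => ?_
  ring

theorem g5b_qd_eq : qd n = Set.pi univ (fun _ => Ioi (0 : ℝ)) := by
  ext a
  simp [qd]

theorem g5b_qd_meas : MeasurableSet (qd n) := by
  rw [g5b_qd_eq]
  exact MeasurableSet.univ_pi fun _ => measurableSet_Ioi

theorem g5b_restrict : (volume : Measure (Fin n → ℝ)).restrict (qd n) =
    Measure.pi fun _ => (volume : Measure ℝ).restrict (Ioi 0) := by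
  rw [g5b_qd_eq, volume_pi, Measure.restrict_pi_pi]

theorem g5b_int1 (p : Fin n → ℝ) (hp : ∀ i, 0 < p i) :
    IntegrableOn (fun a : Fin n → ℝ => ∏ i, Real.exp (-(Real.pi * p i) * a i)) (qd n) ∧
    ∫ a in qd n, ∏ i, Real.exp (-(Real.pi * p i) * a i) = 1 / (Real.pi ^ n * ∏ i, p i) := by
  have h1 : ∀ i, -(Real.pi * p i) < 0 := fun i => by
    have := mul_pos Real.pi_pos (hp i); linarith
  constructor
  · rw [IntegrableOn, g5b_restrict]
    exact Integrable.fintype_prod (f := fun i t => Real.exp (-(Real.pi * p i) * t))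
      fun i => integrableOn_exp_mul_Ioi (h1 i) 0
  · rw [g5b_restrict, integral_fintype_prod_eq_prod
      (f := fun i t => Real.exp (-(Real.pi * p i) * t))]
    have h2 : ∀ i, ∫ t in Ioi (0 : ℝ), Real.exp (-(Real.pi * p i) * t) = 1 / (Real.pi * p i) := by
      intro i
      rw [integral_exp_mul_Ioi (h1 i)]
      have := Real.pi_pos.ne'
      have := (hp i).ne'
      simp only [mul_zero, Real.exp_zero]
      field_simp
    rw [Finset.prod_congr rfl fun i _ => h2 i, Finset.prod_div_distrib, Finset.prod_mul_distrib]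
    simp

theorem g5b_F_int (w : Fin n → ℂ) {x : Fin n → ℂ} (hx : x ∉ Lz n) {P : Fin n → Mc n}
    (hP : ∀ i, PD (P i)) (R : Mc n) (η : ℝ) (m : Fin n → Eis) :
    IntegrableOn (g5b_F w x P R η m) (qd n) := by
  have h := (g5b_int1 (fun i => hq (P i) (x + em m)) fun i => g5b_PDpos (hP i) hx m).1
  have h2 := (h.ofReal (𝕜 := ℂ)).const_mul (g5b_a w x P R η m)
  refine h2.congr (Filter.Eventually.of_forall fun t => ?_)
  exact (g5b_F_eq w x P R η m t).symm

theorem g5b_F_integral (w : Fin n → ℂ) {x : Fin n → ℂ} (hx : x ∉ Lz n) {P : Fin n → Mc n}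
    (hP : ∀ i, PD (P i)) (R : Mc n) (η : ℝ) (m : Fin n → Eis) :
    ∫ t in qd n, g5b_F w x P R η m t = g5b_c w x P R η m / (Real.pi : ℂ) ^ n := by
  have h := (g5b_int1 (fun i => hq (P i) (x + em m)) fun i => g5b_PDpos (hP i) hx m).2
  simp_rw [g5b_F_eq]
  rw [integral_const_mul, integral_complex_ofReal, h]
  unfold g5b_c
  rw [Complex.ofReal_div, Complex.ofReal_mul, Complex.ofReal_pow, Complex.ofReal_one]
  have h3' : ((Real.pi : ℝ) : ℂ) ≠ 0 := by exact_mod_cast Real.pi_pos.ne'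
  have h4 : ((∏ i, hq (P i) (x + em m) : ℝ) : ℂ) ≠ 0 := by
    push_cast
    exact Finset.prod_ne_zero_iff.2 fun i _ => by exact_mod_cast (g5b_PDpos (hP i) hx m).ne'
  field_simp

theorem g5b_F_norm (w : Fin n → ℂ) {x : Fin n → ℂ} (hx : x ∉ Lz n) {P : Fin n → Mc n}
    (hP : ∀ i, PD (P i)) (R : Mc n) (η : ℝ) (m : Fin n → Eis) :
    ∫ t in qd n, ‖g5b_F w x P R η m t‖ = ‖g5b_c w x P R η m‖ / Real.pi ^ n := by
  have h := (g5b_int1 (fun i => hq (P i) (x + em m)) fun i => g5b_PDpos (hP i) hx m).2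
  have h3 : ∀ t : Fin n → ℝ, ‖g5b_F w x P R η m t‖ = ‖g5b_a w x P R η m‖ *
      (∏ i, Real.exp (-(Real.pi * hq (P i) (x + em m)) * t i)) := by
    intro t
    rw [g5b_F_eq, norm_mul, Complex.norm_real, Real.norm_eq_abs,
      abs_of_pos (Finset.prod_pos fun i _ => Real.exp_pos _)]
  simp_rw [h3]
  rw [integral_const_mul, h]
  unfold g5b_c
  have h4 : 0 < ∏ i, hq (P i) (x + em m) := Finset.prod_pos fun i _ => g5b_PDpos (hP i) hx m
  rw [norm_div, Complex.norm_real, Real.norm_eq_abs, abs_of_pos h4]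
  have := Real.pi_pos.ne'
  field_simp

theorem g5b_countable : Countable (Fin n → Eis) := by
  have h : Countable Eis := by
    have : Function.Injective (fun z : Eis => (z.re, z.im)) := fun a b h => by
      simp only [Prod.mk.injEq] at h
      exact QuadraticAlgebra.ext h.1 h.2
    exact this.countable
  infer_instance

/-- (a) -/
theorem g5b_fub (w : Fin n → ℂ) {x : Fin n → ℂ} (hx : x ∉ Lz n) {P : Fin n → Mc n} {R : Mc n}
    (hP : ∀ i, PD (P i)) (hR : PD R) {η : ℝ} (hη : 0 < η) :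
    (Real.pi : ℂ) ^ n * ∫ a in qd n, th w x (nu P) (∑ i, (a i : ℂ) • P i + (η : ℂ) • R) =
      ∑' m, g5b_c w x P R η m := by
  have hcount : Countable (Fin n → Eis) := g5b_countable
  have h1 := hasSum_integral_of_summable_integral_norm (μ := volume.restrict (qd n))
    (F := fun m : Fin n → Eis => g5b_F w x P R η m) (fun m => g5b_F_int w hx hP R η m) (by
      simp_rw [g5b_F_norm w hx hP R η]
      exact (g5b_c_summable w hP hR hη).norm.div_const _)
  simp_rw [g5b_F_integral w hx hP R η] at h1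
  have h2 := h1.tsum_eq
  rw [tsum_div_const] at h2
  have h3 : ∫ a in qd n, th w x (nu P) (∑ i, (a i : ℂ) • P i + (η : ℂ) • R) =
      ∫ t in qd n, ∑' m, g5b_F w x P R η m t := rfl
  rw [h3, ← h2]
  have h4 : ((Real.pi : ℝ) : ℂ) ≠ 0 := by exact_mod_cast Real.pi_pos.ne'
  field_simp

theorem g5b_min {ι : Type} (s : Finset ι) (f : ι → ℝ) (hf : ∀ i ∈ s, 0 < f i) :
    ∃ κ : ℝ, 0 < κ ∧ ∀ i ∈ s, κ ≤ f i := by
  classical
  induction s using Finset.induction_on with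
  | empty => exact ⟨1, one_pos, fun i hi => absurd hi (Finset.notMem_empty i)⟩
  | insert a s ha ih =>
    obtain ⟨κ, hκ, h⟩ := ih fun i hi => hf i (Finset.mem_insert_of_mem hi)
    refine ⟨min κ (f a), lt_min hκ (hf a (Finset.mem_insert_self a s)), fun i hi => ?_⟩
    rcases Finset.mem_insert.1 hi with rfl | hi
    · exact min_le_right _ _
    · exact (min_le_left _ _).trans (h i hi)

/-- the bound for the theta function with the polynomial `nu P` -/
theorem g5b_TB (hn : 1 ≤ n) (w x : Fin n → ℂ) (hx : x ∉ Lz n) (c : ℝ) (hc : 1 ≤ c)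
    (P : Fin n → Mc n) : ∃ C κ : ℝ, 0 < C ∧ 0 < κ ∧ ∀ (s : ℝ) (H : Mc n), 0 < s → H.IsHermitian →
      (∀ v, s / c * nrm v ≤ hq H v) → (∀ v, hq H v ≤ c * s * nrm v) →
      ‖th w x (nu P) H‖ ≤ C * Real.exp (-(κ * (s + 1 / s))) := by
  obtain ⟨cf, -, hcf⟩ := nu_poly n
  have hk0 : ∀ k ∈ deg n, k ≠ 0 := by
    intro k hk h0
    unfold deg at hk
    rw [Finset.mem_filter] at hk
    have h1 := hk.2
    rw [h0] at h1
    simp at h1
    omega
  choose! C κ hC hκ hTB using fun (k : Fin n → ℕ) (hk : k ∈ deg n) => TB w x hx c hc k (hk0 k hk)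
  obtain ⟨κ0, hκ0, hκm⟩ := g5b_min (deg n) κ hκ
  refine ⟨∑ k ∈ deg n, ‖cf k P‖ * C k + 1, κ0, ?_, hκ0, ?_⟩
  · have : 0 ≤ ∑ k ∈ deg n, ‖cf k P‖ * C k :=
      Finset.sum_nonneg fun k hk => mul_nonneg (norm_nonneg _) (hC k hk).le
    linarith
  intro s H hs hH h1 h2
  have hPD : PD H := by
    refine ⟨hH, fun v hv => lt_of_lt_of_le ?_ (h1 v)⟩
    have := nrm_pos hv
    have : 0 < c := by linarith
    positivity
  rw [th_nu w x (fun k => cf k P) (nu P) (fun v => hcf P v) hPD]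
  have h3 : ‖∑ k ∈ deg n, cf k P * th w x (mo k) H‖ ≤
      ∑ k ∈ deg n, ‖cf k P‖ * (C k * Real.exp (-(κ0 * (s + 1 / s)))) := by
    refine norm_sum_le_of_le _ fun k hk => ?_
    rw [norm_mul]
    refine mul_le_mul_of_nonneg_left ((hTB k hk s H hs hH h1 h2).trans ?_) (norm_nonneg _)
    refine mul_le_mul_of_nonneg_left (Real.exp_le_exp.2 (neg_le_neg ?_)) (hC k hk).le
    exact mul_le_mul_of_nonneg_right (hκm k hk) (by positivity)
  refine h3.trans ?_
  rw [add_mul, Finset.sum_mul]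
  have h4 : 0 ≤ 1 * Real.exp (-(κ0 * (s + 1 / s))) := by positivity
  have h5 : ∑ k ∈ deg n, ‖cf k P‖ * (C k * Real.exp (-(κ0 * (s + 1 / s)))) =
      ∑ k ∈ deg n, ‖cf k P‖ * C k * Real.exp (-(κ0 * (s + 1 / s))) :=
    Finset.sum_congr rfl fun k _ => by ring
  linarith

/-- the forms `P_i` and `R` -/
def g5b_opt (P : Fin n → Mc n) (R : Mc n) : Option (Fin n) → Mc n
  | none => R
  | some i => P i

theorem g5b_opt_sum (P : Fin n → Mc n) (R : Mc n) (a : Fin n → ℝ) (η : ℝ) :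
    ∑ i, ((Option.elim i η a : ℝ) : ℂ) • g5b_opt P R i = ∑ i, (a i : ℂ) • P i + (η : ℂ) • R := by
  rw [Fintype.sum_option, add_comm]
  rfl

theorem g5b_opt_PD {P : Fin n → Mc n} {R : Mc n} (hP : ∀ i, PD (P i)) (hR : PD R) :
    ∀ i, PD (g5b_opt P R i)
  | none => hR
  | some i => hP i

theorem g5b_PD_sum {P : Fin n → Mc n} {R : Mc n} (hP : ∀ i, PD (P i)) (hR : PD R)
    (a : Fin n → ℝ) (ha : ∀ i, 0 < a i) {η : ℝ} (hη : 0 < η) :
    PD (∑ i, (a i : ℂ) • P i + (η : ℂ) • R) := by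
  rw [← g5b_opt_sum]
  refine PD_comb _ (g5b_opt_PD hP hR) (fun i => Option.elim i η a) ?_
  rintro (_ | i)
  · exact hη
  · exact ha i

/-- (c) -/
theorem g5b_lim (hn : 1 ≤ n) (w : Fin n → ℂ) {x : Fin n → ℂ} (hx : x ∉ Lz n)
    {P : Fin n → Mc n} {R : Mc n} (hP : ∀ i, PD (P i)) (hR : PD R) :
    Tendsto (fun k : ℕ => (Real.pi : ℂ) ^ n *
      ∫ a in qd n, th w x (nu P) (∑ i, (a i : ℂ) • P i + (((1 / ((k : ℝ) + 1) : ℝ)) : ℂ) • R)) atTop
      (𝓝 (SS w x P)) := by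
  unfold SS
  refine Tendsto.const_mul _ ?_
  obtain ⟨c, hc, hb⟩ := PD_bounds_sum (g5b_opt P R) (g5b_opt_PD hP hR)
  obtain ⟨C, κ, hC, hκ, hTB⟩ := g5b_TB hn w x hx c hc P
  have hcontf : ∀ e : ℝ, Continuous (fun a : Fin n → ℝ =>
      ((P, ∑ i, (a i : ℂ) • P i + (e : ℂ) • R) : (Fin n → Mc n) × Mc n)) := by
    intro e
    refine continuous_const.prodMk (Continuous.add ?_ continuous_const)
    refine continuous_finsetSum _ fun i _ => ?_
    exact (Complex.continuous_ofReal.comp (continuous_apply i)).smul continuous_const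
  have hpos : ∀ k : ℕ, (0 : ℝ) < 1 / ((k : ℝ) + 1) := fun k => by positivity
  have hmaps : ∀ k : ℕ, MapsTo (fun a : Fin n → ℝ =>
      ((P, ∑ i, (a i : ℂ) • P i + (((1 / ((k : ℝ) + 1) : ℝ)) : ℂ) • R) : (Fin n → Mc n) × Mc n))
      (qd n) (univ ×ˢ {P | PD P}) := by
    intro k a ha
    exact ⟨mem_univ _, g5b_PD_sum hP hR a ha (hpos k)⟩
  refine tendsto_integral_of_dominated_convergence
    (fun a : Fin n → ℝ => C * ∏ i, Real.exp (-κ * a i)) ?_ ?_ ?_ ?_
  · intro k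
    exact ((th_nu_cont w x).comp (hcontf _).continuousOn (hmaps k)).aestronglyMeasurable
      g5b_qd_meas
  · refine Integrable.const_mul ?_ C
    rw [g5b_restrict]
    exact Integrable.fintype_prod (f := fun _ t => Real.exp (-κ * t))
      fun i => integrableOn_exp_mul_Ioi (by linarith) 0
  · intro k
    refine (ae_restrict_iff' g5b_qd_meas).2 (Filter.Eventually.of_forall fun a ha => ?_)
    have ha' : ∀ i, 0 < a i := ha
    have hk := hpos k
    have hsum : ∑ i, (Option.elim i (1 / ((k : ℝ) + 1)) a : ℝ) = ∑ i, a i + 1 / ((k : ℝ) + 1) := by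
      rw [Fintype.sum_option, add_comm]
      rfl
    have h0 : 0 ≤ ∑ i, a i := Finset.sum_nonneg fun i _ => (ha' i).le
    have hnn : ∀ i : Option (Fin n), 0 ≤ (Option.elim i (1 / ((k : ℝ) + 1)) a : ℝ) := by
      rintro (_ | i)
      · exact hk.le
      · exact (ha' i).le
    have hb' := hb (fun i => Option.elim i (1 / ((k : ℝ) + 1)) a) hnn
    rw [hsum, g5b_opt_sum] at hb'
    set s : ℝ := ∑ i, a i + 1 / ((k : ℝ) + 1) with hs
    have hs0 : 0 < s := by positivity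
    have h1 := hTB s (∑ i, (a i : ℂ) • P i + (((1 / ((k : ℝ) + 1) : ℝ)) : ℂ) • R) hs0
      (g5b_PD_sum hP hR a ha' hk).1 (fun v => (hb' v).1) (fun v => (hb' v).2)
    refine h1.trans (mul_le_mul_of_nonneg_left ?_ hC.le)
    rw [← Real.exp_sum, Real.exp_le_exp, ← Finset.mul_sum]
    have h2 : 0 < 1 / s := by positivity
    nlinarith
  · refine (ae_restrict_iff' g5b_qd_meas).2 (Filter.Eventually.of_forall fun a ha => ?_)
    have hne : Nonempty (Fin n) := ⟨⟨0, by omega⟩⟩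
    have hPQ : PD (∑ i, (a i : ℂ) • P i) := PD_comb P hP a ha
    have hlim : Tendsto (fun k : ℕ =>
        ((P, ∑ i, (a i : ℂ) • P i + (((1 / ((k : ℝ) + 1) : ℝ)) : ℂ) • R) :
          (Fin n → Mc n) × Mc n)) atTop
        (𝓝[univ ×ˢ {P | PD P}] (P, ∑ i, (a i : ℂ) • P i)) := by
      refine tendsto_nhdsWithin_iff.2 ⟨?_, Filter.Eventually.of_forall fun k => hmaps k ha⟩
      refine Tendsto.prodMk_nhds tendsto_const_nhds ?_
      have h3 : Tendsto (fun k : ℕ => (((1 / ((k : ℝ) + 1) : ℝ)) : ℂ) • R) atTop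
          (𝓝 (((0 : ℝ) : ℂ) • R)) :=
        ((Complex.continuous_ofReal.tendsto 0).comp
          (tendsto_one_div_add_atTop_nhds_zero_nat (𝕜 := ℝ))).smul_const R
      rw [Complex.ofReal_zero, zero_smul] at h3
      have h4 := h3.const_add (∑ i, (a i : ℂ) • P i)
      rwa [add_zero] at h4
    have h5 : ContinuousWithinAt (fun q : (Fin n → Mc n) × Mc n => th w x (nu q.1) q.2)
        (univ ×ˢ {P | PD P}) (P, ∑ i, (a i : ℂ) • P i) :=
      (th_nu_cont w x) (P, ∑ i, (a i : ℂ) • P i) (Set.mk_mem_prod (mem_univ P) hPQ)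
    have h6 := Tendsto.comp (ContinuousWithinAt.tendsto h5) hlim
    simp only [Function.comp_def] at h6
    exact h6

theorem SS_cocycle (hn : 1 ≤ n) (w x : Fin n → ℂ) (hx : x ∉ Lz n) (P : Fin (n + 1) → Mc n)
    (hP : ∀ i, PD (P i)) :
    ∑ j : Fin (n + 1), (-1 : ℂ) ^ (j : ℕ) * SS w x (fun i => P (j.succAbove i)) = 0 := by
  have h1 : Tendsto (fun k : ℕ => ∑ j : Fin (n + 1), (-1 : ℂ) ^ (j : ℕ) * ((Real.pi : ℂ) ^ n *
      ∫ a in qd n, th w x (nu fun i => P (j.succAbove i))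
        (∑ i, (a i : ℂ) • P (j.succAbove i) + (((1 / ((k : ℝ) + 1) : ℝ)) : ℂ) • P 0))) atTop
      (𝓝 (∑ j : Fin (n + 1), (-1 : ℂ) ^ (j : ℕ) * SS w x (fun i => P (j.succAbove i)))) :=
    tendsto_finsetSum _ fun j _ => (g5b_lim hn w hx (fun i => hP _) (hP 0)).const_mul _
  have h2 : ∀ k : ℕ, ∑ j : Fin (n + 1), (-1 : ℂ) ^ (j : ℕ) * ((Real.pi : ℂ) ^ n *
      ∫ a in qd n, th w x (nu fun i => P (j.succAbove i))
        (∑ i, (a i : ℂ) • P (j.succAbove i) + (((1 / ((k : ℝ) + 1) : ℝ)) : ℂ) • P 0)) = 0 := by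
    intro k
    have hk : (0 : ℝ) < 1 / ((k : ℝ) + 1) := by positivity
    have h3 : ∀ j : Fin (n + 1), (-1 : ℂ) ^ (j : ℕ) * ((Real.pi : ℂ) ^ n *
      ∫ a in qd n, th w x (nu fun i => P (j.succAbove i))
        (∑ i, (a i : ℂ) • P (j.succAbove i) + (((1 / ((k : ℝ) + 1) : ℝ)) : ℂ) • P 0)) =
        ∑' m, (-1 : ℂ) ^ (j : ℕ) *
          g5b_c w x (fun i => P (j.succAbove i)) (P 0) (1 / ((k : ℝ) + 1)) m := by
      intro j
      rw [g5b_fub w hx (P := fun i => P (j.succAbove i)) (fun i => hP _) (hP 0) hk, tsum_mul_left]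
    rw [Finset.sum_congr rfl fun j _ => h3 j, ← Summable.tsum_finsetSum fun j _ =>
      (g5b_c_summable w (P := fun i => P (j.succAbove i)) (fun i => hP _) (hP 0) hk).mul_left _]
    rw [show (fun m => ∑ j : Fin (n + 1), (-1 : ℂ) ^ (j : ℕ) *
      g5b_c w x (fun i => P (j.succAbove i)) (P 0) (1 / ((k : ℝ) + 1)) m) = fun _ => 0 from
      funext fun m => g5b_c_cocycle w hx hP (P 0) _ m]
    exact tsum_zero
  exact tendsto_nhds_unique h1 (tendsto_const_nhds.congr fun k => (h2 k).symm)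

end NG
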