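import Pool.Agent.MP_9ab903_nt.NG.Defs

/-! ## [NG-G8] flags of the cube: independence of the choice of the vertices

`FF_eq`: change `P` at one `K : Finset (Fin r)` only (then induct over all `K`). In the flags with `J_k = K`, `k = |K|`, the cocycle relation
for `(v_0, .., v_k, v_k', .., v_r)` writes the difference as a sum over the omitted vertex `j ≠ k` of
`±(-1)^j f(.., omit v_j, .., v_k, v_k', ..)`; for `0 < j < r` the terms for `π` and `π ∘ swap (j-1) j` cancel; for `j = 0` the terms for
`g` and `g △ {π 0}` cancel (`v_k`, `k ≥ 1`, do not depend on it); for `j = r` the terms for `g` and `g △ {π (r-1)}` cancel because all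
remaining vertices are multiplied by `φ (π (r-1))` (`hact`, `hinv`). `FF_const`: if `i = π k ∉ g` then the vertices `k` and `k+1` coincide.
`BB_mul`: let `E_i = a`, `P_J = p` if `i ∉ J` and `P_J = b⁻¹ • p` if `i ∈ J`. As in `FF_const` only `g = univ` and `g = univ \ {i}` contribute;
after multiplication by `b` (`hinv`) they give `(-1)^r BB(.. a * b ..)` and `(-1)^(r-1) BB(.. b ..)`; by `FF_eq` the sum is
`FF const = (-1)^r BB(.. a ..)` (`FF_const`). `BB_base`: `FF_eq`, `FF_const`. `BB_pow`: `BB_mul` (induction). -/

set_option autoImplicit false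

open scoped ComplexConjugate Matrix
open MeasureTheory Set Filter Topology

namespace NG

open CM27 NAB

variable {n : ℕ}

variable {r : ℕ} {X : Type}

theorem g8_mem (π : Equiv.Perm (Fin r)) (k : Fin (r + 1)) (x : Fin r) :
    x ∈ JJ π k ↔ ((π.symm x : Fin r) : ℕ) < (k : ℕ) := by
  unfold JJ
  simp only [Finset.mem_image, Finset.mem_filter, Finset.mem_univ, true_and]
  constructor
  · rintro ⟨a, ha, rfl⟩
    simpa using ha
  · intro h
    exact ⟨π.symm x, h, by simp⟩

theorem g8_mem' (π : Equiv.Perm (Fin r)) (k : Fin (r + 1)) (x : Fin r) :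
    π x ∈ JJ π k ↔ (x : ℕ) < (k : ℕ) := by
  rw [g8_mem]; simp

theorem g8_card (π : Equiv.Perm (Fin r)) (k : Fin (r + 1)) : (JJ π k).card = (k : ℕ) := by
  unfold JJ
  rw [Finset.card_image_of_injective _ π.injective]
  have h1 : (Finset.univ.filter fun j : Fin r => (j : ℕ) < (k : ℕ)).card
      = (Finset.range (k : ℕ)).card := by
    apply Finset.card_bij (fun (a : Fin r) _ => (a : ℕ))
    · intro a ha
      simpa using ha
    · intro a _ b _ h
      exact Fin.ext h
    · intro b hb
      have hb' : b < (k : ℕ) := by simpa using hb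
      have : b < r := lt_of_lt_of_le hb' (Nat.le_of_lt_succ k.2)
      exact ⟨⟨b, this⟩, by simpa using hb', rfl⟩
  rw [h1, Finset.card_range]

theorem g8_swap (π : Equiv.Perm (Fin r)) (a b : Fin r) (hab : (a : ℕ) + 1 = b) (k : Fin (r + 1))
    (hk : (k : ℕ) ≠ b) : JJ (π * Equiv.swap a b) k = JJ π k := by
  ext x
  rw [g8_mem, g8_mem]
  have h1 : (π * Equiv.swap a b).symm x = Equiv.swap a b (π.symm x) := by
    rw [Equiv.symm_apply_eq]
    simp
  rw [h1]
  generalize π.symm x = y
  rcases eq_or_ne y a with rfl | ha
  · rw [Equiv.swap_apply_left]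
    omega
  · rcases eq_or_ne y b with rfl | hb
    · rw [Equiv.swap_apply_right]
      omega
    · rw [Equiv.swap_apply_of_ne_of_ne ha hb]

/-- toggling an element -/
theorem g8_tog (F : Finset (Fin r) → ℂ) (x : Fin r)
    (h : ∀ g : Finset (Fin r), x ∉ g → F (insert x g) = F g) :
    ∑ g : Finset (Fin r), (-1 : ℂ) ^ g.card * F g = 0 := by
  classical
  apply Finset.sum_involution (fun (g : Finset (Fin r)) _ => if x ∈ g then g.erase x else insert x g)
  · intro g _
    by_cases hx : x ∈ g
    · simp only [hx, if_true]
      have h1 := h (g.erase x) (Finset.notMem_erase x g)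
      rw [Finset.insert_erase hx] at h1
      rw [h1]
      have h2 : g.card = (g.erase x).card + 1 := by
        rw [Finset.card_erase_of_mem hx]
        have : 0 < g.card := Finset.card_pos.mpr ⟨x, hx⟩
        omega
      rw [h2, pow_succ]; ring
    · simp only [hx, if_false]
      rw [h g hx, Finset.card_insert_of_notMem hx, pow_succ]; ring
  · intro g _ _
    by_cases hx : x ∈ g
    · simp only [hx, if_true]
      intro h1
      have := Finset.notMem_erase x g
      rw [h1] at this
      exact this hx
    · simp only [hx, if_false]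
      intro h1
      exact hx (h1 ▸ Finset.mem_insert_self x g)
  · intro g _
    exact Finset.mem_univ _
  · intro g _
    by_cases hx : x ∈ g
    · simp [hx]
    · simp [hx]

theorem g8_key (f : (Fin (r + 1) → X) → ℂ) (φ : Fin r → X → X) (act : Finset (Fin r) → X → X)
    (hact : ∀ i g x, i ∉ g → act (insert i g) x = φ i (act g x))
    (hinv : ∀ i v, f (fun k => φ i (v k)) = f v) (K : Finset (Fin r)) (k₀ m : Fin (r + 1))
    (hm : m ≠ k₀) (d : Fin (r + 1) → Fin (r + 1)) (hd : ∀ i, d i ≠ m)
    (Q : Fin (r + 1) → Finset (Fin r) → X) :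
    ∑ π ∈ (Finset.univ : Finset (Equiv.Perm (Fin r))).filter (fun π => JJ π k₀ = K),
      ∑ g : Finset (Fin r), ((Equiv.Perm.sign π : ℤ) : ℂ) * (-1) ^ g.card
        * f (fun i => act (g \ JJ π (d i)) (Q i (JJ π (d i)))) = 0 := by
  classical
  by_cases hm0 : (m : ℕ) = 0
  · -- omit the first vertex
    have hr : 0 < r := by
      by_contra hr
      have hr0 : r = 0 := by omega
      subst hr0
      exact hm (Fin.ext (by have h1 := m.2; have h2 := k₀.2; omega))
    apply Finset.sum_eq_zero
    intro π _
    have h1 := g8_tog (fun g => f (fun i => act (g \ JJ π (d i)) (Q i (JJ π (d i))))) (π ⟨0, hr⟩)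
      (by
        intro g _
        congr 1
        funext i
        have h2 : π ⟨0, hr⟩ ∈ JJ π (d i) := by
          rw [g8_mem']
          have h3 : (d i : ℕ) ≠ (m : ℕ) := fun h => hd i (Fin.ext h)
          simp only
          omega
        rw [Finset.insert_sdiff_of_mem _ h2])
    have h2 : ∀ g : Finset (Fin r), ((Equiv.Perm.sign π : ℤ) : ℂ) * (-1) ^ g.card
        * f (fun i => act (g \ JJ π (d i)) (Q i (JJ π (d i))))
        = ((Equiv.Perm.sign π : ℤ) : ℂ) * ((-1) ^ g.card
        * f (fun i => act (g \ JJ π (d i)) (Q i (JJ π (d i))))) := fun g => by ring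
    rw [Finset.sum_congr rfl fun g _ => h2 g, ← Finset.mul_sum, h1, mul_zero]
  · by_cases hmr : (m : ℕ) = r
    · -- omit the last vertex
      have hr : r - 1 < r := by omega
      apply Finset.sum_eq_zero
      intro π _
      have h1 := g8_tog (fun g => f (fun i => act (g \ JJ π (d i)) (Q i (JJ π (d i)))))
        (π ⟨r - 1, hr⟩)
        (by
          intro g hg
          rw [← hinv (π ⟨r - 1, hr⟩) (fun i => act (g \ JJ π (d i)) (Q i (JJ π (d i))))]
          congr 1
          funext i
          have h2 : π ⟨r - 1, hr⟩ ∉ JJ π (d i) := by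
            rw [g8_mem']
            have h3 : (d i : ℕ) ≠ (m : ℕ) := fun h => hd i (Fin.ext h)
            have h4 := (d i).2
            simp only
            omega
          rw [Finset.insert_sdiff_of_notMem _ h2, hact]
          simp [hg])
      have h2 : ∀ g : Finset (Fin r), ((Equiv.Perm.sign π : ℤ) : ℂ) * (-1) ^ g.card
          * f (fun i => act (g \ JJ π (d i)) (Q i (JJ π (d i))))
          = ((Equiv.Perm.sign π : ℤ) : ℂ) * ((-1) ^ g.card
          * f (fun i => act (g \ JJ π (d i)) (Q i (JJ π (d i))))) := fun g => by ring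
      rw [Finset.sum_congr rfl fun g _ => h2 g, ← Finset.mul_sum, h1, mul_zero]
    · -- omit a middle vertex
      have hm2 := m.2
      have ha : (m : ℕ) - 1 < r := by omega
      have hb : (m : ℕ) < r := by omega
      set a : Fin r := ⟨(m : ℕ) - 1, ha⟩ with hadef
      set b : Fin r := ⟨(m : ℕ), hb⟩ with hbdef
      have hab : (a : ℕ) + 1 = b := by simp only [hadef, hbdef]; omega
      have hne : a ≠ b := by
        intro h
        rw [h] at hab
        omega
      have hJ : ∀ (π : Equiv.Perm (Fin r)) (k : Fin (r + 1)), k ≠ m →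
          JJ (π * Equiv.swap a b) k = JJ π k := by
        intro π k hk
        apply g8_swap π a b hab k
        intro h
        exact hk (Fin.ext h)
      apply Finset.sum_involution (fun (π : Equiv.Perm (Fin r)) _ => π * Equiv.swap a b)
      · intro π _
        rw [← Finset.sum_add_distrib]
        apply Finset.sum_eq_zero
        intro g _
        have h1 : (fun i => act (g \ JJ (π * Equiv.swap a b) (d i))
            (Q i (JJ (π * Equiv.swap a b) (d i))))
            = (fun i => act (g \ JJ π (d i)) (Q i (JJ π (d i)))) := by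
          funext i
          rw [hJ π (d i) (hd i)]
        rw [h1, Equiv.Perm.sign_mul, Equiv.Perm.sign_swap hne]
        push_cast
        ring
      · intro π _ _ h
        have h1 : Equiv.swap a b = 1 := by
          have := congrArg (fun x => π⁻¹ * x) h
          simpa using this
        exact hne (Equiv.swap_eq_one_iff.mp h1)
      · intro π hπ
        rw [Finset.mem_filter] at hπ ⊢
        exact ⟨Finset.mem_univ _, by rw [hJ π k₀ (Ne.symm hm)]; exact hπ.2⟩
      · intro π _
        rw [mul_assoc, Equiv.swap_mul_self, mul_one]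

theorem g8_upd (f : (Fin (r + 1) → X) → ℂ) (φ : Fin r → X → X) (act : Finset (Fin r) → X → X)
    (hact : ∀ i g x, i ∉ g → act (insert i g) x = φ i (act g x))
    (hinv : ∀ i v, f (fun k => φ i (v k)) = f v)
    (hcoc : ∀ v : Fin (r + 2) → X, ∑ j : Fin (r + 2), (-1 : ℂ) ^ (j : ℕ) *
      f (fun i => v (j.succAbove i)) = 0) (P P' : Finset (Fin r) → X) (K : Finset (Fin r))
    (hP : ∀ J, J ≠ K → P J = P' J) :
    FF act f P = FF act f P' := by
  classical
  have hK : K.card < r + 1 := by
    have := Finset.card_le_univ K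
    rw [Fintype.card_fin] at this
    omega
  set k₀ : Fin (r + 1) := ⟨K.card, hK⟩ with hk₀
  have hJK : ∀ (π : Equiv.Perm (Fin r)) (k : Fin (r + 1)), JJ π k = K → k = k₀ := by
    intro π k h
    apply Fin.ext
    show (k : ℕ) = K.card
    rw [← h, g8_card]
  -- the extended sequences
  set w : Equiv.Perm (Fin r) → Finset (Fin r) → Fin (r + 2) → X := fun π g j =>
    act (g \ JJ π (k₀.predAbove j))
      ((if (j : ℕ) ≤ (k₀ : ℕ) then P else P') (JJ π (k₀.predAbove j))) with hw
  have hsum : ∀ j : Fin (r + 2), j ≠ k₀.castSucc → j ≠ k₀.succ →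
      ∑ π ∈ (Finset.univ : Finset (Equiv.Perm (Fin r))).filter (fun π => JJ π k₀ = K),
      ∑ g : Finset (Fin r), ((Equiv.Perm.sign π : ℤ) : ℂ) * (-1) ^ g.card
        * f (fun i => w π g (j.succAbove i)) = 0 := by
    intro j hj1 hj2
    have h1 := g8_key f φ act hact hinv K k₀ (k₀.predAbove j)
      (by
        intro h
        rcases lt_or_ge k₀.castSucc j with h1 | h1
        · rw [Fin.predAbove_of_castSucc_lt _ _ h1] at h
          apply hj2
          rw [← h, Fin.succ_pred]
        · rw [Fin.predAbove_of_le_castSucc _ _ h1] at h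
          apply hj1
          rw [← h, Fin.castSucc_castPred])
      (fun i => k₀.predAbove (j.succAbove i))
      (by
        intro i h
        have hne : j.succAbove i ≠ j := Fin.succAbove_ne j i
        have hne' : ((j.succAbove i : Fin (r + 2)) : ℕ) ≠ (j : ℕ) := fun h => hne (Fin.ext h)
        have hj1' : (j : ℕ) ≠ (k₀ : ℕ) := fun h => hj1 (Fin.ext h)
        have hj2' : (j : ℕ) ≠ (k₀ : ℕ) + 1 := fun h => hj2 (Fin.ext h)
        have h' := congrArg (fun x : Fin (r + 1) => (x : ℕ)) h
        simp only [Fin.predAbove] at h'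
        split_ifs at h' with h3 h4 h4
        · rw [Fin.lt_def] at h3 h4
          simp only [Fin.val_castSucc, Fin.val_pred] at h3 h4 h'
          omega
        · rw [Fin.lt_def] at h3 h4
          simp only [Fin.val_castSucc, Fin.val_pred, Fin.coe_castPred] at h3 h4 h'
          omega
        · rw [Fin.lt_def] at h3 h4
          simp only [Fin.val_castSucc, Fin.val_pred, Fin.coe_castPred] at h3 h4 h'
          omega
        · rw [Fin.lt_def] at h3 h4
          simp only [Fin.val_castSucc, Fin.coe_castPred] at h3 h4 h'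
          omega)
      (fun i J => (if ((j.succAbove i : Fin (r + 2)) : ℕ) ≤ (k₀ : ℕ) then P else P') J)
    exact h1
  -- sum of the cocycle relations
  have htot : ∑ j : Fin (r + 2), (-1 : ℂ) ^ (j : ℕ) *
      (∑ π ∈ (Finset.univ : Finset (Equiv.Perm (Fin r))).filter (fun π => JJ π k₀ = K),
      ∑ g : Finset (Fin r), ((Equiv.Perm.sign π : ℤ) : ℂ) * (-1) ^ g.card
        * f (fun i => w π g (j.succAbove i))) = 0 := by
    have h1 : ∀ j : Fin (r + 2), (-1 : ℂ) ^ (j : ℕ) *
      (∑ π ∈ (Finset.univ : Finset (Equiv.Perm (Fin r))).filter (fun π => JJ π k₀ = K),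
      ∑ g : Finset (Fin r), ((Equiv.Perm.sign π : ℤ) : ℂ) * (-1) ^ g.card
        * f (fun i => w π g (j.succAbove i)))
      = ∑ π ∈ (Finset.univ : Finset (Equiv.Perm (Fin r))).filter (fun π => JJ π k₀ = K),
      ∑ g : Finset (Fin r), ((Equiv.Perm.sign π : ℤ) : ℂ) * (-1) ^ g.card
        * ((-1 : ℂ) ^ (j : ℕ) * f (fun i => w π g (j.succAbove i))) := by
      intro j
      rw [Finset.mul_sum]
      refine Finset.sum_congr rfl fun π _ => ?_
      rw [Finset.mul_sum]
      refine Finset.sum_congr rfl fun g _ => ?_
      ring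
    rw [Finset.sum_congr rfl fun j _ => h1 j, Finset.sum_comm]
    apply Finset.sum_eq_zero
    intro π _
    rw [Finset.sum_comm]
    apply Finset.sum_eq_zero
    intro g _
    rw [← Finset.mul_sum, hcoc (w π g), mul_zero]
  have hne : k₀.castSucc ≠ k₀.succ := by
    intro h
    have := congrArg (fun x : Fin (r + 2) => (x : ℕ)) h
    simp at this
  rw [Finset.sum_eq_add k₀.castSucc k₀.succ hne
    (fun j _ hj => by rw [hsum j hj.1 hj.2, mul_zero]) (fun h => absurd (Finset.mem_univ _) h)
    (fun h => absurd (Finset.mem_univ _) h)] at htot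
  have hv1 : ∀ (π : Equiv.Perm (Fin r)) (g : Finset (Fin r)), JJ π k₀ = K →
      (fun i => w π g (k₀.castSucc.succAbove i)) = fun k => act (g \ JJ π k) (P' (JJ π k)) := by
    intro π g hπ
    funext i
    have h1 : k₀.predAbove (k₀.castSucc.succAbove i) = i := Fin.predAbove_succAbove k₀ i
    simp only [hw]
    rw [h1]
    by_cases h2 : i < k₀
    · have h3 : ((k₀.castSucc.succAbove i : Fin (r + 2)) : ℕ) ≤ (k₀ : ℕ) := by
        rw [Fin.succAbove_of_castSucc_lt _ _ (by simpa using h2)]
        simpa using h2.le
      rw [if_pos h3, hP]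
      intro h4
      exact absurd (hJK π i h4) (ne_of_lt h2)
    · have h3 : ¬ ((k₀.castSucc.succAbove i : Fin (r + 2)) : ℕ) ≤ (k₀ : ℕ) := by
        rw [Fin.succAbove_of_le_castSucc _ _ (by simpa using h2)]
        have h2' : k₀ ≤ i := not_lt.mp h2
        rw [Fin.le_def] at h2'
        simp only [Fin.val_succ]
        omega
      rw [if_neg h3]
  have hv2 : ∀ (π : Equiv.Perm (Fin r)) (g : Finset (Fin r)), JJ π k₀ = K →
      (fun i => w π g (k₀.succ.succAbove i)) = fun k => act (g \ JJ π k) (P (JJ π k)) := by
    intro π g hπ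
    funext i
    have h1 : k₀.predAbove (k₀.succ.succAbove i) = i := by
      rcases lt_or_ge i.castSucc k₀.succ with h | h
      · rw [Fin.succAbove_of_castSucc_lt _ _ h]
        have h' : i.castSucc ≤ k₀.castSucc := by
          rw [Fin.lt_def] at h
          rw [Fin.le_def]
          simp only [Fin.val_succ, Fin.val_castSucc] at *
          omega
        rw [Fin.predAbove_of_le_castSucc _ _ h', Fin.castPred_castSucc]
      · rw [Fin.succAbove_of_le_castSucc _ _ h]
        have h' : k₀.castSucc < i.succ := by
          rw [Fin.le_def] at h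
          rw [Fin.lt_def]
          simp only [Fin.val_succ, Fin.val_castSucc] at *
          omega
        rw [Fin.predAbove_of_castSucc_lt _ _ h', Fin.pred_succ]
    simp only [hw]
    rw [h1]
    by_cases h2 : i ≤ k₀
    · have h3 : ((k₀.succ.succAbove i : Fin (r + 2)) : ℕ) ≤ (k₀ : ℕ) := by
        rw [Fin.le_def] at h2
        rw [Fin.succAbove_of_castSucc_lt _ _ (by
          rw [Fin.lt_def]; simp only [Fin.val_succ, Fin.val_castSucc]; omega)]
        simpa using h2
      rw [if_pos h3]
    · have h3 : ¬ ((k₀.succ.succAbove i : Fin (r + 2)) : ℕ) ≤ (k₀ : ℕ) := by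
        rw [Fin.le_def] at h2
        rw [Fin.succAbove_of_le_castSucc _ _ (by
          rw [Fin.le_def]; simp only [Fin.val_succ, Fin.val_castSucc]; omega)]
        simp only [Fin.val_succ]
        omega
      rw [if_neg h3, hP]
      intro h4
      exact h2 (hJK π i h4).le
  have hA : ∑ π ∈ (Finset.univ : Finset (Equiv.Perm (Fin r))).filter (fun π => JJ π k₀ = K),
      ∑ g : Finset (Fin r), ((Equiv.Perm.sign π : ℤ) : ℂ) * (-1) ^ g.card
        * f (fun i => w π g (k₀.castSucc.succAbove i))
      = ∑ π ∈ (Finset.univ : Finset (Equiv.Perm (Fin r))).filter (fun π => JJ π k₀ = K),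
      ∑ g : Finset (Fin r), ((Equiv.Perm.sign π : ℤ) : ℂ) * (-1) ^ g.card
        * f (fun k => act (g \ JJ π k) (P' (JJ π k))) := by
    refine Finset.sum_congr rfl fun π hπ => Finset.sum_congr rfl fun g _ => ?_
    rw [hv1 π g (Finset.mem_filter.mp hπ).2]
  have hB : ∑ π ∈ (Finset.univ : Finset (Equiv.Perm (Fin r))).filter (fun π => JJ π k₀ = K),
      ∑ g : Finset (Fin r), ((Equiv.Perm.sign π : ℤ) : ℂ) * (-1) ^ g.card
        * f (fun i => w π g (k₀.succ.succAbove i))
      = ∑ π ∈ (Finset.univ : Finset (Equiv.Perm (Fin r))).filter (fun π => JJ π k₀ = K),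
      ∑ g : Finset (Fin r), ((Equiv.Perm.sign π : ℤ) : ℂ) * (-1) ^ g.card
        * f (fun k => act (g \ JJ π k) (P (JJ π k))) := by
    refine Finset.sum_congr rfl fun π hπ => Finset.sum_congr rfl fun g _ => ?_
    rw [hv2 π g (Finset.mem_filter.mp hπ).2]
  rw [hA, hB] at htot
  have hC : ∑ π ∈ (Finset.univ : Finset (Equiv.Perm (Fin r))).filter (fun π => JJ π k₀ = K),
      ∑ g : Finset (Fin r), ((Equiv.Perm.sign π : ℤ) : ℂ) * (-1) ^ g.card
        * f (fun k => act (g \ JJ π k) (P (JJ π k)))
      = ∑ π ∈ (Finset.univ : Finset (Equiv.Perm (Fin r))).filter (fun π => JJ π k₀ = K),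
      ∑ g : Finset (Fin r), ((Equiv.Perm.sign π : ℤ) : ℂ) * (-1) ^ g.card
        * f (fun k => act (g \ JJ π k) (P' (JJ π k))) := by
    simp only [Fin.val_castSucc, Fin.val_succ, pow_succ] at htot
    have hpow : ((-1 : ℂ) ^ (k₀ : ℕ)) ≠ 0 := pow_ne_zero _ (by norm_num)
    apply mul_left_cancel₀ hpow
    linear_combination -htot
  have hD : ∀ R : Finset (Fin r) → X, FF act f R
      = ∑ π ∈ (Finset.univ : Finset (Equiv.Perm (Fin r))).filter (fun π => JJ π k₀ = K),
      ∑ g : Finset (Fin r), ((Equiv.Perm.sign π : ℤ) : ℂ) * (-1) ^ g.card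
        * f (fun k => act (g \ JJ π k) (R (JJ π k)))
      + ∑ π ∈ (Finset.univ : Finset (Equiv.Perm (Fin r))).filter (fun π => ¬ JJ π k₀ = K),
      ∑ g : Finset (Fin r), ((Equiv.Perm.sign π : ℤ) : ℂ) * (-1) ^ g.card
        * f (fun k => act (g \ JJ π k) (R (JJ π k))) := by
    intro R
    unfold FF
    rw [Finset.sum_filter_add_sum_filter_not]
  rw [hD P, hD P', hC]
  congr 1
  refine Finset.sum_congr rfl fun π hπ => Finset.sum_congr rfl fun g _ => ?_
  congr 1
  congr 1
  funext k
  rw [hP]
  intro h
  have h1 := hJK π k h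
  rw [h1] at h
  exact (Finset.mem_filter.mp hπ).2 h

theorem FF_eq (f : (Fin (r + 1) → X) → ℂ) (φ : Fin r → X → X) (act : Finset (Fin r) → X → X)
    (hact0 : ∀ x, act ∅ x = x) (hact : ∀ i g x, i ∉ g → act (insert i g) x = φ i (act g x))
    (hinv : ∀ i v, f (fun k => φ i (v k)) = f v)
    (hcoc : ∀ v : Fin (r + 2) → X, ∑ j : Fin (r + 2), (-1 : ℂ) ^ (j : ℕ) *
      f (fun i => v (j.succAbove i)) = 0) (P P' : Finset (Fin r) → X) :
    FF act f P = FF act f P' := by
  classical
  have key : ∀ S : Finset (Finset (Fin r)),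
      FF act f P = FF act f (fun J => if J ∈ S then P' J else P J) := by
    intro S
    induction S using Finset.induction_on with
    | empty => simp
    | insert K S hK ih =>
      rw [ih]
      apply g8_upd f φ act hact hinv hcoc _ _ K
      intro J hJ
      by_cases h : J ∈ S
      · simp [h]
      · simp [h, hJ]
  rw [key Finset.univ]
  simp

/-- the consecutive vertices coincide -/
theorem g8_deg (f : (Fin (r + 1) → X) → ℂ) (act : Finset (Fin r) → X → X)
    (halt : ∀ (v : Fin (r + 1) → X) (i j : Fin (r + 1)), i ≠ j → v i = v j → f v = 0)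
    (P : Finset (Fin r) → X) (π : Equiv.Perm (Fin r)) (g : Finset (Fin r)) (x : Fin r)
    (hx : x ∉ g) (hP : ∀ J, P (insert x J) = P J) :
    f (fun k => act (g \ JJ π k) (P (JJ π k))) = 0 := by
  classical
  set y : Fin r := π.symm x with hy
  have hyx : π y = x := by rw [hy]; simp
  have hins : JJ π y.succ = insert x (JJ π y.castSucc) := by
    ext z
    rw [Finset.mem_insert, g8_mem, g8_mem]
    simp only [Fin.val_succ, Fin.val_castSucc]
    have h1 : z = x ↔ ((π.symm z : Fin r) : ℕ) = (y : ℕ) := by
      rw [hy]
      constructor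
      · rintro rfl; rfl
      · intro h
        exact π.symm.injective (Fin.ext h)
    rw [h1]
    omega
  apply halt _ y.castSucc y.succ
  · intro h
    have := congrArg (fun x : Fin (r + 1) => (x : ℕ)) h
    simp at this
  · rw [hins, hP]
    have h2 : g \ insert x (JJ π y.castSucc) = g \ JJ π y.castSucc := by
      ext z
      simp only [Finset.mem_sdiff, Finset.mem_insert, not_or]
      constructor
      · rintro ⟨h1, h2⟩
        exact ⟨h1, h2.2⟩
      · rintro ⟨h1, h2⟩
        exact ⟨h1, fun h => hx (h ▸ h1), h2⟩
    rw [h2]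

theorem FF_const (f : (Fin (r + 1) → X) → ℂ) (φ : Fin r → X → X) (act : Finset (Fin r) → X → X)
    (hact0 : ∀ x, act ∅ x = x) (hact : ∀ i g x, i ∉ g → act (insert i g) x = φ i (act g x))
    (halt : ∀ (v : Fin (r + 1) → X) (i j : Fin (r + 1)), i ≠ j → v i = v j → f v = 0) (p : X) :
    FF act f (fun _ => p) = (-1) ^ r * ∑ π : Equiv.Perm (Fin r), ((Equiv.Perm.sign π : ℤ) : ℂ)
      * f fun k => act (Finset.univ \ JJ π k) p := by
  classical
  unfold FF
  rw [Finset.mul_sum]
  refine Finset.sum_congr rfl fun π _ => ?_
  rw [Finset.sum_eq_single Finset.univ]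
  · rw [Finset.card_univ, Fintype.card_fin]
    ring
  · intro g _ hg
    obtain ⟨x, hx⟩ : ∃ x, x ∉ g := by
      by_contra h
      push Not at h
      exact hg (Finset.eq_univ_iff_forall.mpr h)
    have := g8_deg f act halt (fun _ => p) π g x hx (fun _ => rfl)
    rw [this, mul_zero]
  · intro h
    exact absurd (Finset.mem_univ _) h

/-- The torus sum for elements `E i` of a commutative group acting on `X`. -/
noncomputable def BB {G : Type} [CommGroup G] [MulAction G X] (f : (Fin (r + 1) → X) → ℂ)
    (E : Fin r → G) (p : X) : ℂ :=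
  ∑ π : Equiv.Perm (Fin r), ((Equiv.Perm.sign π : ℤ) : ℂ)
    * f fun k => (∏ i ∈ Finset.univ \ JJ π k, E i) • p

theorem g8_BF {G : Type} [CommGroup G] [MulAction G X] (f : (Fin (r + 1) → X) → ℂ)
    (E : Fin r → G)
    (halt : ∀ (v : Fin (r + 1) → X) (i j : Fin (r + 1)), i ≠ j → v i = v j → f v = 0) (p : X) :
    FF (fun g x => (∏ i ∈ g, E i) • x) f (fun _ => p) = (-1) ^ r * BB f E p := by
  classical
  unfold BB
  exact FF_const f (fun i x => E i • x) (fun g x => (∏ i ∈ g, E i) • x) (fun x => by simp)
    (fun i g x hi => by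
      rw [Finset.prod_insert hi, mul_smul]) halt p

/-- Independence of the base point. -/
theorem BB_base {G : Type} [CommGroup G] [MulAction G X] (f : (Fin (r + 1) → X) → ℂ)
    (E : Fin r → G) (hinv : ∀ i v, f (fun k => E i • v k) = f v)
    (halt : ∀ (v : Fin (r + 1) → X) (i j : Fin (r + 1)), i ≠ j → v i = v j → f v = 0)
    (hcoc : ∀ v : Fin (r + 2) → X, ∑ j : Fin (r + 2), (-1 : ℂ) ^ (j : ℕ) *
      f (fun i => v (j.succAbove i)) = 0) (p q : X) : BB f E p = BB f E q := by
  classical
  have h := FF_eq f (fun i x => E i • x) (fun g x => (∏ i ∈ g, E i) • x) (fun x => by simp)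
    (fun i g x hi => by
      rw [Finset.prod_insert hi, mul_smul]) hinv hcoc (fun _ => p) (fun _ => q)
  rw [g8_BF f E halt p, g8_BF f E halt q] at h
  exact mul_left_cancel₀ (pow_ne_zero _ (by norm_num)) h

/-- Additivity in each variable, for an invariant cocycle. -/
theorem BB_mul {G : Type} [CommGroup G] [MulAction G X] (f : (Fin (r + 1) → X) → ℂ)
    (hinv : ∀ (g : G) v, f (fun k => g • v k) = f v)
    (halt : ∀ (v : Fin (r + 1) → X) (i j : Fin (r + 1)), i ≠ j → v i = v j → f v = 0)
    (hcoc : ∀ v : Fin (r + 2) → X, ∑ j : Fin (r + 2), (-1 : ℂ) ^ (j : ℕ) *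
      f (fun i => v (j.succAbove i)) = 0) (E : Fin r → G) (i : Fin r) (a b : G) (p : X) :
    BB f (Function.update E i (a * b)) p = BB f (Function.update E i a) p
      + BB f (Function.update E i b) p := by
  classical
  set Ea := Function.update E i a with hEa
  set P : Finset (Fin r) → X := fun J => if i ∈ J then b⁻¹ • p else p with hPdef
  have h := FF_eq f (fun i x => Ea i • x) (fun g x => (∏ i ∈ g, Ea i) • x) (fun x => by simp)
    (fun i g x hi => by
      rw [Finset.prod_insert hi, mul_smul]) (fun i v => hinv (Ea i) v) hcoc P (fun _ => p)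
  rw [g8_BF f Ea halt p] at h
  have hr : 0 < r := lt_of_le_of_lt (Nat.zero_le _) i.2
  -- products over sets not containing `i` do not see the update
  have hprod : ∀ (c c' : G) (T : Finset (Fin r)), i ∉ T →
      ∏ j ∈ T, Function.update E i c j = ∏ j ∈ T, Function.update E i c' j := by
    intro c c' T hT
    refine Finset.prod_congr rfl fun j hj => ?_
    have : j ≠ i := fun h => hT (h ▸ hj)
    rw [Function.update_of_ne this, Function.update_of_ne this]
  have hprod2 : ∀ (c : G) (T : Finset (Fin r)), i ∈ T →
      ∏ j ∈ T, Function.update E i c j = c * ∏ j ∈ T.erase i, Function.update E i c j := by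
    intro c T hT
    rw [← Finset.mul_prod_erase T _ hT, Function.update_self]
  have hF : FF (fun g x => (∏ i ∈ g, Ea i) • x) f P
      = (-1) ^ r * BB f (Function.update E i (a * b)) p
        + (-1) ^ (r - 1) * BB f (Function.update E i b) p := by
    unfold FF BB
    rw [Finset.mul_sum, Finset.mul_sum, ← Finset.sum_add_distrib]
    refine Finset.sum_congr rfl fun π _ => ?_
    have hne : (Finset.univ : Finset (Fin r)) ≠ Finset.univ.erase i := by
      intro h1
      have := Finset.notMem_erase i (Finset.univ : Finset (Fin r))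
      rw [← h1] at this
      exact this (Finset.mem_univ _)
    rw [Finset.sum_eq_add Finset.univ (Finset.univ.erase i) hne]
    · congr 1
      · rw [Finset.card_univ, Fintype.card_fin]
        have h1 : f (fun k => (∏ i ∈ Finset.univ \ JJ π k, Ea i) • P (JJ π k))
            = f (fun k => (∏ j ∈ Finset.univ \ JJ π k, Function.update E i (a * b) j) • p) := by
          rw [← hinv b]
          congr 1
          funext k
          by_cases hi : i ∈ JJ π k
          · have hT : i ∉ Finset.univ \ JJ π k := by simp [hi]
            simp only [hPdef, if_pos hi, hEa]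
            rw [hprod a (a * b) _ hT, smul_smul, smul_smul]
            congr 1
            rw [mul_assoc, mul_comm b, mul_assoc, inv_mul_cancel, mul_one]
          · have hT : i ∈ Finset.univ \ JJ π k := by simp [hi]
            simp only [hPdef, if_neg hi, hEa]
            rw [hprod2 a _ hT, hprod2 (a * b) _ hT, hprod a (a * b) _ (Finset.notMem_erase _ _),
              smul_smul]
            congr 1
            rw [← mul_assoc, mul_comm b a]
        rw [h1]
        ring
      · rw [Finset.card_erase_of_mem (Finset.mem_univ _), Finset.card_univ, Fintype.card_fin]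
        have h1 : f (fun k => (∏ i ∈ Finset.univ.erase i \ JJ π k, Ea i) • P (JJ π k))
            = f (fun k => (∏ j ∈ Finset.univ \ JJ π k, Function.update E i b j) • p) := by
          rw [← hinv b]
          congr 1
          funext k
          by_cases hi : i ∈ JJ π k
          · have hT : i ∉ Finset.univ \ JJ π k := by simp [hi]
            have hT2 : Finset.univ.erase i \ JJ π k = Finset.univ \ JJ π k := by
              ext z
              simp only [Finset.mem_sdiff, Finset.mem_erase, Finset.mem_univ, and_true, true_and]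
              constructor
              · rintro ⟨_, h2⟩
                exact h2
              · intro h2
                exact ⟨fun h3 => h2 (h3 ▸ hi), h2⟩
            simp only [hPdef, if_pos hi, hEa]
            rw [hT2, hprod a b _ hT, smul_smul, smul_smul]
            congr 1
            rw [mul_assoc, mul_comm b, mul_assoc, inv_mul_cancel, mul_one]
          · have hT : i ∈ Finset.univ \ JJ π k := by simp [hi]
            have hT2 : Finset.univ.erase i \ JJ π k = (Finset.univ \ JJ π k).erase i := by
              ext z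
              simp only [Finset.mem_sdiff, Finset.mem_erase, Finset.mem_univ, and_true, true_and]
            simp only [hPdef, if_neg hi, hEa]
            rw [hT2, hprod2 b _ hT, hprod a b _ (Finset.notMem_erase _ _), smul_smul]
        rw [h1]
        ring
    · intro g _ hg
      obtain ⟨x, hx, hxi⟩ : ∃ x, x ∉ g ∧ x ≠ i := by
        by_contra h1
        push Not at h1
        by_cases hi : i ∈ g
        · apply hg.1
          rw [Finset.eq_univ_iff_forall]
          intro x
          by_contra hx
          exact hx ((h1 x hx) ▸ hi)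
        · apply hg.2
          ext x
          simp only [Finset.mem_erase, Finset.mem_univ, and_true]
          constructor
          · intro hx hxi
            exact hi (hxi ▸ hx)
          · intro hx
            by_contra h2
            exact hx (h1 x h2)
      have := g8_deg f (fun g x => (∏ i ∈ g, Ea i) • x) halt P π g x hx (by
        intro J
        simp only [hPdef, Finset.mem_insert]
        by_cases hi : i ∈ J
        · simp [hi]
        · simp [hi, Ne.symm hxi])
      rw [this, mul_zero]
    · intro h
      exact absurd (Finset.mem_univ _) h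
    · intro h
      exact absurd (Finset.mem_univ _) h
  rw [hF] at h
  have hr1 : (-1 : ℂ) ^ r = (-1) ^ (r - 1) * (-1) := by
    rw [← pow_succ]
    congr 1
    omega
  rw [hr1] at h
  have hpow : ((-1 : ℂ) ^ (r - 1)) ≠ 0 := pow_ne_zero _ (by norm_num)
  apply mul_left_cancel₀ hpow
  linear_combination -h

theorem BB_pow {G : Type} [CommGroup G] [MulAction G X] (f : (Fin (r + 1) → X) → ℂ)
    (hinv : ∀ (g : G) v, f (fun k => g • v k) = f v)
    (halt : ∀ (v : Fin (r + 1) → X) (i j : Fin (r + 1)), i ≠ j → v i = v j → f v = 0)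
    (hcoc : ∀ v : Fin (r + 2) → X, ∑ j : Fin (r + 2), (-1 : ℂ) ^ (j : ℕ) *
      f (fun i => v (j.succAbove i)) = 0) (E : Fin r → G) (M : ℕ) (p : X) :
    BB f (fun i => E i ^ M) p = (M : ℂ) ^ r * BB f E p := by
  classical
  have hone : ∀ (E' : Fin r → G) (i : Fin r) (a : G) (N : ℕ),
      BB f (Function.update E' i (a ^ N)) p = (N : ℂ) * BB f (Function.update E' i a) p := by
    intro E' i a N
    induction N with
    | zero =>
      have h1 := BB_mul f hinv halt hcoc E' i 1 1 p
      rw [mul_one] at h1
      have h2 : BB f (Function.update E' i 1) p = 0 := by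
        linear_combination h1 - h1 - h1 
      rw [pow_zero, h2]
      simp
    | succ N ih =>
      rw [pow_succ, BB_mul f hinv halt hcoc, ih]
      push_cast
      ring
  have key : ∀ S : Finset (Fin r),
      BB f (fun i => if i ∈ S then E i ^ M else E i) p = (M : ℂ) ^ S.card * BB f E p := by
    intro S
    induction S using Finset.induction_on with
    | empty => simp
    | insert i S hi ih =>
      have h1 : (fun j => if j ∈ insert i S then E j ^ M else E j)
          = Function.update (fun j => if j ∈ S then E j ^ M else E j) i (E i ^ M) := by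
        funext j
        by_cases hj : j = i
        · subst hj
          simp
        · rw [Function.update_of_ne hj]
          simp [hj]
      have h2 : (fun j => if j ∈ S then E j ^ M else E j)
          = Function.update (fun j => if j ∈ S then E j ^ M else E j) i (E i) := by
        funext j
        by_cases hj : j = i
        · subst hj
          simp [hi]
        · rw [Function.update_of_ne hj]
      rw [h1, hone, ← h2, ih, Finset.card_insert_of_notMem hi, pow_succ]
      ring
  have h := key Finset.univ
  simpa using h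

end NG
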