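import Pool.Agent.MP_9ab903_nt.NG.G8

/-! ## [NG-G9a] the torus sum for an invariant density, limit computation

`D = qd (r+1)` with the commutative group `G` of positive vectors of product 1 acting by multiplication. `f P = det P ∫ Θ(∑ a_i P_i)`
for `P_i ∈ D`, `Θ` invariant under `G` (i.e. `Θ b` depends on `∏ b_j` only), `f` a cocycle. Then the torus sum of `E` is
`(-1)^r JE(E) ∫_0^∞ σ^r Θ(σ 1) dσ`: by `BB_pow` for the roots `E_i^{1/M}` it is `M^r BB(E^{1/M})`, and as `M → ∞`
`M^r det(P_0, .., P_r) → sign π det(log E_0, .., log E_{r-1}, 1)` for `P_k = ∏_{i ∉ J_k} E_i^{1/M}` (subtract consecutive rows), while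
`∫_{a>0} Θ(∑ a_i P_i) da → ∫_{a>0} Θ((∑ a_i) 1) da = (1/r!) ∫_0^∞ σ^r Θ(σ 1) dσ` (dominated convergence). Sum over `π`: `r!` terms. The
simplex integral: `∫_{a>0} g(∑ a_i) da = (1/r!) ∫_0^∞ σ^r g(σ) dσ` (induction on `r`, or `Mathlib` Dirichlet/Gamma trick). -/

set_option autoImplicit false

open scoped ComplexConjugate Matrix
open MeasureTheory Set Filter Topology

namespace NG

open CM27 NAB

variable {n : ℕ}

variable {r : ℕ}


theorem g9a_qd_eq (n : ℕ) : qd n = Set.univ.pi fun _ : Fin n => Ioi (0 : ℝ) := by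
  ext a
  simp [qd]

theorem g9a_qd_meas (n : ℕ) : MeasurableSet (qd n) := by
  rw [g9a_qd_eq]
  exact MeasurableSet.univ_pi fun _ => measurableSet_Ioi

theorem g9a_split (m : ℕ) (f : ℝ → ENNReal) (hf : Measurable f) :
    ∫⁻ a in qd (m + 1), f (∑ i, a i) =
      ∫⁻ t in Ioi (0 : ℝ), ∫⁻ b in qd m, f (t + ∑ i, b i) := by
  have he := volume_preserving_piFinSuccAbove (fun _ : Fin (m + 1) => ℝ) 0
  set e := MeasurableEquiv.piFinSuccAbove (fun _ : Fin (m + 1) => ℝ) 0 with hedef
  have he1 : ∀ a : Fin (m + 1) → ℝ, e a = (a 0, fun i : Fin m => a i.succ) := by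
    intro a
    rfl
  have h1 := he.setLIntegral_comp_preimage_emb e.measurableEmbedding
    (fun q : ℝ × (Fin m → ℝ) => f (q.1 + ∑ i, q.2 i)) (Ioi (0 : ℝ) ×ˢ qd m)
  have h2 : e ⁻¹' (Ioi (0 : ℝ) ×ˢ qd m) = qd (m + 1) := by
    ext a
    rw [Set.mem_preimage, he1, Set.mem_prod]
    simp only [qd, Set.mem_setOf_eq, Set.mem_Ioi]
    exact ⟨fun h i => Fin.cases h.1 h.2 i, fun h => ⟨h 0, fun i => h i.succ⟩⟩
  have h3 : ∀ a : Fin (m + 1) → ℝ, f ((e a).1 + ∑ i, (e a).2 i) = f (∑ i, a i) := by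
    intro a
    rw [he1, Fin.sum_univ_succ]
  rw [h2] at h1
  simp only [h3] at h1
  rw [h1, Measure.volume_eq_prod, ← Measure.prod_restrict, lintegral_prod]
  refine Measurable.aemeasurable ?_
  exact hf.comp (measurable_fst.add (Finset.measurable_sum _ fun i _ =>
    (measurable_pi_apply i).comp measurable_snd))

theorem g9a_shift (σ : ℝ) (h : ℝ → ENNReal) :
    ∫⁻ t in Ioi (0 : ℝ), h (t + σ) = ∫⁻ τ in Ioi σ, h τ := by
  rw [← lintegral_indicator measurableSet_Ioi, ← lintegral_indicator measurableSet_Ioi,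
    ← lintegral_add_right_eq_self (fun τ => (Ioi σ).indicator h τ) σ]
  refine lintegral_congr fun t => ?_
  by_cases ht : 0 < t
  · rw [Set.indicator_of_mem (by exact ht), Set.indicator_of_mem (by
      rw [Set.mem_Ioi]; linarith)]
  · rw [Set.indicator_of_notMem (by exact ht), Set.indicator_of_notMem (by
      rw [Set.mem_Ioi]; linarith)]

theorem g9a_pow (r : ℕ) (τ : ℝ) (hτ : 0 < τ) :
    ∫⁻ σ in Ioo (0 : ℝ) τ, ENNReal.ofReal (σ ^ r / r.factorial) =
      ENNReal.ofReal (τ ^ (r + 1) / (r + 1).factorial) := by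
  rw [← ofReal_integral_eq_lintegral_ofReal]
  · congr 1
    rw [← integral_Ioc_eq_integral_Ioo, ← intervalIntegral.integral_of_le hτ.le,
      intervalIntegral.integral_div, integral_pow, Nat.factorial_succ]
    have : (r.factorial : ℝ) ≠ 0 := by exact_mod_cast r.factorial_ne_zero
    push_cast
    field_simp
    ring
  · have h1 : IntervalIntegrable (fun σ : ℝ => σ ^ r / (r.factorial : ℝ)) volume 0 τ :=
      (Continuous.intervalIntegrable (by fun_prop) _ _)
    rw [intervalIntegrable_iff_integrableOn_Ioc_of_le hτ.le] at h1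
    exact h1.mono_set Ioo_subset_Ioc_self
  · refine (ae_restrict_iff' measurableSet_Ioo).2 (Eventually.of_forall fun σ hσ => ?_)
    have := hσ.1
    positivity

theorem g9a_lint (r : ℕ) : ∀ f : ℝ → ENNReal, Measurable f →
    ∫⁻ a in qd (r + 1), f (∑ i, a i) =
      ∫⁻ σ in Ioi (0 : ℝ), ENNReal.ofReal (σ ^ r / r.factorial) * f σ := by
  induction r with
  | zero =>
    intro f hf
    rw [g9a_split 0 f hf]
    refine setLIntegral_congr_fun measurableSet_Ioi fun t _ => ?_
    have h1 : qd 0 = Set.univ := by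
      ext a
      simp [qd]
    simp [h1, volume_pi]
  | succ r ih =>
    intro f hf
    rw [g9a_split (r + 1) f hf]
    have h1 : ∀ t : ℝ, ∫⁻ b in qd (r + 1), f (t + ∑ i, b i) =
        ∫⁻ σ in Ioi (0 : ℝ), ENNReal.ofReal (σ ^ r / r.factorial) * f (t + σ) := fun t =>
      ih (fun σ => f (t + σ)) (hf.comp (measurable_const.add measurable_id))
    simp only [h1]
    have hm : Measurable fun σ : ℝ => ENNReal.ofReal (σ ^ r / r.factorial) := by fun_prop
    rw [lintegral_lintegral_swap]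
    · have h2 : ∀ σ : ℝ, ∫⁻ t in Ioi (0 : ℝ), ENNReal.ofReal (σ ^ r / r.factorial) * f (t + σ) =
          ENNReal.ofReal (σ ^ r / r.factorial) * ∫⁻ τ in Ioi σ, f τ := by
        intro σ
        have hmt : Measurable fun t : ℝ => f (t + σ) := hf.comp (measurable_id.add measurable_const)
        rw [lintegral_const_mul _ hmt, g9a_shift]
      simp only [h2]
      -- both sides as double integrals
      have h3 : ∫⁻ σ in Ioi (0 : ℝ), ENNReal.ofReal (σ ^ r / r.factorial) * ∫⁻ τ in Ioi σ, f τ =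
          ∫⁻ σ in Ioi (0 : ℝ), ∫⁻ τ in Ioi (0 : ℝ),
            (if σ < τ then ENNReal.ofReal (σ ^ r / r.factorial) * f τ else 0) := by
        refine setLIntegral_congr_fun measurableSet_Ioi fun σ hσ => ?_
        have hσ' : (0 : ℝ) < σ := hσ
        rw [← lintegral_const_mul _ hf, ← lintegral_indicator measurableSet_Ioi,
          ← lintegral_indicator measurableSet_Ioi]
        refine lintegral_congr fun τ => ?_
        by_cases h : σ < τ
        · rw [Set.indicator_of_mem (by exact h), Set.indicator_of_mem (by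
            rw [Set.mem_Ioi]; linarith), if_pos h]
        · rw [Set.indicator_of_notMem (by exact h)]
          by_cases h' : 0 < τ
          · rw [Set.indicator_of_mem (by exact h'), if_neg h]
          · rw [Set.indicator_of_notMem (by exact h')]
      rw [h3, lintegral_lintegral_swap]
      · refine setLIntegral_congr_fun measurableSet_Ioi fun τ hτ => ?_
        have hτ' : (0 : ℝ) < τ := hτ
        have h4 : ∫⁻ σ in Ioi (0 : ℝ), (if σ < τ then
            ENNReal.ofReal (σ ^ r / r.factorial) * f τ else 0) =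
            ∫⁻ σ in Ioo (0 : ℝ) τ, ENNReal.ofReal (σ ^ r / r.factorial) * f τ := by
          rw [← lintegral_indicator measurableSet_Ioi, ← lintegral_indicator measurableSet_Ioo]
          refine lintegral_congr fun σ => ?_
          by_cases h : σ < τ
          · by_cases h' : 0 < σ
            · rw [Set.indicator_of_mem (by exact h'), if_pos h, Set.indicator_of_mem (show σ ∈ Ioo (0 : ℝ) τ from ⟨h', h⟩)]
            · rw [Set.indicator_of_notMem (by exact h'), Set.indicator_of_notMem (fun h5 => h' h5.1)]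
          · by_cases h' : 0 < σ
            · rw [Set.indicator_of_mem (by exact h'), if_neg h,
                Set.indicator_of_notMem (fun h5 => h h5.2)]
            · rw [Set.indicator_of_notMem (by exact h'), Set.indicator_of_notMem (fun h5 => h' h5.1)]
        rw [h4, lintegral_mul_const _ hm, g9a_pow r τ hτ']
      · refine Measurable.aemeasurable ?_
        refine Measurable.ite (measurableSet_lt measurable_fst measurable_snd) ?_ measurable_const
        exact (hm.comp measurable_fst).mul (hf.comp measurable_snd)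
    · refine Measurable.aemeasurable ?_
      exact (hm.comp measurable_snd).mul (hf.comp (measurable_fst.add measurable_snd))

/-- `∫_{a>0} g(∑ a_i) da = (1/r!) ∫_0^∞ σ^r g(σ) dσ` -/
theorem simplex_int (g : ℝ → ℂ) (hg : ContinuousOn g (Ioi 0)) (C κ : ℝ) (hκ : 0 < κ)
    (hb : ∀ σ : ℝ, 0 < σ → ‖g σ‖ ≤ C * Real.exp (-(κ * σ))) :
    ∫ a in qd (r + 1), g (∑ i, a i) = 1 / (r.factorial : ℂ) * ∫ σ in Ioi (0 : ℝ), (σ : ℂ) ^ r * g σ := by
  have hm : Measurable fun σ : ℝ => ENNReal.ofReal (σ ^ r / r.factorial) := by fun_prop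
  have hsum : Measurable fun a : Fin (r + 1) → ℝ => ∑ i, a i :=
    Finset.measurable_sum _ fun i _ => measurable_pi_apply i
  have h1 : Measure.map (fun a : Fin (r + 1) → ℝ => ∑ i, a i) (volume.restrict (qd (r + 1))) =
      ((volume : Measure ℝ).restrict (Ioi 0)).withDensity
        fun σ => ENNReal.ofReal (σ ^ r / r.factorial) := by
    refine Measure.ext fun s hs => ?_
    rw [withDensity_apply _ hs, ← lintegral_indicator_one hs, lintegral_map
      (measurable_one.indicator hs) hsum, g9a_lint r _ (measurable_one.indicator hs),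
      ← lintegral_indicator hs]
    refine setLIntegral_congr_fun measurableSet_Ioi fun σ _ => ?_
    by_cases h : σ ∈ s
    · rw [Set.indicator_of_mem h, Set.indicator_of_mem h, Pi.one_apply, mul_one]
    · rw [Set.indicator_of_notMem h, Set.indicator_of_notMem h, mul_zero]
  have hg1 : AEStronglyMeasurable g ((volume : Measure ℝ).restrict (Ioi 0)) :=
    hg.aestronglyMeasurable measurableSet_Ioi
  have hg2 : AEStronglyMeasurable g (Measure.map (fun a : Fin (r + 1) → ℝ => ∑ i, a i)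
      (volume.restrict (qd (r + 1)))) := by
    rw [h1]
    exact hg1.mono_ac (withDensity_absolutelyContinuous _ _)
  rw [← integral_map hsum.aemeasurable hg2, h1, integral_withDensity_eq_integral_toReal_smul hm
    (Eventually.of_forall fun _ => ENNReal.ofReal_lt_top), ← integral_const_mul]
  refine setIntegral_congr_fun measurableSet_Ioi fun σ hσ => ?_
  have hσ' : (0 : ℝ) < σ := hσ
  rw [ENNReal.toReal_ofReal (by positivity), Complex.real_smul]
  push_cast
  ring

/-! ### the determinant -/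

theorem g9a_det {r : ℕ} (P : Fin (r + 1) → Fin (r + 1) → ℝ) (M : ℝ) :
    M ^ r * (Matrix.of P).det = (Matrix.of (Fin.snoc (α := fun _ => Fin (r + 1) → ℝ)
      (fun i : Fin r => M • (P i.castSucc - P i.succ)) (P (Fin.last r)))).det := by
  set V : Matrix (Fin (r + 1)) (Fin (r + 1)) ℝ := Matrix.of (Fin.snoc (α := fun _ => Fin (r + 1) → ℝ)
    (fun i : Fin r => fun m => (if m = i.castSucc then M else 0) - (if m = i.succ then M else 0))
    (fun m => if m = Fin.last r then 1 else 0)) with hV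
  have hV1 : ∀ (i : Fin r) (m : Fin (r + 1)), V i.castSucc m =
      (if m = i.castSucc then M else 0) - (if m = i.succ then M else 0) := by
    intro i m
    rw [hV, Matrix.of_apply, Fin.snoc_castSucc]
  have hV2 : ∀ m : Fin (r + 1), V (Fin.last r) m = if m = Fin.last r then 1 else 0 := by
    intro m
    rw [hV, Matrix.of_apply, Fin.snoc_last]
  have hdet : V.det = M ^ r := by
    rw [Matrix.det_of_upperTriangular, Fin.prod_univ_castSucc, hV2, if_pos rfl, mul_one]
    · have h1 : ∀ i : Fin r, V i.castSucc i.castSucc = M := by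
        intro i
        rw [hV1, if_pos rfl, if_neg (Fin.castSucc_lt_succ).ne, sub_zero]
      simp [h1]
    · intro i j hij
      simp only [id] at hij
      induction i using Fin.lastCases with
      | last => rw [hV2, if_neg hij.ne]
      | cast i =>
        rw [hV1, if_neg hij.ne, if_neg, sub_zero]
        intro h
        rw [h] at hij
        exact absurd hij (not_lt.2 (Fin.castSucc_lt_succ).le)
  rw [← hdet, ← Matrix.det_mul]
  congr 1
  ext i l
  rw [Matrix.mul_apply, Matrix.of_apply]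
  induction i using Fin.lastCases with
  | last =>
    rw [Fin.snoc_last]
    simp [hV2]
  | cast i =>
    rw [Fin.snoc_castSucc]
    simp only [hV1, sub_mul, ite_mul, zero_mul, Finset.sum_sub_distrib, Finset.sum_ite_eq',
      Finset.mem_univ, if_true, Matrix.of_apply, Pi.smul_apply, Pi.sub_apply, smul_eq_mul]
    ring

/-- the determinant of the limit matrix -/
theorem g9a_JE {r : ℕ} (E : Fin r → Fin (r + 1) → ℝ) (π : Equiv.Perm (Fin r)) :
    (Matrix.of (Fin.snoc (α := fun _ => Fin (r + 1) → ℝ)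
      (fun i : Fin r => fun j => Real.log (E (π i) j)) (fun _ => (1 : ℝ)))).det =
      ((Equiv.Perm.sign π : ℤ) : ℝ) * ((-1) ^ r * JE E) := by
  set A : Matrix (Fin (r + 1)) (Fin (r + 1)) ℝ := Matrix.of (Fin.cons (α := fun _ => Fin (r + 1) → ℝ)
    (fun _ => (1 : ℝ)) (fun i j => Real.log (E i j))) with hA
  have hJ : JE E = A.det := rfl
  set τ : Equiv.Perm (Fin (r + 1)) := Equiv.Perm.decomposeFin.symm (0, π) with hτ
  set ρ : Equiv.Perm (Fin (r + 1)) := finRotate (r + 1) with hρ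
  have h1 : (Matrix.of (Fin.snoc (α := fun _ => Fin (r + 1) → ℝ)
      (fun i : Fin r => fun j => Real.log (E (π i) j)) (fun _ => (1 : ℝ)))) =
      A.submatrix (ρ.trans τ) id := by
    ext i l
    rw [Matrix.submatrix_apply, id, Equiv.trans_apply, Matrix.of_apply]
    induction i using Fin.lastCases with
    | last =>
      rw [Fin.snoc_last, hρ, finRotate_last, hτ, Equiv.Perm.decomposeFin_symm_apply_zero, hA,
        Matrix.of_apply, Fin.cons_zero]
    | cast i =>
      rw [Fin.snoc_castSucc, hρ]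
      have h2 : finRotate (r + 1) i.castSucc = i.succ := by
        rw [finRotate_apply, Fin.coeSucc_eq_succ]
      rw [h2, hτ, Equiv.Perm.decomposeFin_symm_apply_succ, Equiv.swap_self, Equiv.refl_apply, hA,
        Matrix.of_apply, Fin.cons_succ]
  rw [h1, Matrix.det_permute, ← hJ]
  have h3 : Equiv.Perm.sign (ρ.trans τ) = Equiv.Perm.sign π * (-1) ^ r := by
    have h4 : (ρ.trans τ) = τ * ρ := rfl
    rw [h4, Equiv.Perm.sign_mul, hρ, sign_finRotate, hτ, Equiv.Perm.decomposeFin.symm_sign,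
      if_pos rfl, one_mul, Nat.add_sub_cancel]
  rw [h3]
  push_cast
  ring

theorem g9a_expdiff (a b : ℝ) :
    Tendsto (fun M : ℕ => ((M : ℝ) + 1) * (Real.exp (a / ((M : ℝ) + 1)) - Real.exp (b / ((M : ℝ) + 1))))
      atTop (𝓝 (a - b)) := by
  have h1 : ∀ c : ℝ, Tendsto (fun M : ℕ => ((M : ℝ) + 1) * (Real.exp (c / ((M : ℝ) + 1)) - 1))
      atTop (𝓝 c) := by
    intro c
    have hd : HasDerivAt (fun h : ℝ => Real.exp (c * h)) c 0 := by
      have h2 : HasDerivAt (fun h : ℝ => c * h) c 0 := by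
        simpa using (hasDerivAt_id (0 : ℝ)).const_mul c
      have h3 := h2.exp
      simpa using h3
    rw [hasDerivAt_iff_tendsto_slope] at hd
    have h4 : Tendsto (fun M : ℕ => 1 / ((M : ℝ) + 1)) atTop (𝓝[≠] 0) := by
      rw [tendsto_nhdsWithin_iff]
      refine ⟨tendsto_one_div_add_atTop_nhds_zero_nat, Eventually.of_forall fun M => ?_⟩
      have : (0 : ℝ) < 1 / ((M : ℝ) + 1) := by positivity
      exact this.ne'
    refine (hd.comp h4).congr fun M => ?_
    have hM : (M : ℝ) + 1 ≠ 0 := by positivity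
    simp only [Function.comp_apply, slope_def_field, mul_zero, Real.exp_zero, sub_zero]
    rw [mul_one_div]
    field_simp
  have h2 := (h1 a).sub (h1 b)
  refine h2.congr fun M => ?_
  ring

/-! ### the invariant cocycle -/

/-- the vectors of sum zero -/
def g9a_S (r : ℕ) : AddSubgroup (Fin (r + 1) → ℝ) where
  carrier := {u | ∑ j, u j = 0}
  add_mem' := fun {u v} hu hv => by
    have hu' : ∑ j, u j = 0 := hu
    have hv' : ∑ j, v j = 0 := hv
    change ∑ j, (u j + v j) = 0
    rw [Finset.sum_add_distrib, hu', hv', add_zero]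
  zero_mem' := by
    change ∑ j : Fin (r + 1), (0 : ℝ) = 0
    simp
  neg_mem' := fun {u} hu => by
    have hu' : ∑ j, u j = 0 := hu
    change ∑ j, (-u j) = 0
    rw [Finset.sum_neg_distrib, hu', neg_zero]

theorem g9a_smul {r : ℕ} (g : Multiplicative (g9a_S r)) (v : Fin (r + 1) → ℝ) :
    g • v = ((Multiplicative.toAdd g : g9a_S r) : Fin (r + 1) → ℝ) + v := rfl

theorem g9a_comb_mem {r : ℕ} {a : Fin (r + 1) → ℝ} (ha : a ∈ qd (r + 1))
    {P : Fin (r + 1) → Fin (r + 1) → ℝ} (hP : ∀ i, P i ∈ qd (r + 1)) :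
    ∑ i, a i • P i ∈ qd (r + 1) := by
  intro j
  rw [Finset.sum_apply]
  exact Finset.sum_pos (fun i _ => mul_pos (ha i) (hP i j)) Finset.univ_nonempty

section
variable (Θ : (Fin (r + 1) → ℝ) → ℂ)
    (f : (Fin (r + 1) → Fin (r + 1) → ℝ) → ℂ)
    (hf : ∀ P : Fin (r + 1) → Fin (r + 1) → ℝ, (∀ i, P i ∈ qd (r + 1)) →
      f P = ((Matrix.of P).det : ℂ) * ∫ a in qd (r + 1), Θ (∑ i, a i • P i))
include hf

theorem g9a_alt (P : Fin (r + 1) → Fin (r + 1) → ℝ) (hP : ∀ i, P i ∈ qd (r + 1))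
    (i j : Fin (r + 1)) (hij : i ≠ j) (h : P i = P j) : f P = 0 := by
  rw [hf P hP]
  have h1 : (Matrix.of P).det = 0 := Matrix.det_zero_of_row_eq hij h
  rw [h1, Complex.ofReal_zero, zero_mul]

theorem g9a_inv (g : Fin (r + 1) → ℝ) (hg : ∀ j, 0 < g j) (hg1 : ∏ j, g j = 1)
    (hinv : ∀ b ∈ qd (r + 1), Θ (g * b) = Θ b)
    (P : Fin (r + 1) → Fin (r + 1) → ℝ) (hP : ∀ i, P i ∈ qd (r + 1)) :
    f (fun k => g * P k) = f P := by
  have hP' : ∀ i, g * P i ∈ qd (r + 1) := fun i j => mul_pos (hg j) (hP i j)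
  rw [hf _ hP', hf P hP]
  have h1 : (Matrix.of fun k => g * P k).det = (Matrix.of P).det := by
    have h2 := Matrix.det_mul_row g (Matrix.of P)
    rw [hg1, one_mul] at h2
    exact h2
  rw [h1]
  congr 1
  refine setIntegral_congr_fun (g9a_qd_meas _) fun a ha => ?_
  have h3 : ∑ i, a i • (g * P i) = g * ∑ i, a i • P i := by
    rw [Finset.mul_sum]
    refine Finset.sum_congr rfl fun i _ => ?_
    rw [mul_smul_comm]
  change Θ (∑ i, a i • (g * P i)) = Θ (∑ i, a i • P i)
  rw [h3]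
  exact hinv _ (g9a_comb_mem ha hP)

end

theorem g9a_sum_sdiff {r : ℕ} {β : Type*} [AddCommMonoid β] (π : Equiv.Perm (Fin r)) (k : Fin (r + 1))
    (l : Fin r → β) :
    ∑ i ∈ Finset.univ \ JJ π k, l i = ∑ j ∈ Finset.univ.filter (fun j : Fin r => (k : ℕ) ≤ j), l (π j) := by
  have h1 : Finset.univ \ JJ π k =
      (Finset.univ.filter (fun j : Fin r => (k : ℕ) ≤ j)).image π := by
    ext i
    simp only [Finset.mem_sdiff, Finset.mem_univ, true_and, JJ, Finset.mem_image, Finset.mem_filter]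
    constructor
    · intro h
      refine ⟨π.symm i, ?_, π.apply_symm_apply i⟩
      by_contra hlt
      exact h ⟨π.symm i, not_le.1 hlt, π.apply_symm_apply i⟩
    · rintro ⟨j, hj, rfl⟩ ⟨j', hj', h⟩
      have := π.injective h
      subst this
      omega
  rw [h1, Finset.sum_image (fun a _ b _ h => π.injective h)]

theorem g9a_diff {r : ℕ} {β : Type*} [AddCommGroup β] (π : Equiv.Perm (Fin r)) (k : Fin r)
    (l : Fin r → β) :
    ∑ i ∈ Finset.univ \ JJ π k.castSucc, l i - ∑ i ∈ Finset.univ \ JJ π k.succ, l i = l (π k) := by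
  rw [g9a_sum_sdiff, g9a_sum_sdiff]
  have h1 : Finset.univ.filter (fun j : Fin r => ((k.castSucc : Fin (r + 1)) : ℕ) ≤ j) =
      insert k (Finset.univ.filter (fun j : Fin r => ((k.succ : Fin (r + 1)) : ℕ) ≤ j)) := by
    ext j
    simp only [Finset.mem_insert, Finset.mem_filter, Finset.mem_univ, true_and, Fin.val_castSucc,
      Fin.val_succ, Fin.ext_iff]
    omega
  rw [h1, Finset.sum_insert, add_sub_cancel_right]
  simp

theorem g9a_last {r : ℕ} {β : Type*} [AddCommMonoid β] (π : Equiv.Perm (Fin r))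
    (l : Fin r → β) : ∑ i ∈ Finset.univ \ JJ π (Fin.last r), l i = 0 := by
  rw [g9a_sum_sdiff]
  apply Finset.sum_eq_zero
  intro j hj
  simp only [Finset.mem_filter, Fin.val_last] at hj
  omega

theorem g9a_exp_int (n : ℕ) (κ : ℝ) (hκ : 0 < κ) :
    IntegrableOn (fun a : Fin n → ℝ => Real.exp (-(κ * ∑ i, a i))) (qd n) := by
  have h1 : Integrable (fun a : Fin n → ℝ => ∏ i, Real.exp (-κ * a i))
      (Measure.pi fun _ : Fin n => (volume : Measure ℝ).restrict (Ioi 0)) :=
    Integrable.fintype_prod (f := fun _ (t : ℝ) => Real.exp (-κ * t))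
      fun _ => integrableOn_exp_mul_Ioi (by linarith) 0
  rw [IntegrableOn, g9a_qd_eq, volume_pi, Measure.restrict_pi_pi]
  refine h1.congr (Eventually.of_forall fun a => ?_)
  simp only
  rw [← Real.exp_sum, ← Finset.mul_sum, neg_mul]

/-- the box `[c, C]^n` -/
theorem g9a_box {m : ℕ} (c C : ℝ) (hc : 0 < c) (P : Fin (m + 1) → Fin (m + 1) → ℝ)
    (hP : ∀ i j, c ≤ P i j ∧ P i j ≤ C) (a : Fin (m + 1) → ℝ) (ha : a ∈ qd (m + 1)) :
    ∃ p ∈ Icc (fun _ : Fin (m + 1) => c) (fun _ => C), ∑ i, a i • P i = (∑ i, a i) • p := by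
  have hs : 0 < ∑ i, a i := Finset.sum_pos (fun i _ => ha i) Finset.univ_nonempty
  refine ⟨(∑ i, a i)⁻¹ • ∑ i, a i • P i, ⟨fun j => ?_, fun j => ?_⟩, ?_⟩
  · rw [Pi.smul_apply, Finset.sum_apply, smul_eq_mul, inv_mul_eq_div, le_div_iff₀ hs,
      Finset.mul_sum]
    refine Finset.sum_le_sum fun i _ => ?_
    rw [Pi.smul_apply, smul_eq_mul, mul_comm]
    exact mul_le_mul_of_nonneg_left (hP i j).1 (ha i).le
  · rw [Pi.smul_apply, Finset.sum_apply, smul_eq_mul, inv_mul_eq_div, div_le_iff₀ hs,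
      Finset.mul_sum]
    refine Finset.sum_le_sum fun i _ => ?_
    rw [Pi.smul_apply, smul_eq_mul, mul_comm C]
    exact mul_le_mul_of_nonneg_left (hP i j).2 (ha i).le
  · rw [smul_smul, mul_inv_cancel₀ hs.ne', one_smul]

theorem g9a_qd_open (n : ℕ) : IsOpen (qd n) := by
  rw [g9a_qd_eq]
  exact isOpen_set_pi Set.finite_univ fun _ _ => isOpen_Ioi

theorem g9a_lin_cont {m n : ℕ} (P : Fin m → Fin n → ℝ) :
    Continuous fun a : Fin m → ℝ => ∑ i, a i • P i := by
  fun_prop

/-- the limit of the integrals -/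
theorem g9a_intlim {r : ℕ} (Θ : (Fin (r + 1) → ℝ) → ℂ) (hΘ : ContinuousOn Θ (qd (r + 1)))
    (hdec : ∀ K ⊆ qd (r + 1), IsCompact K → ∃ C κ : ℝ, 0 < κ ∧ ∀ p ∈ K, ∀ σ : ℝ, 0 < σ →
      ‖Θ (σ • p)‖ ≤ C * Real.exp (-(κ * σ)))
    (c C : ℝ) (hc : 0 < c) (P : ℕ → Fin (r + 1) → Fin (r + 1) → ℝ)
    (hP : ∀ M i j, c ≤ P M i j ∧ P M i j ≤ C)
    (hlim : ∀ i j, Tendsto (fun M => P M i j) atTop (𝓝 1)) :
    Tendsto (fun M => ∫ a in qd (r + 1), Θ (∑ i, a i • P M i)) atTop
      (𝓝 (∫ a in qd (r + 1), Θ ((∑ i, a i) • (1 : Fin (r + 1) → ℝ)))) := by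
  have hK : Icc (fun _ : Fin (r + 1) => c) (fun _ => C) ⊆ qd (r + 1) := by
    intro p hp j
    exact hc.trans_le (hp.1 j)
  obtain ⟨D, κ, hκ, hD⟩ := hdec _ hK isCompact_Icc
  have hPq : ∀ M i, P M i ∈ qd (r + 1) := fun M i j => hc.trans_le (hP M i j).1
  refine tendsto_integral_of_dominated_convergence
    (fun a => D * Real.exp (-(κ * ∑ i, a i))) ?_ ?_ ?_ ?_
  · intro M
    refine ContinuousOn.aestronglyMeasurable ?_ (g9a_qd_meas _)
    exact hΘ.comp (g9a_lin_cont (P M)).continuousOn fun a ha => g9a_comb_mem ha (hPq M)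
  · exact (g9a_exp_int _ κ hκ).const_mul D
  · intro M
    refine (ae_restrict_iff' (g9a_qd_meas _)).2 (Eventually.of_forall fun a ha => ?_)
    obtain ⟨p, hp, he⟩ := g9a_box c C hc (P M) (hP M) a ha
    rw [he]
    exact hD p hp _ (Finset.sum_pos (fun i _ => ha i) Finset.univ_nonempty)
  · refine (ae_restrict_iff' (g9a_qd_meas _)).2 (Eventually.of_forall fun a ha => ?_)
    have hs : 0 < ∑ i, a i := Finset.sum_pos (fun i _ => ha i) Finset.univ_nonempty
    have h1 : (∑ i, a i) • (1 : Fin (r + 1) → ℝ) ∈ qd (r + 1) := by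
      intro j
      rw [Pi.smul_apply, Pi.one_apply, smul_eq_mul, mul_one]
      exact hs
    have h2 : ContinuousAt Θ ((∑ i, a i) • (1 : Fin (r + 1) → ℝ)) :=
      hΘ.continuousAt ((g9a_qd_open _).mem_nhds h1)
    refine h2.tendsto.comp ?_
    rw [tendsto_pi_nhds]
    intro j
    have h3 : Tendsto (fun M => ∑ i, a i * P M i j) atTop (𝓝 (∑ i, a i * 1)) :=
      tendsto_finset_sum _ fun i _ => (hlim i j).const_mul (a i)
    simp only [Finset.sum_apply, Pi.smul_apply, smul_eq_mul, Pi.one_apply]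
    simpa [Finset.sum_mul] using h3

theorem g9a_prod_smul {r : ℕ} (s : Finset (Fin r)) (e : Fin r → Multiplicative (g9a_S r))
    (p : Fin (r + 1) → ℝ) : (∏ i ∈ s, e i) • p =
      (∑ i ∈ s, ((Multiplicative.toAdd (e i) : g9a_S r) : Fin (r + 1) → ℝ)) + p := by
  rw [g9a_smul, toAdd_prod, AddSubgroup.val_finset_sum]

theorem TD_inv (E : Fin r → Fin (r + 1) → ℝ) (hE : ∀ i j, 0 < E i j) (hp : ∀ i, ∏ j, E i j = 1)
    (Θ : (Fin (r + 1) → ℝ) → ℂ) (hΘ : ContinuousOn Θ (qd (r + 1)))
    (hinv : ∀ g : Fin (r + 1) → ℝ, (∀ j, 0 < g j) → ∏ j, g j = 1 → ∀ b ∈ qd (r + 1),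
      Θ (g * b) = Θ b)
    (hdec : ∀ K ⊆ qd (r + 1), IsCompact K → ∃ C κ : ℝ, 0 < κ ∧ ∀ p ∈ K, ∀ σ : ℝ, 0 < σ →
      ‖Θ (σ • p)‖ ≤ C * Real.exp (-(κ * σ)))
    (f : (Fin (r + 1) → Fin (r + 1) → ℝ) → ℂ)
    (hf : ∀ P : Fin (r + 1) → Fin (r + 1) → ℝ, (∀ i, P i ∈ qd (r + 1)) →
      f P = ((Matrix.of P).det : ℂ) * ∫ a in qd (r + 1), Θ (∑ i, a i • P i))
    (hcoc : ∀ P : Fin (r + 2) → Fin (r + 1) → ℝ, (∀ i, P i ∈ qd (r + 1)) →
      ∑ j : Fin (r + 2), (-1 : ℂ) ^ (j : ℕ) * f (fun i => P (j.succAbove i)) = 0) :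
    ∑ π : Equiv.Perm (Fin r), ((Equiv.Perm.sign π : ℤ) : ℂ)
        * f (fun k => ∏ i ∈ Finset.univ \ JJ π k, E i)
      = (-1) ^ r * (JE E : ℂ) * ∫ σ in Ioi (0 : ℝ), (σ : ℂ) ^ r * Θ (σ • (1 : Fin (r + 1) → ℝ)) := by
  classical
  set l : Fin r → Fin (r + 1) → ℝ := fun i j => Real.log (E i j) with hl
  have hl0 : ∀ i, l i ∈ g9a_S r := by
    intro i
    change ∑ j, Real.log (E i j) = 0
    rw [← Real.log_prod (fun j _ => (hE i j).ne'), hp i, Real.log_one]
  set f' : (Fin (r + 1) → Fin (r + 1) → ℝ) → ℂ := fun v => f (fun k j => Real.exp (v k j)) with hf'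
  have hexp : ∀ (m : ℕ) (v : Fin m → Fin (r + 1) → ℝ) (i : Fin m),
      (fun j => Real.exp (v i j)) ∈ qd (r + 1) := fun m v i j => Real.exp_pos _
  have hinv' : ∀ (g : Multiplicative (g9a_S r)) (v : Fin (r + 1) → Fin (r + 1) → ℝ),
      f' (fun k => g • v k) = f' v := by
    intro g v
    have hu : ∑ j, ((Multiplicative.toAdd g : g9a_S r) : Fin (r + 1) → ℝ) j = 0 :=
      (Multiplicative.toAdd g).2
    set u := ((Multiplicative.toAdd g : g9a_S r) : Fin (r + 1) → ℝ) with hudef
    have h1 := g9a_inv Θ f hf (fun j => Real.exp (u j)) (fun j => Real.exp_pos _)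
      (by rw [← Real.exp_sum, hu, Real.exp_zero])
      (hinv _ (fun j => Real.exp_pos _) (by rw [← Real.exp_sum, hu, Real.exp_zero]))
      (fun k j => Real.exp (v k j)) (hexp _ v)
    rw [hf']
    simp only
    rw [← h1]
    congr 1
    funext k j
    rw [g9a_smul, Pi.add_apply, Pi.mul_apply, Real.exp_add]
  have halt' : ∀ (v : Fin (r + 1) → Fin (r + 1) → ℝ) (i j : Fin (r + 1)), i ≠ j → v i = v j →
      f' v = 0 := by
    intro v i j hij h
    refine g9a_alt Θ f hf _ (hexp _ v) i j hij ?_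
    simp only [h]
  have hcoc' : ∀ v : Fin (r + 2) → Fin (r + 1) → ℝ, ∑ j : Fin (r + 2), (-1 : ℂ) ^ (j : ℕ) *
      f' (fun i => v (j.succAbove i)) = 0 := fun v =>
    hcoc (fun k j => Real.exp (v k j)) (hexp _ v)
  -- the roots
  have hmem : ∀ (M : ℕ) (i : Fin r), ((M : ℝ) + 1)⁻¹ • l i ∈ g9a_S r := by
    intro M i
    have h1 : ∑ j, l i j = 0 := hl0 i
    change ∑ j, ((M : ℝ) + 1)⁻¹ * l i j = 0
    rw [← Finset.mul_sum, h1, mul_zero]
  set e : ℕ → Fin r → Multiplicative (g9a_S r) := fun M i =>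
    Multiplicative.ofAdd ⟨((M : ℝ) + 1)⁻¹ • l i, hmem M i⟩ with he
  have hepow : ∀ M : ℕ, (fun i => e M i ^ (M + 1)) =
      fun i => (Multiplicative.ofAdd ⟨l i, hl0 i⟩ : Multiplicative (g9a_S r)) := by
    intro M
    funext i
    apply Multiplicative.toAdd.injective
    rw [toAdd_pow]
    apply Subtype.ext
    rw [he]
    simp only [toAdd_ofAdd, AddSubgroup.coe_nsmul]
    rw [← Nat.cast_smul_eq_nsmul ℝ, smul_smul]
    push_cast
    rw [mul_inv_cancel₀ (by positivity), one_smul]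
  -- the left hand side
  have hL : ∑ π : Equiv.Perm (Fin r), ((Equiv.Perm.sign π : ℤ) : ℂ)
        * f (fun k => ∏ i ∈ Finset.univ \ JJ π k, E i) =
      BB f' (fun i => (Multiplicative.ofAdd ⟨l i, hl0 i⟩ : Multiplicative (g9a_S r))) 0 := by
    unfold BB
    refine Finset.sum_congr rfl fun π _ => ?_
    congr 1
    rw [hf']
    simp only
    congr 1
    funext k j
    rw [g9a_prod_smul]
    simp only [toAdd_ofAdd, add_zero, Finset.sum_apply, Finset.prod_apply]
    rw [Real.exp_sum]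
    refine Finset.prod_congr rfl fun i _ => ?_
    rw [hl, Real.exp_log (hE i j)]
  set s : Equiv.Perm (Fin r) → Fin (r + 1) → Fin (r + 1) → ℝ := fun π k =>
    ∑ i ∈ Finset.univ \ JJ π k, l i with hs
  set P : Equiv.Perm (Fin r) → ℕ → Fin (r + 1) → Fin (r + 1) → ℝ := fun π M k j =>
    Real.exp (s π k j / ((M : ℝ) + 1)) with hP
  have hseq : ∀ M : ℕ, ∑ π : Equiv.Perm (Fin r), ((Equiv.Perm.sign π : ℤ) : ℂ)
        * f (fun k => ∏ i ∈ Finset.univ \ JJ π k, E i) =
      ∑ π : Equiv.Perm (Fin r), ((Equiv.Perm.sign π : ℤ) : ℂ) *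
        (((((M : ℝ) + 1) ^ r * (Matrix.of (P π M)).det : ℝ) : ℂ) *
          ∫ a in qd (r + 1), Θ (∑ i, a i • P π M i)) := by
    intro M
    rw [hL, ← hepow M, BB_pow f' hinv' halt' hcoc' (e M) (M + 1) 0]
    unfold BB
    rw [Finset.mul_sum]
    refine Finset.sum_congr rfl fun π _ => ?_
    have h1 : f' (fun k => (∏ i ∈ Finset.univ \ JJ π k, e M i) • (0 : Fin (r + 1) → ℝ)) =
        f (P π M) := by
      rw [hf']
      simp only
      congr 1
      funext k j
      rw [g9a_prod_smul, hP, he]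
      simp only [toAdd_ofAdd, add_zero]
      congr 1
      rw [← Finset.smul_sum, Pi.smul_apply, smul_eq_mul, inv_mul_eq_div]
    rw [h1, hf (P π M) (fun i => hexp _ (fun k j => s π k j / ((M : ℝ) + 1)) i)]
    push_cast
    ring
  -- the limit
  have hlim : Tendsto (fun M : ℕ => ∑ π : Equiv.Perm (Fin r), ((Equiv.Perm.sign π : ℤ) : ℂ) *
        (((((M : ℝ) + 1) ^ r * (Matrix.of (P π M)).det : ℝ) : ℂ) *
          ∫ a in qd (r + 1), Θ (∑ i, a i • P π M i))) atTop
      (𝓝 (∑ π : Equiv.Perm (Fin r), ((Equiv.Perm.sign π : ℤ) : ℂ) *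
        (((((Equiv.Perm.sign π : ℤ) : ℝ) * ((-1) ^ r * JE E) : ℝ) : ℂ) *
          ∫ a in qd (r + 1), Θ ((∑ i, a i) • (1 : Fin (r + 1) → ℝ))))) := by
    refine tendsto_finset_sum _ fun π _ => ?_
    refine Tendsto.const_mul _ (Tendsto.mul ?_ ?_)
    · refine (Complex.continuous_ofReal.tendsto _).comp ?_
      rw [← g9a_JE E π]
      have h1 : ∀ M : ℕ, ((M : ℝ) + 1) ^ r * (Matrix.of (P π M)).det =
          (Matrix.of (Fin.snoc (α := fun _ => Fin (r + 1) → ℝ)
            (fun i : Fin r => ((M : ℝ) + 1) • (P π M i.castSucc - P π M i.succ))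
            (P π M (Fin.last r)))).det := fun M => g9a_det (P π M) _
      simp only [h1]
      have hdet : Continuous fun A : Matrix (Fin (r + 1)) (Fin (r + 1)) ℝ => A.det :=
        continuous_id.matrix_det
      refine (hdet.tendsto _).comp ?_
      refine tendsto_pi_nhds.2 fun i => tendsto_pi_nhds.2 fun j => ?_
      induction i using Fin.lastCases with
      | last =>
        simp only [Matrix.of_apply, Fin.snoc_last]
        have h2 : ∀ M : ℕ, P π M (Fin.last r) j = 1 := by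
          intro M
          rw [hP, hs]
          simp only
          rw [g9a_last]
          simp
        simp only [h2]
        exact tendsto_const_nhds
      | cast i =>
        simp only [Matrix.of_apply, Fin.snoc_castSucc, Pi.smul_apply, Pi.sub_apply, smul_eq_mul]
        have h2 : Real.log (E (π i) j) = s π i.castSucc j - s π i.succ j := by
          rw [hs]
          simp only
          rw [← Pi.sub_apply, g9a_diff π i l]
        rw [h2]
        exact g9a_expdiff _ _
    · -- the integrals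
      set B : ℝ := ∑ k, ∑ j, |s π k j| with hB
      have hBk : ∀ k j, |s π k j| ≤ B := by
        intro k j
        rw [hB]
        refine le_trans ?_ (Finset.single_le_sum (f := fun k => ∑ j, |s π k j|)
          (fun k _ => Finset.sum_nonneg fun j _ => abs_nonneg _) (Finset.mem_univ k))
        exact Finset.single_le_sum (f := fun j => |s π k j|) (fun j _ => abs_nonneg _)
          (Finset.mem_univ j)
      refine g9a_intlim Θ hΘ hdec (Real.exp (-B)) (Real.exp B) (Real.exp_pos _) (P π) ?_ ?_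
      · intro M i j
        have h1 : |s π i j / ((M : ℝ) + 1)| ≤ B := by
          rw [abs_div, abs_of_pos (by positivity : (0 : ℝ) < (M : ℝ) + 1)]
          refine le_trans ?_ (hBk i j)
          apply div_le_self (abs_nonneg _)
          have : (0 : ℝ) ≤ M := Nat.cast_nonneg M
          linarith
        have h2 := abs_le.1 h1
        exact ⟨Real.exp_le_exp.2 h2.1, Real.exp_le_exp.2 h2.2⟩
      · intro i j
        rw [← Real.exp_zero]
        refine (Real.continuous_exp.tendsto 0).comp ?_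
        have h3 : Tendsto (fun M : ℕ => s π i j * (1 / ((M : ℝ) + 1))) atTop (𝓝 (s π i j * 0)) :=
          tendsto_one_div_add_atTop_nhds_zero_nat.const_mul _
        rw [mul_zero] at h3
        refine h3.congr fun M => ?_
        rw [mul_one_div]
  have hconst := tendsto_nhds_unique (tendsto_const_nhds.congr hseq) hlim
  rw [hconst]
  -- the simplex integral
  obtain ⟨C, κ, hκ, hb⟩ := hdec {(1 : Fin (r + 1) → ℝ)} (by
    intro p hp j
    rw [Set.mem_singleton_iff] at hp
    rw [hp, Pi.one_apply]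
    norm_num) isCompact_singleton
  have hone : ∀ σ : ℝ, 0 < σ → σ • (1 : Fin (r + 1) → ℝ) ∈ qd (r + 1) := by
    intro σ hσ j
    rw [Pi.smul_apply, Pi.one_apply, smul_eq_mul, mul_one]
    exact hσ
  have hsimp := simplex_int (r := r) (fun σ => Θ (σ • (1 : Fin (r + 1) → ℝ)))
    (hΘ.comp (Continuous.continuousOn (by fun_prop)) (fun σ hσ => hone σ hσ)) C κ hκ
    (fun σ hσ => hb 1 (Set.mem_singleton _) σ hσ)
  rw [hsimp]
  have hsq : ∀ π : Equiv.Perm (Fin r), ((Equiv.Perm.sign π : ℤ) : ℂ) *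
      (((((Equiv.Perm.sign π : ℤ) : ℝ) * ((-1) ^ r * JE E) : ℝ) : ℂ) *
        (1 / (r.factorial : ℂ) * ∫ σ in Ioi (0 : ℝ), (σ : ℂ) ^ r * Θ (σ • (1 : Fin (r + 1) → ℝ)))) =
      (-1) ^ r * (JE E : ℂ) * (1 / (r.factorial : ℂ) *
        ∫ σ in Ioi (0 : ℝ), (σ : ℂ) ^ r * Θ (σ • (1 : Fin (r + 1) → ℝ))) := by
    intro π
    have h1 : ((Equiv.Perm.sign π : ℤ) : ℂ) * ((Equiv.Perm.sign π : ℤ) : ℂ) = 1 := by
      rcases Int.units_eq_one_or (Equiv.Perm.sign π) with h | h <;> rw [h] <;> simp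
    push_cast
    linear_combination ((-1) ^ r * (JE E : ℂ) * (1 / (r.factorial : ℂ) *
        ∫ σ in Ioi (0 : ℝ), (σ : ℂ) ^ r * Θ (σ • (1 : Fin (r + 1) → ℝ)))) * h1
  rw [Finset.sum_congr rfl fun π _ => hsq π, Finset.sum_const, Finset.card_univ,
    Fintype.card_perm, Fintype.card_fin, nsmul_eq_mul]
  have hfac : (r.factorial : ℂ) ≠ 0 := by exact_mod_cast r.factorial_ne_zero
  field_simp

end NG
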