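import Pool.Agent.MP_9ab903_nt.NG.HDefs
import Pool.Agent.MP_9ab903_nt.NAB.EU5

/-! ## [NG-H0] the embeddings over `ℚ(ω)` and norms

General version of `NAB/B0.lean` (degree 2 there): `algK F hw` makes `F` a `KK`-algebra of degree `r + 1`, `F →ₐ[KK] ℂ` has `r + 1`
elements (`AlgHom.card`), `IsS` lists them. `Algebra.norm KK x = ∏ s_j x` (`Algebra.norm_eq_prod_embeddings`). `s_eis`: `Algebra.intNorm`,
`exists_KK`. `s_absNorm`: `Ideal.absNorm_relNorm`. `s_psi`: `psi_span` (EU5); `∏ s_j g = 1 mod 3 ℤ[ω]` for `g = 1 mod 3` (the norm of `1 + 3 c`: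
the polynomial `∏ (1 + X s_j c)` has coefficients in `ℤ[ω]`; or `Algebra.norm` of `1 + 3c` via the charpoly, `Algebra.intNorm`; e.g.
`Algebra.norm_one_add_smul` or `Matrix.det_one_add_smul` on the matrix of `c` in an integral basis over `ℤ[ω]` (PID)). `s_all`: as `NAB.s2_all`. -/

set_option autoImplicit false

open NumberField IsDedekindDomain MeasureTheory Set
open CM27 CMT CF NAB
open scoped ComplexConjugate Classical Matrix

namespace NG

/-- a ring homomorphism on `F` fixing `w` is the identity on `ℚ(ω)` -/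
theorem h0_fix (F : IntermediateField ℚ ℂ) (hw : w ∈ F) (s : F →+* ℂ) (hs : s ⟨w, hw⟩ = w)
    (c : KK) : s (IntermediateField.inclusion (KK_le F hw) c) = (c : ℂ) := by
  let f₁ : KK →ₐ[ℚ] ℂ := (s.comp (IntermediateField.inclusion (KK_le F hw)).toRingHom).toRatAlgHom
  have h : f₁ = KK.val := by
    have hS : KK = IntermediateField.adjoin ℚ {w} := rfl
    apply IntermediateField.algHom_ext_of_eq_adjoin (hS := hS)
    rintro x hx
    rw [Set.mem_singleton_iff] at hx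
    subst hx
    exact hs
  exact congrArg (fun f : KK →ₐ[ℚ] ℂ => f c) h

/-- the algebra homomorphism over `ℚ(ω)` given by a ring homomorphism fixing `w` -/
noncomputable def h0_alg (F : IntermediateField ℚ ℂ) (hw : w ∈ F) (s : F →+* ℂ)
    (hs : s ⟨w, hw⟩ = w) : letI := algK F hw; F →ₐ[KK] ℂ :=
  letI := algK F hw
  { s with commutes' := fun c => h0_fix F hw s hs c }

theorem h0_alg_apply (F : IntermediateField ℚ ℂ) (hw : w ∈ F) (s : F →+* ℂ)
    (hs : s ⟨w, hw⟩ = w) (x : F) : letI := algK F hw; h0_alg F hw s hs x = s x := rfl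

theorem h0_card {r : ℕ} (F : IntermediateField ℚ ℂ) [NumberField F] (hw : w ∈ F)
    (h : Module.finrank ℚ F = 2 * (r + 1)) :
    letI := algK F hw; haveI := d2_finite F hw; Fintype.card (F →ₐ[KK] ℂ) = r + 1 := by
  letI := algK F hw
  haveI := d2_finite F hw
  have h1 := AlgHom.card KK F ℂ
  have h2 := d2_finrank F hw
  rw [h1]
  have h3 : 2 * Module.finrank KK F = 2 * (r + 1) := h2.trans h
  omega

variable {r : ℕ} (F : IntermediateField ℚ ℂ) [NumberField F] (hw : w ∈ F)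

theorem exists_s (h : Module.finrank ℚ F = 2 * (r + 1)) : ∃ s : Fin (r + 1) → F →+* ℂ, IsS F hw s := by
  letI := algK F hw
  haveI := d2_finite F hw
  let e : (F →ₐ[KK] ℂ) ≃ Fin (r + 1) := Fintype.equivFinOfCardEq (h0_card F hw h)
  refine ⟨fun j => (e.symm j).toRingHom, ?_, ?_, h⟩
  · intro j
    exact (e.symm j).commutes ⟨w, d2_w_mem⟩
  · intro i j hij
    apply e.symm.injective
    ext x
    exact congrArg (fun f : F →+* ℂ => f x) hij

variable (s : Fin (r + 1) → F →+* ℂ) (hs : IsS F hw s)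

theorem h0_bij (hs : IsS F hw s) :
    letI := algK F hw; Function.Bijective (fun j => h0_alg F hw (s j) (hs.fix j)) := by
  letI := algK F hw
  haveI := d2_finite F hw
  rw [Fintype.bijective_iff_injective_and_card]
  refine ⟨?_, ?_⟩
  · intro i j hij
    apply hs.inj
    ext x
    exact congrArg (fun f : F →ₐ[KK] ℂ => f x) hij
  · rw [Fintype.card_fin]
    exact (h0_card F hw hs.rank).symm

include hs

theorem s_surj (φ : F →+* ℂ) (hφ : φ ⟨w, hw⟩ = w) : ∃ j, φ = s j := by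
  letI := algK F hw
  obtain ⟨j, hj⟩ := (h0_bij F hw s hs).2 (h0_alg F hw φ hφ)
  refine ⟨j, ?_⟩
  ext x
  exact (congrArg (fun f : F →ₐ[KK] ℂ => f x) hj).symm

/-- All complex embeddings. -/
theorem s_all (φ : F →+* ℂ) : ∃ j, φ = s j ∨ φ = (starRingEnd ℂ).comp (s j) := by
  have hw2 : (⟨w, hw⟩ : F) * ⟨w, hw⟩ = -1 - ⟨w, hw⟩ := Subtype.ext w_sq
  have h6 : φ ⟨w, hw⟩ * φ ⟨w, hw⟩ = -1 - φ ⟨w, hw⟩ := by
    rw [← map_mul, hw2, map_sub, map_neg, map_one]
  have hcw : conj w = -1 - w := by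
    apply Complex.ext
    · rw [Complex.conj_re]
      simp only [Complex.sub_re, Complex.neg_re, Complex.one_re, w_re]
      norm_num
    · rw [Complex.conj_im]
      simp only [Complex.sub_im, Complex.neg_im, Complex.one_im]
      ring
  have h7 : (φ ⟨w, hw⟩ - w) * (φ ⟨w, hw⟩ - (-1 - w)) = 0 := by
    linear_combination h6 - w_sq
  rcases mul_eq_zero.1 h7 with h | h
  · obtain ⟨j, hj⟩ := s_surj F hw s hs φ (sub_eq_zero.1 h)
    exact ⟨j, Or.inl hj⟩
  · have h8 : ((starRingEnd ℂ).comp φ) ⟨w, hw⟩ = w := by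
      rw [RingHom.comp_apply, sub_eq_zero.1 h, ← hcw, Complex.conj_conj]
    obtain ⟨j, hj⟩ := s_surj F hw s hs _ h8
    refine ⟨j, Or.inr ?_⟩
    rw [← hj]
    ext x
    simp

theorem s_eF (j : Fin (r + 1)) (a : Eis) : s j ((eF F hw a : 𝓞 F) : F) = emb a :=
  h0_fix F hw (s j) (hs.fix j) (d2_f a)

theorem s_norm (x : F) :
    letI := algK F hw; ((Algebra.norm KK x : KK) : ℂ) = ∏ j, s j x := by
  letI := algK F hw
  haveI := d2_finite F hw
  have h1 := Algebra.norm_eq_prod_embeddings KK ℂ x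
  rw [← (Equiv.ofBijective _ (h0_bij F hw s hs)).prod_comp] at h1
  exact h1

theorem s_eis (g : 𝓞 F) : ∃ a : Eis, emb a = ∏ j, s j (g : F) := by
  letI := algK F hw
  haveI := d2_tower F hw
  haveI := d2_finite F hw
  obtain ⟨φ, hφ⟩ := exists_KK
  refine ⟨φ.symm (Algebra.intNorm (𝓞 KK) (𝓞 F) g), ?_⟩
  rw [← hφ, φ.apply_symm_apply, ← s_norm F hw s hs (g : F)]
  have h3 := Algebra.algebraMap_intNorm (A := 𝓞 KK) (K := KK) (L := F) (B := 𝓞 F) g
  exact congrArg (fun t : KK => (t : ℂ)) h3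

theorem s_absNorm (g : 𝓞 F) :
    (Ideal.absNorm (Ideal.span {g}) : ℝ) = (∏ j, ‖s j (g : F)‖) ^ 2 := by
  letI := algK F hw
  haveI := d2_tower F hw
  haveI := d2_finite F hw
  obtain ⟨φ, hφ⟩ := exists_KK
  have h1 := Ideal.absNorm_relNorm (R := 𝓞 KK) (S := 𝓞 F) (Ideal.span {g})
  rw [Ideal.relNorm_singleton] at h1
  have h3 := Algebra.algebraMap_intNorm (A := 𝓞 KK) (K := KK) (L := F) (B := 𝓞 F) g
  have h5 : emb (φ.symm (Algebra.intNorm (𝓞 KK) (𝓞 F) g)) = ∏ j, s j (g : F) := by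
    rw [← hφ, φ.apply_symm_apply, ← s_norm F hw s hs (g : F)]
    exact congrArg (fun t : KK => (t : ℂ)) h3
  set a := φ.symm (Algebra.intNorm (𝓞 KK) (𝓞 F) g) with ha
  have h6 : Algebra.intNorm (𝓞 KK) (𝓞 F) g = φ a := by rw [ha, φ.apply_symm_apply]
  rw [h6, card_KK F hw φ] at h1
  rw [← h1, ← norm_prod, ← h5, norm_emb_sq, Nat.cast_natAbs, abs_of_nonneg (norm_nonneg' _)]

/-- The norm of `g ≡ u mod 3`, `u ∈ ℤ[ω]`, `u ≡ 1 mod 3`, is primary. -/
theorem s_psi (g : 𝓞 F) (u : Eis) (hu : (3 : Eis) ∣ u - 1) (hg : (3 : 𝓞 F) ∣ g - eF F hw u) :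
    emb (psi F (Ideal.span {g})) = ∏ j, s j (g : F) := by
  letI := algK F hw
  haveI := d2_tower F hw
  haveI := d2_finite F hw
  haveI := eis_isDomain
  haveI := eis_pid
  -- `g ≡ 1 mod 3`
  obtain ⟨c₁, hc₁⟩ := hg
  obtain ⟨c₂, hc₂⟩ := hu
  have hc₃ : g = 1 + 3 * (c₁ + eF F hw c₂) := by
    have h := congrArg (eF F hw) hc₂
    rw [map_sub, map_one, map_mul, map_ofNat] at h
    linear_combination hc₁ + h
  set c := c₁ + eF F hw c₂ with hc
  obtain ⟨φ, hφ⟩ := exists_KK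
  have hpid : IsPrincipalIdealRing (𝓞 KK) :=
    IsPrincipalIdealRing.of_surjective (φ : Eis →+* 𝓞 KK) φ.surjective
  have hfree : Module.Free (𝓞 KK) (𝓞 F) := inferInstance
  have h3 := Algebra.algebraMap_intNorm (A := 𝓞 KK) (K := KK) (L := F) (B := 𝓞 F) g
  set a := φ.symm (Algebra.intNorm (𝓞 KK) (𝓞 F) g) with ha
  have h5 : emb a = ∏ j, s j (g : F) := by
    rw [ha, ← hφ, φ.apply_symm_apply, ← s_norm F hw s hs (g : F)]
    exact congrArg (fun t : KK => (t : ℂ)) h3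
  have h6 : Algebra.intNorm (𝓞 KK) (𝓞 F) g = φ a := by rw [ha, φ.apply_symm_apply]
  have hap : Primary a := by
    obtain ⟨t, ht⟩ := Algebra.norm_one_add_smul (A := 𝓞 KK) (B := 𝓞 F) 3 c
    have h7 : g = 1 + (3 : 𝓞 KK) • c := by
      rw [hc₃, Algebra.smul_def, map_ofNat]
    rw [← h7, ← Algebra.intNorm_eq_norm, h6] at ht
    have h8 := congrArg φ.symm ht
    rw [φ.symm_apply_apply] at h8
    refine ⟨φ.symm (Algebra.trace (𝓞 KK) (𝓞 F) c) + 3 * φ.symm t, ?_⟩
    rw [h8]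
    simp only [map_add, map_mul, map_one, map_pow, map_ofNat]
    ring
  have hg0 : g ≠ 0 := by
    intro h0
    rw [h0] at h5
    have h1 : a = 0 := by
      apply emb_injective
      rw [h5, _root_.map_zero emb]
      exact Finset.prod_eq_zero (Finset.mem_univ 0) (by simp)
    rw [h1, primary_iff] at hap
    simp at hap
  have hcop : IsCoprime (Ideal.span {g}) (Ideal.span {(3 : 𝓞 F)}) := by
    rw [Ideal.isCoprime_span_singleton_iff]
    refine ⟨1, -c, ?_⟩
    rw [hc₃]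
    ring
  rw [psi_span F hw g hg0 hcop a hap ?_, h5]
  rw [s_norm F hw s hs (g : F), h5]

/-- Units congruent to `1` modulo `3` have norm `1`. -/
theorem s_unit (u : (𝓞 F)ˣ) (h3 : (3 : 𝓞 F) ∣ (u : 𝓞 F) - 1) : ∏ j, s j ((u : 𝓞 F) : F) = 1 := by
  have h1 := s_psi F hw s hs (u : 𝓞 F) 1 (by simp) (by rw [map_one]; exact h3)
  have h2 := s_psi F hw s hs 1 1 (by simp) (by rw [map_one]; simp)
  have h4 : Ideal.span {(u : 𝓞 F)} = Ideal.span {(1 : 𝓞 F)} := by
    rw [Ideal.span_singleton_eq_span_singleton]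
    exact (associated_one_iff_isUnit.2 u.isUnit)
  rw [← h1, h4, h2]
  refine Finset.prod_eq_one fun j _ => ?_
  exact map_one (s j)

end NG
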