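import Pool.Agent.MP_9ab903_nt.NG.H0
import Pool.Agent.MP_9ab903_nt.NAB.B2

/-! ## [NG-H1a] a basis of the units congruent to `1` modulo `𝔫`

`UM 𝔫` is torsion free (`torsion_eq_one`, `NAB/B2.lean`: a root of unity `≡ 1 mod 3` is `1`), of finite index in `(𝓞 F)ˣ` (kernel of the map to
`(𝓞 F ⧸ 𝔫)ˣ`), so `Additive (UM 𝔫)` is free of rank `Units.rank F = r` (`F` is totally complex of degree `2(r+1)`): basis `e`.
`JE (ab s e) ≠ 0`: `e` has maximal rank (`Units.isMaxRank_iff_closure_finiteIndex` or so), `regOfFamily e ≠ 0` and `regOfFamily_eq_det`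
(the places of `F` correspond to the `s_j`: `mk (s j)`), or directly: if the rows `1, log |s_j e_i|²` are dependent then, the sum over `j` of each
`log`-row being `0`, the `logEmbedding`s of the `e_i` are dependent. Sign: replace `e 0` by its inverse (`r ≥ 1`; `JE = 1` if `r = 0`). -/

set_option autoImplicit false

open NumberField IsDedekindDomain MeasureTheory Set
open CM27 CMT CF NAB
open scoped ComplexConjugate Classical Matrix

namespace NG

section gen

open NumberField.Units NumberField.Units.dirichletUnitTheorem Module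

variable (K : Type) [Field K] [NumberField K]

theorem h1a_basis (H : Subgroup (𝓞 K)ˣ) (hfin : H.FiniteIndex)
    (htf : ∀ u ∈ H, u ∈ torsion K → u = 1) :
    ∃ e : Fin (rank K) → (𝓞 K)ˣ, (∀ i, e i ∈ H) ∧
      (∀ u ∈ H, ∃! k : Fin (rank K) → ℤ, u = ∏ i, e i ^ k i) ∧ IsMaxRank e := by
  classical
  let π : Additive (𝓞 K)ˣ →+ logSpace K := logEmbedding K
  have hπ : ∀ u ∈ H, ∀ v ∈ H, π (Additive.ofMul u) = π (Additive.ofMul v) → u = v := by
    intro u hu v hv h
    have h1 : π (Additive.ofMul (u * v⁻¹)) = 0 := by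
      rw [ofMul_mul, map_add, ofMul_inv, map_neg, h, add_neg_cancel]
    have h2 : u * v⁻¹ ∈ torsion K := (logEmbedding_eq_zero_iff).1 h1
    exact mul_inv_eq_one.1 (htf _ (H.mul_mem hu (H.inv_mem hv)) h2)
  have hlat : ∀ u : (𝓞 K)ˣ, π (Additive.ofMul u) ∈ unitLattice K := fun u =>
    ⟨Additive.ofMul u, trivial, rfl⟩
  let N : Submodule ℤ (unitLattice K) :=
    { carrier := {x | ∃ u ∈ H, π (Additive.ofMul u) = (x : logSpace K)}
      add_mem' := by
        rintro x y ⟨u, hu, hx⟩ ⟨v, hv, hy⟩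
        exact ⟨u * v, H.mul_mem hu hv, by rw [ofMul_mul, map_add, hx, hy]; rfl⟩
      zero_mem' := ⟨1, H.one_mem, by rw [ofMul_one, map_zero]; rfl⟩
      smul_mem' := by
        rintro k x ⟨u, hu, hx⟩
        exact ⟨u ^ k, H.zpow_mem hu k, by rw [ofMul_zpow, map_zsmul, hx]; rfl⟩ }
  have hrk : finrank ℤ N = rank K := by
    rw [← unitLattice_rank K]
    refine le_antisymm (Submodule.finrank_le N)
      (((LinearMap.lsmul ℤ (unitLattice K) (H.index : ℤ)).codRestrict N
        fun x ↦ ?_).finrank_le_finrank_of_injective ?_)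
    · obtain ⟨u, -, hu⟩ := x.2
      refine ⟨(Additive.toMul u) ^ H.index, H.pow_index_mem _, ?_⟩
      rw [ofMul_pow, map_nsmul, LinearMap.lsmul_apply, Submodule.coe_smul, natCast_zsmul]
      congr 1
    · refine (LinearMap.lsmul_injective ?_).codRestrict _
      exact_mod_cast hfin.index_ne_zero
  let b : Basis (Fin (rank K)) ℤ N := Module.finBasisOfFinrankEq ℤ _ hrk
  have hb : ∀ i, ∃ u ∈ H, π (Additive.ofMul u) = (((b i : N) : unitLattice K) : logSpace K) :=
    fun i => (b i).2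
  choose e heH he using hb
  have hprod : ∀ k : Fin (rank K) → ℤ, π (Additive.ofMul (∏ i, e i ^ k i)) =
      (((∑ i, k i • b i : N) : unitLattice K) : logSpace K) := by
    intro k
    rw [ofMul_prod, map_sum, Submodule.coe_sum, Submodule.coe_sum]
    refine Finset.sum_congr rfl fun i _ => ?_
    rw [ofMul_zpow, map_zsmul, he i, Submodule.coe_smul, Submodule.coe_smul]
  have hprodH : ∀ k : Fin (rank K) → ℤ, ∏ i, e i ^ k i ∈ H := fun k =>
    H.prod_mem fun i _ => H.zpow_mem (heH i) _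
  have hgen : ∀ u ∈ H, ∃! k : Fin (rank K) → ℤ, u = ∏ i, e i ^ k i := by
    intro u hu
    let x : N := ⟨⟨π (Additive.ofMul u), hlat u⟩, ⟨u, hu, rfl⟩⟩
    refine ⟨fun i => b.repr x i, ?_, ?_⟩
    · refine hπ _ hu _ (hprodH _) ?_
      rw [hprod, b.sum_repr]
    · intro k hk
      have h1 : ∑ i, k i • b i = x := by
        apply Subtype.ext
        apply Subtype.ext
        rw [← hprod, ← hk]
      rw [← h1]
      ext i
      rw [map_sum, Finsupp.finsetSum_apply]
      simp [Finsupp.single_apply]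
  refine ⟨e, heH, hgen, ?_⟩
  rw [isMaxRank_iff_closure_finiteIndex]
  have : Subgroup.closure (Set.range e) = H := by
    apply le_antisymm
    · rw [Subgroup.closure_le]
      rintro _ ⟨i, rfl⟩
      exact heH i
    · intro u hu
      obtain ⟨k, hk, -⟩ := hgen u hu
      rw [hk]
      exact Subgroup.prod_mem _ fun i _ =>
        Subgroup.zpow_mem _ (Subgroup.subset_closure (Set.mem_range_self i)) _
  rwa [this]

end gen

section

open NumberField.Units NumberField.Units.dirichletUnitTheorem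

theorem h1a_cx (F : IntermediateField ℚ ℂ) (hw : w ∈ F) :
    ∀ φ : F →+* ℂ, ¬ ComplexEmbedding.IsReal φ := by
  have hw2 : (⟨w, hw⟩ : F) ^ 2 + ⟨w, hw⟩ + 1 = 0 := by
    apply Subtype.ext
    change w ^ 2 + w + 1 = 0
    linear_combination w_sq
  intro φ hφ
  have h1 : (φ ⟨w, hw⟩) ^ 2 + φ ⟨w, hw⟩ + 1 = 0 := by
    rw [← map_pow, ← map_add, ← map_one φ, ← map_add, hw2, map_zero]
  have h2 : conj (φ ⟨w, hw⟩) = φ ⟨w, hw⟩ := by
    have := RingHom.congr_fun hφ (⟨w, hw⟩ : F)
    simpa using this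
  obtain ⟨r, hr⟩ := Complex.conj_eq_iff_real.1 h2
  rw [hr] at h1
  have h3 : r ^ 2 + r + 1 = 0 := by exact_mod_cast h1
  nlinarith [sq_nonneg (r + 1 / 2)]

theorem h1a_rank (K : Type) [Field K] [NumberField K] {r : ℕ}
    (h4 : Module.finrank ℚ K = 2 * (r + 1))
    (hc : ∀ φ : K →+* ℂ, ¬ ComplexEmbedding.IsReal φ) : Units.rank K = r := by
  have h1 : InfinitePlace.nrRealPlaces K = 0 := by
    rw [InfinitePlace.nrRealPlaces, Fintype.card_eq_zero_iff]
    refine ⟨fun v => ?_⟩
    obtain ⟨φ, hφ, -⟩ := v.2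
    exact hc φ hφ
  have h2 := InfinitePlace.card_add_two_mul_card_eq_rank K
  have h3 := InfinitePlace.card_eq_nrRealPlaces_add_nrComplexPlaces K
  rw [Units.rank]
  omega

theorem h1a_zero {r : ℕ} (hr : r = 0) (E : Fin r → Fin (r + 1) → ℝ) : JE E = 1 := by
  subst hr
  unfold JE
  exact (Matrix.det_fin_one (Matrix.of (Fin.cons (fun _ => (1 : ℝ))
    (fun i j => Real.log (E i j)) : Fin 1 → Fin 1 → ℝ))).trans rfl

theorem h1a_fin (F : IntermediateField ℚ ℂ) [NumberField F] (𝔫 : Ideal (𝓞 F)) (h0 : 𝔫 ≠ ⊥) :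
    (UM F 𝔫).FiniteIndex := by
  have hfin : Finite (𝓞 F ⧸ 𝔫) := Ideal.finiteQuotientOfFreeOfNeBot 𝔫 h0
  let f : (𝓞 F)ˣ →* (𝓞 F ⧸ 𝔫)ˣ := _root_.Units.map (Ideal.Quotient.mk 𝔫 : 𝓞 F →* (𝓞 F ⧸ 𝔫))
  have h : UM F 𝔫 = f.ker := by
    ext u
    rw [MonoidHom.mem_ker, Units.ext_iff, Units.coe_map, Units.val_one,
      ← map_one (Ideal.Quotient.mk 𝔫)]
    exact (Ideal.Quotient.eq).symm
  rw [h]
  have : Finite f.range := inferInstance
  exact Subgroup.finiteIndex_ker f

variable {r : ℕ} (F : IntermediateField ℚ ℂ) [NumberField F] (hw : w ∈ F)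

omit [NumberField F] in
/-- `JE` of the family with the entry `i0` inverted -/
theorem h1a_flip (s : Fin (r + 1) → F →+* ℂ) (e : Fin r → (𝓞 F)ˣ) (i0 : Fin r) :
    JE (ab F s (Function.update e i0 (e i0)⁻¹)) = - JE (ab F s e) := by
  rw [JE, JE]
  have h : (Matrix.of (Fin.cons (fun _ => (1 : ℝ))
      (fun i j => Real.log (ab F s (Function.update e i0 (e i0)⁻¹) i j)) :
      Fin (r + 1) → Fin (r + 1) → ℝ)) =
      Matrix.updateRow (Matrix.of (Fin.cons (fun _ => (1 : ℝ))
      (fun i j => Real.log (ab F s e i j)) : Fin (r + 1) → Fin (r + 1) → ℝ)) i0.succ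
      ((-1 : ℝ) • (Matrix.of (Fin.cons (fun _ => (1 : ℝ))
      (fun i j => Real.log (ab F s e i j)) : Fin (r + 1) → Fin (r + 1) → ℝ)) i0.succ) := by
    ext i j
    refine Fin.cases ?_ (fun i => ?_) i
    · rw [Matrix.updateRow_ne (Fin.succ_ne_zero i0).symm]
      rfl
    · by_cases hi : i = i0
      · subst hi
        rw [Matrix.updateRow_self]
        simp only [Matrix.of_apply, Fin.cons_succ, Pi.smul_apply, smul_eq_mul]
        rw [ab, ab, Function.update_self]
        have h1 : s j (((((e i)⁻¹ : (𝓞 F)ˣ) : 𝓞 F)) : F) = (s j ((e i : 𝓞 F) : F))⁻¹ := by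
          apply eq_inv_of_mul_eq_one_left
          rw [← map_mul, ← map_mul]
          simp
        rw [h1, norm_inv, inv_pow, Real.log_inv]
        ring
      · rw [Matrix.updateRow_ne (fun h => hi (Fin.succ_injective _ h))]
        simp only [Matrix.of_apply, Fin.cons_succ]
        rw [ab, ab, Function.update_of_ne hi]
  rw [h, Matrix.det_updateRow_smul, Matrix.updateRow_eq_self]
  ring

include hw in
theorem h1a_ne (s : Fin (Units.rank F + 1) → F →+* ℂ) (hs : IsS F hw s)
    (e : Fin (Units.rank F) → (𝓞 F)ˣ) (hn : ∀ i, ∏ j, s j ((e i : 𝓞 F) : F) = 1)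
    (hmax : IsMaxRank e) : JE (ab F s e) ≠ 0 := by
  intro hdet
  rw [JE] at hdet
  obtain ⟨v, hv, h⟩ := Matrix.exists_vecMul_eq_zero_iff.2 hdet
  have h1 : ∀ j, v 0 + ∑ i : Fin (Units.rank F), v i.succ * Real.log (ab F s e i j) = 0 := by
    intro j
    have h2 := congrFun h j
    rw [Matrix.vecMul, dotProduct, Fin.sum_univ_succ] at h2
    simpa using h2
  have h2 : ∀ i : Fin (Units.rank F), ∑ j, Real.log (ab F s e i j) = 0 := by
    intro i
    have hne : ∀ j, s j ((e i : 𝓞 F) : F) ≠ 0 := by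
      intro j h3
      have := hn i
      rw [Finset.prod_eq_zero (Finset.mem_univ j) h3] at this
      exact zero_ne_one this
    change ∑ j, Real.log (‖s j ((e i : 𝓞 F) : F)‖ ^ 2) = 0
    rw [← Real.log_prod (fun j _ => pow_ne_zero 2 (norm_ne_zero_iff.2 (hne j))),
      Finset.prod_pow, ← norm_prod, hn i, norm_one, one_pow, Real.log_one]
  have h3 : v 0 = 0 := by
    have h4 : ∑ j : Fin (Units.rank F + 1),
        (v 0 + ∑ i : Fin (Units.rank F), v i.succ * Real.log (ab F s e i j)) = 0 :=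
      Finset.sum_eq_zero fun j _ => h1 j
    rw [Finset.sum_add_distrib, Finset.sum_comm, Finset.sum_const, Finset.card_univ,
      Fintype.card_fin] at h4
    have h5 : ∑ i : Fin (Units.rank F), ∑ j, v i.succ * Real.log (ab F s e i j) = 0 := by
      refine Finset.sum_eq_zero fun i _ => ?_
      rw [← Finset.mul_sum, h2 i, mul_zero]
    rw [h5, add_zero, nsmul_eq_mul, mul_eq_zero] at h4
    rcases h4 with h4 | h4
    · exfalso
      have : ((Units.rank F + 1 : ℕ) : ℝ) ≠ 0 := Nat.cast_ne_zero.2 (Nat.succ_ne_zero _)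
      exact this h4
    · exact h4
  have h4 : ∀ j, ∑ i : Fin (Units.rank F), v i.succ * Real.log ‖s j ((e i : 𝓞 F) : F)‖ = 0 := by
    intro j
    have h5 := h1 j
    rw [h3, zero_add] at h5
    have h6 : ∑ i : Fin (Units.rank F), v i.succ * Real.log (ab F s e i j) =
        2 * ∑ i : Fin (Units.rank F), v i.succ * Real.log ‖s j ((e i : 𝓞 F) : F)‖ := by
      rw [Finset.mul_sum]
      refine Finset.sum_congr rfl fun i _ => ?_
      rw [ab, Real.log_pow]
      push_cast
      ring
    rw [h6] at h5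
    linarith
  have h5 : ∑ i : Fin (Units.rank F), v i.succ • logEmbedding F (Additive.ofMul (e i)) = 0 := by
    funext v'
    rw [Finset.sum_apply]
    obtain ⟨j, hj⟩ := s_all F hw s hs v'.1.embedding
    have h6 : ∀ i, v'.1 ((e i : 𝓞 F) : F) = ‖s j ((e i : 𝓞 F) : F)‖ := by
      intro i
      rw [← InfinitePlace.norm_embedding_eq]
      rcases hj with hj | hj
      · rw [hj]
      · rw [hj, RingHom.comp_apply, Complex.norm_conj]
    have h7 : ∀ i : Fin (Units.rank F),
        (v i.succ • logEmbedding F (Additive.ofMul (e i))) v' =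
        (InfinitePlace.mult v'.1 : ℝ) * (v i.succ * Real.log ‖s j ((e i : 𝓞 F) : F)‖) := by
      intro i
      rw [Pi.smul_apply, smul_eq_mul, logEmbedding_component, h6 i]
      ring
    rw [Finset.sum_congr rfl (fun i _ => h7 i), ← Finset.mul_sum, h4 j, mul_zero]
    rfl
  have h6 := Fintype.linearIndependent_iff.1 hmax (fun i => v i.succ) h5
  apply hv
  funext i
  refine Fin.cases h3 (fun i => ?_) i
  exact h6 i

end

variable {r : ℕ} (F : IntermediateField ℚ ℂ) [NumberField F] (hw : w ∈ F)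

theorem exists_basis (s : Fin (r + 1) → F →+* ℂ) (hs : IsS F hw s) (𝔫 : Ideal (𝓞 F)) (h0 : 𝔫 ≠ ⊥)
    (h3 : 𝔫 ≤ Ideal.span {(3 : 𝓞 F)}) : ∃ e : Fin r → (𝓞 F)ˣ, IsB F s 𝔫 e := by
  have hr : Units.rank F = r := h1a_rank F hs.rank (h1a_cx F hw)
  subst hr
  have h3' : ∀ u ∈ UM F 𝔫, (3 : 𝓞 F) ∣ (u : 𝓞 F) - 1 := fun u hu =>
    Ideal.mem_span_singleton.1 (h3 hu)
  obtain ⟨e, heH, hgen, hmax⟩ := h1a_basis F (UM F 𝔫) (h1a_fin F 𝔫 h0)
    (fun u hu ht => GenAux.torsion_eq_one F 3 dvd_rfl u ht (h3' u hu))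
  have hn : ∀ u ∈ UM F 𝔫, ∏ j, s j ((u : 𝓞 F) : F) = 1 := fun u hu =>
    s_unit F hw s hs u (h3' u hu)
  have hne := h1a_ne F hw s hs e (fun i => hn _ (heH i)) hmax
  rcases lt_or_gt_of_ne hne with hneg | hpos
  · have hr0 : 0 < Units.rank F := by
      by_contra hcon
      have hr1 : Units.rank F = 0 := by omega
      have : JE (ab F s e) = 1 := h1a_zero hr1 _
      linarith
    let i0 : Fin (Units.rank F) := ⟨0, hr0⟩
    let e' := Function.update e i0 (e i0)⁻¹
    have heH' : ∀ i, e' i ∈ UM F 𝔫 := by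
      intro i
      by_cases hi : i = i0
      · subst hi
        change Function.update e i0 (e i0)⁻¹ i0 ∈ _
        rw [Function.update_self]
        exact (UM F 𝔫).inv_mem (heH _)
      · change Function.update e i0 (e i0)⁻¹ i ∈ _
        rw [Function.update_of_ne hi]
        exact heH i
    let fl : (Fin (Units.rank F) → ℤ) → (Fin (Units.rank F) → ℤ) := fun k =>
      Function.update k i0 (- k i0)
    have hfl : ∀ k, fl (fl k) = k := by
      intro k
      simp [fl]
    have hez : ∀ k, ez F e' k = ez F e (fl k) := by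
      intro k
      rw [ez, ez]
      refine Finset.prod_congr rfl fun i _ => ?_
      by_cases hi : i = i0
      · subst hi
        change (Function.update e i0 (e i0)⁻¹ i0) ^ k i0 = e i0 ^ (Function.update k i0 (- k i0) i0)
        rw [Function.update_self, Function.update_self, inv_zpow, zpow_neg]
      · change (Function.update e i0 (e i0)⁻¹ i) ^ k i = e i ^ (Function.update k i0 (- k i0) i)
        rw [Function.update_of_ne hi, Function.update_of_ne hi]
    refine ⟨e', heH', fun i => hn _ (heH' i), ?_, ?_⟩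
    · change 0 < JE (ab F s (Function.update e i0 (e i0)⁻¹))
      rw [h1a_flip]
      linarith
    · intro u hu
      obtain ⟨k, hk, huniq⟩ := hgen u hu
      refine ⟨fl k, ?_, ?_⟩
      · change u = ez F e' (fl k)
        rw [hez, hfl]
        exact hk
      · intro k' hk'
        have h5 : fl k' = k := huniq _ (by
          change u = ez F e (fl k')
          rw [← hez]
          exact hk')
        rw [← h5, hfl]
  · exact ⟨e, heH, fun i => hn _ (heH i), hpos, hgen⟩

end NG

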