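import Pool.Agent.MP_9ab903_nt.NG.HDefs

/-! ## [NG-H1b] indices of unit groups

`radical_two`: let `2 ∣ x²`. For all `y`, `z = x y`: `Tr(z²)` is even and `Tr(z²) = Tr(z)² - 2 e₂(z)` (`e₂(z) ∈ ℤ`), so `Tr(x y)` is even for all
`y`; with an integral basis `ω_i` and `x = ∑ x_i ω_i`: `∑ x_i Tr(ω_i ω_j)` even for all `j`, `det (Tr(ω_i ω_j)) = discr` odd: all `x_i` even.
(`Tr(z²) ≡ Tr(z)² mod 2`: e.g. trace of the square of a matrix over a commutative ring of characteristic 2: `Matrix.trace (A^2) = (trace A)^2`.)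
`index_factor`: `H` = image of `UM (m)` in `(𝓞 F ⧸ Q)ˣ`; the kernel is `UM ((m) ⊓ Q)`; `UM 𝔫` has odd index in it: the quotient has no
element of order 2 (Cauchy): `u² ≡ 1 mod 2` gives `(u-1)² = (u²-1) - 2(u-1) ∈ (2)`, so `u - 1 ∈ (2)` by `radical_two`.
`exists_rep`: left coset representatives of `UM 𝔫` in `UM (m)` (`UM 𝔫 ≤ UM (m)`, finite index) and `IsB.gen`. -/

set_option autoImplicit false

open NumberField IsDedekindDomain MeasureTheory Set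
open CM27 CMT CF NAB
open scoped ComplexConjugate Classical Matrix

namespace NG

variable {r : ℕ} (F : IntermediateField ℚ ℂ) [NumberField F] (hw : w ∈ F)

theorem h1b_trace_sq {ι : Type*} [Fintype ι] [DecidableEq ι] (A : Matrix ι ι ℤ)
    (h : (2 : ℤ) ∣ (A ^ 2).trace) : (2 : ℤ) ∣ A.trace := by
  have h1 : ∀ B : Matrix ι ι ℤ, ((B.trace : ℤ) : ZMod 2) = (B.map (Int.castRingHom (ZMod 2))).trace := by
    intro B
    simp [Matrix.trace, Int.cast_sum]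
  have h2 : (A ^ 2).map (Int.castRingHom (ZMod 2)) = (A.map (Int.castRingHom (ZMod 2))) ^ 2 :=
    Matrix.map_pow A (Int.castRingHom (ZMod 2)) 2
  have h3 : ((A.trace : ℤ) : ZMod 2) ^ 2 = 0 := by
    rw [h1, ← ZMod.trace_pow_card, ← h2, ← h1]
    exact (ZMod.intCast_zmod_eq_zero_iff_dvd _ 2).2 h
  have h4 : ((A.trace : ℤ) : ZMod 2) = 0 := pow_eq_zero_iff (two_ne_zero) |>.1 h3
  exact (ZMod.intCast_zmod_eq_zero_iff_dvd _ 2).1 h4

theorem radical_two (hodd : ¬ (2 : ℤ) ∣ NumberField.discr F) (x : 𝓞 F) (h : (2 : 𝓞 F) ∣ x ^ 2) :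
    (2 : 𝓞 F) ∣ x := by
  set b := RingOfIntegers.basis F with hb
  have h1 : ∀ y : 𝓞 F, (2 : ℤ) ∣ Algebra.trace ℤ (𝓞 F) (x * y) := by
    intro y
    rw [Algebra.trace_eq_matrix_trace b]
    apply h1b_trace_sq
    rw [← map_pow, ← Algebra.trace_eq_matrix_trace b, mul_pow]
    obtain ⟨t, ht⟩ := h
    rw [ht]
    have h2 : 2 * t * y ^ 2 = (2 : ℤ) • (t * y ^ 2) := by
      rw [zsmul_eq_mul]; push_cast; ring
    rw [h2, map_smul, smul_eq_mul]
    exact dvd_mul_right _ _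
  set T := Algebra.traceMatrix ℤ b with hT
  have hdet : T.det = NumberField.discr F := rfl
  set T2 := T.map (Int.castRingHom (ZMod 2)) with hT2
  have hdet2 : T2.det ≠ 0 := by
    have : T2.det = ((T.det : ℤ) : ZMod 2) := (RingHom.map_det (Int.castRingHom (ZMod 2)) T).symm
    rw [this, hdet]
    intro h0
    exact hodd ((ZMod.intCast_zmod_eq_zero_iff_dvd _ 2).1 h0)
  have hmul : T2 *ᵥ (fun i => ((b.repr x i : ℤ) : ZMod 2)) = 0 := by
    funext j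
    have h2 := h1 (b j)
    have h3 : Algebra.trace ℤ (𝓞 F) (x * b j) = ∑ i, b.repr x i * T j i := by
      conv_lhs => rw [← b.sum_repr x]
      rw [Finset.sum_mul, map_sum]
      refine Finset.sum_congr rfl fun i _ => ?_
      rw [smul_mul_assoc, map_smul, smul_eq_mul, hT, Algebra.traceMatrix_apply,
        Algebra.traceForm_apply, mul_comm (b j)]
    rw [h3] at h2
    have h4 := (ZMod.intCast_zmod_eq_zero_iff_dvd _ 2).2 h2
    rw [Int.cast_sum] at h4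
    rw [Matrix.mulVec, dotProduct, Pi.zero_apply]
    rw [← h4]
    refine Finset.sum_congr rfl fun i _ => ?_
    rw [Int.cast_mul, mul_comm]
    rfl
  have hz := Matrix.eq_zero_of_mulVec_eq_zero hdet2 hmul
  have hdvd : ∀ i, (2 : ℤ) ∣ b.repr x i := fun i =>
    (ZMod.intCast_zmod_eq_zero_iff_dvd _ 2).1 (congrFun hz i)
  choose c hc using hdvd
  refine ⟨∑ i, c i • b i, ?_⟩
  conv_lhs => rw [← b.sum_repr x]
  rw [Finset.mul_sum]
  refine Finset.sum_congr rfl fun i _ => ?_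
  rw [hc i, mul_smul, zsmul_eq_mul, zsmul_eq_mul]
  push_cast
  rfl

/-- The image of `UM (m)` in the units of `𝓞 F ⧸ Q`. -/
noncomputable def HH (m : 𝓞 F) (Q : Ideal (𝓞 F)) : Subgroup (𝓞 F ⧸ Q)ˣ :=
  (UM F (Ideal.span {m})).map (Units.map (Ideal.Quotient.mk Q : 𝓞 F →* 𝓞 F ⧸ Q))

omit [NumberField F] in
theorem h1b_ker (Q : Ideal (𝓞 F)) :
    (Units.map (Ideal.Quotient.mk Q : 𝓞 F →* 𝓞 F ⧸ Q)).ker = UM F Q := by
  ext u
  rw [MonoidHom.mem_ker]
  show _ ↔ (u : 𝓞 F) - 1 ∈ Q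
  rw [← Ideal.Quotient.eq_zero_iff_mem, map_sub, map_one, sub_eq_zero]
  constructor
  · intro h
    exact congrArg Units.val h
  · intro h
    exact Units.ext h

theorem h1b_relIndex_ne (𝔫 : Ideal (𝓞 F)) (h0 : 𝔫 ≠ ⊥) (K : Subgroup (𝓞 F)ˣ) :
    (UM F 𝔫).relIndex K ≠ 0 := by
  have : Finite (𝓞 F ⧸ 𝔫) := Ideal.finiteQuotientOfFreeOfNeBot 𝔫 h0
  rw [← h1b_ker, Subgroup.relIndex_ker]
  exact Nat.card_pos.ne'

omit [NumberField F] in
theorem h1b_inf (I J : Ideal (𝓞 F)) : UM F (I ⊓ J) = UM F I ⊓ UM F J := by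
  ext u
  exact Iff.rfl

theorem index_factor (hodd : ¬ (2 : ℤ) ∣ NumberField.discr F) (m : 𝓞 F) (hm0 : m ≠ 0)
    (Q : Ideal (𝓞 F)) (hQ0 : Q ≠ ⊥) : ∃ q₂ : ℕ, Odd q₂ ∧
    (UM F ((Ideal.span {m} ⊓ Q) ⊓ Ideal.span {(2 : 𝓞 F)})).relIndex (UM F (Ideal.span {m}))
      = Nat.card (HH F m Q) * q₂ := by
  have hm1 : (Ideal.span {m} : Ideal (𝓞 F)) ≠ ⊥ := by
    rwa [Ne, Ideal.span_singleton_eq_bot]
  have h2 : (Ideal.span {(2 : 𝓞 F)} : Ideal (𝓞 F)) ≠ ⊥ := by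
    rw [Ne, Ideal.span_singleton_eq_bot]
    exact two_ne_zero
  have hinf : ∀ I J : Ideal (𝓞 F), I ≠ ⊥ → J ≠ ⊥ → I ⊓ J ≠ ⊥ := by
    intro I J hI hJ h
    have h3 : I * J ≤ I ⊓ J := Ideal.mul_le_inf
    rw [h, le_bot_iff, Ideal.mul_eq_bot] at h3
    rcases h3 with h3 | h3
    · exact hI h3
    · exact hJ h3
  set 𝔫 := (Ideal.span {m} ⊓ Q) ⊓ Ideal.span {(2 : 𝓞 F)} with h𝔫
  have h𝔫0 : 𝔫 ≠ ⊥ := hinf _ _ (hinf _ _ hm1 hQ0) h2
  have hle1 : UM F 𝔫 ≤ UM F (Ideal.span {m} ⊓ Q) := by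
    rw [h𝔫, h1b_inf]
    exact inf_le_left
  have hle2 : UM F (Ideal.span {m} ⊓ Q) ≤ UM F (Ideal.span {m}) := by
    rw [h1b_inf]
    exact inf_le_left
  refine ⟨(UM F 𝔫).relIndex (UM F (Ideal.span {m} ⊓ Q)), ?_, ?_⟩
  · rw [← Nat.not_even_iff_odd]
    intro hev
    set K := UM F (Ideal.span {m} ⊓ Q) with hK
    set N := (UM F 𝔫).subgroupOf K with hN
    have hidx : (UM F 𝔫).relIndex K = Nat.card (K ⧸ N) := rfl
    have hfin : Finite (K ⧸ N) := by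
      apply Nat.finite_of_card_ne_zero
      rw [← hidx]
      exact h1b_relIndex_ne F 𝔫 h𝔫0 K
    have hdvd : 2 ∣ Nat.card (K ⧸ N) := by
      rw [← hidx]
      exact hev.two_dvd
    have : Fact (Nat.Prime 2) := ⟨Nat.prime_two⟩
    obtain ⟨g, hg⟩ := exists_prime_orderOf_dvd_card' 2 hdvd
    obtain ⟨u, rfl⟩ := QuotientGroup.mk_surjective g
    have hg2 : ((u ^ 2 : K) : K ⧸ N) = 1 := by
      have := pow_orderOf_eq_one (u : K ⧸ N)
      rw [hg] at this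
      exact this
    rw [QuotientGroup.eq_one_iff] at hg2
    have h3 : ((u : (𝓞 F)ˣ) ^ 2 : (𝓞 F)ˣ) ∈ UM F 𝔫 := by
      have := Subgroup.mem_subgroupOf.1 hg2
      simpa using this
    have h4 : (((u : (𝓞 F)ˣ) ^ 2 : (𝓞 F)ˣ) : 𝓞 F) - 1 ∈ 𝔫 := h3
    have h5 : (2 : 𝓞 F) ∣ (((u : (𝓞 F)ˣ) : 𝓞 F) - 1) ^ 2 := by
      have h6 : (((u : (𝓞 F)ˣ) ^ 2 : (𝓞 F)ˣ) : 𝓞 F) - 1 ∈ Ideal.span {(2 : 𝓞 F)} :=
        (Submodule.mem_inf.1 h4).2
      rw [Ideal.mem_span_singleton] at h6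
      obtain ⟨t, ht⟩ := h6
      refine ⟨t - (((u : (𝓞 F)ˣ) : 𝓞 F) - 1), ?_⟩
      rw [mul_sub, ← ht]
      push_cast
      ring
    have h7 := radical_two F hodd _ h5
    have h8 : (u : (𝓞 F)ˣ) ∈ UM F 𝔫 := by
      show ((u : (𝓞 F)ˣ) : 𝓞 F) - 1 ∈ 𝔫
      exact Submodule.mem_inf.2 ⟨u.2, Ideal.mem_span_singleton.2 h7⟩
    have h9 : (u : K ⧸ N) = 1 := by
      rw [QuotientGroup.eq_one_iff]
      exact Subgroup.mem_subgroupOf.2 h8
    rw [h9, orderOf_one] at hg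
    norm_num at hg
  · have h3 : (UM F (Ideal.span {m} ⊓ Q)).relIndex (UM F (Ideal.span {m})) =
        Nat.card (HH F m Q) := by
      rw [h1b_inf, inf_comm, Subgroup.inf_relIndex_right, ← h1b_ker F Q, Subgroup.relIndex_ker]
      rfl
    rw [← Subgroup.relIndex_mul_relIndex _ _ _ hle1 hle2, h3, mul_comm]

omit [NumberField F] in
theorem h1b_ez_mem (s : Fin (r + 1) → F →+* ℂ) (𝔫 : Ideal (𝓞 F)) (e : Fin r → (𝓞 F)ˣ)
    (he : IsB F s 𝔫 e) (k : Fin r → ℤ) : ez F e k ∈ UM F 𝔫 := by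
  unfold ez
  exact Subgroup.prod_mem _ fun i _ => Subgroup.zpow_mem _ (he.mem i) _

theorem exists_rep (s : Fin (r + 1) → F →+* ℂ) (m : 𝓞 F) (hm0 : m ≠ 0) (𝔫 : Ideal (𝓞 F))
    (h0 : 𝔫 ≠ ⊥) (h𝔫 : 𝔫 ≤ Ideal.span {m}) (e : Fin r → (𝓞 F)ˣ) (he : IsB F s 𝔫 e) :
    ∃ η : Fin ((UM F 𝔫).relIndex (UM F (Ideal.span {m}))) → (𝓞 F)ˣ, IsRep F m e _ η := by
  set K := UM F (Ideal.span {m}) with hK
  set N := (UM F 𝔫).subgroupOf K with hN
  have hidx : (UM F 𝔫).relIndex K = Nat.card (K ⧸ N) := rfl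
  have hfin : Finite (K ⧸ N) := by
    apply Nat.finite_of_card_ne_zero
    rw [← hidx]
    exact h1b_relIndex_ne F 𝔫 h0 K
  have φ : Fin ((UM F 𝔫).relIndex K) ≃ (K ⧸ N) := (Finite.equivFinOfCardEq hidx.symm).symm
  refine ⟨fun j => ((φ j).out : K), ?_, ?_⟩
  · intro j
    exact ((φ j).out : K).2
  · intro v hv
    set j := φ.symm ((⟨v, hv⟩ : K) : K ⧸ N) with hj
    have h1 : ((((φ j).out : K) : K ⧸ N)) = ((⟨v, hv⟩ : K) : K ⧸ N) := by
      rw [QuotientGroup.out_eq', hj, Equiv.apply_symm_apply]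
    rw [QuotientGroup.eq] at h1
    have h2 : (((φ j).out : K) : (𝓞 F)ˣ)⁻¹ * v ∈ UM F 𝔫 := Subgroup.mem_subgroupOf.1 h1
    obtain ⟨k, hk, huniq⟩ := he.gen _ h2
    refine ⟨(j, k), ?_, ?_⟩
    · show v = ez F e k * _
      rw [← hk, mul_comm, mul_inv_cancel_left]
    · rintro ⟨j', k'⟩ hv'
      have hv'' : v = ez F e k' * (((φ j').out : K) : (𝓞 F)ˣ) := hv'
      have h3 : ((((φ j').out : K) : K ⧸ N)) = ((⟨v, hv⟩ : K) : K ⧸ N) := by
        rw [QuotientGroup.eq]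
        apply Subgroup.mem_subgroupOf.2
        show (((φ j').out : K) : (𝓞 F)ˣ)⁻¹ * v ∈ UM F 𝔫
        rw [hv'', mul_comm, mul_inv_cancel_right]
        exact h1b_ez_mem F s 𝔫 e he k'
      rw [QuotientGroup.out_eq'] at h3
      have h4 : j' = j := by
        rw [hj, ← h3, Equiv.symm_apply_apply]
      subst h4
      have h5 : k' = k := by
        apply huniq
        show _ = ez F e k'
        rw [hv'', mul_comm, mul_inv_cancel_right]
      rw [h5]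

/-- All representative systems have the same cardinality. -/
theorem rep_card (s : Fin (r + 1) → F →+* ℂ) (m : 𝓞 F) (hm0 : m ≠ 0) (𝔫 : Ideal (𝓞 F))
    (h0 : 𝔫 ≠ ⊥) (h𝔫 : 𝔫 ≤ Ideal.span {m}) (e : Fin r → (𝓞 F)ˣ) (he : IsB F s 𝔫 e) (q : ℕ)
    (η : Fin q → (𝓞 F)ˣ) (hη : IsRep F m e q η) :
    q = (UM F 𝔫).relIndex (UM F (Ideal.span {m})) := by
  set K := UM F (Ideal.span {m}) with hK
  set N := (UM F 𝔫).subgroupOf K with hN
  have hidx : (UM F 𝔫).relIndex K = Nat.card (K ⧸ N) := rfl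
  rw [hidx]
  let f : Fin q → K ⧸ N := fun j => ((⟨η j, hη.mem j⟩ : K) : K ⧸ N)
  have hf : Function.Bijective f := by
    constructor
    · intro j j' hjj
      have h1 := QuotientGroup.eq.1 hjj
      have h2 : (η j)⁻¹ * η j' ∈ UM F 𝔫 := Subgroup.mem_subgroupOf.1 h1
      obtain ⟨k, hk, _⟩ := he.gen _ h2
      obtain ⟨p, _, hp⟩ := hη.uniq (η j') (hη.mem j')
      have e1 : ((j, k) : Fin q × (Fin r → ℤ)) = p := by
        apply hp
        show η j' = ez F e k * η j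
        rw [← hk, mul_comm, mul_inv_cancel_left]
      have e2 : ((j', 0) : Fin q × (Fin r → ℤ)) = p := by
        apply hp
        show η j' = ez F e 0 * η j'
        simp [ez]
      rw [← e2] at e1
      exact (Prod.ext_iff.1 e1).1
    · intro g
      obtain ⟨v, rfl⟩ := QuotientGroup.mk_surjective g
      obtain ⟨⟨j, k⟩, hp, _⟩ := hη.uniq (v : (𝓞 F)ˣ) v.2
      refine ⟨j, ?_⟩
      apply QuotientGroup.eq.2
      apply Subgroup.mem_subgroupOf.2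
      show (η j)⁻¹ * (v : (𝓞 F)ˣ) ∈ UM F 𝔫
      have hp' : (v : (𝓞 F)ˣ) = ez F e k * η j := hp
      rw [hp', mul_comm, mul_inv_cancel_right]
      exact h1b_ez_mem F s 𝔫 e he k
  have := Nat.card_congr (Equiv.ofBijective f hf)
  rw [← this, Nat.card_eq_fintype_card, Fintype.card_fin]

/-- The sum of a function on a finite commutative group which is invariant under the subgroup `H`. -/
theorem sum_val {G : Type} [CommGroup G] [Fintype G] (H : Subgroup G) (f : G → ℂ)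
    (hf : ∀ g, ∀ h ∈ H, f (g * h) = f g) (A : ValuationSubring ℂ) (hA : ∀ g, A.valuation (f g) ≤ 1) :
    A.valuation ((Nat.card H : ℂ)⁻¹ * ∑ g, f g) ≤ 1 := by
  have hbij : Function.Bijective (fun p : (G ⧸ H) × H => (p.1.out : G) * (p.2 : G)) := by
    constructor
    · rintro ⟨L, h⟩ ⟨L', h'⟩ hp
      have hp' : (L.out : G) * (h : G) = (L'.out : G) * (h' : G) := hp
      have h1 : L = L' := by
        have h2 : (((L.out : G) * (h : G) : G) : G ⧸ H) = L := by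
          rw [QuotientGroup.mk_mul_of_mem _ h.2, QuotientGroup.out_eq']
        have h3 : (((L'.out : G) * (h' : G) : G) : G ⧸ H) = L' := by
          rw [QuotientGroup.mk_mul_of_mem _ h'.2, QuotientGroup.out_eq']
        rw [← h2, hp', h3]
      subst h1
      have h4 : (h : G) = h' := mul_left_cancel hp'
      rw [Subtype.ext h4]
    · intro g
      have h1 : (((g : G ⧸ H).out : G) : G ⧸ H) = (g : G ⧸ H) := QuotientGroup.out_eq' _
      rw [QuotientGroup.eq] at h1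
      refine ⟨((g : G ⧸ H), ⟨_, h1⟩), ?_⟩
      show ((g : G ⧸ H).out : G) * (((g : G ⧸ H).out : G)⁻¹ * g) = g
      rw [mul_inv_cancel_left]
  have h1 : ∑ g, f g = ∑ p : (G ⧸ H) × H, f ((p.1.out : G) * (p.2 : G)) :=
    (Fintype.sum_bijective _ hbij _ _ fun _ => rfl).symm
  have hcard : (Nat.card H : ℂ) ≠ 0 := by
    exact_mod_cast Nat.card_pos.ne'
  have h2 : (Nat.card H : ℂ)⁻¹ * ∑ g, f g = ∑ L : G ⧸ H, f (L.out : G) := by
    rw [h1, Fintype.sum_prod_type]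
    have h3 : ∀ L : G ⧸ H, ∑ h : H, f ((L.out : G) * (h : G)) = (Nat.card H : ℂ) * f (L.out : G) := by
      intro L
      have h4 : ∀ h : H, f ((L.out : G) * (h : G)) = f (L.out : G) := fun h => hf _ _ h.2
      simp only [h4]
      rw [Finset.sum_const, Finset.card_univ, nsmul_eq_mul, Nat.card_eq_fintype_card]
    rw [Finset.sum_congr rfl fun L _ => h3 L, ← Finset.mul_sum, inv_mul_cancel_left₀ hcard]
  rw [h2]
  exact A.valuation.map_sum_le fun L _ => hA _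

end NG
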