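import Pool.Agent.MP_9ab903_nt.NG.H0
import Pool.Agent.MP_9ab903_nt.NAB.B3a

/-! ## [NG-H2a] basis over `ℤ[ω]`, the discriminant

General version of `NAB/B3a.lean`. `exists_del`: `𝓞 F` is a finite torsion free module over the PID `ℤ[ω]` (via `eF`), so free; the rank is
`r + 1` (`[F : ℚ(ω)] = r + 1`). `δ ≠ 0`: independence of embeddings (Artin / the trace form; or `δ² = discr` over `KK`:
`Algebra.discr_eq_det_embeddingsMatrixReindex_pow_two`). `del_disc`: `1, ω` times `θ_i` is a `ℤ`-basis of `𝓞 F`; the embeddings are `s_j`, `conj s_j`: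
the matrix of size `2(r+1)` is, after row/column operations, `(θ_i^{(j)}, ω θ_i^{(j)}; conj ..)`, determinant `± (conj ω - ω)^(r+1) δ conj δ`,
`|conj ω - ω|² = 3`. `δ² ∈ ℤ[ω]`: `δ` changes sign only under automorphisms fixing `ω`, integral (or `Algebra.discr` over `KK`). -/

set_option autoImplicit false

open NumberField IsDedekindDomain MeasureTheory Set
open CM27 CMT CF NAB
open scoped ComplexConjugate Classical Matrix

namespace NG

section h2a_aux
variable {r : ℕ} (F : IntermediateField ℚ ℂ) [NumberField F] (hw : w ∈ F)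

/-- `𝓞 F` is free over `ℤ[ω]` of rank `r + 1` -/
theorem h2a_basis (h : Module.finrank ℚ F = 2 * (r + 1)) :
    ∃ θ : Fin (r + 1) → 𝓞 F,
      (∀ g : 𝓞 F, ∃ a : Fin (r + 1) → Eis, g = ∑ i, eF F hw (a i) * θ i) ∧
      ∀ a : Fin (r + 1) → Eis, ∑ i, eF F hw (a i) * θ i = 0 → a = 0 := by
  haveI := eis_isDomain
  haveI := eis_pid
  letI : Algebra Eis (𝓞 F) := (eF F hw).toAlgebra
  have hsm : ∀ (a : Eis) (g : 𝓞 F), a • g = eF F hw a * g := fun a g => rfl
  have hinj : Function.Injective (eF F hw) := by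
    intro a b hab
    apply emb_injective
    exact congrArg (fun x : 𝓞 F => ((x : F) : ℂ)) hab
  haveI : IsScalarTower ℤ Eis (𝓞 F) := by
    refine ⟨fun n a g => ?_⟩
    rw [hsm, hsm, map_zsmul, smul_mul_assoc]
  haveI : Module.Finite Eis (𝓞 F) := Module.Finite.of_restrictScalars_finite ℤ Eis (𝓞 F)
  haveI : Module.IsTorsionFree Eis (𝓞 F) := by
    exact Module.isTorsionFree_iff_algebraMap_injective.2 hinj
  haveI : Module.Free Eis (𝓞 F) := Module.free_of_finite_type_torsion_free'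
  have hrk : Module.finrank Eis (𝓞 F) = r + 1 := by
    have h1 := Module.finrank_mul_finrank ℤ Eis (𝓞 F)
    rw [QuadraticAlgebra.finrank_eq_two, RingOfIntegers.rank, h] at h1
    omega
  let b := Module.finBasisOfFinrankEq Eis (𝓞 F) hrk
  refine ⟨b, fun g => ⟨fun i => b.repr g i, ?_⟩, fun a ha => ?_⟩
  · exact (b.sum_repr g).symm
  · have h1 := Fintype.linearIndependent_iff.1 b.linearIndependent a ha
    funext i
    exact h1 i

omit [NumberField F] in
/-- the integral basis `θ_i, ω θ_i` -/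
theorem h2a_int_basis (θ : Fin (r + 1) → 𝓞 F)
    (h1 : ∀ g : 𝓞 F, ∃ a : Fin (r + 1) → Eis, g = ∑ i, eF F hw (a i) * θ i)
    (h2 : ∀ a : Fin (r + 1) → Eis, ∑ i, eF F hw (a i) * θ i = 0 → a = 0) :
    ∃ b : Module.Basis (Fin (r + 1) ⊕ Fin (r + 1)) ℤ (𝓞 F), (∀ i, b (Sum.inl i) = θ i) ∧
      ∀ i, b (Sum.inr i) = eF F hw ⟨0, 1⟩ * θ i := by
  set v : Fin (r + 1) ⊕ Fin (r + 1) → 𝓞 F := Sum.elim θ (fun i => eF F hw ⟨0, 1⟩ * θ i) with hv
  have hsum : ∀ c : Fin (r + 1) ⊕ Fin (r + 1) → ℤ, ∑ i, c i • v i =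
      ∑ i, eF F hw ⟨c (Sum.inl i), c (Sum.inr i)⟩ * θ i := by
    intro c
    rw [Fintype.sum_sum_type, ← Finset.sum_add_distrib]
    refine Finset.sum_congr rfl fun i _ => ?_
    rw [b3a_eF F hw ⟨_, _⟩]
    simp only [hv, Sum.elim_inl, Sum.elim_inr, zsmul_eq_mul]
    ring
  have hli : LinearIndependent ℤ v := by
    rw [Fintype.linearIndependent_iff]
    intro c hc
    rw [hsum] at hc
    have h3 := h2 _ hc
    have h4 : ∀ i, c (Sum.inl i) = 0 ∧ c (Sum.inr i) = 0 := by
      intro i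
      have h5 := congrFun h3 i
      exact ⟨congrArg QuadraticAlgebra.re h5, congrArg QuadraticAlgebra.im h5⟩
    rintro (i | i)
    · exact (h4 i).1
    · exact (h4 i).2
  have hsp : ⊤ ≤ Submodule.span ℤ (Set.range v) := by
    intro g _
    obtain ⟨a, ha⟩ := h1 g
    rw [Submodule.mem_span_range_iff_exists_fun]
    refine ⟨Sum.elim (fun i => (a i).re) (fun i => (a i).im), ?_⟩
    rw [hsum, ha]
    rfl
  refine ⟨Module.Basis.mk hli hsp, fun i => ?_, fun i => ?_⟩ <;> rw [Module.Basis.mk_apply] <;> rfl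

omit F hw in
/-- the block determinant -/
theorem h2a_det {n : Type*} [Fintype n] [DecidableEq n] (A B : Matrix n n ℂ) (x y : ℂ) :
    (Matrix.fromBlocks A B (x • A) (y • B)).det = (y - x) ^ Fintype.card n * (A.det * B.det) := by
  have h1 : Matrix.fromBlocks A B (x • A) (y • B) =
      Matrix.fromBlocks (1 : Matrix n n ℂ) 1 (x • (1 : Matrix n n ℂ)) (y • (1 : Matrix n n ℂ)) *
        Matrix.fromBlocks A 0 0 B := by
    rw [Matrix.fromBlocks_multiply]
    simp
  rw [h1, Matrix.det_mul, Matrix.det_fromBlocks_one₁₁, Matrix.det_fromBlocks_zero₂₁, mul_one,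
    ← sub_smul, Matrix.det_smul, Matrix.det_one, mul_one]

end h2a_aux

variable {r : ℕ} (F : IntermediateField ℚ ℂ) [NumberField F] (hw : w ∈ F)
  (s : Fin (r + 1) → F →+* ℂ) (hs : IsS F hw s)
include hs

/-- the discriminant in terms of a basis -/
theorem h2a_disc (θ : Fin (r + 1) → 𝓞 F)
    (h1 : ∀ g : 𝓞 F, ∃ a : Fin (r + 1) → Eis, g = ∑ i, eF F hw (a i) * θ i)
    (h2 : ∀ a : Fin (r + 1) → Eis, ∑ i, eF F hw (a i) * θ i = 0 → a = 0) :
    |(NumberField.discr F : ℝ)| =
      3 ^ (r + 1) * ‖Matrix.det (Matrix.of fun j i => s j (θ i : F))‖ ^ 4 := by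
  obtain ⟨b, hb1, hb2⟩ := h2a_int_basis F hw θ h1 h2
  set A : Matrix (Fin (r + 1)) (Fin (r + 1)) ℂ := Matrix.of fun i j => s j (θ i : F) with hA
  have hAT : Matrix.det (Matrix.of fun j i => s j (θ i : F)) = A.det := by
    rw [← Matrix.det_transpose]
    rfl
  set B : Matrix (Fin (r + 1)) (Fin (r + 1)) ℂ := (starRingEnd ℂ).mapMatrix A with hB
  have hBd : B.det = conj A.det := by rw [hB, ← RingHom.map_det]
  have hwc : (starRingEnd ℂ) w ≠ w := by
    intro h
    have h1 := congrArg Complex.im h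
    rw [Complex.conj_im, w_im] at h1
    have h3 : 0 < √3 := by positivity
    linarith
  -- the embeddings
  let σ : Fin (r + 1) ⊕ Fin (r + 1) → (F →ₐ[ℚ] ℂ) := Sum.elim (fun j => (s j).toRatAlgHom)
    (fun j => ((starRingEnd ℂ).comp (s j)).toRatAlgHom)
  have s0 : ∀ j x, σ (Sum.inl j) x = s j x := fun j x => rfl
  have s1 : ∀ j x, σ (Sum.inr j) x = conj (s j x) := fun j x => rfl
  have hinj : Function.Injective σ := by
    rintro (i | i) (j | j) hij
    · congr 1
      apply hs.inj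
      ext x
      exact congrArg (fun f : F →ₐ[ℚ] ℂ => f x) hij
    · exfalso
      have h3 : s i ⟨w, hw⟩ = conj (s j ⟨w, hw⟩) :=
        congrArg (fun f : F →ₐ[ℚ] ℂ => f ⟨w, hw⟩) hij
      rw [hs.fix, hs.fix] at h3
      exact hwc h3.symm
    · exfalso
      have h3 : conj (s i ⟨w, hw⟩) = s j ⟨w, hw⟩ :=
        congrArg (fun f : F →ₐ[ℚ] ℂ => f ⟨w, hw⟩) hij
      rw [hs.fix, hs.fix] at h3
      exact hwc h3
    · congr 1
      apply hs.inj
      ext x
      apply (starRingEnd ℂ).injective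
      exact congrArg (fun f : F →ₐ[ℚ] ℂ => f x) hij
  have hbij : Function.Bijective σ := by
    rw [Fintype.bijective_iff_injective_and_card]
    refine ⟨hinj, ?_⟩
    rw [AlgHom.card, hs.rank, Fintype.card_sum, Fintype.card_fin]
    ring
  let e : Fin (r + 1) ⊕ Fin (r + 1) ≃ (F →ₐ[ℚ] ℂ) := Equiv.ofBijective σ hbij
  have he : ∀ j, e j = σ j := fun j => rfl
  have h3 : Algebra.discr ℚ (fun i => ((b i : 𝓞 F) : F)) = (NumberField.discr F : ℚ) := by
    rw [← NumberField.discr_eq_discr F b]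
    have h2 := Algebra.discr_localizationLocalization ℤ (nonZeroDivisors ℤ) F (Rₘ := ℚ) b
    rw [eq_intCast] at h2
    rw [← h2]
    congr 1
    funext i
    rw [Module.Basis.localizationLocalization_apply]
  have h4 := Algebra.discr_eq_det_embeddingsMatrixReindex_pow_two ℚ ℂ
    (fun i => ((b i : 𝓞 F) : F)) e
  rw [h3] at h4
  have hω : ((eF F hw ⟨0, 1⟩ : 𝓞 F) : F) = ⟨w, hw⟩ := by
    apply Subtype.ext
    change emb ⟨0, 1⟩ = w
    rw [emb_apply]
    simp
  have hmul : ∀ i, ((eF F hw ⟨0, 1⟩ * θ i : 𝓞 F) : F) = ⟨w, hw⟩ * (θ i : F) := by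
    intro i
    rw [← hω]
    rfl
  have hmat : Algebra.embeddingsMatrixReindex ℚ ℂ (fun i => ((b i : 𝓞 F) : F)) e =
      Matrix.fromBlocks A B (w • A) (conj w • B) := by
    ext i j
    have hij : Algebra.embeddingsMatrixReindex ℚ ℂ (fun i => ((b i : 𝓞 F) : F)) e i j =
      σ j ((b i : 𝓞 F) : F) := rfl
    rw [hij]
    rcases i with i | i <;> rcases j with j | j
    · rw [s0, hb1]
      rfl
    · rw [s1, hb1]
      rfl
    · rw [s0, hb2, hmul, map_mul, hs.fix]
      rfl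
    · rw [s1, hb2, hmul, map_mul, hs.fix, map_mul]
      rfl
  rw [hmat, h2a_det, hBd, Fintype.card_fin] at h4
  have hw3 : (conj w - w) ^ 2 = -3 := by
    have h5 : conj w = -1 - w := by
      apply Complex.ext
      · rw [Complex.conj_re, Complex.sub_re, w_re]
        simp
        norm_num
      · rw [Complex.conj_im, Complex.sub_im]
        simp
    have h6 := w_sq
    rw [h5]
    linear_combination 4 * h6
  rw [hAT]
  have h8 : A.det * conj A.det = ((‖A.det‖ ^ 2 : ℝ) : ℂ) := by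
    rw [Complex.mul_conj, Complex.normSq_eq_norm_sq]
  have h10 : ((NumberField.discr F : ℝ) : ℂ) =
      (algebraMap ℚ ℂ) ((NumberField.discr F : ℤ) : ℚ) := by
    rw [map_intCast]
    push_cast
    rfl
  have h11 : ((conj w - w) ^ (r + 1) * (A.det * conj A.det)) ^ 2 =
      (-3) ^ (r + 1) * (A.det * conj A.det) ^ 2 := by
    rw [← hw3, mul_pow, ← pow_mul, ← pow_mul, mul_comm (r + 1) 2]
  rw [← h10, h11, h8] at h4
  have h12 : |(NumberField.discr F : ℝ)| = ‖((NumberField.discr F : ℝ) : ℂ)‖ := by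
    rw [Complex.norm_real, Real.norm_eq_abs]
  rw [h12, h4, norm_mul, norm_pow, norm_pow, norm_neg, Complex.norm_real, Real.norm_eq_abs,
    abs_of_nonneg (by positivity)]
  norm_num
  ring

theorem exists_del : ∃ δ : ℂ, IsDel F hw s δ := by
  obtain ⟨θ, h1, h2⟩ := h2a_basis F hw hs.rank
  refine ⟨_, ?_, θ, rfl, h1⟩
  intro h0
  have h3 := h2a_disc F hw s hs θ h1 h2
  rw [h0, norm_zero, zero_pow (by norm_num), mul_zero, abs_eq_zero] at h3
  exact NumberField.discr_ne_zero F (by exact_mod_cast h3)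

/-- Uniqueness of the coordinates. -/
theorem del_uniq (θ : Fin (r + 1) → 𝓞 F)
    (h0 : Matrix.det (Matrix.of fun j i => s j (θ i : F)) ≠ 0) (a b : Fin (r + 1) → Eis)
    (h : ∑ i, eF F hw (a i) * θ i = ∑ i, eF F hw (b i) * θ i) : a = b := by
  have h1 : ∀ j, ∑ i, s j (θ i : F) * (emb (a i) - emb (b i)) = 0 := by
    intro j
    have h2 := congrArg (fun x : 𝓞 F => s j (x : F)) h
    simp only [map_sum, map_mul, s_eF F hw s hs] at h2
    have h3 : ∑ i, s j (θ i : F) * (emb (a i) - emb (b i)) =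
        ∑ i, emb (a i) * s j (θ i : F) - ∑ i, emb (b i) * s j (θ i : F) := by
      rw [← Finset.sum_sub_distrib]
      exact Finset.sum_congr rfl fun i _ => by ring
    rw [h3, h2, sub_self]
  have h2 : (Matrix.of fun j i => s j (θ i : F)) *ᵥ (fun i => emb (a i) - emb (b i)) = 0 := by
    funext j
    exact h1 j
  have h3 := Matrix.eq_zero_of_mulVec_eq_zero h0 h2
  funext i
  apply emb_injective
  exact sub_eq_zero.1 (congrFun h3 i)

theorem del_disc (δ : ℂ) (hδ : IsDel F hw s δ) :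
    |(NumberField.discr F : ℝ)| = 3 ^ (r + 1) * ‖δ‖ ^ 4 ∧ ∃ a : Eis, emb a = δ ^ 2 := by
  obtain ⟨hne, θ, hδθ, hθ⟩ := hδ
  have hli : ∀ a : Fin (r + 1) → Eis, ∑ i, eF F hw (a i) * θ i = 0 → a = 0 := by
    intro a ha
    refine del_uniq F hw s hs θ (by rw [← hδθ]; exact hne) a 0 ?_
    rw [ha]
    simp
  refine ⟨?_, ?_⟩
  · rw [hδθ]
    exact h2a_disc F hw s hs θ hθ hli
  · letI := algK F hw
    haveI := d2_tower F hw
    haveI := d2_finite F hw
    have h1 := Algebra.discr_eq_det_embeddingsMatrixReindex_pow_two KK ℂ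
      (fun i => ((θ i : 𝓞 F) : F)) (Equiv.ofBijective _ (h0_bij F hw s hs))
    have hmat : (Algebra.embeddingsMatrixReindex KK ℂ (fun i => ((θ i : 𝓞 F) : F))
        (Equiv.ofBijective _ (h0_bij F hw s hs))).det = δ := by
      rw [hδθ, ← Matrix.det_transpose]
      rfl
    rw [hmat] at h1
    have hint : IsIntegral ℤ (Algebra.discr KK (fun i => ((θ i : 𝓞 F) : F))) :=
      Algebra.discr_isIntegral KK fun i => (θ i).isIntegral_coe
    obtain ⟨φ, hφ⟩ := exists_KK
    set y : 𝓞 KK := ⟨_, hint⟩ with hy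
    refine ⟨φ.symm y, ?_⟩
    rw [← hφ, RingEquiv.apply_symm_apply, ← h1]
    rfl

omit hs in
theorem h2a_val_int (A : ValuationSubring ℂ) (hA : A.valuation 2 < 1) (n : ℤ)
    (hn : ¬ (2 : ℤ) ∣ n) : A.valuation (n : ℂ) = 1 := by
  obtain ⟨k, hk⟩ : ∃ k : ℤ, n = 2 * k + 1 := ⟨n / 2, by omega⟩
  have h1 : A.valuation (k : ℂ) ≤ 1 := by
    rw [ValuationSubring.valuation_le_one_iff]
    exact intCast_mem A k
  have h2 : A.valuation ((2 : ℂ) * k) < 1 := by
    rw [map_mul]
    calc A.valuation (2 : ℂ) * A.valuation (k : ℂ) ≤ A.valuation (2 : ℂ) * 1 := by gcongr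
      _ < 1 := by rw [mul_one]; exact hA
  have h3 : (n : ℂ) = 2 * k + 1 := by rw [hk]; push_cast; ring
  rw [h3, Valuation.map_add_eq_of_lt_right]
  · exact map_one A.valuation
  · rw [map_one A.valuation]; exact h2

theorem del_val (hodd : ¬ (2 : ℤ) ∣ NumberField.discr F) (δ : ℂ) (hδ : IsDel F hw s δ)
    (A : ValuationSubring ℂ) (hA : A.valuation 2 < 1) : A.valuation δ = 1 := by
  obtain ⟨h1, a, ha⟩ := del_disc F hw s hs δ hδ
  -- the norm of `a` is odd
  have h2 : |NumberField.discr F| = 3 ^ (r + 1) * a.norm := by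
    have h3 : ‖δ‖ ^ 4 = (a.norm : ℝ) := by
      rw [← norm_emb_sq, ha, norm_pow]
      ring
    rw [h3] at h1
    exact_mod_cast h1
  have h3 : ¬ (2 : ℤ) ∣ a.norm := by
    intro h4
    apply hodd
    rw [← dvd_abs, h2]
    exact Dvd.dvd.mul_left h4 _
  have h4 : A.valuation (emb a) * A.valuation (emb (star a)) = 1 := by
    rw [← map_mul, ← map_mul, a3_mul_star, map_intCast]
    exact h2a_val_int A hA _ h3
  have h5 : A.valuation (emb a) = 1 := by
    apply le_antisymm (g4_int A a)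
    calc (1 : _) = A.valuation (emb a) * A.valuation (emb (star a)) := h4.symm
      _ ≤ A.valuation (emb a) * 1 := mul_le_mul' le_rfl (g4_int A _)
      _ = A.valuation (emb a) := mul_one _
  rw [ha, map_pow] at h5
  rcases pow_eq_one_iff.1 h5 with h6 | h6
  · exact h6
  · norm_num at h6

end NG
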