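import Pool.Agent.MP_9ab903_nt.NG.H2a
import Pool.Agent.MP_9ab903_nt.NAB.B3b

/-! ## [NG-H2b] bases of ideals over `ℤ[ω]`, additive characters

`ideal_basis`: as `NAB.b3_basis`: `I` is free of rank `r + 1` over `ℤ[ω]`, the matrix `T : Me` of its basis in terms of the basis of `𝓞 F` has
`D = det T`, `norm D = [𝓞 F : I]` (Smith normal form: `Submodule.smithNormalForm`/`Ideal.smithNormalForm`, or `Ideal.natAbs_det_basis_change`
applied to the `ℤ`-bases `1, ω` times ..: the `ℤ`-determinant of the matrix `T` is `norm (det T)`).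
`exists_W`: the character `ψ` of `𝓞 F` satisfies `ψ(norm(c) g) = 1`, so it is unitary; with the real coordinates of a `ℤ`-basis of `𝓞 F` it extends to
`y ↦ exp(2πi λ(y))`, `λ : ℂ^(r+1) → ℝ` real linear (`s(𝓞 F)` is a lattice in `ℂ^(r+1)`: `δ ≠ 0`), `λ(L v) = Re (u · v)` for a unique
`u ∈ ℂ^(r+1)`; `ψ(eF c * g) = 1` gives `Re (u · c t) ∈ ℤ` for all `t`, so `c u_i ∈ Dl`, `u = wc c W` (`Dl_iff`, G2b: reprove it here). -/

set_option autoImplicit false

open NumberField IsDedekindDomain MeasureTheory Set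
open CM27 CMT CF NAB
open scoped ComplexConjugate Classical Matrix

namespace NG

/-! ### the dual lattice -/

theorem h2b_s3 : (√3 : ℝ) * √3 = 3 := Real.mul_self_sqrt (by norm_num)

theorem h2b_s3_ne : (√3 : ℝ) ≠ 0 := by
  intro h0
  have h3 := h2b_s3
  rw [h0] at h3
  norm_num at h3

theorem h2b_Dl {θ : ℂ} (h : θ ∈ Dl) : ∃ b : Eis, θ = 2 * emb b / (Complex.I * (√3 : ℝ)) := by
  obtain ⟨k, hk⟩ := h 1
  obtain ⟨l, hl⟩ := h ⟨0, 1⟩
  have h3 := h2b_s3
  have h30 := h2b_s3_ne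
  have e1 : emb (⟨0, 1⟩ : Eis) = CM27.w := by
    rw [emb_apply]
    simp
  rw [map_one, mul_one] at hk
  rw [e1, Complex.mul_re, w_re, w_im] at hl
  refine ⟨⟨l + k, k⟩, ?_⟩
  have h4 : (Complex.I * (√3 : ℝ) : ℂ) ≠ 0 :=
    mul_ne_zero Complex.I_ne_zero (Complex.ofReal_ne_zero.2 h30)
  rw [eq_div_iff h4, emb_apply]
  apply Complex.ext
  · have h5 : θ.im * √3 = -(2 * l + k) := by linarith
    simp [w_re, w_im]
    linarith
  · simp [w_re, w_im]
    rw [hk]
    ring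

theorem h2b_root (z : ℂ) (k : ℕ) (hk : k ≠ 0) (hz : z ^ k = 1) : ∃ α : ℝ, z =
    Complex.exp (2 * Real.pi * Complex.I * (α : ℂ)) := by
  have h1 : ‖z‖ = 1 := Complex.norm_eq_one_of_pow_eq_one hz hk
  refine ⟨Complex.arg z / (2 * Real.pi), ?_⟩
  have h2 := Complex.norm_mul_exp_arg_mul_I z
  rw [h1, Complex.ofReal_one, one_mul] at h2
  conv_lhs => rw [← h2]
  congr 1
  have hπ : (Real.pi : ℂ) ≠ 0 := Complex.ofReal_ne_zero.2 Real.pi_ne_zero
  push_cast
  field_simp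

/-- additive characters of finite order of `ℤ[ω]` -/
theorem h2b_char (ψ : AddChar Eis ℂ) (k : ℕ)
    (hk : k ≠ 0) (hψ : ∀ a, ψ (k * a) = 1) : ∃ μ : ℂ, ∀ a, ψ a =
      Complex.exp (2 * Real.pi * Complex.I * (((μ * emb a).re : ℝ) : ℂ)) := by
  have h3 := h2b_s3
  have h30 := h2b_s3_ne
  have hpow : ∀ a, ψ a ^ k = 1 := by
    intro a
    rw [← AddChar.map_nsmul_eq_pow, nsmul_eq_mul]
    exact hψ a
  obtain ⟨α, hα⟩ := h2b_root (ψ 1) k hk (hpow 1)
  obtain ⟨β, hβ⟩ := h2b_root (ψ ⟨0, 1⟩) k hk (hpow _)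
  refine ⟨⟨α, -(2 * β + α) / √3⟩, fun a => ?_⟩
  have ha : a = a.re • (1 : Eis) + a.im • (⟨0, 1⟩ : Eis) := by
    ext <;> simp
  have hre : ((⟨α, -(2 * β + α) / √3⟩ : ℂ) * emb a).re = a.re * α + a.im * β := by
    rw [Complex.mul_re, emb_re, emb_im]
    field_simp
    ring
  rw [hre]
  conv_lhs => rw [ha]
  rw [AddChar.map_add_eq_mul, AddChar.map_zsmul_eq_zpow, AddChar.map_zsmul_eq_zpow, hα, hβ,
    ← Complex.exp_int_mul, ← Complex.exp_int_mul, ← Complex.exp_add]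
  congr 1
  push_cast
  ring

theorem h2b_exp_one (x : ℝ) (h : Complex.exp (2 * Real.pi * Complex.I * (x : ℂ)) = 1) :
    ∃ k : ℤ, x = k := by
  rw [Complex.exp_eq_one_iff] at h
  obtain ⟨k, hk⟩ := h
  refine ⟨k, ?_⟩
  have hπ : (2 * Real.pi * Complex.I : ℂ) ≠ 0 := Complex.two_pi_I_ne_zero
  have h2 : (2 * Real.pi * Complex.I : ℂ) * (x : ℂ) = (2 * Real.pi * Complex.I : ℂ) * ((k : ℝ) : ℂ) := by
    rw [hk]
    push_cast
    ring
  exact Complex.ofReal_injective (mul_left_cancel₀ hπ h2)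

theorem h2b_norm_dvd (d : Eis) : d ∣ ((d.norm.natAbs : ℕ) : Eis) := by
  have h0 : 0 ≤ d.norm := norm_nonneg' d
  refine ⟨star d, ?_⟩
  apply emb_injective
  rw [map_mul, CM27.emb_star, map_natCast, Complex.mul_conj, Complex.normSq_eq_norm_sq, norm_emb_sq]
  have h1 : ((d.norm.natAbs : ℕ) : ℤ) = d.norm := Int.natAbs_of_nonneg h0
  have h2 : (((d.norm.natAbs : ℕ) : ℤ) : ℂ) = ((d.norm : ℤ) : ℂ) := by rw [h1]
  rw [Int.cast_natCast] at h2
  rw [h2, Complex.ofReal_intCast]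

theorem h2b_norm_ne {d : Eis} (hd : d ≠ 0) : d.norm.natAbs ≠ 0 := by
  intro h
  rw [Int.natAbs_eq_zero] at h
  have h1 := norm_emb_sq d
  rw [h, Int.cast_zero] at h1
  have h2 : emb d = 0 := by
    rw [← norm_eq_zero]
    exact pow_eq_zero_iff (two_ne_zero) |>.1 h1
  exact hd (emb_injective (by rw [h2, map_zero]))

theorem h2b_alg_norm (a : Eis) : Algebra.norm ℤ a = a.norm := by
  rw [← QuadraticAlgebra.det_toLinearMap_eq_norm, Algebra.norm_apply]
  rfl

variable {r : ℕ} (F : IntermediateField ℚ ℂ) [NumberField F] (hw : w ∈ F)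
  (s : Fin (r + 1) → F →+* ℂ) (hs : IsS F hw s)
include hs

theorem ideal_basis (δ : ℂ) (hδ : IsDel F hw s δ) (I : Ideal (𝓞 F)) (hI : I ≠ ⊥) :
    ∃ (θ : Fin (r + 1) → 𝓞 F) (D : Eis), (∀ g : 𝓞 F, g ∈ I ↔
      ∃ a : Fin (r + 1) → Eis, g = ∑ i, eF F hw (a i) * θ i) ∧
    Matrix.det (Matrix.of fun j i => s j (θ i : F)) = emb D * δ ∧
    D.norm.natAbs = Ideal.absNorm I := by
  haveI := eis_isDomain
  haveI := eis_pid
  letI : Algebra Eis (𝓞 F) := (eF F hw).toAlgebra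
  obtain ⟨θ, hθ, hg⟩ := hδ.basis
  have hsm : ∀ (a : Eis) (x : 𝓞 F), a • x = eF F hw a * x := fun a x => Algebra.smul_def a x
  have h0 : Matrix.det (Matrix.of fun j i => s j (θ i : F)) ≠ 0 := by
    rw [← hθ]
    exact hδ.ne
  have hli : LinearIndependent Eis θ := by
    rw [Fintype.linearIndependent_iff]
    intro a ha i
    have h1 := del_uniq F hw s hs θ h0 a 0 (by
      simp only [Pi.zero_apply, map_zero, zero_mul, Finset.sum_const_zero]
      simp only [hsm] at ha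
      exact ha)
    rw [h1]
    rfl
  let b : Module.Basis (Fin (r + 1)) Eis (𝓞 F) := Module.Basis.mk hli (by
    intro g _
    obtain ⟨a, ha⟩ := hg g
    rw [ha]
    refine Submodule.sum_mem _ fun i _ => ?_
    rw [← hsm]
    exact Submodule.smul_mem _ _ (Submodule.subset_span ⟨i, rfl⟩))
  have hb : ∀ i, b i = θ i := fun i => Module.Basis.mk_apply hli _ i
  let b' := Ideal.selfBasis b I hI
  let e : 𝓞 F ≃ₗ[Eis] I := b.equiv b' (Equiv.refl _)
  let f : 𝓞 F →ₗ[Eis] 𝓞 F := (Submodule.subtype I).restrictScalars Eis ∘ₗ e.toLinearMap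
  have hf : ∀ i, f (θ i) = (b' i : 𝓞 F) := by
    intro i
    show ((e (θ i) : I) : 𝓞 F) = _
    rw [← hb, Module.Basis.equiv_apply]
    rfl
  refine ⟨fun i => (b' i : 𝓞 F), LinearMap.det f, fun g => ⟨fun hgI => ?_, ?_⟩, ?_, ?_⟩
  · refine ⟨fun i => b'.repr ⟨g, hgI⟩ i, ?_⟩
    have h1 := b'.sum_repr ⟨g, hgI⟩
    have h2 : ((∑ i, b'.repr ⟨g, hgI⟩ i • b' i : I) : 𝓞 F) = g := congrArg (Subtype.val) h1
    refine h2.symm.trans ?_
    rw [Submodule.coe_sum]
    exact Finset.sum_congr rfl fun i _ => (hsm _ _)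
  · rintro ⟨a, rfl⟩
    exact I.sum_mem fun i _ => I.mul_mem_left _ (b' i).2
  · have h1 : ∀ i, (b' i : 𝓞 F) = ∑ k, eF F hw (LinearMap.toMatrix b b f k i) * θ k := by
      intro i
      rw [← hf i, ← hb i]
      conv_lhs => rw [← b.sum_repr (f (b i))]
      refine Finset.sum_congr rfl fun k _ => ?_
      rw [hsm, LinearMap.toMatrix_apply, hb k]
    have h2 : (Matrix.of fun j i => s j (((b' i : 𝓞 F) : F))) =
        (Matrix.of fun j i => s j (θ i : F)) * (LinearMap.toMatrix b b f).map emb := by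
      ext j i
      rw [Matrix.mul_apply]
      show s j (((b' i : 𝓞 F) : F)) = _
      rw [h1 i]
      have h3 : ((∑ k, eF F hw (LinearMap.toMatrix b b f k i) * θ k : 𝓞 F) : F) =
          ∑ k, ((eF F hw (LinearMap.toMatrix b b f k i) : 𝓞 F) : F) * (θ k : F) := by
        push_cast
        rfl
      rw [h3, map_sum]
      refine Finset.sum_congr rfl fun k _ => ?_
      rw [map_mul, s_eF F hw s hs, mul_comm]
      rfl
    rw [h2, Matrix.det_mul, ← hθ, mul_comm]
    congr 1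
    have h4 : ((LinearMap.toMatrix b b f).map emb).det = emb (LinearMap.toMatrix b b f).det :=
      (RingHom.map_det emb _).symm
    rw [h4, LinearMap.det_toMatrix]
  · haveI : Module.Free Eis (𝓞 F) := Module.Free.of_basis b
    have h1 := Ideal.natAbs_det_equiv I e
    rw [← h1, ← h2b_alg_norm, ← LinearMap.det_restrictScalars]
    rfl

theorem exists_W (δ : ℂ) (hδ : IsDel F hw s δ) (L : Mc (r + 1)) (hL : L.det ≠ 0)
    (hlat : ∀ t : Fin (r + 1) → Eis, ∃ g : 𝓞 F, ∀ j, s j (g : F) = L j ⬝ᵥ em t) (c : Eis)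
    (hc : c ≠ 0) (ψ : AddChar (𝓞 F) ℂ) (hψ : ∀ g, ψ (eF F hw c * g) = 1) :
    ∃ W : Fin (r + 1) → Eis, ∀ (g : 𝓞 F) (v : Fin (r + 1) → ℂ),
      (∀ j, s j (g : F) = L j ⬝ᵥ v) → ch (wc c W) v = ψ g := by
  obtain ⟨θ, hθ, hg⟩ := hδ.basis
  set S : Mc (r + 1) := Matrix.of fun j i => s j (θ i : F) with hS
  have hSd : S.det ≠ 0 := by
    rw [← hθ]
    exact hδ.ne
  set k := c.norm.natAbs with hk
  have hk0 : k ≠ 0 := h2b_norm_ne hc
  obtain ⟨c', hc'⟩ := h2b_norm_dvd c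
  have hψk : ∀ g, ψ ((k : 𝓞 F) * g) = 1 := by
    intro g
    have h1 : (k : 𝓞 F) = eF F hw c * eF F hw c' := by
      rw [← map_mul, ← hc', map_natCast]
    rw [h1, mul_assoc]
    exact hψ _
  -- the coordinate characters
  have hch : ∀ i, ∃ μ : ℂ, ∀ a : Eis, ψ (eF F hw a * θ i) =
      Complex.exp (2 * Real.pi * Complex.I * (((μ * emb a).re : ℝ) : ℂ)) := by
    intro i
    let φ : AddChar Eis ℂ :=
      { toFun := fun a => ψ (eF F hw a * θ i)
        map_zero_eq_one' := by rw [map_zero, zero_mul, AddChar.map_zero_eq_one]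
        map_add_eq_mul' := by
          intro a b
          rw [map_add, add_mul, AddChar.map_add_eq_mul] }
    exact h2b_char φ k hk0 fun a => by
      show ψ (eF F hw (k * a) * θ i) = 1
      rw [map_mul (eF F hw), map_natCast, mul_assoc]
      exact hψk _
  choose μ hμ using hch
  have hsum : ∀ a : Fin (r + 1) → Eis, ψ (∑ i, eF F hw (a i) * θ i) = ch μ (em a) := by
    intro a
    have h1 : ∀ t : Finset (Fin (r + 1)), ψ (∑ i ∈ t, eF F hw (a i) * θ i) =
        ∏ i ∈ t, ψ (eF F hw (a i) * θ i) := by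
      intro t
      induction t using Finset.induction_on with
      | empty => rw [Finset.sum_empty, Finset.prod_empty, AddChar.map_zero_eq_one]
      | insert x t hx ih =>
        rw [Finset.sum_insert hx, Finset.prod_insert hx, AddChar.map_add_eq_mul, ih]
    rw [h1]
    unfold ch
    have h2 : μ ⬝ᵥ em a = ∑ i, μ i * emb (a i) := rfl
    rw [h2, Complex.re_sum, Complex.ofReal_sum, Finset.mul_sum, Complex.exp_sum]
    exact Finset.prod_congr rfl fun i _ => hμ i (a i)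
  have hsg : ∀ a : Fin (r + 1) → Eis, ∀ j, s j ((∑ i, eF F hw (a i) * θ i : 𝓞 F) : F) =
      (S *ᵥ em a) j := by
    intro a j
    have h3 : ((∑ i, eF F hw (a i) * θ i : 𝓞 F) : F) =
        ∑ i, ((eF F hw (a i) : 𝓞 F) : F) * (θ i : F) := by
      push_cast
      rfl
    rw [h3, map_sum]
    refine Finset.sum_congr rfl fun i _ => ?_
    rw [map_mul, s_eF F hw s hs, mul_comm]
    rfl
  -- the vector
  set u : Fin (r + 1) → ℂ := (μ ᵥ* S⁻¹) ᵥ* L with hu
  have hSu : IsUnit S.det := isUnit_iff_ne_zero.2 hSd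
  have key : ∀ (g : 𝓞 F) (v : Fin (r + 1) → ℂ), (∀ j, s j (g : F) = L j ⬝ᵥ v) → ch u v = ψ g := by
    intro g v hgv
    obtain ⟨a, rfl⟩ := hg g
    rw [hsum]
    have h1 : L *ᵥ v = S *ᵥ em a := by
      ext j
      rw [← hsg a j, hgv j]
      rfl
    have h2 : u ⬝ᵥ v = μ ⬝ᵥ em a := by
      rw [hu, ← Matrix.dotProduct_mulVec, h1, ← Matrix.dotProduct_mulVec, Matrix.mulVec_mulVec,
        Matrix.nonsing_inv_mul _ hSu, Matrix.one_mulVec]
    unfold ch
    rw [h2]
  have hcu : ∀ i, emb c * u i ∈ Dl := by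
    intro i t
    obtain ⟨g, hgt⟩ := hlat (Pi.single i t)
    have h1 := key (eF F hw c * g) (emb c • em (Pi.single i t)) (by
      intro j
      have h2 : ((eF F hw c * g : 𝓞 F) : F) = ((eF F hw c : 𝓞 F) : F) * (g : F) := by
        push_cast
        rfl
      rw [h2, map_mul, s_eF F hw s hs, hgt j, dotProduct_smul, smul_eq_mul])
    rw [hψ] at h1
    unfold ch at h1
    obtain ⟨l, hl⟩ := h2b_exp_one _ h1
    refine ⟨l, ?_⟩
    rw [← hl]
    congr 1
    have h3 : em (Pi.single i t : Fin (r + 1) → Eis) = Pi.single i (emb t) := by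
      ext j
      unfold em
      by_cases hij : j = i
      · subst hij
        simp
      · simp [hij]
    rw [h3, dotProduct_smul, dotProduct_single, smul_eq_mul]
    ring
  choose W hW using fun i => h2b_Dl (hcu i)
  refine ⟨W, fun g v hgv => ?_⟩
  have hwc : wc c W = u := by
    ext i
    have hc0 : emb c ≠ 0 := fun h => hc (emb_injective (by rw [h, map_zero]))
    have h30 : (Complex.I * (√3 : ℝ) : ℂ) ≠ 0 :=
      mul_ne_zero Complex.I_ne_zero (Complex.ofReal_ne_zero.2 h2b_s3_ne)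
    have h1 := hW i
    show 2 * emb (W i) / (emb c * (Complex.I * (√3 : ℝ))) = u i
    rw [eq_div_iff h30] at h1
    rw [div_eq_iff (mul_ne_zero hc0 h30), ← h1]
    ring
  rw [hwc]
  exact key g v hgv

end NG
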