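import Pool.Agent.MP_9ab903_nt.NG.H2b
import Pool.Agent.MP_9ab903_nt.NG.G1b

/-! ## [NG-H3] the coordinates of the lattice `m b`

As `NAB/B3b.lean` (`exists_LD`). `L j i = s_j (θ_i)` for a basis `θ` of `m b` (`ideal_basis`), `M i` = matrix of the multiplication by `e_i`
(`hM`: `norm = 1`, `L M = diag L`; `hcomm` from `L` injective), `hM2`: `e_i - 1 = 2 f`, `f m b ⊆ m b`; `x` = coordinates of `g₀ ∈ b`, `g₀ = 1 mod m`
(`b`, `m` coprime); `hx`: `absNorm (m b) g₀ ∈ m b`; `hx0`: `g₀ ∉ m b` as `m` is not a unit (`3 ∣ m`); `bij`: `eF u g₀ + m b = {g ∈ b | g = u mod m}`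
(`b ⊓ (m) = m b`); `val`: `det L = emb D δ`, `norm D = absNorm (m b)` odd, `del_val`; `gal`: `emb D` is fixed. -/

set_option autoImplicit false

open NumberField IsDedekindDomain MeasureTheory Set
open CM27 CMT CF NAB
open scoped ComplexConjugate Classical Matrix

namespace NG

variable {r : ℕ} (F : IntermediateField ℚ ℂ) [NumberField F] (hw : w ∈ F)

/-- the embedding on the integers -/
noncomputable def h3_s (s : Fin (r + 1) → F →+* ℂ) (j : Fin (r + 1)) : 𝓞 F →+* ℂ :=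
  (s j).comp (algebraMap (𝓞 F) F)

theorem h3_s_inj (s : Fin (r + 1) → F →+* ℂ) (j : Fin (r + 1)) :
    Function.Injective (h3_s F s j) := by
  intro x y h
  have h1 : (x : F) = (y : F) := (s j).injective h
  exact RingOfIntegers.ext h1

theorem h3_lin (s : Fin (r + 1) → F →+* ℂ) (hs : IsS F hw s) (θ : Fin (r + 1) → 𝓞 F)
    (a : Fin (r + 1) → Eis) (j : Fin (r + 1)) :
    h3_s F s j (∑ i, eF F hw (a i) * θ i) = (fun i => h3_s F s j (θ i)) ⬝ᵥ em a := by
  rw [map_sum, dotProduct]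
  refine Finset.sum_congr rfl fun i _ => ?_
  rw [map_mul, mul_comm]
  congr 1
  exact s_eF F hw s hs j (a i)

theorem h3_odd (I : Ideal (𝓞 F)) (hI : I ≠ ⊥) (h2 : IsCoprime I (Ideal.span {(2 : 𝓞 F)})) :
    Odd (Ideal.absNorm I) := by
  obtain ⟨n, hn, hnI⟩ := b3_odd F I hI h2
  have h1 : Ideal.absNorm I ∣ Ideal.absNorm (Ideal.span {(n : 𝓞 F)}) :=
    Ideal.absNorm_dvd_absNorm_of_le ((Ideal.span_singleton_le_iff_mem _).2 hnI)
  have h3 : Ideal.absNorm (Ideal.span {(n : 𝓞 F)}) = n ^ Module.finrank ℤ (𝓞 F) := by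
    rw [Ideal.absNorm_span_singleton]
    have : (n : 𝓞 F) = algebraMap ℤ (𝓞 F) (n : ℤ) := by simp
    rw [this, Algebra.norm_algebraMap, Int.natAbs_pow, Int.natAbs_natCast]
  rw [h3] at h1
  exact Odd.of_dvd_nat hn.pow h1

theorem exists_LD (s : Fin (r + 1) → F →+* ℂ) (hs : IsS F hw s) (δ : ℂ) (hδ : IsDel F hw s δ)
    (hodd : ¬ (2 : ℤ) ∣ NumberField.discr F) (m : 𝓞 F) (hm0 : m ≠ 0) (h3 : (3 : 𝓞 F) ∣ m)
    (hm2 : IsCoprime m 2) (𝔫 : Ideal (𝓞 F)) (h𝔫 : 𝔫 ≤ Ideal.span {m}) (e : Fin r → (𝓞 F)ˣ)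
    (he : IsB F s 𝔫 e) (b : Ideal (𝓞 F)) (hb0 : b ≠ 0) (hbm : IsCoprime b (Ideal.span {m}))
    (hb2 : IsCoprime b (Ideal.span {(2 : 𝓞 F)})) (N : ℕ)
    (hN : Ideal.absNorm (Ideal.span {m} * b) ∣ N) : Nonempty (LD F hw s m e b N δ) := by
  set I : Ideal (𝓞 F) := Ideal.span {m} * b with hI
  have hI0 : I ≠ ⊥ := by
    rw [hI, Ne, ← Ideal.zero_eq_bot, mul_eq_zero, not_or]
    refine ⟨?_, hb0⟩
    rw [Ideal.zero_eq_bot, Ideal.span_singleton_eq_bot]
    exact hm0
  have hIc : ∀ g ∈ I, g ∈ b := fun g hg => Ideal.mul_le_right hg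
  have hIm : ∀ g ∈ I, m ∣ g := fun g hg => Ideal.mem_span_singleton.1 (Ideal.mul_le_left hg)
  have hI2 : IsCoprime I (Ideal.span {(2 : 𝓞 F)}) := by
    rw [hI]
    refine IsCoprime.mul_left ?_ hb2
    rw [Ideal.isCoprime_span_singleton_iff]
    exact hm2
  obtain ⟨θ, D, hmem, hdet, hnorm⟩ := ideal_basis F hw s hs δ hδ I hI0
  set L : Mc (r + 1) := Matrix.of fun j i => s j (θ i : F) with hLdef
  have habs0 : Ideal.absNorm I ≠ 0 := by
    rw [Ne, Ideal.absNorm_eq_zero_iff]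
    exact hI0
  have hD0 : emb D ≠ 0 := by
    intro h
    have h1 := norm_emb_sq D
    rw [h, norm_zero] at h1
    have h2 : D.norm = 0 := by
      have : (D.norm : ℝ) = 0 := by rw [← h1]; norm_num
      exact_mod_cast this
    rw [h2] at hnorm
    exact habs0 hnorm.symm
  have hL0 : L.det ≠ 0 := by
    rw [hdet]
    exact mul_ne_zero hD0 hδ.ne
  have hLu : IsUnit L.det := isUnit_iff_ne_zero.2 hL0
  -- uniqueness of coordinates in `ℂ^(r+1)`
  have huniq : ∀ y z : Fin (r + 1) → ℂ, (∀ j, L j ⬝ᵥ y = L j ⬝ᵥ z) → y = z := by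
    intro y z h
    have h1 : L *ᵥ (y - z) = 0 := by
      rw [Matrix.mulVec_sub, sub_eq_zero]
      funext j
      exact h j
    exact sub_eq_zero.1 (Matrix.eq_zero_of_mulVec_eq_zero hL0 h1)
  have hlin : ∀ (a : Fin (r + 1) → Eis) (j : Fin (r + 1)),
      h3_s F s j (∑ i, eF F hw (a i) * θ i) = L j ⬝ᵥ em a := fun a j => h3_lin F hw s hs θ a j
  have hθI : ∀ k, θ k ∈ I := by
    intro k
    rw [hmem]
    refine ⟨Pi.single k 1, ?_⟩
    rw [Finset.sum_eq_single k]
    · rw [Pi.single_eq_same, map_one, one_mul]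
    · intro i _ hik
      rw [Pi.single_eq_of_ne hik, map_zero, zero_mul]
    · intro h
      exact absurd (Finset.mem_univ k) h
  -- elements of `I`
  have hII : ∀ g ∈ I, ∃ t : Fin (r + 1) → Eis, ∀ j, h3_s F s j g = L j ⬝ᵥ em t := by
    intro g hg
    obtain ⟨t, ht⟩ := (hmem g).1 hg
    exact ⟨t, fun j => by rw [ht, hlin]⟩
  have hII' : ∀ (g : 𝓞 F) (t : Fin (r + 1) → Eis), (∀ j, h3_s F s j g = L j ⬝ᵥ em t) →
      g = ∑ i, eF F hw (t i) * θ i := by
    intro g t h
    apply h3_s_inj F s 0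
    rw [h 0, hlin]
  -- the matrices of the units
  have hMex : ∀ i : Fin r, ∃ A : Me (r + 1), ∀ k, ((e i : 𝓞 F)) * θ k = ∑ l, eF F hw (A l k) * θ l := by
    intro i
    have h1 : ∀ k, ∃ t : Fin (r + 1) → Eis, ((e i : 𝓞 F)) * θ k = ∑ l, eF F hw (t l) * θ l :=
      fun k => (hmem _).1 (I.mul_mem_left _ (hθI k))
    choose t ht using h1
    exact ⟨Matrix.of fun l k => t k l, fun k => ht k⟩
  choose M hM using hMex
  have hLM : ∀ i j, L j ᵥ* cm (M i) = s j ((e i : 𝓞 F) : F) • L j := by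
    intro i j
    funext k
    have h1 := congrArg (h3_s F s j) (hM i k)
    rw [map_mul, hlin (fun l => M i l k) j] at h1
    exact h1.symm
  have hLM' : ∀ i, L * cm (M i) = Matrix.diagonal (fun j => s j ((e i : 𝓞 F) : F)) * L := by
    intro i
    ext j k
    have h1 := congrFun (hLM i j) k
    rw [Matrix.diagonal_mul]
    exact h1
  have hMv : ∀ i j (v : Fin (r + 1) → ℂ), L j ⬝ᵥ (cm (M i) *ᵥ v) =
      s j ((e i : 𝓞 F) : F) * (L j ⬝ᵥ v) := by
    intro i j v
    rw [Matrix.dotProduct_mulVec, hLM, smul_dotProduct, smul_eq_mul]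
  have hMdet : ∀ i, (M i).det = 1 := by
    intro i
    apply emb_injective
    rw [← cm_det, map_one]
    have h1 := congrArg Matrix.det (hLM' i)
    rw [Matrix.det_mul, Matrix.det_mul, Matrix.det_diagonal, he.norm i, one_mul] at h1
    exact mul_left_cancel₀ hL0 (by rw [h1, mul_one])
  have hcm : Function.Injective (cm : Me (r + 1) → Mc (r + 1)) := by
    intro A B h
    ext1 i j
    have := congrFun (congrFun h i) j
    exact emb_injective this
  have hcomm : ∀ i j, M i * M j = M j * M i := by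
    intro i j
    apply hcm
    rw [cm_mul, cm_mul]
    have h1 : L * (cm (M i) * cm (M j)) = L * (cm (M j) * cm (M i)) := by
      rw [← Matrix.mul_assoc, ← Matrix.mul_assoc, hLM', hLM', Matrix.mul_assoc, Matrix.mul_assoc,
        hLM', hLM', ← Matrix.mul_assoc, ← Matrix.mul_assoc, Matrix.diagonal_mul_diagonal,
        Matrix.diagonal_mul_diagonal]
      congr 2
      funext k
      exact mul_comm _ _
    have h2 : L⁻¹ * (L * (cm (M i) * cm (M j))) = L⁻¹ * (L * (cm (M j) * cm (M i))) := by rw [h1]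
    rwa [← Matrix.mul_assoc, ← Matrix.mul_assoc L⁻¹, Matrix.nonsing_inv_mul _ hLu, Matrix.one_mul,
      Matrix.one_mul] at h2
  have hM2 : (∀ i, (2 : 𝓞 F) ∣ (e i : 𝓞 F) - 1) → ∀ i a b, (2 : Eis) ∣ (M i - 1) a b := by
    intro h2 i l k
    obtain ⟨f, hf⟩ := h2 i
    obtain ⟨t, ht⟩ := (hmem (f * θ k)).1 (I.mul_mem_left _ (hθI k))
    have h3 : (fun l => (M i - 1) l k) = fun l => 2 * t l := by
      refine del_uniq F hw s hs θ hL0 _ _ ?_
      have e1 : ∑ l, eF F hw (2 * t l) * θ l = 2 * (f * θ k) := by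
        rw [ht, Finset.mul_sum]
        refine Finset.sum_congr rfl fun l _ => ?_
        rw [map_mul, map_ofNat]
        ring
      have e2 : ∑ l, eF F hw ((M i - 1) l k) * θ l = (e i : 𝓞 F) * θ k - θ k := by
        have e3 : ∀ l, eF F hw ((M i - 1) l k) * θ l =
            eF F hw (M i l k) * θ l - (if l = k then θ l else 0) := by
          intro l
          rw [Matrix.sub_apply, map_sub, Matrix.one_apply]
          split_ifs with h
          · rw [map_one]; ring
          · rw [map_zero]; ring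
        rw [Finset.sum_congr rfl fun l _ => e3 l, Finset.sum_sub_distrib, ← hM i k,
          Finset.sum_ite_eq' Finset.univ k, if_pos (Finset.mem_univ k)]
      rw [e1, e2]
      linear_combination (θ k) * hf
    exact ⟨t l, congrFun h3 l⟩
  -- the base point
  obtain ⟨g0, hg0, j0, hj, hgj⟩ := Ideal.isCoprime_iff_exists.1 hbm
  have hj' : m ∣ j0 := Ideal.mem_span_singleton.1 hj
  have hg1 : m ∣ g0 - 1 := by
    have : g0 - 1 = -j0 := by linear_combination hgj
    rw [this]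
    exact (dvd_neg).2 hj'
  set x : Fin (r + 1) → ℂ := L⁻¹ *ᵥ (fun j => h3_s F s j g0) with hxdef
  have hLx : ∀ j, L j ⬝ᵥ x = h3_s F s j g0 := by
    intro j
    have h1 : L *ᵥ x = fun j => h3_s F s j g0 := by
      rw [hxdef, Matrix.mulVec_mulVec, Matrix.mul_nonsing_inv _ hLu, Matrix.one_mulVec]
    exact congrFun h1 j
  have hxN : (fun i => (N : ℂ) * x i) ∈ Lz (r + 1) := by
    have hNI : (N : 𝓞 F) * g0 ∈ I := by
      refine I.mul_mem_right _ ?_
      obtain ⟨k, hk⟩ := hN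
      rw [hk, Nat.cast_mul]
      exact I.mul_mem_right _ (Ideal.absNorm_mem I)
    obtain ⟨t, ht⟩ := hII _ hNI
    refine ⟨t, huniq _ _ fun j => ?_⟩
    have e1 : (fun i => (N : ℂ) * x i) = (N : ℂ) • x := rfl
    rw [← ht j, e1, dotProduct_smul, hLx, map_mul, map_natCast, smul_eq_mul]
  have hx0 : x ∉ Lz (r + 1) := by
    rintro ⟨t, ht⟩
    have hg0I : g0 ∈ I := by
      rw [hmem]
      refine ⟨t, hII' g0 t fun j => ?_⟩
      rw [← hLx, ht]
    have hm1 : m ∣ 1 := by
      have : (1 : 𝓞 F) = g0 - (g0 - 1) := by ring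
      rw [this]
      exact dvd_sub (hIm _ hg0I) hg1
    exact b3_three F (h3.trans hm1)
  have hMx : ∀ i, ∃ t : Fin (r + 1) → Eis, cm (M i) *ᵥ x = x + em t := by
    intro i
    have hNI : ((e i : 𝓞 F) - 1) * g0 ∈ I := by
      rw [hI]
      exact Ideal.mul_mem_mul (h𝔫 (he.mem i)) hg0
    obtain ⟨t, ht⟩ := hII _ hNI
    refine ⟨t, huniq _ _ fun j => ?_⟩
    rw [hMv, dotProduct_add, ← ht j, hLx, map_mul, map_sub, map_one]
    have : s j ((e i : 𝓞 F) : F) = h3_s F s j (e i : 𝓞 F) := rfl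
    rw [this]
    ring
  refine ⟨{ L := L, M := M, x := x, hL := hL0, hM := hMdet, hcomm := hcomm, hLM := hLM, hM2 := hM2,
            hx := hxN, hx0 := hx0, hMx := hMx, lat := ?_, bij := ?_, val := ?_, gal := ?_ }⟩
  · intro g
    constructor
    · intro hg
      exact hII g hg
    · rintro ⟨t, ht⟩
      rw [← hI, hmem]
      exact ⟨t, hII' g t ht⟩
  · intro u
    have hmemf : ∀ t : Fin (r + 1) → Eis, ∑ i, eF F hw (t i) * θ i ∈ I := fun t => (hmem _).2 ⟨t, rfl⟩
    let f : (Fin (r + 1) → Eis) → {g : 𝓞 F // g ∈ b ∧ m ∣ g - eF F hw u} := fun t =>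
      ⟨eF F hw u * g0 + ∑ i, eF F hw (t i) * θ i, by
        refine ⟨add_mem (b.mul_mem_left _ hg0) (hIc _ (hmemf t)), ?_⟩
        have : eF F hw u * g0 + ∑ i, eF F hw (t i) * θ i - eF F hw u =
          eF F hw u * (g0 - 1) + ∑ i, eF F hw (t i) * θ i := by ring
        rw [this]
        exact dvd_add (Dvd.dvd.mul_left hg1 _) (hIm _ (hmemf t))⟩
    have hf1 : ∀ (t : Fin (r + 1) → Eis) (j : Fin (r + 1)),
        s j ((f t : 𝓞 F) : F) = L j ⬝ᵥ ((fun i => emb u * x i) + em t) := by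
      intro t j
      have e1 : (fun i => emb u * x i) = emb u • x := rfl
      rw [dotProduct_add, e1, dotProduct_smul, hLx, ← hlin]
      show h3_s F s j (eF F hw u * g0 + ∑ i, eF F hw (t i) * θ i) = _
      rw [map_add, map_mul, smul_eq_mul]
      congr 2
      exact s_eF F hw s hs j u
    have hinj : Function.Injective f := by
      intro t t' htt
      have h1 : em t = em t' := by
        apply huniq
        intro j
        have e1 := hf1 t j
        rw [htt, hf1, dotProduct_add, dotProduct_add] at e1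
        exact (add_left_cancel e1).symm
      funext i
      exact emb_injective (congrFun h1 i)
    have hsurj : Function.Surjective f := by
      rintro ⟨g, hgc, hgm⟩
      have hgI : g - eF F hw u * g0 ∈ I := by
        rw [hI, Ideal.mul_eq_inf_of_isCoprime hbm.symm]
        refine ⟨Ideal.mem_span_singleton.2 ?_, sub_mem hgc (b.mul_mem_left _ hg0)⟩
        have : g - eF F hw u * g0 = (g - eF F hw u) - eF F hw u * (g0 - 1) := by ring
        rw [this]
        exact dvd_sub hgm (Dvd.dvd.mul_left hg1 _)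
      obtain ⟨t, ht⟩ := (hmem _).1 hgI
      refine ⟨t, Subtype.ext ?_⟩
      show eF F hw u * g0 + ∑ i, eF F hw (t i) * θ i = g
      rw [← ht]
      ring
    exact ⟨Equiv.ofBijective f ⟨hinj, hsurj⟩, fun t j => hf1 t j⟩
  · intro A hA
    rw [hdet, map_mul, del_val F hw s hs hodd δ hδ A hA, mul_one]
    refine val_odd_norm A hA D ?_
    have h1 := h3_odd F I hI0 hI2
    rw [← hnorm] at h1
    exact Int.natAbs_odd.1 h1
  · intro σ hσ
    have hσe : ∀ a : Eis, σ (emb a) = emb a := by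
      intro a
      rw [emb_apply, map_add, map_mul, map_intCast, map_intCast, hσ]
    rw [hdet, map_mul, hσe]
    ring

end NG
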