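import Pool.Agent.MP_9ab903_nt.NG.Defs

/-! ## [NG-H4a] Mellin transform over the orthant and the tiling by the units

`mellin_n`: product of Gamma integrals (`NAB.b4a_int1_val` in `NAB/B4a.lean`), `MeasureTheory.integral_fintype_prod_eq_prod`. `cv`:
`y_j = exp(z_j)`, `z = (log σ) 1 + ∑ t_i log E_i`, the matrix with rows `1, log E_i` has determinant `JE E > 0`; `dy = ∏ y_j dz`, `∏ y_j = σ^(r+1)`
(`∏_j E i j = 1`), `dσ/σ`. So `∫_{qd} f = JE ∫_{ℝ^r} ∫_{σ>0} σ^r f(σ Ex E t)`. `tiling`: `ℝ^r = ⋃_k ([0,1]^r + k)` up to null sets, countable additivity. -/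

set_option autoImplicit false

open scoped ComplexConjugate Matrix
open MeasureTheory Set Filter Topology

namespace NG

open CM27 NAB

variable {r : ℕ}

/-- one dimensional integrand (copied from NAB/B4a.lean) -/
theorem h4a_int1 (A : ℝ) (hA : 0 < A) (s : ℂ) (hs : 0 < s.re) :
    IntegrableOn (fun t : ℝ => (t : ℂ) ^ (s - 1) * ((Real.exp (-(Real.pi * (t * A))) : ℝ) : ℂ))
      (Ioi 0) := by
  have h1 : IntegrableOn (fun x : ℝ => x ^ (s.re - 1) * Real.exp (-(Real.pi * A) * x ^ (1 : ℝ)))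
      (Ioi 0) :=
    integrableOn_rpow_mul_exp_neg_mul_rpow (by linarith) one_pos (mul_pos Real.pi_pos hA)
  have hcont : ContinuousOn (fun t : ℝ => (t : ℂ) ^ (s - 1)
      * ((Real.exp (-(Real.pi * (t * A))) : ℝ) : ℂ)) (Ioi 0) := by
    intro t ht
    apply ContinuousAt.continuousWithinAt
    apply ContinuousAt.mul
    · apply ContinuousAt.cpow (Complex.continuous_ofReal.continuousAt) continuousAt_const
      left
      exact ht
    · fun_prop
  apply Integrable.mono' h1 (hcont.aestronglyMeasurable measurableSet_Ioi)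
  rw [ae_restrict_iff' measurableSet_Ioi]
  refine Filter.Eventually.of_forall fun t ht => ?_
  rw [norm_mul, Complex.norm_cpow_eq_rpow_re_of_pos ht, Complex.norm_real, Real.norm_eq_abs,
    abs_of_pos (Real.exp_pos _), Complex.sub_re, Complex.one_re, Real.rpow_one]
  apply le_of_eq
  congr 2
  ring

theorem h4a_int1_val (A : ℝ) (hA : 0 < A) (s : ℂ) (hs : 0 < s.re) :
    ∫ t in Ioi (0 : ℝ), (t : ℂ) ^ (s - 1) * ((Real.exp (-(Real.pi * (t * A))) : ℝ) : ℂ) =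
      Complex.Gamma s * (Real.pi : ℂ) ^ (-s) * (A : ℂ) ^ (-s) := by
  have h1 := Complex.integral_cpow_mul_exp_neg_mul_Ioi (a := s) (r := Real.pi * A) hs
    (mul_pos Real.pi_pos hA)
  have h2 : ∫ t in Ioi (0 : ℝ), (t : ℂ) ^ (s - 1) * ((Real.exp (-(Real.pi * (t * A))) : ℝ) : ℂ) =
      ∫ t in Ioi (0 : ℝ), (t : ℂ) ^ (s - 1) * Complex.exp (-(((Real.pi * A : ℝ) : ℂ) * t)) := by
    apply setIntegral_congr_fun measurableSet_Ioi
    intro t _
    simp only
    congr 1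
    rw [Complex.ofReal_exp]
    congr 1
    push_cast
    ring
  rw [h2, h1]
  have h3 : (1 / ((Real.pi * A : ℝ) : ℂ)) ^ s = (Real.pi : ℂ) ^ (-s) * (A : ℂ) ^ (-s) := by
    rw [one_div, Complex.inv_cpow _ _ (by
      rw [Complex.arg_ofReal_of_nonneg (mul_pos Real.pi_pos hA).le]
      exact Real.pi_pos.ne), ← Complex.cpow_neg, Complex.ofReal_mul,
      Complex.mul_cpow_ofReal_nonneg Real.pi_pos.le hA.le]
  rw [h3]
  ring

theorem h4a_qd (n : ℕ) : qd n = Set.pi univ (fun _ : Fin n => Ioi (0 : ℝ)) := by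
  ext y
  simp [qd]

theorem h4a_qd_meas (n : ℕ) : MeasurableSet (qd n) := by
  rw [h4a_qd]
  exact MeasurableSet.univ_pi fun _ => measurableSet_Ioi

theorem h4a_cpow_prod {n : ℕ} (t : Finset (Fin n)) (a : Fin n → ℝ) (ha : ∀ i, 0 < a i) (s : ℂ) :
    ((∏ i ∈ t, a i : ℝ) : ℂ) ^ s = ∏ i ∈ t, (a i : ℂ) ^ s := by
  classical
  induction t using Finset.induction_on with
  | empty => simp
  | insert i t hi ih =>
    rw [Finset.prod_insert hi, Finset.prod_insert hi, Complex.ofReal_mul,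
      Complex.mul_cpow_ofReal_nonneg (ha i).le (Finset.prod_nonneg fun j _ => (ha j).le), ih]

theorem h4a_split (n : ℕ) (A : Fin n → ℝ) (s : ℂ) {y : Fin n → ℝ} (hy : y ∈ qd n) :
    ((∏ j, y j : ℝ) : ℂ) ^ (s - 1) * ((Real.exp (-(Real.pi * ∑ j, y j * A j)) : ℝ) : ℂ) =
    ∏ j, ((y j : ℂ) ^ (s - 1) * ((Real.exp (-(Real.pi * (y j * A j))) : ℝ) : ℂ)) := by
  rw [Finset.prod_mul_distrib, h4a_cpow_prod Finset.univ y hy]
  congr 1
  rw [Finset.mul_sum, ← Finset.sum_neg_distrib, Real.exp_sum, Complex.ofReal_prod]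

theorem h4a_vol (n : ℕ) : (volume : Measure (Fin n → ℝ)).restrict (qd n) =
    Measure.pi fun _ => (volume : Measure ℝ).restrict (Ioi 0) := by
  rw [h4a_qd, volume_pi, Measure.restrict_pi_pi]

theorem mellin_n (n : ℕ) (A : Fin n → ℝ) (hA : ∀ j, 0 < A j) (s : ℂ) (hs : 0 < s.re) :
    IntegrableOn (fun y : Fin n → ℝ => ((∏ j, y j : ℝ) : ℂ) ^ (s - 1)
      * ((Real.exp (-(Real.pi * ∑ j, y j * A j)) : ℝ) : ℂ)) (qd n) ∧
    ∫ y in qd n, ((∏ j, y j : ℝ) : ℂ) ^ (s - 1) * ((Real.exp (-(Real.pi * ∑ j, y j * A j)) : ℝ) : ℂ)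
      = Complex.Gamma s ^ n * (Real.pi : ℂ) ^ (-(n * s)) * ((∏ j, A j : ℝ) : ℂ) ^ (-s) := by
  constructor
  · have h1 : IntegrableOn (fun y : Fin n → ℝ => ∏ j, ((y j : ℂ) ^ (s - 1)
        * ((Real.exp (-(Real.pi * (y j * A j))) : ℝ) : ℂ))) (qd n) := by
      rw [IntegrableOn, h4a_vol]
      exact Integrable.fintype_prod fun j => h4a_int1 (A j) (hA j) s hs
    exact h1.congr_fun (fun y hy => (h4a_split n A s hy).symm) (h4a_qd_meas n)
  · rw [setIntegral_congr_fun (h4a_qd_meas n) (fun y hy => h4a_split n A s hy), h4a_vol,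
      integral_fintype_prod_eq_prod (fun j (t : ℝ) => (t : ℂ) ^ (s - 1)
        * ((Real.exp (-(Real.pi * (t * A j))) : ℝ) : ℂ))]
    rw [Finset.prod_congr rfl fun j _ => h4a_int1_val (A j) (hA j) s hs,
      Finset.prod_mul_distrib, Finset.prod_const, Finset.card_univ, Fintype.card_fin, mul_pow,
      h4a_cpow_prod Finset.univ A hA, ← Complex.cpow_nat_mul, mul_neg]

/-! ### the change of variables -/

/-- the matrix with the rows `1, log E_i` -/
noncomputable def h4a_M (E : Fin r → Fin (r + 1) → ℝ) : Matrix (Fin (r + 1)) (Fin (r + 1)) ℝ :=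
  Matrix.of (Fin.cons (fun _ => (1 : ℝ)) (fun i j => Real.log (E i j)) :
    Fin (r + 1) → Fin (r + 1) → ℝ)

theorem h4a_vecMul (E : Fin r → Fin (r + 1) → ℝ) (x : Fin (r + 1) → ℝ) (j : Fin (r + 1)) :
    (x ᵥ* h4a_M E) j = x 0 + ∑ i : Fin r, x i.succ * Real.log (E i j) := by
  rw [Matrix.vecMul, dotProduct, Fin.sum_univ_succ]
  simp [h4a_M]

/-- the linear form `∑ v_{i+1} log E_{ij}` -/
noncomputable def h4a_l (E : Fin r → Fin (r + 1) → ℝ) (j : Fin (r + 1)) :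
    (Fin (r + 1) → ℝ) →L[ℝ] ℝ :=
  ∑ i : Fin r, Real.log (E i j) • (ContinuousLinearMap.proj i.succ : (Fin (r + 1) → ℝ) →L[ℝ] ℝ)

theorem h4a_l_apply (E : Fin r → Fin (r + 1) → ℝ) (j : Fin (r + 1)) (v : Fin (r + 1) → ℝ) :
    h4a_l E j v = ∑ i : Fin r, v i.succ * Real.log (E i j) := by
  unfold h4a_l
  rw [ContinuousLinearMap.sum_apply]
  refine Finset.sum_congr rfl fun i _ => ?_
  simp [mul_comm]

/-- the map `(σ, t) ↦ σ Ex E t` -/
noncomputable def h4a_Psi (E : Fin r → Fin (r + 1) → ℝ) (v : Fin (r + 1) → ℝ) :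
    Fin (r + 1) → ℝ := fun j => v 0 * Real.exp (h4a_l E j v)

theorem h4a_Ex (E : Fin r → Fin (r + 1) → ℝ) (hE : ∀ i j, 0 < E i j) (t : Fin r → ℝ)
    (j : Fin (r + 1)) : Ex E t j = Real.exp (∑ i : Fin r, t i * Real.log (E i j)) := by
  unfold Ex
  rw [Real.exp_sum]
  refine Finset.prod_congr rfl fun i _ => ?_
  rw [Real.rpow_def_of_pos (hE i j), mul_comm]

theorem h4a_Psi_eq (E : Fin r → Fin (r + 1) → ℝ) (hE : ∀ i j, 0 < E i j) (v : Fin (r + 1) → ℝ) :
    h4a_Psi E v = v 0 • Ex E (fun i => v i.succ) := by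
  funext j
  rw [Pi.smul_apply, h4a_Ex E hE, smul_eq_mul, h4a_Psi, h4a_l_apply]

/-- the matrix of the derivative -/
noncomputable def h4a_A (E : Fin r → Fin (r + 1) → ℝ) (v : Fin (r + 1) → ℝ) :
    Matrix (Fin (r + 1)) (Fin (r + 1)) ℝ :=
  Matrix.diagonal (fun j => Real.exp (h4a_l E j v)) * (h4a_M E)ᵀ *
    Matrix.diagonal (Fin.cons 1 (fun _ => v 0) : Fin (r + 1) → ℝ)

theorem h4a_det (E : Fin r → Fin (r + 1) → ℝ) (hE : ∀ i j, 0 < E i j)
    (hp : ∀ i, ∏ j, E i j = 1) (v : Fin (r + 1) → ℝ) : (h4a_A E v).det = v 0 ^ r * JE E := by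
  have h0 : ∑ j, h4a_l E j v = 0 := by
    simp_rw [h4a_l_apply]
    rw [Finset.sum_comm]
    apply Finset.sum_eq_zero
    intro i _
    rw [← Finset.mul_sum, ← Real.log_prod (fun j _ => (hE i j).ne'), hp i, Real.log_one, mul_zero]
  unfold h4a_A
  rw [Matrix.det_mul, Matrix.det_mul, Matrix.det_diagonal, Matrix.det_diagonal,
    Matrix.det_transpose, ← Real.exp_sum, h0, Real.exp_zero, one_mul, Fin.prod_univ_succ]
  simp only [Fin.cons_zero, Fin.cons_succ, Finset.prod_const, Finset.card_univ, Fintype.card_fin,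
    one_mul]
  rw [mul_comm]
  rfl

/-- the derivative -/
noncomputable def h4a_D (E : Fin r → Fin (r + 1) → ℝ) (v : Fin (r + 1) → ℝ) :
    (Fin (r + 1) → ℝ) →L[ℝ] (Fin (r + 1) → ℝ) :=
  LinearMap.toContinuousLinearMap (Matrix.toLin' (h4a_A E v))

theorem h4a_D_det (E : Fin r → Fin (r + 1) → ℝ) (hE : ∀ i j, 0 < E i j)
    (hp : ∀ i, ∏ j, E i j = 1) (v : Fin (r + 1) → ℝ) : (h4a_D E v).det = v 0 ^ r * JE E := by
  unfold h4a_D
  rw [LinearMap.det_toContinuousLinearMap, LinearMap.det_toLin', h4a_det E hE hp]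

theorem h4a_deriv (E : Fin r → Fin (r + 1) → ℝ) (v : Fin (r + 1) → ℝ) :
    HasFDerivAt (h4a_Psi E) (h4a_D E v) v := by
  rw [hasFDerivAt_pi']
  intro j
  have h1 : HasFDerivAt (fun v : Fin (r + 1) → ℝ => h4a_l E j v) (h4a_l E j) v :=
    (h4a_l E j).hasFDerivAt
  have h2 : HasFDerivAt (fun v : Fin (r + 1) → ℝ => v 0)
      (ContinuousLinearMap.proj 0 : (Fin (r + 1) → ℝ) →L[ℝ] ℝ) v :=
    (ContinuousLinearMap.proj 0 : (Fin (r + 1) → ℝ) →L[ℝ] ℝ).hasFDerivAt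
  have h3 := h2.mul h1.exp
  refine h3.congr_fderiv ?_
  ext h
  simp only [ContinuousLinearMap.add_apply, ContinuousLinearMap.smul_apply, smul_eq_mul,
    ContinuousLinearMap.proj_apply, ContinuousLinearMap.comp_apply]
  have h4 : (h4a_D E v) h j = ∑ k, h4a_A E v j k * h k := by
    unfold h4a_D
    rw [LinearMap.coe_toContinuousLinearMap', Matrix.toLin'_apply]
    rfl
  rw [h4, Fin.sum_univ_succ, h4a_l_apply E j h]
  have h5 : h4a_A E v j 0 = Real.exp (h4a_l E j v) := by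
    unfold h4a_A
    rw [Matrix.mul_diagonal, Matrix.diagonal_mul, Matrix.transpose_apply]
    simp [h4a_M]
  have h6 : ∀ i : Fin r, h4a_A E v j i.succ = Real.exp (h4a_l E j v) * Real.log (E i j) * v 0 := by
    intro i
    unfold h4a_A
    rw [Matrix.mul_diagonal, Matrix.diagonal_mul, Matrix.transpose_apply]
    simp [h4a_M]
  rw [h5]
  simp_rw [h6]
  rw [Finset.mul_sum, Finset.mul_sum, add_comm]
  congr 1
  refine Finset.sum_congr rfl fun i _ => ?_
  ring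

theorem h4a_inj (E : Fin r → Fin (r + 1) → ℝ) (hJ : 0 < JE E) :
    InjOn (h4a_Psi E) {v : Fin (r + 1) → ℝ | 0 < v 0} := by
  intro v hv v' hv' h
  have hv0 : 0 < v 0 := hv
  have hv0' : 0 < v' 0 := hv'
  set x : Fin (r + 1) → ℝ := Fin.cons (Real.log (v 0)) (fun i => v i.succ) with hx
  set x' : Fin (r + 1) → ℝ := Fin.cons (Real.log (v' 0)) (fun i => v' i.succ) with hx'
  have h1 : x ᵥ* h4a_M E = x' ᵥ* h4a_M E := by
    funext j
    have h2 := congrArg Real.log (congrFun h j)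
    simp only [h4a_Psi] at h2
    rw [Real.log_mul hv0.ne' (Real.exp_ne_zero _), Real.log_mul hv0'.ne' (Real.exp_ne_zero _),
      Real.log_exp, Real.log_exp, h4a_l_apply, h4a_l_apply] at h2
    rw [h4a_vecMul, h4a_vecMul]
    simpa [hx, hx'] using h2
  have h2 : x - x' = 0 := by
    apply Matrix.eq_zero_of_vecMul_eq_zero (M := h4a_M E)
    · exact hJ.ne'
    · rw [Matrix.sub_vecMul, h1, sub_self]
  have h3 : x = x' := sub_eq_zero.1 h2
  funext j
  refine Fin.cases ?_ (fun i => ?_) j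
  · have h4 := congrFun h3 0
    simp only [hx, hx', Fin.cons_zero] at h4
    exact Real.log_injOn_pos hv0 hv0' h4
  · have h4 := congrFun h3 i.succ
    simpa [hx, hx'] using h4

theorem h4a_image (E : Fin r → Fin (r + 1) → ℝ) (hJ : 0 < JE E) :
    h4a_Psi E '' {v : Fin (r + 1) → ℝ | 0 < v 0} = qd (r + 1) := by
  ext y
  constructor
  · rintro ⟨v, hv, rfl⟩ j
    have hv0 : 0 < v 0 := hv
    exact mul_pos hv0 (Real.exp_pos _)
  · intro hy
    have hu : IsUnit (h4a_M E).det := isUnit_iff_ne_zero.2 hJ.ne'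
    set z : Fin (r + 1) → ℝ := fun j => Real.log (y j) with hz
    set x := z ᵥ* (h4a_M E)⁻¹ with hx
    have h1 : x ᵥ* h4a_M E = z := by
      rw [hx, Matrix.vecMul_vecMul, Matrix.nonsing_inv_mul _ hu, Matrix.vecMul_one]
    refine ⟨Fin.cons (Real.exp (x 0)) (fun i => x i.succ), ?_, ?_⟩
    · change 0 < (Fin.cons (Real.exp (x 0)) (fun i => x i.succ) : Fin (r + 1) → ℝ) 0
      rw [Fin.cons_zero]
      exact Real.exp_pos _
    · funext j
      have h2 := congrFun h1 j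
      rw [h4a_vecMul] at h2
      rw [h4a_Psi, h4a_l_apply, Fin.cons_zero, ← Real.exp_add]
      simp only [Fin.cons_succ]
      rw [h2, hz]
      exact Real.exp_log (hy j)

/-- `v ↦ ((v_1, …, v_r), v_0)` -/
noncomputable def h4a_e (r : ℕ) : (Fin (r + 1) → ℝ) ≃ᵐ (Fin r → ℝ) × ℝ :=
  (MeasurableEquiv.piFinSuccAbove (fun _ : Fin (r + 1) => ℝ) 0).trans MeasurableEquiv.prodComm

theorem h4a_e_apply (v : Fin (r + 1) → ℝ) : h4a_e r v = ((fun i => v i.succ), v 0) := rfl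

theorem h4a_e_mp (r : ℕ) : MeasurePreserving (h4a_e r) volume volume := by
  have h1 := volume_preserving_piFinSuccAbove (fun _ : Fin (r + 1) => ℝ) 0
  have h2 : MeasurePreserving (Prod.swap : ℝ × (Fin r → ℝ) → (Fin r → ℝ) × ℝ) volume volume :=
    Measure.measurePreserving_swap
  exact h2.comp h1

theorem cv (E : Fin r → Fin (r + 1) → ℝ) (hE : ∀ i j, 0 < E i j) (hp : ∀ i, ∏ j, E i j = 1)
    (hJ : 0 < JE E) (f : (Fin (r + 1) → ℝ) → ℂ) (hf : IntegrableOn f (qd (r + 1))) :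
    IntegrableOn (fun p : (Fin r → ℝ) × ℝ => (p.2 : ℂ) ^ r * f (p.2 • Ex E p.1))
      (univ ×ˢ Ioi 0) ∧
    ∫ y in qd (r + 1), f y = (JE E : ℂ)
      * ∫ p in (univ ×ˢ Ioi 0 : Set ((Fin r → ℝ) × ℝ)), (p.2 : ℂ) ^ r * f (p.2 • Ex E p.1) := by
  set S : Set (Fin (r + 1) → ℝ) := {v | 0 < v 0} with hS
  have hSm : MeasurableSet S := measurableSet_lt measurable_const (measurable_pi_apply 0)
  have hder : ∀ v ∈ S, HasFDerivWithinAt (h4a_Psi E) (h4a_D E v) S v := fun v _ =>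
    (h4a_deriv E v).hasFDerivWithinAt
  have hinj := h4a_inj E hJ
  have himg := h4a_image E hJ
  set g : (Fin r → ℝ) × ℝ → ℂ := fun p => (p.2 : ℂ) ^ r * f (p.2 • Ex E p.1) with hg
  have hpre : h4a_e r ⁻¹' (univ ×ˢ Ioi 0) = S := by
    ext v
    rw [Set.mem_preimage, h4a_e_apply]
    simp [hS]
  have hfun : ∀ v ∈ S, |(h4a_D E v).det| • f (h4a_Psi E v) = (JE E : ℂ) * g (h4a_e r v) := by
    intro v hv
    have hv0 : 0 < v 0 := hv
    rw [h4a_D_det E hE hp, abs_of_pos (mul_pos (pow_pos hv0 r) hJ), h4a_Psi_eq E hE, h4a_e_apply,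
      Complex.real_smul]
    simp only [hg]
    push_cast
    ring
  have hmp := h4a_e_mp r
  have hemb := (h4a_e r).measurableEmbedding
  constructor
  · have h1 := (integrableOn_image_iff_integrableOn_abs_det_fderiv_smul volume hSm hder hinj f).1
      (by rw [himg]; exact hf)
    have h2 : IntegrableOn (fun v => (JE E : ℂ) * g (h4a_e r v)) S := h1.congr_fun hfun hSm
    have h3 : IntegrableOn (fun v => g (h4a_e r v)) S := by
      have h4 : IntegrableOn (fun v => (JE E : ℂ)⁻¹ * ((JE E : ℂ) * g (h4a_e r v))) S :=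
        h2.const_mul ((JE E : ℂ)⁻¹)
      have h5 : (JE E : ℂ) ≠ 0 := by exact_mod_cast hJ.ne'
      refine h4.congr_fun (fun v _ => ?_) hSm
      dsimp only
      rw [← mul_assoc, inv_mul_cancel₀ h5, one_mul]
    rw [← hpre] at h3
    exact (hmp.integrableOn_comp_preimage hemb).1 h3
  · have h1 := integral_image_eq_integral_abs_det_fderiv_smul volume hSm hder hinj f
    rw [himg] at h1
    rw [h1, setIntegral_congr_fun hSm hfun, integral_const_mul]
    congr 1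
    have h2 := hmp.setIntegral_preimage_emb hemb g (univ ×ˢ Ioi 0)
    rw [hpre] at h2
    exact h2

/-! ### the tiling -/

/-- the half open cubes -/
def h4a_S (r : ℕ) (k : Fin r → ℤ) : Set ((Fin r → ℝ) × ℝ) :=
  (Set.pi univ fun i => Ico (k i : ℝ) (k i + 1)) ×ˢ Ioi 0

theorem h4a_S_meas (k : Fin r → ℤ) : MeasurableSet (h4a_S r k) :=
  (MeasurableSet.univ_pi fun _ => measurableSet_Ico).prod measurableSet_Ioi

theorem h4a_S_union : ⋃ k : Fin r → ℤ, h4a_S r k = univ ×ˢ Ioi 0 := by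
  ext p
  simp only [h4a_S, Set.mem_iUnion, Set.mem_prod, Set.mem_univ, true_and]
  constructor
  · rintro ⟨k, _, h⟩
    exact h
  · intro h
    refine ⟨fun i => ⌊p.1 i⌋, ?_, h⟩
    intro i _
    exact ⟨Int.floor_le _, Int.lt_floor_add_one _⟩

theorem h4a_S_disj : Pairwise (Function.onFun Disjoint (h4a_S r)) := by
  intro k k' hkk'
  rw [Function.onFun, Set.disjoint_left]
  rintro p ⟨h1, _⟩ ⟨h2, _⟩
  apply hkk'
  funext i
  have h3 := h1 i (Set.mem_univ i)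
  have h4 := h2 i (Set.mem_univ i)
  have h5 : ⌊p.1 i⌋ = k i := Int.floor_eq_iff.2 ⟨h3.1, h3.2⟩
  have h6 : ⌊p.1 i⌋ = k' i := Int.floor_eq_iff.2 ⟨h4.1, h4.2⟩
  rw [← h5, h6]

theorem h4a_S_zero : (h4a_S r 0 : Set ((Fin r → ℝ) × ℝ)) =ᵐ[volume] Icc 0 1 ×ˢ Ioi 0 := by
  have h1 : (Set.pi univ fun _ : Fin r => Ico (0 : ℝ) 1) =ᵐ[volume] Icc 0 1 := by
    have := Measure.univ_pi_Ico_ae_eq_Icc (μ := fun _ : Fin r => (volume : Measure ℝ))
      (f := 0) (g := 1)
    rw [volume_pi]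
    exact this
  have h2 : h4a_S r 0 = (Set.pi univ fun _ : Fin r => Ico (0 : ℝ) 1) ×ˢ Ioi 0 := by
    unfold h4a_S
    simp
  rw [h2, Measure.volume_eq_prod]
  exact Measure.set_prod_ae_eq h1 (Filter.EventuallyEq.rfl)

/-- the translation -/
noncomputable def h4a_t (k : Fin r → ℤ) : (Fin r → ℝ) × ℝ ≃ᵐ (Fin r → ℝ) × ℝ :=
  (MeasurableEquiv.addRight (fun i => (k i : ℝ))).prodCongr (MeasurableEquiv.refl ℝ)

theorem h4a_t_apply (k : Fin r → ℤ) (p : (Fin r → ℝ) × ℝ) :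
    h4a_t k p = (p.1 + fun i => (k i : ℝ), p.2) := rfl

theorem h4a_t_mp (k : Fin r → ℤ) : MeasurePreserving (h4a_t k) volume volume := by
  have h1 : MeasurePreserving (fun x : Fin r → ℝ => x + fun i => (k i : ℝ)) volume volume :=
    measurePreserving_add_right volume _
  have h2 := h1.prod (MeasurePreserving.id (volume : Measure ℝ))
  exact h2

theorem h4a_t_pre (k : Fin r → ℤ) : h4a_t k ⁻¹' h4a_S r k = h4a_S r 0 := by
  ext p
  rw [Set.mem_preimage, h4a_t_apply]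
  simp only [h4a_S, Set.mem_prod, Set.mem_pi, Set.mem_univ, true_implies, Set.mem_Ico, Pi.add_apply,
    Pi.zero_apply, Int.cast_zero, zero_add]
  constructor
  · rintro ⟨h1, h2⟩
    exact ⟨fun i => ⟨by linarith [(h1 i).1], by linarith [(h1 i).2]⟩, h2⟩
  · rintro ⟨h1, h2⟩
    exact ⟨fun i => ⟨by linarith [(h1 i).1], by linarith [(h1 i).2]⟩, h2⟩

theorem tiling (E : Fin r → Fin (r + 1) → ℝ) (hE : ∀ i j, 0 < E i j) (hp : ∀ i, ∏ j, E i j = 1)
    (hJ : 0 < JE E) (f : (Fin (r + 1) → ℝ) → ℂ) (hf : IntegrableOn f (qd (r + 1))) :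
    (∀ k : Fin r → ℤ, IntegrableOn (fun p : (Fin r → ℝ) × ℝ =>
      (p.2 : ℂ) ^ r * f (p.2 • Ex E (p.1 + fun i => (k i : ℝ)))) (Icc 0 1 ×ˢ Ioi 0)) ∧
    HasSum (fun k : Fin r → ℤ => ∫ p in (Icc 0 1 ×ˢ Ioi 0 : Set ((Fin r → ℝ) × ℝ)),
      (p.2 : ℂ) ^ r * f (p.2 • Ex E (p.1 + fun i => (k i : ℝ))))
      ((JE E : ℂ)⁻¹ * ∫ y in qd (r + 1), f y) := by
  obtain ⟨hint, hval⟩ := cv E hE hp hJ f hf
  set g : (Fin r → ℝ) × ℝ → ℂ := fun p => (p.2 : ℂ) ^ r * f (p.2 • Ex E p.1) with hg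
  have hJ0 : (JE E : ℂ) ≠ 0 := by exact_mod_cast hJ.ne'
  rw [hval, ← mul_assoc, inv_mul_cancel₀ hJ0, one_mul]
  have hS0 : volume.restrict (h4a_S r 0) = volume.restrict (Icc 0 1 ×ˢ Ioi 0) :=
    Measure.restrict_congr_set h4a_S_zero
  have h1 : ∀ k : Fin r → ℤ, IntegrableOn g (h4a_S r k) := fun k =>
    hint.mono_set (by
      rw [← h4a_S_union]
      exact Set.subset_iUnion _ k)
  constructor
  · intro k
    have h2 := ((h4a_t_mp k).integrableOn_comp_preimage (h4a_t k).measurableEmbedding).2 (h1 k)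
    rw [h4a_t_pre, IntegrableOn, hS0] at h2
    exact h2
  · have h2 := hasSum_integral_iUnion (f := g) (μ := volume) h4a_S_meas h4a_S_disj
      (by rw [h4a_S_union]; exact hint)
    rw [h4a_S_union] at h2
    refine h2.congr_fun ?_
    intro k
    have h3 := (h4a_t_mp k).setIntegral_preimage_emb (h4a_t k).measurableEmbedding g (h4a_S r k)
    rw [h4a_t_pre, hS0] at h3
    exact h3

end NG
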