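import Pool.Agent.MP_9ab903_nt.NG.H4a
import Pool.Agent.MP_9ab903_nt.NG.G10

/-! ## [NG-H4b] abstract unfolding

As `NAB/B4d.lean` (`unfold_abs`). `TI w x L E (s-1) = ∫_{[0,1]^r × (0,∞)} σ^r (σ^(r+1))^(s-1) ∑_m ..`, `m = φ (i, k)`:
the term is `χ i conj(∏_j a i j) f_i(σ Ex E (t + k))`, `f_i(y) = (∏ y_j)^(s-1) exp(-π ∑ y_j |a i j|²)` (`∏_j ε l j = 1`, `‖ε l j‖² = E l j`,
`∏_j (σ Ex E t)_j = σ^(r+1)`). Exchange of sum and integral: absolute convergence from `tiling`, `mellin_n` for `s.re` and `hsum`. -/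

set_option autoImplicit false

open scoped ComplexConjugate Matrix
open MeasureTheory Set Filter Topology

namespace NG

open CM27 NAB

variable {r : ℕ}

theorem h4b_integrable_tsum {α : Type*} [MeasurableSpace α] {μ : Measure α} {ι : Type*}
    [Countable ι] {F : ι → α → ℂ} (hF : ∀ i, Integrable (F i) μ)
    (hs : Summable fun i => ∫ a, ‖F i a‖ ∂μ) : Integrable (fun a => ∑' i, F i a) μ := by
  refine ⟨AEStronglyMeasurable.tsum fun i => (hF i).1, ?_⟩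
  have h1 : ∀ i, ∫⁻ a, ‖F i a‖ₑ ∂μ = ENNReal.ofReal (∫ a, ‖F i a‖ ∂μ) := fun i =>
    (ofReal_integral_norm_eq_lintegral_enorm (hF i)).symm
  have h2 : ∑' i, ∫⁻ a, ‖F i a‖ₑ ∂μ ≠ ⊤ := by
    simp only [h1]
    rw [← ENNReal.ofReal_tsum_of_nonneg (fun i => integral_nonneg fun a => norm_nonneg _) hs]
    exact ENNReal.ofReal_ne_top
  rw [← lintegral_tsum fun i => (hF i).1.enorm] at h2
  refine lt_of_le_of_lt (lintegral_mono fun a => ?_) (lt_top_iff_ne_top.2 h2)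
  exact enorm_tsum_le_tsum_enorm

/-- the integrand -/
noncomputable def h4b_f (n : ℕ) (s : ℂ) (χ : ℂ) (a : Fin n → ℂ) (y : Fin n → ℝ) : ℂ :=
  ((∏ j, y j : ℝ) : ℂ) ^ (s - 1) * (χ * conj (∏ j, a j) *
    ((Real.exp (-(Real.pi * ∑ j, y j * ‖a j‖ ^ 2)) : ℝ) : ℂ))

theorem h4b_f_eq (n : ℕ) (s χ : ℂ) (a : Fin n → ℂ) : h4b_f n s χ a = fun y =>
    (χ * conj (∏ j, a j)) * (((∏ j, y j : ℝ) : ℂ) ^ (s - 1) *
      ((Real.exp (-(Real.pi * ∑ j, y j * ‖a j‖ ^ 2)) : ℝ) : ℂ)) := by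
  funext y
  rw [h4b_f]
  ring

theorem h4b_int (n : ℕ) (s : ℂ) (hs : 0 < s.re) (χ : ℂ) (a : Fin n → ℂ) (ha : ∀ j, a j ≠ 0) :
    IntegrableOn (h4b_f n s χ a) (qd n) := by
  rw [h4b_f_eq]
  exact (mellin_n n (fun j => ‖a j‖ ^ 2) (fun j => by have := ha j; positivity) s hs).1.const_mul _

theorem h4b_val (n : ℕ) (s : ℂ) (hs : 0 < s.re) (χ : ℂ) (a : Fin n → ℂ) (ha : ∀ j, a j ≠ 0) :
    ∫ y in qd n, h4b_f n s χ a y = χ * conj (∏ j, a j) *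
      (Complex.Gamma s ^ n * (Real.pi : ℂ) ^ (-(n * s)) * ((∏ j, ‖a j‖ ^ 2 : ℝ) : ℂ) ^ (-s)) := by
  rw [h4b_f_eq, integral_const_mul,
    (mellin_n n (fun j => ‖a j‖ ^ 2) (fun j => by have := ha j; positivity) s hs).2]

theorem h4b_norm (n : ℕ) (s : ℂ) (χ : ℂ) (hχ : ‖χ‖ = 1) (a : Fin n → ℂ) {y : Fin n → ℝ}
    (hy : y ∈ qd n) :
    (‖h4b_f n s χ a y‖ : ℂ) = (‖∏ j, a j‖ : ℂ) * (((∏ j, y j : ℝ) : ℂ) ^ ((s.re : ℂ) - 1) *
      ((Real.exp (-(Real.pi * ∑ j, y j * ‖a j‖ ^ 2)) : ℝ) : ℂ)) := by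
  have h1 : 0 < ∏ j, y j := Finset.prod_pos fun j _ => hy j
  have h2 : ((∏ j, y j : ℝ) : ℂ) ^ ((s.re : ℂ) - 1) = (((∏ j, y j) ^ (s.re - 1) : ℝ) : ℂ) := by
    rw [Complex.ofReal_cpow h1.le]
    push_cast
    rfl
  rw [h4b_f, norm_mul, norm_mul, norm_mul, hχ, one_mul, RCLike.norm_conj,
    Complex.norm_cpow_eq_rpow_re_of_pos h1, Complex.norm_real, Real.norm_eq_abs,
    abs_of_pos (Real.exp_pos _), Complex.sub_re, Complex.one_re, h2]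
  push_cast
  ring

theorem h4b_qd_meas (n : ℕ) : MeasurableSet (qd n) := by
  have : qd n = ⋂ i, {a : Fin n → ℝ | 0 < a i} := by
    ext a
    simp [qd]
  rw [this]
  exact MeasurableSet.iInter fun i => measurableSet_lt measurable_const (measurable_pi_apply i)

theorem h4b_norm_val (n : ℕ) (s : ℂ) (hs : 0 < s.re) (χ : ℂ) (hχ : ‖χ‖ = 1) (a : Fin n → ℂ)
    (ha : ∀ j, a j ≠ 0) :
    ∫ y in qd n, (‖h4b_f n s χ a y‖ : ℂ) =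
      ((Real.Gamma s.re ^ n * Real.pi ^ (-(n * s.re)) * (∏ j, ‖a j‖) ^ (1 - 2 * s.re) : ℝ) : ℂ) := by
  rw [setIntegral_congr_fun (h4b_qd_meas n) (fun y hy => h4b_norm n s χ hχ a hy),
    integral_const_mul,
    (mellin_n n (fun j => ‖a j‖ ^ 2) (fun j => by have := ha j; positivity) (s.re : ℂ)
      (by rw [Complex.ofReal_re]; exact hs)).2]
  have hna : 0 < ∏ j, ‖a j‖ := Finset.prod_pos fun j _ => norm_pos_iff.2 (ha j)
  have e1 : ((∏ j, ‖a j‖ ^ 2 : ℝ) : ℂ) ^ (-(s.re : ℂ)) =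
      (((∏ j, ‖a j‖) ^ (-(2 * s.re)) : ℝ) : ℂ) := by
    rw [← Complex.ofReal_neg, ← Complex.ofReal_cpow (by positivity)]
    congr 1
    rw [Finset.prod_pow, ← Real.rpow_natCast (∏ j, ‖a j‖) 2, ← Real.rpow_mul hna.le]
    congr 1
    push_cast
    ring
  have e2 : (Real.pi : ℂ) ^ (-(n * (s.re : ℂ))) = ((Real.pi ^ (-(n * s.re)) : ℝ) : ℂ) := by
    rw [Complex.ofReal_cpow Real.pi_pos.le]
    push_cast
    rfl
  have e3 : (∏ j, ‖a j‖) ^ (1 - 2 * s.re) = (∏ j, ‖a j‖) * (∏ j, ‖a j‖) ^ (-(2 * s.re)) := by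
    rw [sub_eq_add_neg, Real.rpow_add hna, Real.rpow_one]
  rw [e1, e2, e3, Complex.Gamma_ofReal, norm_prod]
  push_cast
  ring

/-- `∏_j (σ Ex E t)_j = σ^(r+1)` -/
theorem h4b_prod_Ex (E : Fin r → Fin (r + 1) → ℝ) (hE : ∀ i j, 0 < E i j)
    (hp : ∀ i, ∏ j, E i j = 1) (σ : ℝ) (t : Fin r → ℝ) :
    ∏ j, (σ • Ex E t) j = σ ^ (r + 1) := by
  have h1 : ∏ j, Ex E t j = 1 := by
    simp only [Ex]
    rw [Finset.prod_comm]
    refine Finset.prod_eq_one fun i _ => ?_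
    rw [Real.finset_prod_rpow _ _ (fun j _ => (hE i j).le), hp, Real.one_rpow]
  simp only [Pi.smul_apply, smul_eq_mul, Finset.prod_mul_distrib, Finset.prod_const, h1, mul_one]
  simp

theorem h4b_Ex_add (E : Fin r → Fin (r + 1) → ℝ) (hE : ∀ i j, 0 < E i j) (t : Fin r → ℝ)
    (k : Fin r → ℤ) (j : Fin (r + 1)) :
    Ex E (t + fun i => (k i : ℝ)) j = Ex E t j * ∏ i, E i j ^ k i := by
  simp only [Ex, Pi.add_apply]
  rw [← Finset.prod_mul_distrib]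
  refine Finset.prod_congr rfl fun i _ => ?_
  rw [Real.rpow_add (hE i j), Real.rpow_intCast]

section main

variable (w x : Fin (r + 1) → ℂ) (L : Mc (r + 1))
    (ε : Fin r → Fin (r + 1) → ℂ) (hε : ∀ i, ∏ j, ε i j = 1)
    (hJ : 0 < JE (fun i j => ‖ε i j‖ ^ 2)) {ι : Type} (a : ι → Fin (r + 1) → ℂ)
    (ha : ∀ i j, a i j ≠ 0) (χ : ι → ℂ) (φ : ι × (Fin r → ℤ) ≃ (Fin (r + 1) → Eis))

include hε in
theorem h4b_ne (i : Fin r) (j : Fin (r + 1)) : ε i j ≠ 0 := by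
  intro h
  have h1 := hε i
  rw [Finset.prod_eq_zero (Finset.mem_univ j) h] at h1
  exact zero_ne_one h1

include hε in
theorem h4b_E (i : Fin r) (j : Fin (r + 1)) : 0 < ‖ε i j‖ ^ 2 := by
  have := h4b_ne ε hε i j
  positivity

include hε in
theorem h4b_Ep (i : Fin r) : ∏ j, ‖ε i j‖ ^ 2 = 1 := by
  rw [Finset.prod_pow, ← norm_prod, hε, norm_one, one_pow]

include hε in
theorem h4b_term (s : ℂ) (i : ι) (k : Fin r → ℤ) (v : Fin (r + 1) → ℂ)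
    (hv : ∀ j, L j ⬝ᵥ v = (∏ l, ε l j ^ k l) * a i j) (t : Fin r → ℝ) {σ : ℝ} (hσ : 0 < σ) :
    (σ : ℂ) ^ r * h4b_f (r + 1) s (χ i) (a i)
        (σ • Ex (fun i j => ‖ε i j‖ ^ 2) (t + fun i => (k i : ℝ))) =
      (σ : ℂ) ^ ((r + 1 : ℂ) * (s - 1) + r) * (χ i * (∏ j, conj (L j ⬝ᵥ v)) *
        ((Real.exp (-(Real.pi * hq (∑ j, (((σ • Ex (fun i j => ‖ε i j‖ ^ 2) t) j : ℝ) : ℂ) •
          sq (L j)) v)) : ℝ) : ℂ)) := by
  have hσ0 : (σ : ℂ) ≠ 0 := by exact_mod_cast hσ.ne'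
  have hsum : ∑ j, (σ • Ex (fun i j => ‖ε i j‖ ^ 2) (t + fun i => (k i : ℝ))) j * ‖a i j‖ ^ 2 =
      hq (∑ j, (((σ • Ex (fun i j => ‖ε i j‖ ^ 2) t) j : ℝ) : ℂ) • sq (L j)) v := by
    rw [hq_sum]
    refine Finset.sum_congr rfl fun j _ => ?_
    rw [hq_sq, hv, Pi.smul_apply, Pi.smul_apply, smul_eq_mul, smul_eq_mul,
      h4b_Ex_add _ (h4b_E ε hε), norm_mul, mul_pow, norm_prod, ← Finset.prod_pow]
    have h1 : ∀ l, ‖ε l j ^ k l‖ ^ 2 = (‖ε l j‖ ^ 2) ^ k l := by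
      intro l
      rw [norm_zpow, ← zpow_natCast, ← zpow_natCast, ← zpow_mul, ← zpow_mul, mul_comm]
    simp only [h1]
    ring
  have hprod : ∏ j, conj (L j ⬝ᵥ v) = conj (∏ j, a i j) := by
    rw [← map_prod]
    congr 1
    simp only [hv]
    rw [Finset.prod_mul_distrib, Finset.prod_comm]
    have h1 : ∏ l, ∏ j, ε l j ^ k l = 1 := by
      refine Finset.prod_eq_one fun l _ => ?_
      rw [Finset.prod_zpow, hε, one_zpow]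
    rw [h1, one_mul]
  rw [h4b_f, h4b_prod_Ex _ (h4b_E ε hε) (h4b_Ep ε hε), hsum, hprod]
  have hpow : (σ : ℂ) ^ ((r + 1 : ℂ) * (s - 1) + r) = (σ : ℂ) ^ r *
      ((σ ^ (r + 1) : ℝ) : ℂ) ^ (s - 1) := by
    rw [Complex.cpow_add _ _ hσ0, Complex.cpow_natCast, mul_comm]
    congr 1
    have hσr : (0 : ℝ) < σ ^ (r + 1) := by positivity
    rw [Complex.cpow_def_of_ne_zero hσ0,
      Complex.cpow_def_of_ne_zero (by exact_mod_cast hσr.ne'), ← Complex.ofReal_log hσ.le,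
      ← Complex.ofReal_log hσr.le, Real.log_pow]
    congr 1
    push_cast
    ring
  rw [hpow]
  ring


include hε hJ ha in
theorem h4b_hasSum (s : ℂ) (hs : 0 < s.re) (i : ι) :
    (∀ k : Fin r → ℤ, IntegrableOn (fun p : (Fin r → ℝ) × ℝ => (p.2 : ℂ) ^ r *
      h4b_f (r + 1) s (χ i) (a i) (p.2 • Ex (fun i j => ‖ε i j‖ ^ 2)
        (p.1 + fun i => (k i : ℝ)))) (Icc 0 1 ×ˢ Ioi 0)) ∧
    HasSum (fun k : Fin r → ℤ => ∫ p in (Icc 0 1 ×ˢ Ioi 0 : Set ((Fin r → ℝ) × ℝ)),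
      (p.2 : ℂ) ^ r * h4b_f (r + 1) s (χ i) (a i) (p.2 • Ex (fun i j => ‖ε i j‖ ^ 2)
        (p.1 + fun i => (k i : ℝ))))
      ((JE (fun i j => ‖ε i j‖ ^ 2) : ℂ)⁻¹ * (χ i * conj (∏ j, a i j) *
        (Complex.Gamma s ^ (r + 1) * (Real.pi : ℂ) ^ (-((r + 1 : ℕ) * s)) *
          ((∏ j, ‖a i j‖ ^ 2 : ℝ) : ℂ) ^ (-s)))) := by
  have h := tiling _ (h4b_E ε hε) (h4b_Ep ε hε) hJ _
    (h4b_int (r + 1) s hs (χ i) (a i) (ha i))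
  rw [h4b_val (r + 1) s hs (χ i) (a i) (ha i)] at h
  exact h

include hε hJ ha in
theorem h4b_norm_hasSum (s : ℂ) (hs : 0 < s.re) (i : ι) (hχ : ‖χ i‖ = 1) :
    HasSum (fun k : Fin r → ℤ => ∫ p in (Icc 0 1 ×ˢ Ioi 0 : Set ((Fin r → ℝ) × ℝ)),
      ‖(p.2 : ℂ) ^ r * h4b_f (r + 1) s (χ i) (a i) (p.2 • Ex (fun i j => ‖ε i j‖ ^ 2)
        (p.1 + fun i => (k i : ℝ)))‖)
      ((JE (fun i j => ‖ε i j‖ ^ 2))⁻¹ * (Real.Gamma s.re ^ (r + 1) *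
        Real.pi ^ (-((r + 1 : ℕ) * s.re)) * (∏ j, ‖a i j‖) ^ (1 - 2 * s.re))) := by
  have hint : IntegrableOn (fun y => (‖h4b_f (r + 1) s (χ i) (a i) y‖ : ℂ)) (qd (r + 1)) :=
    (h4b_int (r + 1) s hs (χ i) (a i) (ha i)).norm.ofReal
  have h := (tiling _ (h4b_E ε hε) (h4b_Ep ε hε) hJ _ hint).2
  rw [h4b_norm_val (r + 1) s hs (χ i) hχ (a i) (ha i)] at h
  have hmeas : MeasurableSet (Icc 0 1 ×ˢ Ioi 0 : Set ((Fin r → ℝ) × ℝ)) :=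
    measurableSet_Icc.prod measurableSet_Ioi
  have h2 : (fun k : Fin r → ℤ => ∫ p in (Icc 0 1 ×ˢ Ioi 0 : Set ((Fin r → ℝ) × ℝ)),
      (p.2 : ℂ) ^ r * (‖h4b_f (r + 1) s (χ i) (a i) (p.2 • Ex (fun i j => ‖ε i j‖ ^ 2)
        (p.1 + fun i => (k i : ℝ)))‖ : ℂ)) =
      fun k : Fin r → ℤ => ((∫ p in (Icc 0 1 ×ˢ Ioi 0 : Set ((Fin r → ℝ) × ℝ)),
      ‖(p.2 : ℂ) ^ r * h4b_f (r + 1) s (χ i) (a i) (p.2 • Ex (fun i j => ‖ε i j‖ ^ 2)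
        (p.1 + fun i => (k i : ℝ)))‖ : ℝ) : ℂ) := by
    funext k
    refine Eq.trans (setIntegral_congr_fun (g := fun p : (Fin r → ℝ) × ℝ =>
      ((‖(p.2 : ℂ) ^ r * h4b_f (r + 1) s (χ i) (a i) (p.2 • Ex (fun i j => ‖ε i j‖ ^ 2)
        (p.1 + fun i => (k i : ℝ)))‖ : ℝ) : ℂ)) hmeas fun p hp => ?_) integral_ofReal
    have hp2 : (0 : ℝ) < p.2 := hp.2
    simp only [norm_mul, norm_pow, Complex.norm_real, Real.norm_of_nonneg hp2.le]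
    push_cast
    rfl
  rw [h2] at h
  have h3 : (JE (fun i j => ‖ε i j‖ ^ 2) : ℂ)⁻¹ * ((Real.Gamma s.re ^ (r + 1) *
        Real.pi ^ (-((r + 1 : ℕ) * s.re)) * (∏ j, ‖a i j‖) ^ (1 - 2 * s.re) : ℝ) : ℂ) =
      (((JE (fun i j => ‖ε i j‖ ^ 2))⁻¹ * (Real.Gamma s.re ^ (r + 1) *
        Real.pi ^ (-((r + 1 : ℕ) * s.re)) * (∏ j, ‖a i j‖) ^ (1 - 2 * s.re)) : ℝ) : ℂ) := by
    push_cast
    ring
  rw [h3] at h
  exact Complex.hasSum_ofReal.1 h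

end main

theorem unfold_abs (w x : Fin (r + 1) → ℂ) (L : Mc (r + 1)) (hL : L.det ≠ 0)
    (ε : Fin r → Fin (r + 1) → ℂ) (hε : ∀ i, ∏ j, ε i j = 1)
    (hJ : 0 < JE (fun i j => ‖ε i j‖ ^ 2)) {ι : Type} (a : ι → Fin (r + 1) → ℂ)
    (ha : ∀ i j, a i j ≠ 0) (χ : ι → ℂ) (φ : ι × (Fin r → ℤ) ≃ (Fin (r + 1) → Eis))
    (h : ∀ i k j, L j ⬝ᵥ (x + em (φ (i, k))) = (∏ l, ε l j ^ k l) * a i j)
    (hc : ∀ i k, ch w (x + em (φ (i, k))) = χ i) (s : ℂ) (hs : 0 < s.re)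
    (hsum : Summable fun i => (∏ j, ‖a i j‖) ^ (1 - 2 * s.re)) :
    HasSum (fun i => χ i * conj (∏ j, a i j) * ((∏ j, ‖a i j‖ ^ 2 : ℝ) : ℂ) ^ (-s))
      ((Real.pi : ℂ) ^ ((r + 1 : ℂ) * s) * (Complex.Gamma s ^ (r + 1))⁻¹
        * (JE (fun i j => ‖ε i j‖ ^ 2) : ℂ) * TI w x L (fun i j => ‖ε i j‖ ^ 2) (s - 1)) := by
  have hcount0 : Countable Eis := by
    have hinj : Function.Injective (fun z : Eis => (z.re, z.im)) := by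
      intro z z' h
      simp only [Prod.mk.injEq] at h
      exact QuadraticAlgebra.ext h.1 h.2
    exact hinj.countable
  have hcount : Countable (Fin (r + 1) → Eis) := inferInstance
  have : Countable (ι × (Fin r → ℤ)) := φ.injective.countable
  have hχ : ∀ i, ‖χ i‖ = 1 := fun i => by rw [← hc i 0, norm_ch]
  set S : Set ((Fin r → ℝ) × ℝ) := Icc 0 1 ×ˢ Ioi 0 with hS
  have hmeas : MeasurableSet S := measurableSet_Icc.prod measurableSet_Ioi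
  set F : ι × (Fin r → ℤ) → (Fin r → ℝ) × ℝ → ℂ := fun q p => (p.2 : ℂ) ^ r *
      h4b_f (r + 1) s (χ q.1) (a q.1) (p.2 • Ex (fun i j => ‖ε i j‖ ^ 2)
        (p.1 + fun i => (q.2 i : ℝ))) with hF
  have hint : ∀ q, Integrable (F q) (volume.restrict S) := fun q =>
    (h4b_hasSum ε hε hJ a ha χ s hs q.1).1 q.2
  have hns : Summable fun q => ∫ p in S, ‖F q p‖ := by
    rw [summable_prod_of_nonneg (fun q => integral_nonneg fun p => norm_nonneg _)]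
    refine ⟨fun i => (h4b_norm_hasSum ε hε hJ a ha χ s hs i (hχ i)).summable, ?_⟩
    have h3 : (fun i => ∑' k : Fin r → ℤ, ∫ p in S, ‖F (i, k) p‖) = fun i =>
        (JE (fun i j => ‖ε i j‖ ^ 2))⁻¹ * (Real.Gamma s.re ^ (r + 1) *
        Real.pi ^ (-((r + 1 : ℕ) * s.re)) * (∏ j, ‖a i j‖) ^ (1 - 2 * s.re)) := by
      funext i
      exact (h4b_norm_hasSum ε hε hJ a ha χ s hs i (hχ i)).tsum_eq
    rw [h3]
    exact (hsum.mul_left _).mul_left _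
  have hmain := hasSum_integral_of_summable_integral_norm hint hns
  have hI : Integrable (fun p => ∑' q, F q p) (volume.restrict S) :=
    h4b_integrable_tsum hint hns
  have hZ : ∫ p in S, ∑' q, F q p = TI w x L (fun i j => ‖ε i j‖ ^ 2) (s - 1) := by
    have h1 : ∫ p in S, ∑' q, F q p =
        ∫ t in Icc (0 : Fin r → ℝ) 1, ∫ σ in Ioi (0 : ℝ), ∑' q, F q (t, σ) :=
      setIntegral_prod (fun p => ∑' q, F q p) hI
    rw [h1, TI]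
    congr 1
    funext t
    refine setIntegral_congr_fun measurableSet_Ioi fun σ hσ => ?_
    have hσ' : (0 : ℝ) < σ := hσ
    have h4 : ∀ q : ι × (Fin r → ℤ), F q (t, σ) =
        (σ : ℂ) ^ ((r + 1 : ℂ) * (s - 1) + r) * (ch w (x + em (φ q)) *
        (∏ j, conj (L j ⬝ᵥ (x + em (φ q)))) *
        ((Real.exp (-(Real.pi * hq (∑ j, (((σ • Ex (fun i j => ‖ε i j‖ ^ 2) t) j : ℝ) : ℂ) •
          sq (L j)) (x + em (φ q)))) : ℝ) : ℂ)) := by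
      intro q
      have h5 := h4b_term L ε hε a χ s q.1 q.2 (x + em (φ q)) (h q.1 q.2) t hσ'
      rw [← hc q.1 q.2] at h5
      simp only [hF]
      rw [← hc q.1 q.2]
      exact h5
    simp only [h4]
    rw [tsum_mul_left, ThD, th]
    congr 1
    exact φ.tsum_eq (fun m : Fin (r + 1) → Eis => ch w (x + em m) *
      (∏ j, conj (L j ⬝ᵥ (x + em m))) *
      ((Real.exp (-(Real.pi * hq (∑ j, (((σ • Ex (fun i j => ‖ε i j‖ ^ 2) t) j : ℝ) : ℂ) •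
        sq (L j)) (x + em m))) : ℝ) : ℂ))
  rw [hZ] at hmain
  have h5 := hmain.prod_fiberwise (fun i => (h4b_hasSum ε hε hJ a ha χ s hs i).2)
  have h6 := h5.mul_left ((Real.pi : ℂ) ^ ((r + 1 : ℂ) * s) * (Complex.Gamma s ^ (r + 1))⁻¹
        * (JE (fun i j => ‖ε i j‖ ^ 2) : ℂ))
  have hG : Complex.Gamma s ^ (r + 1) ≠ 0 := pow_ne_zero _ (Complex.Gamma_ne_zero_of_re_pos hs)
  have hJ0 : (JE (fun i j => ‖ε i j‖ ^ 2) : ℂ) ≠ 0 := by exact_mod_cast hJ.ne'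
  have hpi : (Real.pi : ℂ) ^ ((r + 1 : ℂ) * s) * (Real.pi : ℂ) ^ (-((r + 1 : ℕ) * s)) = 1 := by
    rw [← Complex.cpow_add _ _ (by exact_mod_cast Real.pi_pos.ne')]
    push_cast
    rw [add_neg_cancel, Complex.cpow_zero]
  have hkey : (fun i => χ i * conj (∏ j, a i j) * ((∏ j, ‖a i j‖ ^ 2 : ℝ) : ℂ) ^ (-s)) =
      fun i => (Real.pi : ℂ) ^ ((r + 1 : ℂ) * s) * (Complex.Gamma s ^ (r + 1))⁻¹
        * (JE (fun i j => ‖ε i j‖ ^ 2) : ℂ) * ((JE (fun i j => ‖ε i j‖ ^ 2) : ℂ)⁻¹ *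
        (χ i * conj (∏ j, a i j) *
        (Complex.Gamma s ^ (r + 1) * (Real.pi : ℂ) ^ (-((r + 1 : ℕ) * s)) *
          ((∏ j, ‖a i j‖ ^ 2 : ℝ) : ℂ) ^ (-s)))) := by
   funext i
   have h8 : (Real.pi : ℂ) ^ ((r + 1 : ℂ) * s) * (Complex.Gamma s ^ (r + 1))⁻¹
        * (JE (fun i j => ‖ε i j‖ ^ 2) : ℂ) * ((JE (fun i j => ‖ε i j‖ ^ 2) : ℂ)⁻¹ *
        (χ i * conj (∏ j, a i j) *
        (Complex.Gamma s ^ (r + 1) * (Real.pi : ℂ) ^ (-((r + 1 : ℕ) * s)) *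
          ((∏ j, ‖a i j‖ ^ 2 : ℝ) : ℂ) ^ (-s)))) =
      ((Real.pi : ℂ) ^ ((r + 1 : ℂ) * s) * (Real.pi : ℂ) ^ (-((r + 1 : ℕ) * s))) *
      ((Complex.Gamma s ^ (r + 1))⁻¹ * Complex.Gamma s ^ (r + 1)) *
      ((JE (fun i j => ‖ε i j‖ ^ 2) : ℂ) * (JE (fun i j => ‖ε i j‖ ^ 2) : ℂ)⁻¹) *
      (χ i * conj (∏ j, a i j) * ((∏ j, ‖a i j‖ ^ 2 : ℝ) : ℂ) ^ (-s)) := by ring
   rw [h8, hpi, inv_mul_cancel₀ hG, mul_inv_cancel₀ hJ0, one_mul, one_mul, one_mul]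
  rw [hkey]
  exact h6

end NG
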