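import Pool.Agent.MP_9ab903_nt.NG.H0
import Pool.Agent.MP_9ab903_nt.NG.H4b
import Pool.Agent.MP_9ab903_nt.NG.H4c
import Pool.Agent.MP_9ab903_nt.NAB.B4b

/-! ## [NG-H4d] unfolding for an ideal class

As `NAB/B4b.lean` (`unfold`): `unfold_abs` with `ι = Cl × Fin q`, `a (I, j) = (s_i (η_j G_I))_i`, `φ` = `T_equiv` followed by the inverse of
`LD.bij u`; `∏_i s_i (η_j G_I) = ∏_i s_i (G_I) = emb (psi I * psi b)` (`s_unit`, `s_psi`, multiplicativity of `psi`), `∏ |..|² = absNorm I absNorm b`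
(`s_absNorm`); `IsB.pos`; summability: `summable_norm` (BV2) with exponent `s.re - 1/2 > 1`, the factor `Fin q` is finite. -/

set_option autoImplicit false

open NumberField IsDedekindDomain MeasureTheory Set
open CM27 CMT CF NAB
open scoped ComplexConjugate Classical Matrix

namespace NG

variable {r : ℕ} {F : IntermediateField ℚ ℂ} [NumberField F] {hw : w ∈ F}

theorem h4d_ez (s : F →+* ℂ) (e : Fin r → (𝓞 F)ˣ) (k : Fin r → ℤ) :
    s (((ez F e k : (𝓞 F)ˣ) : 𝓞 F) : F) = ∏ l, s ((e l : 𝓞 F) : F) ^ k l := by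
  have h1 : (Units.map ((s.comp (algebraMap (𝓞 F) F) : 𝓞 F →+* ℂ) : 𝓞 F →* ℂ)) (ez F e k)
      = ∏ l, (Units.map ((s.comp (algebraMap (𝓞 F) F) : 𝓞 F →+* ℂ) : 𝓞 F →* ℂ)) (e l) ^ k l := by
    rw [ez, map_prod]
    exact Finset.prod_congr rfl fun l _ => map_zpow _ _ _
  have h2 := congrArg (fun x : ℂˣ => (x : ℂ)) h1
  simp only [Units.coe_prod, Units.val_zpow_eq_zpow_val] at h2
  exact h2

theorem h4d_unit_ne (s : F →+* ℂ) (e : (𝓞 F)ˣ) : s ((e : 𝓞 F) : F) ≠ 0 := by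
  rw [map_ne_zero]
  intro h
  exact e.ne_zero (by exact_mod_cast h)

theorem h4d_dvd3 (H : HD F hw r) (p : Fin H.q) : (3 : 𝓞 F) ∣ ((H.η p : (𝓞 F)ˣ) : 𝓞 F) - 1 := by
  have h1 : ((H.η p : (𝓞 F)ˣ) : 𝓞 F) - 1 ∈ Ideal.span {H.m} := H.hη.mem p
  exact H.h3.trans (Ideal.mem_span_singleton.1 h1)

theorem h4d_prod (H : HD F hw r) (p : Fin H.q) (g : 𝓞 F) :
    ∏ j, H.s j (((((H.η p : (𝓞 F)ˣ) : 𝓞 F) * g : 𝓞 F)) : F) = ∏ j, H.s j (g : F) := by
  have h1 : ∀ j, H.s j (((((H.η p : (𝓞 F)ˣ) : 𝓞 F) * g : 𝓞 F)) : F) =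
      H.s j (((H.η p : (𝓞 F)ˣ) : 𝓞 F) : F) * H.s j (g : F) := by
    intro j
    rw [← map_mul]
    rfl
  rw [Finset.prod_congr rfl fun j _ => h1 j, Finset.prod_mul_distrib,
    s_unit F hw H.s H.hs (H.η p) (h4d_dvd3 H p), one_mul]

theorem h4d_prod_norm (H : HD F hw r) (p : Fin H.q) (g : 𝓞 F) :
    ∏ j, ‖H.s j (((((H.η p : (𝓞 F)ˣ) : 𝓞 F) * g : 𝓞 F)) : F)‖ = ∏ j, ‖H.s j (g : F)‖ := by
  rw [← norm_prod, ← norm_prod, h4d_prod]

theorem h4d_summable (H : HD F hw r) (b : Ideal (𝓞 F)) (hb0 : b ≠ 0) (u : Eis)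
    (G : Cl F H.m b (eF F hw u) → 𝓞 F)
    (hG : ∀ I, G I ≠ 0 ∧ H.m ∣ G I - eF F hw u ∧ (I : Ideal (𝓞 F)) * b = Ideal.span {G I})
    (s : ℂ) (hs : 3 / 2 < s.re) :
    Summable fun I : Cl F H.m b (eF F hw u) => (∏ j, ‖H.s j (G I : F)‖) ^ (1 - 2 * s.re) := by
  have hNc : Ideal.absNorm b ≠ 0 := fun h => hb0 (Ideal.absNorm_eq_zero_iff.1 h)
  have hNcR : (0 : ℝ) < Ideal.absNorm b := by exact_mod_cast Nat.pos_of_ne_zero hNc
  have hNI : ∀ I : Cl F H.m b (eF F hw u), (0 : ℝ) < Ideal.absNorm (I : Ideal (𝓞 F)) := by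
    intro I
    have h1 : Ideal.absNorm (I : Ideal (𝓞 F)) ≠ 0 :=
      fun h => I.2.1 (Ideal.absNorm_eq_zero_iff.1 h)
    exact_mod_cast Nat.pos_of_ne_zero h1
  have hnorm : ∀ I : Cl F H.m b (eF F hw u),
      (Ideal.absNorm (I : Ideal (𝓞 F)) : ℝ) * Ideal.absNorm b =
      (∏ j, ‖H.s j (G I : F)‖) ^ 2 := by
    intro I
    obtain ⟨g1, g2, g3⟩ := hG I
    rw [← s_absNorm F hw H.s H.hs (G I), ← g3, map_mul]
    push_cast
    rfl
  have h1 := (summable_norm F (s.re - 1 / 2) (by linarith)).comp_injective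
    (Subtype.val_injective (p := fun I => I ∈ Cl F H.m b (eF F hw u)))
  have h2 := h1.mul_right ((Ideal.absNorm b : ℝ) ^ (-(s.re - 1 / 2)))
  refine h2.congr ?_
  intro I
  have hpos : 0 ≤ ∏ j, ‖H.s j (G I : F)‖ := Finset.prod_nonneg fun j _ => norm_nonneg _
  rw [Function.comp_apply, if_neg I.2.1, ← Real.mul_rpow (hNI I).le hNcR.le, hnorm I,
    ← Real.rpow_natCast, ← Real.rpow_mul hpos]
  congr 1
  push_cast
  ring

theorem unfold (H : HD F hw r) (b : Ideal (𝓞 F)) (hb0 : b ≠ 0)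
    (hbm : IsCoprime b (Ideal.span {H.m})) (N : ℕ) (D : LD F hw H.s H.m H.e b N H.δ) (u : Eis)
    (hu3 : (3 : Eis) ∣ u - 1) (hu : IsCoprime (eF F hw u) H.m) (v : Fin (r + 1) → ℂ) (χ : 𝓞 F → ℂ)
    (hχ : ∀ g ∈ b, ∀ y, (∀ j, H.s j (g : F) = D.L j ⬝ᵥ y) → ch v y = χ g)
    (hχe : ∀ g ∈ b, ∀ k, χ (((ez F H.e k : (𝓞 F)ˣ) : 𝓞 F) * g) = χ g)
    (G : Cl F H.m b (eF F hw u) → 𝓞 F)
    (hG : ∀ I, G I ≠ 0 ∧ H.m ∣ G I - eF F hw u ∧ (I : Ideal (𝓞 F)) * b = Ideal.span {G I})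
    (s : ℂ) (hs : 3 / 2 < s.re) :
    HasSum (fun p : Cl F H.m b (eF F hw u) × Fin H.q =>
        χ (((H.η p.2 : (𝓞 F)ˣ) : 𝓞 F) * G p.1)
        * conj (emb (psi F (p.1 : Ideal (𝓞 F))) * emb (psi F b))
        * ((Ideal.absNorm (p.1 : Ideal (𝓞 F)) : ℂ) * (Ideal.absNorm b : ℂ)) ^ (-s))
      (AA H D v u s) := by
  obtain ⟨ψ, hψ⟩ := T_equiv F H.s H.m H.h3 _ (inf_le_left.trans inf_le_left) H.e H.he H.q H.η H.hη
    b hb0 (eF F hw u) hu G hG
  obtain ⟨φ, hφ⟩ := D.bij u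
  have hGb : ∀ I, G I ∈ b := by
    intro I
    have h1 : G I ∈ (I : Ideal (𝓞 F)) * b := by
      rw [(hG I).2.2]
      exact Ideal.mem_span_singleton_self _
    exact Ideal.mul_le_right h1
  have hnorm : ∀ I : Cl F H.m b (eF F hw u),
      (Ideal.absNorm (I : Ideal (𝓞 F)) : ℝ) * Ideal.absNorm b =
      (∏ j, ‖H.s j (G I : F)‖) ^ 2 := by
    intro I
    obtain ⟨g1, g2, g3⟩ := hG I
    rw [← s_absNorm F hw H.s H.hs (G I), ← g3, map_mul]
    push_cast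
    rfl
  have hpsi : ∀ I : Cl F H.m b (eF F hw u), emb (psi F (I : Ideal (𝓞 F))) * emb (psi F b) =
      ∏ j, H.s j (G I : F) := by
    intro I
    obtain ⟨g1, g2, g3⟩ := hG I
    rw [← s_psi F hw H.s H.hs (G I) u hu3 (H.h3.trans g2), ← g3, NAB.psi, NAB.psi, NAB.psi, NAB.cm_mul, map_mul]
  have hsumI := h4d_summable H b hb0 u G hG s hs
  have hsum : Summable fun p : Cl F H.m b (eF F hw u) × Fin H.q =>
      (∏ j, ‖H.s j (((((H.η p.2 : (𝓞 F)ˣ) : 𝓞 F) * G p.1 : 𝓞 F)) : F)‖) ^ (1 - 2 * s.re) := by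
    have h1 : (fun p : Cl F H.m b (eF F hw u) × Fin H.q =>
      (∏ j, ‖H.s j (((((H.η p.2 : (𝓞 F)ˣ) : 𝓞 F) * G p.1 : 𝓞 F)) : F)‖) ^ (1 - 2 * s.re)) =
      fun p => (∏ j, ‖H.s j (G p.1 : F)‖) ^ (1 - 2 * s.re) := by
      funext p
      rw [h4d_prod_norm]
    rw [h1, summable_prod_of_nonneg]
    · refine ⟨fun I => (hasSum_fintype _).summable, ?_⟩
      simp only [tsum_fintype, Finset.sum_const, nsmul_eq_mul]
      exact hsumI.mul_left _
    · intro p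
      exact Real.rpow_nonneg (Finset.prod_nonneg fun j _ => norm_nonneg _) _
  have key := unfold_abs v (fun i => emb u * D.x i) D.L D.hL
    (fun i j => H.s j ((H.e i : 𝓞 F) : F)) H.he.norm H.he.pos
    (fun (p : Cl F H.m b (eF F hw u) × Fin H.q) j =>
      H.s j (((((H.η p.2 : (𝓞 F)ˣ) : 𝓞 F) * G p.1 : 𝓞 F)) : F)) ?_
    (fun p => χ (((H.η p.2 : (𝓞 F)ˣ) : 𝓞 F) * G p.1)) (ψ.trans φ.symm) ?_ ?_ s (by linarith) hsum
  · refine key.congr_fun ?_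
    rintro ⟨I, p⟩
    simp only
    rw [h4d_prod, hpsi I]
    congr 2
    rw [Finset.prod_pow, h4d_prod_norm, ← hnorm I]
    push_cast
    rfl
  · rintro ⟨I, p⟩ j
    simp only
    rw [map_ne_zero]
    have h1 : ((H.η p : (𝓞 F)ˣ) : 𝓞 F) * G I ≠ 0 := mul_ne_zero (Units.ne_zero _) (hG I).1
    exact_mod_cast h1
  · rintro ⟨I, p⟩ k j
    have h1 := hφ (φ.symm (ψ ((I, p), k))) j
    rw [φ.apply_symm_apply, hψ (I, p) k] at h1
    rw [Equiv.trans_apply, ← h1, ← h4d_ez, ← map_mul]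
    congr 1
    push_cast
    ring
  · rintro ⟨I, p⟩ k
    have h1 := fun j => hφ (φ.symm (ψ ((I, p), k))) j
    rw [φ.apply_symm_apply] at h1
    have h2 := hχ _ (ψ ((I, p), k)).2.1 _ h1
    rw [Equiv.trans_apply, h2, hψ (I, p) k, mul_assoc]
    exact hχe _ (b.mul_mem_left _ (hGb I)) k

theorem AA_entire (H : HD F hw r) (b : Ideal (𝓞 F)) (N : ℕ)
    (D : LD F hw H.s H.m H.e b N H.δ) (v : Fin (r + 1) → ℂ) (u : Eis)
    (hu : IsCoprime u (N : Eis)) : Differentiable ℂ (AA H D v u) := by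
  have hx : (fun i => emb u * D.x i) ∉ Lz (r + 1) := by
    rintro ⟨t, ht⟩
    obtain ⟨t', ht'⟩ := D.hx
    obtain ⟨a, b', hab⟩ := hu
    apply D.hx0
    refine ⟨fun i => a * t i + b' * t' i, ?_⟩
    funext i
    have h1 := congrFun ht i
    have h2 := congrFun ht' i
    simp only [em] at h1 h2 ⊢
    rw [map_add, map_mul, map_mul, h1, h2]
    have h3 := congrArg emb hab
    rw [map_add, map_mul, map_mul, map_one, map_natCast] at h3
    linear_combination (D.x i) * h3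
  have hT := TI_entire v (fun i => emb u * D.x i) hx D.L D.hL (ab F H.s H.e) (by
    intro i j
    have h1 := h4d_unit_ne (H.s j) (H.e i)
    have h2 : 0 < ‖H.s j ((H.e i : 𝓞 F) : F)‖ := norm_pos_iff.2 h1
    exact pow_pos h2 2)
  have hG : Differentiable ℂ fun s : ℂ => (Complex.Gamma s ^ (r + 1))⁻¹ := by
    have h1 : (fun s : ℂ => (Complex.Gamma s ^ (r + 1))⁻¹) =
        fun s : ℂ => ((Complex.Gamma s)⁻¹) ^ (r + 1) := by
      funext s
      rw [inv_pow]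
    rw [h1]
    exact Complex.differentiable_one_div_Gamma.pow _
  have hπ : Differentiable ℂ fun s : ℂ => (Real.pi : ℂ) ^ ((r + 1 : ℂ) * s) := by
    have h1 : Differentiable ℂ fun s : ℂ => (r + 1 : ℂ) * s := by fun_prop
    exact h1.const_cpow (Or.inl (by exact_mod_cast Real.pi_ne_zero))
  have hT2 : Differentiable ℂ fun s : ℂ =>
      TI v (fun i => emb u * D.x i) D.L (ab F H.s H.e) (s - 1) :=
    hT.comp (differentiable_id.sub_const 1)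
  exact ((hπ.mul hG).mul_const _).mul hT2

/-- `AA` and `VV` only depend on the additive character. -/
theorem AA_congr (H : HD F hw r) (b : Ideal (𝓞 F)) (N : ℕ)
    (D : LD F hw H.s H.m H.e b N H.δ) (v v' : Fin (r + 1) → ℂ) (u : Eis)
    (h : ∀ g ∈ b, ∀ y, (∀ j, H.s j (g : F) = D.L j ⬝ᵥ y) → ch v y = ch v' y) :
    AA H D v u = AA H D v' u ∧ VV H D v u = VV H D v' u := by
  obtain ⟨φ, hφ⟩ := D.bij u
  have h1 : ∀ t, ch v ((fun i => emb u * D.x i) + em t) = ch v' ((fun i => emb u * D.x i) + em t) :=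
    fun t => h _ (φ t).2.1 _ (hφ t)
  have h2 : ThD v (fun i => emb u * D.x i) D.L = ThD v' (fun i => emb u * D.x i) D.L := by
    funext c
    unfold ThD th
    simp_rw [h1]
  have h3 : TI v (fun i => emb u * D.x i) D.L = TI v' (fun i => emb u * D.x i) D.L := by
    funext E s
    unfold TI
    rw [h2]
  refine ⟨?_, ?_⟩
  · funext s
    unfold AA
    rw [h3]
  · unfold VV
    rw [h3]

end NG
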