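import Pool.Agent.MP_9ab903_nt.NG.H5
import Pool.Agent.MP_9ab903_nt.NG.H3
import Pool.Agent.MP_9ab903_nt.NG.G12

/-! ## [NG-H6a] integrality and Galois action for one ideal class

Core data `CD r` from `D : LD`: `x, M, L`, `ε i j = s_j e_i`, `c`, `W a` (`exists_W` for the character `g ↦ ψ (a * mk g)`, trivial on
`eF c * 𝓞 F` as `eF c ∈ Q`), `w = wc c (W a)`. `hW`: if `c ∣ W a` then `wc c (W a) ∈ Dl^(r+1)`, the character is trivial on `m b` (`LD.lat`), but `m b ⊄ Q`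
(`b`, `m` prime to `Q`) and `Q` is a prime: `m b` is onto `𝓞 F ⧸ Q`, `ψ (a * ·) ≠ 1`. `hMw`: `x + em t` is the coordinate vector of some `g ∈ b`
(`LD.bij 1`), `M_i` acts as `e_i`, `e_i = 1 mod Q`. `hM2`: `e_i = 1 mod 2`. `hJ`: `IsB.pos`. `VV_val` = `core_val`. `VV_gal`: `core_gal`: the image is
`VV` for the vector `v₀ * v a` (`v₀ u = k mod N'`), which realises `g ↦ ψ(a * mk (eF v₀ * g))`, i.e. `v (a * v̄₀)` (`AA_congr`); sum over all `a`.
Existence of `k` : `σ ζ = ζ^k` for a primitive `N'`-th root of unity; `k` prime to `N'`; `v₀ = k u'`, `u' u = 1 mod N'`. -/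

set_option autoImplicit false

open NumberField IsDedekindDomain MeasureTheory Set
open CM27 CMT CF NAB
open scoped ComplexConjugate Classical Matrix

namespace NG

/-! ### roots of unity -/

theorem h6a_k (σ : ℂ ≃+* ℂ) (N' : ℕ) (hN' : N' ≠ 0) : ∃ k : ℕ, k.Coprime N' ∧
    ∀ ζ : ℂ, ζ ^ N' = 1 → σ ζ = ζ ^ k := by
  haveI : NeZero N' := ⟨hN'⟩
  have h0 := Complex.isPrimitiveRoot_exp N' hN'
  have h1 : IsPrimitiveRoot (σ (Complex.exp (2 * Real.pi * Complex.I / N'))) N' :=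
    h0.map_of_injective σ.injective
  obtain ⟨k, -, hk, hk2⟩ := (h0.isPrimitiveRoot_iff).1 h1
  refine ⟨k, hk, fun ζ hζ => ?_⟩
  obtain ⟨i, -, rfl⟩ := h0.eq_pow_of_pow_eq_one hζ
  rw [map_pow, ← hk2, ← pow_mul, ← pow_mul, mul_comm k i]

theorem h6a_odd (c : Eis) (hc : Prime c) (h2 : ¬ c ∣ 2) : Odd c.norm.natAbs := by
  rw [Int.natAbs_odd, ← Int.not_even_iff_odd]
  intro h
  have h3 : Even c.re ∧ Even c.im := by
    rw [norm_eq, Int.even_add, Int.even_sub, Int.even_pow, Int.even_pow, Int.even_mul] at h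
    by_cases h1 : Even c.re <;> by_cases h2 : Even c.im <;> simp [h1, h2] at h ⊢
  obtain ⟨⟨x, hx⟩, ⟨y, hy⟩⟩ := h3
  have h4 : c = 2 * (⟨x, y⟩ : Eis) := by
    have h5 : c = (⟨x, y⟩ : Eis) + (⟨x, y⟩ : Eis) := by
      ext
      · simpa using hx
      · simpa using hy
    rw [h5]
    ring
  have h6 : c ∣ 2 * (⟨x, y⟩ : Eis) := by rw [← h4]
  rcases hc.2.2 _ _ h6 with h7 | ⟨d, hd⟩
  · exact h2 h7
  · have h8 : c * (1 - 2 * d) = 0 := by
      have h9 : c = 2 * (c * d) := by rw [← hd]; exact h4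
      linear_combination h9
    have h10 : emb c * emb (1 - 2 * d) = 0 := by rw [← map_mul, h8, map_zero]
    rcases mul_eq_zero.1 h10 with h11 | h11
    · exact hc.1 (emb_injective (by rw [h11, map_zero]))
    · have h12 : 1 - 2 * d = 0 := emb_injective (by rw [h11, map_zero])
      have h14 : (1 - (d + d) : Eis) = 0 := by
        rw [← h12]
        ring
      have h13 : (1 - (d + d) : Eis).re = (0 : Eis).re := by rw [h14]
      rw [QuadraticAlgebra.re_sub, QuadraticAlgebra.re_add, QuadraticAlgebra.re_one,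
        QuadraticAlgebra.re_zero] at h13
      omega

/-- A vector with parameter divisible by `c` is in the dual lattice. -/
theorem h6a_dual {n : ℕ} (c : Eis) (hc : c ≠ 0) (W : Fin n → Eis) (h : ∀ i, c ∣ W i)
    (t : Fin n → Eis) : ch (wc c W) (em t) = 1 := by
  choose W' hW' using h
  have hc0 : emb c ≠ 0 := fun h => hc (emb_injective (by rw [h, map_zero]))
  have h3 : (√3 : ℝ) * √3 = 3 := Real.mul_self_sqrt (by norm_num)
  have h30 : (√3 : ℝ) ≠ 0 := by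
    intro h0
    rw [h0] at h3
    norm_num at h3
  have h30' : (Complex.I * (√3 : ℝ) : ℂ) ≠ 0 :=
    mul_ne_zero Complex.I_ne_zero (Complex.ofReal_ne_zero.2 h30)
  have h4 : ∀ a : Eis, ∃ k : ℤ, (2 * emb a / (Complex.I * (√3 : ℝ))).re = k := by
    intro a
    refine ⟨a.im, ?_⟩
    have h5 : 2 * emb a / (Complex.I * (√3 : ℝ)) =
        ((a.im : ℝ) : ℂ) + ((-(2 * a.re - a.im) / √3 : ℝ) : ℂ) * Complex.I := by
      rw [div_eq_iff h30']
      have h6 : ((√3 : ℝ) : ℂ) ≠ 0 := Complex.ofReal_ne_zero.2 h30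
      apply Complex.ext
      · simp [emb_re]
        field_simp
      · simp [emb_im]
        ring
    rw [h5]
    simp
  have h7 : wc c W ⬝ᵥ em t = 2 * emb (∑ i, W' i * t i) / (Complex.I * (√3 : ℝ)) := by
    rw [map_sum, Finset.mul_sum, Finset.sum_div]
    refine Finset.sum_congr rfl fun i _ => ?_
    show 2 * emb (W i) / (emb c * (Complex.I * (√3 : ℝ))) * emb (t i) = _
    rw [hW' i, map_mul, map_mul]
    field_simp
  obtain ⟨k, hk⟩ := h4 (∑ i, W' i * t i)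
  unfold ch
  rw [h7, hk, Complex.exp_eq_one_iff]
  exact ⟨k, by push_cast; ring⟩


variable {r : ℕ} {F : IntermediateField ℚ ℂ} [NumberField F] {hw : w ∈ F}

variable (H : HD F hw r) [Fintype (𝓞 F ⧸ H.Q)ˣ]
  (ψ : AddChar (𝓞 F ⧸ H.Q) ℂ) (hψ : ψ ≠ 1)
  (b : Ideal (𝓞 F)) (hb0 : b ≠ 0) (hbm : IsCoprime b (Ideal.span {H.m})) (hbQ : IsCoprime b H.Q)
  (N : ℕ) (hN : Odd N) (hcN : ¬ H.c ∣ 2 * (N : Eis))
  (hcbig : ((2 * (r + 1)) ^ (4 * (r + 1)) : ℕ) < H.c.norm.natAbs)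
  (D : LD F hw H.s H.m H.e b N H.δ)

/-- The additive characters. -/
theorem exists_v : ∃ v : (𝓞 F ⧸ H.Q)ˣ → Fin (r + 1) → ℂ,
    (∀ a, ∃ W : Fin (r + 1) → Eis, v a = wc H.c W) ∧
    ∀ a (g : 𝓞 F) (y : Fin (r + 1) → ℂ), (∀ j, H.s j (g : F) = D.L j ⬝ᵥ y) →
      ch (v a) y = ψ ((a : 𝓞 F ⧸ H.Q) * Ideal.Quotient.mk H.Q g) := by
  have hlat : ∀ t : Fin (r + 1) → Eis, ∃ g : 𝓞 F, ∀ j, H.s j (g : F) = D.L j ⬝ᵥ em t := by
    intro t
    obtain ⟨φ, hφ⟩ := D.bij 0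
    refine ⟨φ t, fun j => ?_⟩
    rw [hφ t j]
    congr 1
    ext i
    simp
  have key : ∀ a : (𝓞 F ⧸ H.Q)ˣ, ∃ W : Fin (r + 1) → Eis, ∀ (g : 𝓞 F) (y : Fin (r + 1) → ℂ),
      (∀ j, H.s j (g : F) = D.L j ⬝ᵥ y) → ch (wc H.c W) y =
        ψ ((a : 𝓞 F ⧸ H.Q) * Ideal.Quotient.mk H.Q g) := by
    intro a
    let χ : AddChar (𝓞 F) ℂ :=
      { toFun := fun g => ψ ((a : 𝓞 F ⧸ H.Q) * Ideal.Quotient.mk H.Q g)
        map_zero_eq_one' := by rw [map_zero, mul_zero, AddChar.map_zero_eq_one]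
        map_add_eq_mul' := by
          intro g h
          rw [map_add, mul_add, AddChar.map_add_eq_mul] }
    exact exists_W F hw H.s H.hs H.δ H.hδ D.L D.hL hlat H.c H.hc.1 χ (by
      intro g
      show ψ ((a : 𝓞 F ⧸ H.Q) * Ideal.Quotient.mk H.Q (eF F hw H.c * g)) = 1
      rw [map_mul (Ideal.Quotient.mk H.Q), Ideal.Quotient.eq_zero_iff_mem.2 H.hcQ, zero_mul, mul_zero,
        AddChar.map_zero_eq_one])
  choose W hW using key
  exact ⟨fun a => wc H.c (W a), fun a => ⟨W a, rfl⟩, fun a g y h => hW a g y h⟩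

variable (v : (𝓞 F ⧸ H.Q)ˣ → Fin (r + 1) → ℂ)
  (hvW : ∀ a, ∃ W : Fin (r + 1) → Eis, v a = wc H.c W)
  (hv : ∀ a (g : 𝓞 F) (y : Fin (r + 1) → ℂ), (∀ j, H.s j (g : F) = D.L j ⬝ᵥ y) →
      ch (v a) y = ψ ((a : 𝓞 F ⧸ H.Q) * Ideal.Quotient.mk H.Q g))
include hψ hb0 hbm hbQ hN hcN hcbig hvW hv

omit [Fintype (𝓞 F ⧸ H.Q)ˣ] in
theorem h6a_CD (a : (𝓞 F ⧸ H.Q)ˣ) : ∃ C : CD r, C.x = D.x ∧ C.w = v a ∧ C.L = D.L ∧
    C.ε = fun i j => H.s j ((H.e i : 𝓞 F) : F) := by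
  obtain ⟨W, hW⟩ := hvW a
  have hmem : ∀ i, ((H.e i : 𝓞 F) - 1 ∈ H.Q) ∧ (2 : 𝓞 F) ∣ (H.e i : 𝓞 F) - 1 := by
    intro i
    have h1 : (H.e i : 𝓞 F) - 1 ∈ (Ideal.span {H.m} ⊓ H.Q) ⊓ Ideal.span {(2 : 𝓞 F)} := H.he.mem i
    exact ⟨h1.1.2, Ideal.mem_span_singleton.1 h1.2⟩
  have c1 : ∃ i, ¬ H.c ∣ W i := by
    by_contra hcon
    have hcon : ∀ i, H.c ∣ W i := fun i => by_contra fun h => hcon ⟨i, h⟩
    apply hψ
    have hcop : IsCoprime (Ideal.span {H.m} * b) H.Q := IsCoprime.mul_left H.hQm.symm hbQ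
    obtain ⟨i, hi, q, hq, hiq⟩ := Ideal.isCoprime_iff_exists.1 hcop
    ext y
    obtain ⟨g, hg⟩ := Ideal.Quotient.mk_surjective (((a⁻¹ : (𝓞 F ⧸ H.Q)ˣ) : 𝓞 F ⧸ H.Q) * y)
    have h1 : Ideal.Quotient.mk H.Q (g * i) = ((a⁻¹ : (𝓞 F ⧸ H.Q)ˣ) : 𝓞 F ⧸ H.Q) * y := by
      rw [← hg, ← sub_eq_zero, ← map_sub, Ideal.Quotient.eq_zero_iff_mem]
      have h2 : g * i - g = -(g * q) := by linear_combination g * hiq
      rw [h2]
      exact H.Q.neg_mem (H.Q.mul_mem_left _ hq)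
    obtain ⟨t, ht⟩ := (D.lat (g * i)).1 (Ideal.mul_mem_left _ _ hi)
    have h3 := hv a (g * i) (em t) ht
    rw [hW, h6a_dual H.c H.hc.1 W hcon t, h1, ← mul_assoc, Units.mul_inv, one_mul] at h3
    rw [← h3]
    rfl
  have c2 : ∀ i, v a i = 2 * emb (W i) / (emb H.c * (Complex.I * (√3 : ℝ))) := by
    intro i
    rw [hW]
    rfl
  have c3 : ∀ i, ∀ m : Fin (r + 1) → Eis,
      ch (v a) (cm (D.M i) *ᵥ (D.x + em m)) = ch (v a) (D.x + em m) := by
    intro i m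
    obtain ⟨φ, hφ⟩ := D.bij 1
    have h1 : ∀ j, H.s j (((φ m : 𝓞 F)) : F) = D.L j ⬝ᵥ (D.x + em m) := by
      intro j
      rw [hφ m j]
      congr 1
      ext k
      simp
    have h2 : ∀ j, H.s j ((((H.e i : 𝓞 F) * (φ m : 𝓞 F) : 𝓞 F)) : F) =
        D.L j ⬝ᵥ (cm (D.M i) *ᵥ (D.x + em m)) := by
      intro j
      have h3 : (((H.e i : 𝓞 F) * (φ m : 𝓞 F) : 𝓞 F) : F) = ((H.e i : 𝓞 F) : F) * ((φ m : 𝓞 F) : F) := by
        push_cast
        rfl
      rw [h3, map_mul, h1 j, Matrix.dotProduct_mulVec, D.hLM i j, smul_dotProduct, smul_eq_mul]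
    rw [hv a _ _ h1, hv a _ _ h2]
    congr 1
    rw [map_mul]
    have h4 : Ideal.Quotient.mk H.Q (H.e i : 𝓞 F) = 1 := by
      rw [← sub_eq_zero, ← map_one (Ideal.Quotient.mk H.Q), ← map_sub,
        Ideal.Quotient.eq_zero_iff_mem]
      exact (hmem i).1
    rw [h4, one_mul]
  let C : CD r :=
    { x := D.x
      w := v a
      M := D.M
      L := D.L
      ε := fun i j => H.s j ((H.e i : 𝓞 F) : F)
      N := N
      c := H.c
      W := W
      hN := hN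
      hx := D.hx
      hx0 := D.hx0
      hc := H.hc
      hcN := hcN
      hcbig := hcbig
      hW := c1
      hw := c2
      hdet := D.hM
      hcomm := D.hcomm
      hM2 := D.hM2 fun i => (hmem i).2
      hMx := D.hMx
      hMw := c3
      hL := D.hL
      hLM := D.hLM
      hJ := H.he.pos.ne' }
  exact ⟨C, rfl, rfl, rfl, rfl⟩


theorem VV_val (A : ValuationSubring ℂ) (hA : A.valuation 2 < 1) (a : (𝓞 F ⧸ H.Q)ˣ) :
    A.valuation (VV H D (v a) 1) ≤ 1 := by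
  obtain ⟨C, hCx, hCw, hCL, hCε⟩ := h6a_CD H ψ hψ b hb0 hbm hbQ N hN hcN hcbig D v hvW hv a
  have h1 := core_val C A hA
  rw [hCx, hCw, hCL, hCε] at h1
  have h2 : (fun i => emb 1 * D.x i) = D.x := by
    ext i
    rw [map_one, one_mul]
  unfold VV
  rw [h2]
  exact h1

theorem VV_gal : ∃ N₂ : ℕ, Odd N₂ ∧ ∀ N' : ℕ, N₂ ∣ N' → Odd N' →
    ∀ σ : ℂ ≃+* ℂ, σ CM27.w = CM27.w → ∀ u : Eis, IsCoprime u (N' : Eis) →
    (∀ c : Eis, ptMap (σ : ℂ →+* ℂ) (pt (emb c / N')) = pt (emb (c * u) / N')) →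
      σ (∑ a, VV H D (v a) 1) = ∑ a, VV H D (v a) u := by
  have hCD := fun a => h6a_CD H ψ hψ b hb0 hbm hbQ N hN hcN hcbig D v hvW hv a
  choose C hCx hCw hCL hCε using hCD
  choose N₂ hN₂ hgal using fun a => core_gal (C a)
  have hcodd : Odd H.c.norm.natAbs := h6a_odd H.c H.hc fun h => hcN (h.mul_right _)
  refine ⟨(∏ a, N₂ a) * H.c.norm.natAbs, ?_, fun N' hN' hN'o σ hσ u hu hσu => ?_⟩
  · refine Odd.mul ?_ hcodd
    exact Finset.prod_induction _ Odd (fun _ _ => Odd.mul) odd_one fun a _ => hN₂ a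
  have hN0 : N' ≠ 0 := by
    rintro rfl
    simp at hN'o
  obtain ⟨k, hk, hσζ⟩ := h6a_k σ N' hN0
  obtain ⟨u', z, huz⟩ := hu
  have hkc : IsCoprime (k : Eis) (N' : Eis) := by
    have := Nat.isCoprime_iff_coprime.2 hk
    exact_mod_cast this.map (Int.castRingHom Eis)
  have hu'c : IsCoprime u' (N' : Eis) := ⟨u, z, by rw [mul_comm u u']; exact huz⟩
  have hv₀ : IsCoprime ((k : Eis) * u') (N' : Eis) := IsCoprime.mul_left hkc hu'c
  have huv : (N' : Eis) ∣ (k : Eis) * u' * u - k := ⟨-(k * z), by linear_combination (k : Eis) * huz⟩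
  set v₀ : Eis := (k : Eis) * u' with hv₀def
  -- the unit
  have hcN' : H.c ∣ (N' : Eis) := by
    refine dvd_trans (h2b_norm_dvd H.c) ?_
    exact Nat.cast_dvd_cast ((Nat.dvd_mul_left _ _).trans hN')
  obtain ⟨p, q, hpq⟩ := IsCoprime.of_isCoprime_of_dvd_right hv₀ hcN'
  have hunit : Ideal.Quotient.mk H.Q (eF F hw p) * Ideal.Quotient.mk H.Q (eF F hw v₀) = 1 := by
    have h1 := congrArg (fun z => Ideal.Quotient.mk H.Q (eF F hw z)) hpq
    simp only [map_add, map_mul, map_one] at h1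
    rw [Ideal.Quotient.eq_zero_iff_mem.2 H.hcQ, mul_zero, add_zero] at h1
    exact h1
  let vb : (𝓞 F ⧸ H.Q)ˣ := ⟨Ideal.Quotient.mk H.Q (eF F hw v₀), Ideal.Quotient.mk H.Q (eF F hw p),
    by rw [mul_comm]; exact hunit, hunit⟩
  have hone : ∀ a, σ (VV H D (v a) 1) = VV H D (v (a * vb)) u := by
    intro a
    have h1 := hgal a N' (((Finset.dvd_prod_of_mem N₂ (Finset.mem_univ a)).trans
      (Nat.dvd_mul_right _ _)).trans hN') hN'o σ hσ u ⟨u', z, huz⟩ hσu k hσζ v₀ hv₀ huv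
    rw [hCx, hCw, hCL, hCε] at h1
    have h2 : (fun i => emb 1 * D.x i) = D.x := by
      ext i
      rw [map_one, one_mul]
    have h3 : σ (VV H D (v a) 1) = VV H D (fun i => emb v₀ * v a i) u := by
      unfold VV
      rw [h2]
      exact h1
    rw [h3]
    refine (AA_congr H b N D _ _ u fun g _ y hy => ?_).2
    have h4 : ch (fun i => emb v₀ * v a i) y = ch (v a) (emb v₀ • y) := by
      unfold ch
      have h5 : (fun i => emb v₀ * v a i) ⬝ᵥ y = v a ⬝ᵥ (emb v₀ • y) := by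
        have h6 : (fun i => emb v₀ * v a i) = emb v₀ • v a := rfl
        rw [h6, smul_dotProduct, dotProduct_smul]
      rw [h5]
    rw [h4, hv (a * vb) g y hy]
    have h7 := hv a (eF F hw v₀ * g) (emb v₀ • y) (by
      intro j
      have h8 : ((eF F hw v₀ * g : 𝓞 F) : F) = ((eF F hw v₀ : 𝓞 F) : F) * (g : F) := by
        push_cast
        rfl
      rw [h8, map_mul, s_eF F hw H.s H.hs, hy j, dotProduct_smul, smul_eq_mul])
    rw [h7, map_mul (Ideal.Quotient.mk H.Q), ← mul_assoc]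
    rfl
  rw [map_sum, Finset.sum_congr rfl fun a _ => hone a]
  exact Equiv.sum_comp (Equiv.mulRight vb) fun a => VV H D (v a) u

end NG
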