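import Pool.Agent.MP_9ab903_nt.NG.H6a
import Pool.Agent.MP_9ab903_nt.NG.H1a
import Pool.Agent.MP_9ab903_nt.NAB.B1

/-! ## [NG-H6b] the `L`-series: entire, value at `s = 1`, Galois action (final result of part H)

As `NAB/B5.lean`. `C` from `ray_classes` (B1), `N = 3 N0 ∏_{b ∈ C} absNorm(m b)` (odd), `(Q, c)` from `Smooth` with bound `B` larger than `4 N²`,
`absNorm (m)`, and `(2(r+1))^(4(r+1))`: then `c ∤ 2N`, `Q` is prime to `m`, `2`, `b` (`norm c` is a power of the residue characteristic of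
`Q`, as `c ∣ (its rational prime)`). `HD` from `exists_s`, `exists_basis`, `exists_rep`, `exists_del`; `LD` from `exists_LD`, `v` from
`exists_v`; `ψ` nontrivial (`AddChar.exists_ne_one..`, or `FiniteField.primitiveChar_to_Complex`).
`T b u = (1/q) emb(psi b) ∑_a VV(b, v a, u) / det L_b`. Integrality: `AA_orbit` at `s = 1` gives `VV (v (a h)) = VV (v a)` (`VV = AA(1) det L / OmC^n`, `Γ(1) = 1`),
`sum_val`, `index_factor`, `rep_card` (`q = |HH| q₂`, `q₂` odd), `VV_val`, `LD.val`. Galois: `VV_gal`, `LD.gal`; the final `N` is `N` times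
all the `N₂`.
`Φ s = χ(u) ∑_b χ(b) (conj psi(b))⁻¹ (absNorm b)^s (1/q) AA(b, 0, u, s)` for `u = 1` (`unsmooth`); for `I ∈ Cl m b u`: `χ(I) χ(b) = χ((G_I)) = χ((u))`
(`IsRC.one` for `u' G_I`, `u' u = 1 mod m`). Smoothed: `smooth`, `∑_I χ(I) (absNorm Q [Q ∣ I] - 1) conj psi(I) absNorm(I)^(-s)
= (absNorm Q^(1-s) χ(Q) conj psi(Q) - 1) Φ(s)` (`I = Q I'`), identity theorem, `s = 1`; `absNorm b / conj psi(b) = psi(b)`. -/

set_option autoImplicit false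
set_option linter.unusedSectionVars false

open NumberField IsDedekindDomain MeasureTheory Set
open CM27 CMT CF NAB
open scoped ComplexConjugate Classical Matrix

namespace NG

/-! ### generalities -/

section
variable (F : IntermediateField ℚ ℂ) [NumberField F]

/-- `3` is not a unit -/
theorem h6b_three : ¬ IsUnit (3 : 𝓞 F) := by
  intro h
  obtain ⟨y, hy⟩ := h.exists_right_inv
  have h1 : (3 : F) * (y : F) = 1 := by
    have := congrArg (algebraMap (𝓞 F) F) hy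
    rw [map_mul, map_one, map_ofNat] at this
    exact this
  have h2 : (y : F) = algebraMap ℚ F (1 / 3) := by
    rw [map_div₀, map_one, map_ofNat]
    have h3 : (3 : F) ≠ 0 := by norm_num
    field_simp
    linear_combination h1
  have h3 : IsIntegral ℤ (algebraMap ℚ F (1 / 3)) := by
    rw [← h2]
    exact y.2
  rw [isIntegral_algebraMap_iff (algebraMap ℚ F).injective] at h3
  obtain ⟨n, hn⟩ := IsIntegrallyClosed.isIntegral_iff.1 h3
  have h4 : ((3 * n : ℤ) : ℚ) = ((1 : ℤ) : ℚ) := by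
    have h5 : ((n : ℤ) : ℚ) = 1 / 3 := hn
    push_cast
    rw [h5]
    norm_num
  have h5 : 3 * n = 1 := by exact_mod_cast h4
  omega

/-- the norm of an odd ideal is odd -/
theorem h6b_odd (I : Ideal (𝓞 F)) (hI : I ≠ 0) (h : IsCoprime I (Ideal.span {(2 : 𝓞 F)})) :
    Odd (Ideal.absNorm I) := by
  by_contra hev
  rw [Nat.not_odd_iff_even] at hev
  have h2 : 2 ∣ Nat.card (𝓞 F ⧸ I) := by
    have h3 := hev.two_dvd
    rwa [Ideal.absNorm_apply, Submodule.cardQuot_apply] at h3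
  have : Fact (Nat.Prime 2) := ⟨Nat.prime_two⟩
  have : Finite (𝓞 F ⧸ I) := Ideal.finiteQuotientOfFreeOfNeBot I (by simpa using hI)
  obtain ⟨x, hx⟩ := exists_prime_addOrderOf_dvd_card' (G := 𝓞 F ⧸ I) 2 h2
  have h2x : (2 : ℕ) • x = 0 := by rw [← hx, addOrderOf_nsmul_eq_zero]
  rw [Ideal.isCoprime_iff_exists] at h
  obtain ⟨i, hi, j, hj, hij⟩ := h
  obtain ⟨a, rfl⟩ := Ideal.mem_span_singleton.1 hj
  have h4 : (Ideal.Quotient.mk I (i + 2 * a)) = 1 := by rw [hij, map_one]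
  rw [map_add, Ideal.Quotient.eq_zero_iff_mem.2 hi, zero_add, map_mul, map_ofNat] at h4
  have h5 : x = 0 := by
    calc x = (2 * Ideal.Quotient.mk I a) * x := by rw [h4, one_mul]
      _ = Ideal.Quotient.mk I a * ((2 : ℕ) • x) := by rw [nsmul_eq_mul]; push_cast; ring
      _ = 0 := by rw [h2x, mul_zero]
  rw [h5, addOrderOf_zero] at hx
  norm_num at hx

/-- the values of the character -/
theorem h6b_chi (m : 𝓞 F) (hm1 : ¬ IsUnit m) (χ : Ideal (𝓞 F) → ℤ) (hχ : IsRC F m χ) (u : 𝓞 F)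
    (hu : IsCoprime u m) (c : Ideal (𝓞 F)) (hc : c ≠ 0) (hcm : IsCoprime c (Ideal.span {m}))
    (I : Ideal (𝓞 F)) (hI : I ∈ Cl F m c u) : χ I = χ (Ideal.span {u}) * χ c := by
  obtain ⟨hI0, g, hg0, hgu, hIc⟩ := hI
  obtain ⟨u', a, hu'⟩ := hu
  have hne : ∀ z : 𝓞 F, m ∣ z - 1 → z ≠ 0 := by
    rintro z hz rfl
    apply hm1
    rw [zero_sub, dvd_neg] at hz
    exact isUnit_of_dvd_one hz
  have h1 : m ∣ u * u' - 1 := ⟨-a, by linear_combination hu'⟩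
  have h2 : m ∣ g * u' - 1 := by
    have e : g * u' - 1 = (g - u) * u' + (u * u' - 1) := by ring
    rw [e]
    exact dvd_add (hgu.mul_right _) h1
  have h3 := hχ.one _ (hne _ h1) h1
  have h4 := hχ.one _ (hne _ h2) h2
  rw [← Ideal.span_singleton_mul_span_singleton, hχ.mul] at h3 h4
  have h5 : χ (Ideal.span {u'}) ≠ 0 := by
    intro h
    rw [h, mul_zero] at h3
    exact zero_ne_one h3
  have h6 : χ (Ideal.span {g}) = χ (Ideal.span {u}) := mul_right_cancel₀ h5 (h4.trans h3.symm)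
  rw [← hIc, hχ.mul] at h6
  have h7 : χ c * χ c = 1 := by
    rcases hχ.pm c hc hcm with h | h <;> rw [h] <;> norm_num
  calc χ I = χ I * χ c * χ c := by rw [mul_assoc, h7, mul_one]
    _ = _ := by rw [h6]

theorem h6b_hasSum (m : 𝓞 F) (hm1 : ¬ IsUnit m) (χ : Ideal (𝓞 F) → ℤ) (hχ : IsRC F m χ)
    (C : Finset (Ideal (𝓞 F))) (hC : ∀ c ∈ C, c ≠ 0 ∧ IsCoprime c (Ideal.span {m}))
    (u : 𝓞 F) (hu : IsCoprime u m)
    (hray : ∀ I : Ideal (𝓞 F), I ≠ 0 → IsCoprime I (Ideal.span {m}) →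
      ∃! c : Ideal (𝓞 F), c ∈ C ∧ ∃ g : 𝓞 F, g ≠ 0 ∧ m ∣ g - u ∧ I * c = Ideal.span {g})
    (f : Ideal (𝓞 F) → ℂ) (hf0 : f 0 = 0) (G : Ideal (𝓞 F) → ℂ)
    (hG : ∀ c ∈ C, HasSum (fun I : Cl F m c u => f I) (G c)) :
    HasSum (fun I : Ideal (𝓞 F) => (χ I : ℂ) * f I)
      ((χ (Ideal.span {u}) : ℂ) * ∑ c ∈ C, (χ c : ℂ) * G c) := by
  have h1 : ∀ c ∈ C, HasSum ((Cl F m c u).indicator fun I : Ideal (𝓞 F) => (χ I : ℂ) * f I)
      ((χ (Ideal.span {u}) : ℂ) * ((χ c : ℂ) * G c)) := by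
    intro c hc
    rw [← hasSum_subtype_iff_indicator]
    have h2 := (hG c hc).mul_left ((χ (Ideal.span {u}) : ℂ) * (χ c : ℂ))
    rw [mul_assoc] at h2
    refine h2.congr_fun ?_
    intro I
    have h3 := h6b_chi F m hm1 χ hχ u hu c (hC c hc).1 (hC c hc).2 I I.2
    change (χ (I : Ideal (𝓞 F)) : ℂ) * f I = _
    rw [h3]
    push_cast
    ring
  have h2 := hasSum_sum h1
  rw [← Finset.mul_sum] at h2
  refine h2.congr_fun ?_
  intro I
  by_cases hI : I ≠ 0 ∧ IsCoprime I (Ideal.span {m})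
  · obtain ⟨c, ⟨hcC, hcI⟩, huniq⟩ := hray I hI.1 hI.2
    rw [Finset.sum_eq_single c]
    · rw [Set.indicator_of_mem]
      exact ⟨hI.1, hcI⟩
    · intro c' hc' hne
      rw [Set.indicator_of_notMem]
      intro h3
      exact hne (huniq c' ⟨hc', h3.2⟩)
    · intro h3
      exact absurd hcC h3
  · have h3 : (χ I : ℂ) * f I = 0 := by
      by_cases hI0 : I = 0
      · rw [hI0, hf0, mul_zero]
      · rw [hχ.zero I (fun h => hI ⟨hI0, h⟩), Int.cast_zero, zero_mul]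
    rw [h3, Finset.sum_eq_zero]
    intro c _
    rw [Set.indicator_apply]
    split_ifs
    · exact h3
    · rfl

/-- identity theorem for entire functions -/
theorem h6b_ident (f g : ℂ → ℂ) (hf : Differentiable ℂ f) (hg : Differentiable ℂ g)
    (h : ∀ s : ℂ, 3 / 2 < s.re → f s = g s) : f = g := by
  have h1 : AnalyticOnNhd ℂ f Set.univ := fun z _ => hf.analyticAt z
  have h2 : AnalyticOnNhd ℂ g Set.univ := fun z _ => hg.analyticAt z
  apply h1.eq_of_eventuallyEq h2 (z₀ := 2)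
  have h3 : {s : ℂ | 3 / 2 < s.re} ∈ nhds (2 : ℂ) := by
    apply (isOpen_lt continuous_const Complex.continuous_re).mem_nhds
    show (3 / 2 : ℝ) < (2 : ℂ).re
    norm_num
  filter_upwards [h3] with s hs
  exact h s hs

theorem h6b_dvd (m : 𝓞 F) (c : Ideal (𝓞 F)) (N : ℕ)
    (h : Ideal.absNorm (Ideal.span {m} * c) ∣ N) : m ∣ (N : 𝓞 F) ∧ (N : 𝓞 F) ∈ c := by
  have h1 : ((Ideal.absNorm (Ideal.span {m} * c) : ℕ) : 𝓞 F) ∈ Ideal.span {m} * c :=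
    Ideal.absNorm_mem (Ideal.span {m} * c)
  have h2 : Ideal.span {m} * c ≤ Ideal.span {m} := Ideal.mul_le_left
  have h2' : Ideal.span {m} * c ≤ c := Ideal.mul_le_right
  have h3 := Ideal.mem_span_singleton.1 (h2 h1)
  refine ⟨h3.trans (Nat.cast_dvd_cast h), ?_⟩
  obtain ⟨k, rfl⟩ := h
  rw [Nat.cast_mul]
  exact Ideal.mul_mem_right _ _ (h2' h1)

/-- multiples of an ideal -/
theorem h6b_mult (Q : Ideal (𝓞 F)) (hQ0 : Q ≠ 0) (f g : Ideal (𝓞 F) → ℂ) (t S : ℂ)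
    (hf : HasSum f S) (hg : ∀ I, g (Q * I) = t * f I) :
    HasSum (fun I => if Q ∣ I then g I else 0) (t * S) := by
  have hinj : Function.Injective (fun I : Ideal (𝓞 F) => Q * I) :=
    fun I J h => mul_left_cancel₀ hQ0 h
  rw [← hinj.hasSum_iff]
  · refine (hf.mul_left t).congr_fun ?_
    intro I
    simp only [Function.comp_apply]
    rw [if_pos (dvd_mul_right _ _), hg]
  · intro I hI
    rw [if_neg]
    rintro ⟨J, rfl⟩
    exact hI ⟨J, rfl⟩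

theorem h6b_val_odd (A : ValuationSubring ℂ) (hA : A.valuation 2 < 1) (n : ℕ) (hn : Odd n) :
    A.valuation (n : ℂ) = 1 := by
  obtain ⟨k, rfl⟩ := hn
  have h1 : A.valuation (2 * (k : ℂ)) < 1 := by
    rw [map_mul]
    have h2 : A.valuation (k : ℂ) ≤ 1 := by
      rw [ValuationSubring.valuation_le_one_iff]
      exact natCast_mem A k
    exact mul_lt_one_of_lt_of_le hA h2
  have e : ((2 * k + 1 : ℕ) : ℂ) = 1 + 2 * (k : ℂ) := by push_cast; ring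
  rw [e]
  exact Valuation.map_one_add_of_lt _ h1

/-- coprimality with a prime ideal containing an element prime to a member of the ideal -/
theorem h6b_cop (hw : w ∈ F) (Q : Ideal (𝓞 F)) (hQ : Q.IsPrime) (hQ0 : Q ≠ ⊥) (c : Eis)
    (hcQ : eF F hw c ∈ Q) (n : Eis) (hcn : IsCoprime c n) (I : Ideal (𝓞 F))
    (hI : eF F hw n ∈ I) : IsCoprime I Q := by
  have hmax : Q.IsMaximal := hQ.isMaximal hQ0
  rw [Ideal.isCoprime_iff_sup_eq, sup_comm]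
  by_contra hne
  have hle : I ≤ Q := by
    by_contra hnle
    apply hne
    exact hmax.1.2 _ (left_lt_sup.2 hnle)
  obtain ⟨a, b, hab⟩ := hcn
  have h1 := congrArg (eF F hw) hab
  rw [map_add, map_mul, map_mul, map_one] at h1
  apply hQ.ne_top
  rw [Ideal.eq_top_iff_one, ← h1]
  exact Q.add_mem (Ideal.mul_mem_left _ _ hcQ) (Ideal.mul_mem_left _ _ (hle hI))

end

/-! ### one ideal class -/

section
variable {r : ℕ} {F : IntermediateField ℚ ℂ} [NumberField F] {hw : w ∈ F}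
variable (H : HD F hw r) {b : Ideal (𝓞 F)} {N : ℕ} (D : LD F hw H.s H.m H.e b N H.δ)

theorem h6b_VV (v : Fin (r + 1) → ℂ) (u : Eis) :
    VV H D v u = AA H D v u 1 * D.L.det / OmC ^ (r + 1) := by
  unfold VV AA
  have h6 : (Real.pi : ℂ) ^ ((r + 1 : ℂ) * 1) = (Real.pi : ℂ) ^ (r + 1) := by
    rw [← Complex.cpow_natCast]
    congr 1
    push_cast
    ring
  rw [h6, Complex.Gamma_one, one_pow, inv_one, sub_self]
  ring

variable [Fintype (𝓞 F ⧸ H.Q)ˣ] (v : (𝓞 F ⧸ H.Q)ˣ → Fin (r + 1) → ℂ)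

/-- the numbers `T b u` -/
noncomputable def h6b_T (u : Eis) : ℂ :=
  (H.q : ℂ)⁻¹ * emb (psi F b) * (∑ a, VV H D (v a) u) / D.L.det

/-- the entire functions, unsmoothed -/
noncomputable def h6b_G (u : Eis) (s : ℂ) : ℂ :=
  (conj (emb (psi F b)))⁻¹ * (Ideal.absNorm b : ℂ) ^ s * ((H.q : ℂ)⁻¹ * AA H D 0 u s)

/-- the entire functions, smoothed -/
noncomputable def h6b_S (u : Eis) (s : ℂ) : ℂ :=
  (conj (emb (psi F b)))⁻¹ * (Ideal.absNorm b : ℂ) ^ s * ((H.q : ℂ)⁻¹ * ∑ a, AA H D (v a) u s)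

theorem h6b_G_diff (hb0 : b ≠ 0) (u : Eis) (hu : IsCoprime u (N : Eis)) :
    Differentiable ℂ (h6b_G H D u) := by
  have h1 : Differentiable ℂ (fun s : ℂ => (Ideal.absNorm b : ℂ) ^ s) := by
    apply Differentiable.const_cpow differentiable_id
    left
    rw [Nat.cast_ne_zero]
    intro h
    exact hb0 (Ideal.absNorm_eq_zero_iff.1 h)
  exact (h1.const_mul _).mul ((AA_entire H b N D 0 u hu).const_mul _)

theorem h6b_S_diff (hb0 : b ≠ 0) (u : Eis) (hu : IsCoprime u (N : Eis)) :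
    Differentiable ℂ (h6b_S H D v u) := by
  have h1 : Differentiable ℂ (fun s : ℂ => (Ideal.absNorm b : ℂ) ^ s) := by
    apply Differentiable.const_cpow differentiable_id
    left
    rw [Nat.cast_ne_zero]
    intro h
    exact hb0 (Ideal.absNorm_eq_zero_iff.1 h)
  have h2 : Differentiable ℂ (fun s : ℂ => ∑ a, AA H D (v a) u s) :=
    Differentiable.fun_sum fun a _ => AA_entire H b N D (v a) u hu
  exact (h1.const_mul _).mul (h2.const_mul _)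

theorem h6b_cop3 (hbm : IsCoprime b (Ideal.span {H.m})) :
    IsCoprime b (Ideal.span {(3 : 𝓞 F)}) := by
  refine hbm.of_isCoprime_of_dvd_right ?_
  rw [Ideal.dvd_span_singleton, Ideal.mem_span_singleton]
  exact H.h3

theorem h6b_ne (hb0 : b ≠ 0) (hbm : IsCoprime b (Ideal.span {H.m})) :
    (Ideal.absNorm b : ℂ) ≠ 0 ∧ conj (emb (psi F b)) ≠ 0 := by
  have h1 := psi_mul_conj F hw b hb0 (h6b_cop3 H hbm)
  have h2 : (Ideal.absNorm b : ℂ) ≠ 0 := by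
    rw [Nat.cast_ne_zero]
    intro h
    exact hb0 (Ideal.absNorm_eq_zero_iff.1 h)
  refine ⟨h2, fun h => ?_⟩
  rw [h, mul_zero] at h1
  exact h2 h1.symm

theorem h6b_S_one (hb0 : b ≠ 0) (hbm : IsCoprime b (Ideal.span {H.m})) (u : Eis) :
    h6b_S H D v u 1 = OmC ^ (r + 1) * h6b_T H D v u := by
  have h1 := psi_mul_conj F hw b hb0 (h6b_cop3 H hbm)
  obtain ⟨h2, h3⟩ := h6b_ne H hb0 hbm
  have h4 := OmC_ne
  have h5 := D.hL
  rw [h6b_S, h6b_T, Complex.cpow_one, ← h1]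
  simp only [h6b_VV]
  rw [← Finset.sum_div, ← Finset.sum_mul]
  field_simp

theorem h6b_cpow (x y : ℕ) (hy : (y : ℂ) ≠ 0) (s : ℂ) :
    (y : ℂ) ^ s * ((x : ℂ) * (y : ℂ)) ^ (-s) = (x : ℂ) ^ (-s) := by
  rw [Complex.natCast_mul_natCast_cpow, mul_comm ((x : ℂ) ^ (-s)), ← mul_assoc,
    ← Complex.cpow_add _ _ hy, add_neg_cancel, Complex.cpow_zero, one_mul]

theorem h6b_sumG (hb0 : b ≠ 0) (hbm : IsCoprime b (Ideal.span {H.m})) (u : Eis)
    (hu3 : (3 : Eis) ∣ u - 1) (hu : IsCoprime (eF F hw u) H.m) (s : ℂ) (hs : 3 / 2 < s.re) :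
    HasSum (fun I : Cl F H.m b (eF F hw u) =>
      conj (emb (psi F (I : Ideal (𝓞 F)))) * (Ideal.absNorm (I : Ideal (𝓞 F)) : ℂ) ^ (-s))
      (h6b_G H D u s) := by
  obtain ⟨h2, h3⟩ := h6b_ne H hb0 hbm
  have h := (unsmooth H b hb0 hbm N D u hu3 hu s hs).mul_left
    ((conj (emb (psi F b)))⁻¹ * (Ideal.absNorm b : ℂ) ^ s)
  refine h.congr_fun ?_
  intro I
  rw [map_mul, ← h6b_cpow (Ideal.absNorm (I : Ideal (𝓞 F))) (Ideal.absNorm b) h2 s]
  field_simp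

theorem h6b_sumS (ψ : AddChar (𝓞 F ⧸ H.Q) ℂ) (hψ : ψ ≠ 1)
    (hb0 : b ≠ 0) (hbm : IsCoprime b (Ideal.span {H.m})) (hbQ : IsCoprime b H.Q)
    (hv : ∀ a (g : 𝓞 F) (y : Fin (r + 1) → ℂ), (∀ j, H.s j (g : F) = D.L j ⬝ᵥ y) →
      ch (v a) y = ψ ((a : 𝓞 F ⧸ H.Q) * Ideal.Quotient.mk H.Q g)) (u : Eis)
    (hu3 : (3 : Eis) ∣ u - 1) (hu : IsCoprime (eF F hw u) H.m) (s : ℂ) (hs : 3 / 2 < s.re) :
    HasSum (fun I : Cl F H.m b (eF F hw u) =>
      ((Ideal.absNorm H.Q : ℂ) * (if H.Q ∣ (I : Ideal (𝓞 F)) then 1 else 0) - 1) *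
      (conj (emb (psi F (I : Ideal (𝓞 F)))) * (Ideal.absNorm (I : Ideal (𝓞 F)) : ℂ) ^ (-s)))
      (h6b_S H D v u s) := by
  obtain ⟨h2, h3⟩ := h6b_ne H hb0 hbm
  have h := (smooth H ψ hψ b hb0 hbm hbQ N D v hv u hu3 hu s hs).mul_left
    ((conj (emb (psi F b)))⁻¹ * (Ideal.absNorm b : ℂ) ^ s)
  refine h.congr_fun ?_
  intro I
  rw [map_mul, ← h6b_cpow (Ideal.absNorm (I : Ideal (𝓞 F))) (Ideal.absNorm b) h2 s]
  field_simp

theorem h6b_T_val (hodd : ¬ (2 : ℤ) ∣ NumberField.discr F)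
    (ψ : AddChar (𝓞 F ⧸ H.Q) ℂ) (hψ : ψ ≠ 1)
    (hb0 : b ≠ 0) (hbm : IsCoprime b (Ideal.span {H.m})) (hbQ : IsCoprime b H.Q)
    (hN : Odd N) (hcN : ¬ H.c ∣ 2 * (N : Eis))
    (hcbig : ((2 * (r + 1)) ^ (4 * (r + 1)) : ℕ) < H.c.norm.natAbs)
    (hvW : ∀ a, ∃ W : Fin (r + 1) → Eis, v a = wc H.c W)
    (hv : ∀ a (g : 𝓞 F) (y : Fin (r + 1) → ℂ), (∀ j, H.s j (g : F) = D.L j ⬝ᵥ y) →
      ch (v a) y = ψ ((a : 𝓞 F ⧸ H.Q) * Ideal.Quotient.mk H.Q g))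
    (A : ValuationSubring ℂ) (hA : A.valuation 2 < 1) : A.valuation (h6b_T H D v 1) ≤ 1 := by
  have hm𝔫 : ((Ideal.span {H.m} ⊓ H.Q) ⊓ Ideal.span {(2 : 𝓞 F)}) ≤ Ideal.span {H.m} :=
    inf_le_left.trans inf_le_left
  have h0 : ((Ideal.span {H.m} ⊓ H.Q) ⊓ Ideal.span {(2 : 𝓞 F)}) ≠ ⊥ := by
    have h1 : Ideal.span {H.m} ≠ ⊥ := by
      rw [Ne, Ideal.span_singleton_eq_bot]; exact H.hm0
    have h2 : Ideal.span {(2 : 𝓞 F)} ≠ ⊥ := by
      rw [Ne, Ideal.span_singleton_eq_bot]; exact two_ne_zero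
    intro hbot
    have h3 : (Ideal.span {H.m} * H.Q) * Ideal.span {(2 : 𝓞 F)} ≤ ⊥ := by
      rw [← hbot]
      exact (Ideal.mul_le_inf).trans (inf_le_inf_right _ Ideal.mul_le_inf)
    exact mul_ne_zero (mul_ne_zero h1 H.hQ0) h2 (le_bot_iff.1 h3)
  obtain ⟨q₂, hq₂, hidx⟩ := index_factor F hodd H.m H.hm0 H.Q H.hQ0
  have hq := rep_card F H.s H.m H.hm0 _ h0 hm𝔫 H.e H.he H.q H.η H.hη
  rw [hidx] at hq
  have hu1 : IsCoprime (eF F hw 1) H.m := by rw [map_one]; exact isCoprime_one_left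
  have hsum := sum_val (HH F H.m H.Q) (fun a => VV H D (v a) 1) (fun g h hh => by
      simp only [h6b_VV]
      rw [AA_orbit H ψ hψ b hb0 hbm N D v hv 1 (by rw [sub_self]; exact dvd_zero _) hu1
        isCoprime_one_left g h hh]) A
    (fun a => VV_val H ψ hψ b hb0 hbm hbQ N hN hcN hcbig D v hvW hv A hA a)
  have e : h6b_T H D v 1 = (q₂ : ℂ)⁻¹ * emb (psi F b) *
      ((Nat.card (HH F H.m H.Q) : ℂ)⁻¹ * ∑ a, VV H D (v a) 1) / D.L.det := by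
    rw [h6b_T, hq]
    push_cast
    rw [mul_inv]
    ring
  rw [e, map_div₀, D.val A hA, div_one, map_mul, map_mul, map_inv₀, h6b_val_odd A hA q₂ hq₂, inv_one,
    one_mul]
  exact mul_le_one₀ (val_emb A _) zero_le hsum

theorem h6b_T_gal
    (ψ : AddChar (𝓞 F ⧸ H.Q) ℂ) (hψ : ψ ≠ 1)
    (hb0 : b ≠ 0) (hbm : IsCoprime b (Ideal.span {H.m})) (hbQ : IsCoprime b H.Q)
    (hN : Odd N) (hcN : ¬ H.c ∣ 2 * (N : Eis))
    (hcbig : ((2 * (r + 1)) ^ (4 * (r + 1)) : ℕ) < H.c.norm.natAbs)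
    (hvW : ∀ a, ∃ W : Fin (r + 1) → Eis, v a = wc H.c W)
    (hv : ∀ a (g : 𝓞 F) (y : Fin (r + 1) → ℂ), (∀ j, H.s j (g : F) = D.L j ⬝ᵥ y) →
      ch (v a) y = ψ ((a : 𝓞 F ⧸ H.Q) * Ideal.Quotient.mk H.Q g)) :
    ∃ N₂ : ℕ, Odd N₂ ∧ ∀ N' : ℕ, N₂ ∣ N' → Odd N' →
    ∀ σ : ℂ ≃+* ℂ, σ CM27.w = CM27.w → ∀ u : Eis, IsCoprime u (N' : Eis) →
    (∀ c : Eis, ptMap (σ : ℂ →+* ℂ) (pt (emb c / N')) = pt (emb (c * u) / N')) →
      σ (h6b_T H D v 1) * σ H.δ = h6b_T H D v u * H.δ := by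
  obtain ⟨N₂, hN₂, hgal⟩ := VV_gal H ψ hψ b hb0 hbm hbQ N hN hcN hcbig D v hvW hv
  refine ⟨N₂, hN₂, fun N' hd hN' σ hσ u hu hσu => ?_⟩
  have h1 := hgal N' hd hN' σ hσ u hu hσu
  have h2 := D.gal σ hσ
  have h3 : σ D.L.det ≠ 0 := by
    rw [Ne, map_eq_zero_iff σ σ.injective]
    exact D.hL
  have hemb : σ (emb (psi F b)) = emb (psi F b) := by
    rw [emb_apply, map_add, map_mul, map_intCast, map_intCast, hσ]
  rw [h6b_T, h6b_T, map_div₀, map_mul, map_mul, map_inv₀, map_natCast, h1, hemb]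
  rw [div_mul_eq_mul_div, div_mul_eq_mul_div, div_eq_div_iff h3 D.hL]
  linear_combination (-((H.q : ℂ)⁻¹ * emb (psi F b) * ∑ a, VV H D (v a) u)) * h2

end

/-! ### all ideal classes -/

section
variable {r : ℕ} {F : IntermediateField ℚ ℂ} [NumberField F] {hw : w ∈ F}

theorem h6b_le (H : HD F hw r) :
    ((Ideal.span {H.m} ⊓ H.Q) ⊓ Ideal.span {(2 : 𝓞 F)}) ≤ Ideal.span {H.m} :=
  inf_le_left.trans inf_le_left

theorem h6b_main (hodd : ¬ (2 : ℤ) ∣ NumberField.discr F) (H : HD F hw r)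
    (C : Finset (Ideal (𝓞 F)))
    (hC : ∀ b ∈ C, b ≠ 0 ∧ IsCoprime b (Ideal.span {H.m}) ∧
      IsCoprime b (Ideal.span {(2 : 𝓞 F)}) ∧ IsCoprime b H.Q)
    (hray : ∀ u : 𝓞 F, IsCoprime u H.m → ∀ I : Ideal (𝓞 F), I ≠ 0 →
      IsCoprime I (Ideal.span {H.m}) →
      ∃! c : Ideal (𝓞 F), c ∈ C ∧ ∃ g : 𝓞 F, g ≠ 0 ∧ H.m ∣ g - u ∧ I * c = Ideal.span {g})
    (hm1 : ¬ IsUnit H.m)
    (N : ℕ) (hN : Odd N) (hNc : ∀ b ∈ C, Ideal.absNorm (Ideal.span {H.m} * b) ∣ N)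
    (hmN : H.m ∣ (N : 𝓞 F)) (hcN : ¬ H.c ∣ 2 * (N : Eis))
    (hcbig : ((2 * (r + 1)) ^ (4 * (r + 1)) : ℕ) < H.c.norm.natAbs) :
    ∃ (T : Ideal (𝓞 F) → Eis → ℂ) (N₂ : ℕ), Odd N₂ ∧
      (∀ A : ValuationSubring ℂ, A.valuation 2 < 1 → ∀ b ∈ C, A.valuation (T b 1) ≤ 1) ∧
      (∀ N' : ℕ, N₂ ∣ N' → Odd N' → ∀ σ : ℂ ≃+* ℂ, σ w = w → ∀ u : Eis,
        IsCoprime u (N' : Eis) →
        (∀ c : Eis, ptMap (σ : ℂ →+* ℂ) (pt (emb c / N')) = pt (emb (c * u) / N')) →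
        ∀ b ∈ C, σ (T b 1) * σ H.δ = T b u * H.δ) ∧
      ∀ χ : Ideal (𝓞 F) → ℤ, IsRC F H.m χ → ∃ Φ : ℂ → ℂ, Differentiable ℂ Φ ∧
        (∀ s : ℂ, 3 / 2 < s.re → HasSum (fun I : Ideal (𝓞 F) =>
          (χ I : ℂ) * conj (emb (psi F I)) * (Ideal.absNorm I : ℂ) ^ (-s)) (Φ s)) ∧
        ∀ u : Eis, IsCoprime u (N : Eis) → (3 : Eis) ∣ u - 1 →
          ((χ H.Q : ℂ) * conj (emb (psi F H.Q)) - 1) * Φ 1
            = OmC ^ (r + 1) * (χ (Ideal.span {eF F hw u}) : ℂ) * ∑ b ∈ C, (χ b : ℂ) * T b u := by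
  have : Finite (𝓞 F ⧸ H.Q) := Ideal.finiteQuotientOfFreeOfNeBot H.Q H.hQ0
  let _ : Fintype (𝓞 F ⧸ H.Q)ˣ := Fintype.ofFinite _
  have : Nontrivial (𝓞 F ⧸ H.Q) := Ideal.Quotient.nontrivial_iff.2 H.hQ.ne_top
  obtain ⟨ψ, hψ1⟩ := (AddChar.exists_apply_ne_zero (a := (1 : 𝓞 F ⧸ H.Q))).2 one_ne_zero
  have hψ : ψ ≠ 1 := by
    rintro rfl
    exact hψ1 rfl
  have hD : ∀ b ∈ C, Nonempty (LD F hw H.s H.m H.e b N H.δ) := fun b hb =>
    exists_LD F hw H.s H.hs H.δ H.hδ hodd H.m H.hm0 H.h3 H.hm2 _ (h6b_le H) H.e H.he b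
      (hC b hb).1 (hC b hb).2.1 (hC b hb).2.2.1 N (hNc b hb)
  obtain ⟨D⟩ : Nonempty (∀ b, b ∈ C → LD F hw H.s H.m H.e b N H.δ) :=
    ⟨fun b hb => (hD b hb).some⟩
  have hv : ∀ b (hb : b ∈ C), ∃ v : (𝓞 F ⧸ H.Q)ˣ → Fin (r + 1) → ℂ,
      (∀ a, ∃ W : Fin (r + 1) → Eis, v a = wc H.c W) ∧
      ∀ a (g : 𝓞 F) (y : Fin (r + 1) → ℂ), (∀ j, H.s j (g : F) = (D b hb).L j ⬝ᵥ y) →
        ch (v a) y = ψ ((a : 𝓞 F ⧸ H.Q) * Ideal.Quotient.mk H.Q g) := by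
    intro b hb
    exact exists_v H ψ b N (D b hb)
  choose v hvW hvψ using hv
  have hg : ∀ b (hb : b ∈ C), ∃ N₂ : ℕ, Odd N₂ ∧ ∀ N' : ℕ, N₂ ∣ N' → Odd N' →
      ∀ σ : ℂ ≃+* ℂ, σ CM27.w = CM27.w → ∀ u : Eis, IsCoprime u (N' : Eis) →
      (∀ c : Eis, ptMap (σ : ℂ →+* ℂ) (pt (emb c / N')) = pt (emb (c * u) / N')) →
      σ (h6b_T H (D b hb) (v b hb) 1) * σ H.δ = h6b_T H (D b hb) (v b hb) u * H.δ := by
    intro b hb
    exact h6b_T_gal H (D b hb) (v b hb) ψ hψ (hC b hb).1 (hC b hb).2.1 (hC b hb).2.2.2 hN hcN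
      hcbig (hvW b hb) (hvψ b hb)
  choose n₂ hn₂ hgal using hg
  have hcop : ∀ u : Eis, IsCoprime u (N : Eis) → IsCoprime (eF F hw u) H.m := by
    intro u hu
    have h5 := hu.map (eF F hw)
    rw [map_natCast] at h5
    exact h5.of_isCoprime_of_dvd_right hmN
  let T : Ideal (𝓞 F) → Eis → ℂ := fun b u =>
    if h : b ∈ C then h6b_T H (D b h) (v b h) u else 0
  let G : Ideal (𝓞 F) → ℂ → ℂ := fun b s => if h : b ∈ C then h6b_G H (D b h) 1 s else 0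
  let S : Ideal (𝓞 F) → Eis → ℂ → ℂ := fun b u s =>
    if h : b ∈ C then h6b_S H (D b h) (v b h) u s else 0
  have hT : ∀ b (h : b ∈ C) u, T b u = h6b_T H (D b h) (v b h) u := fun b h u => dif_pos h
  have hG : ∀ b (h : b ∈ C) s, G b s = h6b_G H (D b h) 1 s := fun b h s => dif_pos h
  have hS : ∀ b (h : b ∈ C) u s, S b u s = h6b_S H (D b h) (v b h) u s :=
    fun b h u s => dif_pos h
  refine ⟨T, ∏ b ∈ C.attach, n₂ b.1 b.2, ?_, ?_, ?_, ?_⟩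
  · apply Finset.prod_induction _ Odd (fun a b ha hb => ha.mul hb) odd_one
    intro b _
    exact hn₂ b.1 b.2
  · intro A hA b hb
    rw [hT b hb]
    exact h6b_T_val H (D b hb) (v b hb) hodd ψ hψ (hC b hb).1 (hC b hb).2.1 (hC b hb).2.2.2
      hN hcN hcbig (hvW b hb) (hvψ b hb) A hA
  · intro N' hd hN' σ hσ u hu hσu b hb
    rw [hT b hb, hT b hb]
    refine hgal b hb N' (dvd_trans ?_ hd) hN' σ hσ u hu hσu
    exact Finset.dvd_prod_of_mem (fun b : {x // x ∈ C} => n₂ b.1 b.2) (Finset.mem_attach C ⟨b, hb⟩)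
  · intro χ hχ
    have h1c : IsCoprime (1 : Eis) (N : Eis) := isCoprime_one_left
    have h13 : (3 : Eis) ∣ 1 - 1 := by rw [sub_self]; exact dvd_zero _
    -- the unsmoothed function
    obtain ⟨Φ, hΦ⟩ : ∃ Φ : ℂ → ℂ, ∀ s, Φ s =
      (χ (Ideal.span {eF F hw 1}) : ℂ) * ∑ b ∈ C, (χ b : ℂ) * G b s := ⟨_, fun s => rfl⟩
    have hΦd : Differentiable ℂ Φ := by
      have e : Φ = fun s => (χ (Ideal.span {eF F hw 1}) : ℂ) * ∑ b ∈ C, (χ b : ℂ) * G b s :=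
        funext hΦ
      rw [e]
      apply Differentiable.const_mul
      apply Differentiable.fun_sum
      intro b hb
      apply Differentiable.const_mul
      have h5 : G b = h6b_G H (D b hb) 1 := funext fun s => hG b hb s
      rw [h5]
      exact h6b_G_diff H (D b hb) (hC b hb).1 1 h1c
    have hΦs : ∀ s : ℂ, 3 / 2 < s.re → HasSum (fun I : Ideal (𝓞 F) =>
          (χ I : ℂ) * (conj (emb (psi F I)) * (Ideal.absNorm I : ℂ) ^ (-s))) (Φ s) := by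
      intro s hs'
      rw [hΦ]
      exact h6b_hasSum F H.m hm1 χ hχ C (fun b hb => ⟨(hC b hb).1, (hC b hb).2.1⟩) (eF F hw 1)
        (hcop 1 h1c) (hray _ (hcop 1 h1c))
        (fun I => conj (emb (psi F I)) * (Ideal.absNorm I : ℂ) ^ (-s)) (by
          show conj (emb (psi F 0)) * (Ideal.absNorm (0 : Ideal (𝓞 F)) : ℂ) ^ (-s) = 0
          rw [NAB.psi, cm_zero, map_zero, map_zero, zero_mul]) (fun b => G b s) (by
          intro b hb
          show HasSum _ (G b s)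
          rw [hG b hb]
          exact h6b_sumG H (D b hb) (hC b hb).1 (hC b hb).2.1 1 h13 (hcop 1 h1c) s hs')
    refine ⟨Φ, hΦd, ?_, ?_⟩
    · intro s hs'
      refine (hΦs s hs').congr_fun ?_
      intro I
      rw [mul_assoc]
    · intro u hu hu3
      -- the smoothed function
      have hSd : Differentiable ℂ (fun s =>
          (χ (Ideal.span {eF F hw u}) : ℂ) * ∑ b ∈ C, (χ b : ℂ) * S b u s) := by
        apply Differentiable.const_mul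
        apply Differentiable.fun_sum
        intro b hb
        apply Differentiable.const_mul
        have h5 : S b u = h6b_S H (D b hb) (v b hb) u := funext fun s => hS b hb u s
        rw [h5]
        exact h6b_S_diff H (D b hb) (v b hb) (hC b hb).1 u hu
      have hQn : (Ideal.absNorm H.Q : ℂ) ≠ 0 := by
        rw [Nat.cast_ne_zero]
        intro h
        exact H.hQ0 (Ideal.absNorm_eq_zero_iff.1 h)
      have hRd : Differentiable ℂ (fun s => ((Ideal.absNorm H.Q : ℂ) *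
          ((χ H.Q : ℂ) * conj (emb (psi F H.Q)) * (Ideal.absNorm H.Q : ℂ) ^ (-s)) - 1) * Φ s) := by
        have h1 : Differentiable ℂ (fun s : ℂ => (Ideal.absNorm H.Q : ℂ) ^ (-s)) := by
          apply Differentiable.const_cpow differentiable_id.neg
          left
          exact hQn
        exact (((h1.const_mul _).const_mul _).sub_const 1).mul hΦd
      have hS1 : ∀ s : ℂ, 3 / 2 < s.re → HasSum (fun I : Ideal (𝓞 F) =>
          (χ I : ℂ) * (((Ideal.absNorm H.Q : ℂ) * (if H.Q ∣ I then 1 else 0) - 1) *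
            (conj (emb (psi F I)) * (Ideal.absNorm I : ℂ) ^ (-s))))
          ((χ (Ideal.span {eF F hw u}) : ℂ) * ∑ b ∈ C, (χ b : ℂ) * S b u s) := by
        intro s hs'
        exact h6b_hasSum F H.m hm1 χ hχ C (fun b hb => ⟨(hC b hb).1, (hC b hb).2.1⟩) (eF F hw u)
          (hcop u hu) (hray _ (hcop u hu))
          (fun I => ((Ideal.absNorm H.Q : ℂ) * (if H.Q ∣ I then 1 else 0) - 1) *
            (conj (emb (psi F I)) * (Ideal.absNorm I : ℂ) ^ (-s))) (by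
            show _ * (conj (emb (psi F 0)) * (Ideal.absNorm (0 : Ideal (𝓞 F)) : ℂ) ^ (-s)) = 0
            rw [NAB.psi, cm_zero, map_zero, map_zero, zero_mul, mul_zero]) (fun b => S b u s) (by
            intro b hb
            show HasSum _ (S b u s)
            rw [hS b hb]
            exact h6b_sumS H (D b hb) (v b hb) ψ hψ (hC b hb).1 (hC b hb).2.1 (hC b hb).2.2.2
              (hvψ b hb) u hu3 (hcop u hu) s hs')
      have hS2 : ∀ s : ℂ, 3 / 2 < s.re → HasSum (fun I : Ideal (𝓞 F) =>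
          (χ I : ℂ) * (((Ideal.absNorm H.Q : ℂ) * (if H.Q ∣ I then 1 else 0) - 1) *
            (conj (emb (psi F I)) * (Ideal.absNorm I : ℂ) ^ (-s))))
          (((Ideal.absNorm H.Q : ℂ) *
          ((χ H.Q : ℂ) * conj (emb (psi F H.Q)) * (Ideal.absNorm H.Q : ℂ) ^ (-s)) - 1) * Φ s) := by
        intro s hs'
        have h1 := h6b_mult F H.Q H.hQ0 _ (fun I : Ideal (𝓞 F) =>
          (χ I : ℂ) * (conj (emb (psi F I)) * (Ideal.absNorm I : ℂ) ^ (-s)))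
          ((χ H.Q : ℂ) * conj (emb (psi F H.Q)) * (Ideal.absNorm H.Q : ℂ) ^ (-s)) (Φ s)
          (hΦs s hs') (by
            intro I
            have e1 : NAB.psi F (H.Q * I) = NAB.psi F H.Q * NAB.psi F I := NAB.cm_mul _ _ _
            rw [hχ.mul, e1, map_mul, map_mul, map_mul, Nat.cast_mul,
              Complex.natCast_mul_natCast_cpow]
            push_cast
            ring)
        have h2 := (h1.mul_left (Ideal.absNorm H.Q : ℂ)).sub (hΦs s hs')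
        have e : ((Ideal.absNorm H.Q : ℂ) *
          ((χ H.Q : ℂ) * conj (emb (psi F H.Q)) * (Ideal.absNorm H.Q : ℂ) ^ (-s)) - 1) * Φ s =
          (Ideal.absNorm H.Q : ℂ) *
          ((χ H.Q : ℂ) * conj (emb (psi F H.Q)) * (Ideal.absNorm H.Q : ℂ) ^ (-s) * Φ s) - Φ s := by
          ring
        rw [e]
        refine h2.congr_fun ?_
        intro I
        split_ifs <;> ring
      have h5 := h6b_ident _ _ hSd hRd (fun s hs' => (hS1 s hs').unique (hS2 s hs'))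
      have h6 : (χ (Ideal.span {eF F hw u}) : ℂ) * ∑ b ∈ C, (χ b : ℂ) * S b u 1 =
          ((Ideal.absNorm H.Q : ℂ) *
          ((χ H.Q : ℂ) * conj (emb (psi F H.Q)) * (Ideal.absNorm H.Q : ℂ) ^ (-1 : ℂ)) - 1) * Φ 1 :=
        congrFun h5 1
      have h7 : ∑ b ∈ C, (χ b : ℂ) * S b u 1 = OmC ^ (r + 1) * ∑ b ∈ C, (χ b : ℂ) * T b u := by
        rw [Finset.mul_sum]
        apply Finset.sum_congr rfl
        intro b hb
        rw [hS b hb, hT b hb, h6b_S_one H (D b hb) (v b hb) (hC b hb).1 (hC b hb).2.1]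
        ring
      have h8 : (Ideal.absNorm H.Q : ℂ) *
          ((χ H.Q : ℂ) * conj (emb (psi F H.Q)) * (Ideal.absNorm H.Q : ℂ) ^ (-1 : ℂ)) =
          (χ H.Q : ℂ) * conj (emb (psi F H.Q)) := by
        rw [Complex.cpow_neg_one]
        field_simp
      rw [h8, h7] at h6
      rw [← h6]
      ring

end

variable {r : ℕ} (F : IntermediateField ℚ ℂ) [NumberField F] (hw : w ∈ F)

theorem hecke_final (hrank : Module.finrank ℚ F = 2 * (r + 1))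
    (hodd : ¬ (2 : ℤ) ∣ NumberField.discr F) (hsm : Smooth F hw)
    (m : 𝓞 F) (hm0 : m ≠ 0) (h3 : (3 : 𝓞 F) ∣ m) (hm2 : IsCoprime m 2) (N0 : ℕ) (hN0 : Odd N0) :
    ∃ (C : Finset (Ideal (𝓞 F))) (N : ℕ) (T : Ideal (𝓞 F) → Eis → ℂ) (δ : ℂ) (Q : Ideal (𝓞 F)),
      Odd N ∧ 3 ∣ N ∧ N0 ∣ N ∧ |(NumberField.discr F : ℝ)| = 3 ^ (r + 1) * ‖δ‖ ^ 4 ∧ δ ≠ 0 ∧
      (∃ s : Fin (r + 1) → F →+* ℂ, IsS F hw s ∧ IsDel F hw s δ) ∧
      (∀ b ∈ C, b ≠ 0 ∧ IsCoprime b (Ideal.span {m})) ∧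
      Q ≠ 0 ∧ IsCoprime Q (Ideal.span {m}) ∧ ¬ (2 : Eis) ∣ psi F Q - 1 ∧
      (∀ A : ValuationSubring ℂ, A.valuation 2 < 1 → ∀ b ∈ C, A.valuation (T b 1) ≤ 1) ∧
      (∀ σ : ℂ ≃+* ℂ, σ w = w → ∀ u : Eis, IsCoprime u (N : Eis) → (3 : Eis) ∣ u - 1 →
        (∀ c : Eis, ptMap (σ : ℂ →+* ℂ) (pt (emb c / N)) = pt (emb (c * u) / N)) →
        ∀ b ∈ C, σ (T b 1) * σ δ = T b u * δ) ∧
      ∀ χ : Ideal (𝓞 F) → ℤ, IsRC F m χ → ∃ Φ : ℂ → ℂ, Differentiable ℂ Φ ∧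
        (∀ s : ℂ, 3 / 2 < s.re → HasSum (fun I : Ideal (𝓞 F) =>
          (χ I : ℂ) * conj (emb (psi F I)) * (Ideal.absNorm I : ℂ) ^ (-s)) (Φ s)) ∧
        ∀ u : Eis, IsCoprime u (N : Eis) → (3 : Eis) ∣ u - 1 →
          ((χ Q : ℂ) * conj (emb (psi F Q)) - 1) * Φ 1
            = OmC ^ (r + 1) * (χ (Ideal.span {eF F hw u}) : ℂ) * ∑ b ∈ C, (χ b : ℂ) * T b u := by
  obtain ⟨s, hs⟩ := exists_s F hw hrank
  obtain ⟨δ, hδ⟩ := exists_del F hw s hs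
  obtain ⟨hdisc, -⟩ := del_disc F hw s hs δ hδ
  have hm1 : ¬ IsUnit m := fun h => h6b_three F (isUnit_of_dvd_unit h3 h)
  obtain ⟨C, hC, hray⟩ := ray_classes F m hm0 hm1 hm2
  have hmI : IsCoprime (Ideal.span {m}) (Ideal.span {(2 : 𝓞 F)}) := by
    rw [Ideal.isCoprime_span_singleton_iff]
    exact hm2
  have hmne : Ideal.span {m} ≠ 0 := by
    rw [Ne, Ideal.zero_eq_bot, Ideal.span_singleton_eq_bot]
    exact hm0
  obtain ⟨N, hN⟩ : ∃ N : ℕ, N = 3 * N0 * ∏ c ∈ C, Ideal.absNorm (Ideal.span {m} * c) :=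
    ⟨_, rfl⟩
  have hNodd : Odd N := by
    rw [hN]
    apply Odd.mul ((by decide : Odd 3).mul hN0)
    apply Finset.prod_induction _ Odd (fun a b ha hb => ha.mul hb) odd_one
    intro c hc
    exact h6b_odd F _ (mul_ne_zero hmne (hC c hc).1) (IsCoprime.mul_left hmI (hC c hc).2.2)
  have hN3 : 3 ∣ N := by
    rw [hN]
    exact Dvd.dvd.mul_right (dvd_mul_right _ _) _
  have hNN0 : N0 ∣ N := by
    rw [hN]
    exact Dvd.dvd.mul_right (dvd_mul_left _ _) _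
  have hNc : ∀ c ∈ C, Ideal.absNorm (Ideal.span {m} * c) ∣ N := by
    intro c hc
    rw [hN]
    exact Dvd.dvd.mul_left (Finset.dvd_prod_of_mem _ hc) _
  obtain ⟨c₀, hc₀⟩ : ∃ c₀, c₀ ∈ C := by
    obtain ⟨c, hc, -⟩ := hray 1 isCoprime_one_left 1 one_ne_zero isCoprime_one_left
    exact ⟨c, hc.1⟩
  have hmN : m ∣ (N : 𝓞 F) := (h6b_dvd F m c₀ N (hNc c₀ hc₀)).1
  -- the smoothing prime
  obtain ⟨Q, c, hQ, hQ0, hc, hcQ, hcB, hQ2⟩ := hsm (4 * N ^ 2 + (2 * (r + 1)) ^ (4 * (r + 1)))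
  have hN0' : N ≠ 0 := by
    rintro h
    rw [h] at hNodd
    exact absurd hNodd (by decide)
  have hcN : ¬ c ∣ 2 * (N : Eis) := by
    rintro ⟨k, hk⟩
    have h1 := congrArg (fun x : Eis => x.norm) hk
    simp only [map_mul] at h1
    have e2 : (2 : Eis).norm = 4 := by decide
    have hN' : (N : Eis).norm = (N : ℤ) ^ 2 := QuadraticAlgebra.norm_natCast N
    rw [e2, hN'] at h1
    have h5 : c.norm ∣ 4 * (N : ℤ) ^ 2 := ⟨_, h1⟩
    have h6 := Int.natAbs_dvd_natAbs.2 h5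
    have h7 : (4 * (N : ℤ) ^ 2).natAbs = 4 * N ^ 2 := by
      rw [Int.natAbs_mul, Int.natAbs_pow, Int.natAbs_natCast]
      rfl
    rw [h7] at h6
    have h8 := Nat.le_of_dvd (by positivity) h6
    omega
  have hcbig : ((2 * (r + 1)) ^ (4 * (r + 1)) : ℕ) < c.norm.natAbs := by omega
  have hcop2 : IsCoprime c (2 * (N : Eis)) := by
    have := eis_isDomain
    have := eis_pid
    exact (Irreducible.coprime_iff_not_dvd hc.irreducible).2 hcN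
  have hc2 : IsCoprime c 2 := hcop2.of_mul_right_left
  have hcN' : IsCoprime c (N : Eis) := hcop2.of_mul_right_right
  have hQm : IsCoprime Q (Ideal.span {m}) := (h6b_cop F hw Q hQ hQ0 c hcQ (N : Eis) hcN' _ (by
    rw [map_natCast]
    exact Ideal.mem_span_singleton.2 hmN)).symm
  have hQ2' : IsCoprime Q (Ideal.span {(2 : 𝓞 F)}) := (h6b_cop F hw Q hQ hQ0 c hcQ 2 hc2 _ (by
    rw [map_ofNat]
    exact Ideal.mem_span_singleton_self _)).symm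
  have hbQ : ∀ b ∈ C, IsCoprime b Q := fun b hb =>
    h6b_cop F hw Q hQ hQ0 c hcQ (N : Eis) hcN' b (by
      rw [map_natCast]
      exact (h6b_dvd F m b N (hNc b hb)).2)
  have hm𝔫 : ((Ideal.span {m} ⊓ Q) ⊓ Ideal.span {(2 : 𝓞 F)}) ≤ Ideal.span {m} :=
    inf_le_left.trans inf_le_left
  have h0 : ((Ideal.span {m} ⊓ Q) ⊓ Ideal.span {(2 : 𝓞 F)}) ≠ ⊥ := by
    have h2 : Ideal.span {(2 : 𝓞 F)} ≠ ⊥ := by
      rw [Ne, Ideal.span_singleton_eq_bot]; exact two_ne_zero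
    intro hbot
    have h3 : (Ideal.span {m} * Q) * Ideal.span {(2 : 𝓞 F)} ≤ ⊥ := by
      rw [← hbot]
      exact (Ideal.mul_le_inf).trans (inf_le_inf_right _ Ideal.mul_le_inf)
    exact mul_ne_zero (mul_ne_zero hmne hQ0) h2 (le_bot_iff.1 h3)
  obtain ⟨e, he⟩ := exists_basis F hw s hs _ h0
    (hm𝔫.trans (Ideal.span_singleton_le_span_singleton.2 h3))
  obtain ⟨η, hη⟩ := exists_rep F s m hm0 _ h0 hm𝔫 e he
  obtain ⟨T, N₂, hN₂, hTv, hTg, hχ⟩ := h6b_main hodd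
    { s := s, hs := hs, m := m, hm0 := hm0, h3 := h3, hm2 := hm2, Q := Q, hQ := hQ, hQ0 := hQ0,
      hQm := hQm, hQ2 := hQ2', c := c, hc := hc, hcQ := hcQ, e := e, he := he, q := _, η := η,
      hη := hη, δ := δ, hδ := hδ } C
    (fun b hb => ⟨(hC b hb).1, (hC b hb).2.1, (hC b hb).2.2, hbQ b hb⟩) (fun u hu => hray u hu)
    hm1 N hNodd hNc hmN hcN hcbig
  refine ⟨C, N * N₂, T, δ, Q, hNodd.mul hN₂, hN3.mul_right _, hNN0.mul_right _, hdisc, hδ.ne,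
    ⟨s, hs, hδ⟩, fun b hb => ⟨(hC b hb).1, (hC b hb).2.1⟩, hQ0, hQm, hQ2, hTv, ?_, ?_⟩
  · intro σ hσ u hu _ hσu b hb
    exact hTg (N * N₂) (dvd_mul_left _ _) (hNodd.mul hN₂) σ hσ u hu hσu b hb
  · intro χ hχ'
    obtain ⟨Φ, hΦ, hΦs, hΦu⟩ := hχ χ hχ'
    refine ⟨Φ, hΦ, hΦs, fun u hu hu3 => hΦu u ?_ hu3⟩
    rw [Nat.cast_mul] at hu
    exact hu.of_mul_right_left

end NG
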