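import Pool.Agent.MP_9ab903_nt.NG.H6b

/-! ## [NG-H7] the congruence modulo 2

`hecke_final` for the modulus `m`. Let `κ = conj (emb (psi Q))`, `y_χ = (χ(Q) κ - 1) Φ_χ(1)/OmC^n = ∑_b χ(b) T b 1`. For 2-adic `A`: `χ(Q) κ - 1` is a unit
(`psi Q ≠ 1 mod 2` in `𝔽₄`, `χ(Q) = ± 1`; an element of `ℤ[ω]` not divisible by `2` has odd norm or ..: `2` is inert, so `norm` is odd or
divisible by 4; `x = χ(Q) psi(Q) - 1` is not divisible by `2`, so `norm x` is odd), `y_χ - y_χ' = ∑ (χ(b) - χ'(b)) T b 1` has valuation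
`< 1`. So `y_χ' unit ⇒ y_χ unit`. Uniqueness of `Φ`: two entire functions with the same series agree (identity theorem). -/

set_option autoImplicit false

open NumberField IsDedekindDomain MeasureTheory Set
open CM27 CMT CF NAB
open scoped ComplexConjugate Classical Matrix

namespace NG

variable {r : ℕ} (F : IntermediateField ℚ ℂ) [NumberField F] (hw : w ∈ F)

/-- `Φ` is the entire continuation of the `L`-series of `χ conj ψ`. -/
structure IsL (χ : Ideal (𝓞 F) → ℤ) (Φ : ℂ → ℂ) : Prop where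
  diff : Differentiable ℂ Φ
  sum : ∀ s : ℂ, 3 / 2 < s.re → HasSum (fun I : Ideal (𝓞 F) =>
          (χ I : ℂ) * conj (emb (psi F I)) * (Ideal.absNorm I : ℂ) ^ (-s)) (Φ s)

theorem h7_unique {F : IntermediateField ℚ ℂ} [NumberField F] {χ : Ideal (𝓞 F) → ℤ} {Φ Φ' : ℂ → ℂ}
    (h : IsL F χ Φ) (h' : IsL F χ Φ') : Φ = Φ' := by
  have h1 : AnalyticOnNhd ℂ Φ Set.univ :=
    Complex.analyticOnNhd_univ_iff_differentiable.2 h.diff
  have h2 : AnalyticOnNhd ℂ Φ' Set.univ :=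
    Complex.analyticOnNhd_univ_iff_differentiable.2 h'.diff
  have hev : Φ =ᶠ[nhds 2] Φ' := by
    have hopen : IsOpen {s : ℂ | 3 / 2 < s.re} := isOpen_lt continuous_const Complex.continuous_re
    filter_upwards [hopen.mem_nhds (show (2 : ℂ) ∈ {s : ℂ | 3 / 2 < s.re} by
      change (3 / 2 : ℝ) < (2 : ℂ).re
      norm_num)] with s hs
    exact (h.sum s hs).unique (h'.sum s hs)
  exact h1.eq_of_eventuallyEq h2 hev

theorem h7_cases {F : IntermediateField ℚ ℂ} [NumberField F] {m : 𝓞 F} {χ : Ideal (𝓞 F) → ℤ}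
    (hχ : IsRC F m χ) (I : Ideal (𝓞 F)) : χ I = 0 ∨ χ I = 1 ∨ χ I = -1 := by
  by_cases hI : I = 0
  · subst hI
    have h1 := hχ.mul 0 0
    rw [mul_zero] at h1
    have h2 : χ 0 * (χ 0 - 1) = 0 := by linear_combination -h1
    rcases mul_eq_zero.1 h2 with h3 | h3
    · exact Or.inl h3
    · right; left; linarith
  · by_cases hc : IsCoprime I (Ideal.span {m})
    · exact Or.inr (hχ.pm I hI hc)
    · exact Or.inl (hχ.zero I hc)

/-- an element of `ℤ[ω]` not divisible by `2` has odd norm -/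
theorem h7_norm_odd (x : Eis) (hx : ¬ (2 : Eis) ∣ x) : Odd x.norm := by
  rw [← Int.not_even_iff_odd]
  intro h
  apply hx
  rw [norm_eq] at h
  have h1 : Even x.re ∧ Even x.im := by
    rcases Int.even_or_odd x.re with h1 | h1 <;> rcases Int.even_or_odd x.im with h2 | h2
    · exact ⟨h1, h2⟩
    · exfalso
      revert h
      rw [imp_false, Int.not_even_iff_odd]
      obtain ⟨a, ha⟩ := h1
      obtain ⟨b, hb⟩ := h2
      rw [ha, hb]
      exact ⟨2 * a ^ 2 - 2 * a * b - a + 2 * b ^ 2 + 2 * b, by ring⟩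
    · exfalso
      revert h
      rw [imp_false, Int.not_even_iff_odd]
      obtain ⟨a, ha⟩ := h1
      obtain ⟨b, hb⟩ := h2
      rw [ha, hb]
      exact ⟨2 * b ^ 2 - 2 * a * b - b + 2 * a ^ 2 + 2 * a, by ring⟩
    · exfalso
      revert h
      rw [imp_false, Int.not_even_iff_odd]
      obtain ⟨a, ha⟩ := h1
      obtain ⟨b, hb⟩ := h2
      rw [ha, hb]
      exact ⟨2 * a ^ 2 + a - 2 * a * b + 2 * b ^ 2 + b, by ring⟩
  obtain ⟨⟨a, ha⟩, ⟨b, hb⟩⟩ := h1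
  refine ⟨⟨a, b⟩, ?_⟩
  have h2 : (2 : Eis).re = 2 := rfl
  have h3 : (2 : Eis).im = 0 := rfl
  ext
  · simp only [QuadraticAlgebra.re_mul, h2, h3]
    linarith
  · simp only [QuadraticAlgebra.im_mul, h2, h3]
    linarith

/-- `χ(Q) conj ψ(Q) - 1` is a unit at `2` and is `emb` of an element -/
theorem h7_unit (x : Eis) (hx : ¬ (2 : Eis) ∣ x - 1) (k : ℤ) (hk : k = 1 ∨ k = -1)
    (A : ValuationSubring ℂ) (hA : A.valuation 2 < 1) :
    A.valuation ((k : ℂ) * conj (emb x) - 1) = 1 := by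
  have h1 : (k : ℂ) * conj (emb x) - 1 = emb (star ((k : Eis) * x - 1)) := by
    rw [CM27.emb_star]
    simp only [map_sub, map_mul, map_one, map_intCast]
  have h2 : ¬ (2 : Eis) ∣ (k : Eis) * x - 1 := by
    rcases hk with rfl | rfl
    · simpa using hx
    · intro h
      apply hx
      obtain ⟨c, hc⟩ := h
      refine ⟨-c - 1, ?_⟩
      push_cast at hc
      linear_combination -hc
  have h3 : Odd (star ((k : Eis) * x - 1)).norm := by
    rw [QuadraticAlgebra.norm_star]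
    exact h7_norm_odd _ h2
  rw [h1]
  exact val_odd_norm A hA _ h3

theorem value_unit (hrank : Module.finrank ℚ F = 2 * (r + 1))
    (hodd : ¬ (2 : ℤ) ∣ NumberField.discr F) (hsm : Smooth F hw)
    (m : 𝓞 F) (hm0 : m ≠ 0) (h3 : (3 : 𝓞 F) ∣ m) (hm2 : IsCoprime m 2)
    (χ' : Ideal (𝓞 F) → ℤ) (hχ' : IsRC F m χ') (Φ' : ℂ → ℂ) (hΦ' : IsL F χ' Φ')
    (hbase : ∀ A : ValuationSubring ℂ, A.valuation 2 < 1 → A.valuation (Φ' 1 / OmC ^ (r + 1)) = 1)
    (χ : Ideal (𝓞 F) → ℤ) (hχ : IsRC F m χ) (N0 : ℕ) (hN0 : Odd N0) :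
    ∃ (Φ : ℂ → ℂ) (N : ℕ) (δ : ℂ), IsL F χ Φ ∧
    (∀ A : ValuationSubring ℂ, A.valuation 2 < 1 → A.valuation (Φ 1 / OmC ^ (r + 1)) = 1) ∧
    Odd N ∧ 3 ∣ N ∧ N0 ∣ N ∧ |(NumberField.discr F : ℝ)| = 3 ^ (r + 1) * ‖δ‖ ^ 4 ∧ δ ≠ 0 ∧
    (∃ s : Fin (r + 1) → F →+* ℂ, IsS F hw s ∧ IsDel F hw s δ) ∧
    ∀ σ : ℂ ≃+* ℂ, σ w = w → ∀ u : Eis, IsCoprime u (N : Eis) → (3 : Eis) ∣ u - 1 →
      (∀ c : Eis, ptMap (σ : ℂ →+* ℂ) (pt (emb c / N)) = pt (emb (c * u) / N)) →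
      σ (Φ 1 / OmC ^ (r + 1)) * σ δ
        = (χ (Ideal.span {eF F hw u}) : ℂ) * (Φ 1 / OmC ^ (r + 1)) * δ := by
  obtain ⟨C, N, T, δ, Q, hNodd, hN3, hNN0, hdis, hδ, hS, hC, hQ0, hQm, hQ2, hTint, hTgal, hall⟩ :=
    hecke_final F hw hrank hodd hsm m hm0 h3 hm2 N0 hN0
  obtain ⟨Φ, hΦd, hΦs, hΦv⟩ := hall χ hχ
  obtain ⟨Φ₁, hΦ₁d, hΦ₁s, hΦ₁v⟩ := hall χ' hχ'
  have hΦ₁ : Φ₁ = Φ' := h7_unique ⟨hΦ₁d, hΦ₁s⟩ hΦ'
  subst hΦ₁
  have hO : OmC ^ (r + 1) ≠ 0 := pow_ne_zero _ OmC_ne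
  have hone : ∀ χ₀ : Ideal (𝓞 F) → ℤ, IsRC F m χ₀ → χ₀ (Ideal.span {eF F hw 1}) = 1 := by
    intro χ₀ h₀
    rw [map_one]
    exact h₀.one 1 one_ne_zero (by rw [sub_self]; exact dvd_zero _)
  have hc1 : IsCoprime (1 : Eis) (N : Eis) := isCoprime_one_left
  have h31 : (3 : Eis) ∣ 1 - 1 := by rw [sub_self]; exact dvd_zero _
  have e1 := hΦv 1 hc1 h31
  have e2 := hΦ₁v 1 hc1 h31
  rw [hone χ hχ, Int.cast_one, mul_one] at e1
  rw [hone χ' hχ', Int.cast_one, mul_one] at e2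
  set K : ℂ := (χ Q : ℂ) * conj (emb (psi F Q)) - 1 with hK
  set K' : ℂ := (χ' Q : ℂ) * conj (emb (psi F Q)) - 1 with hK'
  have f1 : K * (Φ 1 / OmC ^ (r + 1)) = ∑ b ∈ C, (χ b : ℂ) * T b 1 := by
    rw [← mul_div_assoc, e1, mul_div_cancel_left₀ _ hO]
  have f2 : K' * (Φ₁ 1 / OmC ^ (r + 1)) = ∑ b ∈ C, (χ' b : ℂ) * T b 1 := by
    rw [← mul_div_assoc, e2, mul_div_cancel_left₀ _ hO]
  have hval : ∀ A : ValuationSubring ℂ, A.valuation 2 < 1 →
      A.valuation (Φ 1 / OmC ^ (r + 1)) = 1 := by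
    intro A hA
    have v1 : A.valuation K = 1 := h7_unit _ hQ2 _ (hχ.pm Q hQ0 hQm) A hA
    have v2 : A.valuation K' = 1 := h7_unit _ hQ2 _ (hχ'.pm Q hQ0 hQm) A hA
    have v3 : A.valuation (∑ b ∈ C, (χ' b : ℂ) * T b 1) = 1 := by
      rw [← f2, map_mul, v2, hbase A hA, mul_one]
    have v4 : A.valuation (∑ b ∈ C, ((χ b : ℂ) - χ' b) * T b 1) < 1 := by
      refine A.valuation.map_sum_lt one_ne_zero ?_
      intro b hb
      obtain ⟨hb0, hbm⟩ := hC b hb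
      rw [map_mul]
      have h5 : A.valuation ((χ b : ℂ) - χ' b) < 1 := by
        rcases hχ.pm b hb0 hbm with h | h <;> rcases hχ'.pm b hb0 hbm with h' | h' <;> rw [h, h']
        · simp
        · push_cast
          have : (1 : ℂ) - -1 = 2 := by norm_num
          rw [this]; exact hA
        · push_cast
          have : (-1 : ℂ) - 1 = -2 := by norm_num
          rw [this, Valuation.map_neg]; exact hA
        · simp
      calc A.valuation ((χ b : ℂ) - χ' b) * A.valuation (T b 1)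
          ≤ A.valuation ((χ b : ℂ) - χ' b) * 1 := by gcongr; exact hTint A hA b hb
        _ < 1 := by rw [mul_one]; exact h5
    have e3 : ∑ b ∈ C, (χ b : ℂ) * T b 1 = ∑ b ∈ C, ((χ b : ℂ) - χ' b) * T b 1 +
        ∑ b ∈ C, (χ' b : ℂ) * T b 1 := by
      rw [← Finset.sum_add_distrib]
      refine Finset.sum_congr rfl fun b _ => ?_
      ring
    have v5 : A.valuation (∑ b ∈ C, (χ b : ℂ) * T b 1) = 1 := by
      rw [e3, Valuation.map_add_eq_of_lt_right, v3]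
      rw [v3]; exact v4
    rw [← f1, map_mul, v1, one_mul] at v5
    exact v5
  refine ⟨Φ, N, δ, ⟨hΦd, hΦs⟩, hval, hNodd, hN3, hNN0, hdis, hδ, hS, ?_⟩
  intro σ hσ u hu hu3 hpt
  obtain ⟨A, hA⟩ := exists_val
  have hK0 : K ≠ 0 := by
    intro h0
    have v1 : A.valuation K = 1 := h7_unit _ hQ2 _ (hχ.pm Q hQ0 hQm) A hA
    rw [h0, _root_.map_zero] at v1
    exact zero_ne_one v1
  have hΦ0 : Φ 1 / OmC ^ (r + 1) ≠ 0 := by
    intro h0
    have v1 := hval A hA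
    rw [h0, _root_.map_zero] at v1
    exact zero_ne_one v1
  have e3 := hΦv u hu hu3
  have f3 : K * (Φ 1 / OmC ^ (r + 1)) =
      (χ (Ideal.span {eF F hw u}) : ℂ) * ∑ b ∈ C, (χ b : ℂ) * T b u := by
    rw [← mul_div_assoc, e3, mul_assoc, mul_div_cancel_left₀ _ hO]
  have hσemb : ∀ a : Eis, σ (emb a) = emb a := by
    intro a
    rw [emb_apply, map_add, map_mul, map_intCast, map_intCast, hσ]
  have hσK : σ K = K := by
    have h1 : K = emb (star ((χ Q : Eis) * psi F Q - 1)) := by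
      rw [hK, CM27.emb_star]
      simp only [map_sub, map_mul, map_one, map_intCast]
    rw [h1, hσemb]
  have hσint : ∀ n : ℤ, σ ((n : ℤ) : ℂ) = n := fun n => map_intCast σ n
  have f4 : K * σ (Φ 1 / OmC ^ (r + 1)) * σ δ = (∑ b ∈ C, (χ b : ℂ) * T b u) * δ := by
    have h1 : K * σ (Φ 1 / OmC ^ (r + 1)) = ∑ b ∈ C, (χ b : ℂ) * σ (T b 1) := by
      have h2 := congrArg σ f1
      rw [map_mul, hσK, map_sum] at h2
      rw [h2]
      refine Finset.sum_congr rfl fun b _ => ?_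
      rw [map_mul, hσint]
    rw [h1, Finset.sum_mul, Finset.sum_mul]
    refine Finset.sum_congr rfl fun b hb => ?_
    rw [mul_assoc, hTgal σ hσ u hu hu3 hpt b hb, mul_assoc]
  set k : ℤ := χ (Ideal.span {eF F hw u}) with hk
  have hk2 : ((k : ℤ) : ℂ) * k = 1 := by
    rcases h7_cases hχ (Ideal.span {eF F hw u}) with h | h | h
    · exfalso
      rw [← hk] at h
      rw [h, Int.cast_zero, zero_mul] at f3
      exact (mul_ne_zero hK0 hΦ0) f3
    · rw [hk, h]; norm_num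
    · rw [hk, h]; norm_num
  apply mul_left_cancel₀ hK0
  have f5 : K * (σ (Φ 1 / OmC ^ (r + 1)) * σ δ) = (∑ b ∈ C, (χ b : ℂ) * T b u) * δ := by
    rw [← mul_assoc]; exact f4
  rw [f5]
  have f6 : K * ((k : ℂ) * (Φ 1 / OmC ^ (r + 1)) * δ) =
      (k : ℂ) * (K * (Φ 1 / OmC ^ (r + 1))) * δ := by ring
  rw [f6, f3]
  linear_combination (-(∑ b ∈ C, (χ b : ℂ) * T b u) * δ) * hk2

end NG
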