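import Pool.Agent.MP_9ab903_nt.NG.H7
import Pool.Agent.MP_9ab903_nt.NAB.C2

/-! ## [NG-H8] rationality of the value

As `NAB/C2.lean` (`adata`). `t = Φ(1)/OmC^n`, `n = r + 1`, `ρ² = emb ν`, `τ = t δ ρ`. For every `σ` with `σ w = w` take `u` from `gal_fix` (AN/A7):
`σ τ = χ(u)² τ = τ` (`value_unit`, `hgal`; `χ(u) = ± 1` because `u` is prime to `N`: `value_unit` for `N0' = N0 * absNorm (m)`, so `m ∣ N`).
So `τ` is fixed by all automorphisms fixing `w`: `‖τ‖²` is rational (`c2_rat`, `c2_fixed`). `‖τ‖² = ‖t‖² ‖δ‖² √(norm ν)`, `‖δ‖² = √|discr F| / 3^(n/2)`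
(any `n`), `‖OmC‖ = Om`: `q = ‖τ‖²`. `A.valuation q = 1`: `value_unit` for `A` and `conj⁻¹ A` (`c2_conj_val`), `discr F` and `norm ν` odd. -/

set_option autoImplicit false

open NumberField IsDedekindDomain MeasureTheory Set
open CM27 CMT CF NAB
open scoped ComplexConjugate Classical Matrix

namespace NG

variable {r : ℕ} (F : IntermediateField ℚ ℂ) [NumberField F] (hw : w ∈ F)

theorem value_rat (hrank : Module.finrank ℚ F = 2 * (r + 1))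
    (hodd : ¬ (2 : ℤ) ∣ NumberField.discr F) (hsm : Smooth F hw)
    (m : 𝓞 F) (hm0 : m ≠ 0) (h3 : (3 : 𝓞 F) ∣ m) (hm2 : IsCoprime m 2)
    (χ' : Ideal (𝓞 F) → ℤ) (hχ' : IsRC F m χ') (Φ' : ℂ → ℂ) (hΦ' : IsL F χ' Φ')
    (hbase : ∀ A : ValuationSubring ℂ, A.valuation 2 < 1 → A.valuation (Φ' 1 / OmC ^ (r + 1)) = 1)
    (χ : Ideal (𝓞 F) → ℤ) (hχ : IsRC F m χ) (N0 : ℕ) (hN0 : Odd N0) (ν : Eis) (hν : Odd ν.norm)
    (hgal : ∀ N : ℕ, Odd N → 3 ∣ N → N0 ∣ N → ∀ σ : ℂ ≃+* ℂ, σ w = w → ∀ u : Eis,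
      IsCoprime u (N : Eis) → (3 : Eis) ∣ u - 1 →
      (∀ c : Eis, ptMap (σ : ℂ →+* ℂ) (pt (emb c / N)) = pt (emb (c * u) / N)) →
      ∀ ρ : ℂ, ρ ^ 2 = emb ν → σ ρ = (χ (Ideal.span {eF F hw u}) : ℂ) * ρ) :
    ∃ Φ : ℂ → ℂ, IsL F χ Φ ∧
      (∀ A : ValuationSubring ℂ, A.valuation 2 < 1 → A.valuation (Φ 1 / OmC ^ (r + 1)) = 1) ∧
      ∃ q : ℚ, 0 < q ∧ padicValRat 2 q = 0 ∧
        ‖Φ 1‖ ^ 2 * √|(NumberField.discr F : ℝ)| * √(ν.norm : ℝ)
          = q * √3 ^ (r + 1) * Om ^ (2 * (r + 1)) := by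
  obtain ⟨Φ, N, δ, hΦ, hval, hNodd, hN3, hNN0, hdis, hδ, -, hσ⟩ :=
    value_unit F hw hrank hodd hsm m hm0 h3 hm2 χ' hχ' Φ' hΦ' hbase χ hχ N0 hN0
  obtain ⟨ρ, hρ⟩ := IsAlgClosed.exists_pow_nat_eq (emb ν) (by norm_num : 0 < 2)
  have hν0 : emb ν ≠ 0 := by
    intro h0
    have h1 := norm_emb_sq ν
    rw [h0, norm_zero, zero_pow two_ne_zero] at h1
    have h2 : ν.norm = 0 := by exact_mod_cast h1.symm
    rw [h2] at hν
    exact absurd hν (by decide)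
  have hρ0 : ρ ≠ 0 := by
    intro h0
    rw [h0, zero_pow two_ne_zero] at hρ
    exact hν0 hρ.symm
  set t : ℂ := Φ 1 / OmC ^ (r + 1) with ht
  obtain ⟨A, hA⟩ := exists_val
  have ht0 : t ≠ 0 := by
    intro h0
    have h1 := hval A hA
    rw [h0, _root_.map_zero] at h1
    exact zero_ne_one h1
  -- rationality
  have hNpos : 0 < N := hNodd.pos
  have hfix : ∀ σ : ℂ ≃+* ℂ, σ w = w → σ (t * δ * ρ) = t * δ * ρ := by
    intro σ hσw
    obtain ⟨u, u', hu1, hu2, hu3⟩ := gal_fix N hNpos hN3 σ hσw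
    have hcop : IsCoprime u (N : Eis) := by
      obtain ⟨c, hc⟩ := hu1
      refine ⟨u', -c, ?_⟩
      linear_combination hc
    have e1 := hσ σ hσw u hcop hu2 hu3
    have e2 := hgal N hNodd hN3 hNN0 σ hσw u hcop hu2 hu3 ρ hρ
    set k : ℤ := χ (Ideal.span {eF F hw u}) with hk
    have hk0 : k ≠ 0 := by
      intro h0
      rw [h0, Int.cast_zero, zero_mul] at e2
      exact hρ0 ((map_eq_zero σ).1 e2)
    have hk2 : ((k : ℤ) : ℂ) * k = 1 := by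
      rcases h7_cases hχ (Ideal.span {eF F hw u}) with h1 | h1 | h1
      · exact absurd h1 hk0
      · rw [hk, h1]; norm_num
      · rw [hk, h1]; norm_num
    rw [map_mul, map_mul, e1, e2]
    linear_combination (t * δ * ρ) * hk2
  obtain ⟨q, hq⟩ := c2_rat (t * δ * ρ) hfix
  -- the formula
  have hq2 : (q : ℝ) = ‖t‖ ^ 2 * ‖δ‖ ^ 2 * ‖ρ‖ ^ 2 := by
    have h1 : ((q : ℝ) : ℂ) = ((‖t * δ * ρ‖ ^ 2 : ℝ) : ℂ) := by
      rw [← Complex.normSq_eq_norm_sq, ← Complex.mul_conj, ← hq]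
      norm_num
    have h2 : (q : ℝ) = ‖t * δ * ρ‖ ^ 2 := by exact_mod_cast h1
    rw [h2, norm_mul, norm_mul]
    ring
  have hρn : ‖ρ‖ ^ 2 = √(ν.norm : ℝ) := by
    rw [← norm_pow, hρ, ← norm_emb_sq, Real.sqrt_sq (norm_nonneg _)]
  have h3k : (3 : ℝ) ^ (r + 1) = (√3 ^ (r + 1)) ^ 2 := by
    rw [← pow_mul, mul_comm (r + 1) 2, pow_mul, Real.sq_sqrt (by norm_num)]
  have hδn : √|(discr F : ℝ)| = √3 ^ (r + 1) * ‖δ‖ ^ 2 := by
    rw [hdis, h3k]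
    have : (√3 ^ (r + 1)) ^ 2 * ‖δ‖ ^ 4 = (√3 ^ (r + 1) * ‖δ‖ ^ 2) ^ 2 := by ring
    rw [this, Real.sqrt_sq (by positivity)]
  have hΦn : ‖Φ 1‖ ^ 2 = ‖t‖ ^ 2 * Om ^ (2 * (r + 1)) := by
    have h1 : Φ 1 = t * OmC ^ (r + 1) := by
      rw [ht, div_mul_cancel₀]
      exact pow_ne_zero _ OmC_ne
    have h2 : ‖OmC‖ = Om := by
      rw [OmC, norm_mul, Complex.norm_I, one_mul, Complex.norm_real, Real.norm_eq_abs,
        abs_of_pos Om_pos]
    rw [h1, norm_mul, norm_pow, h2, mul_pow, ← pow_mul, mul_comm (r + 1) 2]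
  have hqpos : 0 < q := by
    have h1 : (0 : ℝ) < q := by
      rw [hq2]
      have := norm_pos_iff.2 ht0
      have := norm_pos_iff.2 hδ
      have := norm_pos_iff.2 hρ0
      positivity
    exact_mod_cast h1
  -- valuations
  have v1 : A.valuation t = 1 := hval A hA
  have v2 : A.valuation (conj t) = 1 := c2_conj_val t hval A hA
  have hoddF : Odd (discr F).natAbs := by
    rw [← Nat.not_even_iff_odd, even_iff_two_dvd]
    intro h
    apply hodd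
    rw [← Int.natAbs_dvd_natAbs]
    exact h
  have v3 : A.valuation (δ * conj δ) = 1 := by
    apply c2_sq
    have h1 : 3 ^ (r + 1) * (δ * conj δ) ^ 2 = (((discr F).natAbs : ℕ) : ℂ) := by
      have h2 : (((discr F).natAbs : ℕ) : ℝ) = 3 ^ (r + 1) * ‖δ‖ ^ 4 := by
        rw [Nat.cast_natAbs, Int.cast_abs, hdis]
      have h4 : ((((discr F).natAbs : ℕ) : ℝ) : ℂ) = ((3 ^ (r + 1) * ‖δ‖ ^ 4 : ℝ) : ℂ) := by rw [h2]
      rw [Complex.mul_conj, Complex.normSq_eq_norm_sq]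
      push_cast at h4 ⊢
      rw [h4]
      ring
    have h5 : A.valuation ((3 : ℂ) ^ (r + 1)) = 1 := by
      have := c2_odd A hA (3 ^ (r + 1)) (Odd.pow (by decide))
      exact_mod_cast this
    have h6 := congrArg A.valuation h1
    rw [map_mul, h5, one_mul, c2_odd A hA _ hoddF] at h6
    exact h6
  have v4 : A.valuation (ρ * conj ρ) = 1 := by
    apply c2_sq
    have h1 : (ρ * conj ρ) ^ 2 = ((ν.norm : ℤ) : ℂ) := by
      have h2 := norm_emb_sq ν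
      rw [← hρ, norm_pow] at h2
      have h4 : (((‖ρ‖ ^ 2) ^ 2 : ℝ) : ℂ) = (((ν.norm : ℤ) : ℝ) : ℂ) := by rw [h2]
      rw [Complex.mul_conj, Complex.normSq_eq_norm_sq]
      push_cast at h4 ⊢
      rw [h4]
    rw [h1]
    exact val_odd A hA _ hν
  have hval3 : A.valuation ((q : ℚ) : ℂ) = 1 := by
    have h1 : ((q : ℚ) : ℂ) = (t * conj t) * (δ * conj δ) * (ρ * conj ρ) := by
      rw [hq]
      simp only [map_mul]
      ring
    rw [h1, map_mul, map_mul, map_mul, v1, v2, v3, v4]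
    simp
  refine ⟨Φ, hΦ, hval, q, hqpos, rat_val _ A hA hval3, ?_⟩
  rw [hΦn, hρn.symm, hδn, hq2]
  ring

end NG
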