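import Pool.Agent.MP_9ab903_nt.NAB.BDefs
import Pool.Agent.MP_9ab903_nt.NG.Defs

/-!
# [NG] part H (Hecke `L`-series of a field `F ∋ ω` of degree `2 (r + 1)`): definitions

Frame: `F : IntermediateField ℚ ℂ`, `w ∈ F`, `[F : ℚ] = 2 (r + 1)`, `eF F hw : Eis →+* 𝓞 F`; `s j`, `j ≤ r`: the embeddings of
`F` over `ℚ(ω)`.
-/

set_option autoImplicit false

open NumberField IsDedekindDomain MeasureTheory Set
open CM27 CMT CF NAB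
open scoped ComplexConjugate Classical Matrix

namespace NG

/-- The vector `2 W / (c i √3)` of the additive character of `(ℤ[ω]/c)ⁿ` with parameter `W`. -/
noncomputable def wc {n : ℕ} (c : Eis) (W : Fin n → Eis) : Fin n → ℂ :=
  fun i => 2 * emb (W i) / (emb c * (Complex.I * (√3 : ℝ)))

section
variable {r : ℕ} (F : IntermediateField ℚ ℂ) [NumberField F] (hw : w ∈ F)

/-- The embeddings of `F` over `ℚ(ω)`. -/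
structure IsS (s : Fin (r + 1) → F →+* ℂ) : Prop where
  fix : ∀ j, s j ⟨w, hw⟩ = w
  inj : Function.Injective s
  rank : Module.finrank ℚ F = 2 * (r + 1)

/-- The units congruent to `1` modulo `𝔫`. -/
def UM (𝔫 : Ideal (𝓞 F)) : Subgroup (𝓞 F)ˣ where
  carrier := {u | (u : 𝓞 F) - 1 ∈ 𝔫}
  one_mem' := by simp
  mul_mem' := by
    intro a b ha hb
    have h : ((a * b : (𝓞 F)ˣ) : 𝓞 F) - 1 = (a : 𝓞 F) * ((b : 𝓞 F) - 1) + ((a : 𝓞 F) - 1) := by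
      push_cast; ring
    simp only [mem_setOf_eq] at ha hb ⊢
    rw [h]
    exact 𝔫.add_mem (𝔫.mul_mem_left _ hb) ha
  inv_mem' := by
    intro a ha
    have h : ((a⁻¹ : (𝓞 F)ˣ) : 𝓞 F) - 1 = -((a⁻¹ : (𝓞 F)ˣ) : 𝓞 F) * ((a : 𝓞 F) - 1) := by
      have h2 : ((a⁻¹ : (𝓞 F)ˣ) : 𝓞 F) * (a : 𝓞 F) = 1 := by simp
      linear_combination h2
    simp only [mem_setOf_eq] at ha ⊢
    rw [h]
    exact 𝔫.mul_mem_left _ ha

/-- `∏ e_i ^ k_i` -/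
noncomputable def ez (e : Fin r → (𝓞 F)ˣ) (k : Fin r → ℤ) : (𝓞 F)ˣ := ∏ i, e i ^ k i

/-- `|s_j (e_i)|²` -/
noncomputable def ab (s : Fin (r + 1) → F →+* ℂ) (e : Fin r → (𝓞 F)ˣ) : Fin r → Fin (r + 1) → ℝ :=
  fun i j => ‖s j ((e i : 𝓞 F) : F)‖ ^ 2

/-- `e` is a basis of `UM 𝔫`. -/
structure IsB (s : Fin (r + 1) → F →+* ℂ) (𝔫 : Ideal (𝓞 F)) (e : Fin r → (𝓞 F)ˣ) : Prop where
  mem : ∀ i, e i ∈ UM F 𝔫
  norm : ∀ i, ∏ j, s j ((e i : 𝓞 F) : F) = 1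
  pos : 0 < JE (ab F s e)
  gen : ∀ u ∈ UM F 𝔫, ∃! k : Fin r → ℤ, u = ez F e k

/-- `η` represents the classes of `UM (m)` modulo the group generated by `e`. -/
structure IsRep (m : 𝓞 F) (e : Fin r → (𝓞 F)ˣ) (q : ℕ) (η : Fin q → (𝓞 F)ˣ) : Prop where
  mem : ∀ j, η j ∈ UM F (Ideal.span {m})
  uniq : ∀ v ∈ UM F (Ideal.span {m}), ∃! p : Fin q × (Fin r → ℤ), v = ez F e p.2 * η p.1

/-- `δ = det (s_j θ_i)` for a basis `θ` of `𝓞 F` over `ℤ[ω]`. -/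
structure IsDel (s : Fin (r + 1) → F →+* ℂ) (δ : ℂ) : Prop where
  ne : δ ≠ 0
  basis : ∃ θ : Fin (r + 1) → 𝓞 F, δ = Matrix.det (Matrix.of fun j i => s j (θ i : F)) ∧
    ∀ g : 𝓞 F, ∃ a : Fin (r + 1) → Eis, g = ∑ i, eF F hw (a i) * θ i

/-- Coordinates of the lattice `m b` and of the set `{g ∈ b | g ≡ 1 mod m}`. -/
structure LD (s : Fin (r + 1) → F →+* ℂ) (m : 𝓞 F) (e : Fin r → (𝓞 F)ˣ) (b : Ideal (𝓞 F)) (N : ℕ)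
    (δ : ℂ) where
  L : Mc (r + 1)
  M : Fin r → Me (r + 1)
  x : Fin (r + 1) → ℂ
  hL : L.det ≠ 0
  hM : ∀ i, (M i).det = 1
  hcomm : ∀ i j, M i * M j = M j * M i
  hLM : ∀ i j, L j ᵥ* cm (M i) = s j ((e i : 𝓞 F) : F) • L j
  hM2 : (∀ i, (2 : 𝓞 F) ∣ (e i : 𝓞 F) - 1) → ∀ i a b, (2 : Eis) ∣ (M i - 1) a b
  hx : (fun i => (N : ℂ) * x i) ∈ Lz (r + 1)
  hx0 : x ∉ Lz (r + 1)
  hMx : ∀ i, ∃ t : Fin (r + 1) → Eis, cm (M i) *ᵥ x = x + em t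
  lat : ∀ g : 𝓞 F, g ∈ Ideal.span {m} * b ↔
    ∃ t : Fin (r + 1) → Eis, ∀ j, s j (g : F) = L j ⬝ᵥ em t
  bij : ∀ u : Eis, ∃ φ : (Fin (r + 1) → Eis) ≃ {g : 𝓞 F // g ∈ b ∧ m ∣ g - eF F hw u}, ∀ t j,
    s j ((φ t : 𝓞 F) : F) = L j ⬝ᵥ ((fun i => emb u * x i) + em t)
  val : ∀ A : ValuationSubring ℂ, A.valuation 2 < 1 → A.valuation L.det = 1
  gal : ∀ σ : ℂ ≃+* ℂ, σ w = w → σ L.det * δ = L.det * σ δ

/-- Quadratic (or trivial) ray class characters modulo `m`. -/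
structure IsRC (m : 𝓞 F) (χ : Ideal (𝓞 F) → ℤ) : Prop where
  mul : ∀ I J, χ (I * J) = χ I * χ J
  zero : ∀ I, ¬ IsCoprime I (Ideal.span {m}) → χ I = 0
  pm : ∀ I, I ≠ 0 → IsCoprime I (Ideal.span {m}) → χ I = 1 ∨ χ I = -1
  one : ∀ g : 𝓞 F, g ≠ 0 → m ∣ g - 1 → χ (Ideal.span {g}) = 1

/-- Smoothing primes of arbitrarily large norm. -/
def Smooth : Prop := ∀ B : ℕ, ∃ (Q : Ideal (𝓞 F)) (c : Eis), Q.IsPrime ∧ Q ≠ ⊥ ∧ Prime c ∧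
  eF F hw c ∈ Q ∧ B < c.norm.natAbs ∧ ¬ (2 : Eis) ∣ psi F Q - 1

/-- The data common to all ideal classes. -/
structure HD (r : ℕ) where
  s : Fin (r + 1) → F →+* ℂ
  hs : IsS F hw s
  m : 𝓞 F
  hm0 : m ≠ 0
  h3 : (3 : 𝓞 F) ∣ m
  hm2 : IsCoprime m 2
  Q : Ideal (𝓞 F)
  hQ : Q.IsPrime
  hQ0 : Q ≠ ⊥
  hQm : IsCoprime Q (Ideal.span {m})
  hQ2 : IsCoprime Q (Ideal.span {(2 : 𝓞 F)})
  c : Eis
  hc : Prime c
  hcQ : eF F hw c ∈ Q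
  e : Fin r → (𝓞 F)ˣ
  he : IsB F s ((Ideal.span {m} ⊓ Q) ⊓ Ideal.span {(2 : 𝓞 F)}) e
  q : ℕ
  η : Fin q → (𝓞 F)ˣ
  hη : IsRep F m e q η
  δ : ℂ
  hδ : IsDel F hw s δ

/-- The function of `s` attached to an ideal `b` and an additive character. -/
noncomputable def AA {F : IntermediateField ℚ ℂ} [NumberField F] {hw : w ∈ F} (H : HD F hw r)
    {b : Ideal (𝓞 F)} {N : ℕ} (D : LD F hw H.s H.m H.e b N H.δ) (v : Fin (r + 1) → ℂ) (u : Eis)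
    (s : ℂ) : ℂ :=
  (Real.pi : ℂ) ^ ((r + 1 : ℂ) * s) * (Complex.Gamma s ^ (r + 1))⁻¹ * (JE (ab F H.s H.e) : ℂ)
    * TI v (fun i => emb u * D.x i) D.L (ab F H.s H.e) (s - 1)

/-- The normalised value at `s = 1`. -/
noncomputable def VV {F : IntermediateField ℚ ℂ} [NumberField F] {hw : w ∈ F} (H : HD F hw r)
    {b : Ideal (𝓞 F)} {N : ℕ} (D : LD F hw H.s H.m H.e b N H.δ) (v : Fin (r + 1) → ℂ) (u : Eis) :
    ℂ :=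
  (Real.pi : ℂ) ^ (r + 1) * D.L.det * (JE (ab F H.s H.e) : ℂ)
    * TI v (fun i => emb u * D.x i) D.L (ab F H.s H.e) 0 / OmC ^ (r + 1)

end

end NG
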