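import Pool.Agent.MP_9ab903_nt.NG.H0

/-! ## [NG-SM] smoothing primes exist in every field `F ∋ ω` of degree `2 (r + 1)`, `3 ∤ r + 1` -/

set_option autoImplicit false

open NumberField IsDedekindDomain MeasureTheory Set
open CM27 CMT CF NAB
open scoped ComplexConjugate Classical Matrix

namespace NG

/-- `ω` as an element of `ℤ[ω]`. -/
def om : Eis := ⟨0, 1⟩

theorem om_sq : om ^ 2 + om + 1 = 0 := by
  apply emb_injective
  have h : emb om = w := by simp [om, emb]
  rw [map_add, map_add, map_pow, h, map_one, _root_.map_zero]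
  linear_combination w_sq

theorem om_cube : om ^ 3 = 1 := by
  linear_combination (om - 1) * om_sq

theorem sm_two {a : Eis} (h : (2 : Eis) ∣ a) : (2 : ℤ) ∣ a.re ∧ (2 : ℤ) ∣ a.im := by
  obtain ⟨b, rfl⟩ := h
  have e1 : (2 : Eis).re = 2 := rfl
  have e2 : (2 : Eis).im = 0 := rfl
  refine ⟨⟨b.re, ?_⟩, ⟨b.im, ?_⟩⟩
  · rw [QuadraticAlgebra.re_mul, e1, e2]; ring
  · rw [QuadraticAlgebra.im_mul, e1, e2]; ring

theorem sm_pow (n : ℕ) (h : ¬ 3 ∣ n) : ¬ (2 : Eis) ∣ om ^ n - 1 := by
  have h1 : om ^ n = om ^ (n % 3) := by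
    conv_lhs => rw [← Nat.div_add_mod n 3, pow_add, pow_mul, om_cube, one_pow, one_mul]
  have h2 : n % 3 = 1 ∨ n % 3 = 2 := by omega
  rw [h1]
  rcases h2 with h2 | h2
  · rw [h2, pow_one]
    intro h3
    have h4 := (sm_two h3).2
    have e : (om - 1 : Eis).im = 1 := by
      rw [QuadraticAlgebra.im_sub, QuadraticAlgebra.im_one]
      simp [om]
    rw [e] at h4
    omega
  · rw [h2]
    intro h3
    have h4 := (sm_two h3).2
    have e0 : om ^ 2 - 1 = -om - 2 := by linear_combination om_sq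
    have e1 : (2 : Eis).im = 0 := rfl
    have e : (-om - 2 : Eis).im = -1 := by
      rw [QuadraticAlgebra.im_sub, QuadraticAlgebra.im_neg, e1]
      simp [om]
    rw [e0, e] at h4
    omega

variable {r : ℕ} (F : IntermediateField ℚ ℂ) [NumberField F] (hw : w ∈ F)

theorem sm_exists (I : Ideal (𝓞 F)) (hI : I ≠ 0) (h : ¬ (2 : Eis) ∣ psi F I - 1) :
    ∃ v : HeightOneSpectrum (𝓞 F), v.asIdeal ∣ I ∧ ¬ (2 : Eis) ∣ psi F v.asIdeal - 1 := by
  by_contra hcon
  push Not at hcon
  apply h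
  revert hcon
  refine ideal_induction (P := fun I => (∀ v : HeightOneSpectrum (𝓞 F), v.asIdeal ∣ I →
    (2 : Eis) ∣ psi F v.asIdeal - 1) → (2 : Eis) ∣ psi F I - 1) ?_ ?_ I hI
  · intro _
    rw [NAB.psi, NAB.cm_one, sub_self]
    exact dvd_zero _
  · intro v I hI ih hv
    have h1 := hv v (dvd_mul_right _ _)
    have h2 := ih (fun v' hv' => hv v' (hv'.trans (dvd_mul_left _ _)))
    have h3 : psi F (v.asIdeal * I) = psi F v.asIdeal * psi F I := by
      simp only [NAB.psi]
      exact NAB.cm_mul _ _ _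
    rw [h3]
    obtain ⟨a, ha⟩ := h1
    obtain ⟨b, hb⟩ := h2
    refine ⟨a * psi F I + b, ?_⟩
    linear_combination psi F I * ha + hb

theorem smooth_all (hrank : Module.finrank ℚ F = 2 * (r + 1)) (h3 : ¬ 3 ∣ r + 1) :
    Smooth F hw := by
  obtain ⟨s, hs⟩ := exists_s F hw hrank
  intro B
  set M : ℕ := 3 * ∏ k ∈ (Finset.range (B + 1)).filter Odd, k with hM
  have hModd : Odd M := by
    rw [hM, Nat.odd_mul]
    refine ⟨by decide, ?_⟩
    exact Finset.prod_induction _ Odd (fun a b ha hb => ha.mul hb) odd_one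
      (fun k hk => (Finset.mem_filter.1 hk).2)
  set g : Eis := 1 + (M : Eis) * (om - 1) with hg
  obtain ⟨M', hM'⟩ := hModd
  have hg2 : g = om + 2 * ((M' : Eis) * (om - 1)) := by
    rw [hg, hM']
    push_cast
    ring
  have hg3 : (3 : Eis) ∣ g - 1 := by
    refine ⟨((∏ k ∈ (Finset.range (B + 1)).filter Odd, k : ℕ) : Eis) * (om - 1), ?_⟩
    rw [hg, hM]
    push_cast
    ring
  have hg0 : g ≠ 0 := by
    intro h0
    obtain ⟨t, ht⟩ := hg3
    rw [h0] at ht
    have h1 := congrArg QuadraticAlgebra.re ht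
    have e1 : (3 : Eis).re = 3 := rfl
    have e2 : (3 : Eis).im = 0 := rfl
    have e3 : (0 - 1 : Eis).re = -1 := by
      rw [QuadraticAlgebra.re_sub, QuadraticAlgebra.re_one]; rfl
    rw [e3, QuadraticAlgebra.re_mul, e1, e2] at h1
    generalize (((∏ k ∈ (Finset.range (B + 1)).filter Odd, k : ℕ) : Eis) * (om - 1)).re = X at h1
    generalize (((∏ k ∈ (Finset.range (B + 1)).filter Odd, k : ℕ) : Eis) * (om - 1)).im = Y at h1
    simp only [mul_zero, zero_mul, add_zero] at h1
    omega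
  have heF0 : eF F hw g ≠ 0 := by
    intro h0
    apply hg0
    apply emb_injective
    have h1 := s_eF F hw s hs 0 g
    rw [h0] at h1
    rw [← h1, _root_.map_zero]
    simp
  have hpsi : psi F (Ideal.span {eF F hw g}) = g ^ (r + 1) := by
    apply emb_injective
    rw [s_psi F hw s hs (eF F hw g) g hg3 (by rw [sub_self]; exact dvd_zero _), map_pow]
    rw [Finset.prod_congr rfl (fun j _ => s_eF F hw s hs j g), Finset.prod_const,
      Finset.card_univ, Fintype.card_fin]
  have hnot : ¬ (2 : Eis) ∣ psi F (Ideal.span {eF F hw g}) - 1 := by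
    rw [hpsi]
    intro h
    apply sm_pow (r + 1) h3
    have h1 : (2 : Eis) ∣ g ^ (r + 1) - om ^ (r + 1) := by
      have h2 : (2 : Eis) ∣ g - om := ⟨(M' : Eis) * (om - 1), by rw [hg2]; ring⟩
      exact h2.trans (sub_dvd_pow_sub_pow g om (r + 1))
    have h2 := dvd_sub h h1
    have h4 : g ^ (r + 1) - 1 - (g ^ (r + 1) - om ^ (r + 1)) = om ^ (r + 1) - 1 := by ring
    rwa [h4] at h2
  obtain ⟨v, hv, hv2⟩ := sm_exists F _ (by
    rw [Ne, Ideal.zero_eq_bot, Ideal.span_singleton_eq_bot]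
    exact heF0) hnot
  have hgv : eF F hw g ∈ v.asIdeal := by
    have h1 := Ideal.le_of_dvd hv
    exact h1 (Ideal.mem_span_singleton_self _)
  -- the prime below
  set J : Ideal Eis := v.asIdeal.comap (eF F hw) with hJ
  haveI : v.asIdeal.IsPrime := v.isPrime
  haveI hJp : J.IsPrime := Ideal.IsPrime.comap _
  have hJ0 : J ≠ ⊥ := by
    intro h0
    have h1 : g ∈ J := hgv
    rw [h0, Ideal.mem_bot] at h1
    exact hg0 h1
  haveI := eis_pid
  have hpr : Prime (Submodule.IsPrincipal.generator J) :=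
    Submodule.IsPrincipal.prime_generator_of_isPrime J hJ0
  set c : Eis := Submodule.IsPrincipal.generator J with hc
  have hcJ : c ∈ J := Submodule.IsPrincipal.generator_mem J
  have hcg : c ∣ g := (Submodule.IsPrincipal.mem_iff_generator_dvd J).1 hgv
  refine ⟨v.asIdeal, c, v.isPrime, v.ne_bot, hpr, hcJ, ?_, hv2⟩
  by_contra hcon
  push Not at hcon
  set l : ℕ := c.norm.natAbs with hl
  have hcl : c ∣ (l : Eis) := by
    refine ⟨star c, ?_⟩
    rw [a3_mul_star]
    have h1 : ((l : ℕ) : ℤ) = c.norm := Int.natAbs_of_nonneg (norm_nonneg' _)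
    rw [← h1]
    simp
  have hl0 : l ≠ 0 := by
    intro h0
    have h1 := norm_emb_sq c
    have h2 : c.norm = 0 := Int.natAbs_eq_zero.1 h0
    rw [h2] at h1
    have h4 : emb c = 0 := by
      rw [← norm_eq_zero]
      simpa using h1
    apply hpr.ne_zero
    apply emb_injective
    rw [h4, _root_.map_zero]
  obtain ⟨a, k, hk, hlk⟩ := Nat.exists_eq_two_pow_mul_odd hl0
  have hc2 : ¬ c ∣ 2 := by
    intro h
    have h1 : c ∣ om := by
      have h2 : om = g - 2 * ((M' : Eis) * (om - 1)) := by rw [hg2]; ring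
      rw [h2]
      exact dvd_sub hcg (h.mul_right _)
    apply hpr.not_isUnit
    have h4 : IsUnit om := IsUnit.of_mul_eq_one (om ^ 2) (by
      have := om_cube
      linear_combination this)
    exact isUnit_of_dvd_unit h1 h4
  have hcM : ¬ c ∣ (M : Eis) := by
    intro h
    apply hpr.not_isUnit
    apply isUnit_of_dvd_one
    have h2 : (1 : Eis) = g - (M : Eis) * (om - 1) := by rw [hg]; ring
    rw [h2]
    exact dvd_sub hcg (h.mul_right _)
  rw [hlk] at hcl
  push_cast at hcl
  rcases hpr.dvd_or_dvd hcl with h | h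
  · exact hc2 (hpr.dvd_of_dvd_pow h)
  · apply hcM
    refine h.trans ?_
    have h1 : k ≤ B := by
      refine le_trans ?_ hcon
      rw [hlk]
      exact Nat.le_mul_of_pos_left _ (by positivity)
    have h2 : k ∣ ∏ k ∈ (Finset.range (B + 1)).filter Odd, k :=
      Finset.dvd_prod_of_mem (fun k => k) (Finset.mem_filter.2 ⟨Finset.mem_range.2 (by omega), hk⟩)
    exact_mod_cast Nat.cast_dvd_cast (α := Eis) (h2.trans (Dvd.intro_left 3 rfl))

end NG
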